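import Mathlib

/-!
# MP_09338f_ag, project KM: the dimension of families of determinantal schemes

## Part 1: the objects of the theorem

`k` is a field, `R = k[x_0, …, x_n]`.  Rows are indexed by `Fin t` (row `i` has the degree
`b (i + 1)`), columns by `Fin (t + c - 1)` (column `j` has the degree `a j`).
-/

set_option autoImplicit false

open MvPolynomial

universe u

namespace Pool.Agent.Lib.MP_09338f_ag

/-- The coefficients of a matrix whose `(i, j)` entry is a form of degree `a j - b i` in the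
variables `x_0, …, x_(N-1)`: triples `(i, j, m)` with a monomial `m` of degree `a j - b i`. -/
def Coef {I J : Type} (N : ℕ) (a : J → ℤ) (b : I → ℤ) : Type :=
  {p : I × J × (Fin N →₀ ℕ) // ((p.2.2.degree : ℕ) : ℤ) = a p.2.1 - b p.1}

/-- The field `K = k(u)` of rational functions in the coefficients of the generic matrix. -/
abbrev GenField {I J : Type} (k : Type u) [Field k] (N : ℕ) (a : J → ℤ) (b : I → ℤ) : Type u :=
  FractionRing (MvPolynomial (Coef N a b) k)

open Classical in
/-- The generic matrix: the `(i, j)` entry is the sum of `u_(i,j,m) x^m` over all monomials `m` of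
degree `a j - b i` (so it is `0` if `a j < b i`). -/
noncomputable def genMatrix {I J : Type} (k : Type u) [Field k] (N : ℕ) (a : J → ℤ) (b : I → ℤ) :
    Matrix I J (MvPolynomial (Fin N) (GenField k N a b)) := fun i j =>
  ∑ m ∈ Finset.univ.finsuppAntidiag (a j - b i).toNat,
    if h : ((m.degree : ℕ) : ℤ) = a j - b i then
      monomial m (algebraMap (MvPolynomial (Coef N a b) k) (GenField k N a b) (X ⟨(i, j, m), h⟩))
    else 0

/-- The ideal of maximal minors of a matrix (the rows are indexed by `I`). -/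
def mins {I J : Type} {R : Type u} [Fintype I] [DecidableEq I] [CommRing R] (A : Matrix I J R) : Ideal R :=
  Ideal.span (Set.range fun e : I → J => (A.submatrix id e).det)

/-- The ideal `P` of `K[x]` is defined over the subfield `F` of `K`: it is generated by polynomials
with coefficients in `F`. -/
def DefinedOver {k K : Type u} {σ : Type} [Field k] [Field K] [Algebra k K] (P : Ideal (MvPolynomial σ K))
    (F : IntermediateField k K) : Prop :=
  P = Ideal.span {f | f ∈ P ∧ ∀ m, f.coeff m ∈ F}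

/-- The field of definition of `P`: the intersection of all fields over which `P` is defined. -/
noncomputable def fieldOfDef (k : Type u) {K : Type u} {σ : Type} [Field k] [Field K] [Algebra k K]
    (P : Ideal (MvPolynomial σ K)) : IntermediateField k K :=
  sInf {F | DefinedOver P F}

/-! ## The numbers of the formula -/

/-- The binomial coefficient with the convention `(u choose n) = 0` for `u < n`. -/
def bin (u : ℤ) (n : ℕ) : ℤ := if u < n then 0 else (u.toNat.choose n : ℤ)

/-- `λ_c`. -/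
def lam (n t c : ℕ) (a b : ℕ → ℤ) : ℤ :=
  ∑ i ∈ Finset.range (t + c - 1), ∑ j ∈ Finset.Icc 1 t, bin (a i - b j + n) n +
  ∑ i ∈ Finset.range (t + c - 1), ∑ j ∈ Finset.Icc 1 t, bin (b j - a i + n) n -
  ∑ i ∈ Finset.range (t + c - 1), ∑ j ∈ Finset.range (t + c - 1), bin (a i - a j + n) n -
  ∑ i ∈ Finset.Icc 1 t, ∑ j ∈ Finset.Icc 1 t, bin (b i - b j + n) n + 1

/-- `ℓ_m = ∑_{j=0}^{t+m-2} a_j - ∑_{k=1}^t b_k`. -/
def ell (t : ℕ) (a b : ℕ → ℤ) (m : ℕ) : ℤ :=
  ∑ j ∈ Finset.range (t + m - 1), a j - ∑ i ∈ Finset.Icc 1 t, b i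

/-- `h_i = 2 a_{t+i+1} - ℓ_{i+3} + n` (that is, `h_{m-3} = 2 a_{t+m-2} - ℓ_m + n` with
`m = i + 3`). -/
def hNum (n t : ℕ) (a b : ℕ → ℤ) (i : ℕ) : ℤ := 2 * a (t + i + 1) - ell t a b (i + 3) + n

/-- `K_{i+3}`: the sum over `p = (r, s)` with `r + s = i`, over the sets `S`:
`0 ≤ i_1 < … < i_r ≤ t + i` and over the multisets `T`: `1 ≤ j_1 ≤ … ≤ j_s ≤ t`. -/
def KNum (n t : ℕ) (a b : ℕ → ℤ) (i : ℕ) : ℤ :=
  ∑ p ∈ Finset.HasAntidiagonal.antidiagonal i, ∑ S ∈ (Finset.range (t + i + 1)).powersetCard p.1,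
    ∑ T ∈ (Finset.Icc 1 t).sym p.2,
      (-1) ^ (i - p.1) * bin (hNum n t a b i + ∑ j ∈ S, a j + ((T : Multiset ℕ).map b).sum) n

end Pool.Agent.Lib.MP_09338f_ag
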