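import Mathlib
import Pool.Agent.Lib.MP_09338f_ag.KM.Defs

/-!
# MP_09338f_ag, project KM, Part 2: definitions for the proof

`R = K[x_0, …, x_(N-1)]`.  A matrix `A` with rows `I`, columns `J` and degrees `b : I → ℤ`,
`a : J → ℤ` (`HomM a b A`) is a graded homomorphism from the free module with generators of the
degrees `a j` to the free module `I → R` with generators of the degrees `b i`.
-/

set_option autoImplicit false

open MvPolynomial Matrix

universe u

namespace Pool.Agent.Lib.MP_09338f_ag

/-- Homogeneous of the (integer) degree `d`: every monomial of `p` has degree `d`. -/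
def HomD {N : ℕ} {K : Type u} [CommSemiring K] (d : ℤ) (p : MvPolynomial (Fin N) K) : Prop :=
  ∀ m ∈ p.support, ((m.degree : ℕ) : ℤ) = d

/-- The `(i, j)` entry is homogeneous of degree `a j - b i`. -/
def HomM {I J : Type} {N : ℕ} {K : Type u} [CommSemiring K] (a : J → ℤ) (b : I → ℤ)
    (A : Matrix I J (MvPolynomial (Fin N) K)) : Prop :=
  ∀ i j, HomD (a j - b i) (A i j)

/-- Reduction modulo `x_0`: the homomorphism `x_0 ↦ 0`, `x_(i+1) ↦ x_i`.
(`rename Fin.succ` is a section of it.) -/
noncomputable def red {N : ℕ} {K : Type u} [CommSemiring K] :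
    MvPolynomial (Fin (N + 1)) K →ₐ[K] MvPolynomial (Fin N) K :=
  aeval (Fin.cons (0 : MvPolynomial (Fin N) K) fun i => X i :
    Fin (N + 1) → MvPolynomial (Fin N) K)

/-- The matrix `(C, w)` with the additional column `w` (with the index `none`). -/
def addCol {I J : Type} {R : Type u} (C : Matrix I J R) (w : I → R) : Matrix I (Option J) R :=
  fun i j => j.elim (w i) (C i)

/-- The matrix with the additional row `r` (with the index `none`). -/
def addRow {I J : Type} {R : Type u} (A : Matrix I J R) (r : J → R) : Matrix (Option I) J R :=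
  fun i j => i.elim (r j) fun i => A i j

/-- Extend a family of degrees by one more degree `α` (with the index `none`). -/
def oext {J : Type} (a : J → ℤ) (α : ℤ) : Option J → ℤ := fun j => j.elim α a

section basics

variable {I J J1 J2 : Type} {R : Type u} [Fintype I] [DecidableEq I] [Fintype J] [DecidableEq J]
  [Fintype J1] [DecidableEq J1] [Fintype J2] [DecidableEq J2] [CommRing R]

/-- The image of the matrix `A`. -/
abbrev Im (A : Matrix I J R) : Submodule R (I → R) := LinearMap.range A.mulVecLin

/-- The Cramer relation of the columns `y s`, `s : Option I` (there are `card I + 1` of them): its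
`j`-th component is the determinant of the square matrix whose row `none` is
`(if y s = j then 1 else 0)_s` and whose row `some i` is `(A i (y s))_s`.
(So `A * rel A y = 0`: determinants with two equal rows.) -/
def rel (A : Matrix I J R) (y : Option I → J) : J → R := fun j =>
  (Matrix.of fun (r s : Option I) =>
    r.elim (if y s = j then (1 : R) else 0) fun i => A i (y s)).det

/-- The kernel of `A` is generated by the Cramer relations. -/
def Ex1 (A : Matrix I J R) : Prop :=
  ∀ x : J → R, A.mulVec x = 0 → x ∈ Submodule.span R (Set.range (rel A))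

/-- The derivative of the minor `det (A.submatrix id e)` in the direction of the matrix `B`. -/
def dd (A B : Matrix I J R) (e : I → J) : R :=
  ∑ k, ((A.submatrix id e).updateCol k fun i => B i (e k)).det

/-- `B` is a tangent vector: the derivatives of all maximal minors of `A` in the direction `B` kill
`M = coker A`. -/
def Tp (A B : Matrix I J R) : Prop := ∀ (e : I → J) (i : I), Pi.single i (dd A B e) ∈ Im A

/-- Torsion freeness of `coker A`: `m` is `0` in `coker A` if all the determinants of `card I - 1`
columns of `A` and the column `m` kill `coker A`. -/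
def RR1 (A : Matrix I J R) : Prop :=
  ∀ m : I → R, (∀ (e : I → J) (k i : I),
    Pi.single i (((A.submatrix id e).updateCol k m).det) ∈ Im A) → m ∈ Im A

/-- Hilbert–Burch: `u` is a linear combination of the rows of `A` if all the maximal minors of the
matrix `(u ; A)` (first row `u`, below it `A`) are `0`. -/
def HB (A : Matrix I J R) : Prop :=
  ∀ u : J → R, (∀ e : Option I → J,
    (Matrix.of fun (r s : Option I) => r.elim (u (e s)) fun i => A i (e s)).det = 0) →
    ∃ x : I → R, u = Matrix.vecMul x A

end basics

section graded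

variable {I J J1 J2 : Type} [Fintype I] [DecidableEq I] [Fintype J] [DecidableEq J]
  [Fintype J1] [DecidableEq J1] [Fintype J2] [DecidableEq J2] {N : ℕ} {K : Type u} [Field K]

/-- The tangent vectors of degree `0` are the tangent vectors of the orbit. -/
def TP (a : J → ℤ) (b : I → ℤ) (A : Matrix I J (MvPolynomial (Fin N) K)) : Prop :=
  ∀ B : Matrix I J (MvPolynomial (Fin N) K), HomM a b B → Tp A B →
    ∃ (X : Matrix I I (MvPolynomial (Fin N) K)) (Y : Matrix J J (MvPolynomial (Fin N) K)),
      HomM b b X ∧ HomM a a Y ∧ B = X * A + A * Y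

/-- The homomorphisms of degree `0` from `coker C` to `coker (C, W)` are the scalars. -/
def HP (b : I → ℤ) (C : Matrix I J1 (MvPolynomial (Fin N) K))
    (W : Matrix I J2 (MvPolynomial (Fin N) K)) : Prop :=
  ∀ X : Matrix I I (MvPolynomial (Fin N) K), HomM b b X →
    ∀ V : Matrix (J1 ⊕ J2) J1 (MvPolynomial (Fin N) K), X * C = Matrix.fromCols C W * V →
      ∃ (s : MvPolynomial (Fin N) K) (Z : Matrix (J1 ⊕ J2) I (MvPolynomial (Fin N) K)),
        X = s • (1 : Matrix I I (MvPolynomial (Fin N) K)) + Matrix.fromCols C W * Z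

/-- `x_0` is not a zero divisor on `coker A`. -/
def NZ0 (A : Matrix I J (MvPolynomial (Fin (N + 1)) K)) : Prop :=
  ∀ m : I → MvPolynomial (Fin (N + 1)) K, (X 0 : MvPolynomial (Fin (N + 1)) K) • m ∈ Im A →
    m ∈ Im A

end graded

/-- `A` is a generic matrix over the field `K` with respect to the subfield `k`: the entries are
homogeneous, and all the coefficients are algebraically independent over `k`. -/
def Gen (k : Type u) {K : Type u} [Field k] [Field K] [Algebra k K] {I J : Type} {N : ℕ}
    (a : J → ℤ) (b : I → ℤ) (A : Matrix I J (MvPolynomial (Fin N) K)) : Prop :=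
  HomM a b A ∧ AlgebraicIndependent k fun p : Coef N a b => (A p.1.1 p.1.2.1).coeff p.1.2.2

/-! ## Properties of generic matrices (as properties of the data) -/

section generic

variable {I J J1 J2 : Type} [Fintype I] [DecidableEq I] [Fintype J] [DecidableEq J]
  [Fintype J1] [DecidableEq J1] [Fintype J2] [DecidableEq J2]

/-- `Ex1` for generic matrices. -/
def GE1 (N : ℕ) (a : J → ℤ) (b : I → ℤ) : Prop :=
  ∀ (k K : Type u) [Field k] [Field K] [Algebra k K] (A : Matrix I J (MvPolynomial (Fin N) K)),
    Gen k a b A → Ex1 A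

/-- `RR1` for generic matrices. -/
def GR1 (N : ℕ) (a : J → ℤ) (b : I → ℤ) : Prop :=
  ∀ (k K : Type u) [Field k] [Field K] [Algebra k K] (A : Matrix I J (MvPolynomial (Fin N) K)),
    Gen k a b A → RR1 A

/-- `HB` for generic matrices. -/
def GHB (N : ℕ) (a : J → ℤ) (b : I → ℤ) : Prop :=
  ∀ (k K : Type u) [Field k] [Field K] [Algebra k K] (A : Matrix I J (MvPolynomial (Fin N) K)),
    Gen k a b A → HB A

/-- `TP` for generic matrices. -/
def GTP (N : ℕ) (a : J → ℤ) (b : I → ℤ) : Prop :=
  ∀ (k K : Type u) [Field k] [Field K] [Algebra k K] (A : Matrix I J (MvPolynomial (Fin N) K)),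
    Gen k a b A → TP a b A

/-- `HP` for generic matrices `(C, W)`. -/
def GHP (N : ℕ) (a1 : J1 → ℤ) (a2 : J2 → ℤ) (b : I → ℤ) : Prop :=
  ∀ (k K : Type u) [Field k] [Field K] [Algebra k K] (C : Matrix I J1 (MvPolynomial (Fin N) K))
    (W : Matrix I J2 (MvPolynomial (Fin N) K)),
    Gen k (Sum.elim a1 a2) b (Matrix.fromCols C W) → HP b C W

/-! ## Conditions on the degrees

In terms of sorted degrees `b_1 ≤ b_2 ≤ …`, `a_0 ≤ a_1 ≤ …`: `CD1` says `a_{i-1} ≥ b_i` for
`i ≥ 1`; `CD2` says `a_{i-2} ≥ b_i` for `i ≥ 2` and `a_0 ≥ b_1`; `CD3` says `a_{i-2} > b_i` for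
`i ≥ 2` and `a_0 > b_1`. -/

/-- `a_{i-1} ≥ b_i`. -/
def CD1 (a : J → ℤ) (b : I → ℤ) : Prop :=
  ∀ i, (Finset.univ.filter fun j => a j < b i).card ≤ (Finset.univ.filter fun i' => b i' < b i).card

/-- `a_{i-2} ≥ b_i` (and `a_0 ≥ b_1`). -/
def CD2 (a : J → ℤ) (b : I → ℤ) : Prop :=
  ∀ i, (Finset.univ.filter fun j => a j < b i).card ≤
    (Finset.univ.filter fun i' => b i' < b i).card - 1

/-- `a_{i-2} > b_i` (and `a_0 > b_1`). -/
def CD3 (a : J → ℤ) (b : I → ℤ) : Prop :=
  ∀ i, (Finset.univ.filter fun j => a j ≤ b i).card ≤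
    (Finset.univ.filter fun i' => b i' < b i).card - 1

end generic

end Pool.Agent.Lib.MP_09338f_ag
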