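import Mathlib
import Pool.Agent.Lib.MP_09338f_ag.KM.Defs2

/-!
# Project KM, Part A: algebra (no genericity).  Nothing is proved in this file.

Piece `[xyz]` is the proposition `S_xyz`; it is proved in `KM/xyz.lean` as
`theorem p_xyz : S_xyz`.  All other pieces that it uses are hypotheses or may be imported if they
are already proved.  Notation of the proofs: `R = K[x_0, …]`, `π = red` (`x_0 ↦ 0`), `ι =` the
section `rename Fin.succ` of `π`, `e_i = Pi.single i 1`, `M(A) = (I → R) / Im A`, `A_e =
A.submatrix id e`, `A_e[k ← v] = (A.submatrix id e).updateCol k v`.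
-/

set_option autoImplicit false

open MvPolynomial Matrix

universe u

namespace Pool.Agent.Lib.MP_09338f_ag

/-- [rel] First properties of the Cramer relations.

PROOF.  (1) `∑_j A i j * rel A y j` is the determinant of the matrix whose row `none` is
`(∑_j A i j * [y s = j])_s = (A i (y s))_s` (linearity of `det` in the row `none`), which is equal
to the row `some i`; so it is `0`.  (2) If `y s = y s'` with `s ≠ s'`, then two columns are equal.
(3) For `y s = some (y' s)` or `none`: with `A = (C, w)`: if all `y s` are of the form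
`some (y' s)`, then the component `some j` is `rel C y' j` and the component `none` is `0` (the row
`none` of the matrix is `0`). -/
def S_rel : Prop :=
  ∀ (R : Type u) [CommRing R] (I J : Type) [Fintype I] [DecidableEq I] [Fintype J] [DecidableEq J],
    (∀ (A : Matrix I J R) (y : Option I → J), A.mulVec (rel A y) = 0) ∧
    (∀ (A : Matrix I J R) (y : Option I → J), ¬ Function.Injective y → rel A y = 0) ∧
    ∀ (C : Matrix I J R) (w : I → R) (y : Option I → J),
      rel (addCol C w) (fun s => some (y s)) = fun j => j.elim 0 (rel C y)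

/-- [reld] Degrees: if `A` is homogeneous then `rel A y j` is homogeneous of the degree
`∑_s a (y s) - ∑_i b i - a j`, the minors `det A_e` of the degree `∑_i a (e i) - ∑_i b i`.

PROOF.  General fact: if the `(r, s)` entry of a square matrix is homogeneous of degree
`α s - β r`, then `det` is homogeneous of degree `∑ α - ∑ β` (each term of `det_apply`; products
and sums of homogeneous polynomials; a product with a factor `0` is `0`, and `HomD d 0` holds for
all `d`; note that `HomD d p` with `d < 0` means `p = 0`). -/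
def S_reld : Prop :=
  ∀ (K : Type u) [CommRing K] (N : ℕ) (I J : Type) [Fintype I] [DecidableEq I] [Fintype J]
    [DecidableEq J] (a : J → ℤ) (b : I → ℤ) (A : Matrix I J (MvPolynomial (Fin N) K)),
    HomM a b A →
      (∀ (y : Option I → J) (j : J), HomD (∑ s, a (y s) - ∑ i, b i - a j) (rel A y j)) ∧
      (∀ e : I → J, HomD (∑ i, a (e i) - ∑ i, b i) (A.submatrix id e).det) ∧
      (∀ B : Matrix I J (MvPolynomial (Fin N) K), HomM a b B → ∀ e : I → J,
        HomD (∑ i, a (e i) - ∑ i, b i) (dd A B e)) ∧
      ∀ (m : I → MvPolynomial (Fin N) K) (δ : ℤ), (∀ i, HomD (δ - b i) (m i)) →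
        ∀ (e : I → J) (k : I), HomD (∑ i, a (e i) - a (e k) + δ - ∑ i, b i)
          (((A.submatrix id e).updateCol k m).det)

/-- [mim] The maximal minors kill `M(A)`; the derivatives in the direction of the orbit kill
`M(A)`; minors with one column in `Im A` kill `M(A)`.

PROOF.  `det(A_e) v = A_e (cramer A_e v)` (`Matrix.mulVec_cramer`), and `A_e u = A u'` with
`u' j = ∑_{e k = j} u k`; so `det(A_e) v ∈ Im A`.  The elements `y` with `y v ∈ Im A` for all `v`
form an ideal.  `A_e[k ← A u]` has the determinant `∑_j u j * det A_e[k ← A_j]` and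
`A_e[k ← A_j] = A_(e')` with `e' = Function.update e k j`; so it is in `mins A`.
`dd A (A Y) e = ∑_k det A_e[k ← A (Y_(e k))] ∈ mins A`.  `dd A (X A) e = ∑_k det A_e[k ← X A_(e k)]
= tr(X) det A_e`: `det A_e[k ← v] = (cramer A_e v) k = (adj(A_e) v)_k`, so the sum is
`tr (adj(A_e) X A_e) = tr (X A_e adj(A_e)) = tr(X) det(A_e)`.  `dd` is additive in `B`. -/
def S_mim : Prop :=
  ∀ (R : Type u) [CommRing R] (I J : Type) [Fintype I] [DecidableEq I] [Fintype J] [DecidableEq J]
    (A : Matrix I J R),
    (∀ y ∈ mins A, ∀ v : I → R, y • v ∈ Im A) ∧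
    (∀ (X : Matrix I I R) (Y : Matrix J J R) (e : I → J), dd A (X * A + A * Y) e ∈ mins A) ∧
    (∀ (u : J → R) (e : I → J) (k : I), ((A.submatrix id e).updateCol k (A.mulVec u)).det ∈ mins A) ∧
    ∀ (B B' : Matrix I J R) (e : I → J), dd A (B + B') e = dd A B e + dd A B' e

/-- [nz] `x_0` is not a zero divisor on `M(A)` if the kernel of `A mod x_0` is generated by the
Cramer relations.

PROOF.  Let `x_0 m = A u`.  Then `(πA)(πu) = 0`, so `πu = ∑ c_y rel (πA) y` (finite sum), and
`rel (πA) y = π (rel A y)` (`RingHom.map_det`).  So `u - ∑ ι(c_y) rel A y` is killed by `π`, i.e.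
it is `x_0 u'` (the kernel of `π` consists of the multiples of `x_0`).  Apply `A`:
`x_0 m = A u = x_0 A u'`, so `m = A u'`. -/
def S_nz : Prop :=
  ∀ (K : Type u) [Field K] (N : ℕ) (I J : Type) [Fintype I] [DecidableEq I] [Fintype J]
    [DecidableEq J] (A : Matrix I J (MvPolynomial (Fin (N + 1)) K)),
    Ex1 (A.map red) → NZ0 A

/-- [redk] The kernel of `red` and its section.

PROOF.  `π (ι p) = p` (`aeval_rename`).  If `π p = 0`: every monomial of `p` with exponent `0` of
`x_0` has the coefficient of the corresponding monomial of `π p`, so all monomials of `p` are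
divisible by `x_0`.  (Or: `p - ι (π p)` is divisible by `x_0`, by induction on `p`.)  `π`, `ι` and
division by `x_0` are compatible with `HomD`. -/
def S_redk : Prop :=
  ∀ (K : Type u) [Field K] (N : ℕ),
    (∀ p : MvPolynomial (Fin N) K, red (rename Fin.succ p) = p) ∧
    (∀ p : MvPolynomial (Fin (N + 1)) K, (red p : MvPolynomial (Fin N) K) = 0 →
      ∃ q : MvPolynomial (Fin (N + 1)) K, p = X 0 * q) ∧
    (red (X 0 : MvPolynomial (Fin (N + 1)) K) = (0 : MvPolynomial (Fin N) K)) ∧
    (∀ (d : ℤ) (p : MvPolynomial (Fin (N + 1)) K), HomD d p →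
      HomD d (red p : MvPolynomial (Fin N) K)) ∧
    (∀ (d : ℤ) (p : MvPolynomial (Fin N) K), HomD d p → HomD d (rename Fin.succ p)) ∧
    ∀ (d : ℤ) (p : MvPolynomial (Fin (N + 1)) K), HomD (d + 1) (X 0 * p) → HomD d p

/-- [hc] Homogeneous components: a solution of a homogeneous linear equation can be replaced by a
homogeneous solution.

PROOF.  For `p` and `d : ℤ` let `comp d p = homogeneousComponent d.toNat p` if `d ≥ 0` and `0`
otherwise.  For `q` homogeneous of degree `δ`: `comp (d + δ) (q p) = q * comp d p`.  So (1): replace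
`u j` by `comp (d - a j) (u j)`.  (2) the same with all columns (`X i i'` by `comp (b i' - b i)`,
`Y j j'` by `comp (a j' - a j)`).  (3) replace `s` by `comp 0 s`, `Z q i'` by
`comp (b i' - α q) (Z q i')`; `HomD 0 s` means that `s` is a constant. -/
def S_hc : Prop :=
  ∀ (K : Type u) [Field K] (N : ℕ) (I J : Type) [Fintype I] [DecidableEq I] [Fintype J]
    [DecidableEq J] (a : J → ℤ) (b : I → ℤ) (A : Matrix I J (MvPolynomial (Fin N) K)),
    HomM a b A →
      (∀ (d : ℤ) (m : I → MvPolynomial (Fin N) K) (u : J → MvPolynomial (Fin N) K),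
        (∀ i, HomD (d - b i) (m i)) → A.mulVec u = m →
          ∃ u' : J → MvPolynomial (Fin N) K, (∀ j, HomD (d - a j) (u' j)) ∧ A.mulVec u' = m) ∧
      (∀ (B : Matrix I J (MvPolynomial (Fin N) K)) (X : Matrix I I (MvPolynomial (Fin N) K))
        (Y : Matrix J J (MvPolynomial (Fin N) K)), HomM a b B → B = X * A + A * Y →
          ∃ (X' : Matrix I I (MvPolynomial (Fin N) K)) (Y' : Matrix J J (MvPolynomial (Fin N) K)),
            HomM b b X' ∧ HomM a a Y' ∧ B = X' * A + A * Y') ∧
      ∀ (X : Matrix I I (MvPolynomial (Fin N) K)) (s : MvPolynomial (Fin N) K)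
        (Z : Matrix J I (MvPolynomial (Fin N) K)), HomM b b X →
        X = s • (1 : Matrix I I (MvPolynomial (Fin N) K)) + A * Z →
          ∃ (s' : K) (Z' : Matrix J I (MvPolynomial (Fin N) K)), HomM b a Z' ∧
            X = (C s' : MvPolynomial (Fin N) K) • (1 : Matrix I I (MvPolynomial (Fin N) K)) + A * Z'

/-- [ann] The annihilator of the class of the additional column.

PROOF.  Let `y w = C u`.  Then `x = (-u, y)` (component `none` is `y`) is in the kernel of
`(C, w)`, so `x = ∑ c_z rel (C, w) z` and `y = ∑ c_z (rel (C, w) z) none`.  The component `none` of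
`rel (C, w) z`, `z : Option I → Option J`, is the determinant with the row `none` equal to
`[z s = none]_s`.  If `z` is not injective it is `0`; if `z` does not take the value `none`, the row
is `0`; if exactly one `s₀` has `z s₀ = none`, then expand along this row: it is
`± det (C_(e))` for some `e : I → J` (`Option I` without `s₀` is in bijection with `I`), so in
`mins C`. -/
def S_ann : Prop :=
  ∀ (R : Type u) [CommRing R] (I J : Type) [Fintype I] [DecidableEq I] [Fintype J] [DecidableEq J]
    (C : Matrix I J R) (w : I → R), Ex1 (addCol C w) → ∀ y : R, y • w ∈ Im C → y ∈ mins C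

/-- [annu] The annihilator of the class of a unit vector.

PROOF.  `D` has the rows `some i` (the matrix `D' = D.submatrix some id`) and the row `none`.  Let
`D u = y e_none`.  Then `D' u = 0`, so `u = ∑ c_z rel D' z`, `z : Option I → J`, and
`y = ∑_j D none j * u j = ∑ c_z ∑_j D none j * rel D' z j`, and `∑_j D none j * rel D' z j` is the
determinant of the matrix with the row `none` equal to `(D none (z s))_s` and the rows
`(D' i (z s))_s`, i.e. `det (D.submatrix id z) ∈ mins D`. -/
def S_annu : Prop :=
  ∀ (R : Type u) [CommRing R] (I J : Type) [Fintype I] [DecidableEq I] [Fintype J] [DecidableEq J]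
    (D : Matrix (Option I) J R), Ex1 (D.submatrix some id) →
      ∀ y : R, Pi.single none y ∈ Im D → y ∈ mins D

/-- [e1s] Splitting step for `Ex1`: from `(C, w)` and `C mod x_0` to `(C, x_0 w)`.

PROOF.  `A = (C, x_0 w)`, `A_2 = (C, w)`.  Let `A x = 0`, `x = (u, v)` (`v` the component `none`).
Mod `x_0`: `πC πu = 0`, so `πu = ∑ c_z rel (πC) z`, `z : Option I → J`.  With
`rel (πC) z = π (rel C z)` and `(rel C z, 0) = rel A (some ∘ z)` (see `S_rel`): `x' = x - ∑ ι(c_z)
rel A (some ∘ z) = (x_0 u', v)` and `A x' = 0`, i.e. `x_0 (C u' + v w) = 0`, so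
`A_2 (u', v) = 0` and `(u', v) = ∑ c_y rel A_2 y`, `y : Option I → Option J`.  Let
`τ (u', v) = (x_0 u', v)` (linear).  Claim: `τ (rel A_2 y)` is a multiple of `rel A y`, for every
`y`.  If `y` is not injective, both are `0`.  If `y` does not take the value `none`,
`rel A_2 y = rel A y = (·, 0)` and `τ` is multiplication by `x_0` on it.  If `y` takes the value
`none` exactly once, at `s₀`: component `some j`: the column `s₀` of the matrix defining
`rel A y (some j)` is `(0 ; x_0 w)`, so `rel A y (some j) = x_0 rel A_2 y (some j)`; component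
`none`: the row `none` is `[s = s₀]_s`, and the determinant does not depend on the other entries of
the column `s₀`, so `rel A y none = rel A_2 y none`.  So `τ (rel A_2 y) = rel A y`. -/
def S_e1s : Prop :=
  ∀ (K : Type u) [Field K] (N : ℕ) (I J : Type) [Fintype I] [DecidableEq I] [Fintype J]
    [DecidableEq J] (C : Matrix I J (MvPolynomial (Fin (N + 1)) K))
    (w : I → MvPolynomial (Fin (N + 1)) K),
    Ex1 (addCol C w) → Ex1 (C.map red) →
      Ex1 (addCol C ((X 0 : MvPolynomial (Fin (N + 1)) K) • w))

/-- [e1u] Unit step for `Ex1`: the matrix `A` with the rows `(A' , 0)` and `(r, 1)`.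

PROOF.  `A x = 0`, `x = (u, v)`: `A' u = 0` and `r u + v = 0`.  So `u = ∑ c_z rel A' z`,
`z : Option I → J`, and `v = - r u`.  So it is enough that `(rel A' z, - r (rel A' z))` is
`±` a Cramer relation of `A`, namely for `y : Option (Option I) → Option J` with
`y (some none) = none`, `y none = some (z none)`, `y (some (some i)) = some (z (some i))` (the
column `some none` of the matrix defining `rel A y (some j)` is the unit vector at the row
`some none`; expand along it).  The component `none` is then correct automatically, because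
`A (rel A y) = 0` and the row `none` of `A` is `(r, 1)`. -/
def S_e1u : Prop :=
  ∀ (R : Type u) [CommRing R] (I J : Type) [Fintype I] [DecidableEq I] [Fintype J] [DecidableEq J]
    (A' : Matrix I J R) (r : J → R), Ex1 A' → Ex1 (addCol (addRow A' r) (Pi.single none 1))

/-- [r1s] Splitting step for `RR1`.

PROOF.  `A = (C, x_0 w)`, `A_2 = (C, w)`.  First: (*) if `x_0 v ∈ Im A` then `v ∈ Im A_2`
(`x_0 v = C u + s x_0 w`, so `x_0 (v - s w) ∈ Im C`, so `v - s w ∈ Im C` by `NZ0 C`).
Let `m` satisfy the hypothesis of `RR1 A`.  For `e = some ∘ e'` and `k, i`: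
`det (C_(e')[k ← m]) e_i ∈ Im A`; apply `π` (`π (Im A) ⊆ Im (πC)` since `π x_0 = 0`):
`RR1 (πC)` gives `πm ∈ Im (πC)`, `πm = πC (π u)` with `u = ι(..)`, so `m = C u + x_0 m_2`.
By `S_mim` the minors with one column `C u = A (u, 0)` kill `M(A)`, so `x_0 m_2` also satisfies the
hypothesis of `RR1 A`: `x_0 det (A_e[k ← m_2]) e_i ∈ Im A`, so by (*)
`det (A_e[k ← m_2]) e_i ∈ Im A_2` for all `e, k, i`.  Claim: `det ((A_2)_e[k ← m_2]) e_i ∈ Im A_2`.
If `e` takes the value `none` at no place other than `k`: `A_e[k ← ·] = (A_2)_e[k ← ·]`.  If at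
exactly one place other than `k`: `det (A_e[k ← m_2]) = x_0 det ((A_2)_e[k ← m_2])`, and
`NZ0 A_2`.  If at two or more places other than `k`: two equal columns, the determinant is `0`.
So `RR1 A_2` gives `m_2 = C u' + s w`, and `x_0 m_2 = A (x_0 u', s) ∈ Im A`. -/
def S_r1s : Prop :=
  ∀ (K : Type u) [Field K] (N : ℕ) (I J : Type) [Fintype I] [DecidableEq I] [Fintype J]
    [DecidableEq J] (C : Matrix I J (MvPolynomial (Fin (N + 1)) K))
    (w : I → MvPolynomial (Fin (N + 1)) K),
    RR1 (C.map red) → RR1 (addCol C w) → NZ0 (addCol C w) → NZ0 C →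
      RR1 (addCol C ((X 0 : MvPolynomial (Fin (N + 1)) K) • w))

/-- [r1u] Unit step for `RR1`: the matrix `A` with the rows `(A', 0)` and `(r, 1)`.

PROOF.  `Im A = {v | v restricted to the rows `some i` is in Im A'}`: `v = A (u, s)` iff
`v' = A' u` and `v none = r u + s`.  Let `m` satisfy the hypothesis, `m' = m ∘ some`.  Given
`e' : I → J`, `k, i : I`, let `e none = none`, `e (some i') = some (e' i')`; the matrix
`A_e[some k ← m]` has the column `none` equal to `e_none`, so its determinant is
`det (A'_(e')[k ← m'])` (expand along the column `none`).  So `det (A'_(e')[k ← m']) e_i ∈ Im A'`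
and `RR1 A'` gives `m' ∈ Im A'`, so `m ∈ Im A`. -/
def S_r1u : Prop :=
  ∀ (R : Type u) [CommRing R] (I J : Type) [Fintype I] [DecidableEq I] [Fintype J] [DecidableEq J]
    (A' : Matrix I J R) (r : J → R), RR1 A' → RR1 (addCol (addRow A' r) (Pi.single none 1))

/-- [r1q] `RR1` for a square matrix of the form `A' ⊕ (x_0^d)`.

PROOF.  `A` has the rows `(A', 0)` and `(0, x_0^d)`.  `Im A = {v | v' ∈ Im A', x_0^d ∣ v none}`.
Let `m` satisfy the hypothesis, `m' = m ∘ some`, `μ = m none`.
(i) `e', k, i` as in `S_r1u`, `e none = none`: the column `none` of `A_e[some k ← m]` is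
`x_0^d e_none`, so the determinant is `x_0^d det (A'_(e')[k ← m'])`; the hypothesis for the row
`some i` gives `x_0^d det (A'_(e')[k ← m']) e_i ∈ Im A'`, so (`NZ0 A'`, `d` times)
`det (A'_(e')[k ← m']) e_i ∈ Im A'`, and `RR1 A'` gives `m' ∈ Im A'`.
(ii) `e none = none`, `e (some i') = some (e₀ i')`, `k = none`: the matrix `A_e[none ← m]` is
`(A'_(e₀), m' ; 0, μ)` (the row `none` of `A` is `0` at the columns `some j`), with the determinant
`det (A'_(e₀)) μ`; the hypothesis for `i = none` gives `x_0^d ∣ det (A'_(e₀)) μ`, and `x_0` is a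
prime which does not divide `det A'_(e₀)`, so `x_0^d ∣ μ`. -/
def S_r1q : Prop :=
  ∀ (K : Type u) [Field K] (N : ℕ) (I J : Type) [Fintype I] [DecidableEq I] [Fintype J]
    [DecidableEq J] (A' : Matrix I J (MvPolynomial (Fin (N + 1)) K)) (d : ℕ),
    RR1 A' → NZ0 A' →
    (∃ e₀ : I → J, (red (A'.submatrix id e₀).det : MvPolynomial (Fin N) K) ≠ 0) →
      RR1 (addCol (addRow A' 0) (Pi.single none (X 0 ^ d)))

/-- [hbs] Splitting step for `HB` (one column more than rows).

PROOF.  `A = (C, x_0 w)`, `A_2 = (C, w)`, `u = (û, u_∞)` with all maximal minors of `(u ; A)` equal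
to `0`.  Let `e' : I → J` with `π det C_(e') ≠ 0` and `e : Option I → Option J`, `e none = none`,
`e (some i) = some (e' i)`.  Modulo `x_0` the column `none` of `(u ; A)_e` becomes `(πu_∞ ; 0)`, so
`0 = πu_∞ π(det C_(e'))` and `πu_∞ = 0`, `u_∞ = x_0 u'`.  Let `u₂ = (û, u')`.  All maximal minors
of `(u₂ ; A_2)` are `0`: let `e : Option I → Option J`.  If `e` is not injective: clear.  It must
take the value `none` (otherwise `card I + 1 ≤ card J`), exactly once, and
`det (u ; A)_e = x_0 det (u₂ ; A_2)_e`.  So `u₂ = x A_2` and `u = x A`. -/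
def S_hbs : Prop :=
  ∀ (K : Type u) [Field K] (N : ℕ) (I J : Type) [Fintype I] [DecidableEq I] [Fintype J]
    [DecidableEq J] (C : Matrix I J (MvPolynomial (Fin (N + 1)) K))
    (w : I → MvPolynomial (Fin (N + 1)) K), Fintype.card J = Fintype.card I →
    (∃ e : I → J, (red (C.submatrix id e).det : MvPolynomial (Fin N) K) ≠ 0) →
    HB (addCol C w) → HB (addCol C ((X 0 : MvPolynomial (Fin (N + 1)) K) • w))

/-- [hbu] Unit step for `HB`: the matrix `A` with the rows `(A', 0)` and `(r, 1)`.

PROOF.  Let `u = (û, u_∞)` have all maximal minors of `(u ; A)` equal to `0`.  Subtract `u_∞` times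
the row `(r, 1)` from `u` (this does not change the minors): `u = (û, 0)`.  For
`e' : Option I → J` let `e : Option (Option I) → Option J`, `e none = some (e' none)`,
`e (some none) = none`, `e (some (some i)) = some (e' (some i))`: expanding along the column
`some none` (equal to the unit vector at the row `some none`): `det (u ; A)_e = ± det (û ; A')_(e')`.
So `û = x A'` and `u = (x, 0) A`. -/
def S_hbu : Prop :=
  ∀ (R : Type u) [CommRing R] (I J : Type) [Fintype I] [DecidableEq I] [Fintype J] [DecidableEq J]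
    (A' : Matrix I J R) (r : J → R), HB A' → HB (addCol (addRow A' r) (Pi.single none 1))

/-- [tpb] The tangent space for codimension `2` (one column more than rows; Hilbert–Burch).

PROOF.  Let `Tp A B`.  By the hypothesis on the annihilator `dd A B e ∈ mins A` for all `e`.
Fix a bijection `y : Option I ≃ J` and let `Δ = rel A y : J → R`, so `A Δ = 0`, and each `Δ_j` is
`± det A_e` for some `e : I → J` (expand along the row `none`, which has one nonzero entry), and each
`det A_e` is `0` or `± Δ_j`; so `mins A` is generated by the `Δ_j`.  Let `Δ'_j` be the derivative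
of `Δ_j` in the direction `B`, i.e. `± dd A B e` (for instance: the coefficient of `ε` in
`rel (A + ε B) y j` over `R[ε]`, `Polynomial R` modulo `ε²` or `Polynomial.derivative` at `0`);
so `Δ'_j ∈ mins A`, `Δ'_j = ∑_l Y j l * Δ_l`.  The coefficient of `ε` in
`(A + ε B) (rel (A + ε B) y) = 0` is `B Δ + A Δ' = 0`, so `(B + A Y) Δ = 0`.  For each row `i` the
row vector `u = (B + A Y) i` satisfies `∑_j u_j Δ_j = 0`, which is the determinant of `(u ; A)_y`;
and for every other `e : Option I → J` the determinant `det (u ; A)_e` is `0` (`e` not injective)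
or `±` this one (`e` bijective).  So `u = x_i A` by `HB A`: `B = X A - A Y`.  Now `S_hc`. -/
def S_tpb : Prop :=
  ∀ (K : Type u) [Field K] (N : ℕ) (I J : Type) [Fintype I] [DecidableEq I] [Fintype J]
    [DecidableEq J] (a : J → ℤ) (b : I → ℤ) (A : Matrix I J (MvPolynomial (Fin N) K)),
    HomM a b A → Fintype.card J = Fintype.card I + 1 → HB A →
    (∀ y : MvPolynomial (Fin N) K, (∀ i, Pi.single i y ∈ Im A) → y ∈ mins A) → TP a b A

/-- [tsa] Tangent vectors modulo `x_0`.

PROOF.  `A = (C, x_0 w)`.  For `e : I → J`: `dd A B (some ∘ e) = dd C B̂ e` with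
`B̂ = B.submatrix id some`, so `dd C B̂ e • e_i ∈ Im A`; apply `π` (`π (Im A) ⊆ Im (πC)`), and
`π (dd C B̂ e) = dd (πC) (πB̂) e`.  Second part: `e : I → J`, `k, i : I`, `e₁ = update (some ∘ e) k
none`: modulo `x_0` all terms of `dd A B e₁` with index `k' ≠ k` vanish (the column `k` is
`x_0 w`), the term `k' = k` is `det (C_e[k ← B_∞])`, `B_∞ i = B i none`. -/
def S_tsa : Prop :=
  ∀ (K : Type u) [Field K] (N : ℕ) (I J : Type) [Fintype I] [DecidableEq I] [Fintype J]
    [DecidableEq J] (C : Matrix I J (MvPolynomial (Fin (N + 1)) K))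
    (w : I → MvPolynomial (Fin (N + 1)) K)
    (B : Matrix I (Option J) (MvPolynomial (Fin (N + 1)) K)),
    Tp (addCol C ((X 0 : MvPolynomial (Fin (N + 1)) K) • w)) B →
      Tp (C.map red : Matrix I J (MvPolynomial (Fin N) K)) ((B.submatrix id some).map red) ∧
      ∀ (e : I → J) (k i : I), Pi.single i
        ((((C.map red : Matrix I J (MvPolynomial (Fin N) K)).submatrix id e).updateCol k
          fun i' => red (B i' none)).det) ∈ Im (C.map red : Matrix I J (MvPolynomial (Fin N) K))

/-- [tsc] If the last column of the tangent vector is divisible by `x_0`, divide it by `x_0`.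

PROOF.  `A = (C, x_0 w)`, `A_2 = (C, w)`, `B = (B̂, x_0 B')`, `B_2 = (B̂, B')`.
(*) if `x_0 v ∈ Im A` then `v ∈ Im A_2` (see `S_r1s`); `Im A ⊆ Im A_2`.
Let `e : I → Option J`.  If `e` takes the value `none` at no place: `dd A_2 B_2 e = dd A B e`, fine.
If at exactly one place `k₀`: `dd A B e = x_0 dd A_2 B_2 e` (in the term `k = k₀` the replaced
column is `x_0 B'`, in the others the column `k₀` is `x_0 w`), so `x_0 dd A_2 B_2 e • e_i ∈ Im A`
and (*) applies.  If at two places `k₀ ≠ k₁` or more: the terms `k ≠ k₀, k₁` of `dd A_2 B_2 e` have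
two equal columns, and the terms `k₀` and `k₁` (if there is no third place) have the sum `0`
(exchange of the two columns); with a third place all terms are `0`.  In general: if `e` is not
injective then `dd A B e = 0` for all `A, B`. -/
def S_tsc : Prop :=
  ∀ (K : Type u) [Field K] (N : ℕ) (I J : Type) [Fintype I] [DecidableEq I] [Fintype J]
    [DecidableEq J] (C : Matrix I J (MvPolynomial (Fin (N + 1)) K))
    (w : I → MvPolynomial (Fin (N + 1)) K)
    (B : Matrix I J (MvPolynomial (Fin (N + 1)) K)) (B' : I → MvPolynomial (Fin (N + 1)) K),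
    NZ0 C → Tp (addCol C ((X 0 : MvPolynomial (Fin (N + 1)) K) • w))
      (addCol B ((X 0 : MvPolynomial (Fin (N + 1)) K) • B')) →
    Tp (addCol C w) (addCol B B')

/-- [tsd] The last step: the tangent vector `(w ⊗ y, 0)`.

PROOF.  `A = (C, x_0 w)`.  The hypothesis says: `X₁ (πC)` is `(πw) ⊗ (πy) - (πC) Y₁`, whose columns
are in the image of `(πC, πw)`.  `HP` gives `X₁ = s 1 + (πC) Z' + (πw) ⊗ z` (`Z'` the rows `inl j`
of `Z`, `z` the row `inr ()`).  Insert: `(πw) ⊗ (πy - z (πC)) = (πC) (…)`, so for every `j` the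
element `g_j = (πy)_j - (z (πC))_j` satisfies `g_j πw ∈ Im (πC)`, so `g_j ∈ mins (πC)`,
`g_j = ∑_e c_(e,j) det (πC)_e`.  So `y_j = ∑_i ι(z_i) C i j + ∑_e ι(c_(e,j)) det C_e + x_0 y'_j`
for some `y'`.  By `S_mim`, `(∑_e ι(c_(e,j)) det C_e) w ∈ Im C`, say `= C t_j` (`t : Matrix J J`,
column `t_j`).  So `w ⊗ y = (w ⊗ ι(z)) C + C t + x_0 w ⊗ y'`.  Let `X = w ⊗ ι(z)`
(`X i i' = w i * ι(z i')`): `X A = ((w ⊗ ι(z)) C, x_0 (∑_i' ι(z i') w i') w)`, so
`(w ⊗ y, 0) = X A + (C t + x_0 w ⊗ y', - x_0 (∑ ι(z) w) w)` and the last matrix is `A Y` with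
`Y` = the rows `some j`: `(t, 0)`, the row `none`: `(y', - ∑ ι(z) w)`. -/
def S_tsd : Prop :=
  ∀ (K : Type u) [Field K] (N : ℕ) (I J : Type) [Fintype I] [DecidableEq I] [Fintype J]
    [DecidableEq J] (b : I → ℤ) (C : Matrix I J (MvPolynomial (Fin (N + 1)) K))
    (w : I → MvPolynomial (Fin (N + 1)) K) (y : J → MvPolynomial (Fin (N + 1)) K),
    HP b (C.map red : Matrix I J (MvPolynomial (Fin N) K))
      (Matrix.of fun (i : I) (_ : Unit) => red (w i)) →
    (∀ z : MvPolynomial (Fin N) K, (z • fun i => red (w i)) ∈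
      Im (C.map red : Matrix I J (MvPolynomial (Fin N) K)) →
        z ∈ mins (C.map red : Matrix I J (MvPolynomial (Fin N) K))) →
    ∀ (X₁ : Matrix I I (MvPolynomial (Fin N) K)) (Y₁ : Matrix J J (MvPolynomial (Fin N) K)),
      HomM b b X₁ →
      (Matrix.of fun i j => (red (w i * y j) : MvPolynomial (Fin N) K)) =
        X₁ * C.map red + C.map red * Y₁ →
      ∃ (X : Matrix I I (MvPolynomial (Fin (N + 1)) K))
        (Y : Matrix (Option J) (Option J) (MvPolynomial (Fin (N + 1)) K)),
        addCol (Matrix.of fun i j => w i * y j) 0 =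
          X * addCol C ((MvPolynomial.X 0 : MvPolynomial (Fin (N + 1)) K) • w) +
          addCol C ((MvPolynomial.X 0 : MvPolynomial (Fin (N + 1)) K) • w) * Y

/-- [tua] Tangent vectors of `(C, e_none)`.

PROOF.  `A = (C, e_none)` with the rows `Option I`; `C' = C.submatrix some id`;
`Im A = {v | v ∘ some ∈ Im C'}`.  Let `X` be the matrix with the column `none` equal to `B_∞` and
the other columns `0`: `X A = (B_∞ ⊗ C_none, B_∞)`.  By `S_mim`, `B₁ = B - X A = (E, 0)`, with
`E i j = B i (some j) - B i none * C none j`, also satisfies `Tp A B₁` (`dd A (X A) e ∈ mins A`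
kills `M(A)`).  For `e' : I → J` let `e none = none`, `e (some i) = some (e' i)`: `dd A B₁ e`: the
term `k = none` is `0` (the column `B₁_∞ = 0`); the terms `k = some k'` have the column `none`
equal to the unit vector `e_none`, so they are the determinants without the row and column `none`:
`dd A B₁ e = dd C' E' e'` with `E' = E.submatrix some id`.  `dd C' E' e' • e_(some i) ∈ Im A`
gives `dd C' E' e' • e_i ∈ Im C'`. -/
def S_tua : Prop :=
  ∀ (R : Type u) [CommRing R] (I J : Type) [Fintype I] [DecidableEq I] [Fintype J] [DecidableEq J]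
    (C : Matrix (Option I) J R) (B : Matrix (Option I) (Option J) R),
    Tp (addCol C (Pi.single none 1)) B →
      Tp (C.submatrix some id)
        (Matrix.of fun i j => B (some i) (some j) - B (some i) none * C none j)

/-- [tub] Unit step for `TP`: from `C'` (the rows `some i` of `C`) to `(C, e_none)`.

PROOF.  `Tp A B`, `A = (C, e_none)`.  With `E'` from `S_tua`, `E'` is homogeneous
(`B (some i) none` has the degree `β - b i`, `C none j` the degree `a j - β`), so
`E' = X' C' + C' Y'`.  Let `X` be the matrix with `X (some i) (some i') = X' i i'`,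
`X (some i) none = B (some i) none`, row `none`: `(0, B none none)`; and
`Y (some j) (some j') = Y' j j'`, `Y (some j) none = 0`, `Y none none = 0`, and
`Y none (some j)` such that the row `none` is correct:
`Y none (some j) = B none (some j) - B none none * C none j - ∑_l C none l * Y' l j`.
Then `B = X A + A Y`: rows `some i`, columns `some j`:
`∑ X' i i' C' i' j + B (some i) none * C none j + ∑_l C' i l Y' l j`, correct; column `none`:
`B (some i) none`.  Then `S_hc`. -/
def S_tub : Prop :=
  ∀ (K : Type u) [Field K] (N : ℕ) (I J : Type) [Fintype I] [DecidableEq I] [Fintype J]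
    [DecidableEq J] (a : J → ℤ) (b : I → ℤ) (β : ℤ)
    (C : Matrix (Option I) J (MvPolynomial (Fin N) K)), HomM a (oext b β) C →
    TP a b (C.submatrix some id) → TP (oext a β) (oext b β) (addCol C (Pi.single none 1))

/-- [tpo] `TP` for at most one row.

PROOF.  `I` empty: `B` has no entries; `B = 0`.  `I` with one element `i₀`: `dd A B e = B i₀ (e i₀)`
(a `1 × 1` determinant), so `Tp A B` says `B i₀ j • e_(i₀) ∈ Im A` for all `j`, so
`B = A Y` for some `Y`; then `S_hc`. -/
def S_tpo : Prop :=
  ∀ (K : Type u) [Field K] (N : ℕ) (I J : Type) [Fintype I] [DecidableEq I] [Fintype J]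
    [DecidableEq J] (a : J → ℤ) (b : I → ℤ) (A : Matrix I J (MvPolynomial (Fin N) K)),
    HomM a b A → Fintype.card I ≤ 1 → TP a b A

/-- [hps] Splitting step for `HP`, first form: `(C, x_0 w)` from `(C, w)`, when the degree `α` of
`w` is larger than all `b i`.

PROOF.  Let `X` be homogeneous with `X (C, x_0 w) = ((C, x_0 w), W) V`.  Then the columns of `X C`
are in the image of `(C, x_0 w, W)`, so in the image of `(C, w, W)`; and
`x_0 (X w) ∈ Im (C, x_0 w, W)`, `x_0 (X w) = x_0 s w + D u` with `D = (C, W)`, so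
`x_0 (X w - s w) ∈ Im D`, and `NZ0 D` gives `X w - s w ∈ Im D`.  So the columns of `X (C, w)` are
in the image of `((C, w), W)`; `HP b (C, w) W` gives `X = s' 1 + ((C, w), W) Z`, and by `S_hc` we
may take `s' ∈ K` and `Z` homogeneous: the row of `Z` that belongs to `w` has the entries of degree
`b i - α < 0`, so it is `0`.  So `X = s' 1 + D Z'`, and `Im D ⊆ Im ((C, x_0 w), W)`. -/
def S_hps : Prop :=
  ∀ (K : Type u) [Field K] (N : ℕ) (I J1 J2 : Type) [Fintype I] [DecidableEq I] [Fintype J1]
    [DecidableEq J1] [Fintype J2] [DecidableEq J2] (a1 : J1 → ℤ) (a2 : J2 → ℤ) (b : I → ℤ) (α : ℤ)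
    (C : Matrix I J1 (MvPolynomial (Fin (N + 1)) K)) (w : I → MvPolynomial (Fin (N + 1)) K)
    (W : Matrix I J2 (MvPolynomial (Fin (N + 1)) K)),
    HomM a1 b C → (∀ i, HomD (α - b i) (w i)) → HomM a2 b W → (∀ i, b i < α) →
    NZ0 (Matrix.fromCols C W) → HP b (addCol C w) W →
      HP b (addCol C ((X 0 : MvPolynomial (Fin (N + 1)) K) • w)) W

/-- [hpu] Unit step for `HP`: from the rows `some i` of `(C, W)` to `((C, e_none), W)`, and the
information that is left when `e_none` is multiplied by `x_0`.

PROOF of the first part.  `D = (C, W)`, `D' = ` its rows `some i`; `C', W'` similarly.  Let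
`X` be homogeneous such that the columns of `X (C, e_none)` are in the image of
`((C, e_none), W)`; the image consists of the `v` with `v ∘ some ∈ Im D'`.  The column `none`:
`v₀ = X e_none` has `v₀ ∘ some ∈ Im D'`.  Let `X'` be the block of the rows and columns `some i` of
`X`: the column `j` of `X C`, restricted to the rows `some i`, is
`X' C'_j + C none j * (v₀ ∘ some)`, so `X' C'_j ∈ Im D'`.  `HP b C' W'` gives
`X' = s 1 + D' Z'`.  So `X - s 1` has all its columns in the image of `((C, e_none), W)` (their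
restrictions to the rows `some i` are in `Im D'`).
Second part (`x_0 e_none` instead of `e_none`): let `X` be homogeneous and
`X (C, x_0 e_none) = ((C, x_0 e_none), W) V`.  As in `S_hps`: the columns of `X C` are in
`Im ((C, e_none), W)`, and `x_0 X e_none - x_0 s e_none ∈ Im D` gives
`X e_none - s e_none ∈ Im D` by `NZ0 D`.  So the first part applies:
`X = s' 1 + ((C, e_none), W) Z`, with `s' ∈ K` and `Z` homogeneous (`S_hc`).  The row of `Z`
belonging to `e_none` is `r`, `r i` homogeneous of degree `b̃ i - β` (`b̃ = oext b β`), so it is a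
constant (and `0` if `b̃ i ≠ β`; `b i ≤ β`): `X i' i = s' δ + (D Z'') i' i + δ_(i', none) r i`.
So `X₁ = X - s' 1 - D Z''` is the matrix with the row `none` equal to `r` and the other rows `0`,
and the columns of `X₁ C` are in `Im ((C, x_0 e_none), W)`: for every `j` the vector
`(∑_i r i * C i j) e_none` is in `Im D + x_0 R e_none`, so
`L_j - x_0 s_j ∈ mins D` for some `s_j`, where `L_j = ∑_i r i * C i j` (hypothesis `hann`).  `L_j`
is homogeneous of degree `a1 j - β ≤ 1`, and we may take `s_j` homogeneous of degree `a1 j - β - 1`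
(`mins D` is generated by homogeneous elements, so homogeneous components of its elements are in
it); so `L_j - x_0 s_j` is homogeneous of degree `≤ 1` and in `mins D`, so it is `0` by `hdeg`.  So
`x_0 ∣ L_j` for all `j`, and `hind` gives `r = 0`.  So `X = s' 1 + D Z''`. -/
def S_hpu : Prop :=
  ∀ (K : Type u) [Field K] (N : ℕ) (I J1 J2 : Type) [Fintype I] [DecidableEq I] [Fintype J1]
    [DecidableEq J1] [Fintype J2] [DecidableEq J2] (a1 : J1 → ℤ) (a2 : J2 → ℤ) (b : I → ℤ) (β : ℤ)
    (C : Matrix (Option I) J1 (MvPolynomial (Fin (N + 1)) K))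
    (W : Matrix (Option I) J2 (MvPolynomial (Fin (N + 1)) K)),
    HomM a1 (oext b β) C → HomM a2 (oext b β) W →
    HP b (C.submatrix some id) (W.submatrix some id) →
    HP (oext b β) (addCol C (Pi.single none 1)) W ∧
    ((∀ i, b i ≤ β) → (∀ j, a1 j ≤ β + 1) → NZ0 (Matrix.fromCols C W) →
      (∀ y : MvPolynomial (Fin (N + 1)) K, Pi.single none y ∈ Im (Matrix.fromCols C W) →
        y ∈ mins (Matrix.fromCols C W)) →
      (∀ y ∈ mins (Matrix.fromCols C W), ∀ d : ℤ, d ≤ 1 → HomD d y → y = 0) →
      (∀ r : Option I → K, (∀ i, oext b β i ≠ β → r i = 0) →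
        (∀ j, X 0 ∣ ∑ i, MvPolynomial.C (r i) * C i j) → r = 0) →
      HP (oext b β) (addCol C (Pi.single none (X 0))) W)

/-- [hpo] `HP` for at most one row.

PROOF.  `I` empty: trivial.  `I` with one element: every `1 × 1` matrix `X` is `s • 1`; `Z = 0`. -/
def S_hpo : Prop :=
  ∀ (K : Type u) [Field K] (N : ℕ) (I J1 J2 : Type) [Fintype I] [DecidableEq I] [Fintype J1]
    [DecidableEq J1] [Fintype J2] [DecidableEq J2] (b : I → ℤ)
    (C : Matrix I J1 (MvPolynomial (Fin N) K)) (W : Matrix I J2 (MvPolynomial (Fin N) K)),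
    Fintype.card I ≤ 1 → HP b C W

/-- [hpd] `HP` for two rows of the same degree and `W = e_none`.

PROOF.  Rows `Option Unit`; `b` is constant, so `X` has constant entries (degree `0`).  The columns
of `X C` are in `Im (C, e_none)`; in the row `some ()`: for every `j`,
`X_(ss) C s j + X_(sn) C n j ∈ span (C s l)_l` (`s = some ()`, `n = none`), so
`X_(sn) C n j ∈ span`, and the hypothesis at `j₁` gives `X_(sn) = 0`.  So
`X = X_(ss) 1 + e_none ⊗ (X_(ns), X_(nn) - X_(ss))`. -/
def S_hpd : Prop :=
  ∀ (K : Type u) [Field K] (N : ℕ) (J : Type) [Fintype J] [DecidableEq J] (β : ℤ)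
    (C : Matrix (Option Unit) J (MvPolynomial (Fin N) K)) (j₁ : J),
    (∀ κ : K, MvPolynomial.C κ * C none j₁ ∈ Ideal.span (Set.range fun j => C (some ()) j) →
      κ = 0) →
    HP (fun _ => β) C (Matrix.of fun i (_ : Unit) => (Pi.single none 1 :
      Option Unit → MvPolynomial (Fin N) K) i)

/-- [t3s] The last step for three rows, all entries linear.

PROOF.  `A = (C, x_0 e_none)`, the rows are `Option I`; all `b = β`, all `a = β + 1`.
Let `B` be homogeneous (all entries linear forms) with `Tp A B`.  By `S_tsa` and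
`TP (πC)`: `πB̂ = X₁ (πC) + (πC) Y₁` (constant matrices `X₁, Y₁`; `B̂` = the columns `some j`).
Subtract `ι(X₁) A + A (ι(Y₁) ⊕ 0)` from `B` (`Tp A` is stable, `S_mim`): now `πB̂ = 0`, so
`B̂ = x_0 Γ` with a constant matrix `Γ`.  By `S_tsa` and `RR1 (πC)`: `πB_∞ = (πC) u`, `u` constants;
subtract `A Y` with `Y` = (column `none` = `(ι u, 0)`): `πB_∞ = 0`, `B_∞ = x_0 B'`, `B'` constants.
By `S_tsc`: `Tp (C, e_none) (x_0 Γ, B')`, and by `S_tua`: `Tp C' E` with `C'` = the rows `some i` of
`C`, `E i j = x_0 Γ (some i) j - B' (some i) * C none j`.  By the hypothesis `hG` (with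
`Γ' i j = Γ (some i) j` and `β' i = B' (some i)`, constants): `Γ' = 0` and `β' = 0`.  So
`B = (x_0 e_none ⊗ γ, x_0 γ' e_none)` (`γ j = Γ none j`, `γ' = B' none`) `= A Y` with
`Y` = the row `none`: `(γ, γ')`, other rows `0`.  Finally `S_hc`. -/
def S_t3s : Prop :=
  ∀ (K : Type u) [Field K] (N : ℕ) (I J : Type) [Fintype I] [DecidableEq I] [Fintype J]
    [DecidableEq J] (β : ℤ) (C : Matrix (Option I) J (MvPolynomial (Fin (N + 1)) K)),
    HomM (fun _ => β + 1) (fun _ => β) C →
    TP (fun _ => β + 1) (fun _ => β) (C.map red : Matrix (Option I) J (MvPolynomial (Fin N) K)) →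
    RR1 (C.map red : Matrix (Option I) J (MvPolynomial (Fin N) K)) → NZ0 C →
    (∀ (Γ : Matrix I J K) (β' : I → K),
      Tp (C.submatrix some id) (Matrix.of fun i j =>
        X 0 * MvPolynomial.C (Γ i j) - MvPolynomial.C (β' i) * C none j) → Γ = 0 ∧ β' = 0) →
    TP (fun _ => β + 1) (fun _ => β) (addCol C (Pi.single none (X 0)))

/-- [rx] Change of the index types of a matrix.

PROOF.  `A'= A.submatrix u v`.  `det (A'.submatrix id e)` (`e : I' → J'`) is
`det (A.submatrix id (v ∘ e ∘ u⁻¹))` (`Matrix.det_submatrix_equiv_self`), and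
`e ↦ v ∘ e ∘ u⁻¹` is a bijection; the same with one column replaced (`m ∘ u` instead of `m`); for
`rel` use `Option I' ≃ Option I` (`Equiv.optionCongr`): `rel A' y j' = rel A (v ∘ y ∘ u⁻¹) (v j')`.
`A' (x ∘ v) = (A x) ∘ u`.  It is enough to prove the implications from `A'` to `A` (by transport
of the given objects): `A` is a submatrix of `A'` with the inverse bijections. -/
def S_rx : Prop :=
  ∀ (R : Type u) [CommRing R] (I J I' J' : Type) [Fintype I] [DecidableEq I] [Fintype J]
    [DecidableEq J] [Fintype I'] [DecidableEq I'] [Fintype J'] [DecidableEq J'] (u : I' ≃ I)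
    (v : J' ≃ J) (A : Matrix I J R),
    (∀ m : I → R, (fun i => m (u i)) ∈ Im (A.submatrix u v) ↔ m ∈ Im A) ∧
    mins (A.submatrix u v) = mins A ∧
    (Ex1 (A.submatrix u v) ↔ Ex1 A) ∧ (RR1 (A.submatrix u v) ↔ RR1 A) ∧
    (HB (A.submatrix u v) ↔ HB A) ∧
    ∀ B : Matrix I J R, Tp (A.submatrix u v) (B.submatrix u v) ↔ Tp A B

end Pool.Agent.Lib.MP_09338f_ag
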