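import Mathlib
import Pool.Agent.Lib.MP_09338f_ag.KM.Stm1

/-!
# Project KM, Part B: semicontinuity, specialisation.  Nothing is proved in this file.

Principle: a property of the form (the solutions of a system of linear equations are the trivial
ones) holds for the generic matrix if it holds for one special matrix (over some extension field
`K₀` of `k`).
-/

set_option autoImplicit false

open MvPolynomial Matrix

universe u

namespace Pool.Agent.Lib.MP_09338f_ag

/-- The annihilator of `coker A` is the ideal of maximal minors. -/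
def AM {I J : Type} {R : Type u} [Fintype I] [DecidableEq I] [Fintype J] [DecidableEq J] [CommRing R]
    (A : Matrix I J R) : Prop := ∀ y : R, (∀ i, Pi.single i y ∈ Im A) → y ∈ mins A

/-- [tps] Splitting step for `TP`.

PROOF (uses S_tsa, S_tsc, S_tsd, S_mim, S_redk, S_hc).  `A = (C, x_0 w)`.  Let `B` be homogeneous
with `Tp A B`, `B̂` = its columns `some j`, `B_∞` = its column `none`.  By `S_tsa` and
`TP (πC)`: `πB̂ = X¹ (πC) + (πC) Y¹`, `X¹` homogeneous.  By `S_tsa` and `RR1 (πC)`: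
`πB_∞ = (πC) u`, and by `S_hc` we may take `u` homogeneous (`u j` of degree `α + 1 - a j`); so
`B_∞ = C ι(u) + x_0 B'` with `B'` homogeneous (`B' i` of degree `α - b i`).  Let
`B¹ = B - A Y⁰`, `Y⁰` = the column `none` equal to `(ι u, 0)`, other columns `0`:
`B¹ = (B̂, x_0 B')`, and `Tp A B¹` (`S_mim`).  `S_tsc`: `Tp (C, w) (B̂, B')`.  `TP (C, w)`:
`(B̂, B') = X² (C, w) + (C, w) Y²`.  Write `Y²` in blocks: `Y₁₁` (`some, some`), `Y₁₂` (`some,
none`), `y` (`none, some`), `Y₂₂` (`none, none`): `B̂ = X² C + C Y₁₁ + w ⊗ y`,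
`B' = X² w + C Y₁₂ + w Y₂₂`.  So `B¹ - X² A - A (Y₁₁, x_0 Y₁₂ ; 0, Y₂₂) = (w ⊗ y, 0)`.  Apply `π`
to the first equation: `π(w ⊗ y) = (X¹ - πX²) (πC) + (πC) (Y¹ - πY₁₁)`, and `X¹ - πX²` is
homogeneous.  `S_tsd` gives `(w ⊗ y, 0) = X³ A + A Y³`.  So `B = X A + A Y` for some `X, Y`, and
`S_hc` makes them homogeneous. -/
def S_tps : Prop :=
  ∀ (K : Type u) [Field K] (N : ℕ) (I J : Type) [Fintype I] [DecidableEq I] [Fintype J]
    [DecidableEq J] (a : J → ℤ) (b : I → ℤ) (α : ℤ)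
    (C : Matrix I J (MvPolynomial (Fin (N + 1)) K)) (w : I → MvPolynomial (Fin (N + 1)) K),
    HomM a b C → (∀ i, HomD (α - b i) (w i)) →
    TP a b (C.map red : Matrix I J (MvPolynomial (Fin N) K)) →
    RR1 (C.map red : Matrix I J (MvPolynomial (Fin N) K)) → NZ0 C →
    TP (oext a α) b (addCol C w) →
    HP b (C.map red : Matrix I J (MvPolynomial (Fin N) K))
      (Matrix.of fun (i : I) (_ : Unit) => red (w i)) →
    (∀ z : MvPolynomial (Fin N) K, (z • fun i => red (w i)) ∈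
      Im (C.map red : Matrix I J (MvPolynomial (Fin N) K)) →
        z ∈ mins (C.map red : Matrix I J (MvPolynomial (Fin N) K))) →
    TP (oext a (α + 1)) b (addCol C ((X 0 : MvPolynomial (Fin (N + 1)) K) • w))

/-- [sc] Semicontinuity of the rank: special (`f`) and generic (`g`, injective) values.

PROOF.  Choose `S ⊆ ι` such that the vectors `f ∘ v i`, `i ∈ S`, form a basis of the left span
(`card S` = the left dimension).  The matrix `(f (v i x))_(i ∈ S, x ∈ X)` has linearly independent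
rows, so there are `card S` columns `x` for which the square submatrix has a determinant `≠ 0`.  This
determinant is `f` of the determinant `δ` of `(v i x)`, so `δ ≠ 0`, so `g δ ≠ 0` and the vectors
`g ∘ v i`, `i ∈ S`, are linearly independent. -/
def S_sc : Prop :=
  ∀ (O K₀ K : Type u) [CommRing O] [IsDomain O] [Field K₀] [Field K] (f : O →+* K₀) (g : O →+* K),
    Function.Injective g → ∀ (ι X : Type) [Finite ι] (v : ι → X → O),
      Module.finrank K₀ (Submodule.span K₀ (Set.range fun (i : ι) (x : X) => f (v i x))) ≤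
        Module.finrank K (Submodule.span K (Set.range fun (i : ι) (x : X) => g (v i x)))

/-- [ex] Exactness at the special point implies exactness at the generic point.

PROOF (uses S_sc).  For `h = f` (field `L = K₀`) or `h = g` (`L = K`) let `n₁ = card ι₁`,
`n₃ = card ι₃`, `r(φψ)` the rank (dimension of the span) of the family `(h ∘ φ i)_i, (h ∘ ψ i)_i` of
vectors in `X → L`, `r(ψ), r(ξ), r(ω)` the ranks of `(h ∘ ψ i)`, `(h ∘ ξ l)`, `(h ∘ ω l)`, and `T`
the space of the `x : ι₁ → L` for which `∃ y, ∑ x_i h(φ_i) = ∑ y_i h(ψ_i)`.  `T` is the projection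
of the kernel of `(x, y) ↦ ∑ x h(φ) - ∑ y h(ψ)` (dimension `n₁ + n₃ - r(φψ)`), and the kernel of the
projection has the dimension `n₃ - r(ψ)`; so `dim T = n₁ - r(φψ) + r(ψ)`.  Over `K`: the third
hypothesis says that the span of the `g ∘ ω l` is in the kernel of `y ↦ ∑ y g(ψ)`, so
`r_g(ψ) ≤ n₃ - r_g(ω) ≤ n₃ - r_f(ω)` (S_sc), and by the second hypothesis
`n₃ - r_f(ω) ≤ r_f(ψ)`.  So `dim T_g = n₁ - r_g(φψ) + r_g(ψ) ≤ n₁ - r_f(φψ) + r_f(ψ) = dim T_f
≤ r_f(ξ)` (first hypothesis) `≤ r_g(ξ) ≤ dim T_g` (fourth hypothesis: the span of the `g ∘ ξ l` is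
in `T_g`).  So the span of the `g ∘ ξ l` is `T_g`. -/
def S_ex : Prop :=
  ∀ (O K₀ K : Type u) [CommRing O] [IsDomain O] [Field K₀] [Field K] (f : O →+* K₀) (g : O →+* K),
    Function.Injective g → ∀ (ι₀ ι₁ ι₃ ι₄ X : Type) [Fintype ι₀] [Fintype ι₁] [Fintype ι₃]
      [Fintype ι₄] (φ : ι₁ → X → O) (ψ : ι₃ → X → O) (ξ : ι₀ → ι₁ → O) (ω : ι₄ → ι₃ → O),
      (∀ (x : ι₁ → K₀) (y : ι₃ → K₀), (∀ p, ∑ i, x i * f (φ i p) = ∑ i, y i * f (ψ i p)) →
        ∃ z : ι₀ → K₀, ∀ i, x i = ∑ l, z l * f (ξ l i)) →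
      (∀ y : ι₃ → K₀, (∀ p, ∑ i, y i * f (ψ i p) = 0) →
        ∃ z : ι₄ → K₀, ∀ i, y i = ∑ l, z l * f (ω l i)) →
      (∀ l p, ∑ i, g (ω l i) * g (ψ i p) = 0) →
      (∀ l, ∃ y : ι₃ → K, ∀ p, ∑ i, g (ξ l i) * g (φ i p) = ∑ i, y i * g (ψ i p)) →
      ∀ (x : ι₁ → K) (y : ι₃ → K), (∀ p, ∑ i, x i * g (φ i p) = ∑ i, y i * g (ψ i p)) →
        ∃ z : ι₀ → K, ∀ i, x i = ∑ l, z l * g (ξ l i)

/-- [exg] The same for homogeneous matrices over polynomial rings, in one degree `d`.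

PROOF (uses S_ex).  For a finite type `Q`, degrees `D : Q → ℤ` and a ring `S` let `U(S)` be the
tuples `x : Q → S[x]` with `x q` homogeneous of degree `d - D q`; the coefficients (index
`(q, m)`, `m` a monomial of degree `d - D q`: a finite type `ι`) identify `U(S)` with `ι → S`.
Let `ι₀, ι₁, ι₃, ι₄` belong to `(Q₀, D₀)`, …; `X = Q₂ × (Fin N →₀ ℕ)` (coefficients of the values);
`φ i p`, `i = (q, m)`, `p = (r, m')`: the coefficient of `m'` in `φ r q * x^m`, the same for `ψ`;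
`ξ l i`, `l = (q, m)`, `i = (q', m')`: the coefficient of `m'` in `ξ q' q * x^m`, the same for
`ω`.  Since the matrices are homogeneous, a solution `y` (or `z`) of a homogeneous system can be
replaced by its homogeneous component (`comp (d - D q) (y q)`), see `S_hc`; so the hypotheses and
the conclusion translate into those of `S_ex`.  The coefficients of `φ.map (MvPolynomial.map f)`
are the images under `f` of the coefficients of `φ`. -/
def S_exg : Prop :=
  ∀ (O K₀ K : Type u) [CommRing O] [IsDomain O] [Field K₀] [Field K] (f : O →+* K₀) (g : O →+* K),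
    Function.Injective g → ∀ (N : ℕ) (Q₀ Q₁ Q₂ Q₃ Q₄ : Type) [Fintype Q₀] [DecidableEq Q₀]
      [Fintype Q₁] [DecidableEq Q₁] [Fintype Q₂] [DecidableEq Q₂] [Fintype Q₃] [DecidableEq Q₃]
      [Fintype Q₄] [DecidableEq Q₄] (D₀ : Q₀ → ℤ) (D₁ : Q₁ → ℤ) (D₂ : Q₂ → ℤ) (D₃ : Q₃ → ℤ)
      (D₄ : Q₄ → ℤ) (d : ℤ) (φ : Matrix Q₂ Q₁ (MvPolynomial (Fin N) O))
      (ψ : Matrix Q₂ Q₃ (MvPolynomial (Fin N) O)) (ξ : Matrix Q₁ Q₀ (MvPolynomial (Fin N) O))
      (ω : Matrix Q₃ Q₄ (MvPolynomial (Fin N) O)),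
      HomM D₁ D₂ φ → HomM D₃ D₂ ψ → HomM D₀ D₁ ξ → HomM D₄ D₃ ω →
      (∀ x : Q₁ → MvPolynomial (Fin N) K₀, (∀ q, HomD (d - D₁ q) (x q)) →
        ∀ y : Q₃ → MvPolynomial (Fin N) K₀,
          (φ.map (MvPolynomial.map f)).mulVec x = (ψ.map (MvPolynomial.map f)).mulVec y →
          ∃ z : Q₀ → MvPolynomial (Fin N) K₀, x = (ξ.map (MvPolynomial.map f)).mulVec z) →
      (∀ y : Q₃ → MvPolynomial (Fin N) K₀, (∀ q, HomD (d - D₃ q) (y q)) →
        (ψ.map (MvPolynomial.map f)).mulVec y = 0 →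
          ∃ z : Q₄ → MvPolynomial (Fin N) K₀, y = (ω.map (MvPolynomial.map f)).mulVec z) →
      (ψ.map (MvPolynomial.map g)) * (ω.map (MvPolynomial.map g)) = 0 →
      (∃ Y : Matrix Q₃ Q₀ (MvPolynomial (Fin N) K),
        (φ.map (MvPolynomial.map g)) * (ξ.map (MvPolynomial.map g)) =
          (ψ.map (MvPolynomial.map g)) * Y) →
      ∀ x : Q₁ → MvPolynomial (Fin N) K, (∀ q, HomD (d - D₁ q) (x q)) →
        ∀ y : Q₃ → MvPolynomial (Fin N) K,
          (φ.map (MvPolynomial.map g)).mulVec x = (ψ.map (MvPolynomial.map g)).mulVec y →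
          ∃ z : Q₀ → MvPolynomial (Fin N) K, x = (ξ.map (MvPolynomial.map g)).mulVec z

/-- [unv] The universal matrix over `O = k[u]`; every homogeneous matrix is a specialisation of it.

PROOF.  As in the definition of `genMatrix`, with `X ⟨(i, j, m), h⟩` itself as the coefficient.
`f = aeval (fun p => (A p.1.1 p.1.2.1).coeff p.1.2.2)`.  The coefficient of `m` in the `(i, j)` entry
is the variable if `m` has the degree `a j - b i`, otherwise `0`.  If `Gen k a b A` then `f` is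
injective: that is the definition of `AlgebraicIndependent`. -/
def S_unv : Prop :=
  ∀ (k : Type u) [Field k] (I J : Type) [Fintype I] [DecidableEq I] [Fintype J] [DecidableEq J]
    (N : ℕ) (a : J → ℤ) (b : I → ℤ),
    ∃ U : Matrix I J (MvPolynomial (Fin N) (MvPolynomial (Coef N a b) k)), HomM a b U ∧
      ∀ (K : Type u) [Field K] [Algebra k K] (A : Matrix I J (MvPolynomial (Fin N) K)), HomM a b A →
        ∃ f : MvPolynomial (Coef N a b) k →ₐ[k] K,
          U.map (MvPolynomial.map (f : MvPolynomial (Coef N a b) k →+* K)) = A ∧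
          (Gen k a b A → Function.Injective f)

/-- [gm] The generic matrix is generic.

PROOF.  The coefficient of `m` in the `(i, j)` entry of `genMatrix k N a b` is the image in the
field of fractions of the variable `X ⟨(i, j, m), h⟩` if `h : degree m = a j - b i`, otherwise `0`.
The variables are algebraically independent, and `MvPolynomial → FractionRing` is injective. -/
def S_gm : Prop :=
  ∀ (k : Type u) [Field k] (I J : Type) (N : ℕ) (a : J → ℤ) (b : I → ℤ),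
    Gen k a b (genMatrix k N a b)

/-- [gs] Submatrices and reductions modulo `x_0` of generic matrices are generic.

PROOF.  (1) The family of coefficients of the submatrix is a subfamily (along the injective map
`(i, j, m) ↦ (u i, v j, m)`) of the family of coefficients of `A`.  (2) The coefficient of `m` in
`π (A i j)` is the coefficient of `0 :: m` (exponent `0` of `x_0`; `Finsupp.cons 0 m`, or
`m.mapDomain Fin.succ`) in `A i j`. -/
def S_gs : Prop :=
  ∀ (k K : Type u) [Field k] [Field K] [Algebra k K] (I J : Type) (a : J → ℤ) (b : I → ℤ),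
    (∀ (N : ℕ) (A : Matrix I J (MvPolynomial (Fin N) K)), Gen k a b A →
      ∀ (I' J' : Type) (u : I' → I) (v : J' → J), Function.Injective u → Function.Injective v →
        Gen k (a ∘ v) (b ∘ u) (A.submatrix u v)) ∧
    ∀ (N : ℕ) (A : Matrix I J (MvPolynomial (Fin (N + 1)) K)), Gen k a b A →
      Gen k a b (A.map red : Matrix I J (MvPolynomial (Fin N) K))

/-- [spe] Specialisation for `Ex1`.

PROOF (uses S_exg, S_unv, S_rel, S_reld, S_hc).  `U` = the universal matrix, `f : O → K₀` with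
`U^f = A₀`, `g : O → K` injective with `U^g = A`.  Apply `S_exg` in every degree `d` with
`Q₁ = J, D₁ = a`, `Q₂ = I, D₂ = b`, `φ = U`, `Q₃ = Q₄ = Empty`, `Q₀ = Option I → J`,
`D₀ y = ∑_s a (y s) - ∑_i b i`, `ξ j y = rel U y j` (`rel` commutes with ring homomorphisms).  Let
`A x = 0`; every homogeneous component `(comp (d - a j) (x j))_j` of `x` is killed by `A`, so in the
span of the `rel A y`; `x` is the sum of finitely many of them. -/
def S_spe : Prop :=
  ∀ (k K₀ K : Type u) [Field k] [Field K₀] [Field K] [Algebra k K₀] [Algebra k K] (I J : Type)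
    [Fintype I] [DecidableEq I] [Fintype J] [DecidableEq J] (N : ℕ) (a : J → ℤ) (b : I → ℤ)
    (A₀ : Matrix I J (MvPolynomial (Fin N) K₀)) (A : Matrix I J (MvPolynomial (Fin N) K)),
    HomM a b A₀ → Ex1 A₀ → Gen k a b A → Ex1 A

/-- [sph] Specialisation for `HB`.

PROOF (uses S_exg, S_unv).  `u : J → R` with all the determinants `det (u ; A)_e = 0`: a linear
system `φ u = 0` with the matrix `φ e j = det (δ_j ; U)_e = ` the determinant with the row `none`
equal to `[e s = j]_s` (this is `rel U e j`); `Q₁ = J`, with `D₁ j = - a j`, `Q₂ = Option I → J`,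
`D₂ e = ∑ b - ∑_s a (e s)` (`rel U e j` is homogeneous of degree
`∑_s a (e s) - ∑ b - a j = D₁ j - D₂ e`); `Q₃ = Q₄ = Empty`; `Q₀ = I`, `D₀ i = - b i`,
`ξ j i = U i j` (homogeneous of degree `a j - b i = D₀ i - D₁ j`).  Fourth hypothesis: the row `i`
of `A` is a solution (two equal rows).  Decompose `u` into homogeneous components (`u j` of degree
`d + a j`). -/
def S_sph : Prop :=
  ∀ (k K₀ K : Type u) [Field k] [Field K₀] [Field K] [Algebra k K₀] [Algebra k K] (I J : Type)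
    [Fintype I] [DecidableEq I] [Fintype J] [DecidableEq J] (N : ℕ) (a : J → ℤ) (b : I → ℤ)
    (A₀ : Matrix I J (MvPolynomial (Fin N) K₀)) (A : Matrix I J (MvPolynomial (Fin N) K)),
    HomM a b A₀ → HB A₀ → Gen k a b A → HB A

/-- [spr] Specialisation for `RR1`.

PROOF (uses S_exg, S_unv, S_mim, S_rel, S_reld).  Unknowns `m : I → R` (`Q₁ = I`, `D₁ = b`);
`Q₂ = (I → J) × I × I × I` with `(e, k, i, i')`: `(det (A_e[k ← m]) e_i) i'`, i.e. the matrix entry
at `l : I` is `[i = i'] det (A_e[k ← e_l])`; `Q₃ = (I → J) × I × I × J`: for each `(e, k, i)` an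
unknown `y : J → R`, and `ψ` is `A` for each `(e, k, i)`; `Q₄ = (I → J) × I × I × (Option I → J)`:
`ω` = the Cramer relations for each `(e, k, i)`; `Q₀ = J`, `ξ = A`.  The degrees are determined
by `S_reld`: `D₂ (e,k,i,i') = b i' - (∑ a∘e - a (e k) - ∑ b + b i)…` so that all matrices are
homogeneous (choose `D₂ (e, k, i, i') = b i' - b i + ∑_l b l - ∑_l a (e l) + a (e k)` and
`D₃ (e, k, i, j) = a j - b i + ∑_l b l - ∑_l a (e l) + a (e k)`,
`D₄ (e, k, i, y) = ∑_s a (y s) - ∑_l b l - b i + ∑_l b l - ∑_l a (e l) + a (e k)`).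
Hypotheses: 1 = `RR1 A₀`; 2 = `Ex1 A₀`; 3 = `A (rel A y) = 0`; 4 = the minors with one column in
`Im A` are in `mins A`, which kills `M(A)` (`S_mim`).  Homogeneous components of `m`. -/
def S_spr : Prop :=
  ∀ (k K₀ K : Type u) [Field k] [Field K₀] [Field K] [Algebra k K₀] [Algebra k K] (I J : Type)
    [Fintype I] [DecidableEq I] [Fintype J] [DecidableEq J] (N : ℕ) (a : J → ℤ) (b : I → ℤ)
    (A₀ : Matrix I J (MvPolynomial (Fin N) K₀)) (A : Matrix I J (MvPolynomial (Fin N) K)),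
    HomM a b A₀ → Ex1 A₀ → RR1 A₀ → Gen k a b A → RR1 A

/-- [spa] Specialisation for `AM`.

PROOF (uses S_exg, S_unv, S_mim, S_rel, S_reld).  Unknown `y : R` (`Q₁ = Unit`, `D₁ = 0`);
`Q₂ = I × I`, `D₂ (i, i') = b i' - b i`: `(y e_i) i'`; `Q₃ = I × J`, `D₃ (i, j) = a j - b i`,
`ψ` = `A` for each `i`; `Q₄ = I × (Option I → J)`, `ω` = the Cramer relations; `Q₀ = I → J`,
`D₀ e = ∑ a∘e - ∑ b`, `ξ () e = det U_e`.  Hypotheses: 1 = `AM A₀`, 2 = `Ex1 A₀`, 3 = `S_rel`,
4 = the minors kill `M(A)`.  Homogeneous components of `y`. -/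
def S_spa : Prop :=
  ∀ (k K₀ K : Type u) [Field k] [Field K₀] [Field K] [Algebra k K₀] [Algebra k K] (I J : Type)
    [Fintype I] [DecidableEq I] [Fintype J] [DecidableEq J] (N : ℕ) (a : J → ℤ) (b : I → ℤ)
    (A₀ : Matrix I J (MvPolynomial (Fin N) K₀)) (A : Matrix I J (MvPolynomial (Fin N) K)),
    HomM a b A₀ → Ex1 A₀ → AM A₀ → Gen k a b A → AM A

/-- [spt] Specialisation for `TP`.

PROOF (uses S_exg, S_unv, S_mim, S_rel, S_reld, S_hc).  Degree `d = 0`.  Unknowns `B` (`Q₁ = I × J`,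
`D₁ (i, j) = b i - a j`); `Q₂ = (I → J) × I × I`: `(dd A B e • e_i) i'`, the matrix entry at
`(i₀, j₀)` is `[i = i'] dd A (Matrix.single i₀ j₀ 1) e` (`dd` is linear in `B`);
`D₂ (e, i, i') = b i' - b i + ∑ b - ∑ a∘e`; `Q₃ = (I → J) × I × J`: unknowns `y_(e,i) : J → R`, `ψ`
is `A` for each `(e, i)`, `D₃ (e, i, j) = a j - b i + ∑ b - ∑ a∘e`; `Q₄ = (I → J) × I × (Option I →
J)`, Cramer relations, `D₄ (e, i, y) = ∑_s a (y s) - b i - ∑ a∘e`; `Q₀ = (I × I) ⊕ (J × J)`:
`(X, Y) ↦ X A + A Y`, `D₀ (inl (i, i')) = b i - b i'`, `D₀ (inr (j, j')) = a j - a j'`.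
Hypotheses: 1 = `TP a b A₀`; 2 = `Ex1 A₀` (for each `(e, i)`); 3 = `A (rel A y) = 0`;
4 = `dd A (X A + A Y) e ∈ mins A`, which kills `M(A)`.  At the end `S_hc`. -/
def S_spt : Prop :=
  ∀ (k K₀ K : Type u) [Field k] [Field K₀] [Field K] [Algebra k K₀] [Algebra k K] (I J : Type)
    [Fintype I] [DecidableEq I] [Fintype J] [DecidableEq J] (N : ℕ) (a : J → ℤ) (b : I → ℤ)
    (A₀ : Matrix I J (MvPolynomial (Fin N) K₀)) (A : Matrix I J (MvPolynomial (Fin N) K)),
    HomM a b A₀ → Ex1 A₀ → TP a b A₀ → Gen k a b A → TP a b A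

/-- [spp] Specialisation for `HP`.

PROOF (uses S_exg, S_unv, S_rel, S_reld, S_hc).  `D = (C, W)`, `α = Sum.elim a1 a2`, degree `d = 0`.
Unknown `X` (`Q₁ = I × I`, `D₁ (i, i') = b i - b i'`); `Q₂ = I × J1`, `(X C) i j`,
`D₂ (i, j) = b i - a1 j`; `Q₃ = (J1 ⊕ J2) × J1`, `V`, `ψ V = D V`, `D₃ (q, j) = α q - a1 j`;
`Q₄ = (Option I → J1 ⊕ J2) × J1`, Cramer relations of `D` in the column `j`,
`D₄ (y, j) = ∑_s α (y s) - ∑ b - a1 j`; `Q₀ = Unit ⊕ ((J1 ⊕ J2) × I)`, `(s, Z) ↦ s 1 + D Z`,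
`D₀ (inl ()) = 0`, `D₀ (inr (q, i)) = α q - b i`.  Hypotheses: 1 = `HP b C₀ W₀`; 2 = the hypothesis
on the kernel of `(C₀, W₀)` in the degrees `a1 j` (apply it to each column of `V`); 3 = `S_rel`;
4 = `(s 1 + D Z) C = D (s (1, 0) + Z C)`. -/
def S_spp : Prop :=
  ∀ (k K₀ K : Type u) [Field k] [Field K₀] [Field K] [Algebra k K₀] [Algebra k K] (I J1 J2 : Type)
    [Fintype I] [DecidableEq I] [Fintype J1] [DecidableEq J1] [Fintype J2] [DecidableEq J2]
    (N : ℕ) (a1 : J1 → ℤ) (a2 : J2 → ℤ) (b : I → ℤ)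
    (C₀ : Matrix I J1 (MvPolynomial (Fin N) K₀)) (W₀ : Matrix I J2 (MvPolynomial (Fin N) K₀))
    (C : Matrix I J1 (MvPolynomial (Fin N) K)) (W : Matrix I J2 (MvPolynomial (Fin N) K)),
    HomM (Sum.elim a1 a2) b (Matrix.fromCols C₀ W₀) →
    (∀ (j : J1) (x : J1 ⊕ J2 → MvPolynomial (Fin N) K₀),
      (∀ q, HomD (a1 j - Sum.elim a1 a2 q) (x q)) → (Matrix.fromCols C₀ W₀).mulVec x = 0 →
        x ∈ Submodule.span (MvPolynomial (Fin N) K₀) (Set.range (rel (Matrix.fromCols C₀ W₀)))) →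
    HP b C₀ W₀ → Gen k (Sum.elim a1 a2) b (Matrix.fromCols C W) → HP b C W

/-- [re] Change of the index types.

PROOF (uses S_gs, S_rx).  `A.submatrix u v` is generic for `(a ∘ v, b ∘ u)` by S_gs; S_rx. -/
def S_re : Prop :=
  ∀ (N : ℕ) (I J I' J' : Type) [Fintype I] [DecidableEq I] [Fintype J] [DecidableEq J]
    [Fintype I'] [DecidableEq I'] [Fintype J'] [DecidableEq J'] (a : J → ℤ) (b : I → ℤ)
    (u : I' ≃ I) (v : J' ≃ J),
    (GE1.{u} N (a ∘ v) (b ∘ u) → GE1.{u} N a b) ∧ (GR1.{u} N (a ∘ v) (b ∘ u) → GR1.{u} N a b) ∧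
      (GHB.{u} N (a ∘ v) (b ∘ u) → GHB.{u} N a b)

/-- [rt] Change of the index types for `TP`.

PROOF (uses S_gs, S_rx).  `A' = A.submatrix u v` is generic (S_gs).  For `B` homogeneous with `Tp A B`
let `B' = B.submatrix u v`, `Tp A' B'` (S_rx); `B' = X' A' + A' Y'`;
`X = X'.submatrix u⁻¹ u⁻¹`, `Y = Y'.submatrix v⁻¹ v⁻¹`. -/
def S_rt : Prop :=
  ∀ (N : ℕ) (I J I' J' : Type) [Fintype I] [DecidableEq I] [Fintype J] [DecidableEq J]
    [Fintype I'] [DecidableEq I'] [Fintype J'] [DecidableEq J'] (a : J → ℤ) (b : I → ℤ)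
    (u : I' ≃ I) (v : J' ≃ J), GTP.{u} N (a ∘ v) (b ∘ u) → GTP.{u} N a b

/-- [rh] Change of the index types for `HP`.

PROOF (uses S_gs).  Transport `X`, `V`, `Z` as in S_rt.  Note that
`Matrix.fromCols (C.submatrix u v) (W.submatrix u v') = (Matrix.fromCols C W).submatrix u
(Sum.map v v')`, and `Sum.elim (a1 ∘ v) (a2 ∘ v') = Sum.elim a1 a2 ∘ Sum.map v v'`. -/
def S_rh : Prop :=
  ∀ (N : ℕ) (I J1 J2 I' J1' J2' : Type) [Fintype I] [DecidableEq I] [Fintype J1]
    [DecidableEq J1] [Fintype J2] [DecidableEq J2] [Fintype I'] [DecidableEq I'] [Fintype J1']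
    [DecidableEq J1'] [Fintype J2'] [DecidableEq J2'] (a1 : J1 → ℤ) (a2 : J2 → ℤ) (b : I → ℤ)
    (u : I' ≃ I) (v : J1' ≃ J1) (v' : J2' ≃ J2),
    GHP.{u} N (a1 ∘ v) (a2 ∘ v') (b ∘ u) → GHP.{u} N a1 a2 b

end Pool.Agent.Lib.MP_09338f_ag
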