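import Mathlib
import Pool.Agent.Lib.MP_09338f_ag.KM.Stm2

/-!
# Project KM, Part C: conditions on degrees, special cases, inductions.  Nothing is proved here.

`t = card I` (rows), `card J` columns, `c = card J - card I + 1` (the codimension), `N` variables.
-/

set_option autoImplicit false

open MvPolynomial Matrix

universe u

namespace Pool.Agent.Lib.MP_09338f_ag

/-- `AM` for generic matrices. -/
def GAM {I J : Type} [Fintype I] [DecidableEq I] [Fintype J] [DecidableEq J] (N : ℕ) (a : J → ℤ)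
    (b : I → ℤ) : Prop :=
  ∀ (k K : Type u) [Field k] [Field K] [Algebra k K] (A : Matrix I J (MvPolynomial (Fin N) K)),
    Gen k a b A → AM A

/-- [cd] The conditions on the degrees: implications and removal of the largest row and column.

PROOF.  Counting.  Write `#a<β` for the number of `j` with `a j < β`, etc.
(1) `a j < b i → a j ≤ b i`.  (2) `x - 1 ≤ x`.  (3) If no `a j` is equal to a `b i`, then
`a j ≤ b i ↔ a j < b i`.
(4) `CD1 (oext a α) (oext b β)`, all `b i ≤ β`, all `a j ≤ α`, more columns than (or as many as)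
rows: the condition at `none` says `#{j ∈ Option J : · < β} ≤ #{i ∈ Option I : · < β} ≤ card I`
(`none` itself is not counted), and `card (Option J) ≥ card I + 1`, so some column is `≥ β`, so
`β ≤ α`.  The condition for `(a, b)`: for `i : I` the element `none` is not counted on either side
(`α ≥ β ≥ b i`).  The condition for `(oext a (α - 1), oext b β)` if `β < α`: the counts do not
change, as `α - 1 ≥ β ≥ b i`.  The condition for `(a, oext b β)`: the counts on the left can only
decrease.  (5) the same for `CD3` (`β < α` because `#{· ≤ β} ≤ card I - 1 < card (Option J)`; if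
`β < α - 1`, the counts `#{· ≤ b i}` do not change).
(6) `CD2 (oext a β) (oext b β)` for arbitrary `β` (a unit entry): for `i : I`: if `b i ≤ β`:
neither count changes when the two elements `none` are removed; if `β < b i`: both counts decrease
by `1`, and the right count is `≥ 2` before (it is `≥ 1` as `β < b i`, and if it is `1` the
condition says that the left count is `0`, but the column `none` is counted). -/
def S_cd : Prop :=
  ∀ (I J : Type) [Fintype I] [DecidableEq I] [Fintype J] [DecidableEq J] (a : J → ℤ) (b : I → ℤ),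
    (CD3 a b → CD2 a b) ∧ (CD2 a b → CD1 a b) ∧
    ((∀ i j, a j ≠ b i) → CD2 a b → CD3 a b) ∧
    (∀ α β : ℤ, (∀ i, b i ≤ β) → (∀ j, a j ≤ α) → Fintype.card I ≤ Fintype.card J →
      CD1 (oext a α) (oext b β) →
        β ≤ α ∧ CD1 a b ∧ CD1 a (oext b β) ∧ (β < α → CD1 (oext a (α - 1)) (oext b β))) ∧
    (∀ α β : ℤ, (∀ i, b i ≤ β) → (∀ j, a j ≤ α) → Fintype.card I ≤ Fintype.card J →
      CD3 (oext a α) (oext b β) →
        β < α ∧ CD3 a b ∧ CD3 a (oext b β) ∧ (β < α - 1 → CD3 (oext a (α - 1)) (oext b β))) ∧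
    ∀ β : ℤ, CD2 (oext a β) (oext b β) → CD2 a b

/-- [deg] The maximal minors of `(C, W)` have the degree `≥ 2`.

PROOF.  For integers `x, y` in an interval `(L, U]`: `x - y = ∑_{θ ∈ (L, U]} ([θ ≤ x] - [θ ≤ y])`.
So with `α = Sum.elim a1 a2`: `∑_i α (e i) - ∑_i b i = ∑_θ (#{i : b i < θ} - #{i : α (e i) < θ})`.
Every term is `≥ 0`: if some `b i ≥ θ`, let `i₁` have the smallest such `b i`; then
`#{b < θ} = #{b < b i₁}`, and `#{i : α (e i) < θ} ≤ #{j ∈ J1 : a1 j < θ}` (`e` injective; the columns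
of `J2` have a degree `≥ b i₁ ≥ θ`) `≤ #{a1 ≤ b i₁} ≤ #{b < θ} - 1` (`CD3`, truncated subtraction);
so the term is `≥ 0`, and `≥ 1` if `#{b < θ} ≥ 1`.  If all `b i < θ` the term is
`card I - #{i : α (e i) < θ} ≥ 0`.
Let `β` be the largest `b i`, `s = #{b < β}`.  The term `θ = β + 1` is
`card I - #{i : α (e i) ≤ β} ≥ card I - #{a1 ≤ β} - ε`, where `ε = 1` if `e` takes a value `j ∈ J2`
(at most one, `card J2 ≤ 1`) with `a2 j = β`, otherwise `ε = 0`; and `#{a1 ≤ β} ≤ s - 1`.
If `s ≥ 1`: the term `β + 1` is `≥ card I - (s - 1) - 1 ≥ 1` (`s ≤ card I - 1`), and the term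
`θ = β` is `≥ 1`; together `≥ 2`.  If `s = 0` (all `b` equal): `#{a1 ≤ β} = 0`, the term `β + 1` is
`≥ card I - ε`; if there is `i` with `b i < a2 j`, then `a2 j > β` and `ε = 0`, the term is
`≥ card I ≥ 2`; otherwise `card I ≥ 3` and the term is `≥ 2`. -/
def S_deg : Prop :=
  ∀ (I J1 J2 : Type) [Fintype I] [DecidableEq I] [Fintype J1] [DecidableEq J1] [Fintype J2]
    [DecidableEq J2] (a1 : J1 → ℤ) (a2 : J2 → ℤ) (b : I → ℤ), CD3 a1 b → (∀ j i, b i ≤ a2 j) →
    Fintype.card J2 ≤ 1 → 2 ≤ Fintype.card I →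
    (3 ≤ Fintype.card I ∨ ∀ j, ∃ i, b i < a2 j) →
    ∀ e : I → J1 ⊕ J2, Function.Injective e → 2 ≤ ∑ i, Sum.elim a1 a2 (e i) - ∑ i, b i

/-- [hdg] An ideal of maximal minors of degrees `≥ 2` contains no linear forms.

PROOF.  Let `y ∈ mins D` be homogeneous of degree `d ≤ 1`.  `y = ∑_e c_e det D_e`; `det D_e = 0` if
`e` is not injective, otherwise `det D_e` is homogeneous of degree `δ_e ≥ 2` (S_reld).  Take the
homogeneous component of degree `d` (if `d ≥ 0`; if `d < 0` then `y = 0`): the component of degree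
`d - δ_e < 0` of `c_e` is `0`, so `y = 0`. -/
def S_hdg : Prop :=
  ∀ (K : Type u) [Field K] (N : ℕ) (I J : Type) [Fintype I] [DecidableEq I] [Fintype J]
    [DecidableEq J] (a : J → ℤ) (b : I → ℤ) (D : Matrix I J (MvPolynomial (Fin N) K)),
    HomM a b D → (∀ e : I → J, Function.Injective e → 2 ≤ ∑ i, a (e i) - ∑ i, b i) →
      ∀ y ∈ mins D, ∀ d : ℤ, d ≤ 1 → HomD d y → y = 0

/-- [ind] Independence of generic linear forms.

PROOF.  Let `r` be supported on `I₀ = {i | b i = β}` with `x_0 ∣ L_j = ∑_i r i C i j` for all `j`.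
For `i' ∈ I₀` consider `j = σ i'`, of the degree `β + 1`; for `i ∈ I₀` the entry `C i j` is a linear
form, let `u i i'` be its coefficient at `x_1`.  The coefficient of `x_1` in `L_j` is `0`
(`x_0 ∣ L_j`), so `∑_{i ∈ I₀} r i * u i i' = 0` for all `i' ∈ I₀`.  The `u i i'` are algebraically
independent over `k` (`σ` injective, different indices `(i, σ i', x_1)`), so
`det (u i i') ≠ 0` (the determinant of the matrix of variables is not `0`,
`Matrix.det_mvPolynomialX_ne_zero`), so `r = 0`. -/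
def S_ind : Prop :=
  ∀ (k K : Type u) [Field k] [Field K] [Algebra k K] (N : ℕ) (I J : Type) [Fintype I]
    [DecidableEq I] [Fintype J] [DecidableEq J] (a : J → ℤ) (b : I → ℤ) (β : ℤ)
    (C : Matrix I J (MvPolynomial (Fin (N + 2)) K)), Gen k a b C →
    (∃ σ : {i // b i = β} → J, Function.Injective σ ∧ ∀ i, a (σ i) = β + 1) →
    ∀ r : I → K, (∀ i, b i ≠ β → r i = 0) →
      (∀ j, (X 0 : MvPolynomial (Fin (N + 2)) K) ∣ ∑ i, MvPolynomial.C (r i) * C i j) → r = 0

/-- [cnt] Enough linear columns for `S_ind`.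

PROOF.  Rows `Option I` with the largest degree `β = b̃ none`; columns `Option J1`, all of degree
`≤ β + 1`, the column `none` has the degree `β + 1`; `CD3`, at least one column more than rows.
Let `q = #{b̃ = β}`, `s = #{b̃ < β} = card (Option I) - q`.  `#{j ∈ Option J1 : ã j ≤ β} ≤ s - 1`
(truncated), so `#{ã = β + 1} ≥ card (Option J1) - (s - 1) ≥ card (Option I) + 1 - (s - 1)`, which is
`≥ q + 2` if `s ≥ 1` and `≥ q + 1` if `s = 0`.  Without the column `none`: at least `q` columns.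
So there is an injection. -/
def S_cnt : Prop :=
  ∀ (I J : Type) [Fintype I] [DecidableEq I] [Fintype J] [DecidableEq J] (a : J → ℤ) (b : I → ℤ)
    (β : ℤ), (∀ i, b i ≤ β) → (∀ j, a j ≤ β + 1) → Fintype.card I + 1 ≤ Fintype.card J →
    CD3 (oext a (β + 1)) (oext b β) →
    ∃ σ : {i // oext b β i = β} → J, Function.Injective σ ∧ ∀ i, a (σ i) = β + 1

/-- [isc] The induction scheme (pure combinatorics of types and degrees).

The hypotheses are, in this order: `hR` (renaming), `hE` (no rows), `hQ` (square case), `hU` (unit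
case), `hS` (splitting case).

PROOF (uses S_cd).  Fix `L : ℤ` with `L ≤ b i` for all `i`; induction on the natural number
`card J + ∑_j (a j - L).toNat`, for all `N, I, J, a, b` at the same time.  `I` empty: `hE`.
Otherwise (`card J ≥ card I ≥ 1`) choose `i₀` with the largest `b i₀ = β` and `j₀` with the largest
`a j₀ = α`; `I' = {i // i ≠ i₀}`, `J' = {j // j ≠ j₀}`, `I ≃ Option I'`, `J ≃ Option J'`
(`Equiv.optionSubtypeNe`); by `hR` it is enough to prove `P N (Option I') (Option J') (oext a' α)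
(oext b' β)`, where `b' i ≤ β`, `a' j ≤ α`.  `β ≤ α` (S_cd).  If `card I = card J`: `hQ`, with
`P N I' J' a' b'` by induction.  If `card I < card J` and `α = β`: `hU`, with `P N I' J' a' b'` by
induction.  If `card I < card J` and `α > β`: `N ≥ 1`, `N = N' + 1`: `hS` with the rows
`Option I'`, the columns `J'` and `α - 1 ≥ β`: `P N' (Option I') J' a' (oext b' β)` by induction
(`card J` decreases), `P (N' + 1) (Option I') (Option J') (oext a' (α - 1)) (oext b' β)` by
induction (`(α - 1 - L).toNat < (α - L).toNat`, as `α - 1 ≥ β ≥ L`).  All `CD1` by S_cd. -/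
def S_isc : Prop :=
  ∀ (δ : ℕ) (P : (N : ℕ) → (I J : Type) → [Fintype I] → [DecidableEq I] → [Fintype J] →
    [DecidableEq J] → (J → ℤ) → (I → ℤ) → Prop),
    (∀ (N : ℕ) (I J I' J' : Type) [Fintype I] [DecidableEq I] [Fintype J] [DecidableEq J]
      [Fintype I'] [DecidableEq I'] [Fintype J'] [DecidableEq J'] (a : J → ℤ) (b : I → ℤ)
      (u : I' ≃ I) (v : J' ≃ J), P N I' J' (a ∘ v) (b ∘ u) → P N I J a b) →
    (∀ (N : ℕ) (I J : Type) [Fintype I] [DecidableEq I] [Fintype J] [DecidableEq J] (a : J → ℤ)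
      (b : I → ℤ), IsEmpty I → P N I J a b) →
    (∀ (N : ℕ) (I J : Type) [Fintype I] [DecidableEq I] [Fintype J] [DecidableEq J] (a : J → ℤ)
      (b : I → ℤ) (α β : ℤ), Fintype.card I = Fintype.card J → δ + 1 ≤ N → (∀ i, b i ≤ β) →
      (∀ j, a j ≤ α) → β ≤ α → CD1 a b → CD1 (oext a α) (oext b β) → P N I J a b →
        P N (Option I) (Option J) (oext a α) (oext b β)) →
    (∀ (N : ℕ) (I J : Type) [Fintype I] [DecidableEq I] [Fintype J] [DecidableEq J] (a : J → ℤ)
      (b : I → ℤ) (β : ℤ), Fintype.card I < Fintype.card J →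
      Fintype.card J + δ + 1 ≤ Fintype.card I + N → CD1 a b → CD1 a (oext b β) →
      CD1 (oext a β) (oext b β) → P N I J a b → P N (Option I) (Option J) (oext a β) (oext b β)) →
    (∀ (N : ℕ) (I J : Type) [Fintype I] [DecidableEq I] [Fintype J] [DecidableEq J] (a : J → ℤ)
      (b : I → ℤ) (α : ℤ), 1 ≤ Fintype.card I → Fintype.card I ≤ Fintype.card J →
      Fintype.card J + δ + 1 ≤ Fintype.card I + N → (∀ i, b i ≤ α) → CD1 a b →
      CD1 (oext a α) b → CD1 (oext a (α + 1)) b → P N I J a b →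
      P (N + 1) I (Option J) (oext a α) b → P (N + 1) I (Option J) (oext a (α + 1)) b) →
    ∀ (N : ℕ) (I J : Type) [Fintype I] [DecidableEq I] [Fintype J] [DecidableEq J] (a : J → ℤ)
      (b : I → ℤ), Fintype.card I ≤ Fintype.card J → Fintype.card J + δ + 1 ≤ Fintype.card I + N →
      CD1 a b → P N I J a b

/-- [e1a] `Ex1` for generic matrices, `1 ≤ c ≤ N`.

PROOF (uses S_isc, S_e1s, S_e1u, S_spe, S_gm, S_gs, S_re, S_rel).  `S_isc` with `δ = 0`,
`P = GE1`.  Renaming: S_re.  `I` empty: every `x` is `∑_j x j • rel A (fun _ => j)`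
(`rel A (fun _ => j)` = unit vector, a `1 × 1` determinant).  In the other cases, by `S_spe`, it is
enough to find, for every `k`, a field `K₀ ⊇ k` and a homogeneous `A₀` over `K₀` with `Ex1 A₀`.
Square case: `A₀ = addCol (addRow A' 0) (Pi.single none (x_0^d))`, `d = α - β`, `A'` generic for
`(a, b)` over `K₀ = GenField` (`N ≥ 1`).  `Ex1 A'`, and since `card J = card I < card (Option I)`
all `rel A' y` are `0`, so `A'` is injective, so `A₀` is injective, so `Ex1 A₀`.
Unit case: `A₀ = addCol (addRow A' r) (Pi.single none 1)` with `addRow A' r` generic for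
`(a, oext b β)`; `Ex1 A'` (`A'` is generic for `(a, b)`, S_gs), `S_e1u`.
Splitting case: `A₀ = addCol C (x_0 w)`, `(C, w)` generic for `(oext a α, b)`: `Ex1 (C, w)`,
`Ex1 (πC)` (`πC` is generic by S_gs); `S_e1s`. -/
def S_e1a : Prop :=
  ∀ (N : ℕ) (I J : Type) [Fintype I] [DecidableEq I] [Fintype J] [DecidableEq J] (a : J → ℤ)
    (b : I → ℤ), Fintype.card I ≤ Fintype.card J → Fintype.card J + 1 ≤ Fintype.card I + N →
    CD1 a b → GE1.{u} N a b

/-- [r1a] `RR1` for generic matrices, `1 ≤ c`, `c + 1 ≤ N`.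

PROOF (uses S_isc, S_r1s, S_r1u, S_r1q, S_spr, S_e1a, S_e1s, S_e1u, S_nz, S_re, S_gm, S_gs, S_rel).
`S_isc` with `δ = 1`, `P = GR1`, and the same special matrices `A₀` as in the proof of `S_e1a`; they
satisfy `Ex1 A₀` (square case: `A'` is injective by `S_e1a` as there; `S_e1u`; `S_e1s`).  `I` empty:
`m = 0`.  Square case: `S_r1q`: `RR1 A'`, `NZ0 A'` by `S_nz` (`πA'` is generic in `N - 1 ≥ 1`
variables, S_e1a), and `πA'` is square and injective (`Ex1`, all `rel` are `0`), so
`det (π A'_(e₀)) ≠ 0` for a bijection `e₀ : I ≃ J` (if `I` is empty the determinant is `1`).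
Unit case: `S_r1u`.  Splitting case: `S_r1s`: `RR1 (πC)`, `RR1 (C, w)`; `NZ0 (C, w)` and `NZ0 C` by
`S_nz` and `S_e1a` (`Ex1 (π(C, w))`: codimension `card J + 2 - card I ≤ N`; `Ex1 (πC)`). -/
def S_r1a : Prop :=
  ∀ (N : ℕ) (I J : Type) [Fintype I] [DecidableEq I] [Fintype J] [DecidableEq J] (a : J → ℤ)
    (b : I → ℤ), Fintype.card I ≤ Fintype.card J → Fintype.card J + 2 ≤ Fintype.card I + N →
    CD1 a b → GR1.{u} N a b

/-- [hba] `HB` for generic matrices, `c = 2 ≤ N`.

PROOF (uses S_isc, S_hbs, S_hbu, S_sph, S_e1a, S_re, S_gm, S_gs, S_rel).  `S_isc` with `δ = 0`,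
`P N I J a b := card J = card I + 1 → GHB N a b`, and the special matrices as in `S_e1a`.
`I` empty, `card J = 1`: the determinant for `e : Option I → J` is `u (e none)`, so `u = 0`.
Square case: nothing to prove.  Unit case: `S_hbu`.  Splitting case: `card J = card I`,
`A₀ = (C, x_0 w)`, `S_hbs`; `πC` is generic and square in `N ≥ 1` variables, so injective by `S_e1a`
(all `rel` are `0`), so `det (πC)_e ≠ 0` for a bijection `e`. -/
def S_hba : Prop :=
  ∀ (N : ℕ) (I J : Type) [Fintype I] [DecidableEq I] [Fintype J] [DecidableEq J] (a : J → ℤ)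
    (b : I → ℤ), Fintype.card J = Fintype.card I + 1 → 2 ≤ N → CD1 a b → GHB.{u} N a b

/-- [ama] `AM` for generic matrices, `1 ≤ c`, `c + 1 ≤ N`.

PROOF (uses S_spa, S_ann, S_e1a, S_gm, S_gs).  Let `α` be `≥` all `b i`; `(A₀, w)` generic for
`(oext a α, b)` over `K₀ = GenField`; `CD1 (oext a α) b` holds (the new column is never counted).
`Ex1 (A₀, w)` (codimension `c + 1 ≤ N`) and `Ex1 A₀`.  If `y e_i ∈ Im A₀` for all `i`, then
`y w ∈ Im A₀`, so `y ∈ mins A₀` by `S_ann`.  So `AM A₀`; `S_spa`. -/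
def S_ama : Prop :=
  ∀ (N : ℕ) (I J : Type) [Fintype I] [DecidableEq I] [Fintype J] [DecidableEq J] (a : J → ℤ)
    (b : I → ℤ), Fintype.card I ≤ Fintype.card J → Fintype.card J + 2 ≤ Fintype.card I + N →
    CD1 a b → GAM.{u} N a b

/-! ### Steps for `HP` and `TP` (for generic matrices) -/

/-- [hst] Splitting step for `HP`, generic matrices.

PROOF (uses S_hps, S_spp, S_nz, S_e1a, S_e1s, S_rx, S_gm, S_gs).  `((C, W), w)` generic for
`(oext (Sum.elim a1 a2) α, b)` over `K₀ = GenField k (N + 1) …`; `C₀ = (C, x_0 w)`, `W₀ = W`.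
`NZ0 (C, W)`: `S_nz`, `π(C, W)` is generic for `(Sum.elim a1 a2, b)` in `N` variables, S_e1a.
`HP b (C, w) W`: by the hypothesis (generic by S_gs).  `HP b C₀ W₀`: `S_hps`.
`Ex1 (C₀, W₀)`: `S_e1s` for `(C, W)` and `w` (`Ex1 ((C, W), w)` by S_e1a: `CD1` holds since the
new column `α > b i` is never counted; `Ex1 (π(C, W))`), then S_rx with
`Option J1 ⊕ J2 ≃ Option (J1 ⊕ J2)`.  So `S_spp` applies. -/
def S_hst : Prop :=
  ∀ (N : ℕ) (I J1 J2 : Type) [Fintype I] [DecidableEq I] [Fintype J1] [DecidableEq J1] [Fintype J2]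
    [DecidableEq J2] (a1 : J1 → ℤ) (a2 : J2 → ℤ) (b : I → ℤ) (α : ℤ),
    Fintype.card I ≤ Fintype.card J1 + Fintype.card J2 →
    Fintype.card J1 + Fintype.card J2 + 1 ≤ Fintype.card I + N →
    CD1 (Sum.elim a1 a2) b → (∀ i, b i < α) →
    GHP.{u} (N + 1) (oext a1 α) a2 b → GHP.{u} (N + 1) (oext a1 (α + 1)) a2 b

/-- [hun] Unit step for `HP`, generic matrices.

PROOF (uses S_hpu (first part), S_spp, S_e1a, S_e1u, S_rx, S_gm, S_gs).  `(C, W)` generic for
`(Sum.elim a1 a2, oext b β)`, rows `Option I`; `C₀ = addCol C (Pi.single none 1)`, `W₀ = W`.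
`Ex1 (C₀, W₀)`: `S_e1u` with `A' = ` the rows `some i` of `(C, W)` (generic for
`(Sum.elim a1 a2, b)`, S_e1a), then S_rx. -/
def S_hun : Prop :=
  ∀ (N : ℕ) (I J1 J2 : Type) [Fintype I] [DecidableEq I] [Fintype J1] [DecidableEq J1] [Fintype J2]
    [DecidableEq J2] (a1 : J1 → ℤ) (a2 : J2 → ℤ) (b : I → ℤ) (β : ℤ),
    Fintype.card I ≤ Fintype.card J1 + Fintype.card J2 →
    Fintype.card J1 + Fintype.card J2 + 1 ≤ Fintype.card I + N →
    CD1 (Sum.elim a1 a2) b → GHP.{u} N a1 a2 b → GHP.{u} N (oext a1 β) a2 (oext b β)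

/-- [hlu] The step `x_0 e_none` for `HP`, generic matrices.

PROOF (uses S_hpu (second part), S_spp, S_deg, S_hdg, S_ind, S_cnt, S_nz, S_annu, S_e1a, S_e1s,
S_e1u, S_cd, S_rx, S_gm, S_gs).  `(C, W)` generic for `(Sum.elim a1 a2, oext b β)` in `N + 1`
variables, rows `Option I`; `C₀ = addCol C (Pi.single none (X 0))`, `W₀ = W`.  Conditions of S_hpu:
`HP` for the rows `I`: hypothesis.  `NZ0 (C, W)`: S_nz, `π(C, W)` generic in `N` variables:
`card I + 1 ≤ card J1 + card J2`, `card J1 + card J2 + 1 ≤ card I + 1 + N`, and `CD1` follows from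
`CD3` (the columns `J2` are never counted).  Annihilator: `S_annu`; the rows `some i` of `(C, W)` are
generic for `(Sum.elim a1 a2, b)` in `N + 1` variables, S_e1a.  Minors: `S_deg` for the rows
`Option I` (`CD3 a1 (oext b β)` by S_cd), then `S_hdg` (with S_reld).  Independence: `S_cnt` and
`S_ind` (`N + 1 = (N - 1) + 2` variables).
`Ex1 (C₀, W₀)`: `S_e1u` gives `Ex1 ((C, W), e_none)`, then `S_e1s` with `w = e_none` and
`Ex1 (π(C, W))`, then S_rx.  So `S_spp` applies. -/
def S_hlu : Prop :=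
  ∀ (N : ℕ) (I J1 J2 : Type) [Fintype I] [DecidableEq I] [Fintype J1] [DecidableEq J1] [Fintype J2]
    [DecidableEq J2] (a1 : J1 → ℤ) (a2 : J2 → ℤ) (b : I → ℤ) (β : ℤ),
    1 ≤ N → Fintype.card J2 ≤ 1 → 1 ≤ Fintype.card I → Fintype.card I + 1 ≤ Fintype.card J1 →
    Fintype.card J1 + Fintype.card J2 ≤ Fintype.card I + N →
    (∀ i, b i ≤ β) → (∀ j, a1 j ≤ β + 1) → CD3 (oext a1 (β + 1)) (oext b β) →
    (∀ j, β ≤ a2 j) → (2 ≤ Fintype.card I ∨ ∀ j, ∃ i, oext b β i < a2 j) →
    GHP.{u} (N + 1) a1 a2 b → GHP.{u} (N + 1) (oext a1 (β + 1)) a2 (oext b β)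

/-- [tst] Splitting step for `TP`, generic matrices.

PROOF (uses S_tps, S_spt, S_nz, S_ann, S_e1a, S_e1s, S_r1a, S_gm, S_gs).  `(C, w)` generic for
`(oext a α, b)` in `N + 1` variables over `K₀ = GenField`, `A₀ = addCol C (x_0 w)`.  S_tps:
`TP (πC)`: hypothesis; `RR1 (πC)`: S_r1a; `NZ0 C`: S_nz, S_e1a for `πC`; `TP (C, w)`: hypothesis;
`HP (πC) (πw)`: hypothesis, `(πC, πw)` is generic for `(Sum.elim a (fun _ => α), b)` (S_gs);
annihilator: `S_ann` and `Ex1 (πC, πw)` by S_e1a (`(oext a α, b)` in `N` variables).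
`Ex1 A₀`: S_e1s (`Ex1 (C, w)` by S_e1a).  Then S_spt. -/
def S_tst : Prop :=
  ∀ (N : ℕ) (I J : Type) [Fintype I] [DecidableEq I] [Fintype J] [DecidableEq J] (a : J → ℤ)
    (b : I → ℤ) (α : ℤ), Fintype.card I ≤ Fintype.card J →
    Fintype.card J + 2 ≤ Fintype.card I + N → CD1 a b → CD1 (oext a α) b →
    GTP.{u} N a b → GTP.{u} (N + 1) (oext a α) b → GHP.{u} N a (fun _ : Unit => α) b →
    GTP.{u} (N + 1) (oext a (α + 1)) b

/-- [tun] Unit step for `TP`, generic matrices.

PROOF (uses S_tub, S_spt, S_e1a, S_e1u, S_gm, S_gs).  `C` generic for `(a, oext b β)`, rows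
`Option I`, `A₀ = addCol C (Pi.single none 1)`; its rows `some i` are generic for `(a, b)`; S_tub;
`Ex1 A₀` by S_e1u and S_e1a; S_spt. -/
def S_tun : Prop :=
  ∀ (N : ℕ) (I J : Type) [Fintype I] [DecidableEq I] [Fintype J] [DecidableEq J] (a : J → ℤ)
    (b : I → ℤ) (β : ℤ), Fintype.card I ≤ Fintype.card J →
    Fintype.card J + 1 ≤ Fintype.card I + N → CD1 a b → GTP.{u} N a b →
    GTP.{u} N (oext a β) (oext b β)

/-! ### Inductions -/

/-- [hpa] `HP` for generic matrices, the main case.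

PROOF (uses S_hst, S_hlu, S_hpo, S_cd, S_rh).  Fix `L ≤` all `b i`; induction on
`card J1 + ∑_j (a1 j - L).toNat`.  `card I ≤ 1`: `S_hpo`.
Otherwise choose `i₀` with the largest `b = β`, `j₀ ∈ J1` with the largest `a1 = α`; by S_rh
`I = Option I'`, `J1 = Option J1'`, `i₀ = j₀ = none`, `b = oext b' β`, `a1 = oext a1' α`; `β < α`
(S_cd); `N ≥ 2`, `N = N' + 1`.
Case `α - 1 > β`: `S_hst` (with `N'`, columns `J1'`, `α - 1`): `CD1 (Sum.elim a1' a2) b` because
`CD3 a1' b` and the columns of `J2` are never counted; `HP` for `(oext a1' (α - 1), a2, b)` by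
induction (`CD3` by S_cd).
Case `α - 1 = β`: `S_hlu` (with `N'`, rows `I'`, columns `J1'`): all `a1' j ≤ α = β + 1`;
`HP` for `(a1', a2, b')` by induction (the hypotheses hold: if `I'` is not empty and `j ∈ J2`, let
`b i < a2 j`; if `i` is not `none` fine, if `i = none` then all `b' i ≤ β < a2 j`; `CD3 a1' b'` by
S_cd); the alternative: the second one. -/
def S_hpa : Prop :=
  ∀ (N : ℕ) (I J1 J2 : Type) [Fintype I] [DecidableEq I] [Fintype J1] [DecidableEq J1] [Fintype J2]
    [DecidableEq J2] (a1 : J1 → ℤ) (a2 : J2 → ℤ) (b : I → ℤ),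
    Fintype.card J2 ≤ 1 → Fintype.card I + 1 ≤ Fintype.card J1 →
    Fintype.card J1 + Fintype.card J2 + 1 ≤ Fintype.card I + N → CD3 a1 b →
    (∀ j i, b i ≤ a2 j) → (∀ j, Nonempty I → ∃ i, b i < a2 j) → GHP.{u} N a1 a2 b

/-- [hp2] `HP` for two rows of the same degree `β`, `W` of degree `β`.

PROOF (uses S_hpd, S_spp, S_ann, S_e1a, S_e1u, S_rx, S_gm, S_gs).  `card J1 ≤ N`.  `W₀ = e_none`,
`C₀` generic with the rows `Option Unit`; `Ex1 (C₀, W₀)` by S_e1u (the row `some ()` is generic, in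
codimension `card J1 ≤ N`) and S_rx.  `S_hpd`; we need a `j₁` such that
`κ C none j₁ ∈ span (C (some ()) j)_j` implies `κ = 0` (`κ ∈ K`).
(0) If `card J1 + 1 ≤ N`: any `j₁`.  The `1 × (card J1 + 1)` matrix `((C (some ()) j)_j, C none j₁)`
is generic (its entries are different entries of a generic matrix, after renaming) with the
codimension `card J1 + 1 ≤ N`, so it satisfies `Ex1`, and by `S_ann`
`κ ∈ span (C (some ()) j)_j`, whose generators are homogeneous of degree `a1 j - β ≥ 1`, so `κ = 0`.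
(i) If not all `a1 j` are equal: let `a1 j₁ < a1 j'`.  Homogeneous components of degree
`a1 j₁ - β`: the generator `C (some ()) j'` of the larger degree `a1 j' - β` is not needed, so
`κ C none j₁ ∈ span (C (some ()) j)_(j ≠ j')`.  The `1 × card J1` matrix
`((C (some ()) j)_(j ≠ j'), C none j₁)` is generic with the codimension `card J1 ≤ N`, so by `Ex1`
and `S_ann` `κ ∈ span (C (some ()) j)_(j ≠ j')`, generated in degrees `≥ 1`, so `κ = 0`.
(ii) If all `a1 j - β = d ≥ 2`: `κ C none j₁ = ∑_j κ_j C (some ()) j` with `κ_j ∈ K`.  There are at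
least `card J1 + 1` monomials of degree `d` in `N ≥ card J1 ≥ 3` variables (`x_i^2 x_0^(d-2)` and
`x_0 x_1 x_0^(d-2)`, …); the square matrix of the coefficients of `card J1 + 1` of them in the
`card J1 + 1` forms has algebraically independent entries, so it is invertible; so `κ = 0`. -/
def S_hp2 : Prop :=
  ∀ (N : ℕ) (J1 : Type) [Fintype J1] [DecidableEq J1] (a1 : J1 → ℤ) (β : ℤ),
    3 ≤ Fintype.card J1 → (∀ j, β < a1 j) →
    (Fintype.card J1 + 1 ≤ N ∨ (Fintype.card J1 ≤ N ∧ ∃ j, β + 1 < a1 j)) →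
    GHP.{u} N a1 (fun _ : Unit => β) (fun _ : Option Unit => β)

/-- [hpb] `HP` when all `b` and the degree of `W` are equal, more variables than the codimension.

PROOF (uses S_hst, S_hlu, S_hp2, S_hpo, S_cd, S_rh).  Induction on
`card J1 + ∑_j (a1 j - β).toNat`, for all `I`.  `card I ≤ 1`: S_hpo.  `card I = 2`: S_hp2 (first
alternative, `card J1 ≥ 3`), after renaming `I ≃ Option Unit`.  `card I ≥ 3`: `I = Option I'`,
`J1 = Option J1'`, `j₀ = none` with the largest `a1 = α > β`.  If `α - 1 > β`: `S_hst`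
(`CD1 (Sum.elim a1' (fun _ => β)) b`: nothing is counted); if `α - 1 = β`: `S_hlu` with
`card I' ≥ 2`; `CD3` holds because all columns are `> β`. -/
def S_hpb : Prop :=
  ∀ (N : ℕ) (I J1 : Type) [Fintype I] [DecidableEq I] [Fintype J1] [DecidableEq J1]
    (a1 : J1 → ℤ) (β : ℤ), Fintype.card I + 1 ≤ Fintype.card J1 →
    Fintype.card J1 + 3 ≤ Fintype.card I + N → (∀ j, β < a1 j) →
    GHP.{u} N a1 (fun _ : Unit => β) (fun _ : I => β)

/-- [hp3] `HP` for three rows, linear entries, constant `W`: an explicit matrix.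

PROOF (uses S_spp, S_rh).  `c = card J1 - 1 ≥ 3`, `c ≤ N`; by S_rh `I = Fin 3`, `J1 = Fin (c + 1)`.
Special matrix over `k`: with variables `x_1, …, x_c` (`N ≥ c` variables; index shifted by one), rows
`1, 2, 3`, columns `1, …, c + 1`:  row 1: `(x_1, x_2, …, x_c, 0)`; row 2: `C 2 1 = x_3`,
`C 2 2 = x_1`, `C 2 3 = x_2`, `C 2 (c+1) = x_1`, the others `0`; row 3: `C 3 (c+1) = x_3`, the others
`0`.  `W = e_3`.
The kernel of `(C, W)` in the degree `β + 1` (the condition in S_spp): `y ∈ K^(c+1)`, `w` a linear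
form with `C y + w e_3 = 0`: row 1: `y_1 = … = y_c = 0`; row 2: `y_(c+1) x_1 = 0`; so `y = 0`,
`w = 0`.
`HP`: `X` is a constant `3 × 3` matrix, with the columns of `X C` in the image of `(C, e_3)`; the
coefficients are constants (for the columns of `C`) and linear forms (for `e_3`), by homogeneous
components.  Look at the rows 1, 2 only: for every column `j` there are constants `y_l` with
`(X C_j)_(1,2) = ∑_l y_l (C_l)_(1,2)`.
Column 2: `C_2 = (x_2, x_1, 0)`: `X_11 x_2 + X_12 x_1 = ∑_l y_l x_l` gives `y_2 = X_11`,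
`y_1 = X_12`, other `y_l = 0` (`l ≤ c`); row 2: `X_21 x_2 + X_22 x_1 = y_1 x_3 + y_2 x_1 + y_3 x_2 +
y_(c+1) x_1`: coefficient of `x_3`: `y_1 = X_12 = 0`; of `x_2`: `X_21 = y_3 = 0`.
Column 1: `C_1 = (x_1, x_3, 0)`: `y_1 = X_11`, `y_3 = X_12 = 0`; row 2: `X_21 x_1 + X_22 x_3 =
y_1 x_3 + y_(c+1) x_1 + …`: coefficient of `x_3`: `X_22 = X_11`.
Column `c + 1`: `C_(c+1) = (0, x_1, x_3)`: row 1: `X_12 x_1 + X_13 x_3 = ∑ y_l x_l`: `y_1 = X_12 =
0`, `y_3 = X_13`; row 2: `X_22 x_1 + X_23 x_3 = y_1 x_3 + y_3 x_2 + y_(c+1) x_1`: coefficient of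
`x_2`: `X_13 = y_3 = 0`, of `x_3`: `X_23 = y_1 = 0`.
So `X = X_11 • 1 + e_3 ⊗ (X_31, X_32, X_33 - X_11)`. -/
def S_hp3 : Prop :=
  ∀ (N : ℕ) (I J1 : Type) [Fintype I] [DecidableEq I] [Fintype J1] [DecidableEq J1] (β : ℤ),
    Fintype.card I = 3 → 4 ≤ Fintype.card J1 → Fintype.card J1 ≤ N + 1 →
    GHP.{u} N (fun _ : J1 => β + 1) (fun _ : Unit => β) (fun _ : I => β)

/-- [hpc] `HP` for at least three rows, linear entries, constant `W`.

PROOF (uses S_hp3, S_hlu, S_rh).  Induction on `card I`; `card I = 3` is `S_hp3`.  For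
`card I ≥ 4`: `I = Option I'`, `J1 = Option J1'`, `N = N' + 1`, `S_hlu` with `card I' ≥ 3` and
`HP` for the rows `I'` and the columns `J1'` by induction; `CD3` holds because all columns are
`> β`. -/
def S_hpc : Prop :=
  ∀ (N : ℕ) (I J1 : Type) [Fintype I] [DecidableEq I] [Fintype J1] [DecidableEq J1] (β : ℤ),
    3 ≤ Fintype.card I → Fintype.card I + 1 ≤ Fintype.card J1 →
    Fintype.card J1 + 2 ≤ Fintype.card I + N →
    GHP.{u} N (fun _ : J1 => β + 1) (fun _ : Unit => β) (fun _ : I => β)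

/-- [tp2] `TP` for generic matrices, `c = 2`, `N ≥ 3`.

PROOF (uses S_tpb, S_hba, S_ama).  `S_tpb` with `S_hba`, `S_ama`. -/
def S_tp2 : Prop :=
  ∀ (N : ℕ) (I J : Type) [Fintype I] [DecidableEq I] [Fintype J] [DecidableEq J] (a : J → ℤ)
    (b : I → ℤ), Fintype.card J = Fintype.card I + 1 → 3 ≤ N → CD1 a b → GTP.{u} N a b

/-- [g3] The special lemma for three rows: generic linear `C` with the rows `Option I`,
`card I = 2`, `card J = N + 1` columns (`N + 1 ≥ 4` variables).

PROOF (uses S_exg or directly S_ex / linear algebra, S_unv, S_reld).  Write `x_0, …, x_N` for the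
variables, rows `1, 2` (`I`) and `n` (`none`); `C' = ` rows `1, 2`.
(a) Reduction.  `Tp C' E` and `AM C'` (hypothesis) give `dd C' E e ∈ mins C'` for all
`e = (j₁, j₂)`; `E` has linear entries, so `dd C' E e` is a quadratic form, a `K`-linear combination
`∑_{f} κ_(e,f) det C'_f` (`mins C'` is generated by quadratic forms; `f` runs over pairs
`f₁ < f₂` for a linear order of `J`).
(b) The system `dd C' (x_0 Γ - β' ⊗ C_n) e = ∑_f κ_(e,f) det C'_f` in the unknown constants
`Γ, β', κ` is linear, with coefficients that are polynomials in the coefficients of `C`.  If its only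
solution is `0` for one special `C` over an extension `K₀` of `k`, then also for the generic `C`
(S_exg with `Q₃ = Q₄ = Q₀ = Empty`, or a nonvanishing maximal minor).
(c) Special `C` over `K₀ = k(θ)` (or any infinite extension): let `y_j`, `j = 0, …, N` (columns
`J = Fin (N + 1)`) be the linear forms `y_j = x_j` for `j ≥ 1` and `y_0 = x_0 - x_1 - … - x_N`, and
`p_j` the points with `y_i (p_j) = δ_ij`; so `x_0 (p_j) = 1` for all `j`.
Let `w_j = (1, θ_j)` with different `θ_j ∈ K₀`; the column `j` of `C'` is `y_j w_j`; the row `n` of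
`C` is `f_j = y_(σ j)` with a map `σ` without fixed points that takes at least two values (for
instance `σ 0 = 1`, `σ j = 0` for `j ≥ 1`).  `det C'_(i,j) = y_i y_j [w_i, w_j]`, so the `det C'_f`
(`f₁ < f₂`) are linearly independent and vanish at all points `p_j`.  Let `(Γ, β', κ)` be a solution,
`c_i` the column `i` of `Γ` and `E_i = x_0 c_i - f_i β'`.  Evaluate the equation for
`e = (i, j)`, `i ≠ j`, at `p_j`: `C'_i (p_j) = 0`, `C'_j (p_j) = w_j`:
`[E_i (p_j), w_j] = 0`, i.e. `[c_i, w_j] = f_i (p_j) [β', w_j] = [σ i = j] [β', w_j]`.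
For each `i` there are two different `j ≠ i, σ i` (at least four columns), so `c_i` is orthogonal to
two independent vectors and `c_i = 0`; then `[β', w_(σ i)] = 0` for all `i`, for two different
values of `σ`, so `β' = 0`.  So `E = 0` and `∑_f κ_(e,f) det C'_f = 0`, `κ = 0`. -/
def S_g3 : Prop :=
  ∀ (k K : Type u) [Field k] [Field K] [Algebra k K] (N : ℕ) (I J : Type) [Fintype I]
    [DecidableEq I] [Fintype J] [DecidableEq J] (β : ℤ)
    (C : Matrix (Option I) J (MvPolynomial (Fin (N + 1)) K)),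
    Fintype.card I = 2 → Fintype.card J = N + 1 → 3 ≤ N →
    Gen k (fun _ : J => β + 1) (fun _ : Option I => β) C → AM (C.submatrix some id) →
    ∀ (Γ : Matrix I J K) (β' : I → K),
      Tp (C.submatrix some id) (Matrix.of fun i j =>
        X 0 * MvPolynomial.C (Γ i j) - MvPolynomial.C (β' i) * C none j) → Γ = 0 ∧ β' = 0

/-- [t3g] The step `x_0 e_none` for `TP`, three rows, linear entries.

PROOF (uses S_t3s, S_g3, S_spt, S_nz, S_e1a, S_e1s, S_e1u, S_r1a, S_ama, S_gm, S_gs).  `C` generic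
for `(fun _ : J => β + 1, fun _ : Option I => β)` in `N + 1` variables over `K₀ = GenField`,
`A₀ = addCol C (Pi.single none (X 0))`.  `S_t3s`: `TP (πC)`: hypothesis; `RR1 (πC)`: S_r1a;
`NZ0 C`: S_nz, S_e1a; the last hypothesis by `S_g3` with `AM C'` (`C'` = the rows `some i`, generic
with two rows and `N + 1` columns, codimension `N`, `N + 1` variables, S_ama).  `Ex1 A₀`: S_e1u
(with `Ex1 C'`), S_e1s with `w = e_none`.  Then S_spt. -/
def S_t3g : Prop :=
  ∀ (N : ℕ) (I J : Type) [Fintype I] [DecidableEq I] [Fintype J] [DecidableEq J] (β : ℤ),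
    Fintype.card I = 2 → Fintype.card J = N + 1 → 3 ≤ N →
    GTP.{u} N (fun _ : J => β + 1) (fun _ : Option I => β) →
    GTP.{u} (N + 1) (fun _ : Option J => β + 1) (fun _ : Option I => β)

/-- [tp3] `TP` for three rows, linear entries, `N = c + 1`.

PROOF (uses S_t3g, S_tp2, S_rt).  Induction on `card J`.  `card J = 4` (`c = 2`, `N = 3`): `S_tp2`
(`CD1` holds because all columns are `> β`).  `card J ≥ 5`: `J ≃ Option J'`, `I ≃ Option I'` with
`card I' = 2`, `N = N' + 1`, `card J' = N' + 1`, `N' ≥ 3`: `S_t3g`, and induction for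
`(N', Option I', J')`. -/
def S_tp3 : Prop :=
  ∀ (N : ℕ) (I J : Type) [Fintype I] [DecidableEq I] [Fintype J] [DecidableEq J] (β : ℤ),
    Fintype.card I = 3 → 4 ≤ Fintype.card J → Fintype.card J + 2 = Fintype.card I + N →
    GTP.{u} N (fun _ : J => β + 1) (fun _ : I => β)

/-- [tpa] `TP` for generic matrices when `n > c`, i.e. `N ≥ c + 2`.

PROOF (uses S_tst, S_tun, S_tpo, S_tp2, S_hpa, S_hpb, S_cd, S_rt, S_rh).  Fix `L ≤` all `b i`;
induction on `card J + ∑ (a j - L).toNat`.
`card I ≤ 1`: `S_tpo`.  `c = 2`: `S_tp2` (`CD2 → CD1`).  Let `c ≥ 3`, `card I ≥ 2`.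
(U) If some `a j₀ = b i₀`: rename (S_rt) to `I = Option I'`, `J = Option J'`; `S_tun` with `TP` for
`(a', b')` by induction (`CD2 a' b'` by `S_cd`; `c` and `N` are unchanged; the measure decreases
since `card J` does).
(S) Otherwise `CD3 a b` (S_cd).  Choose `i₀` (largest `b = β`) and `j₀` (largest `a = α`),
`I = Option I'`, `J = Option J'`, `β < α`, `N = N' + 1`.  `S_tst` (with `N'`, rows `I`, columns
`J'`, `α - 1`): `TP` for `(N', a', b)`: induction (`c - 1 ≥ 2`, `N' ≥ (c - 1) + 2`, `CD3` so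
`CD2`); `TP` for `(N, oext a' (α - 1), b)`: if `β < α - 1` by induction (`CD3`, S_cd); if
`α - 1 = β` by `S_tun` with `TP` for `(N, a', b')` by induction;
`HP` for `(N', a', α - 1, b)`, `N' ≥ c + 1`: if there is an `i` with `b i < α - 1`: `S_hpa`
(`card J' ≥ card I + 1` as `c ≥ 3`); otherwise all `b i = β = α - 1`, all `a j = β + 1` (`CD3`,
`a j ≤ α`): `S_hpb`.  `CD1 (oext a' (α - 1)) b` holds since `α - 1 ≥ β`. -/
def S_tpa : Prop :=
  ∀ (N : ℕ) (I J : Type) [Fintype I] [DecidableEq I] [Fintype J] [DecidableEq J] (a : J → ℤ)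
    (b : I → ℤ), Fintype.card I + 1 ≤ Fintype.card J → Fintype.card J + 3 ≤ Fintype.card I + N →
    CD2 a b → GTP.{u} N a b

/-- [tpz] `TP` for generic matrices when `n = c`, i.e. `N = c + 1`.

PROOF (uses S_tst, S_tun, S_tpo, S_tp2, S_tp3, S_hpa, S_hp2, S_hpc, S_cd, S_rt, S_rh).  Induction as
in `S_tpa`.  `card I ≤ 1`: `S_tpo`.  `c = 2`: `S_tp2`.  Let `c ≥ 3`, `card I ≥ 2`; `CD3 a b`.
(3) `card I = 3` and all `b = β`, all `a = β + 1`: `S_tp3`.
(2) `card I = 2`, both `b = β`, and some `a j₀ = β + 1` (not all, by the hypothesis): rename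
`j₀ = none`; `N = N' + 1`; `S_tst` with `α = β` (`w` of degree `β`): `TP` for `(N', a', b)`:
`(a', b)` is again not exceptional (not all `a' j = β + 1`; if its codimension is `2`, S_tp2);
`TP` for `(N, oext a' β, b)`, `I = Option I'`, `card I' = 1`: `S_tun` and `S_tpo`;
`HP`: `S_hp2` with `card J' = c` columns and `N' = c` variables (second alternative).
(1) Otherwise choose `i₀` (largest `b = β`), `j₀` (largest `a = α`), and `S_tst` as in (S) of
`S_tpa`.  `TP` for `(N', a', b)`: it is not exceptional: if `card I = 2`, both `b = β` then (since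
we are not in case (2)) all `a j ≥ β + 2`.  `TP` for `(N, oext a' (α - 1), b)`: if `β < α - 1`: by
induction, not exceptional: if `card I = 2`, both `b = β`, then all `a' j ≥ β + 2` and `J'` is not
empty.  If `β = α - 1`: `S_tun` with `TP` for `(N, a', b')`, rows `I'`: not exceptional: if
`card I' = 2`, both `b' = β₀`, all `a' j = β₀ + 1`: `CD3 a b` at `i₀`: at most `card I' - 1 = 1`
columns are `≤ β`, and `J'` has at least `4` elements, so `β₀ + 1 > β ≥ β₀`, so `β₀ = β`,
`α = β + 1`, which is case (3).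
`HP` for `(N', a', α - 1, b)`, `N' = c`: if some `b i < α - 1`: `S_hpa`; otherwise all
`b = β = α - 1`, all `a = β + 1`; then `card I ≥ 4` (`card I = 2` is excluded by the hypothesis,
`card I = 3` is (3)): `S_hpc`. -/
def S_tpz : Prop :=
  ∀ (N : ℕ) (I J : Type) [Fintype I] [DecidableEq I] [Fintype J] [DecidableEq J] (a : J → ℤ)
    (b : I → ℤ), Fintype.card I + 1 ≤ Fintype.card J → Fintype.card J + 2 = Fintype.card I + N →
    CD3 a b →
    ¬ (Fintype.card I = 2 ∧ 4 ≤ Fintype.card J ∧ ∃ β, (∀ i, b i = β) ∧ ∀ j, a j = β + 1) →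
    GTP.{u} N a b

/-- [ena] Endomorphisms of degree `0` are scalars (`HP` with `J2 = Empty`), `2 ≤ c ≤ N`.

PROOF (uses S_hpa, S_hpo, S_hun, S_cd, S_rh).  Induction on `card I`.  If `CD3 a b`: `S_hpa`.
Otherwise some `a j₀ = b i₀` (S_cd); rename to `Option I'`, `Option J'`; `S_hun` with `J2 = Empty` and
`HP` for `(a', b')` by induction (`CD2 a' b'` by S_cd, so `CD1 a' b'`; `Sum.elim a' _ ∘ …`: the
counts over `J' ⊕ Empty` and over `J'` are equal). -/
def S_ena : Prop :=
  ∀ (N : ℕ) (I J : Type) [Fintype I] [DecidableEq I] [Fintype J] [DecidableEq J] (a : J → ℤ)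
    (b : I → ℤ), Fintype.card I + 1 ≤ Fintype.card J → Fintype.card J + 1 ≤ Fintype.card I + N →
    CD2 a b → GHP.{u} N a (fun e : Empty => e.elim) b

end Pool.Agent.Lib.MP_09338f_ag
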