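import Mathlib
import Pool.Agent.Lib.MP_09338f_ag.KM.Stm3

/-!
# Project KM, Part D: Hilbert functions and dimensions.  Only small facts are proved in this file.
-/

set_option autoImplicit false

open MvPolynomial Matrix

universe u

namespace Pool.Agent.Lib.MP_09338f_ag

/-- The number of monomials of degree `u` in `N` variables. -/
def mon (N : ℕ) (u : ℤ) : ℕ := if u < 0 then 0 else Nat.multichoose N u.toNat

/-- The space of polynomials that are homogeneous of degree `d`. -/
noncomputable def homS (N : ℕ) (K : Type u) [Field K] (d : ℤ) : Submodule K (MvPolynomial (Fin N) K) where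
  carrier := {p | HomD d p}
  zero_mem' := by intro m hm; simp at hm
  add_mem' := by
    intro p q hp hq m hm
    by_cases h1 : m ∈ p.support
    · exact hp m h1
    · by_cases h2 : m ∈ q.support
      · exact hq m h2
      · exfalso
        rw [mem_support_iff] at hm
        rw [notMem_support_iff] at h1 h2
        exact hm (by rw [coeff_add, h1, h2, add_zero])
  smul_mem' := by
    intro c p hp m hm
    refine hp m ?_
    rw [mem_support_iff] at hm ⊢
    intro h
    exact hm (by rw [coeff_smul, h, smul_zero])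

section spaces

variable {I J : Type} [Fintype I] [DecidableEq I] [Fintype J] [DecidableEq J] {N : ℕ} {K : Type u}
  [Field K]

/-- Tuples of homogeneous polynomials, `x q` of degree `d - D q`. -/
noncomputable def tupS {Q : Type} (N : ℕ) (K : Type u) [Field K] (D : Q → ℤ) (d : ℤ) :
    Submodule K (Q → MvPolynomial (Fin N) K) :=
  Submodule.pi Set.univ fun q => homS N K (d - D q)

/-- The kernel of `A` in degree `d`. -/
noncomputable def kerD (a : J → ℤ) (A : Matrix I J (MvPolynomial (Fin N) K)) (d : ℤ) :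
    Submodule K (J → MvPolynomial (Fin N) K) :=
  tupS N K a d ⊓ LinearMap.ker (A.mulVecLin.restrictScalars K)

/-- The image of `A` in degree `d`. -/
noncomputable def imgD (a : J → ℤ) (A : Matrix I J (MvPolynomial (Fin N) K)) (d : ℤ) :
    Submodule K (I → MvPolynomial (Fin N) K) :=
  (tupS N K a d).map (A.mulVecLin.restrictScalars K)

/-- Homogeneous matrices (degree `α j - β i`). -/
noncomputable def matS {P Q : Type} (N : ℕ) (K : Type u) [Field K] (α : Q → ℤ) (β : P → ℤ) :
    Submodule K (Matrix P Q (MvPolynomial (Fin N) K)) :=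
  Submodule.pi Set.univ fun i => Submodule.pi Set.univ fun j => homS N K (α j - β i)

/-- The linear map `(X, Y) ↦ X A - A' Y`. -/
noncomputable def comm (A A' : Matrix I J (MvPolynomial (Fin N) K)) :
    (Matrix I I (MvPolynomial (Fin N) K) × Matrix J J (MvPolynomial (Fin N) K)) →ₗ[K]
      Matrix I J (MvPolynomial (Fin N) K) where
  toFun p := p.1 * A - A' * p.2
  map_add' p q := by
    simp only [Prod.fst_add, Prod.snd_add, Matrix.add_mul, Matrix.mul_add]; abel
  map_smul' c p := by
    simp only [Prod.smul_fst, Prod.smul_snd, Matrix.smul_mul, Matrix.mul_smul, smul_sub,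
      RingHom.id_apply]

/-- The homogeneous pairs `(X, Y)` of degree `0` with `X A = A' Y`. -/
noncomputable def stabS (a : J → ℤ) (b : I → ℤ) (A A' : Matrix I J (MvPolynomial (Fin N) K)) :
    Submodule K (Matrix I I (MvPolynomial (Fin N) K) × Matrix J J (MvPolynomial (Fin N) K)) :=
  ((matS N K b b).prod (matS N K a a)) ⊓ LinearMap.ker (comm A A')

/-- The tangent space of the orbit: the matrices `X A - A Y`, `X, Y` homogeneous of degree `0`. -/
noncomputable def orbS (a : J → ℤ) (b : I → ℤ) (A : Matrix I J (MvPolynomial (Fin N) K)) :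
    Submodule K (Matrix I J (MvPolynomial (Fin N) K)) :=
  ((matS N K b b).prod (matS N K a a)).map (comm A A)

/-- The alternating sum of the Buchsbaum–Rim complex for the kernel of `A` in degree `d`: over
`s ≥ 0`, sets `S` of `card I + 1 + s` columns, multisets `T` of `s` rows. -/
def Hnum (N : ℕ) (a : J → ℤ) (b : I → ℤ) (d : ℤ) : ℤ :=
  ∑ s ∈ Finset.range (Fintype.card J),
    ∑ S ∈ (Finset.univ : Finset J).powersetCard (Fintype.card I + 1 + s),
      ∑ T ∈ (Finset.univ : Finset I).sym s,
        (-1) ^ s * (mon N (d - ∑ j ∈ S, a j + ((T : Multiset I).map b).sum + ∑ i, b i) : ℤ)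

end spaces

/-- [mon] Dimensions of the spaces of homogeneous tuples.

PROOF.  `homS N K d` has the basis of the monomials of degree `d` (if `d ≥ 0`; otherwise it is
`0`); the number of `m : Fin N →₀ ℕ` with degree `d` is `Nat.multichoose N d` (multisets,
`Finset.card_finsuppAntidiag` or `Sym`); products.  `matS` similarly.  The type `Coef N a b` is
finite with `∑_(i,j) mon N (a j - b i)` elements.  Recursion: `Nat.multichoose_succ_succ`. -/
def S_mon : Prop :=
  (∀ (N : ℕ) (K : Type u) [Field K] (d : ℤ), Module.Finite K (homS N K d) ∧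
    Module.finrank K (homS N K d) = mon N d) ∧
  (∀ (N : ℕ) (K : Type u) [Field K] (Q : Type) [Fintype Q] (D : Q → ℤ) (d : ℤ),
    Module.Finite K (tupS N K D d) ∧ Module.finrank K (tupS N K D d) = ∑ q, mon N (d - D q)) ∧
  (∀ (N : ℕ) (K : Type u) [Field K] (P Q : Type) [Fintype P] [Fintype Q] (α : Q → ℤ) (β : P → ℤ),
    Module.Finite K (matS N K α β) ∧
      Module.finrank K (matS N K α β) = ∑ i, ∑ j, mon N (α j - β i)) ∧
  (∀ (N : ℕ) (I J : Type) [Fintype I] [Fintype J] (a : J → ℤ) (b : I → ℤ),
    Finite (Coef N a b) ∧ Nat.card (Coef N a b) = ∑ i, ∑ j, mon N (a j - b i)) ∧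
  (∀ (N : ℕ) (u : ℤ), mon (N + 1) u = mon (N + 1) (u - 1) + mon N u) ∧
  ∀ (n : ℕ) (u : ℤ), 1 ≤ n → (mon (n + 1) u : ℤ) = bin (u + n) n

/-- [rkn] Rank–nullity: `dim (image) + dim (kernel)` in degree `d`.

PROOF.  `LinearMap.finrank_range_add_finrank_ker` for `A` restricted to `tupS N K a d`, whose
dimension is `∑_j mon N (d - a j)` (S_mon).  The same for `comm A A` on the homogeneous pairs. -/
def S_rkn : Prop :=
  ∀ (N : ℕ) (K : Type u) [Field K] (I J : Type) [Fintype I] [DecidableEq I] [Fintype J]
    [DecidableEq J] (a : J → ℤ) (b : I → ℤ) (A : Matrix I J (MvPolynomial (Fin N) K)),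
    (∀ d : ℤ, Module.finrank K (imgD a A d) + Module.finrank K (kerD a A d) =
      ∑ j, mon N (d - a j)) ∧
    Module.finrank K (orbS a b A) + Module.finrank K (stabS a b A A) =
      (∑ i, ∑ i', mon N (b i' - b i)) + ∑ j, ∑ j', mon N (a j' - a j)

/-- [stb] The dimension of the stabilizer.

PROOF.  `S = stabS a b A A = {(X, Y) | X A = A Y}`.  The projection to `X`: its kernel are the
`(0, Y)` with `A Y = 0`, i.e. every column `Y_j` is in `kerD a A (a j)`: dimension
`∑_j finrank kerD a A (a j)`.  Its image: the homogeneous `X` with `X A = A Y` for some homogeneous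
`Y`; by `HP` (with `J2 = Empty`, `V` = `Y`) and `S_hc`: `X = s 1 + A Z` with `s ∈ K`, `Z` homogeneous,
and conversely all these `X` occur (`(s 1 + A Z) A = A (s 1 + Z A)`).  The map
`(s, (A Z_i)_i) ↦ s 1 + A Z` from `K × ∏_i imgD a A (b i)` onto the image is injective: if
`s 1 + A Z = 0`, `s ≠ 0`, then all unit vectors are in `Im A`, which is excluded.  So the image has
the dimension `1 + ∑_i finrank imgD a A (b i)`. -/
def S_stb : Prop :=
  ∀ (N : ℕ) (K : Type u) [Field K] (I J : Type) [Fintype I] [DecidableEq I] [Fintype J]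
    [DecidableEq J] (a : J → ℤ) (b : I → ℤ) (A : Matrix I J (MvPolynomial (Fin N) K)),
    HomM a b A → HP b A (fun _ e => e.elim : Matrix I Empty (MvPolynomial (Fin N) K)) →
    (∃ i, (Pi.single i 1 : I → MvPolynomial (Fin N) K) ∉ Im A) →
    Module.finrank K (stabS a b A A) =
      1 + ∑ i, Module.finrank K (imgD a A (b i)) + ∑ j, Module.finrank K (kerD a A (a j))

/-- [hfp] The kernel dimensions of the generic and of a special matrix.

PROOF (uses S_sc, S_unv, S_rel, S_reld, S_hc, S_rkn).  Universal matrix `U` over `O`, `f, g` as in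
`S_spe`.  (≤) `kerD a A d` has the dimension `∑_j mon N (d - a j) - rank`, where the rank is the
dimension of the span of the vectors `A (x^m e_j)` (`m` of degree `d - a j`), the specialisations of
`U (x^m e_j)`; by `S_sc` the rank for `A` is `≥` the rank for `A₀`.  (≥) By `Ex1 A₀` and
homogeneous components `kerD a A₀ d` is spanned by the `x^m rel A₀ y`, `m` of degree
`d - (∑_s a (y s) - ∑ b)`; by `S_sc` the span of the `x^m rel A y`, which lie in `kerD a A d`, has at
least this dimension. -/
def S_hfp : Prop :=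
  ∀ (k K₀ K : Type u) [Field k] [Field K₀] [Field K] [Algebra k K₀] [Algebra k K] (I J : Type)
    [Fintype I] [DecidableEq I] [Fintype J] [DecidableEq J] (N : ℕ) (a : J → ℤ) (b : I → ℤ)
    (A₀ : Matrix I J (MvPolynomial (Fin N) K₀)) (A : Matrix I J (MvPolynomial (Fin N) K)),
    HomM a b A₀ → Ex1 A₀ → Gen k a b A → ∀ d : ℤ,
      Module.finrank K (kerD a A d) = Module.finrank K₀ (kerD a A₀ d)

/-- [hfs] Splitting step for the kernel dimensions.

PROOF.  `A = (C, x_0 w)`, `A_2 = (C, w)`.  The map `kerD A d → kerD (πC) d`, `(u, v) ↦ πu`, is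
surjective: for `ū` in `kerD a (πC) d`, `ū = ∑ c_z rel (πC) z` with `c_z` homogeneous (`Ex1 (πC)`,
homogeneous components), and `∑ ι(c_z) (rel C z, 0)` is in the kernel of `A`, homogeneous, with the
image `ū`.  Its kernel: `u = x_0 u'`, `(u', v)` in the kernel of `A_2`: it is the image of
`kerD A_2 (d - 1)` (`u' j` of degree `d - 1 - a j`, `v` of degree `d - (α + 1) = (d - 1) - α`) under
the injective map `(u', v) ↦ (x_0 u', v)`. -/
def S_hfs : Prop :=
  ∀ (K : Type u) [Field K] (N : ℕ) (I J : Type) [Fintype I] [DecidableEq I] [Fintype J]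
    [DecidableEq J] (a : J → ℤ) (b : I → ℤ) (α : ℤ)
    (C : Matrix I J (MvPolynomial (Fin (N + 1)) K)) (w : I → MvPolynomial (Fin (N + 1)) K),
    HomM a b C → (∀ i, HomD (α - b i) (w i)) →
    Ex1 (C.map red : Matrix I J (MvPolynomial (Fin N) K)) → ∀ d : ℤ,
    Module.finrank K (kerD (oext a (α + 1))
        (addCol C ((X 0 : MvPolynomial (Fin (N + 1)) K) • w)) d) =
      Module.finrank K (kerD (oext a α) (addCol C w) (d - 1)) +
      Module.finrank K (kerD a (C.map red : Matrix I J (MvPolynomial (Fin N) K)) d)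

/-- [hfu] Unit step for the kernel dimensions.

PROOF.  `(u, v) ↦ u` is an isomorphism from the kernel of `(A', 0; r, 1)` to the kernel of `A'`, with
the inverse `u ↦ (u, - r u)`; degrees: `r u` is homogeneous of degree `d - β`. -/
def S_hfu : Prop :=
  ∀ (K : Type u) [Field K] (N : ℕ) (I J : Type) [Fintype I] [DecidableEq I] [Fintype J]
    [DecidableEq J] (a : J → ℤ) (b : I → ℤ) (β : ℤ)
    (C : Matrix (Option I) J (MvPolynomial (Fin N) K)), HomM a (oext b β) C → ∀ d : ℤ,
    Module.finrank K (kerD (oext a β) (addCol C (Pi.single none 1)) d) =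
      Module.finrank K (kerD a (C.submatrix some id) d)

/-- [hns] The splitting identity for the Buchsbaum–Rim sum.

PROOF.  In `Hnum (N+1) (oext a (α+1)) b d` separate the sets `S` that contain `none` and those that do
not.  Containing `none`: the terms with the argument `d - (α + 1) - …`, equal to the corresponding
terms of `Hnum (N+1) (oext a α) b (d-1)`.  Not containing `none` (`S ⊆ J`): `mon (N+1) u =
mon (N+1) (u-1) + mon N u` (S_mon).  The summation ranges `s < card J` and `s < card J + 1` give the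
same sums because for `s = card J` there is no `S` with `card I + 1 + s` elements in `J`. -/
def S_hns : Prop :=
  ∀ (N : ℕ) (I J : Type) [Fintype I] [DecidableEq I] [Fintype J] [DecidableEq J] (a : J → ℤ)
    (b : I → ℤ) (α d : ℤ),
    Hnum (N + 1) (oext a (α + 1)) b d = Hnum (N + 1) (oext a α) b (d - 1) + Hnum N a b d

/-- [hnu] The unit identity for the Buchsbaum–Rim sum.

PROOF.  Let `f(m, s; δ) = ∑_(S ⊆ J, card S = m) ∑_(T ∈ Sym I s) mon N (δ - a(S) + b(T) + ∑ b)`,
`t = card I`; `f(m, s; δ) = 0` for `m > card J`.  A subset of `Option J` is `S` or `S ∪ {none}`; a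
multiset of size `s` on `Option I` is `r` times `none` and `T ∈ Sym I (s - r)`, `0 ≤ r ≤ s`; the sum
of all row degrees is `∑ b + β`.  So the left side is
`∑_s (-1)^s (∑_(r ≤ s) f(t+2+s, s-r; d + (r+1)β) + ∑_(r ≤ s) f(t+1+s, s-r; d + rβ))`.
The terms `r = 0` of the second sum give the right side.  The remaining terms of the second sum,
`r = r'+1`, `s = s'+1`: `(-1)^(s'+1) f(t+2+s', s'-r'; d + (r'+1)β)`, `r' ≤ s'`, cancel the first
sum.  (The ranges of `s` can be taken large, all further terms are `0`.) -/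
def S_hnu : Prop :=
  ∀ (N : ℕ) (I J : Type) [Fintype I] [DecidableEq I] [Fintype J] [DecidableEq J] (a : J → ℤ)
    (b : I → ℤ) (β d : ℤ), Hnum N (oext a β) (oext b β) d = Hnum N a b d

/-- [hnr] `Hnum` and the kernel dimension are invariant under renaming; `Hnum` in trivial cases.

PROOF.  Bijections of the sets `S` and multisets `T`.  If `card J ≤ card I` there is no `S`.  If `I`
is empty: only `s = 0` contributes (there is no multiset of size `s ≥ 1` on `∅`), `S = {j}`. -/
def S_hnr : Prop :=
  ∀ (N : ℕ) (I J I' J' : Type) [Fintype I] [DecidableEq I] [Fintype J] [DecidableEq J]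
    [Fintype I'] [DecidableEq I'] [Fintype J'] [DecidableEq J'] (a : J → ℤ) (b : I → ℤ)
    (u : I' ≃ I) (v : J' ≃ J) (d : ℤ),
    Hnum N (a ∘ v) (b ∘ u) d = Hnum N a b d ∧
    (∀ (K : Type u) [Field K] (A : Matrix I J (MvPolynomial (Fin N) K)),
      Module.finrank K (kerD (a ∘ v) (A.submatrix u v) d) = Module.finrank K (kerD a A d)) ∧
    (Fintype.card J ≤ Fintype.card I → Hnum N a b d = 0) ∧
    (IsEmpty I → Hnum N a b d = ∑ j, (mon N (d - a j) : ℤ))

/-- [hfa] The Hilbert function of the kernel of the generic matrix, `1 ≤ c ≤ N`.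

PROOF (uses S_isc, S_hfp, S_hfs, S_hfu, S_hns, S_hnu, S_hnr, S_e1a, S_e1s, S_e1u, S_gm, S_gs, S_mon,
S_rel).  `S_isc` with `δ = 0` and `P N I J a b :=` the statement for all `k, K, A, d`; the special
matrices `A₀` are those of the proof of `S_e1a` (`Ex1 A₀` as there), and S_hfp.  Renaming: S_hnr,
S_gs.  `I` empty: everything is in the kernel (`kerD = tupS`, S_mon), S_hnr.  Square case: the
kernel of the generic matrix itself is `0` (`Ex1` by S_e1a, all `rel` are `0`), `Hnum = 0` by S_hnr.
Unit case: S_hfu, S_hnu.  Splitting case: S_hfs (with `d`), the hypotheses for `(C, w)` (in degree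
`d - 1`) and `πC` (in degree `d`), S_hns. -/
def S_hfa : Prop :=
  ∀ (k K : Type u) [Field k] [Field K] [Algebra k K] (N : ℕ) (I J : Type) [Fintype I]
    [DecidableEq I] [Fintype J] [DecidableEq J] (a : J → ℤ) (b : I → ℤ)
    (A : Matrix I J (MvPolynomial (Fin N) K)), Fintype.card I ≤ Fintype.card J →
    Fintype.card J + 1 ≤ Fintype.card I + N → CD1 a b → Gen k a b A → ∀ d : ℤ,
      (Module.finrank K (kerD a A d) : ℤ) = Hnum N a b d

/-- [kz] Vanishing: no kernel in low degrees, no use of the last column in low degrees.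

PROOF.  (1) Let `x ∈ kerD a A d`.  `Ex1 A` and homogeneous components: `x = ∑ c_y rel A y` with `c_y`
homogeneous of degree `d - (∑_s a (y s) - ∑ b)`, negative for injective `y`, so `c_y = 0`; for `y`
not injective `rel A y = 0` (S_rel).  (2) `(u, v) ∈ kerD (oext a α) (addCol A w) d`: `v w ∈ Im A`, so
`v ∈ mins A` (S_ann), `v` is homogeneous of degree `d - α ≤ 0`, and `mins A` is generated by
homogeneous elements of degree `≥ 1` (or `0`), so `v = 0` (see the proof of S_hdg).  So
`(u, v) ↦ u` is an isomorphism onto `kerD a A d`. -/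
def S_kz : Prop :=
  ∀ (K : Type u) [Field K] (N : ℕ) (I J : Type) [Fintype I] [DecidableEq I] [Fintype J]
    [DecidableEq J] (a : J → ℤ) (b : I → ℤ) (A : Matrix I J (MvPolynomial (Fin N) K)),
    HomM a b A →
    (∀ d : ℤ, Ex1 A → (∀ y : Option I → J, Function.Injective y →
      d < ∑ s, a (y s) - ∑ i, b i) → kerD a A d = ⊥) ∧
    ∀ (α d : ℤ) (w : I → MvPolynomial (Fin N) K), (∀ i, HomD (α - b i) (w i)) →
      Ex1 (addCol A w) → (∀ e : I → J, Function.Injective e → 1 ≤ ∑ i, a (e i) - ∑ i, b i) →
      d ≤ α → Module.finrank K (kerD (oext a α) (addCol A w) d) = Module.finrank K (kerD a A d)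

/-- [kn] The numbers `K_(i+3)` are values of `Hnum`.

PROOF.  `r = t + 1 + i` columns, `t` rows, `N = n + 1`, degree `d = a (t + 1 + i)`.
`Hnum = ∑_s (-1)^s ∑_(card S = t+1+s) ∑_(T ∈ sym s) mon (n+1) (d - a(S) + b(T) + ∑ b)`, with
`s ≤ i`.  Replace `S` by its complement `S'` in `{0, …, t+i}`, `card S' = t+1+i - (t+1+s) = i - s =:
r`, so `s = i - r`.  `mon (n+1) u = bin (u + n) n` (S_mon), and
`d - a(S) + b(T) + ∑ b + n = 2 a_(t+i+1) - (∑_(j ≤ t+i+1) a_j - ∑ b) + n + a(S') + b(T)
= hNum n t a b i + a(S') + b(T)`.  Transport between `Fin t` (row `i` with degree `b (i+1)`) and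
`Finset.Icc 1 t`, between `Fin (t+1+i)` and `Finset.range (t+i+1)`. -/
def S_kn : Prop :=
  ∀ (n t i : ℕ) (a b : ℕ → ℤ), 1 ≤ n →
    Hnum (n + 1) (fun j : Fin (t + 1 + i) => a j) (fun i : Fin t => b (i + 1)) (a (t + 1 + i)) =
      KNum n t a b i

end Pool.Agent.Lib.MP_09338f_ag
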