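import Mathlib
import Pool.Agent.Lib.MP_09338f_ag.KM.Stm4

/-!
# Project KM, Part E: fields of definition, transcendence degrees.  Nothing is proved here.
-/

set_option autoImplicit false

open MvPolynomial Matrix

universe u

namespace Pool.Agent.Lib.MP_09338f_ag

/-- Apply a map (a derivation of `K`) to all coefficients. -/
noncomputable def cwD {N : ℕ} {K : Type u} [Field K] (D : K → K) (p : MvPolynomial (Fin N) K) :
    MvPolynomial (Fin N) K :=
  ∑ m ∈ p.support, monomial m (D (p.coeff m))

/-- The index type of the coefficients of a pair `(g₁, g₂)` of homogeneous square matrices. -/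
abbrev HIdx {I J : Type} (N : ℕ) (a : J → ℤ) (b : I → ℤ) : Type := Coef N b b ⊕ Coef N a a

/-- The field `K(h)` of rational functions in the coefficients of `(g₁, g₂)`. -/
abbrev HField {I J : Type} (K : Type u) [Field K] (N : ℕ) (a : J → ℤ) (b : I → ℤ) : Type u :=
  FractionRing (MvPolynomial (HIdx N a b) K)

open Classical in
/-- The generic homogeneous matrix `g₁` (rows and columns `I`) over `K(h)`. -/
noncomputable def hM1 {I J : Type} (K : Type u) [Field K] (N : ℕ) (a : J → ℤ) (b : I → ℤ) :
    Matrix I I (MvPolynomial (Fin N) (HField K N a b)) := fun i i' =>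
  ∑ m ∈ Finset.univ.finsuppAntidiag (b i' - b i).toNat,
    if h : ((m.degree : ℕ) : ℤ) = b i' - b i then
      monomial m (algebraMap (MvPolynomial (HIdx N a b) K) (HField K N a b)
        (X (Sum.inl ⟨(i, i', m), h⟩)))
    else 0

open Classical in
/-- The generic homogeneous matrix `g₂` (rows and columns `J`) over `K(h)`. -/
noncomputable def hM2 {I J : Type} (K : Type u) [Field K] (N : ℕ) (a : J → ℤ) (b : I → ℤ) :
    Matrix J J (MvPolynomial (Fin N) (HField K N a b)) := fun j j' =>
  ∑ m ∈ Finset.univ.finsuppAntidiag (a j' - a j).toNat,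
    if h : ((m.degree : ℕ) : ℤ) = a j' - a j then
      monomial m (algebraMap (MvPolynomial (HIdx N a b) K) (HField K N a b)
        (X (Sum.inr ⟨(j, j', m), h⟩)))
    else 0

/-- Extend the coefficients of a matrix of polynomials along a homomorphism. -/
noncomputable def extM {P Q : Type} {N : ℕ} {K K' : Type u} [Field K] [Field K'] (σ : K →+* K')
    (A : Matrix P Q (MvPolynomial (Fin N) K)) : Matrix P Q (MvPolynomial (Fin N) K') :=
  A.map (MvPolynomial.map σ)

/-- [lid] Linear independence modulo a subspace is preserved by extension of the field.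

PROOF.  Let `∑ c_i σ(v_i) = ∑_q d_q σ(p_q)` with `p_q ∈ P`.  Choose a basis `(ε_l)` of `K'` as a
vector space over `K` (through `σ`) and write `c_i = ∑_l σ(c_il) ε_l`, `d_q = ∑_l σ(d_ql) ε_l`.
Comparing the coefficients of `ε_l` in every coordinate: `∑_i c_il v_i = ∑_q d_ql p_q ∈ P` for all
`l`, so all `c_il = 0`. -/
def S_lid : Prop :=
  ∀ (K K' : Type u) [Field K] [Field K'] (σ : K →+* K') (X ι : Type) (P : Submodule K (X →₀ K))
    (v : ι → X →₀ K), (∀ c : ι →₀ K, (c.sum fun i x => x • v i) ∈ P → c = 0) →
    ∀ c : ι →₀ K', (c.sum fun i x => x • (v i).mapRange σ (map_zero σ)) ∈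
      Submodule.span K' ((fun p : X →₀ K => p.mapRange σ (map_zero σ)) '' (P : Set (X →₀ K))) →
      c = 0

/-- [fod] The field of definition.

PROOF (uses S_lid).  `R = K[x]` as a `K`-vector space with the basis of the monomials.  Choose a set
`Bs` of monomials whose classes are a basis of `R / P`.  For every monomial `m` there are unique
`c_(m,β) ∈ K` (`β ∈ Bs`, finitely many nonzero) with `r_m = x^m - ∑_β c_(m,β) x^β ∈ P`.  Let
`F₀ = k(all c_(m,β))` (`IntermediateField.adjoin`).
(i) `P` is defined over `F₀`: the `r_m` have coefficients in `F₀` and span `P` over `K`: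
`f = ∑ f_m x^m ∈ P` is `∑ f_m r_m` plus an element of `P` that is a combination of `Bs`, so `0`.
(ii) If `P` is defined over `F` then all `c_(m,β) ∈ F`: let `R_F` be the polynomials with
coefficients in `F`, `P_F = P ∩ R_F`; `P` is the `K`-span of `P_F` (the ideal generated by `P_F` is
spanned by the `x^m f`, `f ∈ P_F`, which are in `P_F`).  In the `F`-vector space `R_F / P_F` the
class of `x^m` is a combination of the classes of `Bs`: otherwise `x^m` and `Bs` are `F`-linearly
independent modulo `P_F`, so by `S_lid` (`F → K`) `K`-linearly independent modulo `P`,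
contradiction.  So `x^m - ∑ c'_β x^β ∈ P_F` with `c'_β ∈ F`, and `c'_β = c_(m,β)` by uniqueness.
So `F₀ = fieldOfDef k P` (it is the smallest element of the set, and `sInf` of a set with a smallest
element is this element).
(iii) `σ, τ` with the same extended ideal `P'`: `r_m^σ` and `r_m^τ` are in `P'`, so
`∑_β (σ(c_(m,β)) - τ(c_(m,β))) x^β ∈ P'`; `Bs` is linearly independent modulo `P'`, which is the
`K'`-span of the `σ(p)`, `p ∈ P` (S_lid); so `σ(c_(m,β)) = τ(c_(m,β))`.  The `x ∈ K` with
`σ x = τ x` form a subfield containing `k` and all `c_(m,β)`, so `F₀`. -/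
def S_fod : Prop :=
  ∀ (k K : Type u) [Field k] [Field K] [Algebra k K] (N : ℕ) (P : Ideal (MvPolynomial (Fin N) K)),
    DefinedOver P (fieldOfDef k P) ∧
    ∀ (K' : Type u) [Field K'] [Algebra k K'] (σ τ : K →ₐ[k] K'),
      Ideal.map (MvPolynomial.map (σ : K →+* K')) P =
        Ideal.map (MvPolynomial.map (τ : K →+* K')) P → ∀ x ∈ fieldOfDef k P, σ x = τ x

/-- [jac] The Jacobian criterion over a perfect field.

PROOF.  Suppose that the `y_i` are algebraically dependent and let `P ≠ 0` be a polynomial over `k`
of minimal total degree with `P(y) = 0`.  For every `c`: `0 = D_c (P(y)) = ∑_i (∂_i P)(y) D_c y_i`,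
so by the linear independence `(∂_i P)(y) = 0` for all `i`; `∂_i P` has smaller total degree, so
`∂_i P = 0` for all `i`.  Characteristic `0`: `P` is a constant, contradiction.
Characteristic `p`: all exponents in `P` are divisible by `p`, and the coefficients are `p`-th powers
(`k` perfect), so `P = Q^p`, `Q(y) = 0` and `Q` has smaller total degree, contradiction. -/
def S_jac : Prop :=
  ∀ (k K : Type u) [Field k] [PerfectField k] [Field K] [Algebra k K] (ι κ : Type) [Fintype ι]
    (y : ι → K) (D : κ → Derivation k K K),
    LinearIndependent K (fun (i : ι) (c : κ) => D c (y i)) → AlgebraicIndependent k y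

/-- [der] Many derivations that kill a subfield of small transcendence degree.

PROOF (uses S_jac).  `K = k(x_i)_(i ∈ ι)`, `∂_i` the partial derivatives of `K`, extended to the
field of fractions (`Derivation` on a localization, for instance
`KaehlerDifferential` or the formula for quotients).  For `v : ι → K` let `D_v = ∑ v_i ∂_i`.
For `y ∈ F` let `grad y = (∂_i y)_i`.  Let `G` be the span of all `grad y`, `y ∈ F`, and
`L = {v | ∑ v_i g_i = 0 for all g ∈ G}`; `finrank L = card ι - finrank G`, and `D_v` kills `F` for
`v ∈ L`.  Choose `y_1, …, y_m ∈ F` such that the `grad y_l` are a basis of `G`; by `S_jac` (with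
`D_c = ∂_c`) they are algebraically independent over `k`, so `m ≤ trdeg k F = w`
(`AlgebraicIndependent.cardinalMk_le_trdeg`, in `F`). -/
def S_der : Prop :=
  ∀ (k : Type u) [Field k] [PerfectField k] (ι : Type) [Finite ι]
    (F : IntermediateField k (FractionRing (MvPolynomial ι k))) (w : ℕ), Algebra.trdeg k F = w →
    ∃ L : Submodule (FractionRing (MvPolynomial ι k)) (ι → FractionRing (MvPolynomial ι k)),
      Nat.card ι ≤ Module.finrank (FractionRing (MvPolynomial ι k)) L + w ∧
      ∀ v ∈ L, ∃ D : Derivation k (FractionRing (MvPolynomial ι k))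
          (FractionRing (MvPolynomial ι k)),
        (∀ i, D (algebraMap (MvPolynomial ι k) (FractionRing (MvPolynomial ι k)) (X i)) = v i) ∧
        ∀ x ∈ F, D x = 0

/-- [cmp] Derivations and minors.

PROOF.  `cwD D` is additive and satisfies the Leibniz rule on `K[x]` (coefficients of a product), so
`cwD D (det M) = ∑_k det (M with the column `k` replaced by its image under `cwD D`)`
(`det_apply`, derivation of a product); so `cwD D (det A_e) = dd A (A.map (cwD D)) e`.
`cwD D (mins A) ⊆ mins A`: `mins A` is generated by polynomials `f` with coefficients in `F`, for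
which `cwD D f = 0`, and `cwD D (g f) = f * cwD D g`. -/
def S_cmp : Prop :=
  ∀ (k K : Type u) [Field k] [Field K] [Algebra k K] (N : ℕ) (I J : Type) [Fintype I]
    [DecidableEq I] [Fintype J] [DecidableEq J] (A : Matrix I J (MvPolynomial (Fin N) K))
    (F : IntermediateField k K) (D : Derivation k K K), DefinedOver (mins A) F →
    (∀ x ∈ F, D x = 0) → ∀ e : I → J, dd A (A.map (cwD D)) e ∈ mins A

/-- [low] The lower bound for the transcendence degree.

PROOF (uses S_der, S_cmp, S_mim).  `A = genMatrix`, `K = GenField`; apply `S_der` with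
`ι = Coef N a b` (finite by S_mon).  For `v ∈ L` with its derivation `D_v` let
`B_v = A.map (cwD D_v)`: homogeneous, the coefficient of `m` in the `(i, j)` entry is
`v (i, j, m)` (`D_v` of the variable).  By `S_cmp` and `S_mim` `Tp A B_v`, so by `TP`
`B_v = X A + A Y = X A - A (-Y) ∈ orbS`.  The map `v ↦ ` the matrix with the coefficients `v` is
linear and injective, so `finrank L ≤ finrank orbS` (orbS is finite dimensional, S_mon). -/
def S_low : Prop :=
  ∀ (k : Type u) [Field k] [PerfectField k] (N : ℕ) (I J : Type) [Fintype I] [DecidableEq I]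
    [Fintype J] [DecidableEq J] (a : J → ℤ) (b : I → ℤ)
    (F : IntermediateField k (GenField k N a b)) (w : ℕ), TP a b (genMatrix k N a b) →
    DefinedOver (mins (genMatrix k N a b)) F → Algebra.trdeg k F = w →
    Nat.card (Coef N a b) ≤
      Module.finrank (GenField k N a b) (orbS a b (genMatrix k N a b)) + w

/-- [mnm] Invariance of the ideal of maximal minors.

PROOF.  `mins (g₁ A g₂) ≤ mins A`: `det ((g₁ B)_e) = det g₁ * det B_e`; the columns of `(A g₂)_e` are
combinations of columns of `A`: multilinearity of `det` (or `S_mim`, third part, repeatedly; or the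
Cauchy–Binet formula).  Then apply this to the inverses. -/
def S_mnm : Prop :=
  ∀ (R : Type u) [CommRing R] (I J : Type) [Fintype I] [DecidableEq I] [Fintype J] [DecidableEq J]
    (A : Matrix I J R) (g₁ g₁' : Matrix I I R) (g₂ g₂' : Matrix J J R), g₁' * g₁ = 1 →
    g₂ * g₂' = 1 → mins (g₁ * A * g₂) = mins A

/-- [hga] The generic homogeneous matrices are invertible, with homogeneous inverses.

PROOF.  `det g₁` is homogeneous of degree `0` (S_reld, general fact), so a constant `C δ`.  `δ` is
the image of the same element of `MvPolynomial (HIdx N a b) K` computed with the variables; the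
evaluation at the identity matrix (the variable `inl (i, i', m)` goes to `1` if `i = i'`, `m = 0`,
else to `0`) sends it to `det 1 = 1`, so `δ ≠ 0`.  `g₁' = C δ⁻¹ • adjugate g₁`; the entries of the
adjugate are homogeneous of the right degrees (or: take homogeneous components of an inverse).  The
same for `g₂`. -/
def S_hga : Prop :=
  ∀ (K : Type u) [Field K] (N : ℕ) (I J : Type) [Fintype I] [DecidableEq I] [Fintype J]
    [DecidableEq J] (a : J → ℤ) (b : I → ℤ),
    HomM b b (hM1 K N a b) ∧ HomM a a (hM2 K N a b) ∧
    (∃ g : Matrix I I (MvPolynomial (Fin N) (HField K N a b)), HomM b b g ∧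
      hM1 K N a b * g = 1 ∧ g * hM1 K N a b = 1) ∧
    ∃ g : Matrix J J (MvPolynomial (Fin N) (HField K N a b)), HomM a a g ∧
      hM2 K N a b * g = 1 ∧ g * hM2 K N a b = 1

/-- [hgb] The conjugate of a generic matrix by the generic homogeneous matrices is generic.

PROOF.  `A'' = g₁ A g₂` is homogeneous.  Its coefficients are images of elements `q_p`
(`p ∈ Coef N a b`) of `MvPolynomial (HIdx N a b) K`: the coefficients of the same product over
`MvPolynomial (HIdx N a b) K`.  The evaluation `ε : MvPolynomial (HIdx N a b) K → K` at the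
identity matrices maps `q_p` to the coefficient `u_p` of `A`.  If `Q(q) = 0` for a polynomial `Q`
over `k`, then `Q(u) = 0`, so `Q = 0`.  (The `k`-algebra structure of `HField` is the canonical one
of Mathlib.) -/
def S_hgb : Prop :=
  ∀ (k K : Type u) [Field k] [Field K] [Algebra k K] (N : ℕ) (I J : Type) [Fintype I]
    [DecidableEq I] [Fintype J] [DecidableEq J] (a : J → ℤ) (b : I → ℤ)
    (A : Matrix I J (MvPolynomial (Fin N) K)), Gen k a b A →
    Gen k a b (hM1 K N a b * extM (algebraMap K (HField K N a b)) A * hM2 K N a b)

/-- [hgc] `K(h)` is generated by the coefficients of `g₁` and of the inverse of `g₂`; its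
transcendence degree.

PROOF.  Let `E` be the field generated over `K` by the coefficients of `g₁` and of `g` (`g₂ g = 1`).
The coefficients of `g₁` are the variables `inl p`.  `det g` is a nonzero constant, a polynomial in
the coefficients of `g`, and `g₂ = adjugate g / det g` (`g₂ g = 1`), so the coefficients of `g₂`,
the variables `inr p`, are in `E`.  So `E` contains `K` and all variables, `E = ⊤`.
The transcendence degree of a field of rational functions in finitely many variables. -/
def S_hgc : Prop :=
  ∀ (K : Type u) [Field K] (N : ℕ) (I J : Type) [Fintype I] [DecidableEq I] [Fintype J]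
    [DecidableEq J] (a : J → ℤ) (b : I → ℤ),
    (∀ g : Matrix J J (MvPolynomial (Fin N) (HField K N a b)), hM2 K N a b * g = 1 →
      IntermediateField.adjoin K ({x | ∃ i i' m, x = (hM1 K N a b i i').coeff m} ∪
        {x | ∃ j j' m, x = (g j j').coeff m}) = ⊤) ∧
    Algebra.trdeg K (HField K N a b) = Nat.card (HIdx N a b)

/-- [bcs] Base change for the spaces `stabS`.

PROOF.  `stabS a b A A'` is the space of solutions of a finite system of linear equations with
coefficients in `L` (unknowns: the coefficients of `X` and `Y`).  For an extension `K'` of `L` the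
solutions over `K'` are the `K'`-span of the solutions over `L`, and the dimensions are equal
(`LinearMap.baseChange`, or: write a solution over `K'` with a basis of `K'` over `L`; linearly
independent vectors over `L` stay independent over `K'`). -/
def S_bcs : Prop :=
  ∀ (L K' : Type u) [Field L] [Field K'] [Algebra L K'] (N : ℕ) (I J : Type) [Fintype I]
    [DecidableEq I] [Fintype J] [DecidableEq J] (a : J → ℤ) (b : I → ℤ)
    (A A' : Matrix I J (MvPolynomial (Fin N) L)),
    Module.finrank K' (stabS a b (extM (algebraMap L K') A) (extM (algebraMap L K') A')) =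
      Module.finrank L (stabS a b A A') ∧
    stabS a b (extM (algebraMap L K') A) (extM (algebraMap L K') A') =
      Submodule.span K' ((fun p => (extM (algebraMap L K') p.1, extM (algebraMap L K') p.2)) ''
        (stabS a b A A' : Set (Matrix I I (MvPolynomial (Fin N) L) ×
          Matrix J J (MvPolynomial (Fin N) L))))

/-- [cnj] The spaces `stabS` for `A` and for a conjugate.

PROOF.  `(X, Y) ↦ (g₁' X, g₂ Y)` maps `{X A = (g₁ A g₂) Y}` bijectively to `{X A = A Y}`:
`g₁' X A = g₁' g₁ A g₂ Y = A (g₂ Y)`; the inverse is `(X, Y) ↦ (g₁ X, g₂' Y)`.  Products of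
homogeneous matrices are homogeneous. -/
def S_cnj : Prop :=
  ∀ (K : Type u) [Field K] (N : ℕ) (I J : Type) [Fintype I] [DecidableEq I] [Fintype J]
    [DecidableEq J] (a : J → ℤ) (b : I → ℤ) (A : Matrix I J (MvPolynomial (Fin N) K))
    (g₁ g₁' : Matrix I I (MvPolynomial (Fin N) K)) (g₂ g₂' : Matrix J J (MvPolynomial (Fin N) K)),
    HomM b b g₁ → HomM b b g₁' → HomM a a g₂ → HomM a a g₂' → g₁ * g₁' = 1 → g₁' * g₁ = 1 →
    g₂ * g₂' = 1 → g₂' * g₂ = 1 →
    Module.finrank K (stabS a b A (g₁ * A * g₂)) = Module.finrank K (stabS a b A A)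

/-- [lfb] The linear fibre.

PROOF.  `V` is finite dimensional over `L` (finitely many coordinates); let `v_1, …, v_δ` be a
basis.  `p = ∑ λ_l v_l` with `λ_l ∈ K'`.  So all `p x` are in `L(λ_1, …, λ_δ)`, which is therefore
all of `K'`.  A field generated by `δ` elements has transcendence degree `≤ δ`
(`IsTranscendenceBasis` contained in the generating set, `Algebra.trdeg` and
`IntermediateField.adjoin`). -/
def S_lfb : Prop :=
  ∀ (L K' : Type u) [Field L] [Field K'] [Algebra L K'] (X : Type) [Finite X]
    (V : Submodule L (X → L)) (p : X → K'),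
    p ∈ Submodule.span K' ((fun (v : X → L) (x : X) => algebraMap L K' (v x)) '' (V : Set (X → L))) →
    IntermediateField.adjoin L (Set.range p) = ⊤ → Algebra.trdeg L K' ≤ Module.finrank L V

/-- [tr4] Transcendence degrees.

PROOF.  Let `S ⊆ K` be a transcendence basis of `K` over `F`; `card S + w = n`
(`Algebra.trdeg_add_eq`, additivity in the tower `k ⊆ F ⊆ K`).  `σ` and the inclusion agree on `F`.
Every element of `K` is algebraic over `F(S)`, so every element of `σ(K)` is algebraic over
`σ(F)(σ S) = F(σ S) ⊆ K(σ S)`; so `L = K(σ K)` is algebraic over `K(σ S)`, and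
`trdeg K L ≤ card S`. -/
def S_tr4 : Prop :=
  ∀ (k K K' : Type u) [Field k] [Field K] [Field K'] [Algebra k K] [Algebra K K'] [Algebra k K']
    [IsScalarTower k K K'] (F : IntermediateField k K) (σ : K →ₐ[k] K') (n w : ℕ),
    Algebra.trdeg k K = n → Algebra.trdeg k F = w → (∀ x ∈ F, σ x = algebraMap K K' x) →
    Algebra.trdeg K (IntermediateField.adjoin K (Set.range σ)) + w ≤ n

/-- [upp] The upper bound for the transcendence degree.

PROOF (uses S_fod, S_hga, S_hgb, S_hgc, S_mnm, S_bcs, S_cnj, S_lfb, S_tr4, S_gm, S_mon, S_unv).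
`A = genMatrix`, `K = GenField`, `F = fieldOfDef k (mins A)`, `K' = HField K N a b`,
`g₁ = hM1`, `g₂ = hM2`, with homogeneous inverses `g₁', g₂'`, `A'' = g₁ A_(K') g₂`.
`A''` is generic over `k` (S_hgb), so there is a `k`-homomorphism `σ : K → K'` with
`σ(A) = A''` (the coefficients of `A''` are algebraically independent, `K` is the field of fractions
of the polynomial ring in the coefficients of `A`).  `mins (A'') = mins (A_(K'))` (S_mnm), and these
are the extended ideals of `mins A` along `σ` and along the inclusion (the minors commute with ring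
homomorphisms); so `σ x = x` for `x ∈ F` (S_fod).  Let `L = IntermediateField.adjoin K (range σ)`.
`trdeg K L + w ≤ n = card Coef` (S_tr4; `trdeg k K = card Coef`).
`A` and `A''` have coefficients in `L`.  `(g₁, g₂')` is in `stabS a b A_(K') A''` because
`g₁ A = A'' g₂'`.  By S_bcs it is in the `K'`-span of `stabS` over `L`; identify homogeneous pairs
with their coefficient vectors (a finite type `X` of indices `(i, i', m)`, `(j, j', m)`);
`L(coefficients of g₁, g₂') = K'` (S_hgc).  So by S_lfb `trdeg L K' ≤ finrank L (stabS over L)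
= finrank K' (stabS a b A_(K') A'') = finrank K' (stabS a b A_(K') A_(K')) = finrank K (stabS a b A
A)` (S_bcs, S_cnj, S_bcs).  `trdeg K K' = card HIdx = trdeg K L + trdeg L K'`.  Together:
`card HIdx + w ≤ card Coef + finrank stabS`. -/
def S_upp : Prop :=
  ∀ (k : Type u) [Field k] (N : ℕ) (I J : Type) [Fintype I] [DecidableEq I] [Fintype J]
    [DecidableEq J] (a : J → ℤ) (b : I → ℤ) (w : ℕ),
    Algebra.trdeg k (fieldOfDef k (mins (genMatrix k N a b))) = w →
    (∑ i, ∑ i', mon N (b i' - b i)) + (∑ j, ∑ j', mon N (a j' - a j)) + w ≤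
      Nat.card (Coef N a b) +
        Module.finrank (GenField k N a b) (stabS a b (genMatrix k N a b) (genMatrix k N a b))

end Pool.Agent.Lib.MP_09338f_ag
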