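import Mathlib
import Pool.Agent.Lib.MP_09338f_ag.KM.Stm5

/-!
# Project KM, final assembly, part 1: the numerical conditions
-/

set_option autoImplicit false

open MvPolynomial Matrix

universe u

namespace Pool.Agent.Lib.MP_09338f_ag

section num

variable {t r : ℕ} {a b : ℕ → ℤ}

/-- `CD1` from `b_i ≤ a_{i-1}`. -/
theorem fin_cd1
    (ha : ∀ i j, i ≤ j → j < r → a i ≤ a j)
    (h1 : ∀ i, 1 ≤ i → i ≤ t → b i ≤ a (i - 1)) :
    CD1 (fun j : Fin r => a j) (fun i : Fin t => b (i + 1)) := by
  intro i
  have key : ∀ j : Fin r, a j < b (i + 1) → (j : ℕ) < t := by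
    intro j hj
    by_contra hlt
    have h2 := h1 (i + 1) (by omega) (by have := i.2; omega)
    have h3 := ha i j (by have := i.2; omega) j.2
    have h4 : (i : ℕ) + 1 - 1 = i := by omega
    rw [h4] at h2
    omega
  refine Finset.card_le_card_of_injOn
    (fun j => if h : (j : ℕ) < t then (⟨j, h⟩ : Fin t) else i) ?_ ?_
  · intro j hj
    simp only [Finset.coe_filter, Finset.mem_univ, true_and, Set.mem_ofPred_eq] at hj ⊢
    have hlt := key j hj
    rw [dif_pos hlt]
    have h2 := h1 (j + 1) (by omega) (by omega)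
    have h4 : (j : ℕ) + 1 - 1 = j := by omega
    rw [h4] at h2
    exact lt_of_le_of_lt h2 hj
  · intro j hj j' hj' he
    simp only [Finset.coe_filter, Finset.mem_univ, true_and, Set.mem_ofPred_eq] at hj hj'
    have hlt := key j hj
    have hlt' := key j' hj'
    simp only [dif_pos hlt, dif_pos hlt', Fin.mk.injEq] at he
    exact Fin.ext he

/-- `CD2` from `b_i ≤ a_{i-2}`, `b_1 ≤ a_0`. -/
theorem fin_cd2
    (ha : ∀ i j, i ≤ j → j < r → a i ≤ a j)
    (h0 : 1 ≤ t → b 1 ≤ a 0)
    (h2 : ∀ i, 2 ≤ i → i ≤ t → b i ≤ a (i - 2)) :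
    CD2 (fun j : Fin r => a j) (fun i : Fin t => b (i + 1)) := by
  intro i
  have hi := i.2
  have key : ∀ j : Fin r, a j < b (i + 1) → (j : ℕ) + 1 < t ∧ 1 ≤ (i : ℕ) := by
    intro j hj
    have hi1 : 1 ≤ (i : ℕ) := by
      by_contra hc
      have hi0 : (i : ℕ) = 0 := by omega
      rw [hi0] at hj
      have h3 := ha 0 j (by omega) j.2
      have := h0 (by omega)
      simp at hj
      omega
    refine ⟨?_, hi1⟩
    by_contra hlt
    have h3 := h2 (i + 1) (by omega) (by omega)
    have h4 : (i : ℕ) + 1 - 2 = i - 1 := by omega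
    rw [h4] at h3
    have h5 := ha (i - 1) j (by omega) j.2
    omega
  by_cases hne : (Finset.univ.filter fun j : Fin r => a j < b (i + 1)).Nonempty
  · obtain ⟨j0, hj0⟩ := hne
    simp only [Finset.mem_filter, Finset.mem_univ, true_and] at hj0
    have ht0 : 0 < t := by omega
    have hmem : (⟨0, ht0⟩ : Fin t) ∈
        Finset.univ.filter fun i' : Fin t => b ((i' : ℕ) + 1) < b (i + 1) := by
      simp only [Finset.mem_filter, Finset.mem_univ, true_and]
      have h3 := ha 0 j0 (by omega) j0.2
      have := h0 (by omega)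
      simp only [zero_add]
      omega
    rw [← Finset.card_erase_of_mem hmem]
    refine Finset.card_le_card_of_injOn
      (fun j => if h : (j : ℕ) + 1 < t then (⟨j + 1, h⟩ : Fin t) else i) ?_ ?_
    · intro j hj
      simp only [Finset.coe_filter, Finset.mem_univ, true_and, Set.mem_ofPred_eq] at hj
      have hlt := (key j hj).1
      simp only [dif_pos hlt]
      simp only [Finset.mem_coe, Finset.mem_erase, ne_eq, Fin.mk.injEq, Nat.add_eq_zero_iff,
        one_ne_zero, and_false, not_false_eq_true, Finset.mem_filter, Finset.mem_univ, true_and]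
      have h3 := h2 (j + 2) (by omega) (by omega)
      have h4 : (j : ℕ) + 2 - 2 = j := by omega
      rw [h4] at h3
      exact lt_of_le_of_lt h3 hj
    · intro j hj j' hj' he
      simp only [Finset.coe_filter, Finset.mem_univ, true_and, Set.mem_ofPred_eq] at hj hj'
      have hlt := (key j hj).1
      have hlt' := (key j' hj').1
      simp only [dif_pos hlt, dif_pos hlt', Fin.mk.injEq, Nat.add_right_cancel_iff] at he
      exact Fin.ext he
  · rw [Finset.not_nonempty_iff_eq_empty] at hne
    simp [hne]

/-- `CD3` from `b_i < a_{i-2}`, `b_1 < a_0`. -/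
theorem fin_cd3
    (ha : ∀ i j, i ≤ j → j < r → a i ≤ a j)
    (h0 : 1 ≤ t → b 1 < a 0)
    (h2 : ∀ i, 2 ≤ i → i ≤ t → b i < a (i - 2)) :
    CD3 (fun j : Fin r => a j) (fun i : Fin t => b (i + 1)) := by
  intro i
  have hi := i.2
  have key : ∀ j : Fin r, a j ≤ b (i + 1) → (j : ℕ) + 1 < t ∧ 1 ≤ (i : ℕ) := by
    intro j hj
    have hi1 : 1 ≤ (i : ℕ) := by
      by_contra hc
      have hi0 : (i : ℕ) = 0 := by omega
      rw [hi0] at hj
      have h3 := ha 0 j (by omega) j.2
      have := h0 (by omega)
      simp at hj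
      omega
    refine ⟨?_, hi1⟩
    by_contra hlt
    have h3 := h2 (i + 1) (by omega) (by omega)
    have h4 : (i : ℕ) + 1 - 2 = i - 1 := by omega
    rw [h4] at h3
    have h5 := ha (i - 1) j (by omega) j.2
    omega
  by_cases hne : (Finset.univ.filter fun j : Fin r => a j ≤ b (i + 1)).Nonempty
  · obtain ⟨j0, hj0⟩ := hne
    simp only [Finset.mem_filter, Finset.mem_univ, true_and] at hj0
    have ht0 : 0 < t := by omega
    have hmem : (⟨0, ht0⟩ : Fin t) ∈
        Finset.univ.filter fun i' : Fin t => b ((i' : ℕ) + 1) < b (i + 1) := by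
      simp only [Finset.mem_filter, Finset.mem_univ, true_and]
      have h3 := ha 0 j0 (by omega) j0.2
      have := h0 (by omega)
      simp only [zero_add]
      omega
    rw [← Finset.card_erase_of_mem hmem]
    refine Finset.card_le_card_of_injOn
      (fun j => if h : (j : ℕ) + 1 < t then (⟨j + 1, h⟩ : Fin t) else i) ?_ ?_
    · intro j hj
      simp only [Finset.coe_filter, Finset.mem_univ, true_and, Set.mem_ofPred_eq] at hj
      have hlt := (key j hj).1
      simp only [dif_pos hlt]
      simp only [Finset.mem_coe, Finset.mem_erase, ne_eq, Fin.mk.injEq, Nat.add_eq_zero_iff,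
        one_ne_zero, and_false, not_false_eq_true, Finset.mem_filter, Finset.mem_univ, true_and]
      have h3 := h2 (j + 2) (by omega) (by omega)
      have h4 : (j : ℕ) + 2 - 2 = j := by omega
      rw [h4] at h3
      exact lt_of_lt_of_le h3 hj
    · intro j hj j' hj' he
      simp only [Finset.coe_filter, Finset.mem_univ, true_and, Set.mem_ofPred_eq] at hj hj'
      have hlt := (key j hj).1
      have hlt' := (key j' hj').1
      simp only [dif_pos hlt, dif_pos hlt', Fin.mk.injEq, Nat.add_right_cancel_iff] at he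
      exact Fin.ext he
  · rw [Finset.not_nonempty_iff_eq_empty] at hne
    simp [hne]

/-- The sum over `s` different columns is at least the sum over the first `s` columns. -/
theorem fin_sum {S : Type} [Fintype S] [DecidableEq S]
    (ha : ∀ i j, i ≤ j → j < r → a i ≤ a j) (e : S → Fin r) (he : Function.Injective e) :
    ∑ i ∈ Finset.range (Fintype.card S), a i ≤ ∑ s, a (e s) := by
  classical
  set T : Finset ℕ := Finset.univ.image fun s => (e s : ℕ) with hT
  have hinj : Function.Injective fun s => (e s : ℕ) := fun x y h => he (Fin.ext h)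
  have hcard : T.card = Fintype.card S := by
    rw [hT, Finset.card_image_of_injective _ hinj, Finset.card_univ]
  have h1 : ∑ s, a (e s) = ∑ x ∈ T, a x := by
    rw [hT, Finset.sum_image (fun x _ y _ h => hinj h)]
  have h2 : ∑ x ∈ T, a x = ∑ i : Fin (Fintype.card S), a (T.orderEmbOfFin hcard i) := by
    rw [← Finset.sum_coe_sort T]
    exact (Fintype.sum_equiv (T.orderIsoOfFin hcard).toEquiv _ _ (fun i => rfl)).symm
  rw [h1, h2, ← Fin.sum_univ_eq_sum_range]
  refine Finset.sum_le_sum fun i _ => ?_
  refine ha i _ ?_ ?_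
  · have hmono : StrictMono (T.orderEmbOfFin hcard) := (T.orderEmbOfFin hcard).strictMono
    have : ∀ m : ℕ, ∀ hm : m < Fintype.card S, m ≤ T.orderEmbOfFin hcard ⟨m, hm⟩ := by
      intro m
      induction m with
      | zero => intro _; omega
      | succ m ih =>
        intro hm
        have h3 := ih (by omega)
        have h4 : T.orderEmbOfFin hcard ⟨m, by omega⟩ < T.orderEmbOfFin hcard ⟨m + 1, hm⟩ :=
          hmono (by simp [Fin.lt_def])
        omega
    exact this i i.2
  · have hm := Finset.orderEmbOfFin_mem T hcard i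
    have hm2 : T.orderEmbOfFin hcard i ∈ Finset.univ.image fun s => (e s : ℕ) := by
      rw [← hT]; exact hm
    obtain ⟨s, _, hs⟩ := Finset.mem_image.1 hm2
    rw [← hs]
    exact (e s).2

/-- The first maximal minor has a positive degree. -/
theorem fin_pos
    (h1 : ∀ i, 1 ≤ i → i ≤ t → b i ≤ a (i - 1)) (h2 : ∃ i, 1 ≤ i ∧ i ≤ t ∧ b i < a (i - 1)) :
    1 ≤ ∑ i ∈ Finset.range t, a i - ∑ i : Fin t, b (i + 1) := by
  rw [Fin.sum_univ_eq_sum_range (fun i => b (i + 1)) t, ← Finset.sum_sub_distrib]
  obtain ⟨i, hi1, hi2, hi3⟩ := h2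
  have h0 : ∀ x ∈ Finset.range t, 0 ≤ a x - b (x + 1) := by
    intro x hx
    have := h1 (x + 1) (by omega) (by have := Finset.mem_range.1 hx; omega)
    simp only [Nat.add_sub_cancel] at this
    omega
  have hmem : i - 1 ∈ Finset.range t := Finset.mem_range.2 (by omega)
  have h3 := Finset.single_le_sum h0 hmem
  have h4 : i - 1 + 1 = i := by omega
  rw [h4] at h3
  omega

end num

end Pool.Agent.Lib.MP_09338f_ag
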