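import Mathlib
import Pool.Agent.Lib.MP_09338f_ag.KM.Fin1

/-!
# Project KM, final assembly, part 2: the kernel dimensions
-/

set_option autoImplicit false

open MvPolynomial Matrix

universe u

namespace Pool.Agent.Lib.MP_09338f_ag

/-- Submatrix of a matrix with `r + 1` columns. -/
private theorem sub_eq {r : ℕ} {I : Type} {R : Type u} (A : Matrix I (Fin (r + 1)) R) :
    A.submatrix (Equiv.refl I) (finSuccEquivLast (n := r)).symm =
      addCol (A.submatrix id Fin.castSucc) (fun i => A i (Fin.last r)) := by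
  funext i j
  cases j with
  | none => simp [addCol]
  | some j => simp [addCol]

private theorem deg_eq {r : ℕ} (a : ℕ → ℤ) :
    (fun j : Fin (r + 1) => a j) ∘ (finSuccEquivLast (n := r)).symm =
      oext (fun j : Fin r => a j) (a r) := by
  funext j
  cases j with
  | none => simp [oext]
  | some j => simp [oext]

theorem fin_step (h_hfa : S_hfa.{u}) (h_kz : S_kz.{u}) (h_gm : S_gm.{u}) (h_gs : S_gs.{u})
    (h_e1a : S_e1a.{u}) (h_hnr : S_hnr.{u}) (h_rx : S_rx.{u}) (k : Type u) [Field k]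
    (n t r : ℕ) (a b : ℕ → ℤ) (htr : t ≤ r) (hrn : r + 1 ≤ t + n)
    (ha : ∀ i j, i ≤ j → j < r + 1 → a i ≤ a j)
    (h1 : ∀ i, 1 ≤ i → i ≤ t → b i ≤ a (i - 1)) (h2 : ∃ i, 1 ≤ i ∧ i ≤ t ∧ b i < a (i - 1))
    (d : ℤ) (hd : d ≤ a r) :
    Hnum (n + 1) (fun j : Fin (r + 1) => a j) (fun i : Fin t => b (i + 1)) d =
      Hnum (n + 1) (fun j : Fin r => a j) (fun i : Fin t => b (i + 1)) d := by
  classical
  have hcd : CD1 (fun j : Fin (r + 1) => a j) (fun i : Fin t => b (i + 1)) := fin_cd1 ha h1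
  have hcd' : CD1 (fun j : Fin r => a j) (fun i : Fin t => b (i + 1)) :=
    fin_cd1 (fun i j hij hj => ha i j hij (by omega)) h1
  set A := genMatrix k (n + 1) (fun j : Fin (r + 1) => a j) (fun i : Fin t => b (i + 1)) with hA
  have hg : Gen k (fun j : Fin (r + 1) => a j) (fun i : Fin t => b (i + 1)) A :=
    h_gm k (Fin t) (Fin (r + 1)) (n + 1) _ _
  set C := A.submatrix id (Fin.castSucc : Fin r → Fin (r + 1)) with hC
  have hgC : Gen k (fun j : Fin r => a j) (fun i : Fin t => b (i + 1)) C :=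
    (h_gs k _ (Fin t) (Fin (r + 1)) _ _).1 (n + 1) A hg (Fin t) (Fin r) id Fin.castSucc
      Function.injective_id (Fin.castSucc_injective r)
  have e1 := h_hfa k _ (n + 1) (Fin t) (Fin (r + 1)) _ _ A (by simp; omega) (by simp; omega)
    hcd hg d
  have e2 := h_hfa k _ (n + 1) (Fin t) (Fin r) _ _ C (by simpa using htr) (by simp; omega)
    hcd' hgC d
  rw [← e1, ← e2]
  have e3 := (h_hnr (n + 1) (Fin t) (Fin (r + 1)) (Fin t) (Option (Fin r))
    (fun j : Fin (r + 1) => a j) (fun i : Fin t => b (i + 1)) (Equiv.refl _)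
    (finSuccEquivLast (n := r)).symm d).2.1 _ A
  rw [← e3, sub_eq, deg_eq]
  have hEx : Ex1 A := h_e1a (n + 1) (Fin t) (Fin (r + 1)) _ _ (by simp; omega) (by simp; omega)
    hcd k _ A hg
  have hEx' : Ex1 (addCol C (fun i => A i (Fin.last r))) := by
    rw [hC, ← sub_eq]
    exact ((h_rx _ (Fin t) (Fin (r + 1)) (Fin t) (Option (Fin r)) (Equiv.refl _)
      (finSuccEquivLast (n := r)).symm A).2.2.1).2 hEx
  have hpos : ∀ e : Fin t → Fin r, Function.Injective e →
      1 ≤ ∑ i, a (e i) - ∑ i : Fin t, b (i + 1) := by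
    intro e he
    have h3 := fin_sum (fun i j hij hj => ha i j hij (Nat.lt_succ_of_lt hj)) e he
    have h4 := fin_pos h1 h2
    rw [Fintype.card_fin] at h3
    omega
  have e4 := (h_kz _ (n + 1) (Fin t) (Fin r) (fun j => a j) (fun i => b (i + 1)) C hgC.1).2
    (a r) d (fun i => A i (Fin.last r)) (fun i => hg.1 i (Fin.last r)) hEx' hpos hd
  rw [hC] at e4
  exact_mod_cast e4

theorem fin_tele (h_hfa : S_hfa.{u}) (h_kz : S_kz.{u}) (h_gm : S_gm.{u}) (h_gs : S_gs.{u})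
    (h_e1a : S_e1a.{u}) (h_hnr : S_hnr.{u}) (h_rx : S_rx.{u}) (k : Type u) [Field k]
    (n t r m : ℕ) (a b : ℕ → ℤ) (htr : t ≤ r) (hrn : r + m ≤ t + n)
    (ha : ∀ i j, i ≤ j → j < r + m → a i ≤ a j)
    (h1 : ∀ i, 1 ≤ i → i ≤ t → b i ≤ a (i - 1)) (h2 : ∃ i, 1 ≤ i ∧ i ≤ t ∧ b i < a (i - 1))
    (d : ℤ) (hd : ∀ x, r ≤ x → x < r + m → d ≤ a x) :
    Hnum (n + 1) (fun j : Fin (r + m) => a j) (fun i : Fin t => b (i + 1)) d =
      Hnum (n + 1) (fun j : Fin r => a j) (fun i : Fin t => b (i + 1)) d := by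
  induction m with
  | zero => rfl
  | succ m ih =>
    have e := fin_step h_hfa h_kz h_gm h_gs h_e1a h_hnr h_rx k n t (r + m) a b (by omega)
      (by omega) (fun i j hij hj => ha i j hij (by omega)) h1 h2 d (hd (r + m) (by omega) (by omega))
    have e2 := ih (by omega) (fun i j hij hj => ha i j hij (by omega))
      (fun x hx hx' => hd x hx (by omega))
    rw [← e2, ← e]
    rfl

theorem fin_sumK (h_hfa : S_hfa.{u}) (h_kz : S_kz.{u}) (h_gm : S_gm.{u}) (h_gs : S_gs.{u})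
    (h_e1a : S_e1a.{u}) (h_hnr : S_hnr.{u}) (h_rx : S_rx.{u}) (h_kn : S_kn)
    (k : Type u) [Field k]
    (n t c : ℕ) (a b : ℕ → ℤ) (ht : 1 ≤ t) (hc : 2 ≤ c) (hn : c ≤ n)
    (ha : ∀ i j, i ≤ j → j < t + c - 1 → a i ≤ a j)
    (h1 : ∀ i, 1 ≤ i → i ≤ t → b i ≤ a (i - 1)) (h2 : ∃ i, 1 ≤ i ∧ i ≤ t ∧ b i < a (i - 1)) :
    ∑ j : Fin (t + c - 1),
      Hnum (n + 1) (fun j : Fin (t + c - 1) => a j) (fun i : Fin t => b (i + 1)) (a j) =
      ∑ i ∈ Finset.range (c - 2), KNum n t a b i := by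
  classical
  have tele : ∀ r, t ≤ r → r ≤ t + c - 1 → ∀ d : ℤ, (∀ x, r ≤ x → x < t + c - 1 → d ≤ a x) →
      Hnum (n + 1) (fun j : Fin (t + c - 1) => a j) (fun i : Fin t => b (i + 1)) d =
      Hnum (n + 1) (fun j : Fin r => a j) (fun i : Fin t => b (i + 1)) d := by
    intro r hr1 hr2 d hd
    obtain ⟨m, hm⟩ := Nat.exists_eq_add_of_le hr2
    have := fin_tele h_hfa h_kz h_gm h_gs h_e1a h_hnr h_rx k n t r m a b hr1 (by omega)
      (fun i j hij hj => ha i j hij (by omega)) h1 h2 d (fun x hx hx' => hd x hx (by omega))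
    rw [← this, hm]
  have hz : ∀ d : ℤ, Hnum (n + 1) (fun j : Fin t => a j) (fun i : Fin t => b (i + 1)) d = 0 :=
    fun d => (h_hnr (n + 1) (Fin t) (Fin t) (Fin t) (Fin t) (fun j : Fin t => a j)
      (fun i : Fin t => b (i + 1)) (Equiv.refl _) (Equiv.refl _) d).2.2.1 (by simp)
  rw [Fin.sum_univ_eq_sum_range (fun j => Hnum (n + 1) (fun j : Fin (t + c - 1) => a j)
    (fun i : Fin t => b (i + 1)) (a j)) (t + c - 1)]
  have hsplit : t + c - 1 = (t + 1) + (c - 2) := by omega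
  rw [Finset.range_eq_Ico, ← Finset.sum_Ico_consecutive _ (Nat.zero_le (t + 1))
    (show t + 1 ≤ t + c - 1 by omega), ← Finset.range_eq_Ico]
  have hfirst : ∑ j ∈ Finset.range (t + 1),
      Hnum (n + 1) (fun j : Fin (t + c - 1) => a j) (fun i : Fin t => b (i + 1)) (a j) = 0 := by
    refine Finset.sum_eq_zero fun j hj => ?_
    have hj' := Finset.mem_range.1 hj
    rw [tele t le_rfl (by omega) (a j) (fun x hx hx' => ha j x (by omega) hx'), hz]
  rw [hfirst, zero_add, Finset.sum_Ico_eq_sum_range]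
  have hlen : t + c - 1 - (t + 1) = c - 2 := by omega
  rw [hlen]
  refine Finset.sum_congr rfl fun i hi => ?_
  have hi' := Finset.mem_range.1 hi
  rw [tele (t + 1 + i) (by omega) (by omega) (a (t + 1 + i))
    (fun x hx hx' => ha (t + 1 + i) x hx hx')]
  exact h_kn n t i a b (by omega)

end Pool.Agent.Lib.MP_09338f_ag
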