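import Mathlib
import Pool.Agent.Lib.MP_09338f_ag.KM.Fin2

/-!
# Project KM, final assembly, part 3: the dimension formula from the pieces
-/

set_option autoImplicit false

open MvPolynomial Matrix

universe u

namespace Pool.Agent.Lib.MP_09338f_ag

private theorem sumIcc {t : ℕ} (f : ℕ → ℤ) : ∑ i : Fin t, f (i + 1) = ∑ i ∈ Finset.Icc 1 t, f i := by
  rw [Fin.sum_univ_eq_sum_range (fun i => f (i + 1)) t]
  induction t with
  | zero => simp
  | succ t ih => rw [Finset.sum_range_succ, ih, Finset.sum_Icc_succ_top (by omega)]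

private theorem sumRange {r : ℕ} (f : ℕ → ℤ) : ∑ i : Fin r, f i = ∑ i ∈ Finset.range r, f i :=
  Fin.sum_univ_eq_sum_range f r

theorem fin_unit (h_reld : S_reld.{u}) {K : Type u} [Field K] {N t r : ℕ} {a b : ℕ → ℤ}
    (A : Matrix (Fin t) (Fin r) (MvPolynomial (Fin N) K))
    (hA : HomM (fun j : Fin r => a j) (fun i : Fin t => b (i + 1)) A) (hAM : AM A)
    (ha : ∀ i j, i ≤ j → j < r → a i ≤ a j)
    (h1 : ∀ i, 1 ≤ i → i ≤ t → b i ≤ a (i - 1)) (h2 : ∃ i, 1 ≤ i ∧ i ≤ t ∧ b i < a (i - 1)) :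
    ∃ i, (Pi.single i 1 : Fin t → MvPolynomial (Fin N) K) ∉ Im A := by
  classical
  by_contra hcon
  push Not at hcon
  have h3 : (1 : MvPolynomial (Fin N) K) ∈ mins A := hAM 1 hcon
  have h4 : mins A ≤ RingHom.ker (constantCoeff : MvPolynomial (Fin N) K →+* K) := by
    unfold mins
    rw [Ideal.span_le]
    rintro _ ⟨e, rfl⟩
    rw [SetLike.mem_coe, RingHom.mem_ker]
    change constantCoeff (A.submatrix id e).det = 0
    by_cases he : Function.Injective e
    · have h5 := (h_reld K N (Fin t) (Fin r) _ _ A hA).2.1 e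
      have h6 := fin_sum ha e he
      have h7 := fin_pos h1 h2
      rw [Fintype.card_fin] at h6
      by_contra hne
      have h8 : (0 : Fin N →₀ ℕ) ∈ (A.submatrix id e).det.support := by
        rw [mem_support_iff]; exact hne
      have h9 := h5 0 h8
      simp only [map_zero, Nat.cast_zero] at h9
      omega
    · rw [Function.Injective] at he
      push Not at he
      obtain ⟨x, y, hxy, hne⟩ := he
      rw [Matrix.det_zero_of_column_eq (M := A.submatrix id e) hne
        (fun i => by simp [hxy]), map_zero]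
  have h5 := h4 h3
  rw [RingHom.mem_ker, map_one] at h5
  exact one_ne_zero h5

/-- The field of the generic matrix. -/
abbrev KF (k : Type u) [Field k] (n t c : ℕ) (a b : ℕ → ℤ) : Type u :=
  GenField k (n + 1) (fun j : Fin (t + c - 1) => a j) (fun i : Fin t => b (i + 1))

/-- The transcendence degree of the field of rational functions. -/
theorem fin_trdeg (k : Type u) [Field k] (ι : Type) [Finite ι] :
    Algebra.trdeg k (FractionRing (MvPolynomial ι k)) = Nat.card ι := by
  have : Algebra.IsAlgebraic (MvPolynomial ι k) (FractionRing (MvPolynomial ι k)) :=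
    IsLocalization.isAlgebraic _ (nonZeroDivisors (MvPolynomial ι k))
  have h1 := trdeg_add_eq (R := k) (S := MvPolynomial ι k)
    (A := FractionRing (MvPolynomial ι k))
  have h2 : Algebra.trdeg (MvPolynomial ι k) (FractionRing (MvPolynomial ι k)) = 0 :=
    trdeg_eq_zero
  rw [h2, add_zero, MvPolynomial.trdeg_of_isDomain] at h1
  rw [← h1]
  have : Fintype ι := Fintype.ofFinite ι
  simp [Cardinal.mk_fintype]

theorem fin_main (h_gm : S_gm.{u}) (h_gs : S_gs.{u}) (h_e1a : S_e1a.{u}) (h_rx : S_rx.{u})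
    (h_reld : S_reld.{u}) (h_ama : S_ama.{u}) (h_ena : S_ena.{u}) (h_tpa : S_tpa.{u})
    (h_tpz : S_tpz.{u}) (h_mon : S_mon.{u}) (h_rkn : S_rkn.{u}) (h_stb : S_stb.{u})
    (h_hnr : S_hnr.{u}) (h_hfa : S_hfa.{u}) (h_kz : S_kz.{u}) (h_kn : S_kn) (h_fod : S_fod.{u})
    (h_low : S_low.{u}) (h_upp : S_upp.{u})
    (k : Type u) [Field k] [PerfectField k] (n t c : ℕ) (a b : ℕ → ℤ)
    (ht : 1 ≤ t) (hc : 2 ≤ c) (hn : c ≤ n)
    (ha : ∀ i j, i ≤ j → j ≤ t + c - 2 → a i ≤ a j)
    (hne : (∀ i, 1 ≤ i → i ≤ t → b i ≤ a (i - 1)) ∧ ∃ i, 1 ≤ i ∧ i ≤ t ∧ b i < a (i - 1))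
    (hw : ∀ i, 2 ≤ i → i ≤ t → (c < n → b i ≤ a (i - 2)) ∧ (n = c → b i < a (i - 2)))
    (hw0 : n = c → b 1 < a 0)
    (hex : ¬ (t = 2 ∧ n = c ∧ 3 ≤ c ∧ b 1 = b 2 ∧ ∀ j ≤ t + c - 2, a j = b 1 + 1)) :
    DefinedOver (mins (genMatrix k (n + 1) (fun j : Fin (t + c - 1) => a j)
      (fun i : Fin t => b (i + 1))))
      (fieldOfDef k (mins (genMatrix k (n + 1) (fun j : Fin (t + c - 1) => a j)
      (fun i : Fin t => b (i + 1))))) ∧
    ∃ d : ℕ, Algebra.trdeg k (fieldOfDef k (mins (genMatrix k (n + 1)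
      (fun j : Fin (t + c - 1) => a j) (fun i : Fin t => b (i + 1))))) = d ∧
      (d : ℤ) = lam n t c a b + ∑ i ∈ Finset.range (c - 2), KNum n t a b i := by
  classical
  obtain ⟨h1, h2⟩ := hne
  have ha' : ∀ i j, i ≤ j → j < t + c - 1 → a i ≤ a j := fun i j hij hj => ha i j hij (by omega)
  have hcd1 : CD1 (fun j : Fin (t + c - 1) => a j) (fun i : Fin t => b (i + 1)) :=
    fin_cd1 ha' h1
  set A := genMatrix k (n + 1) (fun j : Fin (t + c - 1) => a j) (fun i : Fin t => b (i + 1))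
    with hA
  have hg : Gen k (fun j : Fin (t + c - 1) => a j) (fun i : Fin t => b (i + 1)) A :=
    h_gm k (Fin t) (Fin (t + c - 1)) (n + 1) _ _
  -- the conditions
  have hcd2 : CD2 (fun j : Fin (t + c - 1) => a j) (fun i : Fin t => b (i + 1)) := by
    refine fin_cd2 ha' (fun h => by simpa using h1 1 le_rfl h) ?_
    intro i hi hit
    rcases Nat.lt_or_ge c n with hlt | hge
    · exact (hw i hi hit).1 hlt
    · exact ((hw i hi hit).2 (le_antisymm hge hn)).le
  have hTP : TP (fun j : Fin (t + c - 1) => a j) (fun i : Fin t => b (i + 1)) A := by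
    rcases Nat.lt_or_ge c n with hlt | hge
    · exact h_tpa (n + 1) (Fin t) (Fin (t + c - 1)) _ _ (by simp; omega) (by simp; omega)
        hcd2 k _ A hg
    · have hnc : n = c := le_antisymm hge hn
      refine h_tpz (n + 1) (Fin t) (Fin (t + c - 1)) _ _ (by simp; omega) (by simp; omega)
        (fin_cd3 ha' (fun _ => hw0 hnc) (fun i hi hit => (hw i hi hit).2 hnc)) ?_ k _ A hg
      rintro ⟨hI, hJ, β, hβ1, hβ2⟩
      rw [Fintype.card_fin] at hI hJ
      apply hex
      have hb1 : b 1 = β := by simpa using hβ1 ⟨0, by omega⟩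
      have hb2 : b 2 = β := by simpa using hβ1 ⟨1, by omega⟩
      refine ⟨hI, hnc, by omega, by rw [hb1, hb2], fun j hj => ?_⟩
      rw [hb1]
      simpa using hβ2 ⟨j, by omega⟩
  have hEx : Ex1 A := h_e1a (n + 1) (Fin t) (Fin (t + c - 1)) _ _ (by simp; omega)
    (by simp; omega) hcd1 k _ A hg
  have hAM : AM A := h_ama (n + 1) (Fin t) (Fin (t + c - 1)) _ _ (by simp; omega)
    (by simp; omega) hcd1 k _ A hg
  have hun := fin_unit h_reld A hg.1 hAM ha' h1 h2
  have hHP : HP (fun i : Fin t => b (i + 1)) A (fun _ e => e.elim :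
      Matrix (Fin t) Empty (MvPolynomial (Fin (n + 1)) _)) := by
    refine h_ena (n + 1) (Fin t) (Fin (t + c - 1)) _ _ (by simp; omega) (by simp; omega) hcd2 k _
      A _ ?_
    have h3 := (h_gs k _ (Fin t) (Fin (t + c - 1)) _ _).1 (n + 1) A hg (Fin t)
      (Fin (t + c - 1) ⊕ Empty) id (Equiv.sumEmpty (Fin (t + c - 1)) Empty)
      Function.injective_id (Equiv.injective _)
    have e1 : (Sum.elim (fun j : Fin (t + c - 1) => a j) (fun e : Empty => e.elim)) =
        (fun j : Fin (t + c - 1) => a j) ∘ (Equiv.sumEmpty (Fin (t + c - 1)) Empty) := by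
      funext q
      rcases q with q | q
      · rfl
      · exact q.elim
    have e2 : (A.fromCols (fun _ e => e.elim : Matrix (Fin t) Empty
        (MvPolynomial (Fin (n + 1)) (GenField k (n + 1) (fun j : Fin (t + c - 1) => a j)
          (fun i : Fin t => b (i + 1)))))) =
        A.submatrix id (Equiv.sumEmpty (Fin (t + c - 1)) Empty) := by
      funext i q
      rcases q with q | q
      · rfl
      · exact q.elim
    rw [e1, e2]
    exact h3
  have hst := h_stb (n + 1) _ (Fin t) (Fin (t + c - 1)) _ _ A hg.1 hHP hun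
  have hrk := h_rkn (n + 1) _ (Fin t) (Fin (t + c - 1)) (fun j : Fin (t + c - 1) => a j)
    (fun i : Fin t => b (i + 1)) A
  -- the kernel in the degrees `b_i`
  have hker : ∀ i : Fin t, kerD (fun j : Fin (t + c - 1) => a j) A (b (i + 1)) = ⊥ := by
    intro i
    refine (h_kz _ (n + 1) (Fin t) (Fin (t + c - 1)) _ _ A hg.1).1 _ hEx fun y hy => ?_
    have h3 := fin_sum ha' y hy
    have h4 := fin_pos h1 h2
    rw [Fintype.card_option, Fintype.card_fin, Finset.sum_range_succ] at h3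
    have h5 := h1 (i + 1) (by omega) (by omega)
    have h6 : (i : ℕ) + 1 - 1 = i := by omega
    rw [h6] at h5
    have h7 := ha i t (by omega) (by omega)
    omega
  have himg : ∀ i : Fin t, (Module.finrank (KF k n t c a b)
      (imgD (fun j : Fin (t + c - 1) => a j) A (b (i + 1))) : ℤ) =
      ∑ j : Fin (t + c - 1), bin (b (i + 1) - a j + n) n := by
    intro i
    have h3 := hrk.1 (b (i + 1))
    rw [hker i, finrank_bot, add_zero] at h3
    rw [h3, Nat.cast_sum]
    refine Finset.sum_congr rfl fun j _ => ?_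
    rw [h_mon.2.2.2.2.2 n _ (by omega)]
  have hkerK : (∑ j : Fin (t + c - 1), Module.finrank (KF k n t c a b)
      (kerD (fun j : Fin (t + c - 1) => a j) A (a j)) : ℤ) =
      ∑ i ∈ Finset.range (c - 2), KNum n t a b i := by
    rw [← fin_sumK h_hfa h_kz h_gm h_gs h_e1a h_hnr h_rx h_kn k n t c a b ht hc hn ha' h1 h2]
    refine Finset.sum_congr rfl fun j _ => ?_
    exact h_hfa k _ (n + 1) (Fin t) (Fin (t + c - 1)) _ _ A (by simp; omega) (by simp; omega)
      hcd1 hg (a j)
  -- transcendence degrees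
  have hfin : Finite (Coef (n + 1) (fun j : Fin (t + c - 1) => a j)
      (fun i : Fin t => b (i + 1))) := (h_mon.2.2.2.1 _ _ _ _ _).1
  have hcard := (h_mon.2.2.2.1 (n + 1) (Fin t) (Fin (t + c - 1)) (fun j => a j)
    (fun i => b (i + 1))).2
  obtain ⟨w, hw⟩ : ∃ w : ℕ, Algebra.trdeg k (fieldOfDef k (mins A)) = w := by
    have h3 := trdeg_le_of_injective (R := k) (fieldOfDef k (mins A)).val
      (fieldOfDef k (mins A)).val.injective
    rw [fin_trdeg] at h3
    exact Cardinal.lt_aleph0.1 (lt_of_le_of_lt h3 Cardinal.natCast_lt_aleph0)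
  have hdef := (h_fod k _ (n + 1) (mins A)).1
  refine ⟨hdef, w, hw, ?_⟩
  have hlo := h_low k (n + 1) (Fin t) (Fin (t + c - 1)) _ _ (fieldOfDef k (mins A)) w hTP hdef hw
  have hup := h_upp k (n + 1) (Fin t) (Fin (t + c - 1)) _ _ w hw
  rw [← hA] at hlo hup
  have hrk2 := hrk.2
  -- sums
  have s1 : (Nat.card (Coef (n + 1) (fun j : Fin (t + c - 1) => a j)
      (fun i : Fin t => b (i + 1))) : ℤ) =
      ∑ i ∈ Finset.range (t + c - 1), ∑ j ∈ Finset.Icc 1 t, bin (a i - b j + n) n := by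
    rw [hcard, Nat.cast_sum, Finset.sum_comm (s := Finset.range (t + c - 1)) (t := Finset.Icc 1 t), ← sumIcc]
    refine Finset.sum_congr rfl fun i _ => ?_
    rw [Nat.cast_sum, ← sumRange]
    refine Finset.sum_congr rfl fun j _ => ?_
    rw [h_mon.2.2.2.2.2 n _ (by omega)]
  have s2 : ((∑ i : Fin t, Module.finrank (KF k n t c a b)
      (imgD (fun j : Fin (t + c - 1) => a j) A (b (i + 1))) : ℕ) : ℤ) =
      ∑ i ∈ Finset.range (t + c - 1), ∑ j ∈ Finset.Icc 1 t, bin (b j - a i + n) n := by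
    rw [Nat.cast_sum, Finset.sum_comm (s := Finset.range (t + c - 1)) (t := Finset.Icc 1 t), ← sumIcc]
    refine Finset.sum_congr rfl fun i _ => ?_
    rw [himg i, ← sumRange (fun j => bin (b (i + 1) - a j + n) n)]
  have s3 : ((∑ j : Fin (t + c - 1), ∑ j' : Fin (t + c - 1),
      mon (n + 1) (a j' - a j) : ℕ) : ℤ) =
      ∑ i ∈ Finset.range (t + c - 1), ∑ j ∈ Finset.range (t + c - 1), bin (a i - a j + n) n := by
    rw [Nat.cast_sum, Finset.sum_comm, ← sumRange]
    refine Finset.sum_congr rfl fun i _ => ?_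
    rw [Nat.cast_sum, ← sumRange]
    refine Finset.sum_congr rfl fun j _ => ?_
    rw [h_mon.2.2.2.2.2 n _ (by omega)]
  have s4 : ((∑ i : Fin t, ∑ i' : Fin t, mon (n + 1) (b (i' + 1) - b (i + 1)) : ℕ) : ℤ) =
      ∑ i ∈ Finset.Icc 1 t, ∑ j ∈ Finset.Icc 1 t, bin (b i - b j + n) n := by
    rw [Nat.cast_sum, Finset.sum_comm, ← sumIcc]
    refine Finset.sum_congr rfl fun i _ => ?_
    rw [Nat.cast_sum, ← sumIcc]
    refine Finset.sum_congr rfl fun j _ => ?_
    rw [h_mon.2.2.2.2.2 n _ (by omega)]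
  have s5 : ((∑ j : Fin (t + c - 1), Module.finrank (KF k n t c a b)
      (kerD (fun j : Fin (t + c - 1) => a j) A (a j)) : ℕ) : ℤ) =
      ∑ i ∈ Finset.range (c - 2), KNum n t a b i := by
    rw [← hkerK, Nat.cast_sum]
  unfold lam
  rw [← s1, ← s2, ← s3, ← s4, ← s5]
  zify at hlo hup hrk2 hst ⊢
  linarith

end Pool.Agent.Lib.MP_09338f_ag
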