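import Pool.Agent.Lib.MP_09338f_ag.KM.Stm3

set_option autoImplicit false

/-!
# [ama] `AM` for generic matrices
-/

open MvPolynomial Matrix

universe u

namespace Pool.Agent.Lib.MP_09338f_ag

private theorem ama_cd {I J : Type} [Fintype I] [DecidableEq I] [Fintype J] [DecidableEq J]
    (a : J → ℤ) (b : I → ℤ) (α : ℤ) (hα : ∀ i, b i ≤ α) (h : CD1 a b) :
    CD1 (oext a α) b := by
  intro i
  refine le_trans ?_ (h i)
  have h1 : (Finset.univ.filter fun j : Option J => oext a α j < b i) =
      (Finset.univ.filter fun j => a j < b i).map Function.Embedding.some := by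
    ext j
    rw [Finset.mem_filter, Finset.mem_map]
    simp only [Finset.mem_univ, true_and, Finset.mem_filter]
    rcases j with _ | j
    · constructor
      · intro h2
        exact absurd h2 (not_lt.2 (hα i))
      · rintro ⟨j', -, h2⟩
        exact absurd h2 (Option.some_ne_none j')
    · constructor
      · intro h2
        exact ⟨j, h2, rfl⟩
      · rintro ⟨j', h2, h3⟩
        rw [Function.Embedding.some_apply, Option.some_inj] at h3
        rw [← h3]
        exact h2
  rw [h1, Finset.card_map]

theorem p_ama (h_spa : S_spa.{u}) (h_ann : S_ann.{u}) (h_e1a : S_e1a.{u}) (h_gm : S_gm.{u})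
    (h_gs : S_gs.{u}) : S_ama.{u} := by
  intro N I J _ _ _ _ a b h1 h2 hcd k K _ _ _ A hA
  set α : ℤ := ∑ i, |b i| with hα
  have hαb : ∀ i, b i ≤ α := fun i => (le_abs_self _).trans
    (Finset.single_le_sum (f := fun i => |b i|) (fun _ _ => abs_nonneg _) (Finset.mem_univ i))
  have hG := h_gm k I (Option J) N (oext a α) b
  set U := genMatrix k N (oext a α) b with hU
  have hG0 : Gen k a b (U.submatrix id some) :=
    (h_gs k (GenField k N (oext a α) b) I (Option J) (oext a α) b).1 N U hG I J id some
      Function.injective_id (Option.some_injective J)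
  have hE1 : Ex1 U := h_e1a N I (Option J) (oext a α) b
    (by rw [Fintype.card_option]; omega) (by rw [Fintype.card_option]; omega)
    (ama_cd a b α hαb hcd) k _ U hG
  have hE0 : Ex1 (U.submatrix id some) := h_e1a N I J a b h1 (by omega) hcd k _ _ hG0
  have hadd : addCol (U.submatrix id some) (fun i => U i none) = U := by
    ext i j : 2
    rcases j with _ | j <;> rfl
  have hAM : AM (U.submatrix id some) := by
    intro y hy
    refine h_ann _ I J (U.submatrix id some) (fun i => U i none) (by rw [hadd]; exact hE1) y ?_
    have h3 : y • (fun i => U i none) = ∑ i, (U i none) • (Pi.single i y : I → _) := by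
      ext i : 1
      rw [Finset.sum_apply, Finset.sum_eq_single i]
      · simp [mul_comm]
      · intro i' _ hne
        simp [hne.symm]
      · intro h
        exact absurd (Finset.mem_univ i) h
    rw [h3]
    exact Submodule.sum_mem _ fun i _ => Submodule.smul_mem _ _ (hy i)
  exact h_spa k (GenField k N (oext a α) b) K I J N a b (U.submatrix id some) A hG0.1 hE0 hAM hA

end Pool.Agent.Lib.MP_09338f_ag
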