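import Mathlib
import Pool.Agent.Lib.MP_09338f_ag.KM.Stm1

/-!
# MP_09338f_ag, project KM, piece [ann]: the annihilator of the class of the additional column.
-/

set_option autoImplicit false

open MvPolynomial Matrix

universe u

namespace Pool.Agent.Lib.MP_09338f_ag

/-- A square matrix over `Option I` whose row `none` is `(1, 0, …, 0)`. -/
private lemma ann_det {R : Type u} [CommRing R] {I : Type} [Fintype I] [DecidableEq I]
    (M : Matrix (Option I) (Option I) R) (h1 : M none none = 1) (h0 : ∀ i, M none (some i) = 0) :
    M.det = (Matrix.of fun i i' : I => M (some i) (some i')).det := by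
  have h := Matrix.det_submatrix_equiv_self (Equiv.optionEquivSumPUnit.{0} I).symm M
  rw [← h]
  have hb : M.submatrix (Equiv.optionEquivSumPUnit.{0} I).symm (Equiv.optionEquivSumPUnit.{0} I).symm
      = Matrix.fromBlocks (Matrix.of fun i i' : I => M (some i) (some i'))
          (Matrix.of fun (i : I) (_ : PUnit.{1}) => M (some i) none) 0
          (1 : Matrix PUnit.{1} PUnit.{1} R) := by
    ext i j
    rcases i with i | i <;> rcases j with j | j
    · simp
    · simp
    · simp [h0]
    · simp [h1]
  rw [hb, Matrix.det_fromBlocks_zero₂₁]
  simp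

private lemma ann_gen {R : Type u} [CommRing R] {I J : Type} [Fintype I] [DecidableEq I]
    [Fintype J] [DecidableEq J] (h_rel : S_rel.{u}) (C : Matrix I J R) (w : I → R)
    (z : Option I → Option J) : rel (addCol C w) z none ∈ mins C := by
  by_cases hinj : Function.Injective z
  swap
  · rw [(h_rel R I (Option J)).2.1 (addCol C w) z hinj]
    exact (mins C).zero_mem
  by_cases hs : ∃ s₀, z s₀ = none
  swap
  · have h0 : rel (addCol C w) z none = 0 := by
      unfold rel
      apply Matrix.det_eq_zero_of_row_eq_zero none
      intro s
      have : z s ≠ none := fun h => hs ⟨s, h⟩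
      simp [this]
    rw [h0]
    exact (mins C).zero_mem
  obtain ⟨s₀, hs₀⟩ := hs
  -- the permutation which moves `s₀` to `none`
  set σ : Equiv.Perm (Option I) := Equiv.swap none s₀ with hσ
  set M : Matrix (Option I) (Option I) R := Matrix.of fun (r s : Option I) =>
    r.elim (if z s = none then (1 : R) else 0) fun i => (addCol C w) i (z s) with hM
  have hσn : σ none = s₀ := by simp [hσ]
  have hne : ∀ i, z (σ (some i)) ≠ none := by
    intro i h
    have h1 : σ (some i) = s₀ := hinj (h.trans hs₀.symm)
    have h2 : σ (some i) = σ none := h1.trans hσn.symm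
    have h3 := σ.injective h2
    exact Option.some_ne_none i h3
  choose e he using fun i => Option.ne_none_iff_exists'.mp (hne i)
  have hdet : (M.submatrix id σ).det = (C.submatrix id e).det := by
    rw [ann_det]
    · congr 1
      ext i i'
      simp [hM, he, addCol]
    · simp [hM, hσn, hs₀]
    · intro i
      simp [hM, hne i]
  have hperm := Matrix.det_permute' σ M
  have hMd : M.det = ((Equiv.Perm.sign σ : ℤ) : R) * (C.submatrix id e).det := by
    rw [← hdet, hperm, ← mul_assoc]
    have : ((Equiv.Perm.sign σ : ℤ) : R) * ((Equiv.Perm.sign σ : ℤ) : R) = 1 := by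
      rw [← Int.cast_mul, ← Units.val_mul, Int.units_mul_self]
      simp
    rw [this, one_mul]
  have hrel : rel (addCol C w) z none = M.det := rfl
  rw [hrel, hMd]
  exact (mins C).mul_mem_left _ (Ideal.subset_span ⟨e, rfl⟩)

/-- [ann] The annihilator of the class of the additional column. -/
theorem p_ann (h_rel : S_rel.{u}) : S_ann.{u} := by
  intro R _ I J _ _ _ _ C w hE y hy
  obtain ⟨u, hu⟩ := hy
  have hx : (addCol C w).mulVec (fun j : Option J => j.elim y fun j => - u j) = 0 := by
    funext i
    have hi := congrFun hu i
    simp only [Matrix.mulVecLin_apply, Matrix.mulVec, dotProduct, Pi.smul_apply, smul_eq_mul] at hi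
    simp only [Matrix.mulVec, dotProduct, addCol, Fintype.sum_option, Option.elim_none,
      Option.elim_some, mul_neg, Finset.sum_neg_distrib, Pi.zero_apply]
    rw [hi]
    ring
  have hmem := hE _ hx
  have key : ∀ v ∈ Submodule.span R (Set.range (rel (addCol C w))), v none ∈ mins C := by
    intro v hv
    induction hv using Submodule.span_induction with
    | mem v hv =>
      obtain ⟨z, rfl⟩ := hv
      exact ann_gen h_rel C w z
    | zero => exact (mins C).zero_mem
    | add v v' _ _ h1 h2 => exact (mins C).add_mem h1 h2
    | smul c v _ h1 => exact (mins C).mul_mem_left c h1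
  exact key _ hmem

end Pool.Agent.Lib.MP_09338f_ag
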