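import Pool.Agent.Lib.MP_09338f_ag.KM.Stm1

/-!
# Project KM, piece [annu]: the annihilator of the class of a unit vector
-/

set_option autoImplicit false

open MvPolynomial Matrix

universe u

namespace Pool.Agent.Lib.MP_09338f_ag

/-- Expansion: `∑_j v j * rel A y j` is the determinant with the row `none` equal to
`(v (y s))_s`. -/
private theorem annu_sum {I J : Type} {R : Type u} [Fintype I] [DecidableEq I] [Fintype J]
    [DecidableEq J] [CommRing R] (A : Matrix I J R) (y : Option I → J) (v : J → R) :
    ∑ j, v j * rel A y j =
      (Matrix.of fun (r s : Option I) => r.elim (v (y s)) fun i => A i (y s)).det := by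
  have key : ∀ w : Option I → R,
      (Matrix.of fun (r s : Option I) => r.elim (w s) fun i => A i (y s)).det =
        Matrix.cramer (Matrix.of fun (r s : Option I) => r.elim (0 : R) fun i => A i (y s))ᵀ
          w none := by
    intro w
    rw [Matrix.cramer_transpose_apply]
    congr 1
    ext r s
    cases r with
    | none => rw [Matrix.updateRow_self]; rfl
    | some i => rw [Matrix.updateRow_ne (Option.some_ne_none i)]; rfl
  have h1 : (fun s => v (y s)) =
      ∑ j, v j • (fun s => if y s = j then (1 : R) else 0) := by
    funext s
    rw [Finset.sum_apply]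
    simp only [Pi.smul_apply, smul_eq_mul, mul_ite, mul_one, mul_zero]
    rw [Finset.sum_ite_eq]
    simp
  rw [key (fun s => v (y s)), h1, map_sum, Finset.sum_apply]
  refine Finset.sum_congr rfl fun j _ => ?_
  rw [map_smul, Pi.smul_apply, smul_eq_mul, ← key]
  rfl

theorem p_annu : S_annu.{u} := by
  intro R _ I J _ _ _ _ D hE y hy
  obtain ⟨u, hu⟩ := hy
  rw [Matrix.mulVecLin_apply] at hu
  have h0 : (D.submatrix some id).mulVec u = 0 := by
    funext i
    have h := congrFun hu (some i)
    rw [Pi.single_eq_of_ne (Option.some_ne_none i)] at h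
    exact h
  have hn : ∑ j, D none j * u j = y := by
    have h := congrFun hu none
    rw [Pi.single_eq_same] at h
    exact h
  rw [← hn]
  have hmem := hE u h0
  let φ : (J → R) →ₗ[R] R := ∑ j, D none j • LinearMap.proj j
  have hφ : ∀ x : J → R, φ x = ∑ j, D none j * x j := by
    intro x
    simp [φ, LinearMap.sum_apply]
  rw [← hφ]
  have hle : Submodule.span R (Set.range (rel (D.submatrix some id))) ≤
      Submodule.comap φ (mins D) := by
    rw [Submodule.span_le]
    rintro _ ⟨z, rfl⟩
    rw [SetLike.mem_coe, Submodule.mem_comap, hφ, annu_sum]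
    refine Ideal.subset_span ⟨z, congrArg Matrix.det ?_⟩
    ext r s
    cases r with
    | none => rfl
    | some i => rfl
  exact hle hmem

end Pool.Agent.Lib.MP_09338f_ag
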