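import Pool.Agent.Lib.MP_09338f_ag.KM.Stm5

/-! # Project KM, piece bcs: base change for the spaces `stabS` -/

set_option autoImplicit false

open MvPolynomial Matrix

universe u

namespace Pool.Agent.Lib.MP_09338f_ag

private theorem bcs_mem {K : Type u} [Field K] {N : ℕ} {I J : Type} [Fintype I] [DecidableEq I]
    [Fintype J] [DecidableEq J] {a : J → ℤ} {b : I → ℤ}
    {A A' : Matrix I J (MvPolynomial (Fin N) K)}
    {p : Matrix I I (MvPolynomial (Fin N) K) × Matrix J J (MvPolynomial (Fin N) K)} :
    p ∈ stabS a b A A' ↔ ((∀ i i', HomD (b i' - b i) (p.1 i i')) ∧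
      ∀ j j', HomD (a j' - a j) (p.2 j j')) ∧ p.1 * A = A' * p.2 := by
  rw [stabS, Submodule.mem_inf, Submodule.mem_prod, LinearMap.mem_ker]
  have h1 : comm A A' p = 0 ↔ p.1 * A = A' * p.2 := by
    change p.1 * A - A' * p.2 = 0 ↔ _
    rw [sub_eq_zero]
  rw [h1]
  have h2 : p.1 ∈ matS N K b b ↔ ∀ i i', HomD (b i' - b i) (p.1 i i') := by
    exact ⟨fun h i i' => h i (Set.mem_univ _) i' (Set.mem_univ _), fun h i _ i' _ => h i i'⟩
  have h3 : p.2 ∈ matS N K a a ↔ ∀ i i', HomD (a i' - a i) (p.2 i i') := by
    exact ⟨fun h i i' => h i (Set.mem_univ _) i' (Set.mem_univ _), fun h i _ i' _ => h i i'⟩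
  rw [h2, h3]

section

variable {L K' : Type u} [Field L] [Field K'] [Algebra L K'] {N : ℕ}

/-- Apply a linear functional to the coefficients. -/
private noncomputable def bcs_cw (φ : K' →ₗ[L] L) (f : MvPolynomial (Fin N) K') :
    MvPolynomial (Fin N) L :=
  ∑ m ∈ f.support, monomial m (φ (f.coeff m))

private theorem bcs_coeff (φ : K' →ₗ[L] L) (f : MvPolynomial (Fin N) K') (m : Fin N →₀ ℕ) :
    (bcs_cw φ f).coeff m = φ (f.coeff m) := by
  classical
  rw [bcs_cw, coeff_sum]
  simp only [coeff_monomial]
  rw [Finset.sum_ite_eq']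
  split_ifs with h
  · rfl
  · rw [notMem_support_iff] at h
    rw [h, map_zero]

private theorem bcs_hom {d : ℤ} {f : MvPolynomial (Fin N) K'} (hf : HomD d f) (φ : K' →ₗ[L] L) :
    HomD d (bcs_cw φ f) := by
  intro m hm
  refine hf m ?_
  rw [mem_support_iff] at hm ⊢
  rw [bcs_coeff] at hm
  intro h
  exact hm (by rw [h, map_zero])

omit [Algebra L K'] in
private theorem bcs_homMap {d : ℤ} {f : MvPolynomial (Fin N) L} (hf : HomD d f) (σ : L →+* K') :
    HomD d (MvPolynomial.map σ f) := by
  intro m hm
  refine hf m ?_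
  rw [mem_support_iff] at hm ⊢
  rw [coeff_map] at hm
  intro h
  exact hm (by rw [h, map_zero])

private theorem bcs_mul_right (φ : K' →ₗ[L] L) (f : MvPolynomial (Fin N) K')
    (g : MvPolynomial (Fin N) L) :
    bcs_cw φ (f * MvPolynomial.map (algebraMap L K') g) = bcs_cw φ f * g := by
  classical
  ext m
  rw [bcs_coeff, coeff_mul, coeff_mul, map_sum]
  refine Finset.sum_congr rfl fun x _ => ?_
  rw [coeff_map, bcs_coeff, mul_comm (f.coeff x.1), ← Algebra.smul_def, map_smul, smul_eq_mul,
    mul_comm]

private theorem bcs_mul_left (φ : K' →ₗ[L] L) (f : MvPolynomial (Fin N) K')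
    (g : MvPolynomial (Fin N) L) :
    bcs_cw φ (MvPolynomial.map (algebraMap L K') g * f) = g * bcs_cw φ f := by
  rw [mul_comm, bcs_mul_right, mul_comm]

private theorem bcs_add (φ : K' →ₗ[L] L) (f g : MvPolynomial (Fin N) K') :
    bcs_cw φ (f + g) = bcs_cw φ f + bcs_cw φ g := by
  ext m
  rw [bcs_coeff, coeff_add, coeff_add, bcs_coeff, bcs_coeff, map_add]

private theorem bcs_zero (φ : K' →ₗ[L] L) : bcs_cw φ (0 : MvPolynomial (Fin N) K') = 0 := by
  ext m
  rw [bcs_coeff, coeff_zero, coeff_zero, map_zero]

private theorem bcs_sum {X : Type} (φ : K' →ₗ[L] L) (s : Finset X)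
    (f : X → MvPolynomial (Fin N) K') :
    bcs_cw φ (∑ x ∈ s, f x) = ∑ x ∈ s, bcs_cw φ (f x) := by
  classical
  induction s using Finset.induction_on with
  | empty => rw [Finset.sum_empty, Finset.sum_empty, bcs_zero]
  | insert x s hx ih => rw [Finset.sum_insert hx, Finset.sum_insert hx, bcs_add, ih]

variable {I J : Type} [Fintype I] [DecidableEq I] [Fintype J] [DecidableEq J]

/-- The coordinate pair is in `stabS` over `L`. -/
private theorem bcs_coord_mem {a : J → ℤ} {b : I → ℤ}
    {A A' : Matrix I J (MvPolynomial (Fin N) L)}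
    {p : Matrix I I (MvPolynomial (Fin N) K') × Matrix J J (MvPolynomial (Fin N) K')}
    (hp : p ∈ stabS a b (extM (algebraMap L K') A) (extM (algebraMap L K') A'))
    (φ : K' →ₗ[L] L) :
    ((p.1.map (bcs_cw φ), p.2.map (bcs_cw φ)) :
      Matrix I I (MvPolynomial (Fin N) L) × Matrix J J (MvPolynomial (Fin N) L)) ∈
      stabS a b A A' := by
  rw [bcs_mem] at hp ⊢
  obtain ⟨⟨h1, h2⟩, h3⟩ := hp
  refine ⟨⟨fun i i' => bcs_hom (h1 i i') φ, fun j j' => bcs_hom (h2 j j') φ⟩, ?_⟩
  ext1 i j
  have h4 := congrFun (congrFun h3 i) j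
  rw [Matrix.mul_apply, Matrix.mul_apply] at h4 ⊢
  have h5 := congrArg (bcs_cw φ) h4
  rw [bcs_sum, bcs_sum] at h5
  simp only [extM, Matrix.map_apply, bcs_mul_right, bcs_mul_left] at h5
  simpa only [Matrix.map_apply] using h5

omit [Algebra L K'] in
private theorem bcs_ext_mem {a : J → ℤ} {b : I → ℤ}
    {A A' : Matrix I J (MvPolynomial (Fin N) L)}
    {p : Matrix I I (MvPolynomial (Fin N) L) × Matrix J J (MvPolynomial (Fin N) L)}
    (hp : p ∈ stabS a b A A') (σ : L →+* K') :
    ((extM σ p.1, extM σ p.2) :
      Matrix I I (MvPolynomial (Fin N) K') × Matrix J J (MvPolynomial (Fin N) K')) ∈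
      stabS a b (extM σ A) (extM σ A') := by
  rw [bcs_mem] at hp ⊢
  obtain ⟨⟨h1, h2⟩, h3⟩ := hp
  refine ⟨⟨fun i i' => bcs_homMap (h1 i i') σ, fun j j' => bcs_homMap (h2 j j') σ⟩, ?_⟩
  change extM σ p.1 * extM σ A = extM σ A' * extM σ p.2
  rw [extM, extM, extM, extM, ← Matrix.map_mul, ← Matrix.map_mul, h3]

/-- The expansion of a polynomial in a basis. -/
private theorem bcs_expand {B : Type u} (ε : Module.Basis B L K') (f : MvPolynomial (Fin N) K')
    (s : Finset B) (hs : ∀ m, (ε.repr (f.coeff m)).support ⊆ s) :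
    f = ∑ l ∈ s, ε l • MvPolynomial.map (algebraMap L K') (bcs_cw (ε.coord l) f) := by
  ext m
  rw [coeff_sum]
  have h1 := ε.linearCombination_repr (f.coeff m)
  rw [Finsupp.linearCombination_apply, Finsupp.sum_of_support_subset _ (hs m) _ (by simp)] at h1
  rw [← h1]
  refine Finset.sum_congr rfl fun l _ => ?_
  rw [coeff_smul, coeff_map, bcs_coeff, Module.Basis.coord_apply, Algebra.smul_def, smul_eq_mul,
    mul_comm]

end

theorem p_bcs : S_bcs.{u} := by
  intro L K' _ _ _ N I J _ _ _ _ a b A A'
  classical
  have hspan : stabS a b (extM (algebraMap L K') A) (extM (algebraMap L K') A') =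
      Submodule.span K' ((fun p => (extM (algebraMap L K') p.1, extM (algebraMap L K') p.2)) ''
        (stabS a b A A' : Set (Matrix I I (MvPolynomial (Fin N) L) ×
          Matrix J J (MvPolynomial (Fin N) L)))) := by
    apply le_antisymm
    · intro p hp
      let ε := Module.Free.chooseBasis L K'
      -- a finite set of basis elements
      let s : Finset (Module.Free.ChooseBasisIndex L K') :=
        (Finset.univ.biUnion fun i : I × I => (p.1 i.1 i.2).support.biUnion fun m =>
          (ε.repr ((p.1 i.1 i.2).coeff m)).support) ∪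
        (Finset.univ.biUnion fun j : J × J => (p.2 j.1 j.2).support.biUnion fun m =>
          (ε.repr ((p.2 j.1 j.2).coeff m)).support)
      have hs1 : ∀ i i' m, (ε.repr ((p.1 i i').coeff m)).support ⊆ s := by
        intro i i' m
        by_cases hm : m ∈ (p.1 i i').support
        · refine Finset.Subset.trans ?_ Finset.subset_union_left
          intro l hl
          rw [Finset.mem_biUnion]
          refine ⟨(i, i'), Finset.mem_univ _, ?_⟩
          rw [Finset.mem_biUnion]
          exact ⟨m, hm, hl⟩
        · rw [notMem_support_iff] at hm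
          rw [hm, map_zero]
          simp
      have hs2 : ∀ i i' m, (ε.repr ((p.2 i i').coeff m)).support ⊆ s := by
        intro i i' m
        by_cases hm : m ∈ (p.2 i i').support
        · refine Finset.Subset.trans ?_ Finset.subset_union_right
          intro l hl
          rw [Finset.mem_biUnion]
          refine ⟨(i, i'), Finset.mem_univ _, ?_⟩
          rw [Finset.mem_biUnion]
          exact ⟨m, hm, hl⟩
        · rw [notMem_support_iff] at hm
          rw [hm, map_zero]
          simp
      have hsum : p = ∑ l ∈ s, ε l • ((extM (algebraMap L K') (p.1.map (bcs_cw (ε.coord l))),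
          extM (algebraMap L K') (p.2.map (bcs_cw (ε.coord l)))) :
          Matrix I I (MvPolynomial (Fin N) K') × Matrix J J (MvPolynomial (Fin N) K')) := by
        refine Prod.ext ?_ ?_
        · rw [Prod.fst_sum]
          ext1 i i'
          rw [Matrix.sum_apply]
          exact bcs_expand ε _ s (hs1 i i')
        · rw [Prod.snd_sum]
          ext1 i i'
          rw [Matrix.sum_apply]
          exact bcs_expand ε _ s (hs2 i i')
      rw [hsum]
      refine Submodule.sum_mem _ fun l _ => Submodule.smul_mem _ _ (Submodule.subset_span ?_)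
      exact ⟨_, bcs_coord_mem hp (ε.coord l), rfl⟩
    · rw [Submodule.span_le]
      rintro _ ⟨p, hp, rfl⟩
      exact bcs_ext_mem hp _
  refine ⟨?_, hspan⟩
  -- a basis
  let B := Module.Free.chooseBasis L (stabS a b A A')
  let v : Module.Free.ChooseBasisIndex L (stabS a b A A') →
      stabS a b (extM (algebraMap L K') A) (extM (algebraMap L K') A') := fun i =>
    ⟨(extM (algebraMap L K') (B i).1.1, extM (algebraMap L K') (B i).1.2),
      bcs_ext_mem (B i).2 _⟩
  have hli : LinearIndependent K' v := by
    rw [linearIndependent_iff']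
    intro s g hg i hi
    let ε := Module.Free.chooseBasis L K'
    have hg' : ∑ i ∈ s, g i • (v i : Matrix I I (MvPolynomial (Fin N) K') ×
        Matrix J J (MvPolynomial (Fin N) K')) = 0 := by
      have h1 := congrArg Subtype.val hg
      rw [AddSubmonoidClass.coe_finsetSum] at h1
      exact h1
    have hl : ∀ l, ε.coord l (g i) = 0 := by
      intro l
      have h1 : ∑ i ∈ s, ε.coord l (g i) • B i = 0 := by
        apply Subtype.ext
        rw [AddSubmonoidClass.coe_finsetSum]
        refine Prod.ext ?_ ?_
        · rw [Prod.fst_sum]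
          ext i1 i2 m
          have h2 := congrArg (fun q => ε.coord l ((q.1 i1 i2).coeff m)) hg'
          simp only [Prod.fst_sum, Matrix.sum_apply, coeff_sum, map_sum] at h2
          rw [Matrix.sum_apply, coeff_sum]
          refine Eq.trans (Finset.sum_congr rfl fun j _ => ?_) (h2.trans ?_)
          · change (ε.coord l (g j) • (B j).1.1 i1 i2).coeff m =
              ε.coord l ((g j • MvPolynomial.map (algebraMap L K') ((B j).1.1 i1 i2)).coeff m)
            rw [coeff_smul, coeff_smul, coeff_map, smul_eq_mul, smul_eq_mul, mul_comm (g j),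
              ← Algebra.smul_def, map_smul, smul_eq_mul, mul_comm]
          · simp
        · rw [Prod.snd_sum]
          ext i1 i2 m
          have h2 := congrArg (fun q => ε.coord l ((q.2 i1 i2).coeff m)) hg'
          simp only [Prod.snd_sum, Matrix.sum_apply, coeff_sum, map_sum] at h2
          rw [Matrix.sum_apply, coeff_sum]
          refine Eq.trans (Finset.sum_congr rfl fun j _ => ?_) (h2.trans ?_)
          · change (ε.coord l (g j) • (B j).1.2 i1 i2).coeff m =
              ε.coord l ((g j • MvPolynomial.map (algebraMap L K') ((B j).1.2 i1 i2)).coeff m)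
            rw [coeff_smul, coeff_smul, coeff_map, smul_eq_mul, smul_eq_mul, mul_comm (g j),
              ← Algebra.smul_def, map_smul, smul_eq_mul, mul_comm]
          · simp
      exact (linearIndependent_iff'.1 B.linearIndependent) s _ h1 i hi
    rw [← ε.repr.map_eq_zero_iff]
    ext l
    exact hl l
  have hsp : ⊤ ≤ Submodule.span K' (Set.range v) := by
    rintro ⟨x, hx⟩ -
    have hx' := hx
    rw [hspan] at hx'
    have h1 : x ∈ Submodule.map
        (stabS a b (extM (algebraMap L K') A) (extM (algebraMap L K') A')).subtype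
        (Submodule.span K' (Set.range v)) := by
      rw [Submodule.map_span]
      refine (Submodule.span_le.2 ?_) hx'
      rintro _ ⟨p, hp, rfl⟩
      have h2 := B.linearCombination_repr ⟨p, hp⟩
      rw [Finsupp.linearCombination_apply, Finsupp.sum] at h2
      have h3 := congrArg Subtype.val h2
      rw [AddSubmonoidClass.coe_finsetSum] at h3
      have h4 : ((extM (algebraMap L K') p.1, extM (algebraMap L K') p.2) :
          Matrix I I (MvPolynomial (Fin N) K') × Matrix J J (MvPolynomial (Fin N) K')) =
          ∑ i ∈ (B.repr ⟨p, hp⟩).support, algebraMap L K' (B.repr ⟨p, hp⟩ i) •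
            (v i : Matrix I I (MvPolynomial (Fin N) K') ×
              Matrix J J (MvPolynomial (Fin N) K')) := by
        refine Prod.ext ?_ ?_
        · rw [Prod.fst_sum]
          ext i1 i2 m
          have h5 := congrArg (fun q => algebraMap L K' ((q.1 i1 i2).coeff m)) h3
          simp only [Prod.fst_sum, Matrix.sum_apply, coeff_sum, map_sum] at h5
          rw [Matrix.sum_apply, coeff_sum]
          refine Eq.trans ?_ (h5.symm.trans (Finset.sum_congr rfl fun j _ => ?_))
          · exact coeff_map _ _ _
          · change algebraMap L K' ((B.repr ⟨p, hp⟩ j • (B j).1.1 i1 i2).coeff m) =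
              (algebraMap L K' (B.repr ⟨p, hp⟩ j) •
                MvPolynomial.map (algebraMap L K') ((B j).1.1 i1 i2)).coeff m
            rw [coeff_smul, coeff_smul, coeff_map, smul_eq_mul, smul_eq_mul, map_mul]
        · rw [Prod.snd_sum]
          ext i1 i2 m
          have h5 := congrArg (fun q => algebraMap L K' ((q.2 i1 i2).coeff m)) h3
          simp only [Prod.snd_sum, Matrix.sum_apply, coeff_sum, map_sum] at h5
          rw [Matrix.sum_apply, coeff_sum]
          refine Eq.trans ?_ (h5.symm.trans (Finset.sum_congr rfl fun j _ => ?_))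
          · exact coeff_map _ _ _
          · change algebraMap L K' ((B.repr ⟨p, hp⟩ j • (B j).1.2 i1 i2).coeff m) =
              (algebraMap L K' (B.repr ⟨p, hp⟩ j) •
                MvPolynomial.map (algebraMap L K') ((B j).1.2 i1 i2)).coeff m
            rw [coeff_smul, coeff_smul, coeff_map, smul_eq_mul, smul_eq_mul, map_mul]
      change ((extM (algebraMap L K') p.1, extM (algebraMap L K') p.2) :
          Matrix I I (MvPolynomial (Fin N) K') × Matrix J J (MvPolynomial (Fin N) K')) ∈ _
      rw [h4]
      refine Submodule.sum_mem _ fun i _ => Submodule.smul_mem _ _ (Submodule.subset_span ?_)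
      exact ⟨v i, ⟨i, rfl⟩, rfl⟩
    obtain ⟨y, hy, hyx⟩ := h1
    have : y = ⟨x, hx⟩ := Subtype.ext hyx
    rwa [← this]
  rw [Module.finrank_eq_nat_card_basis (Module.Basis.mk hli hsp),
    Module.finrank_eq_nat_card_basis B]

end Pool.Agent.Lib.MP_09338f_ag
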