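import Pool.Agent.Lib.MP_09338f_ag.KM.Stm3

set_option autoImplicit false

universe u

namespace Pool.Agent.Lib.MP_09338f_ag

private theorem cd_lt {J : Type} [Fintype J] (a : J → ℤ) (α β : ℤ) :
    (Finset.univ.filter fun j => oext a α j < β).card =
      (Finset.univ.filter fun j => a j < β).card + (if α < β then 1 else 0) := by
  rw [Finset.card_filter, Finset.card_filter, Fintype.sum_option, add_comm]
  rfl

private theorem cd_le {J : Type} [Fintype J] (a : J → ℤ) (α β : ℤ) :
    (Finset.univ.filter fun j => oext a α j ≤ β).card =
      (Finset.univ.filter fun j => a j ≤ β).card + (if α ≤ β then 1 else 0) := by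
  rw [Finset.card_filter, Finset.card_filter, Fintype.sum_option, add_comm]
  rfl

private theorem cd_all {J : Type} [Fintype J] (p : J → Prop) [DecidablePred p] (h : ∀ j, p j) :
    (Finset.univ.filter p).card = Fintype.card J := by
  rw [Finset.filter_true_of_mem (fun j _ => h j), Finset.card_univ]

private theorem cd_bd {J : Type} [Fintype J] (p : J → Prop) [DecidablePred p] :
    (Finset.univ.filter p).card ≤ Fintype.card J := by
  rw [← Finset.card_univ]
  exact Finset.card_le_card (Finset.filter_subset _ _)

theorem p_cd : S_cd := by
  intro I J _ _ _ _ a b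
  have oxle : ∀ {β : ℤ}, (∀ i, b i ≤ β) → ∀ i, oext b β i ≤ β := by
    intro β hb i
    cases i with
    | none => exact le_refl _
    | some i => exact hb i
  refine ⟨?_, ?_, ?_, ?_, ?_, ?_⟩
  · intro h i
    refine le_trans (Finset.card_le_card ?_) (h i)
    intro j hj
    simp only [Finset.mem_filter, Finset.mem_univ, true_and] at hj ⊢
    exact le_of_lt hj
  · intro h i
    exact (h i).trans (Nat.sub_le _ _)
  · intro hne h i
    have : (Finset.univ.filter fun j => a j ≤ b i) = (Finset.univ.filter fun j => a j < b i) := by
      apply Finset.filter_congr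
      intro j _
      constructor
      · intro hle
        exact lt_of_le_of_ne hle (hne i j)
      · exact le_of_lt
    rw [this]
    exact h i
  · intro α β hb ha hc h
    have hβα : β ≤ α := by
      by_contra hcon
      push Not at hcon
      have h1 := h none
      have e1 : oext b β none = β := rfl
      rw [e1, cd_lt, cd_lt, if_pos hcon, if_neg (lt_irrefl β),
        cd_all _ (fun j => lt_of_le_of_lt (ha j) hcon)] at h1
      have h2 := cd_bd (fun i => b i < β)
      omega
    refine ⟨hβα, ?_, ?_, ?_⟩
    · intro i
      have h1 := h (some i)
      have e1 : oext b β (some i) = b i := rfl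
      rw [e1, cd_lt, cd_lt, if_neg (not_lt.2 (hb i))] at h1
      exact le_trans (Nat.le_add_right _ _) h1
    · intro i
      have h1 := h i
      rw [cd_lt] at h1
      exact le_trans (Nat.le_add_right _ _) h1
    · intro hlt i
      have h1 := h i
      have h2 := oxle hb i
      rw [cd_lt] at h1 ⊢
      rw [if_neg (by omega)]
      exact le_trans (Nat.le_add_right _ _) h1
  · intro α β hb ha hc h
    have hβα : β < α := by
      by_contra hcon
      push Not at hcon
      have h1 := h none
      have e1 : oext b β none = β := rfl
      rw [e1, cd_le, cd_lt, if_pos hcon, if_neg (lt_irrefl β),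
        cd_all _ (fun j => (ha j).trans hcon)] at h1
      have h2 := cd_bd (fun i => b i < β)
      omega
    refine ⟨hβα, ?_, ?_, ?_⟩
    · intro i
      have h1 := h (some i)
      have e1 : oext b β (some i) = b i := rfl
      rw [e1, cd_le, cd_lt, if_neg (not_lt.2 (hb i))] at h1
      exact le_trans (Nat.le_add_right _ _) h1
    · intro i
      have h1 := h i
      rw [cd_le] at h1
      exact le_trans (Nat.le_add_right _ _) h1
    · intro hlt i
      have h1 := h i
      have h2 := oxle hb i
      rw [cd_le] at h1 ⊢
      rw [if_neg (by omega)]
      exact le_trans (Nat.le_add_right _ _) h1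
  · intro β h i
    have h1 := h (some i)
    have e1 : oext b β (some i) = b i := rfl
    rw [e1, cd_lt, cd_lt] at h1
    split_ifs at h1 <;> omega

end Pool.Agent.Lib.MP_09338f_ag
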