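import Pool.Agent.Lib.MP_09338f_ag.KM.Stm5

/-!
# Project KM, piece cmp: derivations and minors
-/

set_option autoImplicit false

open MvPolynomial Matrix

universe u

namespace Pool.Agent.Lib.MP_09338f_ag

section cmp

variable {k K : Type u} [Field k] [Field K] [Algebra k K] {N : ℕ} (D : Derivation k K K)

theorem cmp_coeff (p : MvPolynomial (Fin N) K) (m : Fin N →₀ ℕ) :
    (cwD D p).coeff m = D (p.coeff m) := by
  classical
  unfold cwD
  rw [coeff_sum]
  simp_rw [coeff_monomial]
  by_cases hm : m ∈ p.support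
  · rw [Finset.sum_ite_eq' p.support m, if_pos hm]
  · rw [Finset.sum_ite_eq' p.support m, if_neg hm]
    rw [notMem_support_iff] at hm
    rw [hm, map_zero]

theorem cmp_add (p q : MvPolynomial (Fin N) K) : cwD D (p + q) = cwD D p + cwD D q := by
  ext m
  rw [coeff_add, cmp_coeff, cmp_coeff, cmp_coeff, coeff_add, map_add]

theorem cmp_zero : cwD D (0 : MvPolynomial (Fin N) K) = 0 := by
  ext m
  rw [cmp_coeff, coeff_zero, map_zero]

theorem cmp_mul (p q : MvPolynomial (Fin N) K) : cwD D (p * q) = p * cwD D q + cwD D p * q := by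
  classical
  ext m
  rw [coeff_add, cmp_coeff, coeff_mul, coeff_mul, coeff_mul, map_sum, ← Finset.sum_add_distrib]
  refine Finset.sum_congr rfl fun x _ => ?_
  rw [D.leibniz, cmp_coeff, cmp_coeff, smul_eq_mul, smul_eq_mul, mul_comm (coeff x.2 q)]

/-- as an additive homomorphism -/
noncomputable def cmp_hom : MvPolynomial (Fin N) K →+ MvPolynomial (Fin N) K where
  toFun := cwD D
  map_zero' := cmp_zero D
  map_add' := cmp_add D

theorem cmp_one : cwD D (1 : MvPolynomial (Fin N) K) = 0 := by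
  have h := cmp_mul D (1 : MvPolynomial (Fin N) K) 1
  rw [mul_one, one_mul, mul_one] at h
  exact left_eq_add.mp h

theorem cmp_prod {ι : Type} [DecidableEq ι] (s : Finset ι) (f : ι → MvPolynomial (Fin N) K) :
    cwD D (∏ i ∈ s, f i) = ∑ i ∈ s, (∏ j ∈ s.erase i, f j) * cwD D (f i) := by
  induction s using Finset.induction_on with
  | empty =>
    rw [Finset.prod_empty, Finset.sum_empty]
    exact cmp_one D
  | insert a s ha ih =>
    rw [Finset.prod_insert ha, cmp_mul, ih, Finset.sum_insert ha, Finset.erase_insert ha,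
      Finset.mul_sum, add_comm, mul_comm (cwD D (f a))]
    congr 1
    refine Finset.sum_congr rfl fun i hi => ?_
    have hai : a ≠ i := fun h => ha (h ▸ hi)
    rw [Finset.erase_insert_of_ne hai, Finset.prod_insert, mul_assoc]
    exact fun h => ha (Finset.mem_of_mem_erase h)

theorem cmp_det {I : Type} [Fintype I] [DecidableEq I] (M : Matrix I I (MvPolynomial (Fin N) K)) :
    cwD D M.det = ∑ l, (M.updateCol l fun i => cwD D (M i l)).det := by
  have h1 : cwD D M.det = ∑ σ : Equiv.Perm I, Equiv.Perm.sign σ •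
      ∑ l, (∏ j ∈ Finset.univ.erase l, M (σ j) j) * cwD D (M (σ l) l) := by
    have h2 : cwD D M.det = cmp_hom D M.det := rfl
    rw [h2, Matrix.det_apply, map_sum]
    refine Finset.sum_congr rfl fun σ _ => ?_
    rw [Units.smul_def, map_zsmul, Units.smul_def]
    congr 1
    exact cmp_prod D Finset.univ fun i => M (σ i) i
  rw [h1]
  simp_rw [Finset.smul_sum]
  rw [Finset.sum_comm]
  refine Finset.sum_congr rfl fun l _ => ?_
  rw [Matrix.det_apply]
  refine Finset.sum_congr rfl fun σ _ => ?_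
  congr 1
  rw [← Finset.prod_erase_mul Finset.univ _ (Finset.mem_univ l), Matrix.updateCol_self]
  congr 1
  refine Finset.prod_congr rfl fun j hj => ?_
  rw [Matrix.updateCol_ne (Finset.ne_of_mem_erase hj)]

end cmp

theorem p_cmp : S_cmp.{u} := by
  intro k K _ _ _ N I J _ _ _ _ A F D hdef hD e
  have h1 : dd A (A.map (cwD D)) e = cwD D (A.submatrix id e).det := by
    rw [cmp_det]
    rfl
  rw [h1]
  have key : ∀ p ∈ Ideal.span {f | f ∈ mins A ∧ ∀ m, f.coeff m ∈ F},
      p ∈ mins A ∧ cwD D p ∈ mins A := by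
    intro p hp
    refine Submodule.span_induction (p := fun p _ => p ∈ mins A ∧ cwD D p ∈ mins A)
      ?_ ?_ ?_ ?_ hp
    · rintro f ⟨hf, hf'⟩
      refine ⟨hf, ?_⟩
      have : cwD D f = 0 := by
        ext m
        rw [cmp_coeff, coeff_zero]
        exact hD _ (hf' m)
      rw [this]
      exact Ideal.zero_mem _
    · exact ⟨Ideal.zero_mem _, by rw [cmp_zero]; exact Ideal.zero_mem _⟩
    · rintro x y - - ⟨hx, hx'⟩ ⟨hy, hy'⟩
      refine ⟨Ideal.add_mem _ hx hy, ?_⟩
      rw [cmp_add]
      exact Ideal.add_mem _ hx' hy'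
    · rintro a x - ⟨hx, hx'⟩
      refine ⟨Ideal.mul_mem_left _ a hx, ?_⟩
      rw [smul_eq_mul, cmp_mul]
      exact Ideal.add_mem _ (Ideal.mul_mem_left _ a hx') (Ideal.mul_mem_left _ _ hx)
  have h2 : (A.submatrix id e).det ∈ mins A := Ideal.subset_span ⟨e, rfl⟩
  have h3 : (A.submatrix id e).det ∈ Ideal.span {f | f ∈ mins A ∧ ∀ m, f.coeff m ∈ F} := by
    rw [← show mins A = Ideal.span {f | f ∈ mins A ∧ ∀ m, f.coeff m ∈ F} from hdef]
    exact h2
  exact (key _ h3).2

end Pool.Agent.Lib.MP_09338f_ag
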