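import Pool.Agent.Lib.MP_09338f_ag.KM.Stm5

/-!
# Project KM, piece cnj: the spaces `stabS` for a matrix and for a conjugate.
-/

set_option autoImplicit false

open MvPolynomial Matrix

universe u

namespace Pool.Agent.Lib.MP_09338f_ag

private theorem cnj_homD_mul {N : ℕ} {K : Type u} [Field K] {d e : ℤ}
    {p q : MvPolynomial (Fin N) K} (hp : HomD d p) (hq : HomD e q) : HomD (d + e) (p * q) := by
  classical
  intro m hm
  obtain ⟨m1, h1, m2, h2, h3⟩ := Finset.mem_add.mp (MvPolynomial.support_mul p q hm)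
  rw [← h3, map_add, Nat.cast_add, hp m1 h1, hq m2 h2]

private theorem cnj_homD_sum {N : ℕ} {K : Type u} [Field K] {d : ℤ} {ι : Type} (s : Finset ι)
    (p : ι → MvPolynomial (Fin N) K) (hp : ∀ i ∈ s, HomD d (p i)) : HomD d (∑ i ∈ s, p i) := by
  have h : (∑ i ∈ s, p i) ∈ homS N K d := Submodule.sum_mem _ fun i hi => hp i hi
  exact h

private theorem cnj_homM_mul {N : ℕ} {K : Type u} [Field K] {P Q R : Type} [Fintype Q]
    {α : P → ℤ} {β : Q → ℤ} {γ : R → ℤ} {A : Matrix P Q (MvPolynomial (Fin N) K)}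
    {B : Matrix Q R (MvPolynomial (Fin N) K)} (hA : HomM β α A) (hB : HomM γ β B) :
    HomM γ α (A * B) := by
  intro i j
  rw [Matrix.mul_apply]
  refine cnj_homD_sum _ _ fun q _ => ?_
  have h := cnj_homD_mul (hA i q) (hB q j)
  have e : β q - α i + (γ j - β q) = γ j - α i := by ring
  rw [e] at h
  exact h

private theorem cnj_mem_matS {N : ℕ} {K : Type u} [Field K] {P Q : Type} (α : Q → ℤ) (β : P → ℤ)
    (A : Matrix P Q (MvPolynomial (Fin N) K)) : A ∈ matS N K α β ↔ HomM α β A := by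
  unfold matS
  constructor
  · intro h i j
    exact (Submodule.mem_pi.mp ((Submodule.mem_pi.mp h) i (Set.mem_univ i))) j (Set.mem_univ j)
  · intro h
    exact Submodule.mem_pi.mpr fun i _ => Submodule.mem_pi.mpr fun j _ => h i j

private theorem cnj_mem_stabS {I J : Type} [Fintype I] [DecidableEq I] [Fintype J] [DecidableEq J]
    {N : ℕ} {K : Type u} [Field K] (a : J → ℤ) (b : I → ℤ)
    (A A' : Matrix I J (MvPolynomial (Fin N) K))
    (p : Matrix I I (MvPolynomial (Fin N) K) × Matrix J J (MvPolynomial (Fin N) K)) :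
    p ∈ stabS a b A A' ↔ HomM b b p.1 ∧ HomM a a p.2 ∧ p.1 * A = A' * p.2 := by
  unfold stabS
  rw [Submodule.mem_inf, Submodule.mem_prod, cnj_mem_matS, cnj_mem_matS, LinearMap.mem_ker,
    and_assoc]
  refine and_congr_right fun _ => and_congr_right fun _ => ?_
  exact sub_eq_zero

/-- The linear automorphism `(X, Y) ↦ (g₁' X, g₂ Y)`. -/
private noncomputable def cnj_e {I J : Type} [Fintype I] [DecidableEq I] [Fintype J]
    [DecidableEq J] {N : ℕ} {K : Type u} [Field K]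
    (g₁ g₁' : Matrix I I (MvPolynomial (Fin N) K)) (g₂ g₂' : Matrix J J (MvPolynomial (Fin N) K))
    (h1 : g₁ * g₁' = 1) (h1' : g₁' * g₁ = 1) (h2 : g₂ * g₂' = 1) (h2' : g₂' * g₂ = 1) :
    (Matrix I I (MvPolynomial (Fin N) K) × Matrix J J (MvPolynomial (Fin N) K)) ≃ₗ[K]
      (Matrix I I (MvPolynomial (Fin N) K) × Matrix J J (MvPolynomial (Fin N) K)) where
  toFun p := (g₁' * p.1, g₂ * p.2)
  invFun p := (g₁ * p.1, g₂' * p.2)
  map_add' p q := by
    simp only [Prod.fst_add, Prod.snd_add, Matrix.mul_add, Prod.mk_add_mk]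
  map_smul' c p := by
    simp only [Prod.smul_fst, Prod.smul_snd, Matrix.mul_smul, RingHom.id_apply, Prod.smul_mk]
  left_inv p := by
    show (g₁ * (g₁' * p.1), g₂' * (g₂ * p.2)) = p
    rw [← Matrix.mul_assoc, ← Matrix.mul_assoc, h1, h2', Matrix.one_mul, Matrix.one_mul]
  right_inv p := by
    show (g₁' * (g₁ * p.1), g₂ * (g₂' * p.2)) = p
    rw [← Matrix.mul_assoc, ← Matrix.mul_assoc, h1', h2, Matrix.one_mul, Matrix.one_mul]

/-- [cnj] The spaces `stabS` for `A` and for a conjugate. -/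
theorem p_cnj : S_cnj.{u} := by
  intro K _ N I J _ _ _ _ a b A g₁ g₁' g₂ g₂' H1 H1' H2 H2' h1 h1' h2 h2'
  have hmap : (stabS a b A (g₁ * A * g₂)).map
      (cnj_e g₁ g₁' g₂ g₂' h1 h1' h2 h2' : _ →ₗ[K] _) = stabS a b A A := by
    ext p
    rw [Submodule.mem_map]
    constructor
    · rintro ⟨q, hq, rfl⟩
      obtain ⟨q1, q2, q3⟩ := (cnj_mem_stabS a b A (g₁ * A * g₂) q).mp hq
      refine (cnj_mem_stabS a b A A _).mpr ⟨cnj_homM_mul H1' q1, cnj_homM_mul H2 q2, ?_⟩
      show g₁' * q.1 * A = A * (g₂ * q.2)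
      rw [Matrix.mul_assoc, q3, Matrix.mul_assoc, Matrix.mul_assoc, ← Matrix.mul_assoc g₁', h1',
        Matrix.one_mul]
    · intro hp
      obtain ⟨q1, q2, q3⟩ := (cnj_mem_stabS a b A A p).mp hp
      refine ⟨(g₁ * p.1, g₂' * p.2), ?_, ?_⟩
      · refine (cnj_mem_stabS a b A _ _).mpr ⟨cnj_homM_mul H1 q1, cnj_homM_mul H2' q2, ?_⟩
        show g₁ * p.1 * A = g₁ * A * g₂ * (g₂' * p.2)
        rw [Matrix.mul_assoc, q3, Matrix.mul_assoc (g₁ * A), ← Matrix.mul_assoc g₂, h2,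
          Matrix.one_mul, Matrix.mul_assoc]
      · exact (cnj_e g₁ g₁' g₂ g₂' h1 h1' h2 h2').apply_symm_apply p
  rw [← hmap]
  exact (LinearEquiv.finrank_map_eq (cnj_e g₁ g₁' g₂ g₂' h1 h1' h2 h2') _).symm

end Pool.Agent.Lib.MP_09338f_ag
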