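import Pool.Agent.Lib.MP_09338f_ag.KM.Stm3

set_option autoImplicit false

universe u

namespace Pool.Agent.Lib.MP_09338f_ag

/-- The piece cnt. -/
theorem p_cnt : S_cnt := by
  intro I J _ _ _ _ a b β hb ha hIJ hCD
  have h := hCD none
  have e1 : (Finset.univ.filter fun j : Option J => oext a (β + 1) j ≤ oext b β none).card =
      (Finset.univ.filter fun j : J => a j ≤ β).card := by
    rw [Finset.card_filter, Finset.card_filter, Fintype.sum_option]
    have : ¬ (oext a (β + 1) none ≤ oext b β none) := by
      change ¬ (β + 1 ≤ β)
      omega
    rw [if_neg this, zero_add]
    rfl
  have e2 : (Finset.univ.filter fun i : Option I => oext b β i < oext b β none).card =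
      (Finset.univ.filter fun i : I => b i < β).card := by
    rw [Finset.card_filter, Finset.card_filter, Fintype.sum_option]
    have : ¬ (oext b β none < oext b β none) := lt_irrefl _
    rw [if_neg this, zero_add]
    rfl
  rw [e1, e2] at h
  have e3 : Fintype.card {i : Option I // oext b β i = β} =
      1 + (Finset.univ.filter fun i : I => b i = β).card := by
    rw [Fintype.card_subtype, Finset.card_filter, Finset.card_filter, Fintype.sum_option]
    have : oext b β none = β := rfl
    rw [if_pos this]
    rfl
  have e4 : (Finset.univ.filter fun i : I => b i = β).card +
      (Finset.univ.filter fun i : I => b i < β).card = Fintype.card I := by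
    have := Finset.card_filter_add_card_filter_not (s := (Finset.univ : Finset I))
      (fun i : I => b i = β)
    rw [Finset.card_univ] at this
    rw [← this]
    congr 2
    ext i
    simp only [Finset.mem_filter, Finset.mem_univ, true_and]
    have := hb i
    omega
  have e5 : (Finset.univ.filter fun j : J => a j = β + 1).card +
      (Finset.univ.filter fun j : J => a j ≤ β).card = Fintype.card J := by
    have := Finset.card_filter_add_card_filter_not (s := (Finset.univ : Finset J))
      (fun j : J => a j = β + 1)
    rw [Finset.card_univ] at this
    rw [← this]
    congr 2
    ext j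
    simp only [Finset.mem_filter, Finset.mem_univ, true_and]
    have := ha j
    omega
  have hle : Fintype.card {i : Option I // oext b β i = β} ≤ Fintype.card {j : J // a j = β + 1} := by
    rw [e3, Fintype.card_subtype]
    omega
  obtain ⟨f⟩ := Function.Embedding.nonempty_of_card_le hle
  exact ⟨fun i => (f i).1, fun x y hxy => f.injective (Subtype.ext hxy), fun i => (f i).2⟩

end Pool.Agent.Lib.MP_09338f_ag
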