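import Pool.Agent.Lib.MP_09338f_ag.KM.Stm3

/-!
# MP_09338f_ag, project KM, piece deg: the maximal minors of `(C, W)` have the degree `≥ 2`
-/

set_option autoImplicit false

open Finset

universe u

namespace Pool.Agent.Lib.MP_09338f_ag

private theorem deg_layer (M x : ℤ) (h1 : -M ≤ x) (h2 : x ≤ M) :
    ∑ θ ∈ Finset.Ioc (-M) M, (if θ ≤ x then (1 : ℤ) else 0) = x + M := by
  have h : (Finset.Ioc (-M) M).filter (fun θ => θ ≤ x) = Finset.Ioc (-M) x := by
    ext θ
    simp only [mem_filter, mem_Ioc]
    constructor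
    · rintro ⟨⟨h3, _⟩, h4⟩
      exact ⟨h3, h4⟩
    · rintro ⟨h3, h4⟩
      exact ⟨⟨h3, h4.trans h2⟩, h4⟩
  rw [sum_boole, h, Int.card_Ioc, sub_neg_eq_add, Int.toNat_of_nonneg (by linarith)]

private theorem deg_inj {I J1 J2 : Type} [Fintype I] [DecidableEq I] [Fintype J1] [DecidableEq J1]
    [Fintype J2] [DecidableEq J2] (a1 : J1 → ℤ) (a2 : J2 → ℤ) (e : I → J1 ⊕ J2)
    (he : Function.Injective e) (τ : ℤ) :
    (univ.filter fun i => Sum.elim a1 a2 (e i) ≤ τ).card ≤
      (univ.filter fun j => a1 j ≤ τ).card + (univ.filter fun j => a2 j ≤ τ).card := by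
  rw [← card_disjSum]
  refine card_le_card_of_injOn e ?_ he.injOn
  intro i hi
  have hi2 := (mem_filter.1 (mem_coe.1 hi)).2
  rw [mem_coe]
  cases h : e i with
  | inl j =>
    rw [h] at hi2
    rw [inl_mem_disjSum]
    exact mem_filter.2 ⟨mem_univ _, hi2⟩
  | inr j =>
    rw [h] at hi2
    rw [inr_mem_disjSum]
    exact mem_filter.2 ⟨mem_univ _, hi2⟩

private theorem deg_compl {I : Type} [Fintype I] [DecidableEq I] (x : I → ℤ) (θ : ℤ) :
    (univ.filter fun i => θ ≤ x i).card + (univ.filter fun i => x i ≤ θ - 1).card =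
      Fintype.card I := by
  have h := card_filter_add_card_filter_not (s := (univ : Finset I)) (fun i => θ ≤ x i)
  rw [card_univ] at h
  rw [← h]
  congr 2
  ext i
  simp only [mem_filter, mem_univ, true_and, not_le]
  omega

theorem p_deg : S_deg := by
  intro I J1 J2 _ _ _ _ _ _ a1 a2 b hC hW hJ2 hI hor e he
  set α : I → ℤ := fun i => Sum.elim a1 a2 (e i) with hα
  set M : ℤ := ∑ i, |b i| + ∑ i, |α i| + 1 with hM
  have hb1 : ∀ i, |b i| ≤ ∑ i, |b i| := fun i =>
    single_le_sum (f := fun i => |b i|) (fun i _ => abs_nonneg _) (mem_univ i)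
  have ha1 : ∀ i, |α i| ≤ ∑ i, |α i| := fun i =>
    single_le_sum (f := fun i => |α i|) (fun i _ => abs_nonneg _) (mem_univ i)
  have hb0 : 0 ≤ ∑ i, |b i| := sum_nonneg fun i _ => abs_nonneg _
  have ha0 : 0 ≤ ∑ i, |α i| := sum_nonneg fun i _ => abs_nonneg _
  have hbM : ∀ i, -M < b i ∧ b i + 1 ≤ M := by
    intro i
    have h1 := hb1 i
    have h2 := abs_le.1 (le_refl |b i|)
    constructor <;> linarith [h2.1, h2.2]
  have haM : ∀ i, -M < α i ∧ α i + 1 ≤ M := by
    intro i
    have h1 := ha1 i
    have h2 := abs_le.1 (le_refl |α i|)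
    constructor <;> linarith [h2.1, h2.2]
  clear_value M
  -- the layers
  set T : ℤ → ℤ := fun θ => ((univ.filter fun i => θ ≤ α i).card : ℤ) -
    ((univ.filter fun i => θ ≤ b i).card : ℤ) with hT
  have hsum : ∑ i, α i - ∑ i, b i = ∑ θ ∈ Finset.Ioc (-M) M, T θ := by
    have h1 : ∑ i, α i - ∑ i, b i = ∑ i, (α i + M) - ∑ i, (b i + M) := by
      rw [sum_add_distrib, sum_add_distrib]; ring
    have h2 : ∑ i, (α i + M) =
        ∑ θ ∈ Finset.Ioc (-M) M, ((univ.filter fun i => θ ≤ α i).card : ℤ) := by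
      rw [sum_congr rfl fun i _ => (deg_layer M (α i) (haM i).1.le (by linarith [(haM i).2])).symm,
        sum_comm]
      exact sum_congr rfl fun θ _ => sum_boole _ _
    have h3 : ∑ i, (b i + M) =
        ∑ θ ∈ Finset.Ioc (-M) M, ((univ.filter fun i => θ ≤ b i).card : ℤ) := by
      rw [sum_congr rfl fun i _ => (deg_layer M (b i) (hbM i).1.le (by linarith [(hbM i).2])).symm,
        sum_comm]
      exact sum_congr rfl fun θ _ => sum_boole _ _
    rw [h1, h2, h3, ← sum_sub_distrib]
  -- the layers below the largest `b`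
  have hA : ∀ θ, (∃ i, θ ≤ b i) →
      0 ≤ T θ ∧ (1 ≤ (univ.filter fun i => b i ≤ θ - 1).card → 1 ≤ T θ) := by
    intro θ hθ
    obtain ⟨i₁, hi₁, hmin⟩ := exists_min_image (univ.filter fun i => θ ≤ b i) b
      (by obtain ⟨i, hi⟩ := hθ; exact ⟨i, mem_filter.2 ⟨mem_univ _, hi⟩⟩)
    have hi₁' : θ ≤ b i₁ := (mem_filter.1 hi₁).2
    have e1 : (univ.filter fun i' => b i' < b i₁) = univ.filter fun i => b i ≤ θ - 1 := by
      ext i
      simp only [mem_filter, mem_univ, true_and]
      constructor
      · intro h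
        by_contra h2
        have := hmin i (mem_filter.2 ⟨mem_univ _, by omega⟩)
        omega
      · intro h
        omega
    have e2 := hC i₁
    rw [e1] at e2
    have e3 := deg_inj a1 a2 e he (θ - 1)
    have e4 : (univ.filter fun j => a2 j ≤ θ - 1) = ∅ := by
      apply filter_false_of_mem
      intro j _ h
      have := hW j i₁
      omega
    have e5 : (univ.filter fun j => a1 j ≤ θ - 1).card ≤ (univ.filter fun j => a1 j ≤ b i₁).card := by
      apply card_le_card
      intro j hj
      rw [mem_filter] at hj ⊢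
      exact ⟨hj.1, by omega⟩
    rw [e4, card_empty, add_zero] at e3
    have e6 := deg_compl α θ
    have e7 := deg_compl b θ
    have e8 : (univ.filter fun i => α i ≤ θ - 1).card ≤
        (univ.filter fun i => b i ≤ θ - 1).card - 1 := e3.trans (e5.trans e2)
    have e9 : T θ = ((univ.filter fun i => θ ≤ α i).card : ℤ) -
      ((univ.filter fun i => θ ≤ b i).card : ℤ) := rfl
    constructor
    · rw [e9]; omega
    · intro h
      rw [e9]; omega
  have hB : ∀ θ, 0 ≤ T θ := by
    intro θ
    by_cases h : ∃ i, θ ≤ b i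
    · exact (hA θ h).1
    · have e1 : (univ.filter fun i => θ ≤ b i) = ∅ := by
        apply filter_false_of_mem
        intro i _ hi
        exact h ⟨i, hi⟩
      have e9 : T θ = ((univ.filter fun i => θ ≤ α i).card : ℤ) -
        ((univ.filter fun i => θ ≤ b i).card : ℤ) := rfl
      rw [e9, e1, card_empty]
      omega
  -- the largest `b`
  have hne : (univ : Finset I).Nonempty := by
    rw [← card_pos, card_univ]
    omega
  obtain ⟨i₀, -, hmax⟩ := exists_max_image (univ : Finset I) b hne
  set β := b i₀ with hβ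
  have hβ1 : β ∈ Finset.Ioc (-M) M := mem_Ioc.2 ⟨(hbM i₀).1, by linarith [(hbM i₀).2]⟩
  have hβ2 : β + 1 ∈ Finset.Ioc (-M) M := mem_Ioc.2 ⟨by linarith [(hbM i₀).1], (hbM i₀).2⟩
  have hC0 : (univ.filter fun j => a1 j ≤ β).card ≤ (univ.filter fun i' => b i' < β).card - 1 :=
    hC i₀
  have f1 : T (β + 1) = ((univ.filter fun i => β + 1 ≤ α i).card : ℤ) := by
    have e1 : (univ.filter fun i => β + 1 ≤ b i) = ∅ := by
      apply filter_false_of_mem
      intro i _ hi
      have := hmax i (mem_univ i)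
      omega
    have e9 : T (β + 1) = ((univ.filter fun i => β + 1 ≤ α i).card : ℤ) -
      ((univ.filter fun i => β + 1 ≤ b i).card : ℤ) := rfl
    rw [e9, e1, card_empty]
    simp
  have f2 := deg_compl α (β + 1)
  have f3 := deg_inj a1 a2 e he β
  have f4 : β + 1 - 1 = β := by ring
  rw [f4] at f2
  have f5 : (univ.filter fun j => a2 j ≤ β).card ≤ 1 := (card_le_univ _).trans hJ2
  rw [show (∑ i, Sum.elim a1 a2 (e i)) = ∑ i, α i from rfl, hsum]
  change (univ.filter fun i => α i ≤ β).card ≤ _ at f3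
  by_cases hs : 1 ≤ (univ.filter fun i' => b i' < β).card
  · have g1 : (univ.filter fun i' => b i' < β) = univ.filter fun i => b i ≤ β - 1 := by
      ext i
      simp only [mem_filter, mem_univ, true_and]
      omega
    have g2 : 1 ≤ T β := by
      refine (hA β ⟨i₀, le_refl _⟩).2 ?_
      rw [← g1]
      exact hs
    have g3 : (univ.filter fun i' => b i' < β).card < Fintype.card I := by
      rw [← card_univ]
      refine card_lt_card (Finset.ssubset_iff_subset_ne.2 ⟨subset_univ _, ?_⟩)
      intro h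
      have := mem_univ i₀
      rw [← h, mem_filter] at this
      exact lt_irrefl _ this.2
    have g4 : 1 ≤ T (β + 1) := by
      rw [f1]
      omega
    have g5 : ∑ θ ∈ {β, β + 1}, T θ ≤ ∑ θ ∈ Finset.Ioc (-M) M, T θ := by
      apply sum_le_sum_of_subset_of_nonneg
      · intro θ hθ
        rw [mem_insert, mem_singleton] at hθ
        rcases hθ with rfl | rfl
        · exact hβ1
        · exact hβ2
      · intro θ _ _
        exact hB θ
    rw [sum_pair (by omega)] at g5
    linarith
  · have g1 : ∀ i, b i = β := by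
      intro i
      by_contra h
      apply hs
      rw [Nat.one_le_iff_ne_zero, ← Nat.pos_iff_ne_zero, card_pos]
      have := hmax i (mem_univ i)
      exact ⟨i, mem_filter.2 ⟨mem_univ _, lt_of_le_of_ne this h⟩⟩
    have g2 : 2 ≤ T (β + 1) := by
      rw [f1]
      rcases hor with h3 | h3
      · omega
      · have g3 : (univ.filter fun j => a2 j ≤ β) = ∅ := by
          apply filter_false_of_mem
          intro j _ hj
          obtain ⟨i, hi⟩ := h3 j
          rw [g1 i] at hi
          omega
        rw [g3, card_empty] at f3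
        omega
    exact g2.trans (single_le_sum (f := T) (fun θ _ => hB θ) hβ2)

end Pool.Agent.Lib.MP_09338f_ag
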