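import Pool.Agent.Lib.MP_09338f_ag.KM.Stm5

set_option autoImplicit false

/-!
# Piece der: many derivations that kill a subfield of small transcendence degree
-/

universe u

namespace Pool.Agent.Lib.MP_09338f_ag

open MvPolynomial TensorProduct KaehlerDifferential

section

variable (k : Type u) [Field k] (ι : Type)

/-- the derivation of the field of fractions with given values at the variables -/
private noncomputable def der_ext (v : ι → FractionRing (MvPolynomial ι k)) :
    Derivation k (FractionRing (MvPolynomial ι k)) (FractionRing (MvPolynomial ι k)) :=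
  have : Algebra.FormallyEtale (MvPolynomial ι k) (FractionRing (MvPolynomial ι k)) :=
    Algebra.FormallyEtale.of_isLocalization (nonZeroDivisors (MvPolynomial ι k))
  ((LinearMap.liftBaseChange (FractionRing (MvPolynomial ι k))
    (mkDerivation k v).liftKaehlerDifferential) ∘ₗ
    (tensorKaehlerEquivOfFormallyEtale k (MvPolynomial ι k)
      (FractionRing (MvPolynomial ι k))).symm.toLinearMap).compDer
    (KaehlerDifferential.D k (FractionRing (MvPolynomial ι k)))

private theorem der_sum {R A M κ : Type*} [CommSemiring R] [CommSemiring A] [AddCommMonoid M]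
    [Algebra R A] [Module A M] [Module R M] (s : Finset κ) (D : κ → Derivation R A M) (x : A) :
    (∑ i ∈ s, D i) x = ∑ i ∈ s, D i x := by
  classical
  induction s using Finset.induction_on with
  | empty => simp
  | insert a s ha ih => rw [Finset.sum_insert ha, Finset.sum_insert ha, Derivation.add_apply, ih]

private theorem der_ext_X (v : ι → FractionRing (MvPolynomial ι k)) (i : ι) :
    der_ext k ι v (algebraMap (MvPolynomial ι k) (FractionRing (MvPolynomial ι k)) (X i)) = v i := by
  have : Algebra.FormallyEtale (MvPolynomial ι k) (FractionRing (MvPolynomial ι k)) :=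
    Algebra.FormallyEtale.of_isLocalization (nonZeroDivisors (MvPolynomial ι k))
  change (LinearMap.liftBaseChange (FractionRing (MvPolynomial ι k))
    (mkDerivation k v).liftKaehlerDifferential)
    ((tensorKaehlerEquivOfFormallyEtale k (MvPolynomial ι k)
      (FractionRing (MvPolynomial ι k))).symm
      (KaehlerDifferential.D k (FractionRing (MvPolynomial ι k))
        (algebraMap (MvPolynomial ι k) (FractionRing (MvPolynomial ι k)) (X i)))) = v i
  rw [tensorKaehlerEquivOfFormallyEtale_symm_D_algebraMap, LinearMap.liftBaseChange_tmul,
    Derivation.liftKaehlerDifferential_comp_D, one_smul, mkDerivation_X]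

end

theorem p_der (h_jac : S_jac.{u}) : S_der.{u} := by
  classical
  intro k _ _ ι _ F w hw
  have : Fintype ι := Fintype.ofFinite ι
  set K := FractionRing (MvPolynomial ι k) with hK
  let D : ι → Derivation k K K := fun i => der_ext k ι (Pi.single i 1)
  let gr : K → (ι → K) := fun y i => D i y
  obtain ⟨b, hbs, hbspan, hbli⟩ := exists_linearIndependent K (gr '' (F : Set K))
  have : Finite b := hbli.finite
  have : Fintype b := Fintype.ofFinite b
  have hy : ∀ g : b, ∃ y : F, gr (y : K) = g := by
    intro g
    obtain ⟨y, hyF, hyg⟩ := hbs g.2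
    exact ⟨⟨y, hyF⟩, hyg⟩
  choose y hyg using hy
  let e : Fin (Fintype.card b) ≃ b := (Fintype.equivFin b).symm
  have hli : LinearIndependent K (fun (l : Fin (Fintype.card b)) (c : ι) => D c ((y (e l) : F) : K)) := by
    have h1 : (fun (l : Fin (Fintype.card b)) (c : ι) => D c ((y (e l) : F) : K)) =
        ((↑) : b → (ι → K)) ∘ e := by
      funext l
      exact hyg (e l)
    rw [h1]
    exact hbli.comp e e.injective
  have hai := h_jac k K (Fin (Fintype.card b)) ι (fun l => ((y (e l) : F) : K)) D hli
  have hai' : AlgebraicIndependent k (fun l => y (e l)) :=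
    AlgebraicIndependent.of_comp F.val hai
  have hm : Fintype.card b ≤ w := by
    have h1 := hai'.lift_cardinalMk_le_trdeg
    rw [hw] at h1
    simpa using h1
  let Φ : (ι → K) →ₗ[K] (b → K) :=
    LinearMap.pi fun g => ∑ i, (g : ι → K) i • LinearMap.proj i
  have hΦ : ∀ v g, Φ v g = ∑ i, (g : ι → K) i * v i := by
    intro v g
    simp [Φ, LinearMap.pi_apply, LinearMap.sum_apply]
  refine ⟨LinearMap.ker Φ, ?_, ?_⟩
  · have h1 := LinearMap.finrank_range_add_finrank_ker Φ
    have h2 : Module.finrank K (LinearMap.range Φ) ≤ Fintype.card b := by
      refine (Submodule.finrank_le _).trans ?_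
      rw [Module.finrank_fintype_fun_eq_card]
    rw [Module.finrank_fintype_fun_eq_card] at h1
    rw [Nat.card_eq_fintype_card]
    change Fintype.card ι ≤ Module.finrank K (LinearMap.ker Φ) + w
    omega
  · intro v hv
    refine ⟨∑ i, v i • D i, ?_, ?_⟩
    · intro j
      rw [der_sum]
      rw [Finset.sum_eq_single j]
      · rw [Derivation.smul_apply, der_ext_X, Pi.single_eq_same, smul_eq_mul, mul_one]
      · intro i _ hij
        rw [Derivation.smul_apply, der_ext_X, Pi.single_eq_of_ne (Ne.symm hij), smul_zero]
      · intro h
        exact absurd (Finset.mem_univ j) h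
    · intro x hx
      rw [der_sum]
      have h1 : gr x ∈ Submodule.span K b := by
        rw [hbspan]
        exact Submodule.subset_span ⟨x, hx, rfl⟩
      have h2 : ∀ g ∈ Submodule.span K b, ∑ i, g i * v i = 0 := by
        intro g hg
        induction hg using Submodule.span_induction with
        | mem g hg =>
          have h3 := congrFun (LinearMap.mem_ker.1 hv) ⟨g, hg⟩
          rw [hΦ] at h3
          exact h3
        | zero => simp
        | add g g' _ _ h h' =>
          simp only [Pi.add_apply, add_mul, Finset.sum_add_distrib]
          rw [h, h', add_zero]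
        | smul c g _ h =>
          simp only [Pi.smul_apply, smul_eq_mul, mul_assoc]
          rw [← Finset.mul_sum, h, mul_zero]
      have h4 := h2 _ h1
      rw [← h4]
      refine Finset.sum_congr rfl fun i _ => ?_
      rw [Derivation.smul_apply, smul_eq_mul, mul_comm]

end Pool.Agent.Lib.MP_09338f_ag
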