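import Pool.Agent.Lib.MP_09338f_ag.KM.Stm3

/-!
# Project KM, piece [e1a]: `Ex1` for generic matrices, `1 ≤ c ≤ N`.
-/

set_option autoImplicit false

open MvPolynomial Matrix

universe u

namespace Pool.Agent.Lib.MP_09338f_ag

private theorem e1a_homD_zero {N : ℕ} {K : Type u} [CommSemiring K] (d : ℤ) :
    HomD d (0 : MvPolynomial (Fin N) K) := by
  intro m hm
  simp at hm

private theorem e1a_homD_one {N : ℕ} {K : Type u} [CommSemiring K] :
    HomD 0 (1 : MvPolynomial (Fin N) K) := by
  intro m hm
  classical
  rw [MvPolynomial.mem_support_iff, MvPolynomial.coeff_one] at hm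
  by_cases h : (0 : Fin N →₀ ℕ) = m
  · subst h
    simp
  · simp [h] at hm

private theorem e1a_homD_pow {N : ℕ} {K : Type u} [CommSemiring K] (i : Fin N) (d : ℕ) :
    HomD (d : ℤ) (X i ^ d : MvPolynomial (Fin N) K) := by
  intro m hm
  classical
  rw [MvPolynomial.mem_support_iff, MvPolynomial.coeff_X_pow] at hm
  by_cases h : Finsupp.single i d = m
  · subst h
    simp
  · simp [h] at hm

private theorem e1a_homD_X_mul {N : ℕ} {K : Type u} [CommSemiring K] (i : Fin N) (d : ℤ)
    (p : MvPolynomial (Fin N) K) (hp : HomD d p) : HomD (d + 1) (X i * p) := by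
  intro m hm
  classical
  rw [mul_comm, MvPolynomial.mem_support_iff, MvPolynomial.coeff_mul_X'] at hm
  by_cases h : i ∈ m.support
  · rw [if_pos h] at hm
    have h1 := hp (m - Finsupp.single i 1) (MvPolynomial.mem_support_iff.2 hm)
    have h2 : m - Finsupp.single i 1 + Finsupp.single i 1 = m := by
      ext j
      by_cases hj : j = i
      · subst hj
        have h3 : m j ≠ 0 := Finsupp.mem_support_iff.1 h
        simp only [Finsupp.coe_add, Finsupp.coe_tsub, Pi.add_apply, Pi.sub_apply,
          Finsupp.single_eq_same]
        omega
      · have h3 : (Finsupp.single i 1 : Fin N →₀ ℕ) j = 0 := Finsupp.single_eq_of_ne hj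
        simp only [Finsupp.coe_add, Finsupp.coe_tsub, Pi.add_apply, Pi.sub_apply, h3]
        omega
    have h4 : m.degree = (m - Finsupp.single i 1).degree + 1 := by
      conv_lhs => rw [← h2]
      rw [map_add, Finsupp.degree_single]
    rw [h4]
    push_cast
    rw [h1]
  · rw [if_neg h] at hm
    exact absurd rfl hm

private theorem e1a_inj {I J : Type} {R : Type u} [Fintype I] [DecidableEq I] [Fintype J]
    [DecidableEq J] [CommRing R] (h_rel : S_rel.{u}) (A : Matrix I J R) (hA : Ex1 A)
    (hc : Fintype.card I = Fintype.card J) (x : J → R) (hx : A.mulVec x = 0) : x = 0 := by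
  have h1 := hA x hx
  have h2 : Submodule.span R (Set.range (rel A)) = ⊥ := by
    rw [Submodule.span_eq_bot]
    rintro _ ⟨y, rfl⟩
    refine (h_rel R I J).2.1 A y ?_
    intro hy
    have h3 := Fintype.card_le_of_injective y hy
    rw [Fintype.card_option] at h3
    omega
  rw [h2] at h1
  exact (Submodule.mem_bot R).1 h1

private theorem e1a_empty {I J : Type} {R : Type u} [Fintype I] [DecidableEq I] [Fintype J]
    [DecidableEq J] [CommRing R] (hI : IsEmpty I) (A : Matrix I J R) : Ex1 A := by
  intro x _
  have h1 : ∀ j : J, rel A (fun _ => j) = Pi.single j 1 := by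
    intro j
    funext j'
    unfold rel
    rw [Matrix.det_unique]
    simp only [Matrix.of_apply, Option.elim]
    have h2 : (default : Option I) = none := by
      cases h : (default : Option I) with
      | none => rfl
      | some i => exact hI.elim i
    rw [h2]
    simp only [Pi.single_apply]
    by_cases h3 : j = j'
    · simp [h3]
    · simp [h3, Ne.symm h3]
  have h2 : x = ∑ j, x j • (Pi.single j 1 : J → R) := by
    funext j'
    simp [Finset.sum_apply, Pi.single_apply]
  rw [h2]
  refine Submodule.sum_mem _ fun j _ => Submodule.smul_mem _ _ ?_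
  rw [← h1 j]
  exact Submodule.subset_span ⟨_, rfl⟩

theorem p_e1a (h_isc : S_isc) (h_e1s : S_e1s.{u}) (h_e1u : S_e1u.{u}) (h_spe : S_spe.{u})
    (h_gm : S_gm.{u}) (h_gs : S_gs.{u}) (h_re : S_re.{u}) (h_rel : S_rel.{u}) : S_e1a.{u} := by
  intro N I J _ _ _ _ a b hIJ hN hCD
  refine h_isc 0 (fun N I J _ _ _ _ a b => GE1.{u} N a b) ?_ ?_ ?_ ?_ ?_ N I J a b hIJ ?_ hCD
  · -- renaming
    intro N I J I' J' _ _ _ _ _ _ _ _ a b u v h
    exact (h_re N I J I' J' a b u v).1 h
  · -- no rows
    intro N I J _ _ _ _ a b hI k K _ _ _ A hA
    exact e1a_empty hI A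
  · -- square case
    intro N I J _ _ _ _ a b α β hc hN hb ha hβα hCD1 hCD2 hP k K _ _ _ A hA
    obtain ⟨N', rfl⟩ : ∃ N', N = N' + 1 := ⟨N - 1, by omega⟩
    have hG : Gen k a b (genMatrix k (N' + 1) a b) := h_gm k I J (N' + 1) a b
    have hE : Ex1 (genMatrix k (N' + 1) a b) :=
      hP k (GenField k (N' + 1) a b) _ hG
    refine h_spe k (GenField k (N' + 1) a b) K (Option I) (Option J) (N' + 1) (oext a α)
      (oext b β) (addCol (addRow (genMatrix k (N' + 1) a b) 0)
        (Pi.single none (X 0 ^ (α - β).toNat))) A ?_ ?_ hA
    · intro i j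
      cases j with
      | none =>
        cases i with
        | none =>
          have h1 : HomD (((α - β).toNat : ℕ) : ℤ)
              (X 0 ^ (α - β).toNat : MvPolynomial (Fin (N' + 1)) (GenField k (N' + 1) a b)) :=
            e1a_homD_pow 0 _
          rw [Int.toNat_of_nonneg (by omega)] at h1
          simpa [addCol, oext] using h1
        | some i =>
          simpa [addCol] using e1a_homD_zero _
      | some j =>
        cases i with
        | none => simpa [addCol, addRow] using e1a_homD_zero _
        | some i => exact hG.1 i j
    · intro x hx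
      have hx0 : x = 0 := by
        have h1 : (fun j => x (some j)) = 0 := by
          refine e1a_inj h_rel _ hE hc _ ?_
          funext i
          have h2 := congrFun hx (some i)
          simp only [Matrix.mulVec, dotProduct, Fintype.sum_option, addCol, addRow,
            Option.elim] at h2
          simpa [Matrix.mulVec, dotProduct] using h2
        funext j
        cases j with
        | some j => exact congrFun h1 j
        | none =>
          have h2 := congrFun hx none
          simp only [Matrix.mulVec, dotProduct, Fintype.sum_option, addCol, addRow,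
            Option.elim] at h2
          simpa using h2
      rw [hx0]
      exact Submodule.zero_mem _
  · -- unit case
    intro N I J _ _ _ _ a b β hc hN hCD1 hCD2 hCD3 hP k K _ _ _ A hA
    have hG : Gen k a b (genMatrix k N a b) := h_gm k I J N a b
    refine h_spe k (GenField k N a b) K (Option I) (Option J) N (oext a β)
      (oext b β) (addCol (addRow (genMatrix k N a b) 0) (Pi.single none 1)) A ?_ ?_ hA
    · intro i j
      cases j with
      | none =>
        cases i with
        | none => simpa [addCol, oext] using e1a_homD_one
        | some i => simpa [addCol] using e1a_homD_zero _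
      | some j =>
        cases i with
        | none => simpa [addCol, addRow] using e1a_homD_zero _
        | some i => exact hG.1 i j
    · exact h_e1u _ I J _ 0 (hP k (GenField k N a b) _ hG)
  · -- splitting case
    intro N I J _ _ _ _ a b α hI hc hN hb hCD1 hCD2 hCD3 hP hP2 k K _ _ _ A hA
    set G := genMatrix k (N + 1) (oext a α) b with hGdef
    have hG : Gen k (oext a α) b G := h_gm k I (Option J) (N + 1) (oext a α) b
    have hC : Gen k a b (G.submatrix id some) :=
      (h_gs k (GenField k (N + 1) (oext a α) b) I (Option J) (oext a α) b).1 (N + 1) G hG I J id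
        some Function.injective_id (Option.some_injective J)
    have hCr : Gen k a b ((G.submatrix id some).map red :
        Matrix I J (MvPolynomial (Fin N) (GenField k (N + 1) (oext a α) b))) :=
      (h_gs k (GenField k (N + 1) (oext a α) b) I J a b).2 N _ hC
    have hadd : addCol (G.submatrix id some) (fun i => G i none) = G := by
      funext i j
      cases j <;> rfl
    refine h_spe k (GenField k (N + 1) (oext a α) b) K I (Option J) (N + 1) (oext a (α + 1)) b
      (addCol (G.submatrix id some)
        ((X 0 : MvPolynomial (Fin (N + 1)) (GenField k (N + 1) (oext a α) b)) •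
          fun i => G i none)) A ?_ ?_ hA
    · intro i j
      cases j with
      | none =>
        have h1 := e1a_homD_X_mul (0 : Fin (N + 1)) _ _ (hG.1 i none)
        have h2 : oext a α none - b i + 1 = oext a (α + 1) none - b i := by
          simp only [oext, Option.elim]
          ring
        rw [h2] at h1
        exact h1
      | some j => exact hC.1 i j
    · refine h_e1s _ N I J _ _ ?_ (hP k (GenField k (N + 1) (oext a α) b) _ hCr)
      rw [hadd]
      exact hP2 k (GenField k (N + 1) (oext a α) b) _ hG
  · omega

end Pool.Agent.Lib.MP_09338f_ag
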