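import Pool.Agent.Lib.MP_09338f_ag.KM.Stm1

/-!
# MP_09338f_ag, project KM, piece e1s: the splitting step for `Ex1`
-/

set_option autoImplicit false

open MvPolynomial Matrix

universe u

namespace Pool.Agent.Lib.MP_09338f_ag

private lemma e1s_det {I : Type} {R : Type u} [Fintype I] [DecidableEq I] [CommRing R]
    (M M' : Matrix (Option I) (Option I) R) (s₀ : Option I)
    (h0 : ∀ s, M none s = M' none s) (h0' : ∀ s, s ≠ s₀ → M' none s = 0)
    (h1 : ∀ r s, s ≠ s₀ → M r s = M' r s) : M.det = M'.det := by
  have hM : M = M'.updateCol s₀ ((fun r => M' r s₀) + fun r => M r s₀ - M' r s₀) := by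
    ext r s
    by_cases hs : s = s₀
    · subst hs
      rw [Matrix.updateCol_self]
      simp
    · rw [Matrix.updateCol_ne hs, h1 r s hs]
  have e1 : M'.updateCol s₀ (fun r => M' r s₀) = M' := by
    ext r s
    by_cases hs : s = s₀
    · subst hs
      rw [Matrix.updateCol_self]
    · rw [Matrix.updateCol_ne hs]
  have e2 : (M'.updateCol s₀ (fun r => M r s₀ - M' r s₀)).det = 0 := by
    refine Matrix.det_eq_zero_of_row_eq_zero none fun s => ?_
    by_cases hs : s = s₀
    · subst hs; rw [Matrix.updateCol_self, h0, sub_self]
    · rw [Matrix.updateCol_ne hs]; exact h0' s hs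
  rw [hM, Matrix.det_updateCol_add, e1, e2, add_zero]

private lemma e1s_smul {I : Type} {R : Type u} [Fintype I] [DecidableEq I] [CommRing R]
    (M M' : Matrix (Option I) (Option I) R) (s₀ : Option I) (c : R)
    (h0 : ∀ r, M r s₀ = c * M' r s₀)
    (h1 : ∀ r s, s ≠ s₀ → M r s = M' r s) : M.det = c * M'.det := by
  have hM : M = M'.updateCol s₀ (c • fun r => M' r s₀) := by
    ext r s
    by_cases hs : s = s₀
    · subst hs
      rw [Matrix.updateCol_self, h0]
      simp
    · rw [Matrix.updateCol_ne hs, h1 r s hs]
  have e1 : M'.updateCol s₀ (fun r => M' r s₀) = M' := by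
    ext r s
    by_cases hs : s = s₀
    · subst hs
      rw [Matrix.updateCol_self]
    · rw [Matrix.updateCol_ne hs]
  rw [hM, Matrix.det_updateCol_smul, e1]

private lemma e1s_none {R : Type u} [CommRing R] {I J : Type} [Fintype I] [DecidableEq I]
    [Fintype J] [DecidableEq J] (C : Matrix I J R) (w : I → R) (c : R) {y : Option I → Option J}
    (hy : Function.Injective y) {s₀ : Option I} (hs : y s₀ = none) :
    rel (addCol C (c • w)) y none = rel (addCol C w) y none := by
  unfold rel
  refine e1s_det _ _ s₀ (fun s => rfl) ?_ ?_
  · intro s hss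
    show (if y s = none then (1 : R) else 0) = 0
    rw [if_neg]
    intro h
    exact hss (hy (h.trans hs.symm))
  · intro r s hss
    cases r with
    | none => rfl
    | some i =>
      show addCol C (c • w) i (y s) = addCol C w i (y s)
      cases h : y s with
      | none => exact absurd (hy (h.trans hs.symm)) hss
      | some j => rfl

private lemma e1s_some {R : Type u} [CommRing R] {I J : Type} [Fintype I] [DecidableEq I]
    [Fintype J] [DecidableEq J] (C : Matrix I J R) (w : I → R) (c : R) {y : Option I → Option J}
    (hy : Function.Injective y) {s₀ : Option I} (hs : y s₀ = none) (j : J) :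
    rel (addCol C (c • w)) y (some j) = c * rel (addCol C w) y (some j) := by
  unfold rel
  refine e1s_smul _ _ s₀ c ?_ ?_
  · intro r
    cases r with
    | none =>
      show (if y s₀ = some j then (1 : R) else 0) = c * (if y s₀ = some j then (1 : R) else 0)
      rw [hs, if_neg (by simp), mul_zero]
    | some i =>
      show addCol C (c • w) i (y s₀) = c * addCol C w i (y s₀)
      rw [hs]
      rfl
  · intro r s hss
    cases r with
    | none => rfl
    | some i =>
      show addCol C (c • w) i (y s) = addCol C w i (y s)
      cases h : y s with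
      | none => exact absurd (hy (h.trans hs.symm)) hss
      | some j => rfl

/-- multiplication of the components `some j` by `c` -/
private def e1s_tau {R : Type u} [CommRing R] {J : Type} (c : R) :
    (Option J → R) →ₗ[R] (Option J → R) where
  toFun f j := j.elim (f none) fun j => c * f (some j)
  map_add' f g := by
    funext j
    cases j with
    | none => rfl
    | some j => exact mul_add _ _ _
  map_smul' a f := by
    funext j
    cases j with
    | none => rfl
    | some j =>
      show c * (a * f (some j)) = a * (c * f (some j))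
      ring

theorem p_e1s (h_rel : S_rel.{u}) (h_redk : S_redk.{u}) : S_e1s.{u} := by
  classical
  intro K _ N I J _ _ _ _ C w hA2 hC x hx
  obtain ⟨hk1, hk2, hk3, -, -, -⟩ := h_redk K N
  obtain ⟨hr1, hr2, hr3⟩ := h_rel (MvPolynomial (Fin (N + 1)) K) I (Option J)
  obtain ⟨-, -, hr3'⟩ := h_rel (MvPolynomial (Fin (N + 1)) K) I J
  set A : Matrix I (Option J) (MvPolynomial (Fin (N + 1)) K) :=
    addCol C ((X 0 : MvPolynomial (Fin (N + 1)) K) • w) with hA
  have hmv : ∀ (v : I → MvPolynomial (Fin (N + 1)) K) (z : Option J → MvPolynomial (Fin (N + 1)) K)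
      (i : I), (addCol C v).mulVec z i = v i * z none + ∑ j, C i j * z (some j) := by
    intro v z i
    rw [Matrix.mulVec, dotProduct, Fintype.sum_option]
    rfl
  -- reduction modulo `x_0`
  have h1 : (C.map red).mulVec (fun j => (red (x (some j)) : MvPolynomial (Fin N) K)) = 0 := by
    funext i
    have h2 := congrArg (fun f => (red (f i) : MvPolynomial (Fin N) K)) hx
    simp only [hA, hmv, Pi.smul_apply, smul_eq_mul, map_add, map_mul, hk3, zero_mul, zero_add,
      map_sum, Pi.zero_apply, map_zero] at h2
    exact h2
  have h2 := hC _ h1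
  -- lifting of relations
  have h3 : ∀ u ∈ Submodule.span (MvPolynomial (Fin N) K) (Set.range (rel (C.map red))),
      ∃ r ∈ Submodule.span (MvPolynomial (Fin (N + 1)) K) (Set.range (rel A)), r none = 0 ∧
        ∀ j, (red (r (some j)) : MvPolynomial (Fin N) K) = u j := by
    intro u hu
    induction hu using Submodule.span_induction with
    | mem u hu =>
      obtain ⟨z, rfl⟩ := hu
      refine ⟨rel A (fun s => some (z s)), Submodule.subset_span ⟨_, rfl⟩, ?_, fun j => ?_⟩
      · rw [hA, hr3']; rfl
      · rw [hA, hr3']
        show red (rel C z j) = rel (C.map red) z j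
        unfold rel
        rw [AlgHom.map_det]
        congr 1
        ext r s
        cases r with
        | none =>
          show coeff _ (red (if z s = j then (1 : MvPolynomial (Fin (N + 1)) K) else 0)) =
            coeff _ (if z s = j then (1 : MvPolynomial (Fin N) K) else 0)
          split_ifs
          · rw [map_one]
          · rw [map_zero]
        | some i => rfl
    | zero => exact ⟨0, Submodule.zero_mem _, rfl, fun j => map_zero _⟩
    | add u v _ _ ihu ihv =>
      obtain ⟨r, h1, h2, h3⟩ := ihu
      obtain ⟨r', h1', h2', h3'⟩ := ihv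
      refine ⟨r + r', Submodule.add_mem _ h1 h1', ?_, fun j => ?_⟩
      · rw [Pi.add_apply, h2, h2', add_zero]
      · rw [Pi.add_apply, map_add, h3, h3', Pi.add_apply]
    | smul a u _ ihu =>
      obtain ⟨r, h1, h2, h3⟩ := ihu
      refine ⟨(rename Fin.succ a : MvPolynomial (Fin (N + 1)) K) • r,
        Submodule.smul_mem _ _ h1, ?_, fun j => ?_⟩
      · rw [Pi.smul_apply, h2, smul_zero]
      · rw [Pi.smul_apply, smul_eq_mul, map_mul, hk1, h3, Pi.smul_apply, smul_eq_mul]
  obtain ⟨r, hr, hrn, hrj⟩ := h3 _ h2
  -- relations are relations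
  have h4 : ∀ z ∈ Submodule.span (MvPolynomial (Fin (N + 1)) K) (Set.range (rel A)),
      A.mulVec z = 0 := by
    intro z hz
    induction hz using Submodule.span_induction with
    | mem z hz =>
      obtain ⟨y, rfl⟩ := hz
      exact hr1 A y
    | zero => exact Matrix.mulVec_zero _
    | add u v _ _ ihu ihv => rw [Matrix.mulVec_add, ihu, ihv, add_zero]
    | smul a u _ ihu => rw [Matrix.mulVec_smul, ihu, smul_zero]
  -- division by `x_0`
  have h5 : ∀ j, ∃ q : MvPolynomial (Fin (N + 1)) K, (x - r) (some j) = X 0 * q := by
    intro j
    refine hk2 _ ?_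
    rw [Pi.sub_apply, map_sub, hrj, sub_self]
  choose u' hu' using h5
  have h6 : A.mulVec (x - r) = 0 := by
    rw [Matrix.mulVec_sub, hx, h4 r hr, sub_zero]
  have hX : (X 0 : MvPolynomial (Fin (N + 1)) K) ≠ 0 := X_ne_zero _
  have h7 : (addCol C w).mulVec (fun j : Option J => j.elim (x none) u') = 0 := by
    funext i
    rw [hmv]
    have h8 := congrFun h6 i
    rw [hA, hmv, Pi.smul_apply, smul_eq_mul, Pi.sub_apply, hrn, sub_zero, Pi.zero_apply] at h8
    have h9 : ∑ j, C i j * (x - r) (some j) = X 0 * ∑ j, C i j * u' j := by
      rw [Finset.mul_sum]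
      refine Finset.sum_congr rfl fun j _ => ?_
      rw [hu' j]
      ring
    rw [h9, mul_assoc, ← mul_add] at h8
    exact (mul_eq_zero.1 h8).resolve_left hX
  have h8 := hA2 _ h7
  -- transfer
  have h9 : ∀ z ∈ Submodule.span (MvPolynomial (Fin (N + 1)) K)
      (Set.range (rel (addCol C w))), e1s_tau (X 0 : MvPolynomial (Fin (N + 1)) K) z ∈
        Submodule.span (MvPolynomial (Fin (N + 1)) K) (Set.range (rel A)) := by
    intro z hz
    induction hz using Submodule.span_induction with
    | mem z hz =>
      obtain ⟨y, rfl⟩ := hz
      by_cases hy : Function.Injective y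
      · by_cases hn : ∃ s, y s = none
        · obtain ⟨s, hs⟩ := hn
          have e : e1s_tau (X 0 : MvPolynomial (Fin (N + 1)) K) (rel (addCol C w) y) =
              rel A y := by
            funext j
            cases j with
            | none => exact (e1s_none C w _ hy hs).symm
            | some j => exact (e1s_some C w _ hy hs j).symm
          rw [e]
          exact Submodule.subset_span ⟨y, rfl⟩
        · push Not at hn
          have hy' : ∀ s, ∃ j, y s = some j := fun s => Option.ne_none_iff_exists'.1 (hn s)
          choose y' hy' using hy'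
          have ey : y = fun s => some (y' s) := funext hy'
          have e : e1s_tau (X 0 : MvPolynomial (Fin (N + 1)) K) (rel (addCol C w) y) =
              (X 0 : MvPolynomial (Fin (N + 1)) K) • rel A y := by
            rw [ey, hA, hr3', hr3']
            funext j
            cases j with
            | none => exact (mul_zero _).symm
            | some j => rfl
          rw [e]
          exact Submodule.smul_mem _ _ (Submodule.subset_span ⟨y, rfl⟩)
      · rw [hr2 _ y hy, map_zero]
        exact Submodule.zero_mem _
    | zero => rw [map_zero]; exact Submodule.zero_mem _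
    | add u v _ _ ihu ihv => rw [map_add]; exact Submodule.add_mem _ ihu ihv
    | smul a u _ ihu => rw [map_smul]; exact Submodule.smul_mem _ _ ihu
  have h10 := h9 _ h8
  have h11 : x = e1s_tau (X 0 : MvPolynomial (Fin (N + 1)) K)
      (fun j : Option J => j.elim (x none) u') + r := by
    funext j
    cases j with
    | none =>
      show x none = x none + r none
      rw [hrn, add_zero]
    | some j =>
      show x (some j) = X 0 * u' j + r (some j)
      rw [← hu' j, Pi.sub_apply, sub_add_cancel]
  rw [h11]
  exact Submodule.add_mem _ h10 hr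

end Pool.Agent.Lib.MP_09338f_ag
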