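import Pool.Agent.Lib.MP_09338f_ag.KM.Stm3

/-!
# Project KM, piece ena: endomorphisms of degree `0` are scalars
-/

set_option autoImplicit false

open MvPolynomial Matrix

universe u

namespace Pool.Agent.Lib.MP_09338f_ag

section aux

variable {I J I' J' : Type} [Fintype I] [DecidableEq I] [Fintype J] [DecidableEq J]
  [Fintype I'] [DecidableEq I'] [Fintype J'] [DecidableEq J']

omit [DecidableEq I] [DecidableEq J] [DecidableEq I'] [DecidableEq J'] in
private theorem ena_CD2 (s : I' ≃ I) (v : J' ≃ J) {a : J → ℤ} {b : I → ℤ} (h : CD2 a b) :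
    CD2 (a ∘ v) (b ∘ s) := by
  intro i
  have h1 : (Finset.univ.filter fun j => a (v j) < b (s i)).card =
      (Finset.univ.filter fun j => a j < b (s i)).card := Finset.card_equiv v (by simp)
  have h2 : (Finset.univ.filter fun i' => b (s i') < b (s i)).card =
      (Finset.univ.filter fun i' => b i' < b (s i)).card := Finset.card_equiv s (by simp)
  have h3 := h (s i)
  rw [← h1, ← h2] at h3
  exact h3

omit [Fintype J] in
private theorem ena_oext (j₀ : J) (a : J → ℤ) :
    a ∘ (Equiv.optionSubtypeNe j₀) = oext (fun j : {j // j ≠ j₀} => a j) (a j₀) := by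
  funext j
  cases j <;> rfl

omit [DecidableEq I] [DecidableEq J] in
private theorem ena_CD1 {a : J → ℤ} {b : I → ℤ} (h : CD1 a b) :
    CD1 (Sum.elim a (fun e : Empty => (e.elim : ℤ))) b := by
  intro i
  refine le_trans (le_of_eq ?_) (h i)
  symm
  refine Finset.card_equiv (Equiv.sumEmpty J Empty).symm ?_
  intro j
  simp

private theorem ena_cardNe (i₀ : I) : Fintype.card {i // i ≠ i₀} + 1 = Fintype.card I := by
  rw [← Fintype.card_option]
  exact Fintype.card_congr (Equiv.optionSubtypeNe i₀)

end aux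

/-- [ena] Endomorphisms of degree `0` are scalars. -/
theorem p_ena (h_hpa : S_hpa.{u}) (h_hpo : S_hpo.{u}) (h_hun : S_hun.{u}) (h_cd : S_cd)
    (h_rh : S_rh.{u}) : S_ena.{u} := by
  have key : ∀ (n N : ℕ) (I J : Type) [Fintype I] [DecidableEq I] [Fintype J] [DecidableEq J]
      (a : J → ℤ) (b : I → ℤ), Fintype.card I ≤ n → Fintype.card I + 1 ≤ Fintype.card J →
      Fintype.card J + 1 ≤ Fintype.card I + N → CD2 a b →
      GHP.{u} N a (fun e : Empty => e.elim) b := by
    intro n
    induction n with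
    | zero =>
      intro N I J _ _ _ _ a b hn hc hN hCD k K _ _ _ C W _
      exact h_hpo K N I J Empty b C W (by omega)
    | succ n ih =>
      intro N I J _ _ _ _ a b hn hc hN hCD
      by_cases hU : ∃ i₀ j₀, a j₀ = b i₀
      · obtain ⟨i₀, j₀, h⟩ := hU
        refine h_rh N I J Empty (Option {i // i ≠ i₀}) (Option {j // j ≠ j₀}) Empty a _ b
          (Equiv.optionSubtypeNe i₀) (Equiv.optionSubtypeNe j₀) (Equiv.refl Empty) ?_
        have hCD' := ena_CD2 (Equiv.optionSubtypeNe i₀) (Equiv.optionSubtypeNe j₀) hCD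
        rw [ena_oext i₀ b, ena_oext j₀ a, h] at hCD' ⊢
        have hcI := ena_cardNe i₀
        have hcJ := ena_cardNe j₀
        have h5 := (h_cd {i // i ≠ i₀} {j // j ≠ j₀} (fun j : {j // j ≠ j₀} => a j)
          (fun i : {i // i ≠ i₀} => b i)).2.2.2.2.2 _ hCD'
        have hE : Fintype.card Empty = 0 := rfl
        exact h_hun N {i // i ≠ i₀} {j // j ≠ j₀} Empty (fun j : {j // j ≠ j₀} => a j) _
          (fun i : {i // i ≠ i₀} => b i) (b i₀) (by omega) (by omega)
          (ena_CD1 ((h_cd _ _ _ _).2.1 h5))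
          (ih N _ _ _ _ (by omega) (by omega) (by omega) h5)
      · push Not at hU
        have hCD3 : CD3 a b := (h_cd I J a b).2.2.1 (fun i j => hU i j) hCD
        exact h_hpa N I J Empty a _ b (by simp) hc (by simpa using hN) hCD3
          (fun e => e.elim) (fun e => e.elim)
  intro N I J _ _ _ _ a b hc hN hCD
  exact key _ N I J a b le_rfl hc hN hCD

end Pool.Agent.Lib.MP_09338f_ag
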