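import Pool.Agent.Lib.MP_09338f_ag.KM.Stm2

/-!
# Project KM, piece ex: exactness at the special point implies exactness at the generic point.
-/

set_option autoImplicit false

universe u

namespace Pool.Agent.Lib.MP_09338f_ag

/-- The space of the `x` for which `∑ x_i a_i` is a combination of the `b_i`. -/
private noncomputable def ex_T {L : Type u} [Field L] {ι₁ ι₃ X : Type} [Fintype ι₁] [Fintype ι₃]
    (a : ι₁ → X → L) (b : ι₃ → X → L) : Submodule L (ι₁ → L) :=
  Submodule.comap (Fintype.linearCombination L a) (LinearMap.range (Fintype.linearCombination L b))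

private theorem ex_mem_T {L : Type u} [Field L] {ι₁ ι₃ X : Type} [Fintype ι₁] [Fintype ι₃]
    (a : ι₁ → X → L) (b : ι₃ → X → L) (x : ι₁ → L) :
    x ∈ ex_T a b ↔ ∃ y : ι₃ → L, ∀ p, ∑ i, x i * a i p = ∑ i, y i * b i p := by
  unfold ex_T
  rw [Submodule.mem_comap, LinearMap.mem_range]
  constructor
  · rintro ⟨y, hy⟩
    refine ⟨y, fun p => ?_⟩
    have := congrFun hy p
    simp only [Fintype.linearCombination_apply, Finset.sum_apply, Pi.smul_apply,
      smul_eq_mul] at this
    exact this.symm
  · rintro ⟨y, hy⟩
    refine ⟨y, ?_⟩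
    funext p
    simp only [Fintype.linearCombination_apply, Finset.sum_apply, Pi.smul_apply, smul_eq_mul]
    exact (hy p).symm

private theorem ex_dim {L : Type u} [Field L] {ι₁ ι₃ X : Type} [Fintype ι₁] [Fintype ι₃]
    (a : ι₁ → X → L) (b : ι₃ → X → L) :
    Module.finrank L (ex_T a b) + Module.finrank L (Submodule.span L (Set.range (Sum.elim a b))) =
      Fintype.card ι₁ + Module.finrank L (Submodule.span L (Set.range b)) := by
  set F := Fintype.linearCombination L a with hF
  set G := Fintype.linearCombination L b with hG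
  have hrF : LinearMap.range F = Submodule.span L (Set.range a) :=
    Fintype.range_linearCombination L a
  have hrG : LinearMap.range G = Submodule.span L (Set.range b) :=
    Fintype.range_linearCombination L b
  have hsup : Submodule.span L (Set.range (Sum.elim a b)) = LinearMap.range F ⊔ LinearMap.range G := by
    rw [Set.Sum.elim_range, Submodule.span_union, hrF, hrG]
  have h1 := Submodule.finrank_sup_add_finrank_inf_eq (LinearMap.range F) (LinearMap.range G)
  have h2 := LinearMap.finrank_range_add_finrank_ker F
  have h3 := LinearMap.finrank_range_add_finrank_ker (F.domRestrict (ex_T a b))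
  have h4 : LinearMap.range (F.domRestrict (ex_T a b)) = LinearMap.range F ⊓ LinearMap.range G := by
    rw [LinearMap.range_domRestrict]
    unfold ex_T
    rw [← hF, ← hG, Submodule.map_comap_eq]
  have h5 : Module.finrank L (LinearMap.ker (F.domRestrict (ex_T a b))) =
      Module.finrank L (LinearMap.ker F) := by
    have h6 : LinearMap.ker F ≤ ex_T a b := by
      intro x hx
      unfold ex_T
      rw [Submodule.mem_comap, ← hF, LinearMap.mem_ker.mp hx]
      exact Submodule.zero_mem _
    have h7 : LinearMap.ker (F.domRestrict (ex_T a b)) = (LinearMap.ker F).comap (ex_T a b).subtype := by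
      ext x
      simp [LinearMap.mem_ker]
    rw [h7]
    exact (Submodule.comapSubtypeEquivOfLe h6).finrank_eq
  rw [h4, h5] at h3
  rw [Module.finrank_fintype_fun_eq_card] at h2
  rw [hsup, ← hrG]
  omega

/-- [ex] Exactness at the special point implies exactness at the generic point. -/
theorem p_ex (h_sc : S_sc.{u}) : S_ex.{u} := by
  intro O K₀ K _ _ _ _ f g hg ι₀ ι₁ ι₃ ι₄ X _ _ _ _ φ ψ ξ ω H1 H2 H3 H4
  -- the families over the two fields
  set af : ι₁ → X → K₀ := fun i p => f (φ i p) with haf
  set bf : ι₃ → X → K₀ := fun i p => f (ψ i p) with hbf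
  set ag : ι₁ → X → K := fun i p => g (φ i p) with hag
  set bg : ι₃ → X → K := fun i p => g (ψ i p) with hbg
  set xf : ι₀ → ι₁ → K₀ := fun l i => f (ξ l i) with hxf
  set xg : ι₀ → ι₁ → K := fun l i => g (ξ l i) with hxg
  set wf : ι₄ → ι₃ → K₀ := fun l i => f (ω l i) with hwf
  set wg : ι₄ → ι₃ → K := fun l i => g (ω l i) with hwg
  have s1 := h_sc O K₀ K f g hg ι₀ ι₁ ξ
  have s2 := h_sc O K₀ K f g hg ι₄ ι₃ ω
  have s3 := h_sc O K₀ K f g hg (ι₁ ⊕ ι₃) X (Sum.elim φ ψ)
  have e3f : (fun (i : ι₁ ⊕ ι₃) (x : X) => f (Sum.elim φ ψ i x)) = Sum.elim af bf := by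
    funext i x
    rcases i with i | i <;> rfl
  have e3g : (fun (i : ι₁ ⊕ ι₃) (x : X) => g (Sum.elim φ ψ i x)) = Sum.elim ag bg := by
    funext i x
    rcases i with i | i <;> rfl
  rw [e3f, e3g] at s3
  have df := ex_dim af bf
  have dg := ex_dim ag bg
  -- the kernel of `ψ`
  have kf := LinearMap.finrank_range_add_finrank_ker (Fintype.linearCombination K₀ bf)
  have kg := LinearMap.finrank_range_add_finrank_ker (Fintype.linearCombination K bg)
  rw [Fintype.range_linearCombination, Module.finrank_fintype_fun_eq_card] at kf kg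
  have lf : Module.finrank K₀ (LinearMap.ker (Fintype.linearCombination K₀ bf)) ≤
      Module.finrank K₀ (Submodule.span K₀ (Set.range wf)) := by
    apply Submodule.finrank_mono
    intro y hy
    have hy' := LinearMap.mem_ker.mp hy
    obtain ⟨z, hz⟩ := H2 y (fun p => by
      have := congrFun hy' p
      simpa only [Fintype.linearCombination_apply, Finset.sum_apply, Pi.smul_apply,
        smul_eq_mul, Pi.zero_apply] using this)
    rw [← Fintype.range_linearCombination K₀ wf]
    refine ⟨z, ?_⟩
    funext i
    simp only [Fintype.linearCombination_apply, Finset.sum_apply, Pi.smul_apply, smul_eq_mul]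
    exact (hz i).symm
  have lg : Module.finrank K (Submodule.span K (Set.range wg)) ≤
      Module.finrank K (LinearMap.ker (Fintype.linearCombination K bg)) := by
    apply Submodule.finrank_mono
    rw [Submodule.span_le]
    rintro _ ⟨l, rfl⟩
    rw [SetLike.mem_coe, LinearMap.mem_ker]
    funext p
    simp only [Fintype.linearCombination_apply, Finset.sum_apply, Pi.smul_apply, smul_eq_mul]
    exact H3 l p
  -- the special point
  have tf : Module.finrank K₀ (ex_T af bf) ≤ Module.finrank K₀ (Submodule.span K₀ (Set.range xf)) := by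
    apply Submodule.finrank_mono
    intro x hx
    obtain ⟨y, hy⟩ := (ex_mem_T af bf x).mp hx
    obtain ⟨z, hz⟩ := H1 x y hy
    rw [← Fintype.range_linearCombination K₀ xf]
    refine ⟨z, ?_⟩
    funext i
    simp only [Fintype.linearCombination_apply, Finset.sum_apply, Pi.smul_apply, smul_eq_mul]
    exact (hz i).symm
  -- the generic point
  have tg : Submodule.span K (Set.range xg) ≤ ex_T ag bg := by
    rw [Submodule.span_le]
    rintro _ ⟨l, rfl⟩
    exact (ex_mem_T ag bg (xg l)).mpr (H4 l)
  have key : Submodule.span K (Set.range xg) = ex_T ag bg := by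
    apply Submodule.eq_of_le_of_finrank_le tg
    have s1' : Module.finrank K₀ (Submodule.span K₀ (Set.range xf)) ≤
      Module.finrank K (Submodule.span K (Set.range xg)) := s1
    have s2' : Module.finrank K₀ (Submodule.span K₀ (Set.range wf)) ≤
      Module.finrank K (Submodule.span K (Set.range wg)) := s2
    omega
  intro x y hxy
  have hx : x ∈ ex_T ag bg := (ex_mem_T ag bg x).mpr ⟨y, hxy⟩
  rw [← key, ← Fintype.range_linearCombination K xg] at hx
  obtain ⟨z, hz⟩ := hx
  refine ⟨z, fun i => ?_⟩
  have := congrFun hz i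
  simp only [Fintype.linearCombination_apply, Finset.sum_apply, Pi.smul_apply, smul_eq_mul] at this
  exact this.symm

end Pool.Agent.Lib.MP_09338f_ag
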