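import Pool.Agent.Lib.MP_09338f_ag.KM.Stm2

set_option autoImplicit false
set_option linter.unusedSectionVars false
set_option linter.unusedVariables false

open MvPolynomial Matrix

universe u

namespace Pool.Agent.Lib.MP_09338f_ag

/-- index set of the coefficients of the homogeneous tuples -/
def exg_I (N : ℕ) (Q : Type) (D : Q → ℤ) (d : ℤ) : Type :=
  {p : Q × (Fin N →₀ ℕ) // ((p.2.degree : ℕ) : ℤ) = d - D p.1}

instance exg_fin (N : ℕ) (Q : Type) [Fintype Q] (D : Q → ℤ) (d : ℤ) : Finite (exg_I N Q D d) := by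
  obtain ⟨B, hB⟩ : ∃ B : ℕ, ∀ q, d - D q ≤ B := by
    obtain ⟨B, hB⟩ := (Set.finite_range fun q => (d - D q).toNat).bddAbove
    refine ⟨B, fun q => ?_⟩
    have h1 : (d - D q).toNat ≤ B := hB ⟨q, rfl⟩
    omega
  let F : exg_I N Q D d → Q × (Fin N → Fin (B + 1)) := fun p =>
    (p.1.1, fun i => ⟨p.1.2 i, by
      have h1 : p.1.2 i ≤ p.1.2.degree := Finsupp.le_degree i p.1.2
      have h2 := p.2
      have h3 := hB p.1.1
      omega⟩)
  refine Finite.of_injective F ?_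
  intro p p' h
  apply Subtype.ext
  have h1 := congrArg Prod.fst h
  have h2 := congrArg Prod.snd h
  refine Prod.ext h1 ?_
  ext i
  have h3 := congrArg Fin.val (congrFun h2 i)
  exact h3

noncomputable instance exg_fint (N : ℕ) (Q : Type) [Fintype Q] (D : Q → ℤ) (d : ℤ) :
    Fintype (exg_I N Q D d) := Fintype.ofFinite _

section
variable {N : ℕ} {Q Q' Q'' : Type} [Fintype Q] [DecidableEq Q] [Fintype Q'] [DecidableEq Q']
  [Fintype Q''] [DecidableEq Q''] {D : Q → ℤ} {D' : Q' → ℤ} {D'' : Q'' → ℤ} {d : ℤ}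
  {S : Type u} [CommRing S]

/-- the tuple with given coefficients -/
noncomputable def exg_p (x : exg_I N Q D d → S) : Q → MvPolynomial (Fin N) S := fun q =>
  ∑ i, if i.1.1 = q then monomial i.1.2 (x i) else 0

/-- the coefficients of a tuple -/
noncomputable def exg_c (D : Q → ℤ) (d : ℤ) (u : Q → MvPolynomial (Fin N) S) :
    exg_I N Q D d → S := fun i => coeff i.1.2 (u i.1.1)

/-- the matrix on the coefficients -/
noncomputable def exg_m (D : Q → ℤ) (d : ℤ) (A : Matrix Q' Q (MvPolynomial (Fin N) S))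
    (i : exg_I N Q D d) (p : Q' × (Fin N →₀ ℕ)) : S :=
  coeff p.2 (A p.1 i.1.1 * monomial i.1.2 1)

lemma exg_coeff (x : exg_I N Q D d → S) (i : exg_I N Q D d) :
    coeff i.1.2 (exg_p x i.1.1) = x i := by
  classical
  simp only [exg_p, coeff_sum]
  rw [Finset.sum_eq_single i]
  · simp
  · intro j _ hj
    by_cases h : j.1.1 = i.1.1
    · rw [if_pos h, coeff_monomial, if_neg]
      intro h2
      exact hj (Subtype.ext (Prod.ext h h2))
    · rw [if_neg h, coeff_zero]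
  · intro h; exact absurd (Finset.mem_univ _) h

lemma exg_hom_iff {e : ℤ} {p : MvPolynomial (Fin N) S} :
    HomD e p ↔ ∀ m, ((m.degree : ℕ) : ℤ) ≠ e → coeff m p = 0 := by
  constructor
  · intro h m hm
    by_contra hc
    exact hm (h m (mem_support_iff.2 hc))
  · intro h m hm
    by_contra hc
    exact mem_support_iff.1 hm (h m hc)

lemma exg_hp (x : exg_I N Q D d → S) (q : Q) : HomD (d - D q) (exg_p x q) := by
  rw [exg_hom_iff]
  intro m hm
  simp only [exg_p, coeff_sum]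
  refine Finset.sum_eq_zero fun j _ => ?_
  by_cases h : j.1.1 = q
  · rw [if_pos h, coeff_monomial, if_neg]
    rintro rfl
    exact hm (by rw [j.2, h])
  · rw [if_neg h, coeff_zero]

lemma exg_map {S' : Type u} [CommRing S'] (f : S →+* S') {A : Matrix Q' Q (MvPolynomial (Fin N) S)}
    (hA : HomM D D' A) : HomM D D' (A.map (MvPolynomial.map f)) := by
  intro i j
  rw [exg_hom_iff]
  intro m hm
  rw [Matrix.map_apply, coeff_map, exg_hom_iff.1 (hA i j) m hm, map_zero]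

lemma exg_mulVec (A : Matrix Q' Q (MvPolynomial (Fin N) S)) (x : exg_I N Q D d → S)
    (p : Q' × (Fin N →₀ ℕ)) :
    coeff p.2 (A.mulVec (exg_p x) p.1) = ∑ i, x i * exg_m D d A i p := by
  simp only [Matrix.mulVec, dotProduct, exg_p, Finset.mul_sum, mul_ite, mul_zero]
  rw [Finset.sum_comm]
  simp only [Finset.sum_ite_eq, Finset.mem_univ, if_true, coeff_sum, exg_m]
  refine Finset.sum_congr rfl fun i _ => ?_
  have h1 : monomial i.1.2 (x i) = C (x i) * monomial i.1.2 (1 : S) := by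
    rw [C_mul_monomial, mul_one]
  rw [h1, mul_left_comm, coeff_C_mul]

lemma exg_mul1 {e n : ℤ} {p u v : MvPolynomial (Fin N) S} (hp : HomD e p)
    (h : ∀ m, ((m.degree : ℕ) : ℤ) = n → coeff m u = coeff m v) (m : Fin N →₀ ℕ)
    (hm : ((m.degree : ℕ) : ℤ) = n + e) : coeff m (p * u) = coeff m (p * v) := by
  classical
  rw [coeff_mul, coeff_mul]
  refine Finset.sum_congr rfl fun x hx => ?_
  by_cases hx1 : ((x.1.degree : ℕ) : ℤ) = e
  · rw [Finset.HasAntidiagonal.mem_antidiagonal] at hx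
    rw [h]
    rw [← hx, map_add] at hm
    push_cast at hm
    linarith
  · rw [exg_hom_iff.1 hp _ hx1, zero_mul, zero_mul]

lemma exg_mul2 {e n : ℤ} {p u : MvPolynomial (Fin N) S} (hp : HomD e p) (hu : HomD n u) :
    HomD (n + e) (p * u) := by
  classical
  rw [exg_hom_iff]
  intro m hm
  rw [coeff_mul]
  refine Finset.sum_eq_zero fun x hx => ?_
  by_cases hx1 : ((x.1.degree : ℕ) : ℤ) = e
  · rw [Finset.HasAntidiagonal.mem_antidiagonal] at hx
    rw [exg_hom_iff.1 hu, mul_zero]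
    intro h
    apply hm
    rw [← hx, map_add]
    push_cast
    linarith
  · rw [exg_hom_iff.1 hp _ hx1, zero_mul]

lemma exg_mv1 {A : Matrix Q' Q (MvPolynomial (Fin N) S)} (hA : HomM D D' A)
    {u v : Q → MvPolynomial (Fin N) S}
    (h : ∀ q m, ((m.degree : ℕ) : ℤ) = d - D q → coeff m (u q) = coeff m (v q))
    (r : Q') (m : Fin N →₀ ℕ) (hm : ((m.degree : ℕ) : ℤ) = d - D' r) :
    coeff m (A.mulVec u r) = coeff m (A.mulVec v r) := by
  simp only [Matrix.mulVec, dotProduct, coeff_sum]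
  refine Finset.sum_congr rfl fun q _ => ?_
  exact exg_mul1 (hA r q) (h q) m (by rw [hm]; ring)

lemma exg_mv2 {A : Matrix Q' Q (MvPolynomial (Fin N) S)} (hA : HomM D D' A)
    {u : Q → MvPolynomial (Fin N) S} (hu : ∀ q, HomD (d - D q) (u q)) (r : Q') :
    HomD (d - D' r) (A.mulVec u r) := by
  rw [exg_hom_iff]
  intro m hm
  simp only [Matrix.mulVec, dotProduct, coeff_sum]
  refine Finset.sum_eq_zero fun q _ => ?_
  have h1 := exg_mul2 (hA r q) (hu q)
  rw [exg_hom_iff] at h1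
  exact h1 m (by intro h; apply hm; rw [h]; ring)

lemma exg_pc (u : Q → MvPolynomial (Fin N) S) (q : Q) (m : Fin N →₀ ℕ)
    (hm : ((m.degree : ℕ) : ℤ) = d - D q) :
    coeff m (exg_p (exg_c D d u) q) = coeff m (u q) :=
  exg_coeff (exg_c D d u) ⟨(q, m), hm⟩

lemma exg_ext {u v : Q → MvPolynomial (Fin N) S} (hu : ∀ q, HomD (d - D q) (u q))
    (hv : ∀ q, HomD (d - D q) (v q))
    (h : ∀ i : exg_I N Q D d, coeff i.1.2 (u i.1.1) = coeff i.1.2 (v i.1.1)) : u = v := by
  funext q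
  ext m
  by_cases hm : ((m.degree : ℕ) : ℤ) = d - D q
  · exact h ⟨(q, m), hm⟩
  · rw [exg_hom_iff.1 (hu q) m hm, exg_hom_iff.1 (hv q) m hm]

lemma exg_cp {u : Q → MvPolynomial (Fin N) S} (hu : ∀ q, HomD (d - D q) (u q)) :
    exg_p (exg_c D d u) = u :=
  exg_ext (exg_hp _) hu fun i => exg_pc u i.1.1 i.1.2 i.2

/-- homogeneous parts of an equation -/
lemma exg_eq {A : Matrix Q'' Q (MvPolynomial (Fin N) S)} (hA : HomM D D'' A)
    {B : Matrix Q'' Q' (MvPolynomial (Fin N) S)} (hB : HomM D' D'' B)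
    {u : Q → MvPolynomial (Fin N) S} {v : Q' → MvPolynomial (Fin N) S}
    (h : A.mulVec u = B.mulVec v) :
    A.mulVec (exg_p (exg_c D d u)) = B.mulVec (exg_p (exg_c D' d v)) := by
  refine exg_ext (D := D'') (d := d) (exg_mv2 hA (exg_hp _)) (exg_mv2 hB (exg_hp _)) fun i => ?_
  rw [exg_mv1 hA (exg_pc u) i.1.1 i.1.2 i.2, exg_mv1 hB (exg_pc v) i.1.1 i.1.2 i.2, h]

lemma exg_sol {A : Matrix Q' Q (MvPolynomial (Fin N) S)} (hA : HomM D D' A)
    {z : Q → MvPolynomial (Fin N) S} (i : exg_I N Q' D' d) :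
    coeff i.1.2 (A.mulVec z i.1.1) = ∑ l, exg_c D d z l * exg_m D d A l i.1 := by
  rw [← exg_mulVec, exg_mv1 hA (exg_pc z) i.1.1 i.1.2 i.2]

lemma exg_fm {S' : Type u} [CommRing S'] (f : S →+* S') (A : Matrix Q' Q (MvPolynomial (Fin N) S))
    (i : exg_I N Q D d) (p : Q' × (Fin N →₀ ℕ)) :
    f (exg_m D d A i p) = exg_m D d (A.map (MvPolynomial.map f)) i p := by
  simp only [exg_m, Matrix.map_apply]
  rw [← coeff_map, map_mul, map_monomial, map_one]

/-- the column of the matrix on the coefficients -/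
lemma exg_col (A : Matrix Q' Q (MvPolynomial (Fin N) S)) (l : exg_I N Q D d)
    (p : Q' × (Fin N →₀ ℕ)) :
    exg_m D d A l p = coeff p.2 (A.mulVec (Pi.single l.1.1 (monomial l.1.2 1)) p.1) := by
  simp only [exg_m, Matrix.mulVec_single, Matrix.col_apply, Pi.smul_apply, MulOpposite.smul_eq_mul_unop,
    MulOpposite.unop_op]

lemma exg_colh (l : exg_I N Q D d) (q : Q) :
    HomD (d - D q) ((Pi.single l.1.1 (monomial l.1.2 (1 : S)) : Q → MvPolynomial (Fin N) S) q) := by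
  rw [exg_hom_iff]
  intro m hm
  by_cases h : q = l.1.1
  · subst h
    rw [Pi.single_eq_same, coeff_monomial, if_neg]
    rintro rfl
    exact hm l.2
  · rw [Pi.single_eq_of_ne h, coeff_zero]

end

theorem p_exg (h_ex : S_ex.{u}) (h_hc : S_hc.{u}) : S_exg.{u} := by
  intro O K₀ K _ _ _ _ f g hg N Q₀ Q₁ Q₂ Q₃ Q₄ _ _ _ _ _ _ _ _ _ _ D₀ D₁ D₂ D₃ D₄ d φ ψ ξ ω
    hφ hψ hξ hω H1 H2 H3 H4 x hx y hxy
  obtain ⟨Y, hY⟩ := H4
  have key := h_ex O K₀ K f g hg (exg_I N Q₀ D₀ d) (exg_I N Q₁ D₁ d) (exg_I N Q₃ D₃ d)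
    (exg_I N Q₄ D₄ d) (Q₂ × (Fin N →₀ ℕ)) (exg_m D₁ d φ) (exg_m D₃ d ψ)
    (fun l i => exg_m D₀ d ξ l i.1) (fun l i => exg_m D₄ d ω l i.1) ?_ ?_ ?_ ?_
    (exg_c D₁ d x) (exg_c D₃ d y) ?_
  · obtain ⟨z, hz⟩ := key
    refine ⟨exg_p z, ?_⟩
    refine exg_ext hx (exg_mv2 (exg_map g hξ) (exg_hp z)) fun i => ?_
    rw [exg_mulVec]
    have h1 := hz i
    simp only [exg_fm] at h1
    exact h1
  · intro x' y' h
    simp only [exg_fm, ← exg_mulVec] at h
    obtain ⟨z, hz⟩ := H1 (exg_p x') (exg_hp x') (exg_p y') (by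
      funext r
      ext m
      exact h (r, m))
    refine ⟨exg_c D₀ d z, fun i => ?_⟩
    simp only [exg_fm]
    rw [← exg_sol (exg_map f hξ), ← hz, exg_coeff]
  · intro y' h
    simp only [exg_fm, ← exg_mulVec] at h
    obtain ⟨z, hz⟩ := H2 (exg_p y') (exg_hp y') (by
      funext r
      ext m
      exact h (r, m))
    refine ⟨exg_c D₄ d z, fun i => ?_⟩
    simp only [exg_fm]
    rw [← exg_sol (exg_map f hω), ← hz, exg_coeff]
  · intro l p
    simp only [exg_fm]
    have h1 : (fun i : exg_I N Q₃ D₃ d => exg_m D₄ d (ω.map (MvPolynomial.map g)) l i.1) =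
        exg_c D₃ d ((ω.map (MvPolynomial.map g)).mulVec
          (Pi.single l.1.1 (monomial l.1.2 1))) := by
      funext i
      rw [exg_col]; rfl
    have h2 := exg_mulVec (ψ.map (MvPolynomial.map g))
      (fun i : exg_I N Q₃ D₃ d => exg_m D₄ d (ω.map (MvPolynomial.map g)) l i.1) p
    rw [← h2, h1, exg_cp (exg_mv2 (exg_map g hω) (exg_colh l)), Matrix.mulVec_mulVec, H3,
      Matrix.zero_mulVec]
    simp
  · intro l
    have h1 : (fun i : exg_I N Q₁ D₁ d => exg_m D₀ d (ξ.map (MvPolynomial.map g)) l i.1) =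
        exg_c D₁ d ((ξ.map (MvPolynomial.map g)).mulVec
          (Pi.single l.1.1 (monomial l.1.2 1))) := by
      funext i
      rw [exg_col]; rfl
    have h3 : (φ.map (MvPolynomial.map g)).mulVec ((ξ.map (MvPolynomial.map g)).mulVec
          (Pi.single l.1.1 (monomial l.1.2 1))) =
        (ψ.map (MvPolynomial.map g)).mulVec (Y.mulVec (Pi.single l.1.1 (monomial l.1.2 1))) := by
      rw [Matrix.mulVec_mulVec, hY, ← Matrix.mulVec_mulVec]
    have h4 := exg_eq (d := d) (exg_map g hφ) (exg_map g hψ) h3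
    refine ⟨exg_c D₃ d (Y.mulVec (Pi.single l.1.1 (monomial l.1.2 1))), fun p => ?_⟩
    simp only [exg_fm]
    have h2 := exg_mulVec (φ.map (MvPolynomial.map g))
      (fun i : exg_I N Q₁ D₁ d => exg_m D₀ d (ξ.map (MvPolynomial.map g)) l i.1) p
    rw [← h2, h1, h4, exg_mulVec]
  · intro p
    simp only [exg_fm]
    rw [← exg_mulVec, ← exg_mulVec, exg_eq (exg_map g hφ) (exg_map g hψ) hxy]

end Pool.Agent.Lib.MP_09338f_ag
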