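import Mathlib
import Pool.Agent.Lib.MP_09338f_ag.KM.Stm5

/-!
# Project KM, piece fod: the field of definition
-/

set_option autoImplicit false

open MvPolynomial

universe u

namespace Pool.Agent.Lib.MP_09338f_ag

/-- coordinates with respect to the monomials -/
private noncomputable def fod_e (N : ℕ) (K : Type u) [Field K] :
    MvPolynomial (Fin N) K ≃ₗ[K] ((Fin N →₀ ℕ) →₀ K) := (basisMonomials (Fin N) K).repr

private theorem fod_e_apply {N : ℕ} {K : Type u} [Field K] (p : MvPolynomial (Fin N) K)
    (m : Fin N →₀ ℕ) : fod_e N K p m = p.coeff m := rfl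

private theorem fod_e_map {N : ℕ} {K K' : Type u} [Field K] [Field K'] (σ : K →+* K')
    (p : MvPolynomial (Fin N) K) :
    fod_e N K' (MvPolynomial.map σ p) = (fod_e N K p).mapRange σ (map_zero σ) := by
  ext m
  rw [Finsupp.mapRange_apply, fod_e_apply, fod_e_apply, coeff_map]

/-- a set of polynomials closed under multiplication by monomials: the ideal is the span -/
private theorem fod_span {N : ℕ} {K : Type u} [Field K] (T : Set (MvPolynomial (Fin N) K))
    (hT : ∀ (m : Fin N →₀ ℕ), ∀ f ∈ T, monomial m 1 * f ∈ T) (g : MvPolynomial (Fin N) K)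
    (hg : g ∈ Ideal.span T) : g ∈ Submodule.span K T := by
  have hmon : ∀ (m : Fin N →₀ ℕ), ∀ x ∈ Submodule.span K T, monomial m 1 * x ∈ Submodule.span K T := by
    intro m x hx
    induction hx using Submodule.span_induction with
    | mem x hx => exact Submodule.subset_span (hT m x hx)
    | zero => rw [mul_zero]; exact Submodule.zero_mem _
    | add x y _ _ hx hy => rw [mul_add]; exact Submodule.add_mem _ hx hy
    | smul a x _ hx => rw [mul_smul_comm]; exact Submodule.smul_mem _ a hx
  have hmul : ∀ a : MvPolynomial (Fin N) K, ∀ x ∈ Submodule.span K T, a * x ∈ Submodule.span K T := by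
    intro a x hx
    induction a using MvPolynomial.induction_on' with
    | monomial m c =>
      have : monomial m c * x = c • (monomial m 1 * x) := by
        rw [← smul_mul_assoc, MvPolynomial.smul_monomial, smul_eq_mul, mul_one]
      rw [this]
      exact Submodule.smul_mem _ c (hmon m x hx)
    | add p q hp hq => rw [add_mul]; exact Submodule.add_mem _ hp hq
  induction hg using Submodule.span_induction with
  | mem x hx => exact Submodule.subset_span hx
  | zero => exact Submodule.zero_mem _
  | add x y _ _ hx hy => exact Submodule.add_mem _ hx hy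
  | smul a x _ hx => exact hmul a x hx

/-- linear independence modulo an ideal is preserved by extension of the field -/
private theorem fod_key (h_lid : S_lid.{u}) {K K' : Type u} [Field K] [Field K'] (σ : K →+* K')
    {N : ℕ} {κ : Type} (J : Ideal (MvPolynomial (Fin N) K)) (v : κ → MvPolynomial (Fin N) K)
    (hv : ∀ c : κ →₀ K, (c.sum fun i x => x • v i) ∈ J → c = 0) (c : κ →₀ K')
    (hc : (c.sum fun i x => x • MvPolynomial.map σ (v i)) ∈ Ideal.map (MvPolynomial.map σ) J) :
    c = 0 := by
  set P : Submodule K ((Fin N →₀ ℕ) →₀ K) :=
    (J.restrictScalars K).map (fod_e N K).toLinearMap with hP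
  refine h_lid K K' σ (Fin N →₀ ℕ) κ P (fun i => fod_e N K (v i)) (fun d hd => ?_) c ?_
  · apply hv
    rw [hP, Submodule.mem_map] at hd
    obtain ⟨y, hy, hye⟩ := hd
    have e1 : (d.sum fun i x => x • fod_e N K (v i)) = fod_e N K (d.sum fun i x => x • v i) := by
      rw [map_finsuppSum]
      simp only [map_smul]
    rw [e1] at hye
    have : y = d.sum fun i x => x • v i := (fod_e N K).injective hye
    rw [← this]
    exact hy
  · have e1 : (c.sum fun i x => x • (fod_e N K (v i)).mapRange σ (map_zero σ)) =
        fod_e N K' (c.sum fun i x => x • MvPolynomial.map σ (v i)) := by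
      rw [map_finsuppSum]
      simp only [map_smul, fod_e_map]
    rw [e1]
    have h1 := fod_span ((MvPolynomial.map σ) '' (J : Set (MvPolynomial (Fin N) K)))
      (by
        rintro m _ ⟨f, hf, rfl⟩
        refine ⟨monomial m 1 * f, J.mul_mem_left _ hf, ?_⟩
        rw [map_mul, map_monomial, map_one]) _ hc
    have h2 : fod_e N K' (c.sum fun i x => x • MvPolynomial.map σ (v i)) ∈
        (Submodule.span K' ((MvPolynomial.map σ) '' (J : Set (MvPolynomial (Fin N) K)))).map
          (fod_e N K').toLinearMap := Submodule.mem_map_of_mem h1
    rw [Submodule.map_span] at h2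
    refine Submodule.span_mono ?_ h2
    rintro _ ⟨_, ⟨f, hf, rfl⟩, rfl⟩
    refine ⟨fod_e N K f, Submodule.mem_map_of_mem hf, ?_⟩
    exact (fod_e_map σ f).symm

private theorem fod_mr {κ : Type} {N : ℕ} {K K' : Type u} [Field K] [Field K'] (σ : K →+* K')
    (a : κ → Fin N →₀ ℕ) (c : κ →₀ K) :
    ((c.mapRange σ (map_zero σ)).sum fun i x => x • (monomial (a i) 1 : MvPolynomial (Fin N) K')) =
      MvPolynomial.map σ (c.sum fun i x => x • (monomial (a i) 1 : MvPolynomial (Fin N) K)) := by
  rw [Finsupp.sum_mapRange_index (h := fun i x => x • (monomial (a i) 1 : MvPolynomial (Fin N) K'))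
    (fun i => zero_smul _ _), map_finsuppSum]
  simp only [MvPolynomial.smul_monomial, map_monomial, smul_eq_mul, mul_one]

/-- [fod] the field of definition -/
theorem p_fod (h_lid : S_lid.{u}) : S_fod.{u} := by
  intro k K _ _ _ N P
  classical
  -- a basis of the quotient consisting of monomials
  set V := MvPolynomial (Fin N) K ⧸ (P.restrictScalars K) with hV
  set q : MvPolynomial (Fin N) K →ₗ[K] V := (P.restrictScalars K).mkQ with hq
  have hq0 : ∀ f, q f = 0 ↔ f ∈ P := fun f => by
    rw [hq, Submodule.mkQ_apply, Submodule.Quotient.mk_eq_zero]; rfl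
  obtain ⟨κ, a, ha, hsp, hli⟩ := exists_linearIndependent' K
    (fun m : Fin N →₀ ℕ => q (monomial m 1))
  have hex : ∀ m : Fin N →₀ ℕ, ∃ c : κ →₀ K,
      (c.sum fun i x => x • q (monomial (a i) 1)) = q (monomial m 1) := by
    intro m
    rw [← Finsupp.mem_span_range_iff_exists_finsupp (v := fun i => q (monomial (a i) 1))]
    have : q (monomial m 1) ∈ Submodule.span K (Set.range fun m : Fin N →₀ ℕ => q (monomial m 1)) :=
      Submodule.subset_span ⟨m, rfl⟩
    rw [← hsp] at this
    exact this
  choose c hc using hex
  -- independence modulo `P`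
  have hind : ∀ d : κ →₀ K, (d.sum fun i x => x • (monomial (a i) 1 : MvPolynomial (Fin N) K)) ∈ P →
      d = 0 := by
    intro d hd
    rw [linearIndependent_iff] at hli
    apply hli
    rw [← hq0, map_finsuppSum] at hd
    simp only [map_smul] at hd
    rw [Finsupp.linearCombination_apply]
    exact hd
  set r : (Fin N →₀ ℕ) → MvPolynomial (Fin N) K := fun m =>
    monomial m 1 - (c m).sum fun i x => x • (monomial (a i) 1 : MvPolynomial (Fin N) K) with hr
  have hrP : ∀ m, r m ∈ P := by
    intro m
    rw [← hq0, hr]
    simp only [map_sub, map_finsuppSum, map_smul]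
    rw [hc m, sub_self]
  set F₀ : IntermediateField k K :=
    IntermediateField.adjoin k {x | ∃ (m : Fin N →₀ ℕ) (i : κ), c m i = x} with hF₀
  have hcF : ∀ m i, c m i ∈ F₀ := fun m i => IntermediateField.subset_adjoin _ _ ⟨m, i, rfl⟩
  -- (i)
  have h1 : DefinedOver P F₀ := by
    apply le_antisymm
    · intro f hf
      have e1 : ∑ m ∈ f.support, f.coeff m • r m + ∑ m ∈ f.support, f.coeff m •
          ((c m).sum fun i x => x • (monomial (a i) 1 : MvPolynomial (Fin N) K)) = f := by
        rw [← Finset.sum_add_distrib]
        conv_rhs => rw [f.as_sum]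
        refine Finset.sum_congr rfl fun m _ => ?_
        rw [← smul_add, hr]
        simp only [sub_add_cancel]
        rw [MvPolynomial.smul_monomial, smul_eq_mul, mul_one]
      set d : κ →₀ K := ∑ m ∈ f.support, f.coeff m • c m with hd
      have e2 : ∑ m ∈ f.support, f.coeff m •
          ((c m).sum fun i x => x • (monomial (a i) 1 : MvPolynomial (Fin N) K)) =
          d.sum fun i x => x • (monomial (a i) 1 : MvPolynomial (Fin N) K) := by
        have := map_sum (Finsupp.linearCombination K
          (fun i => (monomial (a i) 1 : MvPolynomial (Fin N) K))) (fun m => f.coeff m • c m) f.support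
        simp only [map_smul, Finsupp.linearCombination_apply] at this
        rw [hd, this]
      have e3 : (d.sum fun i x => x • (monomial (a i) 1 : MvPolynomial (Fin N) K)) ∈ P := by
        rw [← e2]
        have : ∑ m ∈ f.support, f.coeff m •
          ((c m).sum fun i x => x • (monomial (a i) 1 : MvPolynomial (Fin N) K)) =
          f - ∑ m ∈ f.support, f.coeff m • r m := by
          rw [eq_sub_iff_add_eq, add_comm]; exact e1
        rw [this]
        refine P.sub_mem hf (P.sum_mem fun m _ => ?_)
        rw [MvPolynomial.smul_eq_C_mul]
        exact P.mul_mem_left _ (hrP m)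
      have e4 := hind d e3
      rw [e2, e4] at e1
      simp only [Finsupp.sum_zero_index, add_zero] at e1
      rw [← e1]
      refine Ideal.sum_mem _ fun m _ => ?_
      rw [MvPolynomial.smul_eq_C_mul]
      refine Ideal.mul_mem_left _ _ (Ideal.subset_span ⟨hrP m, fun n => ?_⟩)
      rw [hr]
      simp only [coeff_sub]
      refine F₀.sub_mem ?_ ?_
      · rw [coeff_monomial]
        split_ifs
        · exact F₀.one_mem
        · exact F₀.zero_mem
      · rw [Finsupp.sum, MvPolynomial.coeff_sum]
        refine F₀.sum_mem fun i _ => ?_
        rw [coeff_smul, coeff_monomial, smul_eq_mul]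
        split_ifs
        · rw [mul_one]; exact hcF m i
        · rw [mul_zero]; exact F₀.zero_mem
    · rw [Ideal.span_le]
      exact fun f hf => hf.1
  -- (ii)
  have h2 : ∀ F : IntermediateField k K, DefinedOver P F → F₀ ≤ F := by
    intro F hF
    rw [hF₀, IntermediateField.adjoin_le_iff]
    rintro _ ⟨m, i, rfl⟩
    set J : Ideal (MvPolynomial (Fin N) F) := P.comap (MvPolynomial.map (algebraMap F K)) with hJ
    have hmap : Ideal.map (MvPolynomial.map (algebraMap F K)) J = P := by
      apply le_antisymm
      · rw [Ideal.map_le_iff_le_comap]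
      · intro f hf
        rw [hF] at hf
        refine Ideal.span_le.mpr ?_ hf
        rintro g ⟨hg, hgF⟩
        obtain ⟨g', rfl⟩ : g ∈ Set.range (MvPolynomial.map (algebraMap F K)) := by
          rw [mem_range_map_iff_coeffs_subset]
          intro x hx
          rw [Finset.mem_coe, mem_coeffs_iff] at hx
          obtain ⟨n, -, rfl⟩ := hx
          exact ⟨⟨_, hgF n⟩, rfl⟩
        exact Ideal.mem_map_of_mem _ hg
    set v : Option κ → MvPolynomial (Fin N) F := fun o => o.elim (monomial m 1)
      (fun i => monomial (a i) 1) with hv
    by_cases hall : ∀ d : Option κ →₀ F, (d.sum fun i x => x • v i) ∈ J → d = 0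
    · exfalso
      have key := fod_key h_lid (algebraMap F K) J v hall
      set D : Option κ →₀ K := Finsupp.single none 1 - (c m).mapDomain some with hD
      have hD0 : D = 0 := by
        apply key
        rw [hmap]
        have : (D.sum fun i x => x • MvPolynomial.map (algebraMap F K) (v i)) = r m := by
          have e := map_sub (Finsupp.linearCombination K
            (fun i => MvPolynomial.map (algebraMap F K) (v i)))
            (Finsupp.single none 1) ((c m).mapDomain some)
          rw [Finsupp.linearCombination_single, Finsupp.linearCombination_mapDomain] at e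
          rw [← hD] at e
          rw [← Finsupp.linearCombination_apply K (v := fun i => MvPolynomial.map (algebraMap F K) (v i)), e, hr, Finsupp.linearCombination_apply]
          simp [hv, map_monomial]
        rw [this]
        exact hrP m
      have := DFunLike.congr_fun hD0 none
      rw [hD, Finsupp.sub_apply, Finsupp.single_eq_same, Finsupp.mapDomain_of_notMem_range] at this
      · simp at this
      · simp
    · push Not at hall
      obtain ⟨d, hd, hd0⟩ := hall
      set D0 : K := algebraMap F K (d none) with hD0
      set D1 : κ →₀ K := d.some.mapRange (algebraMap F K) (map_zero _) with hD1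
      have hmem : D0 • (monomial m 1 : MvPolynomial (Fin N) K) +
          (D1.sum fun i x => x • (monomial (a i) 1 : MvPolynomial (Fin N) K)) ∈ P := by
        have h3 : MvPolynomial.map (algebraMap F K) (d.sum fun i x => x • v i) ∈ P := hd
        rw [Finsupp.sum_option_index_smul] at h3
        have e : MvPolynomial.map (algebraMap F K) (d none • v none + d.some.sum fun i x => x • v (some i))
            = D0 • (monomial m 1 : MvPolynomial (Fin N) K) +
          (D1.sum fun i x => x • (monomial (a i) 1 : MvPolynomial (Fin N) K)) := by
          rw [hD1, fod_mr, map_add]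
          simp only [hv, Option.elim_none, Option.elim_some, MvPolynomial.smul_monomial, map_monomial,
            smul_eq_mul, mul_one, hD0]
        rwa [e] at h3
      have hrm : D0 • r m ∈ P := by
        rw [MvPolynomial.smul_eq_C_mul]; exact P.mul_mem_left _ (hrP m)
      have h4 : D1 + D0 • c m = 0 := by
        apply hind
        have h5 := P.sub_mem hmem hrm
        have e : (D1 + D0 • c m).sum (fun i x => x • (monomial (a i) 1 : MvPolynomial (Fin N) K)) =
            D0 • (monomial m 1 : MvPolynomial (Fin N) K) +
            (D1.sum fun i x => x • (monomial (a i) 1 : MvPolynomial (Fin N) K)) - D0 • r m := by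
          have e1 := map_add (Finsupp.linearCombination K
            (fun i => (monomial (a i) 1 : MvPolynomial (Fin N) K))) D1 (D0 • c m)
          rw [map_smul] at e1
          simp only [Finsupp.linearCombination_apply] at e1
          rw [e1, hr]
          simp only [smul_sub]
          abel
        rw [e]; exact h5
      by_cases hn : d none = 0
      · exfalso
        apply hd0
        have hD00 : D0 = 0 := by rw [hD0, hn, map_zero]
        rw [hD00, zero_smul, add_zero] at h4
        ext o
        cases o with
        | none => rw [hn]; rfl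
        | some i =>
          have := DFunLike.congr_fun h4 i
          rw [hD1, Finsupp.mapRange_apply, Finsupp.some_apply] at this
          simpa using this
      · have hD00 : D0 ≠ 0 := by
          rw [hD0]; exact (map_ne_zero _).mpr hn
        have h6 := DFunLike.congr_fun h4 i
        rw [Finsupp.add_apply, Finsupp.smul_apply, smul_eq_mul, Finsupp.zero_apply] at h6
        have h7 : c m i = - (D1 i / D0) := by
          field_simp
          linear_combination h6
        show c m i ∈ F
        rw [h7]
        refine F.neg_mem (F.div_mem ?_ ?_)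
        · rw [hD1, Finsupp.mapRange_apply]; exact (d.some i).2
        · exact (d none).2
  have h3 : fieldOfDef k P = F₀ := by
    have hl : IsLeast {F : IntermediateField k K | DefinedOver P F} F₀ := ⟨h1, fun F hF => h2 F hF⟩
    exact hl.csInf_eq
  rw [h3]
  refine ⟨h1, fun K' _ _ σ τ hst x hx => ?_⟩
  have h4 : ∀ m i, σ (c m i) = τ (c m i) := by
    intro m i
    have key := fod_key h_lid (σ : K →+* K') P
      (fun i => (monomial (a i) 1 : MvPolynomial (Fin N) K)) hind
      ((c m).mapRange τ (map_zero τ) - (c m).mapRange σ (map_zero σ))
    have hs : MvPolynomial.map (σ : K →+* K') (r m) ∈ Ideal.map (MvPolynomial.map (σ : K →+* K')) P :=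
      Ideal.mem_map_of_mem _ (hrP m)
    have ht : MvPolynomial.map (τ : K →+* K') (r m) ∈ Ideal.map (MvPolynomial.map (σ : K →+* K')) P := by
      rw [hst]; exact Ideal.mem_map_of_mem _ (hrP m)
    have h5 := key (by
      have h6 := Ideal.sub_mem _ hs ht
      have e : ∀ ρ : K →ₐ[k] K', MvPolynomial.map (ρ : K →+* K') (r m) = monomial m 1 -
          ((c m).mapRange ρ (map_zero ρ)).sum fun i x => x • (monomial (a i) 1 : MvPolynomial (Fin N) K') := by
        intro ρ
        have e0 := fod_mr (ρ : K →+* K') a (c m)
        simp only [RingHom.coe_coe] at e0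
        rw [e0, hr]
        simp only [map_sub, map_monomial, map_one]
      rw [e σ, e τ] at h6
      have e1 := map_sub (Finsupp.linearCombination K'
            (fun i => (monomial (a i) 1 : MvPolynomial (Fin N) K')))
            ((c m).mapRange τ (map_zero τ)) ((c m).mapRange σ (map_zero σ))
      simp only [Finsupp.linearCombination_apply] at e1
      simp only [map_monomial, map_one]
      rw [e1]
      convert h6 using 1
      abel)
    have h7 := DFunLike.congr_fun h5 i
    rw [Finsupp.sub_apply, Finsupp.mapRange_apply, Finsupp.mapRange_apply, Finsupp.zero_apply,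
      sub_eq_zero] at h7
    exact h7.symm
  rw [hF₀] at hx
  induction hx using IntermediateField.adjoin_induction with
  | mem x hx => obtain ⟨m, i, rfl⟩ := hx; exact h4 m i
  | algebraMap x => rw [AlgHom.commutes, AlgHom.commutes]
  | add x y _ _ hx hy => rw [map_add, map_add, hx, hy]
  | inv x _ hx => rw [map_inv₀, map_inv₀, hx]
  | mul x y _ _ hx hy => rw [map_mul, map_mul, hx, hy]

end Pool.Agent.Lib.MP_09338f_ag
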