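import Pool.Agent.Lib.MP_09338f_ag.KM.Stm3

/-!
# MP_09338f_ag, project KM, piece `g3`
-/

set_option autoImplicit false

open MvPolynomial Matrix

universe u

namespace Pool.Agent.Lib.MP_09338f_ag

/-- The coefficients of the unknowns `Γ`, `β'` in the equations. -/
def g3_Phi {J : Type} [DecidableEq J] {S : Type u} [CommRing S] (t : S) (a b c : J → S) :
    Option J ⊕ Option J → J × J → S
  | Sum.inl (some j), p => t * ((if p.1 = j then b p.2 else 0) - (if p.2 = j then b p.1 else 0))
  | Sum.inl none, p => b p.1 * c p.2 - c p.1 * b p.2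
  | Sum.inr (some j), p => t * ((if p.2 = j then a p.1 else 0) - (if p.1 = j then a p.2 else 0))
  | Sum.inr none, p => c p.1 * a p.2 - a p.1 * c p.2

/-- The minors. -/
def g3_D {J : Type} {S : Type u} [CommRing S] (a b : J → S) (f : J × J) : S :=
  a f.1 * b f.2 - b f.1 * a f.2

lemma g3_sum {J : Type} [Fintype J] [DecidableEq J] {S : Type u} [CommRing S] (t : S)
    (a b c : J → S) (x : Option J ⊕ Option J → S) (p : J × J) :
    ∑ i, x i * g3_Phi t a b c i p =
      (t * x (Sum.inl (some p.1)) - x (Sum.inl none) * c p.1) * b p.2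
      - (t * x (Sum.inr (some p.1)) - x (Sum.inr none) * c p.1) * a p.2
      + a p.1 * (t * x (Sum.inr (some p.2)) - x (Sum.inr none) * c p.2)
      - b p.1 * (t * x (Sum.inl (some p.2)) - x (Sum.inl none) * c p.2) := by
  simp only [Fintype.sum_sum_type, Fintype.sum_option, g3_Phi, mul_sub, mul_ite, mul_zero,
    Finset.sum_sub_distrib, Finset.sum_ite_eq, Finset.mem_univ, if_true]
  ring

lemma g3_map {J : Type} [DecidableEq J] {S T : Type u} [CommRing S] [CommRing T] (F : S →+* T)
    (t : S) (a b c : J → S) (i : Option J ⊕ Option J) (p : J × J) :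
    F (g3_Phi t a b c i p) =
      g3_Phi (F t) (fun j => F (a j)) (fun j => F (b j)) (fun j => F (c j)) i p := by
  rcases i with (_ | j) | (_ | j)
  · simp [g3_Phi]
  · simp only [g3_Phi, map_mul, map_sub]
    split_ifs <;> simp
  · simp [g3_Phi]
  · simp only [g3_Phi, map_mul, map_sub]
    split_ifs <;> simp

lemma g3_mapD {J : Type} {S T : Type u} [CommRing S] [CommRing T] (F : S →+* T)
    (a b : J → S) (p : J × J) :
    F (g3_D a b p) = g3_D (fun j => F (a j)) (fun j => F (b j)) p := by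
  simp [g3_D]

/-- The translation of the coefficient equations into polynomial equations. -/
lemma g3_iff {J : Type} [Fintype J] [DecidableEq J] {N : ℕ} {O L : Type u} [CommRing O] [Field L]
    (F : O →+* L) (Q : Type) [Fintype Q] (v : Q → J × J) (a b c : J → MvPolynomial (Fin N) O)
    (t : MvPolynomial (Fin N) O)
    (x : Option J ⊕ Option J → L) (y : (J × J) × Q → L) :
    (∀ p : (J × J) × (Fin N →₀ ℕ), ∑ i, x i * F ((g3_Phi t a b c i p.1).coeff p.2) =
      ∑ q, y q * F (if q.1 = p.1 then (g3_D a b (v q.2)).coeff p.2 else 0)) ↔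
    ∀ p : J × J, ∑ i, MvPolynomial.C (x i) * g3_Phi (MvPolynomial.map F t)
        (fun j => MvPolynomial.map F (a j)) (fun j => MvPolynomial.map F (b j))
        (fun j => MvPolynomial.map F (c j)) i p =
      ∑ q, MvPolynomial.C (y (p, q)) * g3_D (fun j => MvPolynomial.map F (a j))
        (fun j => MvPolynomial.map F (b j)) (v q) := by
  have h1 : ∀ (p : J × J) (m : Fin N →₀ ℕ),
      ∑ i, x i * F ((g3_Phi t a b c i p).coeff m) = (∑ i, MvPolynomial.C (x i) *
        g3_Phi (MvPolynomial.map F t)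
        (fun j => MvPolynomial.map F (a j)) (fun j => MvPolynomial.map F (b j))
        (fun j => MvPolynomial.map F (c j)) i p).coeff m := by
    intro p m
    rw [MvPolynomial.coeff_sum]
    refine Finset.sum_congr rfl fun i _ => ?_
    rw [MvPolynomial.coeff_C_mul, ← g3_map, MvPolynomial.coeff_map]
  have h2 : ∀ (p : J × J) (m : Fin N →₀ ℕ),
      ∑ q, y q * F (if q.1 = p then (g3_D a b (v q.2)).coeff m else 0) =
      (∑ q, MvPolynomial.C (y (p, q)) * g3_D (fun j => MvPolynomial.map F (a j))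
        (fun j => MvPolynomial.map F (b j)) (v q)).coeff m := by
    intro p m
    rw [MvPolynomial.coeff_sum, Fintype.sum_prod_type, Finset.sum_eq_single p]
    · refine Finset.sum_congr rfl fun i _ => ?_
      rw [MvPolynomial.coeff_C_mul, ← g3_mapD, MvPolynomial.coeff_map, if_pos rfl]
    · intro q _ hq
      refine Finset.sum_eq_zero fun i _ => ?_
      rw [if_neg hq, map_zero, mul_zero]
    · intro h
      exact absurd (Finset.mem_univ _) h
  constructor
  · intro h p
    ext m
    rw [← h1, ← h2]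
    exact h (p, m)
  · intro h p
    rw [h1, h2, h]

/-! ## The special matrix -/

/-- The linear forms `y_j`. -/
noncomputable def g3_y {J : Type} {N : ℕ} (L : Type u) [CommRing L] (e : J ≃ Fin (N + 1)) (j : J) :
    MvPolynomial (Fin (N + 1)) L :=
  if e j = 0 then X 0 - ∑ i : Fin N, X i.succ else X (e j)

/-- The point with the given values of the linear forms `y_j`. -/
def g3_pt {J : Type} {N : ℕ} {L : Type u} [CommRing L] (e : J ≃ Fin (N + 1)) (s : J → L) :
    Fin (N + 1) → L :=
  Fin.cons (∑ i : Fin (N + 1), s (e.symm i)) fun i => s (e.symm i.succ)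

lemma g3_eval {J : Type} {N : ℕ} {L : Type u} [CommRing L] (e : J ≃ Fin (N + 1)) (s : J → L)
    (j : J) : MvPolynomial.eval (g3_pt e s) (g3_y L e j) = s j := by
  unfold g3_y
  split_ifs with h
  · have hj : j = e.symm 0 := by rw [← h, Equiv.symm_apply_apply]
    simp only [map_sub, map_sum, eval_X, g3_pt, Fin.cons_zero, Fin.cons_succ, Fin.sum_univ_succ]
    rw [hj]
    ring
  · obtain ⟨i, hi⟩ := Fin.exists_succ_eq.2 h
    rw [eval_X, ← hi, g3_pt, Fin.cons_succ, hi, Equiv.symm_apply_apply]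

lemma g3_eval0 {J : Type} [Fintype J] {N : ℕ} {L : Type u} [CommRing L] (e : J ≃ Fin (N + 1))
    (s : J → L) :
    MvPolynomial.eval (g3_pt e s) (X 0 : MvPolynomial (Fin (N + 1)) L) = ∑ j, s j := by
  rw [eval_X, g3_pt, Fin.cons_zero]
  exact Equiv.sum_comp e.symm s

/-- The linear independence of the minors. -/
lemma g3_ind {J : Type} [Fintype J] [DecidableEq J] {N : ℕ} {L : Type u} [Field L]
    (e : J ≃ Fin (N + 1)) (θ : J → L) (hθ : Function.Injective θ)
    (y : {f : J × J // e f.1 < e f.2} → L)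
    (h : ∑ q, MvPolynomial.C (y q) * g3_D (fun j => g3_y L e j)
      (fun j => MvPolynomial.C (θ j) * g3_y L e j) q.1 = 0) : y = 0 := by
  funext f
  have h1 := congrArg (MvPolynomial.eval (g3_pt e fun j => if j = f.1.1 ∨ j = f.1.2 then 1 else 0)) h
  simp only [map_sum, map_mul, eval_C, g3_D, map_sub, g3_eval, map_zero] at h1
  rw [Finset.sum_eq_single f] at h1
  · simp only [true_or, or_true, if_true] at h1
    have h2 : θ f.1.2 - θ f.1.1 ≠ 0 := by
      intro h3
      have h4 := hθ (sub_eq_zero.1 h3)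
      have h5 := f.2
      rw [h4] at h5
      exact lt_irrefl _ h5
    have h3 : y f * (θ f.1.2 - θ f.1.1) = 0 := by
      rw [← h1]
      ring
    rcases mul_eq_zero.1 h3 with h4 | h4
    · exact h4
    · exact absurd h4 h2
  · intro q _ hq
    by_cases h2 : (q.1.1 = f.1.1 ∨ q.1.1 = f.1.2) ∧ (q.1.2 = f.1.1 ∨ q.1.2 = f.1.2)
    · exfalso
      have h3 := q.2
      have h4 := f.2
      apply hq
      rcases h2 with ⟨h5 | h5, h6 | h6⟩
      · rw [h5, h6] at h3
        exact absurd h3 (lt_irrefl _)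
      · exact Subtype.ext (Prod.ext h5 h6)
      · rw [h5, h6] at h3
        exact absurd (h3.trans h4) (lt_irrefl _)
      · rw [h5, h6] at h3
        exact absurd h3 (lt_irrefl _)
    · rw [not_and_or] at h2
      rcases h2 with h3 | h3
      · simp [h3]
      · simp [h3]
  · intro h2
    exact absurd (Finset.mem_univ _) h2

/-- The special case: the system has only the trivial solution. -/
lemma g3_spec {J : Type} [Fintype J] [DecidableEq J] {N : ℕ} (hN : 3 ≤ N) {L : Type u} [Field L]
    (e : J ≃ Fin (N + 1)) (θ : J → L) (hθ : Function.Injective θ) (σ : J → J) (hσ : ∀ j, σ j ≠ j)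
    (i1 i2 : J) (hi : σ i1 ≠ σ i2)
    (x : Option J ⊕ Option J → L) (y : (J × J) × {f : J × J // e f.1 < e f.2} → L)
    (h : ∀ p : J × J, ∑ i, MvPolynomial.C (x i) * g3_Phi (X 0) (fun j => g3_y L e j)
      (fun j => MvPolynomial.C (θ j) * g3_y L e j) (fun j => g3_y L e (σ j)) i p =
      ∑ q, MvPolynomial.C (y (p, q)) * g3_D (fun j => g3_y L e j)
        (fun j => MvPolynomial.C (θ j) * g3_y L e j) q.1) : x = 0 := by
  have key : ∀ i j : J, i ≠ j →
      (x (Sum.inl (some i)) - x (Sum.inl none) * (if σ i = j then 1 else 0)) * θ j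
        = x (Sum.inr (some i)) - x (Sum.inr none) * (if σ i = j then 1 else 0) := by
    intro i j hij
    have h1 := congrArg (MvPolynomial.eval (g3_pt e fun k => if k = j then 1 else 0)) (h (i, j))
    rw [g3_sum] at h1
    simp only [map_sum, map_mul, map_sub, map_add, eval_C, g3_D, g3_eval, g3_eval0] at h1
    have h2 : ∀ q : {f : J × J // e f.1 < e f.2},
        (if q.1.1 = j then (1 : L) else 0) * (if q.1.2 = j then (1 : L) else 0) = 0 := by
      intro q
      by_cases h3 : q.1.1 = j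
      · have h4 : q.1.2 ≠ j := by
          intro h4
          have h5 := q.2
          rw [h3, h4] at h5
          exact lt_irrefl _ h5
        simp [h4]
      · simp [h3]
    have h4 := h1.trans (Finset.sum_eq_zero fun q _ => by
      linear_combination y ((i, j), q) * (θ q.1.2 - θ q.1.1) * h2 q)
    simp only [Finset.sum_ite_eq', Finset.mem_univ, if_true, if_neg hij] at h4
    linear_combination h4
  have hcard : Fintype.card J = N + 1 := by
    rw [Fintype.card_congr e, Fintype.card_fin]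
  have hG : ∀ i, x (Sum.inl (some i)) = 0 ∧ x (Sum.inr (some i)) = 0 := by
    intro i
    have hc : 1 < ((Finset.univ : Finset J) \ {i, σ i}).card := by
      have h1 : ({i, σ i} : Finset J).card ≤ 2 := Finset.card_le_two
      have h2 := Finset.le_card_sdiff ({i, σ i} : Finset J) (Finset.univ : Finset J)
      rw [Finset.card_univ, hcard] at h2
      omega
    obtain ⟨j, hj, j', hj', hjj⟩ := Finset.one_lt_card.1 hc
    simp only [Finset.mem_sdiff, Finset.mem_univ, true_and, Finset.mem_insert,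
      Finset.mem_singleton, not_or] at hj hj'
    have k1 := key i j (Ne.symm hj.1)
    have k2 := key i j' (Ne.symm hj'.1)
    rw [if_neg (Ne.symm hj.2)] at k1
    rw [if_neg (Ne.symm hj'.2)] at k2
    have h3 : θ j - θ j' ≠ 0 := fun h4 => hjj (hθ (sub_eq_zero.1 h4))
    have h4 : x (Sum.inl (some i)) * (θ j - θ j') = 0 := by linear_combination k1 - k2
    have h5 : x (Sum.inl (some i)) = 0 := by
      rcases mul_eq_zero.1 h4 with h6 | h6
      · exact h6
      · exact absurd h6 h3
    refine ⟨h5, ?_⟩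
    rw [h5] at k1
    linear_combination -k1
  have hB : ∀ i, x (Sum.inl none) * θ (σ i) = x (Sum.inr none) := by
    intro i
    have k1 := key i (σ i) (Ne.symm (hσ i))
    rw [(hG i).1, (hG i).2, if_pos rfl] at k1
    linear_combination -k1
  have hb1 := hB i1
  have hb2 := hB i2
  have h3 : θ (σ i1) - θ (σ i2) ≠ 0 := fun h4 => hi (hθ (sub_eq_zero.1 h4))
  have h4 : x (Sum.inl none) * (θ (σ i1) - θ (σ i2)) = 0 := by linear_combination hb1 - hb2
  have h5 : x (Sum.inl none) = 0 := by
    rcases mul_eq_zero.1 h4 with h6 | h6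
    · exact h6
    · exact absurd h6 h3
  have h6 : x (Sum.inr none) = 0 := by
    rw [h5] at hb1
    linear_combination -hb1
  funext i
  rcases i with (_ | i) | (_ | i)
  · exact h5
  · exact (hG i).1
  · exact h6
  · exact (hG i).2

/-! ## Reduction to the system of equations -/

lemma g3_hom {N : ℕ} {L : Type u} [Field L] (β : ℤ) {p : MvPolynomial (Fin N) L}
    (h : HomD (β + 1 - β) p) : p.IsHomogeneous 1 := by
  intro m hm
  have h1 := h m (mem_support_iff.2 hm)
  have h2 : m.degree = 1 := by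
    have h3 : β + 1 - β = 1 := by ring
    rw [h3] at h1
    exact_mod_cast h1
  rw [Finsupp.degree_eq_weight_one] at h2
  exact h2

lemma g3_hom2 {N : ℕ} {L : Type u} [Field L] (β : ℤ) {p : MvPolynomial (Fin N) L}
    (h : p.IsHomogeneous 1) : HomD (β + 1 - β) p := by
  intro m hm
  have h1 : m.degree = 1 := by
    by_contra h2
    exact (mem_support_iff.1 hm) (h.coeff_eq_zero h2)
  rw [h1]
  push_cast
  ring

lemma g3_coef {n : ℕ} {L : Type u} [Field L] {D : MvPolynomial (Fin n) L} {d : ℕ}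
    (hD : D.IsHomogeneous d) (c : MvPolynomial (Fin n) L) (m : Fin n →₀ ℕ) (hm : m.degree = d) :
    (c * D).coeff m = c.coeff 0 * D.coeff m := by
  classical
  rw [MvPolynomial.coeff_mul, Finset.sum_eq_single (0, m)]
  · intro x hx hne
    rw [Finset.HasAntidiagonal.mem_antidiagonal] at hx
    by_cases h1 : x.2.degree = d
    · exfalso
      apply hne
      have h2 : x.1.degree = 0 := by
        have h3 : x.1.degree + x.2.degree = m.degree := by
          rw [← hx]
          simp [Finsupp.degree_eq_weight_one]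
        omega
      have h4 : x.1 = 0 := (Finsupp.degree_eq_zero_iff _).1 h2
      refine Prod.ext h4 ?_
      rw [h4, zero_add] at hx
      exact hx
    · rw [hD.coeff_eq_zero h1, mul_zero]
  · intro h1
    exact absurd (Finset.HasAntidiagonal.mem_antidiagonal.2 (zero_add m)) h1

lemma g3_det2 {I : Type} [Fintype I] [DecidableEq I] {S : Type u} [CommRing S]
    (eI : Fin 2 ≃ I) (B : Matrix I I S) :
    B.det = B (eI 0) (eI 0) * B (eI 1) (eI 1) - B (eI 0) (eI 1) * B (eI 1) (eI 0) := by
  rw [← Matrix.det_submatrix_equiv_self eI B, Matrix.det_fin_two]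
  rfl

lemma g3_dd {I J : Type} [Fintype I] [DecidableEq I] [Fintype J] [DecidableEq J] {S : Type u}
    [CommRing S] (eI : Fin 2 ≃ I) (A B : Matrix I J S) (e : I → J) :
    dd A B e = B (eI 0) (e (eI 0)) * A (eI 1) (e (eI 1)) - A (eI 0) (e (eI 1)) * B (eI 1) (e (eI 0))
      + (A (eI 0) (e (eI 0)) * B (eI 1) (e (eI 1)) - B (eI 0) (e (eI 1)) * A (eI 1) (e (eI 0))) := by
  have hne : eI 0 ≠ eI 1 := fun h => by simpa using eI.injective h
  unfold dd
  rw [← Equiv.sum_comp eI, Fin.sum_univ_two, g3_det2 eI, g3_det2 eI]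
  simp only [Matrix.updateCol_self, Matrix.updateCol_ne hne, Matrix.updateCol_ne hne.symm,
    Matrix.submatrix_apply, id_eq]

lemma g3_mins {I J : Type} [Fintype I] [DecidableEq I] [Fintype J] [DecidableEq J] {N : ℕ}
    {S : Type u} [CommRing S] (eI : Fin 2 ≃ I) (eJ : J ≃ Fin (N + 1)) (A : Matrix I J S) :
    mins A ≤ Ideal.span (Set.range fun q : {f : J × J // eJ f.1 < eJ f.2} =>
      g3_D (A (eI 0)) (A (eI 1)) q.1) := by
  unfold mins
  rw [Ideal.span_le]
  rintro _ ⟨e, rfl⟩
  have h1 : (A.submatrix id e).det = g3_D (A (eI 0)) (A (eI 1)) (e (eI 0), e (eI 1)) := by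
    rw [g3_det2 eI]
    simp only [Matrix.submatrix_apply, id_eq, g3_D]
    ring
  show (A.submatrix id e).det ∈ _
  rw [h1]
  rcases lt_trichotomy (eJ (e (eI 0))) (eJ (e (eI 1))) with h | h | h
  · exact Ideal.subset_span ⟨⟨(e (eI 0), e (eI 1)), h⟩, rfl⟩
  · rw [eJ.injective h]
    have h2 : g3_D (A (eI 0)) (A (eI 1)) (e (eI 1), e (eI 1)) = 0 := by
      simp only [g3_D]
      ring
    rw [h2]
    exact Ideal.zero_mem _
  · have h2 : g3_D (A (eI 0)) (A (eI 1)) (e (eI 0), e (eI 1)) =
        - g3_D (A (eI 0)) (A (eI 1)) (e (eI 1), e (eI 0)) := by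
      simp only [g3_D]
      ring
    rw [h2]
    exact neg_mem (Ideal.subset_span ⟨⟨(e (eI 1), e (eI 0)), h⟩, rfl⟩)

/-- An element of the ideal of degree `2` is a combination with constant coefficients. -/
lemma g3_const {n : ℕ} {L : Type u} [Field L] {Q : Type} [Fintype Q]
    (D : Q → MvPolynomial (Fin n) L) (hD : ∀ q, (D q).IsHomogeneous 2)
    (z : MvPolynomial (Fin n) L) (hz : z.IsHomogeneous 2) (h : z ∈ Ideal.span (Set.range D)) :
    ∃ y : Q → L, z = ∑ q, MvPolynomial.C (y q) * D q := by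
  obtain ⟨c, hc⟩ := (Ideal.mem_span_range_iff_exists_fun).1 h
  refine ⟨fun q => (c q).coeff 0, ?_⟩
  ext m
  by_cases hm : m.degree = 2
  · rw [← hc, MvPolynomial.coeff_sum, MvPolynomial.coeff_sum]
    refine Finset.sum_congr rfl fun q _ => ?_
    rw [g3_coef (hD q) _ _ hm, MvPolynomial.coeff_C_mul]
  · rw [hz.coeff_eq_zero hm, MvPolynomial.coeff_sum]
    symm
    refine Finset.sum_eq_zero fun q _ => ?_
    rw [MvPolynomial.coeff_C_mul, (hD q).coeff_eq_zero hm, mul_zero]

lemma g3_sigma {J : Type} [DecidableEq J] {N : ℕ} (hN : 3 ≤ N) (e : J ≃ Fin (N + 1)) :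
    ∃ (σ : J → J) (i1 i2 : J), (∀ j, σ j ≠ j) ∧ σ i1 ≠ σ i2 := by
  obtain ⟨n, rfl⟩ : ∃ n, N = n + 3 := ⟨N - 3, by omega⟩
  have hzw : e.symm 0 ≠ e.symm 1 := fun h => by simpa using e.symm.injective h
  refine ⟨fun j => if j = e.symm 0 then e.symm 1 else e.symm 0, e.symm 0, e.symm 1, ?_, ?_⟩
  · intro j
    by_cases hj : j = e.symm 0
    · simp only [hj, if_true]
      exact hzw.symm
    · simp only [hj, if_false]
      exact fun h => hj h.symm
  · simp only [if_true, if_neg hzw.symm]
    exact hzw.symm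

lemma g3_y_hom {J : Type} {N : ℕ} (L : Type u) [Field L] (e : J ≃ Fin (N + 1)) (j : J) :
    (g3_y L e j).IsHomogeneous 1 := by
  unfold g3_y
  split_ifs
  · exact (isHomogeneous_X _ _).sub (IsHomogeneous.sum _ _ _ fun i _ => isHomogeneous_X _ _)
  · exact isHomogeneous_X _ _

theorem p_g3 (h_ex : S_ex.{u}) (h_exg : S_exg.{u}) (h_unv : S_unv.{u}) (h_reld : S_reld.{u}) :
    S_g3.{u} := by
  intro k K _ _ _ N I J _ _ _ _ β M hI hJ hN hM hAM Γ β' hTp
  obtain ⟨eI⟩ : Nonempty (Fin 2 ≃ I) := ⟨(Fintype.equivFinOfCardEq hI).symm⟩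
  obtain ⟨eJ⟩ : Nonempty (J ≃ Fin (N + 1)) := ⟨Fintype.equivFinOfCardEq hJ⟩
  have hne : eI 0 ≠ eI 1 := fun h => by simpa using eI.injective h
  have hlin : ∀ i j, (M i j).IsHomogeneous 1 := fun i j => g3_hom β (hM.1 i j)
  obtain ⟨x, hx0, hx1, hx2, hx3⟩ : ∃ x : Option J ⊕ Option J → K,
      (∀ j, x (Sum.inl (some j)) = Γ (eI 0) j) ∧ (∀ j, x (Sum.inr (some j)) = Γ (eI 1) j) ∧
      x (Sum.inl none) = β' (eI 0) ∧ x (Sum.inr none) = β' (eI 1) :=
    ⟨Sum.elim (fun o => o.elim (β' (eI 0)) fun j => Γ (eI 0) j)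
      (fun o => o.elim (β' (eI 1)) fun j => Γ (eI 1) j), fun _ => rfl, fun _ => rfl, rfl, rfl⟩
  have hA : ∀ p : J × J, ∃ y : {f : J × J // eJ f.1 < eJ f.2} → K,
      ∑ i, MvPolynomial.C (x i) * g3_Phi (X 0) (fun j => M (some (eI 0)) j)
        (fun j => M (some (eI 1)) j) (fun j => M none j) i p
        = ∑ q, MvPolynomial.C (y q) * g3_D (fun j => M (some (eI 0)) j)
          (fun j => M (some (eI 1)) j) q.1 := by
    intro p
    have h1 := hAM _ (hTp fun i => if i = eI 0 then p.1 else p.2)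
    rw [g3_dd eI] at h1
    have h2 := g3_mins eI eJ _ h1
    simp only [if_true, if_neg hne.symm, Matrix.submatrix_apply, id_eq, Matrix.of_apply] at h2
    rw [g3_sum, hx0, hx1, hx0, hx1, hx2, hx3]
    have hE : ∀ i j, (X 0 * MvPolynomial.C (Γ i j) - MvPolynomial.C (β' i) * M none j :
        MvPolynomial (Fin (N + 1)) K).IsHomogeneous 1 := fun i j =>
      ((isHomogeneous_X _ _).mul (isHomogeneous_C _ _)).sub ((hlin none j).C_mul _)
    refine g3_const _ (fun q => ?_) _ ?_ ?_
    · exact ((hlin _ _).mul (hlin _ _)).sub ((hlin _ _).mul (hlin _ _))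
    · exact ((((hE _ _).mul (hlin _ _)).sub ((hE _ _).mul (hlin _ _))).add
        ((hlin _ _).mul (hE _ _))).sub ((hlin _ _).mul (hE _ _))
    · refine Eq.subst (motive := fun z => z ∈ _) ?_ h2
      ring
  choose y hy using hA
  obtain ⟨U, -, hU⟩ := h_unv k (Option I) J (N + 1) (fun _ => β + 1) (fun _ => β)
  obtain ⟨G, hg', hG⟩ : ∃ G : MvPolynomial (Coef (N + 1) (fun _ : J => β + 1)
      (fun _ : Option I => β)) k →+* K, (∀ i j, MvPolynomial.map G (U i j) = M i j) ∧
      Function.Injective G := by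
    obtain ⟨g, hg, hginj⟩ := hU K M hM.1
    refine ⟨(g : MvPolynomial (Coef (N + 1) (fun _ : J => β + 1)
      (fun _ : Option I => β)) k →+* K), fun i j => ?_, hginj hM⟩
    exact congrFun (congrFun hg i) j
  obtain ⟨σ, i1, i2, hσ, hi⟩ := g3_sigma hN eJ
  have hθ : Function.Injective fun j : J =>
      Infinite.natEmbedding (AlgebraicClosure k) (eJ j : ℕ) := by
    intro j j' h
    exact eJ.injective (Fin.ext ((Infinite.natEmbedding _).injective h))
  obtain ⟨θ, hθ⟩ : ∃ θ : J → AlgebraicClosure k, Function.Injective θ := ⟨_, hθ⟩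
  obtain ⟨M₀, hm0, hm1, hm2⟩ : ∃ M₀ : Matrix (Option I) J (MvPolynomial (Fin (N + 1))
      (AlgebraicClosure k)), (∀ j, M₀ (some (eI 0)) j = g3_y _ eJ j) ∧
      (∀ i j, i ≠ eI 0 → M₀ (some i) j = MvPolynomial.C (θ j) * g3_y _ eJ j) ∧
      (∀ j, M₀ none j = g3_y _ eJ (σ j)) :=
    ⟨fun i j => i.elim (g3_y _ eJ (σ j)) fun i =>
      if i = eI 0 then g3_y _ eJ j else MvPolynomial.C (θ j) * g3_y _ eJ j,
      fun j => by simp, fun i j h => by simp [h], fun _ => rfl⟩
  have hM0 : HomM (fun _ : J => β + 1) (fun _ : Option I => β) M₀ := by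
    intro i j
    apply g3_hom2
    rcases i with _ | i
    · rw [hm2]
      exact g3_y_hom _ _ _
    · by_cases h : i = eI 0
      · rw [h, hm0]
        exact g3_y_hom _ _ _
      · rw [hm1 i j h]
        exact (g3_y_hom _ _ _).C_mul _
  obtain ⟨F, hf'⟩ : ∃ F : MvPolynomial (Coef (N + 1) (fun _ : J => β + 1)
      (fun _ : Option I => β)) k →+* AlgebraicClosure k,
      ∀ i j, MvPolynomial.map F (U i j) = M₀ i j := by
    obtain ⟨f, hf, -⟩ := hU (AlgebraicClosure k) M₀ hM0
    refine ⟨(f : MvPolynomial (Coef (N + 1) (fun _ : J => β + 1)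
      (fun _ : Option I => β)) k →+* AlgebraicClosure k), fun i j => ?_⟩
    exact congrFun (congrFun hf i) j
  have main := h_ex _ (AlgebraicClosure k) K F G hG Empty (Option J ⊕ Option J) ((J × J) × {f : J × J // eJ f.1 < eJ f.2}) Empty
    ((J × J) × (Fin (N + 1) →₀ ℕ))
    (fun i p => (g3_Phi (X 0) (U (some (eI 0))) (U (some (eI 1))) (U none) i p.1).coeff p.2)
    (fun q p => if q.1 = p.1 then
      (g3_D (U (some (eI 0))) (U (some (eI 1))) q.2.1).coeff p.2 else 0)
    (fun l => l.elim) (fun l => l.elim) ?_ ?_ (fun l => l.elim) (fun l => l.elim) x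
    (fun q => y q.1 q.2) ?_
  · obtain ⟨z, hz⟩ := main
    have hx : ∀ i, x i = 0 := fun i => by
      rw [hz i]
      simp
    have hi2 : ∀ i, i = eI 0 ∨ i = eI 1 := by
      intro i
      obtain ⟨t, rfl⟩ := eI.surjective i
      fin_cases t
      · exact Or.inl rfl
      · exact Or.inr rfl
    constructor
    · ext i j
      rcases hi2 i with rfl | rfl
      · rw [← hx0, hx]
        rfl
      · rw [← hx1, hx]
        rfl
    · funext i
      rcases hi2 i with rfl | rfl
      · rw [← hx2, hx]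
        rfl
      · rw [← hx3, hx]
        rfl
  · intro x' y' h
    refine ⟨fun l => l.elim, fun i => ?_⟩
    have h1 := (g3_iff F _ (fun q : {f : J × J // eJ f.1 < eJ f.2} => q.1) _ _ _ _ x' y').1 h
    simp only [hf', map_X, hm0, hm1 _ _ hne.symm, hm2] at h1
    have h2 := g3_spec hN eJ θ hθ σ hσ i1 i2 hi x' y' h1
    rw [h2]
    simp
  · intro y' h
    refine ⟨fun l => l.elim, fun i => ?_⟩
    have h1 := (g3_iff F _ (fun q : {f : J × J // eJ f.1 < eJ f.2} => q.1)
      (U (some (eI 0))) (U (some (eI 1))) (U none) (X 0) (fun _ => 0) y').1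
      (fun p => (Finset.sum_eq_zero fun i _ => zero_mul _).trans (h p).symm) i.1
    simp only [hf', hm0, hm1 _ _ hne.symm, map_zero, zero_mul, Finset.sum_const_zero] at h1
    have h2 := g3_ind eJ θ hθ (fun q => y' (i.1, q)) h1.symm
    have h3 := congrFun h2 i.2
    simp only [Prod.mk.eta, Pi.zero_apply] at h3
    rw [h3]
    simp
  · refine (g3_iff G _ (fun q : {f : J × J // eJ f.1 < eJ f.2} => q.1) _ _ _ _ x
      (fun q => y q.1 q.2)).2 fun p => ?_
    simp only [hg', map_X]
    exact hy p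

end Pool.Agent.Lib.MP_09338f_ag
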