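import Pool.Agent.Lib.MP_09338f_ag.KM.Stm2

/-!
# Project KM, piece gm: the generic matrix is generic.
-/

set_option autoImplicit false

open MvPolynomial

universe u

namespace Pool.Agent.Lib.MP_09338f_ag

theorem gm_coeff_pos {I J : Type} (k : Type u) [Field k] (N : ℕ) (a : J → ℤ) (b : I → ℤ) (i : I)
    (j : J) (m : Fin N →₀ ℕ) (h : ((m.degree : ℕ) : ℤ) = a j - b i) :
    (genMatrix k N a b i j).coeff m =
      algebraMap (MvPolynomial (Coef N a b) k) (GenField k N a b) (X ⟨(i, j, m), h⟩) := by
  classical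
  unfold genMatrix
  rw [coeff_sum, Finset.sum_eq_single m]
  · rw [dif_pos h, coeff_monomial, if_pos rfl]
  · intro m' _ hm'
    by_cases h' : ((m'.degree : ℕ) : ℤ) = a j - b i
    · rw [dif_pos h', coeff_monomial, if_neg hm']
    · rw [dif_neg h', coeff_zero]
  · intro hm
    exfalso
    apply hm
    rw [Finset.mem_finsuppAntidiag]
    refine ⟨?_, Finset.subset_univ _⟩
    rw [← h, Int.toNat_natCast, Finsupp.degree_eq_sum]

theorem gm_coeff_neg {I J : Type} (k : Type u) [Field k] (N : ℕ) (a : J → ℤ) (b : I → ℤ) (i : I)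
    (j : J) (m : Fin N →₀ ℕ) (h : ¬ ((m.degree : ℕ) : ℤ) = a j - b i) :
    (genMatrix k N a b i j).coeff m = 0 := by
  classical
  unfold genMatrix
  rw [coeff_sum]
  apply Finset.sum_eq_zero
  intro m' _
  by_cases h' : ((m'.degree : ℕ) : ℤ) = a j - b i
  · rw [dif_pos h', coeff_monomial, if_neg]
    rintro rfl
    exact h h'
  · rw [dif_neg h', coeff_zero]

/-- [gm] The generic matrix is generic. -/
theorem p_gm : S_gm.{u} := by
  intro k _ I J N a b
  constructor
  · intro i j m hm
    by_contra h
    rw [mem_support_iff] at hm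
    exact hm (gm_coeff_neg k N a b i j m h)
  · have h1 : (fun p : Coef N a b => (genMatrix k N a b p.1.1 p.1.2.1).coeff p.1.2.2) =
        (IsScalarTower.toAlgHom k (MvPolynomial (Coef N a b) k) (GenField k N a b)) ∘
          (fun p : Coef N a b => (X p : MvPolynomial (Coef N a b) k)) := by
      funext p
      rw [gm_coeff_pos k N a b p.1.1 p.1.2.1 p.1.2.2 p.2]
      rfl
    rw [h1]
    exact (algebraicIndependent_X (Coef N a b) k).map'
      (IsFractionRing.injective (MvPolynomial (Coef N a b) k) (GenField k N a b))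

end Pool.Agent.Lib.MP_09338f_ag
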