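import Pool.Agent.Lib.MP_09338f_ag.KM.Stm2

/-!
# Project KM, piece [gs]: submatrices and reductions modulo `x_0` of generic matrices are generic.
-/

set_option autoImplicit false

open MvPolynomial Matrix

universe u

namespace Pool.Agent.Lib.MP_09338f_ag

private theorem gs_coeff_red {N : ℕ} {K : Type u} [CommSemiring K]
    (p : MvPolynomial (Fin (N + 1)) K) (m : Fin N →₀ ℕ) :
    coeff m (red p) = coeff (m.cons 0) p := by
  rw [← MvPolynomial.finSuccEquiv_coeff_coeff]
  have h1 : (Polynomial.constantCoeff : Polynomial (MvPolynomial (Fin N) K) →+* _).comp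
      ((MvPolynomial.finSuccEquiv K N : MvPolynomial (Fin (N + 1)) K →ₐ[K]
        Polynomial (MvPolynomial (Fin N) K)) : MvPolynomial (Fin (N + 1)) K →+*
        Polynomial (MvPolynomial (Fin N) K)) =
      ((red : MvPolynomial (Fin (N + 1)) K →ₐ[K] MvPolynomial (Fin N) K) :
        MvPolynomial (Fin (N + 1)) K →+* MvPolynomial (Fin N) K) := by
    apply MvPolynomial.ringHom_ext
    · intro r
      simp [red, MvPolynomial.finSuccEquiv_apply]
    · intro i
      refine Fin.cases ?_ (fun j => ?_) i
      · simp [red, MvPolynomial.finSuccEquiv_apply]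
      · simp [red, MvPolynomial.finSuccEquiv_apply]
  have h2 := RingHom.congr_fun h1 p
  rw [← Polynomial.constantCoeff_apply]
  exact congrArg (coeff m) h2.symm

private theorem gs_degree_cons {N : ℕ} (m : Fin N →₀ ℕ) :
    (Finsupp.cons 0 m).degree = m.degree := by
  rw [Finsupp.degree_eq_sum, Finsupp.degree_eq_sum, Fin.sum_univ_succ]
  simp

theorem p_gs : S_gs.{u} := by
  intro k K _ _ _ I J a b
  refine ⟨?_, ?_⟩
  · intro N A hA I' J' u v hu hv
    refine ⟨fun i j => hA.1 (u i) (v j), ?_⟩
    let f : Coef N (a ∘ v) (b ∘ u) → Coef N a b := fun p =>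
      ⟨(u p.1.1, v p.1.2.1, p.1.2.2), p.2⟩
    have hf : Function.Injective f := by
      intro p q hpq
      have h1 : (u p.1.1, v p.1.2.1, p.1.2.2) = (u q.1.1, v q.1.2.1, q.1.2.2) :=
        congrArg Subtype.val hpq
      rw [Prod.mk.injEq, Prod.mk.injEq] at h1
      obtain ⟨h2, h3, h4⟩ := h1
      apply Subtype.ext
      exact Prod.ext (hu h2) (Prod.ext (hv h3) h4)
    exact hA.2.comp f hf
  · intro N A hA
    refine ⟨?_, ?_⟩
    · intro i j m hm
      rw [MvPolynomial.mem_support_iff, Matrix.map_apply, gs_coeff_red] at hm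
      have h1 := hA.1 i j (Finsupp.cons 0 m) (MvPolynomial.mem_support_iff.2 hm)
      rw [gs_degree_cons] at h1
      exact h1
    · let f : Coef N a b → Coef (N + 1) a b := fun p =>
        ⟨(p.1.1, p.1.2.1, Finsupp.cons 0 p.1.2.2), by
          have h1 := p.2
          simp only [gs_degree_cons]
          exact h1⟩
      have hf : Function.Injective f := by
        intro p q hpq
        have h1 : (p.1.1, p.1.2.1, Finsupp.cons 0 p.1.2.2) =
            (q.1.1, q.1.2.1, Finsupp.cons 0 q.1.2.2) :=
          congrArg Subtype.val hpq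
        rw [Prod.mk.injEq, Prod.mk.injEq] at h1
        obtain ⟨h2, h3, h4⟩ := h1
        have h5 : p.1.2.2 = q.1.2.2 := by
          have h6 := congrArg Finsupp.tail h4
          simpa using h6
        apply Subtype.ext
        exact Prod.ext h2 (Prod.ext h3 h5)
      have h1 := hA.2.comp f hf
      have h2 : (fun p : Coef N a b =>
          ((A.map red : Matrix I J (MvPolynomial (Fin N) K)) p.1.1 p.1.2.1).coeff p.1.2.2) =
          (fun p : Coef (N + 1) a b => (A p.1.1 p.1.2.1).coeff p.1.2.2) ∘ f := by
        funext p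
        exact gs_coeff_red _ _
      rw [h2]
      exact h1

end Pool.Agent.Lib.MP_09338f_ag
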