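import Pool.Agent.Lib.MP_09338f_ag.KM.Stm3

/-!
# Project KM, piece [hba] (helper19)
-/

set_option autoImplicit false

open MvPolynomial Matrix

universe u

namespace Pool.Agent.Lib.MP_09338f_ag

private theorem hba_homD_zero {N : ℕ} {K : Type u} [CommSemiring K] (d : ℤ) :
    HomD d (0 : MvPolynomial (Fin N) K) := by
  intro m hm
  simp at hm

private theorem hba_homD_one {N : ℕ} {K : Type u} [CommSemiring K] :
    HomD 0 (1 : MvPolynomial (Fin N) K) := by
  intro m hm
  rw [MvPolynomial.mem_support_iff, MvPolynomial.coeff_one] at hm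
  by_cases h : (0 : Fin N →₀ ℕ) = m
  · rw [← h]; simp
  · simp [h] at hm

private theorem hba_homD_X {N : ℕ} {K : Type u} [CommSemiring K] {d : ℤ}
    {p : MvPolynomial (Fin (N + 1)) K} (hp : HomD d p) : HomD (d + 1) (X 0 * p) := by
  intro m hm
  classical
  have h1 := MvPolynomial.support_mul (X 0 : MvPolynomial (Fin (N + 1)) K) p hm
  rw [Finset.mem_add] at h1
  obtain ⟨y, hy, z, hz, rfl⟩ := h1
  have h2 := hp z hz
  have h3 : y = Finsupp.single 0 1 := by
    rw [MvPolynomial.mem_support_iff, MvPolynomial.coeff_X] at hy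
    by_contra hne
    exact hy (if_neg fun h => hne h.symm)
  rw [h3, map_add]
  push_cast
  rw [h2]
  have : (Finsupp.single (0 : Fin (N + 1)) 1 : Fin (N + 1) →₀ ℕ).degree = 1 := by
    simp
  rw [this]
  push_cast
  ring

/-- A square matrix with `Ex1` has a nonzero determinant. -/
private theorem hba_det {I J : Type} {R : Type u} [Fintype I] [DecidableEq I] [Fintype J]
    [DecidableEq J] [CommRing R] [IsDomain R] (h_rel : S_rel.{u}) (A : Matrix I J R)
    (hc : Fintype.card J = Fintype.card I) (hA : Ex1 A) :
    ∃ e : I → J, (A.submatrix id e).det ≠ 0 := by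
  have e : I ≃ J := Fintype.equivOfCardEq hc.symm
  refine ⟨e, fun hdet => ?_⟩
  rw [← Matrix.exists_mulVec_eq_zero_iff] at hdet
  obtain ⟨v, hv, hv0⟩ := hdet
  have h1 : A.mulVec (v ∘ e.symm) = 0 := by
    have h2 := Matrix.submatrix_mulVec_equiv A v id e
    rw [hv0] at h2
    exact h2.symm
  have h3 := hA _ h1
  have h4 : Set.range (rel A) ⊆ {0} := by
    rintro x ⟨y, rfl⟩
    rw [Set.mem_singleton_iff]
    apply (h_rel R I J).2.1 A y
    intro hinj
    have := Fintype.card_le_of_injective y hinj
    rw [Fintype.card_option] at this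
    omega
  have h5 : v ∘ e.symm = 0 := by
    have h6 := Submodule.span_mono h4 h3
    rw [Submodule.span_zero_singleton, Submodule.mem_bot] at h6
    exact h6
  apply hv
  funext i
  have := congrFun h5 (e i)
  simpa using this

theorem p_hba (h_isc : S_isc) (h_hbs : S_hbs.{u}) (h_hbu : S_hbu.{u}) (h_sph : S_sph.{u})
    (h_e1a : S_e1a.{u}) (h_re : S_re.{u}) (h_gm : S_gm.{u}) (h_gs : S_gs.{u})
    (h_rel : S_rel.{u}) : S_hba.{u} := by
  intro N I J _ _ _ _ a b hc hN hCD
  refine h_isc 0 (fun N I J _ _ _ _ a b => Fintype.card J = Fintype.card I + 1 → GHB.{u} N a b)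
    ?_ ?_ ?_ ?_ ?_ N I J a b (by omega) (by omega) hCD hc
  · -- renaming
    intro N I J I' J' _ _ _ _ _ _ _ _ a b u v h hc
    refine (h_re N I J I' J' a b u v).2.2 (h ?_)
    rw [Fintype.card_congr u, Fintype.card_congr v]
    exact hc
  · -- no rows
    intro N I J _ _ _ _ a b hI hc k K _ _ _ A hA u hu
    have h0 : u = 0 := by
      funext j
      have h1 := hu fun _ => j
      rw [Matrix.det_unique] at h1
      exact h1
    refine ⟨0, ?_⟩
    rw [h0, Matrix.zero_vecMul]
  · -- square case
    intro N I J _ _ _ _ a b α β hIJ _ _ _ _ _ _ _ hc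
    rw [Fintype.card_option, Fintype.card_option] at hc
    omega
  · -- unit case
    intro N I J _ _ _ _ a b β _ _ _ _ _ hP hc k K _ _ _ A hA
    rw [Fintype.card_option, Fintype.card_option] at hc
    have hM := h_gm k (Option I) J N a (oext b β)
    set M := genMatrix k N a (oext b β) with hMdef
    have hA' := ((h_gs k _ (Option I) J a (oext b β)).1 N M hM) I J some id
      (Option.some_injective I) Function.injective_id
    have hHB := hP (by omega) k _ (M.submatrix some id) hA'
    refine h_sph k _ K (Option I) (Option J) N (oext a β) (oext b β)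
      (addCol (addRow (M.submatrix some id) (M none)) (Pi.single none 1)) A ?_
      (h_hbu _ I J _ (M none) hHB) hA
    rintro (_ | i) (_ | j)
    · simp only [addCol, oext, Option.elim, Pi.single_eq_same, sub_self]
      exact hba_homD_one
    · exact hM.1 none j
    · simp only [addCol, Option.elim]
      rw [Pi.single_eq_of_ne (by simp)]
      exact hba_homD_zero _
    · exact hM.1 (some i) j
  · -- splitting case
    intro N I J _ _ _ _ a b α hI hIJ hJN hbα hCD1 _ _ _ hP hc k K _ _ _ A hA
    have hcJ := hc
    rw [Fintype.card_option] at hcJ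
    have hG := h_gm k I (Option J) (N + 1) (oext a α) b
    have hHB := hP hc k _ _ hG
    set G := genMatrix k (N + 1) (oext a α) b with hGdef
    set C := G.submatrix id some with hCdef
    have hC := ((h_gs k _ I (Option J) (oext a α) b).1 (N + 1) G hG) I J id some
      Function.injective_id (Option.some_injective J)
    have hπ := (h_gs k _ I J a b).2 N C hC
    have hE := h_e1a N I J a b hIJ (by omega) hCD1 k _ _ hπ
    obtain ⟨e, he⟩ := hba_det h_rel _ (by omega) hE
    have hadd : addCol C (fun i => G i none) = G := by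
      funext i j
      cases j <;> rfl
    rw [← hadd] at hHB
    refine h_sph k _ K I (Option J) (N + 1) (oext a (α + 1)) b
      (addCol C ((X 0 : MvPolynomial (Fin (N + 1)) _) • fun i => G i none)) A ?_
      (h_hbs _ N I J C _ (by omega) ⟨e, ?_⟩ hHB) hA
    · rintro i (_ | j)
      · have h1 := hba_homD_X (hG.1 i none)
        have h2 : oext a α none - b i + 1 = oext a (α + 1) none - b i := by
          simp only [oext, Option.elim]
          ring
        rw [h2] at h1
        exact h1
      · exact hG.1 i (some j)
    · have h1 : (red (C.submatrix id e).det : MvPolynomial (Fin N) _) =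
          ((C.map red : Matrix I J (MvPolynomial (Fin N) _)).submatrix id e).det := by
        rw [AlgHom.map_det]
        rfl
      rw [h1]
      exact he

end Pool.Agent.Lib.MP_09338f_ag
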