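import Mathlib
import Pool.Agent.Lib.MP_09338f_ag.KM.Stm1

/-!
# Project KM, piece [hbs]: splitting step for `HB`
-/

set_option autoImplicit false

open MvPolynomial Matrix

universe u

namespace Pool.Agent.Lib.MP_09338f_ag

/-- expansion along the column `none` -/
private theorem hbs_det {R : Type u} [CommRing R] {I : Type} [Fintype I] [DecidableEq I]
    (M : Matrix (Option I) (Option I) R) (h : ∀ i, M (some i) none = 0) :
    M.det = M none none * (M.submatrix some some).det := by
  have h1 : M.submatrix (Equiv.optionEquivSumPUnit.{0} I).symm
      (Equiv.optionEquivSumPUnit.{0} I).symm =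
      Matrix.fromBlocks (M.submatrix some some) 0
        (Matrix.of fun (_ : PUnit.{1}) i => M none (some i))
        (Matrix.of fun (_ _ : PUnit.{1}) => M none none) := by
    ext i j
    rcases i with i | i <;> rcases j with j | j
    · rfl
    · exact h i
    · rfl
    · rfl
  have h2 : (Matrix.of fun (_ _ : PUnit.{1}) => M none none).det = M none none :=
    Matrix.det_unique _
  rw [← Matrix.det_submatrix_equiv_self (Equiv.optionEquivSumPUnit.{0} I).symm M, h1,
    Matrix.det_fromBlocks_zero₁₂, h2, mul_comm]

theorem p_hbs (h_redk : S_redk.{u}) : S_hbs.{u} := by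
  intro K _ N I J _ _ _ _ C w hcard he' hHB u hu
  obtain ⟨-, hk, hx, -⟩ := h_redk K N
  obtain ⟨e', he'⟩ := he'
  -- the last component of `u` is divisible by `x_0`
  have hdiv : ∃ q : MvPolynomial (Fin (N + 1)) K, u none = X 0 * q := by
    apply hk
    have h1 := congrArg (red : MvPolynomial (Fin (N + 1)) K →ₐ[K] MvPolynomial (Fin N) K)
      (hu (Option.map e'))
    rw [map_zero, AlgHom.map_det] at h1
    rw [hbs_det _ (fun i => by
      change (red ((X 0 : MvPolynomial (Fin (N + 1)) K) * w i) : MvPolynomial (Fin N) K) = 0
      rw [map_mul, hx, zero_mul])] at h1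
    rcases mul_eq_zero.1 h1 with h2 | h2
    · exact h2
    · refine absurd ?_ he'
      rw [AlgHom.map_det]
      exact h2
  obtain ⟨q, hq⟩ := hdiv
  have hX0 : (X 0 : MvPolynomial (Fin (N + 1)) K) ≠ 0 := MvPolynomial.X_ne_zero 0
  obtain ⟨x, hxx⟩ := hHB (fun j => j.elim q fun j => u (some j)) (by
    intro e
    by_cases hinj : Function.Injective e
    · have hex : ∃ s₀, e s₀ = none := by
        by_contra hcon
        have h1 : ∀ s, ∃ j, e s = some j := fun s => by
          rcases h : e s with _ | j
          · exact absurd ⟨s, h⟩ hcon
          · exact ⟨j, rfl⟩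
        choose f hf using h1
        have h2 : Function.Injective f := by
          intro s s' hs
          apply hinj
          rw [hf, hf, hs]
        have h3 := Fintype.card_le_of_injective f h2
        rw [Fintype.card_option, hcard] at h3
        omega
      obtain ⟨s₀, hs₀⟩ := hex
      have h2 := hu e
      have h3 : (Matrix.of fun (r s : Option I) => r.elim (u (e s)) fun i =>
          addCol C ((X 0 : MvPolynomial (Fin (N + 1)) K) • w) i (e s)) =
          (Matrix.of fun (r s : Option I) =>
            r.elim ((fun j => j.elim q fun j => u (some j) :
              Option J → MvPolynomial (Fin (N + 1)) K) (e s)) fun i =>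
              addCol C w i (e s)).updateCol s₀ ((X 0 : MvPolynomial (Fin (N + 1)) K) •
              fun r => (Matrix.of fun (r s : Option I) =>
                r.elim ((fun j => j.elim q fun j => u (some j) :
                  Option J → MvPolynomial (Fin (N + 1)) K) (e s)) fun i =>
                  addCol C w i (e s)) r s₀) := by
        ext r s
        rw [Matrix.updateCol_apply]
        by_cases hs : s = s₀
        · subst hs
          rw [if_pos rfl]
          rcases r with _ | i
          · simp only [Matrix.of_apply, Option.elim_none, Pi.smul_apply, smul_eq_mul, hs₀, hq]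
          · simp only [Matrix.of_apply, Option.elim_some, Pi.smul_apply, smul_eq_mul, hs₀, addCol,
              Option.elim_none]
        · rw [if_neg hs]
          have h4 : e s ≠ none := fun h => hs (hinj (h.trans hs₀.symm))
          rcases h5 : e s with _ | j
          · exact absurd h5 h4
          · rcases r with _ | i
            · simp only [Matrix.of_apply, Option.elim_none, h5, Option.elim_some]
            · simp only [Matrix.of_apply, Option.elim_some, h5, addCol]
      rw [h3, Matrix.det_updateCol_smul] at h2
      rcases mul_eq_zero.1 h2 with h4 | h4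
      · exact absurd h4 hX0
      · rw [Matrix.updateCol_eq_self] at h4
        exact h4
    · obtain ⟨s, s', hss, hne⟩ : ∃ s s', e s = e s' ∧ s ≠ s' := by
        by_contra hcon
        apply hinj
        intro s s' h
        by_contra h1
        exact hcon ⟨s, s', h, h1⟩
      refine Matrix.det_zero_of_column_eq hne fun r => ?_
      simp only [Matrix.of_apply, hss])
  refine ⟨x, ?_⟩
  funext j
  rcases j with _ | j
  · have h1 := congrFun hxx none
    change q = ∑ i, x i * w i at h1
    rw [hq, h1, Finset.mul_sum]
    change _ = ∑ i, x i * ((X 0 : MvPolynomial (Fin (N + 1)) K) * w i)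
    exact Finset.sum_congr rfl fun i _ => by ring
  · exact congrFun hxx (some j)

end Pool.Agent.Lib.MP_09338f_ag
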