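import Pool.Agent.Lib.MP_09338f_ag.KM.Stm1

/-!
# Project KM, piece hbu: the unit step for `HB`
-/

set_option autoImplicit false

open MvPolynomial Matrix

universe u

namespace Pool.Agent.Lib.MP_09338f_ag

/-- `Option (Option I)` without `some none` is `Option I`. -/
private def hbu_equiv (I : Type) : Option I ⊕ Unit ≃ Option (Option I) where
  toFun := fun x => match x with
    | Sum.inl none => none
    | Sum.inl (some i) => some (some i)
    | Sum.inr _ => some none
  invFun := fun x => match x with
    | none => Sum.inl none
    | some (some i) => Sum.inl (some i)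
    | some none => Sum.inr ()
  left_inv := fun x => match x with
    | Sum.inl none => rfl
    | Sum.inl (some _) => rfl
    | Sum.inr _ => rfl
  right_inv := fun x => match x with
    | none => rfl
    | some (some _) => rfl
    | some none => rfl

/-- The columns of the large minor. -/
private def hbu_e {I J : Type} (e : Option I → J) : Option (Option I) → Option J
  | none => some (e none)
  | some none => none
  | some (some i) => some (e (some i))

private theorem hbu_det {R : Type u} [CommRing R] {I J : Type} [Fintype I] [DecidableEq I]
    (A' : Matrix I J R) (r : J → R) (v : Option J → R) (e : Option I → J) :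
    (Matrix.of fun (ρ s : Option (Option I)) => ρ.elim (v (hbu_e e s))
      fun i => addCol (addRow A' r) (Pi.single none 1) i (hbu_e e s)).det =
    (Matrix.of fun (ρ s : Option I) => ρ.elim (v (some (e s)) - v none * r (e s))
      fun i => A' i (e s)).det := by
  rw [← Matrix.det_submatrix_equiv_self (hbu_equiv I)]
  have h1 : (Matrix.of fun (ρ s : Option (Option I)) => ρ.elim (v (hbu_e e s))
      fun i => addCol (addRow A' r) (Pi.single none 1) i (hbu_e e s)).submatrix
        (hbu_equiv I) (hbu_equiv I) =
      Matrix.fromBlocks
        (Matrix.of fun (ρ s : Option I) => ρ.elim (v (some (e s))) fun i => A' i (e s))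
        (Matrix.of fun (ρ : Option I) (_ : Unit) => ρ.elim (v none) fun _ => 0)
        (Matrix.of fun (_ : Unit) (s : Option I) => r (e s)) 1 := by
    ext ρ s
    rcases ρ with (_ | i) | _ <;> rcases s with (_ | i') | _ <;> rfl
  rw [h1, Matrix.det_fromBlocks_one₂₂]
  congr 1
  ext ρ s
  rw [Matrix.sub_apply, Matrix.mul_apply, Finset.univ_unique, Finset.sum_singleton]
  rcases ρ with _ | i
  · rfl
  · show A' i (e s) - 0 * r (e s) = A' i (e s)
    rw [zero_mul, sub_zero]

theorem p_hbu : S_hbu.{u} := by
  intro R _ I J _ _ _ _ A' r hA' v hv
  obtain ⟨x, hx⟩ := hA' (fun j => v (some j) - v none * r j) (fun e => by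
    have h1 := hv (hbu_e e)
    rw [hbu_det] at h1
    exact h1)
  refine ⟨fun i => i.elim (v none) x, ?_⟩
  funext j
  have h2 : ∀ j : Option J, Matrix.vecMul (fun i : Option I => i.elim (v none) x)
      (addCol (addRow A' r) (Pi.single none 1)) j =
      v none * addCol (addRow A' r) (Pi.single none 1) none j +
        ∑ i, x i * addCol (addRow A' r) (Pi.single none 1) (some i) j := by
    intro j
    show ∑ i : Option I, i.elim (v none) x * addCol (addRow A' r) (Pi.single none 1) i j = _
    rw [Fintype.sum_option]
    rfl
  rw [h2]
  rcases j with _ | j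
  · have h3 : ∀ i : Option I, addCol (addRow A' r) (Pi.single none (1 : R)) i none =
        (Pi.single none (1 : R) : Option I → R) i := fun _ => rfl
    rw [h3, Pi.single_eq_same, mul_one, Finset.sum_eq_zero, add_zero]
    intro i _
    rw [h3, Pi.single_eq_of_ne (by simp), mul_zero]
  · have h4 : v (some j) - v none * r j = ∑ i, x i * A' i j := congrFun hx j
    show v (some j) = v none * r j + ∑ i, x i * A' i j
    rw [← h4]
    ring

end Pool.Agent.Lib.MP_09338f_ag
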