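import Pool.Agent.Lib.MP_09338f_ag.KM.Stm1

/-! Piece [KM hc]: homogeneous components. -/

set_option autoImplicit false

open MvPolynomial Matrix

universe u

namespace Pool.Agent.Lib.MP_09338f_ag

/-- The homogeneous component of the integer degree `d`. -/
private noncomputable def hc_comp {N : ℕ} {K : Type u} [Field K] (d : ℤ)
    (p : MvPolynomial (Fin N) K) : MvPolynomial (Fin N) K :=
  if 0 ≤ d then homogeneousComponent d.toNat p else 0

private theorem hc_coeff {N : ℕ} {K : Type u} [Field K] (d : ℤ)
    (p : MvPolynomial (Fin N) K) (m : Fin N →₀ ℕ) :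
    coeff m (hc_comp d p) = if ((m.degree : ℕ) : ℤ) = d then coeff m p else 0 := by
  unfold hc_comp
  by_cases hd : 0 ≤ d
  · rw [if_pos hd, coeff_homogeneousComponent]
    have h : m.degree = d.toNat ↔ ((m.degree : ℕ) : ℤ) = d := by
      constructor
      · intro h
        rw [h]
        exact Int.toNat_of_nonneg hd
      · intro h
        rw [← h]
        simp
    by_cases hm : m.degree = d.toNat
    · rw [if_pos hm, if_pos (h.1 hm)]
    · rw [if_neg hm, if_neg (fun h' => hm (h.2 h'))]
  · rw [if_neg hd, coeff_zero, if_neg]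
    intro h
    apply hd
    rw [← h]
    positivity

private theorem hc_hom {N : ℕ} {K : Type u} [Field K] (d : ℤ)
    (p : MvPolynomial (Fin N) K) : HomD d (hc_comp d p) := by
  intro m hm
  rw [mem_support_iff, hc_coeff] at hm
  by_contra h
  rw [if_neg h] at hm
  exact hm rfl

private theorem hc_self {N : ℕ} {K : Type u} [Field K] {d : ℤ}
    {p : MvPolynomial (Fin N) K} (hp : HomD d p) : hc_comp d p = p := by
  ext m
  rw [hc_coeff]
  by_cases h : ((m.degree : ℕ) : ℤ) = d
  · rw [if_pos h]
  · rw [if_neg h]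
    by_contra h2
    exact h (hp m (mem_support_iff.2 (fun h3 => h2 h3.symm)))

private theorem hc_add {N : ℕ} {K : Type u} [Field K] (d : ℤ)
    (p q : MvPolynomial (Fin N) K) : hc_comp d (p + q) = hc_comp d p + hc_comp d q := by
  ext m
  rw [coeff_add, hc_coeff, hc_coeff, hc_coeff, coeff_add]
  split_ifs
  · rfl
  · rw [add_zero]

private theorem hc_zero {N : ℕ} {K : Type u} [Field K] (d : ℤ) :
    hc_comp d (0 : MvPolynomial (Fin N) K) = 0 := by
  ext m
  rw [hc_coeff, coeff_zero, ite_self]

private theorem hc_sum {N : ℕ} {K : Type u} [Field K] {ι : Type} (s : Finset ι) (d : ℤ)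
    (f : ι → MvPolynomial (Fin N) K) :
    hc_comp d (∑ i ∈ s, f i) = ∑ i ∈ s, hc_comp d (f i) := by
  classical
  induction s using Finset.induction_on with
  | empty => rw [Finset.sum_empty, Finset.sum_empty, hc_zero]
  | insert a s ha ih => rw [Finset.sum_insert ha, Finset.sum_insert ha, hc_add, ih]

private theorem hc_mul {N : ℕ} {K : Type u} [Field K] {e : ℤ} (d d' : ℤ)
    {q : MvPolynomial (Fin N) K} (hq : HomD e q) (p : MvPolynomial (Fin N) K) (hd : d' = d + e) :
    q * hc_comp d p = hc_comp d' (q * p) := by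
  classical
  ext m
  rw [hc_coeff, coeff_mul, coeff_mul]
  have h : ∀ x ∈ Finset.HasAntidiagonal.antidiagonal m, coeff x.1 q * coeff x.2 (hc_comp d p) =
      if ((m.degree : ℕ) : ℤ) = d' then coeff x.1 q * coeff x.2 p else 0 := by
    intro x hx
    rw [Finset.HasAntidiagonal.mem_antidiagonal] at hx
    by_cases h0 : coeff x.1 q = 0
    · rw [h0, zero_mul, zero_mul, ite_self]
    · have h1 := hq x.1 (mem_support_iff.2 h0)
      have h2 : ((m.degree : ℕ) : ℤ) = ((x.1.degree : ℕ) : ℤ) + ((x.2.degree : ℕ) : ℤ) := by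
        rw [← hx, map_add]
        push_cast
        rfl
      rw [hc_coeff]
      by_cases h3 : ((x.2.degree : ℕ) : ℤ) = d
      · rw [if_pos h3, if_pos (by omega)]
      · rw [if_neg h3, if_neg (by omega), mul_zero]
  rw [Finset.sum_congr rfl h]
  split_ifs
  · rfl
  · rw [Finset.sum_const_zero]

theorem p_hc : S_hc.{u} := by
  intro K _ N I J _ _ _ _ a b A hA
  refine ⟨?_, ?_, ?_⟩
  · intro d m u hm hu
    refine ⟨fun j => hc_comp (d - a j) (u j), fun j => hc_hom _ _, ?_⟩
    funext i
    have h1 : ∑ j, A i j * u j = m i := by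
      rw [← hu]; rfl
    show ∑ j, A i j * hc_comp (d - a j) (u j) = m i
    rw [← hc_self (hm i), ← h1, hc_sum]
    refine Finset.sum_congr rfl fun j _ => ?_
    exact hc_mul (d - a j) (d - b i) (hA i j) (u j) (by ring)
  · intro B X Y hB hBX
    refine ⟨Matrix.of fun i i' => hc_comp (b i' - b i) (X i i'),
      Matrix.of fun j j' => hc_comp (a j' - a j) (Y j j'), fun i i' => hc_hom _ _,
      fun j j' => hc_hom _ _, ?_⟩
    ext1 i j
    have h1 : B i j = ∑ i', X i i' * A i' j + ∑ j', A i j' * Y j' j := by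
      rw [hBX]; rfl
    rw [← hc_self (hB i j)]
    rw [h1, hc_add, hc_sum, hc_sum]
    show _ = ∑ i', hc_comp (b i' - b i) (X i i') * A i' j +
      ∑ j', A i j' * hc_comp (a j - a j') (Y j' j)
    congr 1
    · refine Finset.sum_congr rfl fun i' _ => ?_
      rw [mul_comm (X i i'), mul_comm (hc_comp _ _)]
      exact (hc_mul (b i' - b i) (a j - b i) (hA i' j) (X i i') (by ring)).symm
    · refine Finset.sum_congr rfl fun j' _ => ?_
      exact (hc_mul (a j - a j') (a j - b i) (hA i j') (Y j' j) (by ring)).symm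
  · intro X s Z hX hXs
    refine ⟨coeff 0 s, Matrix.of fun j i => hc_comp (b i - a j) (Z j i), fun j i => hc_hom _ _, ?_⟩
    ext1 i i'
    have h1 : X i i' = s * (1 : Matrix I I (MvPolynomial (Fin N) K)) i i' +
        ∑ j, A i j * Z j i' := by
      rw [hXs]; rfl
    rw [← hc_self (hX i i')]
    rw [h1, hc_add, hc_sum]
    show _ = C (coeff 0 s) * (1 : Matrix I I (MvPolynomial (Fin N) K)) i i' +
      ∑ j, A i j * hc_comp (b i' - a j) (Z j i')
    congr 1
    · by_cases h : i = i'
      · subst h
        rw [Matrix.one_apply_eq, mul_one, mul_one, sub_self]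
        ext m
        rw [hc_coeff, coeff_C]
        by_cases hm : m = 0
        · subst hm
          simp
        · have h2 : ¬ ((m.degree : ℕ) : ℤ) = 0 := by
            intro h3
            apply hm
            rw [← Finsupp.degree_eq_zero_iff]
            exact_mod_cast h3
          rw [if_neg h2, if_neg (fun h4 => hm h4.symm)]
      · rw [Matrix.one_apply_ne h, mul_zero, mul_zero, hc_zero]
    · refine Finset.sum_congr rfl fun j _ => ?_
      exact (hc_mul (b i' - a j) (b i' - b i) (hA i j) (Z j i') (by ring)).symm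

end Pool.Agent.Lib.MP_09338f_ag

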