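import Mathlib
import Pool.Agent.Lib.MP_09338f_ag.KM.Stm3

/-!
# Project KM, piece [hdg]: an ideal of maximal minors of degrees at least `2` contains no linear
forms
-/

set_option autoImplicit false

open MvPolynomial Matrix

universe u

namespace Pool.Agent.Lib.MP_09338f_ag

theorem p_hdg (h_reld : S_reld.{u}) : S_hdg.{u} := by
  intro K _ N I J _ _ _ _ a b D hD h2 y hy d hd hyd
  have key : ∀ m : Fin N →₀ ℕ, m.degree < 2 → coeff m y = 0 := by
    refine Submodule.span_induction (p := fun y _ => ∀ m : Fin N →₀ ℕ, m.degree < 2 →
      coeff m y = 0) ?_ ?_ ?_ ?_ hy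
    · rintro _ ⟨e, rfl⟩ m hm
      by_cases he : Function.Injective e
      · by_contra hc
        have h3 := (h_reld K N I J a b D hD).2.1 e m (mem_support_iff.2 hc)
        have h4 := h2 e he
        omega
      · obtain ⟨s, s', hss, hne⟩ : ∃ s s', e s = e s' ∧ s ≠ s' := by
          by_contra hcon
          apply he
          intro s s' h
          by_contra h1
          exact hcon ⟨s, s', h, h1⟩
        have h5 : (D.submatrix id e).det = 0 := Matrix.det_zero_of_column_eq hne fun r => by
          simp only [Matrix.submatrix_apply, hss]
        change coeff m (D.submatrix id e).det = 0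
        rw [h5, coeff_zero]
    · intro m _
      exact coeff_zero m
    · intro x y _ _ hx hy m hm
      rw [coeff_add, hx m hm, hy m hm, add_zero]
    · intro c x _ hx m hm
      rw [smul_eq_mul, coeff_mul]
      refine Finset.sum_eq_zero fun p hp => ?_
      have h6 : p.1 + p.2 = m := Finset.HasAntidiagonal.mem_antidiagonal.1 hp
      have h7 : p.1.degree + p.2.degree = m.degree := by rw [← h6, map_add]
      rw [hx p.2 (by omega), mul_zero]
  ext m
  rw [coeff_zero]
  by_contra hc
  have h1 := hyd m (mem_support_iff.2 hc)
  exact hc (key m (by omega))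

end Pool.Agent.Lib.MP_09338f_ag
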