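import Pool.Agent.Lib.MP_09338f_ag.KM.Stm4

/-!
# Project KM, piece [hfa]: the Hilbert function of the kernel of the generic matrix
-/

set_option autoImplicit false

open MvPolynomial Matrix

universe u

namespace Pool.Agent.Lib.MP_09338f_ag

private theorem hfa_homD_zero {N : ℕ} {K : Type u} [CommSemiring K] (d : ℤ) :
    HomD d (0 : MvPolynomial (Fin N) K) := by
  intro m hm
  simp at hm

private theorem hfa_homD_one {N : ℕ} {K : Type u} [CommSemiring K] :
    HomD 0 (1 : MvPolynomial (Fin N) K) := by
  intro m hm
  classical
  rw [MvPolynomial.mem_support_iff, MvPolynomial.coeff_one] at hm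
  by_cases h : (0 : Fin N →₀ ℕ) = m
  · subst h
    simp
  · simp [h] at hm

private theorem hfa_homD_X_mul {N : ℕ} {K : Type u} [CommSemiring K] (i : Fin N) (d : ℤ)
    (p : MvPolynomial (Fin N) K) (hp : HomD d p) : HomD (d + 1) (X i * p) := by
  intro m hm
  classical
  rw [mul_comm, MvPolynomial.mem_support_iff, MvPolynomial.coeff_mul_X'] at hm
  by_cases h : i ∈ m.support
  · rw [if_pos h] at hm
    have h1 := hp (m - Finsupp.single i 1) (MvPolynomial.mem_support_iff.2 hm)
    have h2 : m - Finsupp.single i 1 + Finsupp.single i 1 = m := by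
      ext j
      by_cases hj : j = i
      · subst hj
        have h3 : m j ≠ 0 := Finsupp.mem_support_iff.1 h
        simp only [Finsupp.coe_add, Finsupp.coe_tsub, Pi.add_apply, Pi.sub_apply,
          Finsupp.single_eq_same]
        omega
      · have h3 : (Finsupp.single i 1 : Fin N →₀ ℕ) j = 0 := Finsupp.single_eq_of_ne hj
        simp only [Finsupp.coe_add, Finsupp.coe_tsub, Pi.add_apply, Pi.sub_apply, h3]
        omega
    have h4 : m.degree = (m - Finsupp.single i 1).degree + 1 := by
      conv_lhs => rw [← h2]
      rw [map_add, Finsupp.degree_single]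
    rw [h4]
    push_cast
    rw [h1]
  · rw [if_neg h] at hm
    exact absurd rfl hm

private theorem hfa_inj {I J : Type} {R : Type u} [Fintype I] [DecidableEq I] [Fintype J]
    [DecidableEq J] [CommRing R] (h_rel : S_rel.{u}) (A : Matrix I J R) (hA : Ex1 A)
    (hc : Fintype.card J ≤ Fintype.card I) (x : J → R) (hx : A.mulVec x = 0) : x = 0 := by
  have h1 := hA x hx
  have h2 : Submodule.span R (Set.range (rel A)) = ⊥ := by
    rw [Submodule.span_eq_bot]
    rintro _ ⟨y, rfl⟩
    refine (h_rel R I J).2.1 A y ?_
    intro hy
    have h3 := Fintype.card_le_of_injective y hy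
    rw [Fintype.card_option] at h3
    omega
  rw [h2] at h1
  exact (Submodule.mem_bot R).1 h1

theorem p_hfa (h_isc : S_isc) (h_hfp : S_hfp.{u}) (h_hfs : S_hfs.{u}) (h_hfu : S_hfu.{u})
    (h_hns : S_hns) (h_hnu : S_hnu) (h_hnr : S_hnr.{u}) (h_e1a : S_e1a.{u}) (h_e1s : S_e1s.{u})
    (h_e1u : S_e1u.{u}) (h_gm : S_gm.{u}) (h_gs : S_gs.{u}) (h_mon : S_mon.{u})
    (h_rel : S_rel.{u}) : S_hfa.{u} := by
  intro k K _ _ _ N I J _ _ _ _ a b A hIJ hN hCD hA
  refine h_isc 0 (fun N I J _ _ _ _ a b =>
    ∀ (k K : Type u) [Field k] [Field K] [Algebra k K] (A : Matrix I J (MvPolynomial (Fin N) K)),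
      Gen k a b A → ∀ d : ℤ, (Module.finrank K (kerD a A d) : ℤ) = Hnum N a b d)
    ?_ ?_ ?_ ?_ ?_ N I J a b hIJ (by omega) hCD k K A hA
  · -- renaming
    intro N I J I' J' _ _ _ _ _ _ _ _ a b u v h k K _ _ _ A hA d
    have h1 := h k K (A.submatrix u v)
      ((h_gs k K I J a b).1 N A hA I' J' u v u.injective v.injective) d
    obtain ⟨h2, h3, -, -⟩ := h_hnr N I J I' J' a b u v d
    rw [h2, h3 K A] at h1
    exact h1
  · -- no rows
    intro N I J _ _ _ _ a b hI k K _ _ _ A hA d
    have h1 : kerD a A d = tupS N K a d := by
      refine le_antisymm inf_le_left (le_inf le_rfl ?_)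
      intro x _
      rw [LinearMap.mem_ker]
      funext i
      exact hI.elim i
    rw [h1, (h_mon.2.1 N K J a d).2,
      (h_hnr N I J I J a b (Equiv.refl I) (Equiv.refl J) d).2.2.2 hI]
    push_cast
    rfl
  · -- square case
    intro N I J _ _ _ _ a b α β hc hN hb ha hβα hCD1 hCD2 hP k K _ _ _ A hA d
    have hE : Ex1 A := h_e1a N (Option I) (Option J) (oext a α) (oext b β)
      (by rw [Fintype.card_option, Fintype.card_option]; omega)
      (by rw [Fintype.card_option, Fintype.card_option]; omega) hCD2 k K A hA
    have h1 : kerD (oext a α) A d = ⊥ := by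
      rw [eq_bot_iff]
      intro x hx
      rw [Submodule.mem_bot]
      refine hfa_inj h_rel A hE
        (by rw [Fintype.card_option, Fintype.card_option]; omega) x ?_
      have h2 := hx.2
      rw [SetLike.mem_coe, LinearMap.mem_ker] at h2
      exact h2
    rw [h1, finrank_bot, (h_hnr N (Option I) (Option J) (Option I) (Option J) (oext a α) (oext b β)
      (Equiv.refl _) (Equiv.refl _) d).2.2.1
        (by rw [Fintype.card_option, Fintype.card_option]; omega)]
    rfl
  · -- unit case
    intro N I J _ _ _ _ a b β hc hN hCD1 hCD2 hCD3 hP k K _ _ _ A hA d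
    have hG : Gen k a b (genMatrix k N a b) := h_gm k I J N a b
    have hC : HomM a (oext b β) (addRow (genMatrix k N a b) 0) := by
      intro i j
      cases i with
      | none => simpa [addRow] using hfa_homD_zero _
      | some i => exact hG.1 i j
    have hA₀ : HomM (oext a β) (oext b β)
        (addCol (addRow (genMatrix k N a b) 0) (Pi.single none 1)) := by
      intro i j
      cases j with
      | none =>
        cases i with
        | none => simpa [addCol, oext] using hfa_homD_one
        | some i => simpa [addCol] using hfa_homD_zero _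
      | some j => exact hC i j
    have h1 := h_hfp k (GenField k N a b) K (Option I) (Option J) N (oext a β) (oext b β)
      (addCol (addRow (genMatrix k N a b) 0) (Pi.single none 1)) A hA₀
      (h_e1u _ I J _ 0
        (h_e1a N I J a b (by omega) (by omega) hCD1 k (GenField k N a b) _ hG)) hA d
    have h2 := h_hfu (GenField k N a b) N I J a b β (addRow (genMatrix k N a b) 0) hC d
    have h3 : (addRow (genMatrix k N a b) 0).submatrix some id = genMatrix k N a b := rfl
    rw [h3] at h2
    rw [h1, h2, h_hnu N I J a b β d]
    exact hP k (GenField k N a b) _ hG d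
  · -- splitting case
    intro N I J _ _ _ _ a b α hI hc hN hb hCD1 hCD2 hCD3 hP hP2 k K _ _ _ A hA d
    set G := genMatrix k (N + 1) (oext a α) b with hGdef
    have hG : Gen k (oext a α) b G := h_gm k I (Option J) (N + 1) (oext a α) b
    have hC : Gen k a b (G.submatrix id some) :=
      (h_gs k (GenField k (N + 1) (oext a α) b) I (Option J) (oext a α) b).1 (N + 1) G hG I J id
        some Function.injective_id (Option.some_injective J)
    have hCr : Gen k a b ((G.submatrix id some).map red :
        Matrix I J (MvPolynomial (Fin N) (GenField k (N + 1) (oext a α) b))) :=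
      (h_gs k (GenField k (N + 1) (oext a α) b) I J a b).2 N _ hC
    have hadd : addCol (G.submatrix id some) (fun i => G i none) = G := by
      funext i j
      cases j <;> rfl
    have hEr : Ex1 ((G.submatrix id some).map red :
        Matrix I J (MvPolynomial (Fin N) (GenField k (N + 1) (oext a α) b))) :=
      h_e1a N I J a b hc (by omega) hCD1 k (GenField k (N + 1) (oext a α) b) _ hCr
    have hEG : Ex1 (addCol (G.submatrix id some) (fun i => G i none)) := by
      rw [hadd]
      exact h_e1a (N + 1) I (Option J) (oext a α) b (by rw [Fintype.card_option]; omega)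
        (by rw [Fintype.card_option]; omega) hCD2 k (GenField k (N + 1) (oext a α) b) _ hG
    have hA₀ : HomM (oext a (α + 1)) b (addCol (G.submatrix id some)
        ((X 0 : MvPolynomial (Fin (N + 1)) (GenField k (N + 1) (oext a α) b)) •
          fun i => G i none)) := by
      intro i j
      cases j with
      | none =>
        have h1 := hfa_homD_X_mul (0 : Fin (N + 1)) _ _ (hG.1 i none)
        have h2 : oext a α none - b i + 1 = oext a (α + 1) none - b i := by
          simp only [oext, Option.elim]
          ring
        rw [h2] at h1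
        exact h1
      | some j => exact hC.1 i j
    have h1 := h_hfp k (GenField k (N + 1) (oext a α) b) K I (Option J) (N + 1) (oext a (α + 1)) b
      (addCol (G.submatrix id some)
        ((X 0 : MvPolynomial (Fin (N + 1)) (GenField k (N + 1) (oext a α) b)) •
          fun i => G i none)) A hA₀ (h_e1s _ N I J _ _ hEG hEr) hA d
    have h2 := h_hfs (GenField k (N + 1) (oext a α) b) N I J a b α (G.submatrix id some)
      (fun i => G i none) hC.1 (fun i => hG.1 i none) hEr d
    rw [hadd] at h2
    rw [h1, h2, h_hns N I J a b α d]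
    push_cast
    rw [hP2 k (GenField k (N + 1) (oext a α) b) G hG (d - 1),
      hP k (GenField k (N + 1) (oext a α) b) _ hCr d]

end Pool.Agent.Lib.MP_09338f_ag
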