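import Mathlib
import Pool.Agent.Lib.MP_09338f_ag.KM.Stm4

/-!
# Project KM, piece [hfp]: the kernel dimensions of the generic and of a special matrix
-/

set_option autoImplicit false

open MvPolynomial Matrix

universe u

namespace Pool.Agent.Lib.MP_09338f_ag

/-- The linear map taking a tuple of polynomials to the family of all its coefficients. -/
private noncomputable def hfp_co (N : ℕ) (K : Type u) [Field K] (Q : Type) :
    (Q → MvPolynomial (Fin N) K) →ₗ[K] (Q × (Fin N →₀ ℕ) → K) where
  toFun x := fun p => (x p.1).coeff p.2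
  map_add' x y := by
    funext p
    simp only [Pi.add_apply, coeff_add]
  map_smul' c x := by
    funext p
    simp only [Pi.smul_apply, coeff_smul, RingHom.id_apply]

private theorem hfp_co_inj (N : ℕ) (K : Type u) [Field K] (Q : Type) :
    Function.Injective (hfp_co N K Q) := by
  intro x y h
  funext q
  ext m
  exact congrFun h (q, m)

private theorem hfp_rank {N : ℕ} {K : Type u} [Field K] {Q ι : Type}
    (w : ι → Q → MvPolynomial (Fin N) K) :
    Module.finrank K (Submodule.span K (Set.range w)) =
      Module.finrank K (Submodule.span K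
        (Set.range fun (i : ι) (p : Q × (Fin N →₀ ℕ)) => (w i p.1).coeff p.2)) := by
  have h1 : (Set.range fun (i : ι) (p : Q × (Fin N →₀ ℕ)) => (w i p.1).coeff p.2) =
      (hfp_co N K Q) '' (Set.range w) := by
    rw [← Set.range_comp]
    rfl
  rw [h1, ← Submodule.map_span]
  exact (Submodule.equivMapOfInjective (hfp_co N K Q) (hfp_co_inj N K Q) _).finrank_eq

private theorem hfp_tup {N : ℕ} {K : Type u} [Field K] {Q : Type} [Fintype Q] [DecidableEq Q]
    (D : Q → ℤ) (d : ℤ) :
    tupS N K D d = Submodule.span K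
      (Set.range fun p : Coef N (fun q => d - D q) (fun _ : Unit => (0 : ℤ)) =>
        (Pi.single p.1.2.1 (monomial p.1.2.2 (1 : K)) : Q → MvPolynomial (Fin N) K)) := by
  apply le_antisymm
  · intro x hx
    have hx' : ∀ q, HomD (d - D q) (x q) := fun q => hx q (Set.mem_univ q)
    have e1 : x = ∑ q, (Pi.single q (x q) : Q → MvPolynomial (Fin N) K) := by
      rw [Finset.univ_sum_single]
    rw [e1]
    refine Submodule.sum_mem _ fun q _ => ?_
    have e2 : (Pi.single q (x q) : Q → MvPolynomial (Fin N) K) =
        ∑ m ∈ (x q).support, (x q).coeff m •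
          (Pi.single q (monomial m (1 : K)) : Q → MvPolynomial (Fin N) K) := by
      funext r
      rw [Finset.sum_apply]
      by_cases hr : r = q
      · subst hr
        simp only [Pi.smul_apply, Pi.single_eq_same]
        rw [(x r).as_sum]
        refine Finset.sum_congr ?_ ?_
        · rw [← (x r).as_sum]
        · intro m _
          rw [← (x r).as_sum, smul_monomial, smul_eq_mul, mul_one]
      · rw [Pi.single_eq_of_ne hr]
        symm
        refine Finset.sum_eq_zero fun m _ => ?_
        rw [Pi.smul_apply, Pi.single_eq_of_ne hr, smul_zero]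
    rw [e2]
    refine Submodule.sum_mem _ fun m hm => Submodule.smul_mem _ _ (Submodule.subset_span ?_)
    refine ⟨⟨((), q, m), ?_⟩, rfl⟩
    have := hx' q m hm
    change ((m.degree : ℕ) : ℤ) = (d - D q) - 0
    rw [sub_zero]
    exact this
  · rw [Submodule.span_le]
    rintro _ ⟨p, rfl⟩
    intro q _
    change HomD (d - D q)
      ((Pi.single p.1.2.1 (monomial p.1.2.2 (1 : K)) : Q → MvPolynomial (Fin N) K) q)
    by_cases hq : q = p.1.2.1
    · rw [hq, Pi.single_eq_same]
      intro m hm
      have h1 : m = p.1.2.2 := by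
        have := support_monomial_subset hm
        exact Finset.mem_singleton.mp this
      rw [h1]
      have h2 := p.2
      rw [h2, sub_zero]
    · rw [Pi.single_eq_of_ne hq]
      intro m hm
      simp at hm

private theorem hfp_img {N : ℕ} {K : Type u} [Field K] {I J : Type} [Fintype I] [DecidableEq I]
    [Fintype J] [DecidableEq J] (a : J → ℤ) (A : Matrix I J (MvPolynomial (Fin N) K)) (d : ℤ) :
    imgD a A d = Submodule.span K
      (Set.range fun (p : Coef N (fun q => d - a q) (fun _ : Unit => (0 : ℤ))) (i : I) =>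
        A i p.1.2.1 * monomial p.1.2.2 (1 : K)) := by
  have h1 : (Set.range fun (p : Coef N (fun q => d - a q) (fun _ : Unit => (0 : ℤ))) (i : I) =>
        A i p.1.2.1 * monomial p.1.2.2 (1 : K)) =
      (A.mulVecLin.restrictScalars K) ''
      (Set.range fun p : Coef N (fun q => d - a q) (fun _ : Unit => (0 : ℤ)) =>
        (Pi.single p.1.2.1 (monomial p.1.2.2 (1 : K)) : J → MvPolynomial (Fin N) K)) := by
    rw [← Set.range_comp]
    congr 1
    funext p
    funext i
    simp only [Function.comp, LinearMap.restrictScalars_apply, mulVecLin_apply]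
    rw [mulVec_single]
    simp [Matrix.col]
  rw [h1, ← Submodule.map_span, ← hfp_tup]
  rfl

private theorem hfp_semi (h_sc : S_sc.{u}) (h_mon : S_mon.{u}) {O K₀ K : Type u} [CommRing O]
    [IsDomain O] [Field K₀] [Field K] (f : O →+* K₀) (g : O →+* K) (hg : Function.Injective g)
    {N : ℕ} {I J : Type} [Fintype I] [DecidableEq I] [Fintype J] [DecidableEq J] (a : J → ℤ)
    (U : Matrix I J (MvPolynomial (Fin N) O)) (d : ℤ) :
    Module.finrank K₀ (imgD a (U.map (MvPolynomial.map f)) d) ≤
      Module.finrank K (imgD a (U.map (MvPolynomial.map g)) d) := by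
  rw [hfp_img, hfp_img, hfp_rank, hfp_rank]
  have hfin : Finite (Coef N (fun q => d - a q) (fun _ : Unit => (0 : ℤ))) :=
    (h_mon.2.2.2.1 N Unit J (fun q => d - a q) (fun _ : Unit => (0 : ℤ))).1
  have h := h_sc O K₀ K f g hg (Coef N (fun q => d - a q) (fun _ : Unit => (0 : ℤ)))
    (I × (Fin N →₀ ℕ)) (fun p x => (U x.1 p.1.2.1 * monomial p.1.2.2 (1 : O)).coeff x.2)
  have key : ∀ (L : Type u) [Field L] (φ : O →+* L),
      (fun (p : Coef N (fun q => d - a q) (fun _ : Unit => (0 : ℤ)))
        (x : I × (Fin N →₀ ℕ)) =>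
          φ ((U x.1 p.1.2.1 * monomial p.1.2.2 (1 : O)).coeff x.2)) =
      fun (p : Coef N (fun q => d - a q) (fun _ : Unit => (0 : ℤ)))
        (x : I × (Fin N →₀ ℕ)) =>
          ((U.map (MvPolynomial.map φ)) x.1 p.1.2.1 * monomial p.1.2.2 (1 : L)).coeff x.2 := by
    intro L _ φ
    funext p x
    rw [← coeff_map, map_mul, map_monomial, map_one]
    rfl
  rw [key K₀ f, key K g] at h
  exact h

/-- The matrix of the Cramer relations. -/
private noncomputable def hfp_R {R : Type u} [CommRing R] {I J : Type} [Fintype I] [DecidableEq I]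
    [Fintype J] [DecidableEq J] (A : Matrix I J R) : Matrix J (Option I → J) R :=
  Matrix.of fun j y => rel A y j

private theorem hfp_R_map {R S : Type u} [CommRing R] [CommRing S] (φ : R →+* S) {I J : Type}
    [Fintype I] [DecidableEq I] [Fintype J] [DecidableEq J] (A : Matrix I J R) :
    (hfp_R A).map φ = hfp_R (A.map φ) := by
  ext j y
  simp only [hfp_R, Matrix.map_apply, Matrix.of_apply]
  unfold rel
  rw [RingHom.map_det]
  congr 1
  ext r s
  rcases r with _ | i
  · simp only [RingHom.mapMatrix_apply, Matrix.map_apply, Matrix.of_apply, Option.elim_none]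
    split_ifs <;> simp
  · simp only [RingHom.mapMatrix_apply, Matrix.map_apply, Matrix.of_apply, Option.elim_some]

theorem p_hfp (h_sc : S_sc.{u}) (h_unv : S_unv.{u}) (h_rel : S_rel.{u}) (h_reld : S_reld.{u})
    (h_hc : S_hc.{u}) (h_rkn : S_rkn.{u}) (h_mon : S_mon.{u}) : S_hfp.{u} := by
  intro k K₀ K _ _ _ _ _ I J _ _ _ _ N a b A₀ A hA₀ hE hG d
  obtain ⟨U, hU, hU2⟩ := h_unv k I J N a b
  obtain ⟨f, hf, -⟩ := hU2 K₀ A₀ hA₀
  obtain ⟨g, hgA, hg⟩ := hU2 K A hG.1
  have hginj : Function.Injective (g : MvPolynomial (Coef N a b) k →+* K) := hg hG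
  apply le_antisymm
  · have h1 := hfp_semi h_sc h_mon (f : MvPolynomial (Coef N a b) k →+* K₀)
      (g : MvPolynomial (Coef N a b) k →+* K) hginj a U d
    rw [hf, hgA] at h1
    have h2 := (h_rkn N K I J a b A).1 d
    have h3 := (h_rkn N K₀ I J a b A₀).1 d
    omega
  · set D : (Option I → J) → ℤ := fun y => ∑ s, a (y s) - ∑ i, b i with hD
    have h1 := hfp_semi h_sc h_mon (f : MvPolynomial (Coef N a b) k →+* K₀)
      (g : MvPolynomial (Coef N a b) k →+* K) hginj D (hfp_R U) d
    rw [hfp_R_map, hfp_R_map, hf, hgA] at h1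
    have hfin1 : Module.Finite K₀ (imgD D (hfp_R A₀) d) := by
      have := (h_mon.2.1 N K₀ (Option I → J) D d).1
      unfold imgD
      infer_instance
    have hfin2 : Module.Finite K (kerD a A d) := by
      have := (h_mon.2.1 N K J a d).1
      exact Submodule.finiteDimensional_of_le (S₂ := tupS N K a d) inf_le_left
    have h2 : kerD a A₀ d ≤ imgD D (hfp_R A₀) d := by
      intro x hx
      have hx1 : ∀ j, HomD (d - a j) (x j) := fun j => hx.1 j (Set.mem_univ j)
      have hx2 : A₀.mulVec x = 0 := hx.2
      have hx3 := hE x hx2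
      rw [Submodule.mem_span_range_iff_exists_fun] at hx3
      obtain ⟨c, hc⟩ := hx3
      have hR : HomM D a (hfp_R A₀) := fun j y => (h_reld K₀ N I J a b A₀ hA₀).1 y j
      have hc2 : (hfp_R A₀).mulVec c = x := by
        rw [← hc]
        funext j
        rw [Finset.sum_apply]
        simp only [mulVec, dotProduct, hfp_R, Matrix.of_apply, Pi.smul_apply, smul_eq_mul]
        exact Finset.sum_congr rfl fun y _ => mul_comm _ _
      obtain ⟨u', hu', hu2⟩ := (h_hc K₀ N J (Option I → J) D a (hfp_R A₀) hR).1 d x c hx1 hc2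
      exact ⟨u', fun y _ => hu' y, hu2⟩
    have h3 : imgD D (hfp_R A) d ≤ kerD a A d := by
      rw [hfp_img, Submodule.span_le]
      rintro _ ⟨p, rfl⟩
      have hrel : HomM D a (hfp_R A) := fun j y => (h_reld K N I J a b A hG.1).1 y j
      refine ⟨?_, ?_⟩
      · intro j _
        change HomD (d - a j) (hfp_R A j p.1.2.1 * monomial p.1.2.2 (1 : K))
        intro m hm
        have hm1 := support_mul _ _ hm
        rw [Finset.mem_add] at hm1
        obtain ⟨m1, hm1, m2, hm2, rfl⟩ := hm1
        have e2 : m2 = p.1.2.2 := Finset.mem_singleton.mp (support_monomial_subset hm2)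
        have e3 := hrel j p.1.2.1 m1 hm1
        have e4 := p.2
        rw [map_add, e2]
        push_cast
        rw [e3, e4]
        ring
      · change A.mulVec (fun j => hfp_R A j p.1.2.1 * monomial p.1.2.2 (1 : K)) = 0
        have e5 := (h_rel (MvPolynomial (Fin N) K) I J).1 A p.1.2.1
        have e6 : (fun j => hfp_R A j p.1.2.1 * monomial p.1.2.2 (1 : K)) =
            (monomial p.1.2.2 (1 : K)) • rel A p.1.2.1 := by
          funext j
          simp only [hfp_R, Matrix.of_apply, Pi.smul_apply, smul_eq_mul]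
          exact mul_comm _ _
        rw [e6, mulVec_smul, e5, smul_zero]
    calc Module.finrank K₀ (kerD a A₀ d) ≤ Module.finrank K₀ (imgD D (hfp_R A₀) d) :=
          Submodule.finrank_mono h2
      _ ≤ Module.finrank K (imgD D (hfp_R A) d) := h1
      _ ≤ Module.finrank K (kerD a A d) := Submodule.finrank_mono h3

end Pool.Agent.Lib.MP_09338f_ag
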