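import Pool.Agent.Lib.MP_09338f_ag.KM.Stm4

/-!
# MP_09338f_ag, project KM, piece hfs: splitting step for the kernel dimensions (helper71)
-/

set_option autoImplicit false

open MvPolynomial Matrix

universe u

namespace Pool.Agent.Lib.MP_09338f_ag

private theorem hfs_mul {N : ℕ} {K : Type u} [Field K] {d e : ℤ} {p q : MvPolynomial (Fin N) K}
    (hp : HomD d p) (hq : HomD e q) : HomD (d + e) (p * q) := by
  classical
  intro m hm
  obtain ⟨m1, h1, m2, h2, rfl⟩ := Finset.mem_add.1 (MvPolynomial.support_mul p q hm)
  have e1 := hp m1 h1
  have e2 := hq m2 h2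
  rw [map_add]
  push_cast
  rw [e1, e2]

private theorem hfs_sum {N : ℕ} {K : Type u} [Field K] {ι : Type} (s : Finset ι) {d : ℤ}
    {p : ι → MvPolynomial (Fin N) K} (hp : ∀ i ∈ s, HomD d (p i)) : HomD d (∑ i ∈ s, p i) :=
  Submodule.sum_mem (homS N K d) hp

private theorem hfs_X {N : ℕ} {K : Type u} [Field K] (i : Fin N) :
    HomD 1 (X i : MvPolynomial (Fin N) K) := by
  classical
  intro m hm
  rw [MvPolynomial.support_X, Finset.mem_singleton] at hm
  rw [hm, Finsupp.degree_single]
  rfl

private theorem hfs_rn {K : Type u} [Field K] {V W : Type u} [AddCommGroup V] [Module K V]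
    [AddCommGroup W] [Module K W] (F : V →ₗ[K] W) (p : Submodule K V) [Module.Finite K p] :
    Module.finrank K (p.map F) + Module.finrank K (p ⊓ LinearMap.ker F : Submodule K V) =
      Module.finrank K p := by
  have h1 := LinearMap.finrank_range_add_finrank_ker (F.domRestrict p)
  rw [LinearMap.range_domRestrict] at h1
  have h2 : LinearMap.ker (F.domRestrict p) = (LinearMap.ker F).comap p.subtype := by
    ext x
    rfl
  have h3 : Module.finrank K ((LinearMap.ker F).comap p.subtype) =
      Module.finrank K (p ⊓ LinearMap.ker F : Submodule K V) := by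
    have e := (Submodule.equivMapOfInjective p.subtype p.subtype_injective
      ((LinearMap.ker F).comap p.subtype)).finrank_eq
    rw [Submodule.map_comap_subtype] at e
    exact e
  rw [h2, h3] at h1
  exact h1

private theorem hfs_rel {N : ℕ} {K : Type u} [Field K] {I J : Type} [Fintype I] [DecidableEq I]
    [Fintype J] [DecidableEq J] (C : Matrix I J (MvPolynomial (Fin (N + 1)) K))
    (y : Option I → J) (j : J) :
    rel (C.map red : Matrix I J (MvPolynomial (Fin N) K)) y j = red (rel C y j) := by
  unfold rel
  have h := RingHom.map_det (red : MvPolynomial (Fin (N + 1)) K →ₐ[K] MvPolynomial (Fin N) K).toRingHom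
    (Matrix.of fun (r s : Option I) =>
      r.elim (if y s = j then (1 : MvPolynomial (Fin (N + 1)) K) else 0) fun i => C i (y s))
  have h' : (red : MvPolynomial (Fin (N + 1)) K →ₐ[K] MvPolynomial (Fin N) K)
      (Matrix.of fun (r s : Option I) =>
      r.elim (if y s = j then (1 : MvPolynomial (Fin (N + 1)) K) else 0) fun i => C i (y s)).det = _ := h
  rw [h']
  refine congrArg Matrix.det (Matrix.ext fun r s => ?_)
  cases r with
  | none =>
    show (if y s = j then (1 : MvPolynomial (Fin N) K) else 0) =
      red (if y s = j then (1 : MvPolynomial (Fin (N + 1)) K) else 0)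
    split_ifs
    · rw [map_one]
    · rw [map_zero]
  | some i => rfl

/-- reduction of all but the last component -/
private noncomputable def hfs_F (K : Type u) [Field K] (N : ℕ) (J : Type) :
    (Option J → MvPolynomial (Fin (N + 1)) K) →ₗ[K] (J → MvPolynomial (Fin N) K) where
  toFun x j := red (x (some j))
  map_add' x y := by
    funext j
    exact map_add red (x (some j)) (y (some j))
  map_smul' c x := by
    funext j
    exact map_smul (red : MvPolynomial (Fin (N + 1)) K →ₐ[K] MvPolynomial (Fin N) K) c (x (some j))

private theorem hfs_F_apply (K : Type u) [Field K] (N : ℕ) (J : Type)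
    (x : Option J → MvPolynomial (Fin (N + 1)) K) (j : J) :
    hfs_F K N J x j = red (x (some j)) := rfl

/-- multiplication of all but the last component -/
private noncomputable def hfs_G (K : Type u) [Field K] (N : ℕ) (J : Type) :
    (Option J → MvPolynomial (Fin (N + 1)) K) →ₗ[K]
      (Option J → MvPolynomial (Fin (N + 1)) K) where
  toFun x q := q.elim (x none) fun j => X 0 * x (some j)
  map_add' x y := by
    funext q
    cases q with
    | none => rfl
    | some j => exact mul_add _ _ _
  map_smul' c x := by
    funext q
    cases q with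
    | none => rfl
    | some j => exact mul_smul_comm c (X 0 : MvPolynomial (Fin (N + 1)) K) (x (some j))

private theorem hfs_G_none (K : Type u) [Field K] (N : ℕ) (J : Type)
    (x : Option J → MvPolynomial (Fin (N + 1)) K) : hfs_G K N J x none = x none := rfl

private theorem hfs_G_some (K : Type u) [Field K] (N : ℕ) (J : Type)
    (x : Option J → MvPolynomial (Fin (N + 1)) K) (j : J) :
    hfs_G K N J x (some j) = X 0 * x (some j) := rfl

theorem p_hfs (h_rel : S_rel.{u}) (h_reld : S_reld.{u}) (h_redk : S_redk.{u}) (h_hc : S_hc.{u})
    (h_mon : S_mon.{u}) : S_hfs.{u} := by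
  classical
  intro K _ N I J _ _ _ _ a b α C w hC hw hE d
  obtain ⟨k1, k2, k3, k4, k5, k6⟩ := h_redk K N
  set A : Matrix I (Option J) (MvPolynomial (Fin (N + 1)) K) :=
    addCol C ((X 0 : MvPolynomial (Fin (N + 1)) K) • w) with hA
  set A2 : Matrix I (Option J) (MvPolynomial (Fin (N + 1)) K) := addCol C w with hA2
  set p : Submodule K (Option J → MvPolynomial (Fin (N + 1)) K) :=
    kerD (oext a (α + 1)) A d with hp
  have hHomA : HomM (oext a (α + 1)) b A := by
    intro i j
    cases j with
    | none =>
      show HomD (α + 1 - b i) (X 0 * w i)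
      have h := hfs_mul (hfs_X (K := K) (0 : Fin (N + 1))) (hw i)
      have e : 1 + (α - b i) = α + 1 - b i := by ring
      rw [e] at h
      exact h
    | some j => exact hC i j
  -- membership
  have memA : ∀ x : Option J → MvPolynomial (Fin (N + 1)) K, x ∈ p ↔
      (HomD (d - (α + 1)) (x none) ∧ ∀ j, HomD (d - a j) (x (some j))) ∧
      ∀ i, ∑ j, C i j * x (some j) + X 0 * w i * x none = 0 := by
    intro x
    have h1 : x ∈ p ↔ (∀ q ∈ Set.univ, x q ∈ homS (N + 1) K (d - oext a (α + 1) q)) ∧
        A.mulVec x = 0 := Iff.rfl
    rw [h1]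
    refine and_congr ?_ ?_
    · constructor
      · intro h
        exact ⟨h none (Set.mem_univ _), fun j => h (some j) (Set.mem_univ _)⟩
      · rintro ⟨h2, h3⟩ q -
        cases q with
        | none => exact h2
        | some j => exact h3 j
    · rw [_root_.funext_iff]
      refine forall_congr' fun i => ?_
      have h4 : A.mulVec x i = ∑ j, C i j * x (some j) + X 0 * w i * x none := by
        show ∑ q, A i q * x q = _
        rw [Fintype.sum_option]
        exact add_comm _ _
      rw [h4]
      rfl
  have memA2 : ∀ x : Option J → MvPolynomial (Fin (N + 1)) K, x ∈ kerD (oext a α) A2 (d - 1) ↔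
      (HomD (d - 1 - α) (x none) ∧ ∀ j, HomD (d - 1 - a j) (x (some j))) ∧
      ∀ i, ∑ j, C i j * x (some j) + w i * x none = 0 := by
    intro x
    have h1 : x ∈ kerD (oext a α) A2 (d - 1) ↔
        (∀ q ∈ Set.univ, x q ∈ homS (N + 1) K (d - 1 - oext a α q)) ∧
        A2.mulVec x = 0 := Iff.rfl
    rw [h1]
    refine and_congr ?_ ?_
    · constructor
      · intro h
        exact ⟨h none (Set.mem_univ _), fun j => h (some j) (Set.mem_univ _)⟩
      · rintro ⟨h2, h3⟩ q -
        cases q with
        | none => exact h2
        | some j => exact h3 j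
    · rw [_root_.funext_iff]
      refine forall_congr' fun i => ?_
      have h4 : A2.mulVec x i = ∑ j, C i j * x (some j) + w i * x none := by
        show ∑ q, A2 i q * x q = _
        rw [Fintype.sum_option]
        exact add_comm _ _
      rw [h4]
      rfl
  have memC : ∀ x : J → MvPolynomial (Fin N) K,
      x ∈ kerD a (C.map red : Matrix I J (MvPolynomial (Fin N) K)) d ↔
      (∀ j, HomD (d - a j) (x j)) ∧ ∀ i, ∑ j, red (C i j) * x j = 0 := by
    intro x
    have h1 : x ∈ kerD a (C.map red : Matrix I J (MvPolynomial (Fin N) K)) d ↔
        (∀ q ∈ Set.univ, x q ∈ homS N K (d - a q)) ∧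
        (C.map red : Matrix I J (MvPolynomial (Fin N) K)).mulVec x = 0 := Iff.rfl
    rw [h1]
    refine and_congr ?_ ?_
    · constructor
      · intro h j
        exact h j (Set.mem_univ _)
      · intro h q _
        exact h q
    · rw [_root_.funext_iff]
      exact Iff.rfl
  -- the two maps
  obtain ⟨F, hF⟩ : ∃ F : (Option J → MvPolynomial (Fin (N + 1)) K) →ₗ[K]
      (J → MvPolynomial (Fin N) K), ∀ x j, F x j = red (x (some j)) :=
    ⟨hfs_F K N J, hfs_F_apply K N J⟩
  obtain ⟨G, hG0, hG1⟩ : ∃ G : (Option J → MvPolynomial (Fin (N + 1)) K) →ₗ[K]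
      (Option J → MvPolynomial (Fin (N + 1)) K), (∀ x, G x none = x none) ∧
      ∀ x j, G x (some j) = X 0 * x (some j) :=
    ⟨hfs_G K N J, hfs_G_none K N J, hfs_G_some K N J⟩
  have hX : (X 0 : MvPolynomial (Fin (N + 1)) K) ≠ 0 := MvPolynomial.X_ne_zero 0
  have hGinj : Function.Injective G := by
    intro x y h
    funext q
    cases q with
    | none =>
      have := congrFun h none
      rw [hG0, hG0] at this
      exact this
    | some j =>
      have := congrFun h (some j)
      rw [hG1, hG1] at this
      exact mul_left_cancel₀ hX this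
  -- the kernel
  have hker : p ⊓ LinearMap.ker F = (kerD (oext a α) A2 (d - 1)).map G := by
    ext y
    rw [Submodule.mem_inf, Submodule.mem_map]
    constructor
    · rintro ⟨hy, hy2⟩
      rw [memA] at hy
      obtain ⟨⟨hy3, hy4⟩, hy5⟩ := hy
      have hy6 : ∀ j, ∃ q, y (some j) = X 0 * q := by
        intro j
        apply k2
        have := congrFun (LinearMap.mem_ker.1 hy2) j
        rw [hF] at this
        exact this
      choose q hq using hy6
      refine ⟨fun s => s.elim (y none) q, ?_, ?_⟩
      · rw [memA2]
        refine ⟨⟨?_, ?_⟩, ?_⟩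
        · have e : d - 1 - α = d - (α + 1) := by ring
          rw [e]
          exact hy3
        · intro j
          apply k6
          have e : d - 1 - a j + 1 = d - a j := by ring
          rw [e]
          have := hy4 j
          rw [hq j] at this
          exact this
        · intro i
          apply mul_left_cancel₀ hX
          rw [mul_zero, ← hy5 i, mul_add, Finset.mul_sum]
          congr 1
          · refine Finset.sum_congr rfl fun j _ => ?_
            rw [hq j]
            show X 0 * (C i j * q j) = C i j * (X 0 * q j)
            ring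
          · show X 0 * (w i * y none) = X 0 * w i * y none
            ring
      · funext s
        cases s with
        | none => exact hG0 _
        | some j =>
          rw [hG1, hq j]
          rfl
    · rintro ⟨x, hx, rfl⟩
      rw [memA2] at hx
      obtain ⟨⟨hx3, hx4⟩, hx5⟩ := hx
      refine ⟨?_, ?_⟩
      · rw [memA]
        refine ⟨⟨?_, ?_⟩, ?_⟩
        · have e : d - (α + 1) = d - 1 - α := by ring
          rw [hG0, e]
          exact hx3
        · intro j
          rw [hG1]
          have h := hfs_mul (hfs_X (K := K) (0 : Fin (N + 1))) (hx4 j)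
          have e : 1 + (d - 1 - a j) = d - a j := by ring
          rw [e] at h
          exact h
        · intro i
          have h := congrArg (fun t => (X 0 : MvPolynomial (Fin (N + 1)) K) * t) (hx5 i)
          simp only [mul_zero] at h
          rw [← h, mul_add, Finset.mul_sum]
          congr 1
          · refine Finset.sum_congr rfl fun j _ => ?_
            rw [hG1]
            ring
          · rw [hG0]
            ring
      · rw [LinearMap.mem_ker]
        funext j
        rw [hF, hG1, map_mul, k3, zero_mul]
        rfl
  -- the image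
  have himg : p.map F = kerD a (C.map red : Matrix I J (MvPolynomial (Fin N) K)) d := by
    ext x
    rw [Submodule.mem_map, memC]
    constructor
    · rintro ⟨y, hy, rfl⟩
      rw [memA] at hy
      obtain ⟨⟨hy3, hy4⟩, hy5⟩ := hy
      refine ⟨fun j => by rw [hF]; exact k4 _ _ (hy4 j), fun i => ?_⟩
      have h := congrArg (red : MvPolynomial (Fin (N + 1)) K →ₐ[K] MvPolynomial (Fin N) K) (hy5 i)
      rw [map_add, map_sum, map_mul, map_mul, k3, zero_mul, zero_mul, add_zero, map_zero] at h
      rw [← h]
      refine Finset.sum_congr rfl fun j _ => ?_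
      rw [hF, map_mul]
    · rintro ⟨hx1, hx2⟩
      have hx3 : (C.map red : Matrix I J (MvPolynomial (Fin N) K)).mulVec x = 0 := by
        funext i
        exact hx2 i
      have hx4 := hE x hx3
      rw [Submodule.mem_span_range_iff_exists_fun] at hx4
      obtain ⟨c, hc⟩ := hx4
      -- the matrix of the relations
      set Mr : Matrix J (Option I → J) (MvPolynomial (Fin N) K) :=
        Matrix.of fun j z => rel (C.map red : Matrix I J (MvPolynomial (Fin N) K)) z j with hMr
      have hCr : HomM a b (C.map red : Matrix I J (MvPolynomial (Fin N) K)) := fun i j =>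
        k4 _ _ (hC i j)
      have hHomM : HomM (fun z : Option I → J => ∑ s, a (z s) - ∑ i, b i) a Mr := by
        intro j z
        exact (h_reld K N I J a b _ hCr).1 z j
      have hMc : Mr.mulVec c = x := by
        rw [← hc]
        funext j
        show ∑ z, Mr j z * c z = (∑ z, c z • rel _ z) j
        rw [Finset.sum_apply]
        refine Finset.sum_congr rfl fun z _ => ?_
        rw [mul_comm]
        rfl
      obtain ⟨c', hc1, hc2⟩ := (h_hc K N J (Option I → J) _ a Mr hHomM).1 d x c hx1 hMc
      -- the lift
      refine ⟨∑ z : Option I → J, (rename Fin.succ (c' z) : MvPolynomial (Fin (N + 1)) K) •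
        rel A (fun s => some (z s)), ?_, ?_⟩
      · have hdeg : ∀ q : Option J, HomD (d - oext a (α + 1) q)
            ((∑ z : Option I → J, (rename Fin.succ (c' z) : MvPolynomial (Fin (N + 1)) K) •
              rel A (fun s => some (z s))) q) := by
          intro q
          rw [Finset.sum_apply]
          refine hfs_sum _ fun z _ => ?_
          have e1 := k5 _ _ (hc1 z)
          have e2 := (h_reld K (N + 1) I (Option J) (oext a (α + 1)) b A hHomA).1
            (fun s => some (z s)) q
          have e3 := hfs_mul e1 e2
          have e4 : d - (∑ s, a (z s) - ∑ i, b i) + (∑ s, oext a (α + 1) (some (z s)) -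
              ∑ i, b i - oext a (α + 1) q) = d - oext a (α + 1) q := by
            have e5 : ∑ s, oext a (α + 1) (some (z s)) = ∑ s, a (z s) := rfl
            rw [e5]
            ring
          rw [e4] at e3
          exact e3
        have hkr : A.mulVec (∑ z : Option I → J,
            (rename Fin.succ (c' z) : MvPolynomial (Fin (N + 1)) K) •
              rel A (fun s => some (z s))) = 0 := by
          rw [Matrix.mulVec_sum]
          refine Finset.sum_eq_zero fun z _ => ?_
          rw [Matrix.mulVec_smul, (h_rel _ I (Option J)).1, smul_zero]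
        have h1 : ∀ x : Option J → MvPolynomial (Fin (N + 1)) K, x ∈ p ↔
            (∀ q ∈ Set.univ, x q ∈ homS (N + 1) K (d - oext a (α + 1) q)) ∧
            A.mulVec x = 0 := fun _ => Iff.rfl
        rw [h1]
        exact ⟨fun q _ => hdeg q, hkr⟩
      · rw [← hc2]
        funext j
        rw [hF, Finset.sum_apply, map_sum]
        show _ = ∑ z, Mr j z * c' z
        refine Finset.sum_congr rfl fun z _ => ?_
        have e1 : (rel A (fun s => some (z s))) (some j) = rel C z j := by
          rw [hA, (h_rel _ I J).2.2]
          rfl
        show red (rename Fin.succ (c' z) * (rel A (fun s => some (z s))) (some j)) = _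
        rw [e1, map_mul, k1, mul_comm]
        congr 1
        exact (hfs_rel C z j).symm
  have hfin : Module.Finite K p := by
    have := (h_mon.2.1 (N + 1) K (Option J) (oext a (α + 1)) d).1
    exact Submodule.finiteDimensional_of_le (inf_le_left :
      p ≤ tupS (N + 1) K (oext a (α + 1)) d)
  have h1 := hfs_rn F p
  rw [himg, hker, ← (Submodule.equivMapOfInjective G hGinj _).finrank_eq] at h1
  rw [← h1, add_comm]

end Pool.Agent.Lib.MP_09338f_ag
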