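import Pool.Agent.Lib.MP_09338f_ag.KM.Stm4

set_option autoImplicit false

open MvPolynomial Matrix

universe u

namespace Pool.Agent.Lib.MP_09338f_ag

private theorem hfu_mul {K : Type u} [Field K] {N : ℕ} {p q : MvPolynomial (Fin N) K} {d e : ℤ}
    (hp : HomD d p) (hq : HomD e q) : HomD (d + e) (p * q) := by
  classical
  intro m hm
  have h1 := MvPolynomial.support_mul p q hm
  rw [Finset.mem_add] at h1
  obtain ⟨m1, hm1, m2, hm2, rfl⟩ := h1
  have e1 := hp m1 hm1
  have e2 := hq m2 hm2
  rw [map_add]
  push_cast
  rw [e1, e2]

private theorem hfu_mem {J : Type} {I : Type} [Fintype I] [DecidableEq I] [Fintype J]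
    [DecidableEq J] {N : ℕ} {K : Type u} [Field K] (a : J → ℤ)
    (A : Matrix I J (MvPolynomial (Fin N) K)) (d : ℤ) (x : J → MvPolynomial (Fin N) K) :
    x ∈ kerD a A d ↔ (∀ j, HomD (d - a j) (x j)) ∧ A.mulVec x = 0 := by
  constructor
  · rintro ⟨h1, h2⟩
    exact ⟨fun j => h1 j (Set.mem_univ j), h2⟩
  · rintro ⟨h1, h2⟩
    exact ⟨fun j _ => h1 j, h2⟩

private theorem hfu_some {K : Type u} [Field K] {N : ℕ} {I J : Type} [Fintype I] [DecidableEq I]
    [Fintype J] [DecidableEq J] (C : Matrix (Option I) J (MvPolynomial (Fin N) K))
    (x : Option J → MvPolynomial (Fin N) K) (i : I) :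
    (addCol C (Pi.single none 1)).mulVec x (some i) =
      (C.submatrix some id).mulVec (fun j => x (some j)) i := by
  have h0 : (addCol C (Pi.single none 1) : Matrix (Option I) (Option J) (MvPolynomial (Fin N) K))
      (some i) none = 0 := by
    show (Pi.single none 1 : Option I → MvPolynomial (Fin N) K) (some i) = 0
    simp
  simp only [Matrix.mulVec, dotProduct, Fintype.sum_option, h0, zero_mul, zero_add]
  rfl

private theorem hfu_none {K : Type u} [Field K] {N : ℕ} {I J : Type} [Fintype I] [DecidableEq I]
    [Fintype J] [DecidableEq J] (C : Matrix (Option I) J (MvPolynomial (Fin N) K))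
    (x : Option J → MvPolynomial (Fin N) K) :
    (addCol C (Pi.single none 1)).mulVec x none = x none + ∑ j, C none j * x (some j) := by
  have h0 : (addCol C (Pi.single none 1) : Matrix (Option I) (Option J) (MvPolynomial (Fin N) K))
      none none = 1 := by
    show (Pi.single none 1 : Option I → MvPolynomial (Fin N) K) none = 1
    simp
  simp only [Matrix.mulVec, dotProduct, Fintype.sum_option, h0, one_mul]
  rfl

theorem p_hfu : S_hfu.{u} := by
  intro K _ N I J _ _ _ _ a b β C hC d
  have hmap : ∀ x ∈ kerD (oext a β) (addCol C (Pi.single none 1)) d,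
      LinearMap.funLeft K (MvPolynomial (Fin N) K) (some : J → Option J) x ∈
        kerD a (C.submatrix some id) d := by
    intro x hx
    rw [hfu_mem] at hx ⊢
    refine ⟨fun j => hx.1 (some j), ?_⟩
    funext i
    have := congrFun hx.2 (some i)
    rw [hfu_some] at this
    exact this
  refine LinearEquiv.finrank_eq (LinearEquiv.ofBijective
    ((LinearMap.funLeft K (MvPolynomial (Fin N) K) (some : J → Option J)).restrict hmap) ⟨?_, ?_⟩)
  · rw [injective_iff_map_eq_zero]
    rintro ⟨x, hx⟩ h0
    have h1 : ∀ j, x (some j) = 0 := by
      intro j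
      exact congrFun (congrArg Subtype.val h0) j
    rw [hfu_mem] at hx
    have h2 := congrFun hx.2 none
    rw [hfu_none] at h2
    apply Subtype.ext
    funext j
    cases j with
    | none =>
      simp only [h1, mul_zero, Finset.sum_const_zero, add_zero] at h2
      exact h2
    | some j => exact h1 j
  · rintro ⟨u, hu⟩
    rw [hfu_mem] at hu
    refine ⟨⟨fun j => j.elim (-∑ j, C none j * u j) u, ?_⟩, ?_⟩
    · rw [hfu_mem]
      constructor
      · intro j
        cases j with
        | none =>
          have : (-∑ j, C none j * u j) ∈ homS N K (d - β) := by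
            apply Submodule.neg_mem
            apply Submodule.sum_mem
            intro j _
            have h1 := hfu_mul (hC none j) (hu.1 j)
            have e1 : a j - oext b β none + (d - a j) = d - β := by
              show a j - β + (d - a j) = d - β
              ring
            rw [e1] at h1
            exact h1
          exact this
        | some j => exact hu.1 j
      · funext i
        cases i with
        | none =>
          rw [hfu_none]
          show (-∑ j, C none j * u j) + ∑ j, C none j * u j = 0
          ring
        | some i =>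
          rw [hfu_some]
          exact congrFun hu.2 i
    · apply Subtype.ext
      funext j
      rfl

end Pool.Agent.Lib.MP_09338f_ag
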