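import Mathlib
import Pool.Agent.Lib.MP_09338f_ag.KM.Stm5

/-! # Project KM, piece hga: the generic homogeneous matrices are invertible -/

set_option autoImplicit false

open MvPolynomial Matrix

universe u

namespace Pool.Agent.Lib.MP_09338f_ag

section basics

variable {N : ℕ} {K : Type u} [CommRing K]

private theorem hga_zero (d : ℤ) : HomD d (0 : MvPolynomial (Fin N) K) := by
  intro m hm
  simp at hm

private theorem hga_add {d : ℤ} {p q : MvPolynomial (Fin N) K} (hp : HomD d p) (hq : HomD d q) :
    HomD d (p + q) := by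
  classical
  intro m hm
  rcases Finset.mem_union.1 (MvPolynomial.support_add hm) with h | h
  · exact hp m h
  · exact hq m h

private theorem hga_sum {X : Type} {d : ℤ} (s : Finset X) (f : X → MvPolynomial (Fin N) K)
    (h : ∀ x ∈ s, HomD d (f x)) : HomD d (∑ x ∈ s, f x) := by
  classical
  induction s using Finset.induction_on with
  | empty =>
    rw [Finset.sum_empty]
    exact hga_zero d
  | insert x s hx ih =>
    rw [Finset.sum_insert hx]
    exact hga_add (h x (Finset.mem_insert_self _ _))
      (ih fun y hy => h y (Finset.mem_insert_of_mem hy))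

private theorem hga_mono {d : ℤ} (m : Fin N →₀ ℕ) (c : K) (h : ((m.degree : ℕ) : ℤ) = d) :
    HomD d (monomial m c) := by
  classical
  intro m' hm'
  rw [mem_support_iff, coeff_monomial] at hm'
  by_cases h0 : m = m'
  · rw [← h0]
    exact h
  · rw [if_neg h0] at hm'
    exact absurd rfl hm'

private theorem hga_C {d : ℤ} {p : MvPolynomial (Fin N) K} (c : K) (hp : HomD d p) :
    HomD d (C c * p) := by
  intro m hm
  refine hp m ?_
  rw [mem_support_iff] at hm ⊢
  intro h
  exact hm (by rw [coeff_C_mul, h, mul_zero])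

private theorem hga_const {p : MvPolynomial (Fin N) K} (hp : HomD 0 p) : p = C (p.coeff 0) := by
  classical
  ext m
  rw [coeff_C]
  by_cases h : 0 = m
  · rw [if_pos h, h]
  · rw [if_neg h]
    by_contra hne
    have h1 := hp m (mem_support_iff.2 hne)
    have h2 : m.degree = 0 := by exact_mod_cast h1
    exact h ((Finsupp.degree_eq_zero_iff m).1 h2).symm

end basics

section gen

variable {P σ : Type} [Fintype P] [DecidableEq P] {N : ℕ} {K : Type u} [Field K] (δ : P → ℤ)
  (vr : Coef N δ δ → σ)

open Classical in
/-- the generic matrix with coefficients in a ring, given its coefficients -/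
private noncomputable def hga_M {R : Type u} [CommRing R] (N : ℕ) (δ : P → ℤ)
    (c : Coef N δ δ → R) : Matrix P P (MvPolynomial (Fin N) R) := fun i i' =>
  ∑ m ∈ Finset.univ.finsuppAntidiag (δ i' - δ i).toNat,
    if h : ((m.degree : ℕ) : ℤ) = δ i' - δ i then monomial m (c ⟨(i, i', m), h⟩) else 0

private theorem hga_hom {R : Type u} [CommRing R] (c : Coef N δ δ → R) :
    HomM δ δ (hga_M N δ c) := by
  intro i i'
  unfold hga_M
  refine hga_sum _ _ fun m _ => ?_
  split_ifs with h
  · exact hga_mono _ _ h
  · exact hga_zero _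

private theorem hga_map {R S : Type u} [CommRing R] [CommRing S] (f : R →+* S)
    (c : Coef N δ δ → R) :
    (hga_M N δ c).map (MvPolynomial.map f) = hga_M N δ (fun p => f (c p)) := by
  ext1 i i'
  rw [Matrix.map_apply]
  unfold hga_M
  rw [map_sum]
  refine Finset.sum_congr rfl fun m _ => ?_
  split_ifs with h
  · rw [map_monomial]
  · rw [map_zero]

private theorem hga_one {R : Type u} [CommRing R] (c : Coef N δ δ → R)
    (h1 : ∀ (i : P) (h : (((0 : Fin N →₀ ℕ).degree : ℕ) : ℤ) = δ i - δ i), c ⟨(i, i, 0), h⟩ = 1)
    (h0 : ∀ p : Coef N δ δ, p.1.1 ≠ p.1.2.1 → c p = 0) : hga_M N δ c = 1 := by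
  ext1 i i'
  by_cases hi : i = i'
  · subst hi
    rw [Matrix.one_apply_eq]
    unfold hga_M
    have e : (Finset.univ : Finset (Fin N)).finsuppAntidiag (δ i - δ i).toNat = {0} := by
      rw [sub_self, Int.toNat_zero]
      ext m
      rw [Finset.mem_finsuppAntidiag, Finset.mem_singleton]
      constructor
      · rintro ⟨h, -⟩
        ext x
        exact (Finset.sum_eq_zero_iff.1 h) x (Finset.mem_univ x)
      · rintro rfl
        simp
    rw [e, Finset.sum_singleton]
    have hd : (((0 : Fin N →₀ ℕ).degree : ℕ) : ℤ) = δ i - δ i := by simp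
    rw [dif_pos hd, h1 i hd]
    rfl
  · rw [Matrix.one_apply_ne hi]
    unfold hga_M
    refine Finset.sum_eq_zero fun m _ => ?_
    split_ifs with h
    · rw [h0 _ hi, monomial_zero]
    · rfl

private theorem hga_inv (h_reld : S_reld.{u}) (hvr : Function.Injective vr) :
    ∃ g : Matrix P P (MvPolynomial (Fin N) (FractionRing (MvPolynomial σ K))), HomM δ δ g ∧
      hga_M N δ (fun p => algebraMap (MvPolynomial σ K) (FractionRing (MvPolynomial σ K))
        (X (vr p))) * g = 1 ∧
      g * hga_M N δ (fun p => algebraMap (MvPolynomial σ K) (FractionRing (MvPolynomial σ K))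
        (X (vr p))) = 1 := by
  classical
  set A := hga_M N δ (fun p => algebraMap (MvPolynomial σ K) (FractionRing (MvPolynomial σ K))
        (X (vr p))) with hA
  have hAh : HomM δ δ A := hga_hom δ _
  obtain ⟨-, r2, -, r4⟩ := h_reld (FractionRing (MvPolynomial σ K)) N P P δ δ A hAh
  have hdet : HomD 0 A.det := by
    have := r2 id
    rw [Matrix.submatrix_id_id] at this
    simpa using this
  have hC := hga_const hdet
  set d := A.det.coeff 0 with hd
  have hd0 : d ≠ 0 := by
    intro h
    have e1 : A = (hga_M N δ (fun p => (X (vr p) : MvPolynomial σ K))).map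
        (MvPolynomial.map (algebraMap (MvPolynomial σ K) (FractionRing (MvPolynomial σ K)))) := by
      rw [hga_map]
    set B := hga_M N δ (fun p => (X (vr p) : MvPolynomial σ K)) with hB
    have e2 : A.det = MvPolynomial.map
        (algebraMap (MvPolynomial σ K) (FractionRing (MvPolynomial σ K))) B.det := by
      rw [e1, RingHom.map_det]
      rfl
    have e3 : B.det.coeff 0 = 0 := by
      rw [hd, e2, coeff_map] at h
      exact (map_eq_zero_iff _ (IsFractionRing.injective (MvPolynomial σ K)
        (FractionRing (MvPolynomial σ K)))).1 h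
    set ε : MvPolynomial σ K →+* K := (MvPolynomial.eval fun x =>
      if ∃ p : Coef N δ δ, vr p = x ∧ p.1.1 = p.1.2.1 ∧ p.1.2.2 = 0 then (1 : K) else 0) with hε
    have e4 : B.map (MvPolynomial.map ε) = 1 := by
      rw [hB, hga_map]
      refine hga_one δ _ ?_ ?_
      · intro i h
        rw [hε, eval_X, if_pos ⟨_, rfl, rfl, rfl⟩]
      · intro p hp
        rw [hε, eval_X, if_neg]
        rintro ⟨p', h1, h2, -⟩
        rw [hvr h1] at h2
        exact hp h2
    have e5 : MvPolynomial.map ε B.det = 1 := by
      rw [← Matrix.det_one (n := P), ← e4, RingHom.map_det]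
      rfl
    have e6 := congrArg (fun q => coeff 0 q) e5
    simp only [coeff_map, e3, map_zero, coeff_zero_one] at e6
    exact zero_ne_one e6
  refine ⟨(C d⁻¹ : MvPolynomial (Fin N) (FractionRing (MvPolynomial σ K))) • A.adjugate, ?_, ?_, ?_⟩
  · intro i j
    rw [Matrix.smul_apply, smul_eq_mul]
    refine hga_C _ ?_
    have hadj : A.adjugate i j = (A.updateCol i (Pi.single j 1)).det := by
      have h1 : A.adjugate i j = A.adjugateᵀ j i := rfl
      rw [h1, Matrix.adjugate_transpose, Matrix.adjugate_apply, Matrix.updateRow_transpose,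
        Matrix.det_transpose]
    rw [hadj]
    have h2 := r4 (Pi.single j 1) (δ j) (by
      intro i'
      by_cases h : i' = j
      · subst h
        rw [Pi.single_eq_same, sub_self]
        have : (1 : MvPolynomial (Fin N) (FractionRing (MvPolynomial σ K))) = monomial 0 1 := rfl
        rw [this]
        exact hga_mono _ _ (by simp)
      · rw [Pi.single_eq_of_ne h]
        exact hga_zero _) id i
    rw [Matrix.submatrix_id_id] at h2
    have e : ∑ i, δ (id i) - δ (id i) + δ j - ∑ i, δ i = δ j - δ i := by
      simp only [id]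
      ring
    rw [e] at h2
    exact h2
  · rw [Matrix.mul_smul, Matrix.mul_adjugate, hC, smul_smul, ← C_mul, inv_mul_cancel₀ hd0, C_1,
      one_smul]
  · rw [Matrix.smul_mul, Matrix.adjugate_mul, hC, smul_smul, ← C_mul, inv_mul_cancel₀ hd0, C_1,
      one_smul]

end gen

theorem p_hga (h_reld : S_reld.{u}) : S_hga.{u} := by
  intro K _ N I J _ _ _ _ a b
  have e1 : hM1 K N a b = hga_M N b (fun p => algebraMap (MvPolynomial (HIdx N a b) K)
      (HField K N a b) (X (Sum.inl p))) := rfl
  have e2 : hM2 K N a b = hga_M N a (fun p => algebraMap (MvPolynomial (HIdx N a b) K)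
      (HField K N a b) (X (Sum.inr p))) := rfl
  rw [e1, e2]
  exact ⟨hga_hom b _, hga_hom a _, hga_inv b Sum.inl h_reld Sum.inl_injective,
    hga_inv a Sum.inr h_reld Sum.inr_injective⟩

end Pool.Agent.Lib.MP_09338f_ag
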