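import Mathlib
import Pool.Agent.Lib.MP_09338f_ag.KM.Stm5

/-!
# Project KM, piece hgb: the conjugate of a generic matrix by the generic homogeneous matrices is generic.
-/

set_option autoImplicit false

open MvPolynomial Matrix

universe u

namespace Pool.Agent.Lib.MP_09338f_ag

open Classical in
private theorem hgb_coeff {N : ℕ} {R : Type u} [CommSemiring R] (d : ℤ)
    (f : ∀ m : Fin N →₀ ℕ, ((m.degree : ℕ) : ℤ) = d → R) (m : Fin N →₀ ℕ) :
    (∑ m' ∈ Finset.univ.finsuppAntidiag d.toNat,
      if h : ((m'.degree : ℕ) : ℤ) = d then monomial m' (f m' h) else 0).coeff m =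
      if h : ((m.degree : ℕ) : ℤ) = d then f m h else 0 := by
  rw [MvPolynomial.coeff_sum]
  by_cases h : ((m.degree : ℕ) : ℤ) = d
  · rw [dif_pos h, Finset.sum_eq_single m]
    · rw [dif_pos h, MvPolynomial.coeff_monomial, if_pos rfl]
    · intro m' _ hne
      by_cases h' : ((m'.degree : ℕ) : ℤ) = d
      · rw [dif_pos h', MvPolynomial.coeff_monomial, if_neg hne]
      · rw [dif_neg h', MvPolynomial.coeff_zero]
    · intro hm
      exfalso
      apply hm
      rw [Finset.mem_finsuppAntidiag]
      refine ⟨?_, Finset.subset_univ _⟩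
      rw [← h, Int.toNat_natCast, Finsupp.degree_eq_sum]
  · rw [dif_neg h]
    apply Finset.sum_eq_zero
    intro m' _
    by_cases h' : ((m'.degree : ℕ) : ℤ) = d
    · rw [dif_pos h', MvPolynomial.coeff_monomial, if_neg]
      rintro rfl
      exact h h'
    · rw [dif_neg h', MvPolynomial.coeff_zero]

open Classical in
/-- The generic homogeneous matrix with entries over the polynomial ring in the variables `HIdx`. -/
private noncomputable def hgb_G {P H : Type} (K : Type u) [Field K] (N : ℕ) (c : P → ℤ)
    (v : Coef N c c → H) : Matrix P P (MvPolynomial (Fin N) (MvPolynomial H K)) := fun i i' =>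
  ∑ m ∈ Finset.univ.finsuppAntidiag (c i' - c i).toNat,
    if h : ((m.degree : ℕ) : ℤ) = c i' - c i then
      monomial m (X (v ⟨(i, i', m), h⟩))
    else 0

/-- The value of the variable `(i, i', m)` at the identity matrix. -/
private noncomputable def hgb_v {P : Type} [DecidableEq P] (K : Type u) [Field K] (N : ℕ)
    (c : P → ℤ) (p : Coef N c c) : K :=
  if p.1.1 = p.1.2.1 ∧ p.1.2.2 = 0 then 1 else 0

private theorem hgb_eval {P H : Type} [DecidableEq P] (K : Type u) [Field K] (N : ℕ) (c : P → ℤ)
    (v : Coef N c c → H) (w : H → K) (hw : ∀ p, w (v p) = hgb_v K N c p) (r : MvPolynomial H K →+* K)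
    (hr : ∀ h, r (X h) = w h) :
    (hgb_G K N c v).map (MvPolynomial.map r) =
      (1 : Matrix P P (MvPolynomial (Fin N) K)) := by
  classical
  ext i i' m
  rw [Matrix.map_apply, MvPolynomial.coeff_map]
  unfold hgb_G
  rw [hgb_coeff]
  by_cases h : ((m.degree : ℕ) : ℤ) = c i' - c i
  · rw [dif_pos h, hr]
    refine (hw ⟨(i, i', m), h⟩).trans ?_
    unfold hgb_v
    simp only [Matrix.one_apply]
    by_cases hi : i = i'
    · subst hi
      by_cases hm : m = 0
      · subst hm
        simp
      · rw [if_neg (fun hh => hm hh.2), if_pos rfl, MvPolynomial.coeff_one, if_neg (Ne.symm hm)]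
    · rw [if_neg (fun hh => hi hh.1), if_neg hi, MvPolynomial.coeff_zero]
  · rw [dif_neg h, map_zero]
    simp only [Matrix.one_apply]
    by_cases hi : i = i'
    · subst hi
      rw [if_pos rfl, MvPolynomial.coeff_one, if_neg]
      rintro rfl
      simp at h
    · rw [if_neg hi, MvPolynomial.coeff_zero]

private theorem hgb_homM {P : Type} {N : ℕ} {F : Type u} [CommSemiring F] (c : P → ℤ)
    (M : Matrix P P (MvPolynomial (Fin N) F))
    (hM : ∀ i i' m, ((m.degree : ℕ) : ℤ) ≠ c i' - c i → (M i i').coeff m = 0) : HomM c c M := by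
  intro i i' m hm
  by_contra h
  exact (MvPolynomial.mem_support_iff.1 hm) (hM i i' m h)

private theorem hgb_homD_mul {N : ℕ} {F : Type u} [CommSemiring F] {d e : ℤ}
    {p q : MvPolynomial (Fin N) F} (hp : HomD d p) (hq : HomD e q) : HomD (d + e) (p * q) := by
  classical
  intro m hm
  have h1 := MvPolynomial.support_mul p q hm
  obtain ⟨x, hx, y, hy, rfl⟩ := Finset.mem_add.1 h1
  rw [map_add, Nat.cast_add, hp x hx, hq y hy]

private theorem hgb_homD_sum {N : ℕ} {F : Type u} [CommSemiring F] {d : ℤ} {ι : Type}
    (s : Finset ι) (p : ι → MvPolynomial (Fin N) F) (hp : ∀ i ∈ s, HomD d (p i)) :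
    HomD d (∑ i ∈ s, p i) := by
  classical
  intro m hm
  have h1 := MvPolynomial.support_sum hm
  obtain ⟨i, hi, hmi⟩ := Finset.mem_biUnion.1 h1
  exact hp i hi m hmi

private theorem hgb_homM_mul {P Q R : Type} [Fintype Q] {N : ℕ} {F : Type u} [CommSemiring F]
    {a : P → ℤ} {b : Q → ℤ} {c : R → ℤ}
    {A : Matrix P Q (MvPolynomial (Fin N) F)} {B : Matrix Q R (MvPolynomial (Fin N) F)}
    (hA : HomM b a A) (hB : HomM c b B) : HomM c a (A * B) := by
  intro i j
  rw [Matrix.mul_apply]
  apply hgb_homD_sum
  intro k _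
  have h := hgb_homD_mul (hA i k) (hB k j)
  have e : b k - a i + (c j - b k) = c j - a i := by ring
  rw [e] at h
  exact h

theorem p_hgb : S_hgb.{u} := by
  classical
  intro k K _ _ _ N I J _ _ _ _ a b A hA
  obtain ⟨hA1, hA2⟩ := hA
  -- the evaluation at the identity matrices
  let w : HIdx N a b → K := Sum.elim (hgb_v K N b) (hgb_v K N a)
  let r : MvPolynomial (HIdx N a b) K →ₐ[k] K := (MvPolynomial.aeval w).restrictScalars k
  have hr : ∀ h, (r : MvPolynomial (HIdx N a b) K →+* K) (X h) = w h := fun h => by
    simp [r]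
  let G1 : Matrix I I (MvPolynomial (Fin N) (MvPolynomial (HIdx N a b) K)) :=
    hgb_G K N b (fun p => (Sum.inl p : HIdx N a b))
  let G2 : Matrix J J (MvPolynomial (Fin N) (MvPolynomial (HIdx N a b) K)) :=
    hgb_G K N a (fun p => (Sum.inr p : HIdx N a b))
  let A0 : Matrix I J (MvPolynomial (Fin N) (MvPolynomial (HIdx N a b) K)) :=
    A.map (MvPolynomial.map (MvPolynomial.C : K →+* MvPolynomial (HIdx N a b) K))
  have e1 : G1.map (MvPolynomial.map (r : MvPolynomial (HIdx N a b) K →+* K)) = 1 :=
    hgb_eval K N b _ w (fun p => rfl) _ hr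
  have e2 : G2.map (MvPolynomial.map (r : MvPolynomial (HIdx N a b) K →+* K)) = 1 :=
    hgb_eval K N a _ w (fun p => rfl) _ hr
  have e0 : A0.map (MvPolynomial.map (r : MvPolynomial (HIdx N a b) K →+* K)) = A := by
    ext i j m
    simp only [A0, Matrix.map_apply, MvPolynomial.coeff_map]
    change r (C ((A i j).coeff m)) = _
    simp [r]
  have e3 : (G1 * A0 * G2).map (MvPolynomial.map (r : MvPolynomial (HIdx N a b) K →+* K)) = A := by
    rw [Matrix.map_mul, Matrix.map_mul, e1, e2, e0, Matrix.one_mul, Matrix.mul_one]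
  -- the inclusion in the field of fractions
  let s : MvPolynomial (HIdx N a b) K →ₐ[k] HField K N a b :=
    { algebraMap (MvPolynomial (HIdx N a b) K) (HField K N a b) with
      commutes' := by
        intro x
        change algebraMap (MvPolynomial (HIdx N a b) K) (HField K N a b)
          (algebraMap k (MvPolynomial (HIdx N a b) K) x) = algebraMap k (HField K N a b) x
        rw [IsScalarTower.algebraMap_apply k K (HField K N a b),
          IsScalarTower.algebraMap_apply k K (MvPolynomial (HIdx N a b) K),
          ← IsScalarTower.algebraMap_apply K (MvPolynomial (HIdx N a b) K) (HField K N a b)] }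
  have hs : Function.Injective s := IsFractionRing.injective (MvPolynomial (HIdx N a b) K) _
  have f1 : G1.map (MvPolynomial.map (s : MvPolynomial (HIdx N a b) K →+* HField K N a b)) =
      hM1 K N a b := by
    ext i i' m
    rw [Matrix.map_apply, MvPolynomial.coeff_map]
    simp only [G1]
    unfold hgb_G hM1
    rw [hgb_coeff, hgb_coeff]
    split_ifs
    · rfl
    · rw [map_zero]
  have f2 : G2.map (MvPolynomial.map (s : MvPolynomial (HIdx N a b) K →+* HField K N a b)) =
      hM2 K N a b := by
    ext i i' m
    rw [Matrix.map_apply, MvPolynomial.coeff_map]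
    simp only [G2]
    unfold hgb_G hM2
    rw [hgb_coeff, hgb_coeff]
    split_ifs
    · rfl
    · rw [map_zero]
  have f0 : A0.map (MvPolynomial.map (s : MvPolynomial (HIdx N a b) K →+* HField K N a b)) =
      extM (algebraMap K (HField K N a b)) A := by
    unfold extM
    ext i j m
    simp only [A0, Matrix.map_apply, MvPolynomial.coeff_map]
    rfl
  have f3 : (G1 * A0 * G2).map (MvPolynomial.map (s : MvPolynomial (HIdx N a b) K →+* HField K N a b)) =
      hM1 K N a b * extM (algebraMap K (HField K N a b)) A * hM2 K N a b := by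
    rw [Matrix.map_mul, Matrix.map_mul, f1, f2, f0]
  constructor
  · have n1 : HomM b b (hM1 K N a b) := by
      apply hgb_homM
      intro i i' m h
      unfold hM1
      rw [hgb_coeff, dif_neg h]
    have n2 : HomM a a (hM2 K N a b) := by
      apply hgb_homM
      intro i i' m h
      unfold hM2
      rw [hgb_coeff, dif_neg h]
    have n0 : HomM a b (extM (algebraMap K (HField K N a b)) A) := by
      intro i j m hm
      refine hA1 i j m ?_
      rw [MvPolynomial.mem_support_iff] at hm ⊢
      unfold extM at hm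
      rw [Matrix.map_apply, MvPolynomial.coeff_map] at hm
      intro h0
      rw [h0, map_zero] at hm
      exact hm rfl
    exact hgb_homM_mul (hgb_homM_mul n1 n0) n2
  · rw [← f3]
    have h1 : AlgebraicIndependent k (r ∘ fun p : Coef N a b =>
        ((G1 * A0 * G2) p.1.1 p.1.2.1).coeff p.1.2.2) := by
      convert hA2 using 1
      ext p
      have := congrFun (congrFun e3 p.1.1) p.1.2.1
      rw [Matrix.map_apply] at this
      rw [← this, MvPolynomial.coeff_map]
      rfl
    have h2 := AlgebraicIndependent.of_comp r h1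
    have h3 := h2.map' hs
    have h4 : (fun p : Coef N a b => (((G1 * A0 * G2).map (MvPolynomial.map
        (s : MvPolynomial (HIdx N a b) K →+* HField K N a b))) p.1.1 p.1.2.1).coeff p.1.2.2) =
        s ∘ fun p : Coef N a b => ((G1 * A0 * G2) p.1.1 p.1.2.1).coeff p.1.2.2 := by
      ext p
      rw [Matrix.map_apply, MvPolynomial.coeff_map]
      rfl
    rw [h4]
    exact h3

end Pool.Agent.Lib.MP_09338f_ag
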