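import Mathlib
import Pool.Agent.Lib.MP_09338f_ag.KM.Stm5

/-!
# Project KM, piece hgc: `K(h)` is generated by the coefficients of `g₁` and of the inverse of `g₂`; its
transcendence degree.
-/

set_option autoImplicit false

open MvPolynomial Matrix

universe u

namespace Pool.Agent.Lib.MP_09338f_ag

open Classical in
private theorem hgc_coeff {N : ℕ} {R : Type u} [CommSemiring R] (d : ℤ)
    (f : ∀ m : Fin N →₀ ℕ, ((m.degree : ℕ) : ℤ) = d → R) (m : Fin N →₀ ℕ) :
    (∑ m' ∈ Finset.univ.finsuppAntidiag d.toNat,
      if h : ((m'.degree : ℕ) : ℤ) = d then monomial m' (f m' h) else 0).coeff m =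
      if h : ((m.degree : ℕ) : ℤ) = d then f m h else 0 := by
  rw [MvPolynomial.coeff_sum]
  by_cases h : ((m.degree : ℕ) : ℤ) = d
  · rw [dif_pos h, Finset.sum_eq_single m]
    · rw [dif_pos h, MvPolynomial.coeff_monomial, if_pos rfl]
    · intro m' _ hne
      by_cases h' : ((m'.degree : ℕ) : ℤ) = d
      · rw [dif_pos h', MvPolynomial.coeff_monomial, if_neg hne]
      · rw [dif_neg h', MvPolynomial.coeff_zero]
    · intro hm
      exfalso
      apply hm
      rw [Finset.mem_finsuppAntidiag]
      refine ⟨?_, Finset.subset_univ _⟩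
      rw [← h, Int.toNat_natCast, Finsupp.degree_eq_sum]
  · rw [dif_neg h]
    apply Finset.sum_eq_zero
    intro m' _
    by_cases h' : ((m'.degree : ℕ) : ℤ) = d
    · rw [dif_pos h', MvPolynomial.coeff_monomial, if_neg]
      rintro rfl
      exact h h'
    · rw [dif_neg h', MvPolynomial.coeff_zero]

/-- If a square matrix `g` over `F[x]` has coefficients in the subfield `E` and `h * g = 1` then `h` has
coefficients in `E`. -/
private theorem hgc_inv {K F : Type u} [Field K] [Field F] [Algebra K F] (E : IntermediateField K F)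
    {N : ℕ} {P : Type} [Fintype P] [DecidableEq P] (g h : Matrix P P (MvPolynomial (Fin N) F))
    (hg : ∀ i j m, (g i j).coeff m ∈ E) (hh : h * g = 1) : ∀ i j m, (h i j).coeff m ∈ E := by
  classical
  have hgE : ∀ i j, ∃ q : MvPolynomial (Fin N) E, MvPolynomial.map (algebraMap E F) q = g i j := by
    intro i j
    have h1 : g i j ∈ Set.range (MvPolynomial.map (σ := Fin N) (algebraMap E F)) := by
      rw [MvPolynomial.mem_range_map_iff_coeffs_subset]
      intro x hx
      obtain ⟨m, hm, rfl⟩ := MvPolynomial.mem_coeffs_iff.1 hx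
      exact ⟨⟨_, hg i j m⟩, rfl⟩
    exact h1
  choose gE hgE using hgE
  let G : Matrix P P (MvPolynomial (Fin N) E) := Matrix.of gE
  have hG : G.map (MvPolynomial.map (algebraMap E F)) = g := by
    refine Matrix.ext fun i j => ?_
    exact hgE i j
  have hdet : MvPolynomial.map (algebraMap E F) G.det = g.det := by
    rw [← hG, RingHom.map_det]
    rfl
  have hu : IsUnit g.det := by
    have h2 : h.det * g.det = 1 := by rw [← Matrix.det_mul, hh, Matrix.det_one]
    exact IsUnit.of_mul_eq_one _ ((mul_comm _ _).trans h2)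
  obtain ⟨r, hr, hgr⟩ := MvPolynomial.isUnit_iff_eq_C_of_isReduced.1 hu
  have hGu : IsUnit G.det := by
    have h3 : G.det = C (G.det.coeff 0) := by
      apply MvPolynomial.map_injective _ (algebraMap E F).injective
      rw [hdet, MvPolynomial.map_C, ← MvPolynomial.coeff_map, hdet, hgr, MvPolynomial.coeff_C, if_pos rfl]
    rw [h3]
    apply IsUnit.map
    rw [isUnit_iff_ne_zero]
    intro h4
    rw [h4, map_zero] at h3
    rw [← hdet, h3, map_zero] at hu
    exact not_isUnit_zero hu
  have hGG : G * G⁻¹ = 1 := Matrix.mul_nonsing_inv _ hGu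
  have h5 : g * (G⁻¹).map (MvPolynomial.map (algebraMap E F)) = 1 := by
    rw [← hG, ← Matrix.map_mul, hGG, Matrix.map_one _ (map_zero _) (map_one _)]
  have h6 : h = (G⁻¹).map (MvPolynomial.map (algebraMap E F)) := by
    calc h = h * (g * (G⁻¹).map (MvPolynomial.map (algebraMap E F))) := by rw [h5, Matrix.mul_one]
      _ = (G⁻¹).map (MvPolynomial.map (algebraMap E F)) := by rw [← Matrix.mul_assoc, hh, Matrix.one_mul]
  intro i j m
  rw [h6, Matrix.map_apply, MvPolynomial.coeff_map]
  exact SetLike.coe_mem _

private theorem hgc_finite {I J : Type} [Finite I] [Finite J] (N : ℕ) (a : J → ℤ) (b : I → ℤ) :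
    Finite (Coef N a b) := by
  classical
  cases nonempty_fintype I
  cases nonempty_fintype J
  let f : Coef N a b → I × J × (Finset.univ.biUnion fun p : I × J =>
      (Finset.univ : Finset (Fin N)).finsuppAntidiag (a p.2 - b p.1).toNat) := fun p =>
    (p.1.1, p.1.2.1, ⟨p.1.2.2, by
      rw [Finset.mem_biUnion]
      refine ⟨(p.1.1, p.1.2.1), Finset.mem_univ _, ?_⟩
      rw [Finset.mem_finsuppAntidiag]
      refine ⟨?_, Finset.subset_univ _⟩
      have h := p.2
      simp only
      rw [← h, Int.toNat_natCast, Finsupp.degree_eq_sum]⟩)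
  apply Finite.of_injective f
  rintro ⟨⟨i, j, m⟩, h⟩ ⟨⟨i', j', m'⟩, h'⟩ hf
  simp only [f, Prod.mk.injEq, Subtype.mk.injEq] at hf
  obtain ⟨rfl, rfl, rfl⟩ := hf
  rfl

theorem p_hgc : S_hgc.{u} := by
  classical
  intro K _ N I J _ _ _ _ a b
  constructor
  · intro g hg
    set E := IntermediateField.adjoin K ({x | ∃ i i' m, x = (hM1 K N a b i i').coeff m} ∪
        {x | ∃ j j' m, x = (g j j').coeff m}) with hE
    have h1 : ∀ p : Coef N b b, algebraMap (MvPolynomial (HIdx N a b) K) (HField K N a b)
        (X (Sum.inl p)) ∈ E := by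
      rintro ⟨⟨i, i', m⟩, h⟩
      apply IntermediateField.subset_adjoin
      left
      refine ⟨i, i', m, ?_⟩
      unfold hM1
      rw [hgc_coeff]
      have h' : ((m.degree : ℕ) : ℤ) = b i' - b i := h
      rw [dif_pos h']
    have h2 : ∀ j j' m, (hM2 K N a b j j').coeff m ∈ E := by
      refine hgc_inv E g (hM2 K N a b) ?_ hg
      intro j j' m
      apply IntermediateField.subset_adjoin
      right
      exact ⟨j, j', m, rfl⟩
    have h3 : ∀ p : Coef N a a, algebraMap (MvPolynomial (HIdx N a b) K) (HField K N a b)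
        (X (Sum.inr p)) ∈ E := by
      rintro ⟨⟨j, j', m⟩, h⟩
      have h4 := h2 j j' m
      unfold hM2 at h4
      rw [hgc_coeff, dif_pos h] at h4
      exact h4
    have h5 : ∀ q : MvPolynomial (HIdx N a b) K,
        algebraMap (MvPolynomial (HIdx N a b) K) (HField K N a b) q ∈ E := by
      intro q
      induction q using MvPolynomial.induction_on with
      | C x => exact E.algebraMap_mem x
      | add p q hp hq =>
        rw [map_add]
        exact E.add_mem hp hq
      | mul_X p n hp =>
        rw [map_mul]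
        refine E.mul_mem hp ?_
        cases n with
        | inl p => exact h1 p
        | inr p => exact h3 p
    rw [eq_top_iff]
    intro x _
    obtain ⟨p, q, hq, rfl⟩ := IsFractionRing.div_surjective (A := MvPolynomial (HIdx N a b) K) x
    exact E.div_mem (h5 p) (h5 q)
  · have : Finite (Coef N b b) := hgc_finite N b b
    have : Finite (Coef N a a) := hgc_finite N a a
    have : Finite (HIdx N a b) := inferInstance
    have h1 : Algebra.trdeg K (MvPolynomial (HIdx N a b) K) +
        Algebra.trdeg (MvPolynomial (HIdx N a b) K) (HField K N a b) =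
          Algebra.trdeg K (HField K N a b) := _root_.trdeg_add_eq _ _
    have h2 : Algebra.trdeg (MvPolynomial (HIdx N a b) K) (HField K N a b) = 0 := by
      have : Algebra.IsAlgebraic (MvPolynomial (HIdx N a b) K) (HField K N a b) :=
        IsLocalization.isAlgebraic _ (nonZeroDivisors (MvPolynomial (HIdx N a b) K))
      exact _root_.trdeg_eq_zero
    rw [← h1, h2, add_zero, MvPolynomial.trdeg_of_isDomain, ← Nat.cast_card, Cardinal.lift_natCast]

end Pool.Agent.Lib.MP_09338f_ag
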