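import Pool.Agent.Lib.MP_09338f_ag.KM.Stm3

/-!
# Project KM, piece [hlu]: the step x_0 e_none for HP, generic matrices
-/

set_option autoImplicit false

open MvPolynomial Matrix

universe u

namespace Pool.Agent.Lib.MP_09338f_ag

/-- The columns of large degree are never counted. -/
private theorem hlu_CD1 {I J1 J2 : Type} [Fintype I] [Fintype J1] [Fintype J2] (a1 : J1 → ℤ)
    (a2 : J2 → ℤ) (b : I → ℤ) (h : CD1 a1 b) (h2 : ∀ j i, b i ≤ a2 j) :
    CD1 (Sum.elim a1 a2) b := by
  classical
  intro i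
  refine le_trans ?_ (h i)
  have : (Finset.univ.filter fun j => Sum.elim a1 a2 j < b i) =
      (Finset.univ.filter fun j => a1 j < b i).map Function.Embedding.inl := by
    ext j
    rcases j with j | j
    · simp
    · simp only [Finset.mem_filter, Finset.mem_univ, true_and, Sum.elim_inr, Finset.mem_map,
        Function.Embedding.inl_apply, reduceCtorEq, and_false, exists_false, iff_false, not_lt]
      exact h2 j i
  rw [this, Finset.card_map]

/-- The equivalence of the index types. -/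
private def hlu_eqv (J1 J2 : Type) : Option J1 ⊕ J2 ≃ Option (J1 ⊕ J2) where
  toFun := Sum.elim (fun j => j.elim none fun j => some (Sum.inl j)) fun j => some (Sum.inr j)
  invFun := fun j => j.elim (Sum.inl none) (Sum.elim (fun j => Sum.inl (some j)) Sum.inr)
  left_inv := by
    rintro ((_ | j) | j) <;> rfl
  right_inv := by
    rintro (_ | (j | j)) <;> rfl

private theorem hlu_single {I : Type} [DecidableEq I] {R : Type u} [CommRing R] (x : R) :
    x • (Pi.single none 1 : Option I → R) = Pi.single none x := by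
  rw [← Pi.single_smul, smul_eq_mul, mul_one]

theorem p_hlu (h_hpu : S_hpu.{u}) (h_spp : S_spp.{u}) (h_deg : S_deg) (h_hdg : S_hdg.{u})
    (h_ind : S_ind.{u}) (h_cnt : S_cnt) (h_nz : S_nz.{u}) (h_annu : S_annu.{u})
    (h_e1a : S_e1a.{u}) (h_e1s : S_e1s.{u}) (h_e1u : S_e1u.{u}) (h_cd : S_cd) (h_rx : S_rx.{u})
    (h_gm : S_gm.{u}) (h_gs : S_gs.{u}) : S_hlu.{u} := by
  intro N I J1 J2 _ _ _ _ _ _ a1 a2 b β hN hJ2 hI hIJ hsum hb ha1 hCD3 ha2 halt hG
  intro k K _ _ _ C W hgen
  obtain ⟨N, rfl⟩ := Nat.exists_eq_add_of_le' hN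
  obtain ⟨D, hD⟩ : ∃ D, D = genMatrix k (N + 1 + 1) (Sum.elim a1 a2) (oext b β) := ⟨_, rfl⟩
  have hDg : Gen k (Sum.elim a1 a2) (oext b β) D := by
    rw [hD]
    exact h_gm k (Option I) (J1 ⊕ J2) (N + 1 + 1) (Sum.elim a1 a2) (oext b β)
  -- degrees
  obtain ⟨-, hc1, hc2, -⟩ := (h_cd I J1 a1 b).2.2.2.2.1 (β + 1) β hb ha1 (by omega) hCD3
  have hc1' : CD1 a1 b := (h_cd I J1 a1 b).2.1 ((h_cd I J1 a1 b).1 hc1)
  have hc2' : CD1 a1 (oext b β) :=
    (h_cd (Option I) J1 a1 (oext b β)).2.1 ((h_cd (Option I) J1 a1 (oext b β)).1 hc2)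
  have hba : ∀ j i, b i ≤ a2 j := fun j i => (hb i).trans (ha2 j)
  have hba' : ∀ j i, oext b β i ≤ a2 j := by
    intro j i
    rcases i with _ | i
    · exact ha2 j
    · exact hba j i
  have hd1 : CD1 (Sum.elim a1 a2) b := hlu_CD1 a1 a2 b hc1' hba
  have hd2 : CD1 (Sum.elim a1 a2) (oext b β) := hlu_CD1 a1 a2 (oext b β) hc2' hba'
  have hcJ : Fintype.card (J1 ⊕ J2) = Fintype.card J1 + Fintype.card J2 := Fintype.card_sum
  have hcI : Fintype.card (Option I) = Fintype.card I + 1 := Fintype.card_option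
  -- exactness
  have hx1 : Ex1 (D.submatrix some id) := by
    refine h_e1a (N + 1 + 1) I (J1 ⊕ J2) (Sum.elim a1 a2) b (by omega) (by omega) hd1 k _ _ ?_
    exact (h_gs k _ (Option I) (J1 ⊕ J2) (Sum.elim a1 a2) (oext b β)).1 (N + 1 + 1) D hDg I (J1 ⊕ J2)
      some id (Option.some_injective I) Function.injective_id
  have hx2 : Ex1 (D.map red : Matrix (Option I) (J1 ⊕ J2) (MvPolynomial (Fin (N + 1)) _)) := by
    refine h_e1a (N + 1) (Option I) (J1 ⊕ J2) (Sum.elim a1 a2) (oext b β) (by omega) (by omega)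
      hd2 k _ _ ?_
    exact (h_gs k _ (Option I) (J1 ⊕ J2) (Sum.elim a1 a2) (oext b β)).2 (N + 1) D hDg
  have hrow : addRow (D.submatrix some id) (D none) = D := by
    ext i j
    rcases i with _ | i <;> rfl
  have hx3 : Ex1 (addCol D (Pi.single none 1)) := by
    have h := h_e1u _ I (J1 ⊕ J2) (D.submatrix some id) (D none) hx1
    rwa [hrow] at h
  have hx4 : Ex1 (addCol D ((X 0 : MvPolynomial (Fin (N + 1 + 1)) _) • Pi.single none 1)) :=
    h_e1s _ (N + 1) (Option I) (J1 ⊕ J2) D (Pi.single none 1) hx3 hx2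
  rw [hlu_single] at hx4
  have hcols : Matrix.fromCols (D.submatrix id Sum.inl) (D.submatrix id Sum.inr) = D := by
    ext i j
    rcases j with j | j <;> rfl
  have hx5 : Ex1 (Matrix.fromCols (addCol (D.submatrix id Sum.inl) (Pi.single none (X 0)))
      (D.submatrix id Sum.inr)) := by
    have h := (h_rx _ (Option I) (Option (J1 ⊕ J2)) (Option I) (Option J1 ⊕ J2)
      (Equiv.refl (Option I)) (hlu_eqv J1 J2) (addCol D (Pi.single none (X 0)))).2.2.1.2 hx4
    have he : (addCol D (Pi.single none (X 0))).submatrix (Equiv.refl (Option I)) (hlu_eqv J1 J2) =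
        Matrix.fromCols (addCol (D.submatrix id Sum.inl) (Pi.single none (X 0)))
          (D.submatrix id Sum.inr) := by
      ext i j
      rcases j with (_ | j) | j <;> rfl
    rwa [he] at h
  -- homogeneity
  have hH1 : HomM a1 (oext b β) (D.submatrix id Sum.inl) := fun i j => hDg.1 i (Sum.inl j)
  have hH2 : HomM a2 (oext b β) (D.submatrix id Sum.inr) := fun i j => hDg.1 i (Sum.inr j)
  have hH3 : HomM (Sum.elim (oext a1 (β + 1)) a2) (oext b β)
      (Matrix.fromCols (addCol (D.submatrix id Sum.inl) (Pi.single none (X 0)))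
        (D.submatrix id Sum.inr)) := by
    intro i j
    rcases j with (_ | j) | j
    · rcases i with _ | i
      · intro m hm
        have hm' : m ∈ (X 0 : MvPolynomial (Fin (N + 1 + 1)) (GenField k (N + 1 + 1)
            (Sum.elim a1 a2) (oext b β))).support := by
          simpa [addCol] using hm
        rw [support_X, Finset.mem_singleton] at hm'
        rw [hm']
        simp [oext]
      · intro m hm
        exfalso
        simp [addCol] at hm
    · exact hH1 i j
    · exact hH2 i j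
  -- HP for the special matrix
  have hrows : Matrix.fromCols ((D.submatrix id Sum.inl).submatrix some id)
      ((D.submatrix id Sum.inr).submatrix some id) = D.submatrix some id := by
    ext i j
    rcases j with j | j <;> rfl
  have hHP : HP b ((D.submatrix id Sum.inl).submatrix some id)
      ((D.submatrix id Sum.inr).submatrix some id) := by
    refine hG k _ _ _ ?_
    rw [hrows]
    exact (h_gs k _ (Option I) (J1 ⊕ J2) (Sum.elim a1 a2) (oext b β)).1 (N + 1 + 1) D hDg I (J1 ⊕ J2)
      some id (Option.some_injective I) Function.injective_id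
  have hC : Gen k a1 (oext b β) (D.submatrix id Sum.inl) :=
    (h_gs k _ (Option I) (J1 ⊕ J2) (Sum.elim a1 a2) (oext b β)).1 (N + 1 + 1) D hDg (Option I) J1
      id Sum.inl Function.injective_id Sum.inl_injective
  have hmain := (h_hpu _ (N + 1) I J1 J2 a1 a2 b β (D.submatrix id Sum.inl)
    (D.submatrix id Sum.inr) hH1 hH2 hHP).2 hb ha1 ?_ ?_ ?_ ?_
  · refine h_spp k _ K (Option I) (Option J1) J2 (N + 1 + 1) (oext a1 (β + 1)) a2 (oext b β)
      _ _ C W hH3 ?_ hmain hgen
    intro j x _ hx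
    exact hx5 x hx
  · rw [hcols]
    exact h_nz _ (N + 1) (Option I) (J1 ⊕ J2) D hx2
  · rw [hcols]
    exact h_annu _ I (J1 ⊕ J2) D hx1
  · rw [hcols]
    refine h_hdg _ (N + 1 + 1) (Option I) (J1 ⊕ J2) (Sum.elim a1 a2) (oext b β) D hDg.1 ?_
    refine h_deg (Option I) J1 J2 a1 a2 (oext b β) hc2 hba' hJ2 (by omega) ?_
    rcases halt with h | h
    · left; omega
    · right; exact h
  · exact h_ind k _ N (Option I) J1 a1 (oext b β) β (D.submatrix id Sum.inl) hC
      (h_cnt I J1 a1 b β hb ha1 hIJ hCD3)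

end Pool.Agent.Lib.MP_09338f_ag
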