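import Pool.Agent.Lib.MP_09338f_ag.KM.Stm4

/-!
# Project KM, piece hns: the splitting identity for the Buchsbaum–Rim sum
-/

set_option autoImplicit false

open MvPolynomial Matrix

universe u

namespace Pool.Agent.Lib.MP_09338f_ag

private theorem hns_split {J : Type} [Fintype J] [DecidableEq J] (m : ℕ)
    (f : Finset (Option J) → ℤ) :
    ∑ S ∈ (Finset.univ : Finset (Option J)).powersetCard (m + 1), f S =
      ∑ S ∈ (Finset.univ : Finset J).powersetCard (m + 1), f (S.map Function.Embedding.some) +
      ∑ S ∈ (Finset.univ : Finset J).powersetCard m, f (Finset.insertNone S) := by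
  classical
  have hnone : (none : Option J) ∉ (Finset.univ : Finset J).map Function.Embedding.some := by
    simp
  have huniv : (Finset.univ : Finset (Option J)) =
      insert none ((Finset.univ : Finset J).map Function.Embedding.some) := by
    ext x
    cases x <;> simp
  rw [huniv, Finset.powersetCard_succ_insert hnone, Finset.sum_union, Finset.sum_image]
  · congr 1
    · rw [Finset.powersetCard_map, Finset.sum_map]
      rfl
    · rw [Finset.powersetCard_map, Finset.sum_map]
      refine Finset.sum_congr rfl fun S _ => ?_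
      congr 1
      ext x
      cases x <;> simp
  · intro S hS S' hS' h
    have h1 : none ∉ S := fun h' => hnone ((Finset.mem_powersetCard.1 hS).1 h')
    have h2 : none ∉ S' := fun h' => hnone ((Finset.mem_powersetCard.1 hS').1 h')
    have h3 := congrArg (fun s => Finset.erase s none) h
    simpa [Finset.erase_insert h1, Finset.erase_insert h2] using h3
  · rw [Finset.disjoint_left]
    intro S hS hS'
    obtain ⟨S'', -, rfl⟩ := Finset.mem_image.1 hS'
    exact hnone ((Finset.mem_powersetCard.1 hS).1 (Finset.mem_insert_self _ _))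

/-- one value of `s` -/
private theorem hns_term (h_mon : S_mon.{u}) {N : ℕ} {I J : Type} [Fintype I] [DecidableEq I]
    [Fintype J] [DecidableEq J] (a : J → ℤ) (b : I → ℤ) (α d : ℤ) (s : ℕ) :
    ∑ S ∈ (Finset.univ : Finset (Option J)).powersetCard (Fintype.card I + 1 + s),
      ∑ T ∈ (Finset.univ : Finset I).sym s,
        (-1) ^ s * (mon (N + 1) (d - ∑ j ∈ S, oext a (α + 1) j +
          ((T : Multiset I).map b).sum + ∑ i, b i) : ℤ) =
    ∑ S ∈ (Finset.univ : Finset (Option J)).powersetCard (Fintype.card I + 1 + s),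
      ∑ T ∈ (Finset.univ : Finset I).sym s,
        (-1) ^ s * (mon (N + 1) (d - 1 - ∑ j ∈ S, oext a α j +
          ((T : Multiset I).map b).sum + ∑ i, b i) : ℤ) +
    ∑ S ∈ (Finset.univ : Finset J).powersetCard (Fintype.card I + 1 + s),
      ∑ T ∈ (Finset.univ : Finset I).sym s,
        (-1) ^ s * (mon N (d - ∑ j ∈ S, a j + ((T : Multiset I).map b).sum + ∑ i, b i) : ℤ) := by
  have hrec := h_mon.2.2.2.2.1 N
  have hs : Fintype.card I + 1 + s = (Fintype.card I + s) + 1 := by omega
  rw [hs, hns_split, hns_split]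
  have h1 : ∀ S : Finset J, ∑ T ∈ (Finset.univ : Finset I).sym s,
      (-1) ^ s * (mon (N + 1) (d - ∑ j ∈ S.map Function.Embedding.some, oext a (α + 1) j +
        ((T : Multiset I).map b).sum + ∑ i, b i) : ℤ) =
      ∑ T ∈ (Finset.univ : Finset I).sym s,
      (-1) ^ s * (mon (N + 1) (d - 1 - ∑ j ∈ S.map Function.Embedding.some, oext a α j +
        ((T : Multiset I).map b).sum + ∑ i, b i) : ℤ) +
      ∑ T ∈ (Finset.univ : Finset I).sym s,
      (-1) ^ s * (mon N (d - ∑ j ∈ S, a j + ((T : Multiset I).map b).sum + ∑ i, b i) : ℤ) := by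
    intro S
    rw [← Finset.sum_add_distrib]
    refine Finset.sum_congr rfl fun T _ => ?_
    have e1 : ∑ j ∈ S.map Function.Embedding.some, oext a (α + 1) j = ∑ j ∈ S, a j := by
      rw [Finset.sum_map]
      rfl
    have e2 : ∑ j ∈ S.map Function.Embedding.some, oext a α j = ∑ j ∈ S, a j := by
      rw [Finset.sum_map]
      rfl
    rw [e1, e2, hrec (d - ∑ j ∈ S, a j + ((T : Multiset I).map b).sum + ∑ i, b i)]
    have e3 : d - ∑ j ∈ S, a j + ((T : Multiset I).map b).sum + ∑ i, b i - 1 =
      d - 1 - ∑ j ∈ S, a j + ((T : Multiset I).map b).sum + ∑ i, b i := by ring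
    rw [e3]
    push_cast
    ring
  have h2 : ∀ S : Finset J, ∑ T ∈ (Finset.univ : Finset I).sym s,
      (-1) ^ s * (mon (N + 1) (d - ∑ j ∈ Finset.insertNone S, oext a (α + 1) j +
        ((T : Multiset I).map b).sum + ∑ i, b i) : ℤ) =
      ∑ T ∈ (Finset.univ : Finset I).sym s,
      (-1) ^ s * (mon (N + 1) (d - 1 - ∑ j ∈ Finset.insertNone S, oext a α j +
        ((T : Multiset I).map b).sum + ∑ i, b i) : ℤ) := by
    intro S
    refine Finset.sum_congr rfl fun T _ => ?_
    have e1 : ∑ j ∈ Finset.insertNone S, oext a (α + 1) j = α + 1 + ∑ j ∈ S, a j := by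
      rw [Finset.sum_insertNone]
      rfl
    have e2 : ∑ j ∈ Finset.insertNone S, oext a α j = α + ∑ j ∈ S, a j := by
      rw [Finset.sum_insertNone]
      rfl
    rw [e1, e2]
    have e3 : d - (α + 1 + ∑ j ∈ S, a j) + ((T : Multiset I).map b).sum + ∑ i, b i =
      d - 1 - (α + ∑ j ∈ S, a j) + ((T : Multiset I).map b).sum + ∑ i, b i := by ring
    rw [e3]
  rw [Finset.sum_congr rfl fun S _ => h1 S, Finset.sum_congr rfl fun S _ => h2 S,
    Finset.sum_add_distrib]
  ring

theorem p_hns (h_mon : S_mon.{u}) : S_hns := by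
  intro N I J _ _ _ _ a b α d
  unfold Hnum
  rw [Fintype.card_option, Finset.sum_congr rfl fun s _ => hns_term h_mon a b α d s,
    Finset.sum_add_distrib]
  congr 1
  rw [Finset.sum_range_succ]
  have h0 : (Finset.univ : Finset J).powersetCard (Fintype.card I + 1 + Fintype.card J) = ∅ := by
    rw [Finset.powersetCard_eq_empty, Finset.card_univ]
    omega
  rw [h0, Finset.sum_empty, add_zero]

end Pool.Agent.Lib.MP_09338f_ag
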