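import Pool.Agent.Lib.MP_09338f_ag.KM.Stm4

/-!
# Project KM, [hnu]: the unit identity for the Buchsbaum–Rim sum
-/

set_option autoImplicit false

open Matrix

universe u

namespace Pool.Agent.Lib.MP_09338f_ag

section hnu

variable {I J : Type} [Fintype I] [DecidableEq I] [Fintype J]

private def hnuL (N : ℕ) (a : J → ℤ) (b : I → ℤ) (β : ℤ) (m s : ℕ) (δ : ℤ) : ℤ :=
  ∑ S ∈ (Finset.univ : Finset J).powersetCard m, ∑ T : Sym (Option I) s,
    (mon N (δ - ∑ j ∈ S, a j + ((T : Multiset (Option I)).map (oext b β)).sum + ∑ i, b i) : ℤ)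

private def hnuF (N : ℕ) (a : J → ℤ) (b : I → ℤ) (m s : ℕ) (δ : ℤ) : ℤ :=
  ∑ S ∈ (Finset.univ : Finset J).powersetCard m, ∑ T : Sym I s,
    (mon N (δ - ∑ j ∈ S, a j + ((T : Multiset I).map b).sum + ∑ i, b i) : ℤ)

private theorem hnuL_succ (N : ℕ) (a : J → ℤ) (b : I → ℤ) (β : ℤ) (m s : ℕ) (δ : ℤ) :
    hnuL N a b β m (s + 1) δ = hnuL N a b β m s (δ + β) + hnuF N a b m (s + 1) δ := by
  unfold hnuL hnuF
  rw [← Finset.sum_add_distrib]
  refine Finset.sum_congr rfl fun S _ => ?_
  rw [← (symOptionSuccEquiv (α := I) (n := s)).symm.sum_comp, Fintype.sum_sum_type]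
  congr 1
  · refine Finset.sum_congr rfl fun T _ => ?_
    have h : (((symOptionSuccEquiv (α := I) (n := s)).symm (Sum.inl T) :
        Sym (Option I) (s + 1)) : Multiset (Option I)) = none ::ₘ (T : Multiset (Option I)) := rfl
    rw [h, Multiset.map_cons, Multiset.sum_cons]
    congr 2
    show _ = _
    simp only [oext, Option.elim]
    ring
  · refine Finset.sum_congr rfl fun T _ => ?_
    have h : (((symOptionSuccEquiv (α := I) (n := s)).symm (Sum.inr T) :
        Sym (Option I) (s + 1)) : Multiset (Option I)) = (T : Multiset I).map some := rfl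
    rw [h, Multiset.map_map]
    rfl

private theorem hnuL_zero (N : ℕ) (a : J → ℤ) (b : I → ℤ) (β : ℤ) (m : ℕ) (δ : ℤ) :
    hnuL N a b β m 0 δ = hnuF N a b m 0 δ := by
  unfold hnuL hnuF
  refine Finset.sum_congr rfl fun S _ => ?_
  have h1 : (Finset.univ : Finset (Sym I 0)) = {Sym.nil} :=
    Finset.eq_singleton_iff_unique_mem.mpr ⟨Finset.mem_univ _, fun x _ => Sym.eq_nil_of_card_zero x⟩
  have h2 : (Finset.univ : Finset (Sym (Option I) 0)) = {Sym.nil} :=
    Finset.eq_singleton_iff_unique_mem.mpr ⟨Finset.mem_univ _, fun x _ => Sym.eq_nil_of_card_zero x⟩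
  rw [h1, h2, Finset.sum_singleton, Finset.sum_singleton]
  rfl

private theorem hnuL_gt (N : ℕ) (a : J → ℤ) (b : I → ℤ) (β : ℤ) (m s : ℕ) (δ : ℤ)
    (h : Fintype.card J < m) : hnuL N a b β m s δ = 0 := by
  unfold hnuL
  rw [Finset.powersetCard_eq_empty.mpr (by rwa [Finset.card_univ]), Finset.sum_empty]

private theorem hnuF_gt (N : ℕ) (a : J → ℤ) (b : I → ℤ) (m s : ℕ) (δ : ℤ)
    (h : Fintype.card J < m) : hnuF N a b m s δ = 0 := by
  unfold hnuF
  rw [Finset.powersetCard_eq_empty.mpr (by rwa [Finset.card_univ]), Finset.sum_empty]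

private theorem hnu_opt [DecidableEq J] (m : ℕ) (f : Finset (Option J) → ℤ) :
    ∑ S ∈ (Finset.univ : Finset (Option J)).powersetCard (m + 1), f S =
      ∑ S ∈ (Finset.univ : Finset J).powersetCard (m + 1), f (S.map Function.Embedding.some) +
      ∑ S ∈ (Finset.univ : Finset J).powersetCard m, f (insert none (S.map Function.Embedding.some)) := by
  have h0 : (Finset.univ : Finset (Option J)) =
      insert none ((Finset.univ : Finset J).map Function.Embedding.some) := by
    ext x
    cases x <;> simp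
  have hn : ∀ S : Finset J, none ∉ S.map Function.Embedding.some := by
    intro S
    simp
  rw [h0, Finset.powersetCard_succ_insert (hn _), Finset.sum_union, Finset.powersetCard_map,
    Finset.powersetCard_map, Finset.sum_map, Finset.sum_image, Finset.sum_map]
  · rfl
  · intro x hx y hy hxy
    have h1 := hn
    simp only [Finset.coe_map, Set.mem_image] at hx hy
    obtain ⟨x, -, rfl⟩ := hx
    obtain ⟨y, -, rfl⟩ := hy
    have := congrArg (fun z => Finset.erase z none) hxy
    simpa [Finset.erase_insert (hn x), Finset.erase_insert (hn y)] using this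
  · rw [Finset.disjoint_left]
    intro x hx hx'
    rw [Finset.mem_image] at hx'
    obtain ⟨y, -, rfl⟩ := hx'
    rw [Finset.mem_powersetCard] at hx
    exact hn _ (hx.1 (Finset.mem_insert_self _ _))

private theorem hnu_R (N : ℕ) (a : J → ℤ) (b : I → ℤ) (d : ℤ) :
    Hnum N a b d = ∑ s ∈ Finset.range (Fintype.card J),
      (-1) ^ s * hnuF N a b (Fintype.card I + 1 + s) s d := by
  unfold Hnum hnuF
  refine Finset.sum_congr rfl fun s _ => ?_
  rw [Finset.mul_sum]
  refine Finset.sum_congr rfl fun S _ => ?_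
  rw [Finset.mul_sum, Finset.sym_univ]

private theorem hnu_Lf [DecidableEq J] (N : ℕ) (a : J → ℤ) (b : I → ℤ) (β d : ℤ) :
    Hnum N (oext a β) (oext b β) d = ∑ s ∈ Finset.range (Fintype.card J + 1),
      (-1) ^ s * (hnuL N a b β (Fintype.card I + 1 + s + 1) s (d + β) +
        hnuL N a b β (Fintype.card I + 1 + s) s d) := by
  unfold Hnum hnuL
  rw [Fintype.card_option, Fintype.card_option]
  refine Finset.sum_congr rfl fun s _ => ?_
  rw [show Fintype.card I + 1 + 1 + s = (Fintype.card I + 1 + s) + 1 by ring, hnu_opt, mul_add,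
    Finset.mul_sum, Finset.mul_sum]
  congr 1
  · refine Finset.sum_congr rfl fun S _ => ?_
    rw [Finset.mul_sum, Finset.sym_univ]
    refine Finset.sum_congr rfl fun T _ => ?_
    rw [Finset.sum_map, Fintype.sum_option]
    congr 3
    simp only [oext, Option.elim, Function.Embedding.some_apply]
    ring
  · refine Finset.sum_congr rfl fun S _ => ?_
    rw [Finset.mul_sum, Finset.sym_univ]
    refine Finset.sum_congr rfl fun T _ => ?_
    rw [Finset.sum_insert (by simp), Finset.sum_map, Fintype.sum_option]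
    congr 3
    simp only [oext, Option.elim, Function.Embedding.some_apply]
    ring

private theorem hnu_tel (x y F : ℕ → ℤ) (h0 : y 0 = F 0) (h1 : ∀ s, y (s + 1) = x s + F (s + 1))
    (M : ℕ) : ∑ s ∈ Finset.range (M + 1), (-1) ^ s * (x s + y s) =
      ∑ s ∈ Finset.range (M + 1), (-1) ^ s * F s + (-1) ^ M * x M := by
  induction M with
  | zero => simp [h0]; ring
  | succ M ih =>
    rw [Finset.sum_range_succ, ih, Finset.sum_range_succ _ (M + 1), h1]
    ring

end hnu

/-- [hnu] -/
theorem p_hnu : S_hnu := by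
  intro N I J _ _ _ _ a b β d
  rw [hnu_Lf, hnu_R, hnu_tel (fun s => hnuL N a b β (Fintype.card I + 1 + s + 1) s (d + β))
    (fun s => hnuL N a b β (Fintype.card I + 1 + s) s d)
    (fun s => hnuF N a b (Fintype.card I + 1 + s) s d) (hnuL_zero ..)
    (fun s => hnuL_succ ..), Finset.sum_range_succ]
  rw [hnuL_gt _ _ _ _ _ _ _ (by omega), hnuF_gt _ _ _ _ _ _ (by omega)]
  ring

end Pool.Agent.Lib.MP_09338f_ag
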