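import Mathlib
import Pool.Agent.Lib.MP_09338f_ag.KM.Stm3

/-!
# MP_09338f_ag, project KM, piece hp2: `HP` for two rows of the same degree
-/

set_option autoImplicit false

open MvPolynomial Matrix

universe u

namespace Pool.Agent.Lib.MP_09338f_ag

theorem hp2_homog {N : ℕ} {K : Type u} [Field K] {d : ℤ} {e : ℕ}
    {F : MvPolynomial (Fin N) K} (hF : HomD d F) (he : (e : ℤ) = d) : F.IsHomogeneous e := by
  intro m hm
  have h1 := hF m (mem_support_iff.2 hm)
  rw [← he] at h1
  have h2 : m.degree = e := by exact_mod_cast h1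
  rw [← h2, Finsupp.degree_eq_weight_one]
  rfl

theorem hp2_mul {N : ℕ} {K : Type u} [Field K] (e n : ℕ) (a b : MvPolynomial (Fin N) K)
    (hb : b.IsHomogeneous e) :
    homogeneousComponent n (a * b) = if e ≤ n then homogeneousComponent (n - e) a * b else 0 := by
  let : GradedAlgebra (homogeneousSubmodule (Fin N) K) := MvPolynomial.gradedAlgebra
  have h := DirectSum.coe_decompose_mul_of_right_mem (homogeneousSubmodule (Fin N) K) n
    (a := a) (b := b) (i := e) hb
  have h1 : ∀ (p : MvPolynomial (Fin N) K) (i : ℕ),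
      ((DirectSum.decompose (homogeneousSubmodule (Fin N) K) p i :
        homogeneousSubmodule (Fin N) K i) : MvPolynomial (Fin N) K) = homogeneousComponent i p :=
    fun p i => decomposition.decompose'_apply p i
  rw [h1, h1] at h
  exact h

theorem hp2_const {N : ℕ} {K : Type u} [Field K] {d : ℤ} {F : MvPolynomial (Fin N) K}
    (hF : HomD d F) (hd : 0 < d) : constantCoeff F = 0 := by
  by_contra h
  have h1 : (0 : Fin N →₀ ℕ) ∈ F.support := by
    rw [mem_support_iff]
    exact h
  have h2 := hF 0 h1
  simp at h2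
  omega

/-- A linear relation between homogeneous forms may be taken homogeneous. -/
theorem hp2_rel {N : ℕ} {K : Type u} [Field K] {J : Type} [Fintype J] (G : J → MvPolynomial (Fin N) K)
    (g : J → ℤ) (β : ℤ) (hg : ∀ j, HomD (g j - β) (G j)) (hgβ : ∀ j, β < g j)
    (F : MvPolynomial (Fin N) K) (f : ℤ) (hF : HomD (f - β) F) (hf : β < f) (κ : K)
    (h : MvPolynomial.C κ * F ∈ Ideal.span (Set.range G)) :
    ∃ c : J → MvPolynomial (Fin N) K, ∑ j, c j * G j = MvPolynomial.C κ * F ∧
      (∀ j, f < g j → c j = 0) ∧ (∀ j, f = g j → ∃ c' : K, c j = MvPolynomial.C c') := by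
  obtain ⟨c, hc⟩ := Ideal.mem_span_range_iff_exists_fun.1 h
  obtain ⟨n, hn⟩ : ∃ n : ℕ, (n : ℤ) = f - β := ⟨(f - β).toNat, by omega⟩
  have he : ∀ j, ∃ e : ℕ, (e : ℤ) = g j - β := fun j => ⟨(g j - β).toNat, by
    have := hgβ j
    omega⟩
  choose e he using he
  refine ⟨fun j => if e j ≤ n then homogeneousComponent (n - e j) (c j) else 0, ?_, ?_, ?_⟩
  · have h1 := congrArg (homogeneousComponent n) hc
    rw [map_sum, homogeneousComponent_C_mul, homogeneousComponent_eq_self (hp2_homog hF hn)] at h1
    rw [← h1]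
    refine Finset.sum_congr rfl fun j _ => ?_
    rw [hp2_mul (e j) n _ _ (hp2_homog (hg j) (he j))]
    dsimp only
    split_ifs
    · rfl
    · rw [zero_mul]
  · intro j hj
    have := he j
    exact if_neg (by omega)
  · intro j hj
    have h2 : e j = n := by
      have := he j
      omega
    refine ⟨coeff 0 (c j), ?_⟩
    have h3 : e j ≤ n := by omega
    show (if e j ≤ n then homogeneousComponent (n - e j) (c j) else 0) = _
    rw [if_pos h3, h2, Nat.sub_self, homogeneousComponent_zero]

/-- The matrix `((C s (v j))_j, C none j₁)` is generic. -/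
theorem hp2_gen {N : ℕ} {k K : Type u} [Field k] [Field K] [Algebra k K] {J1 J' : Type}
    {a1 : J1 → ℤ} {β : ℤ} {C : Matrix (Option Unit) J1 (MvPolynomial (Fin N) K)}
    {W : Matrix (Option Unit) Unit (MvPolynomial (Fin N) K)}
    (hGen : Gen k (Sum.elim a1 fun _ : Unit => β) (fun _ : Option Unit => β) (Matrix.fromCols C W))
    (v : J' → J1) (hv : Function.Injective v) (j₁ : J1) :
    Gen k (oext (a1 ∘ v) (a1 j₁)) (fun _ : Unit => β)
      (addCol (Matrix.of fun (_ : Unit) j => C (some ()) (v j)) fun _ => C none j₁) := by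
  constructor
  · intro i j
    cases j with
    | none => exact hGen.1 none (Sum.inl j₁)
    | some j => exact hGen.1 (some ()) (Sum.inl (v j))
  · have hdeg : ∀ p : Coef N (oext (a1 ∘ v) (a1 j₁)) (fun _ : Unit => β),
        ((p.1.2.2.degree : ℕ) : ℤ) = Sum.elim a1 (fun _ : Unit => β)
          (p.1.2.1.elim (Sum.inl j₁) fun j => Sum.inl (v j)) - β := by
      rintro ⟨⟨i, j, m⟩, h⟩
      cases j with
      | none => exact h
      | some j => exact h
    let ι : Coef N (oext (a1 ∘ v) (a1 j₁)) (fun _ : Unit => β) →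
        Coef N (Sum.elim a1 fun _ : Unit => β) (fun _ : Option Unit => β) := fun p =>
      ⟨((p.1.2.1.elim none fun _ => some ()),
        (p.1.2.1.elim (Sum.inl j₁) fun j => Sum.inl (v j)), p.1.2.2), hdeg p⟩
    have hι : Function.Injective ι := by
      rintro ⟨⟨⟨⟩, j, m⟩, h⟩ ⟨⟨⟨⟩, j', m'⟩, h'⟩ hpp
      have h0 := congrArg Subtype.val hpp
      have h1 := congrArg Prod.fst h0
      have h2 := congrArg (fun q => q.2.1) h0
      have h3 := congrArg (fun q => q.2.2) h0
      have hm : m = m' := h3
      have hj : j = j' := by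
        cases j with
        | none =>
          cases j' with
          | none => rfl
          | some j' =>
            have h4 : (none : Option Unit) = some () := h1
            cases h4
        | some j =>
          cases j' with
          | none =>
            have h4 : some () = (none : Option Unit) := h1
            cases h4
          | some j' =>
            have h4 : (Sum.inl (v j) : J1 ⊕ Unit) = Sum.inl (v j') := h2
            rw [hv (Sum.inl.inj h4)]
      subst hm hj
      rfl
    have h1 := hGen.2.comp ι hι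
    have h2 : (fun p : Coef N (oext (a1 ∘ v) (a1 j₁)) (fun _ : Unit => β) =>
        ((addCol (Matrix.of fun (_ : Unit) j => C (some ()) (v j)) fun _ => C none j₁)
          p.1.1 p.1.2.1).coeff p.1.2.2) =
        (fun p : Coef N (Sum.elim a1 fun _ : Unit => β) (fun _ : Option Unit => β) =>
          ((Matrix.fromCols C W) p.1.1 p.1.2.1).coeff p.1.2.2) ∘ ι := by
      funext p
      obtain ⟨⟨i, j, m⟩, h⟩ := p
      cases j with
      | none => rfl
      | some j => rfl
    rw [h2]
    exact h1

/-- The core: enough columns to spare. -/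
theorem hp2_core (h_ann : S_ann.{u}) (h_e1a : S_e1a.{u}) {N : ℕ} {k K : Type u} [Field k]
    [Field K] [Algebra k K] {J1 J' : Type} [Fintype J'] [DecidableEq J']
    {a1 : J1 → ℤ} {β : ℤ} (hβ : ∀ j, β < a1 j)
    {C : Matrix (Option Unit) J1 (MvPolynomial (Fin N) K)}
    {W : Matrix (Option Unit) Unit (MvPolynomial (Fin N) K)}
    (hGen : Gen k (Sum.elim a1 fun _ : Unit => β) (fun _ : Option Unit => β) (Matrix.fromCols C W))
    (v : J' → J1) (hv : Function.Injective v) (j₁ : J1) (hN : Fintype.card J' + 1 ≤ N) (κ : K)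
    (h : MvPolynomial.C κ * C none j₁ ∈ Ideal.span (Set.range fun j => C (some ()) (v j))) :
    κ = 0 := by
  have hg := hp2_gen hGen v hv j₁
  set A' : Matrix Unit J' (MvPolynomial (Fin N) K) := Matrix.of fun (_ : Unit) j => C (some ()) (v j)
    with hA'
  have hEx : Ex1 (addCol A' fun _ => C none j₁) := by
    refine h_e1a N Unit (Option J') _ _ ?_ ?_ ?_ k K _ hg
    · rw [Fintype.card_option]; simp
    · rw [Fintype.card_option]; simp; omega
    · intro i
      have h0 : (Finset.univ.filter fun j : Option J' => oext (a1 ∘ v) (a1 j₁) j < β) = ∅ := by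
        rw [Finset.filter_eq_empty_iff]
        intro j _ hj
        cases j with
        | none => exact absurd hj (not_lt.2 (hβ j₁).le)
        | some j => exact absurd hj (not_lt.2 (hβ (v j)).le)
      rw [h0]
      simp
  have hmem : (MvPolynomial.C κ : MvPolynomial (Fin N) K) • (fun _ : Unit => C none j₁) ∈ Im A' := by
    obtain ⟨c, hc⟩ := Ideal.mem_span_range_iff_exists_fun.1 h
    refine ⟨c, ?_⟩
    funext i
    rw [Matrix.mulVecLin_apply, Matrix.mulVec, dotProduct, Pi.smul_apply, smul_eq_mul, ← hc]
    exact Finset.sum_congr rfl fun j _ => mul_comm _ _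
  have h1 := h_ann (MvPolynomial (Fin N) K) Unit J' A' (fun _ => C none j₁) hEx _ hmem
  have h2 : mins A' ≤ RingHom.ker (constantCoeff : MvPolynomial (Fin N) K →+* K) := by
    rw [mins, Ideal.span_le]
    rintro _ ⟨e, rfl⟩
    rw [SetLike.mem_coe, RingHom.mem_ker]
    show constantCoeff ((A'.submatrix id e).det) = 0
    rw [Matrix.det_unique]
    exact hp2_const (hGen.1 (some ()) (Sum.inl (v (e default)))) (by
      have := hβ (v (e default))
      show 0 < a1 (v (e default)) - β
      omega)
  have h3 := h2 h1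
  rw [RingHom.mem_ker, constantCoeff_C] at h3
  exact h3

theorem hp2_cd {J1 : Type} [Fintype J1] {a1 : J1 → ℤ} {β : ℤ} (hβ : ∀ j, β < a1 j) :
    CD1 a1 fun _ : Unit => β := by
  intro i
  have h0 : (Finset.univ.filter fun j : J1 => a1 j < β) = ∅ := by
    rw [Finset.filter_eq_empty_iff]
    intro j _ hj
    exact absurd hj (not_lt.2 (hβ j).le)
  rw [h0]
  simp

/-- `HomM` for the special matrix. -/
theorem hp2_hom {N : ℕ} {K : Type u} [Field K] {J1 : Type} {a1 : J1 → ℤ} {β : ℤ}
    {C : Matrix (Option Unit) J1 (MvPolynomial (Fin N) K)}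
    (hC : HomM a1 (fun _ => β) C) :
    HomM (Sum.elim a1 fun _ : Unit => β) (fun _ : Option Unit => β)
      (Matrix.fromCols C (Matrix.of fun i (_ : Unit) => (Pi.single none 1 :
        Option Unit → MvPolynomial (Fin N) K) i)) := by
  intro i q
  cases q with
  | inl j => exact hC i j
  | inr j =>
    intro m hm
    have h1 : m ∈ (Pi.single (M := fun _ : Option Unit => MvPolynomial (Fin N) K) none 1 i).support := hm
    show ((m.degree : ℕ) : ℤ) = β - β
    rw [sub_self]
    cases i with
    | none =>
      rw [Pi.single_eq_same, mem_support_iff, coeff_one] at h1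
      have h2 : m = 0 := by
        by_contra h3
        rw [if_neg (fun h4 => h3 h4.symm)] at h1
        exact h1 rfl
      rw [h2]
      simp
    | some i =>
      rw [Pi.single_eq_of_ne (by simp), support_zero] at h1
      simp at h1

/-- `Ex1` for the special matrix. -/
theorem hp2_ex (h_e1a : S_e1a.{u}) (h_e1u : S_e1u.{u}) (h_rx : S_rx.{u}) (h_gs : S_gs.{u}) {N : ℕ}
    {k K : Type u} [Field k] [Field K] [Algebra k K] {J1 : Type} [Fintype J1] [DecidableEq J1]
    {a1 : J1 → ℤ} {β : ℤ} (hβ : ∀ j, β < a1 j) (h1J : 1 ≤ Fintype.card J1)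
    (hJN : Fintype.card J1 ≤ N)
    {C : Matrix (Option Unit) J1 (MvPolynomial (Fin N) K)}
    {W : Matrix (Option Unit) Unit (MvPolynomial (Fin N) K)}
    (hGen : Gen k (Sum.elim a1 fun _ : Unit => β) (fun _ : Option Unit => β) (Matrix.fromCols C W)) :
    Ex1 (Matrix.fromCols C (Matrix.of fun i (_ : Unit) => (Pi.single none 1 :
        Option Unit → MvPolynomial (Fin N) K) i)) := by
  have h1 := (h_gs k K (Option Unit) (J1 ⊕ Unit) (Sum.elim a1 fun _ : Unit => β)
    (fun _ : Option Unit => β)).1 N (Matrix.fromCols C W) hGen Unit J1 some Sum.inl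
      (Option.some_injective _) Sum.inl_injective
  have h2 : Gen k a1 (fun _ : Unit => β) (C.submatrix some id) := h1
  have h3 : Ex1 (C.submatrix some id) := by
    refine h_e1a N Unit J1 a1 (fun _ => β) ?_ ?_ (hp2_cd hβ) k K _ h2
    · rw [Fintype.card_unit]
      exact h1J
    · rw [Fintype.card_unit]
      omega
  have h4 := h_e1u (MvPolynomial (Fin N) K) Unit J1 (C.submatrix some id) (C none) h3
  have h5 : addRow (C.submatrix some id) (C none) = C := by
    funext i j
    cases i with
    | none => rfl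
    | some i => rfl
  rw [h5] at h4
  have h6 := (h_rx (MvPolynomial (Fin N) K) (Option Unit) (Option J1) (Option Unit) (J1 ⊕ Unit)
    (Equiv.refl _) (Equiv.optionEquivSumPUnit J1).symm (addCol C (Pi.single none 1))).2.2.1.2 h4
  have h7 : (addCol C (Pi.single none 1)).submatrix (Equiv.refl _)
      (Equiv.optionEquivSumPUnit J1).symm = (Matrix.fromCols C (Matrix.of fun i (_ : Unit) =>
        (Pi.single none 1 : Option Unit → MvPolynomial (Fin N) K) i)) := by
    funext i q
    cases q with
    | inl j => rfl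
    | inr j => rfl
  rw [h7] at h6
  exact h6

/-- Case (i): the degrees are not all equal. -/
theorem hp2_case1 (h_ann : S_ann.{u}) (h_e1a : S_e1a.{u}) {N : ℕ} {k K : Type u} [Field k]
    [Field K] [Algebra k K] {J1 : Type} [Fintype J1] [DecidableEq J1]
    {a1 : J1 → ℤ} {β : ℤ} (hβ : ∀ j, β < a1 j) (hJN : Fintype.card J1 ≤ N)
    {C : Matrix (Option Unit) J1 (MvPolynomial (Fin N) K)}
    {W : Matrix (Option Unit) Unit (MvPolynomial (Fin N) K)}
    (hGen : Gen k (Sum.elim a1 fun _ : Unit => β) (fun _ : Option Unit => β) (Matrix.fromCols C W))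
    (j₁ j' : J1) (hlt : a1 j₁ < a1 j') (κ : K)
    (h : MvPolynomial.C κ * C none j₁ ∈ Ideal.span (Set.range fun j => C (some ()) j)) :
    κ = 0 := by
  obtain ⟨c, hc1, hc2, -⟩ := hp2_rel (fun j => C (some ()) j) a1 β
    (fun j => hGen.1 (some ()) (Sum.inl j)) hβ (C none j₁) (a1 j₁) (hGen.1 none (Sum.inl j₁)) (hβ j₁)
    κ h
  have h1 : MvPolynomial.C κ * C none j₁ ∈
      Ideal.span (Set.range fun j : {j : J1 // j ≠ j'} => C (some ()) j.1) := by
    rw [← hc1]
    refine Ideal.sum_mem _ fun j _ => ?_
    by_cases hj : j = j'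
    · rw [hj, hc2 j' hlt, zero_mul]
      exact Ideal.zero_mem _
    · exact Ideal.mul_mem_left _ _ (Ideal.subset_span ⟨⟨j, hj⟩, rfl⟩)
  have h2 : Fintype.card {j : J1 // j ≠ j'} < Fintype.card J1 :=
    Fintype.card_subtype_lt (x := j') (by simp)
  exact hp2_core h_ann h_e1a hβ hGen (fun j : {j : J1 // j ≠ j'} => j.1) Subtype.val_injective j₁
    (by omega) κ h1

/-- The monomials of case (ii). -/
theorem hp2_mons {N : ℕ} {J1 : Type} [Fintype J1] (h3 : 3 ≤ Fintype.card J1)
    (hJN : Fintype.card J1 ≤ N) (d : ℕ) (hd : 2 ≤ d) :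
    ∃ μ : Option J1 → (Fin N →₀ ℕ), Function.Injective μ ∧ ∀ p, (μ p).degree = d := by
  obtain ⟨φ⟩ : Nonempty (J1 ↪ Fin N) :=
    Function.Embedding.nonempty_of_card_le (by rw [Fintype.card_fin]; exact hJN)
  have hN : 3 ≤ N := h3.trans hJN
  let z : Fin N := ⟨0, by omega⟩
  let y : Fin N := ⟨1, by omega⟩
  have hzy : z ≠ y := by
    intro h
    have := congrArg Fin.val h
    simp [z, y] at this
  refine ⟨fun p => p.elim (Finsupp.single y 2 + Finsupp.single z (d - 2))
    fun j => Finsupp.single (φ j) 1 + Finsupp.single z (d - 1), ?_, ?_⟩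
  · have hkey : ∀ j : J1, (Finsupp.single y 2 + Finsupp.single z (d - 2) : Fin N →₀ ℕ) ≠
        Finsupp.single (φ j) 1 + Finsupp.single z (d - 1) := by
      intro j h
      have h1 := DFunLike.congr_fun h z
      rw [Finsupp.add_apply, Finsupp.add_apply, Finsupp.single_eq_same, Finsupp.single_eq_same,
        Finsupp.single_apply, if_neg hzy.symm] at h1
      omega
    intro p q hpq
    cases p with
    | none =>
      cases q with
      | none => rfl
      | some q => exact absurd hpq (hkey q)
    | some p =>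
      cases q with
      | none => exact absurd hpq.symm (hkey p)
      | some q =>
        have h1 : (Finsupp.single (φ p) 1 + Finsupp.single z (d - 1) : Fin N →₀ ℕ) =
          Finsupp.single (φ q) 1 + Finsupp.single z (d - 1) := hpq
        have h2 := add_right_cancel h1
        have h3 := (Finsupp.single_left_inj one_ne_zero).1 h2
        rw [φ.injective h3]
  · intro p
    cases p with
    | none =>
      show (Finsupp.single y 2 + Finsupp.single z (d - 2) : Fin N →₀ ℕ).degree = d
      rw [map_add, Finsupp.degree_single, Finsupp.degree_single]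
      omega
    | some j =>
      show (Finsupp.single (φ j) 1 + Finsupp.single z (d - 1) : Fin N →₀ ℕ).degree = d
      rw [map_add, Finsupp.degree_single, Finsupp.degree_single]
      omega

/-- Case (ii): all the degrees are equal, at least `β + 2`. -/
theorem hp2_case2 {N : ℕ} {k K : Type u} [Field k]
    [Field K] [Algebra k K] {J1 : Type} [Fintype J1] [DecidableEq J1]
    {a1 : J1 → ℤ} {β : ℤ} (h3 : 3 ≤ Fintype.card J1) (hJN : Fintype.card J1 ≤ N) (d : ℕ)
    (hd : 2 ≤ d) (ha : ∀ j, a1 j - β = d)
    {C : Matrix (Option Unit) J1 (MvPolynomial (Fin N) K)}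
    {W : Matrix (Option Unit) Unit (MvPolynomial (Fin N) K)}
    (hGen : Gen k (Sum.elim a1 fun _ : Unit => β) (fun _ : Option Unit => β) (Matrix.fromCols C W))
    (j₁ : J1) (κ : K)
    (h : MvPolynomial.C κ * C none j₁ ∈ Ideal.span (Set.range fun j => C (some ()) j)) :
    κ = 0 := by
  have hβ : ∀ j, β < a1 j := fun j => by
    have := ha j
    omega
  obtain ⟨c, hc1, -, hc2⟩ := hp2_rel (fun j => C (some ()) j) a1 β
    (fun j => hGen.1 (some ()) (Sum.inl j)) hβ (C none j₁) (a1 j₁) (hGen.1 none (Sum.inl j₁)) (hβ j₁)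
    κ h
  have hc3 : ∀ j, ∃ c' : K, c j = MvPolynomial.C c' := fun j => hc2 j (by
    have := ha j
    have := ha j₁
    omega)
  choose c' hc' using hc3
  obtain ⟨μ, hμ1, hμ2⟩ := hp2_mons h3 hJN d hd
  let M : Matrix (Option J1) (Option J1) K := Matrix.of fun q p =>
    coeff (μ p) (q.elim (C none j₁) fun j => C (some ()) j)
  have hM : M.det ≠ 0 := by
    let ι : Option J1 × Option J1 →
        Coef N (Sum.elim a1 fun _ : Unit => β) (fun _ : Option Unit => β) := fun x =>
      ⟨((x.1.elim none fun _ => some ()), (x.1.elim (Sum.inl j₁) fun j => Sum.inl j), μ x.2), by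
        obtain ⟨q, p⟩ := x
        cases q with
        | none =>
          show (((μ p).degree : ℕ) : ℤ) = a1 j₁ - β
          rw [hμ2, ha]
        | some j =>
          show (((μ p).degree : ℕ) : ℤ) = a1 j - β
          rw [hμ2, ha]⟩
    have hι : Function.Injective ι := by
      rintro ⟨q, p⟩ ⟨q', p'⟩ hpp
      have h0 := congrArg Subtype.val hpp
      have h1 := congrArg Prod.fst h0
      have h2 := congrArg (fun q => q.2.1) h0
      have h3 := congrArg (fun q => q.2.2) h0
      have hp : p = p' := hμ1 h3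
      have hq : q = q' := by
        cases q with
        | none =>
          cases q' with
          | none => rfl
          | some j' =>
            have h4 : (none : Option Unit) = some () := h1
            cases h4
        | some j =>
          cases q' with
          | none =>
            have h4 : some () = (none : Option Unit) := h1
            cases h4
          | some j' =>
            have h4 : (Sum.inl j : J1 ⊕ Unit) = Sum.inl j' := h2
            rw [Sum.inl.inj h4]
      rw [hp, hq]
    have h1 := hGen.2.comp ι hι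
    have h2 : (fun x : Option J1 × Option J1 => M x.1 x.2) =
        (fun p : Coef N (Sum.elim a1 fun _ : Unit => β) (fun _ : Option Unit => β) =>
          ((Matrix.fromCols C W) p.1.1 p.1.2.1).coeff p.1.2.2) ∘ ι := by
      funext x
      obtain ⟨q, p⟩ := x
      cases q with
      | none => rfl
      | some j => rfl
    rw [← h2] at h1
    have h4 : Function.Injective (aeval (R := k) fun x : Option J1 × Option J1 => M x.1 x.2) := h1
    have h5 := Matrix.mvPolynomialX_mapMatrix_aeval k M
    intro h6
    rw [← h5, ← AlgHom.map_det] at h6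
    have h7 : (Matrix.mvPolynomialX (Option J1) (Option J1) k).det = 0 := h4 (h6.trans (map_zero _).symm)
    exact Matrix.det_mvPolynomialX_ne_zero (Option J1) k h7
  have hv : Matrix.vecMul (fun q : Option J1 => q.elim κ fun j => - c' j) M = 0 := by
    funext p
    have h1 := congrArg (coeff (μ p)) hc1
    rw [coeff_sum, coeff_C_mul] at h1
    rw [Matrix.vecMul, dotProduct, Fintype.sum_option]
    show κ * coeff (μ p) (C none j₁) + ∑ j, - c' j * coeff (μ p) (C (some ()) j) = 0
    rw [← h1, ← Finset.sum_add_distrib]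
    refine Finset.sum_eq_zero fun j _ => ?_
    rw [hc', coeff_C_mul]
    ring
  have h8 := Matrix.eq_zero_of_vecMul_eq_zero hM hv
  exact congrFun h8 none

theorem p_hp2 (h_hpd : S_hpd.{u}) (h_spp : S_spp.{u}) (h_ann : S_ann.{u}) (h_e1a : S_e1a.{u})
    (h_e1u : S_e1u.{u}) (h_rx : S_rx.{u}) (h_gm : S_gm.{u}) (h_gs : S_gs.{u}) : S_hp2.{u} := by
  intro N J1 _ _ a1 β h3 hβ halt k K _ _ _ C W hGen
  have hJN : Fintype.card J1 ≤ N := by
    rcases halt with h | h
    · omega
    · exact h.1
  have hHom := hp2_hom (a1 := a1) (β := β) (C := C) fun i j => hGen.1 i (Sum.inl j)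
  have hEx := hp2_ex h_e1a h_e1u h_rx h_gs hβ (by omega) hJN hGen
  have hκ : ∃ j₁ : J1, ∀ κ : K, MvPolynomial.C κ * C none j₁ ∈
      Ideal.span (Set.range fun j => C (some ()) j) → κ = 0 := by
    have hne : Nonempty J1 := Fintype.card_pos_iff.1 (by omega)
    by_cases hlt : ∃ j₁ j' : J1, a1 j₁ < a1 j'
    · obtain ⟨j₁, j', hlt⟩ := hlt
      exact ⟨j₁, hp2_case1 h_ann h_e1a hβ hJN hGen j₁ j' hlt⟩
    · push Not at hlt
      obtain ⟨j₁⟩ := hne
      refine ⟨j₁, ?_⟩
      rcases halt with h0 | ⟨-, j0, hj0⟩
      · exact fun κ h => hp2_core h_ann h_e1a hβ hGen id Function.injective_id j₁ h0 κ h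
      · refine hp2_case2 h3 hJN (a1 j0 - β).toNat (by omega) (fun j => ?_) hGen j₁
        have h5 := hlt j j0
        have h6 := hlt j0 j
        have h7 := hβ j0
        omega
  obtain ⟨j₁, hj₁⟩ := hκ
  exact h_spp k K K (Option Unit) J1 Unit N a1 (fun _ => β) (fun _ => β) C _ C W hHom
    (fun j x _ hx => hEx x hx) (h_hpd K N J1 β C j₁ hj₁) hGen

end Pool.Agent.Lib.MP_09338f_ag
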