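import Pool.Agent.Lib.MP_09338f_ag.KM.Stm3

/-!
# MP_09338f_ag, project KM, piece hp3: `HP` for three rows, linear entries, constant `W`
-/

set_option autoImplicit false

open MvPolynomial Matrix

universe u

namespace Pool.Agent.Lib.MP_09338f_ag

/-- the variable in the place `(i, j)` of the special matrix -/
private def hp3_g (c N : ℕ) (hc : 3 ≤ c) (hN : c ≤ N) (i : Fin 3) (j : Fin (c + 1)) :
    Option (Fin N) :=
  if i = 0 then (if h : j.val < c then some ⟨j.val, by omega⟩ else none)
  else if i = 1 then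
    (if j.val = 0 then some ⟨2, by omega⟩ else if j.val = 1 then some ⟨0, by omega⟩ else
      if j.val = 2 then some ⟨1, by omega⟩ else if j.val = c then some ⟨0, by omega⟩ else none)
  else (if j.val = c then some ⟨2, by omega⟩ else none)

/-- the special matrix -/
private noncomputable def hp3_C (k : Type u) [Field k] (c N : ℕ) (hc : 3 ≤ c) (hN : c ≤ N) :
    Matrix (Fin 3) (Fin (c + 1)) (MvPolynomial (Fin N) k) := fun i j =>
  (hp3_g c N hc hN i j).elim 0 X

/-- the special column -/
private noncomputable def hp3_W (k : Type u) [Field k] (N : ℕ) :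
    Matrix (Fin 3) Unit (MvPolynomial (Fin N) k) := fun i _ => if i = 2 then 1 else 0

private theorem hp3_co {k : Type u} [Field k] {N : ℕ} (A : MvPolynomial (Fin N) k)
    (o : Option (Fin N)) (m : Fin N) :
    coeff (Finsupp.single m 1) (o.elim 0 X * A) = if o = some m then coeff 0 A else 0 := by
  classical
  cases o with
  | none => simp
  | some p =>
    simp only [Option.elim_some, Option.some.injEq]
    rw [mul_comm, coeff_mul_X']
    by_cases h : p = m
    · subst h
      simp
    · have h' : p ∉ (Finsupp.single m 1 : Fin N →₀ ℕ).support := by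
        intro hh
        rw [Finsupp.mem_support_iff, Finsupp.single_apply] at hh
        apply hh
        rw [if_neg (fun e => h e.symm)]
      rw [if_neg h', if_neg h]

private theorem hp3_const {k : Type u} [Field k] {N : ℕ} {p : MvPolynomial (Fin N) k} {d : ℤ}
    (hd : d = 0) (h : HomD d p) : p = MvPolynomial.C (coeff 0 p) := by
  classical
  ext m
  rw [coeff_C]
  by_cases hm : (0 : Fin N →₀ ℕ) = m
  · rw [if_pos hm, hm]
  · rw [if_neg hm]
    by_contra hne
    have h1 := h m (mem_support_iff.2 hne)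
    rw [hd] at h1
    have h2 : m.degree = 0 := by exact_mod_cast h1
    rw [Finsupp.degree_eq_zero_iff] at h2
    exact hm h2.symm

/-- coefficient of `x_m` in the row `i < 2` of the product -/
private theorem hp3_row {k : Type u} [Field k] {c N : ℕ} (hc : 3 ≤ c) (hN : c ≤ N) (i : Fin 3)
    (hi : i ≠ 2) (x : Fin (c + 1) ⊕ Unit → MvPolynomial (Fin N) k) (m : Fin N) :
    coeff (Finsupp.single m 1) (∑ q, Matrix.fromCols (hp3_C k c N hc hN) (hp3_W k N) i q * x q) =
      ∑ l, if hp3_g c N hc hN i l = some m then coeff 0 (x (Sum.inl l)) else 0 := by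
  rw [Fintype.sum_sum_type]
  simp only [Matrix.fromCols_apply_inl, Matrix.fromCols_apply_inr, Finset.univ_unique,
    Finset.sum_singleton]
  have e : hp3_W k N i default = 0 := by unfold hp3_W; rw [if_neg hi]
  rw [e, zero_mul, add_zero, coeff_sum]
  refine Finset.sum_congr rfl fun l _ => ?_
  exact hp3_co _ _ _

private theorem hp3_s0 {k : Type u} [Field k] {c N : ℕ} (hc : 3 ≤ c) (hN : c ≤ N)
    (y : Fin (c + 1) → k) (m : ℕ) (hm : m < c) :
    (∑ l, if hp3_g c N hc hN 0 l = some ⟨m, by omega⟩ then y l else 0) = y ⟨m, by omega⟩ := by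
  rw [Finset.sum_eq_single (⟨m, by omega⟩ : Fin (c + 1))]
  · rw [if_pos]
    simp [hp3_g, hm]
  · intro l _ hl
    rw [if_neg]
    intro h
    apply hl
    unfold hp3_g at h
    rw [if_pos rfl] at h
    by_cases h' : l.val < c
    · rw [dif_pos h'] at h
      simp only [Option.some.injEq, Fin.mk.injEq] at h
      exact Fin.ext h
    · rw [dif_neg h'] at h
      simp at h
  · intro h
    exact absurd (Finset.mem_univ _) h

private theorem hp3_s10 {k : Type u} [Field k] {c N : ℕ} (hc : 3 ≤ c) (hN : c ≤ N)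
    (y : Fin (c + 1) → k) :
    (∑ l, if hp3_g c N hc hN 1 l = some ⟨0, by omega⟩ then y l else 0) =
      y ⟨1, by omega⟩ + y ⟨c, by omega⟩ := by
  rw [Fintype.sum_eq_add (⟨1, by omega⟩ : Fin (c + 1)) ⟨c, by omega⟩]
  · rw [if_pos, if_pos]
    · unfold hp3_g
      rw [if_neg (by decide), if_pos rfl, if_neg (by simp; omega), if_neg (by simp; omega),
        if_neg (by simp; omega), if_pos rfl]
    · unfold hp3_g
      rw [if_neg (by decide), if_pos rfl, if_neg (by simp), if_pos rfl]
  · intro h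
    rw [Fin.mk.injEq] at h
    omega
  · rintro l ⟨h1, h2⟩
    rw [if_neg]
    intro h
    unfold hp3_g at h
    rw [if_neg (by decide), if_pos rfl] at h
    split_ifs at h with c0 c1 c2 c3
    · simp at h
    · exact h1 (Fin.ext c1)
    · simp at h
    · exact h2 (Fin.ext c3)

private theorem hp3_s11 {k : Type u} [Field k] {c N : ℕ} (hc : 3 ≤ c) (hN : c ≤ N)
    (y : Fin (c + 1) → k) :
    (∑ l, if hp3_g c N hc hN 1 l = some ⟨1, by omega⟩ then y l else 0) = y ⟨2, by omega⟩ := by
  rw [Finset.sum_eq_single (⟨2, by omega⟩ : Fin (c + 1))]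
  · rw [if_pos]
    unfold hp3_g
    rw [if_neg (by decide), if_pos rfl, if_neg (by simp), if_neg (by simp), if_pos rfl]
  · intro l _ hl
    rw [if_neg]
    intro h
    unfold hp3_g at h
    rw [if_neg (by decide), if_pos rfl] at h
    split_ifs at h with c0 c1 c2 c3
    · simp at h
    · simp at h
    · exact hl (Fin.ext c2)
    · simp at h
  · intro h
    exact absurd (Finset.mem_univ _) h

private theorem hp3_s12 {k : Type u} [Field k] {c N : ℕ} (hc : 3 ≤ c) (hN : c ≤ N)
    (y : Fin (c + 1) → k) :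
    (∑ l, if hp3_g c N hc hN 1 l = some ⟨2, by omega⟩ then y l else 0) = y ⟨0, by omega⟩ := by
  rw [Finset.sum_eq_single (⟨0, by omega⟩ : Fin (c + 1))]
  · rw [if_pos]
    unfold hp3_g
    rw [if_neg (by decide), if_pos rfl, if_pos rfl]
  · intro l _ hl
    rw [if_neg]
    intro h
    unfold hp3_g at h
    rw [if_neg (by decide), if_pos rfl] at h
    split_ifs at h with c0 c1 c2 c3
    · exact hl (Fin.ext c0)
    · simp at h
    · simp at h
    · simp at h
  · intro h
    exact absurd (Finset.mem_univ _) h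

/-- coefficient of `x_m` in the entry `(i, j)` of `X C` -/
private theorem hp3_lhs {k : Type u} [Field k] {c N : ℕ} (hc : 3 ≤ c) (hN : c ≤ N)
    (Y : Matrix (Fin 3) (Fin 3) (MvPolynomial (Fin N) k)) (i : Fin 3) (j : Fin (c + 1))
    (m : Fin N) :
    coeff (Finsupp.single m 1) ((Y * hp3_C k c N hc hN) i j) =
      ∑ l, if hp3_g c N hc hN l j = some m then coeff 0 (Y i l) else 0 := by
  rw [Matrix.mul_apply, coeff_sum]
  refine Finset.sum_congr rfl fun l _ => ?_
  rw [mul_comm]
  exact hp3_co _ _ _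

private theorem hp3_c0 {k : Type u} [Field k] {c N : ℕ} (hc : 3 ≤ c) (hN : c ≤ N)
    (f : Fin 3 → k) (m : Fin N) :
    (∑ l, if hp3_g c N hc hN l ⟨0, by omega⟩ = some m then f l else 0) =
      (if m.val = 0 then f 0 else 0) + (if m.val = 2 then f 1 else 0) := by
  have g0 : hp3_g c N hc hN 0 ⟨0, by omega⟩ = some ⟨0, by omega⟩ := by
    unfold hp3_g; rw [if_pos rfl, dif_pos (by simp; omega)]
  have g1 : hp3_g c N hc hN 1 ⟨0, by omega⟩ = some ⟨2, by omega⟩ := by
    unfold hp3_g; rw [if_neg (by decide), if_pos rfl, if_pos rfl]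
  have g2 : hp3_g c N hc hN 2 ⟨0, by omega⟩ = none := by
    unfold hp3_g; rw [if_neg (by decide), if_neg (by decide), if_neg (by simp; omega)]
  rw [Fin.sum_univ_three, g0, g1, g2]
  simp only [Option.some.injEq, reduceCtorEq, if_false, add_zero]
  congr 1
  · congr 1
    rw [eq_iff_iff, Fin.ext_iff]; exact eq_comm
  · congr 1
    rw [eq_iff_iff, Fin.ext_iff]; exact eq_comm

private theorem hp3_c1 {k : Type u} [Field k] {c N : ℕ} (hc : 3 ≤ c) (hN : c ≤ N)
    (f : Fin 3 → k) (m : Fin N) :
    (∑ l, if hp3_g c N hc hN l ⟨1, by omega⟩ = some m then f l else 0) =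
      (if m.val = 1 then f 0 else 0) + (if m.val = 0 then f 1 else 0) := by
  have g0 : hp3_g c N hc hN 0 ⟨1, by omega⟩ = some ⟨1, by omega⟩ := by
    unfold hp3_g; rw [if_pos rfl, dif_pos (by simp; omega)]
  have g1 : hp3_g c N hc hN 1 ⟨1, by omega⟩ = some ⟨0, by omega⟩ := by
    unfold hp3_g; rw [if_neg (by decide), if_pos rfl, if_neg (by simp), if_pos rfl]
  have g2 : hp3_g c N hc hN 2 ⟨1, by omega⟩ = none := by
    unfold hp3_g; rw [if_neg (by decide), if_neg (by decide), if_neg (by simp; omega)]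
  rw [Fin.sum_univ_three, g0, g1, g2]
  simp only [Option.some.injEq, reduceCtorEq, if_false, add_zero]
  congr 1
  · congr 1
    rw [eq_iff_iff, Fin.ext_iff]; exact eq_comm
  · congr 1
    rw [eq_iff_iff, Fin.ext_iff]; exact eq_comm

private theorem hp3_cc {k : Type u} [Field k] {c N : ℕ} (hc : 3 ≤ c) (hN : c ≤ N)
    (f : Fin 3 → k) (m : Fin N) :
    (∑ l, if hp3_g c N hc hN l ⟨c, by omega⟩ = some m then f l else 0) =
      (if m.val = 0 then f 1 else 0) + (if m.val = 2 then f 2 else 0) := by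
  have g0 : hp3_g c N hc hN 0 ⟨c, by omega⟩ = none := by
    unfold hp3_g; rw [if_pos rfl, dif_neg (by simp)]
  have g1 : hp3_g c N hc hN 1 ⟨c, by omega⟩ = some ⟨0, by omega⟩ := by
    unfold hp3_g
    rw [if_neg (by decide), if_pos rfl, if_neg (by simp; omega), if_neg (by simp; omega),
        if_neg (by simp; omega), if_pos rfl]
  have g2 : hp3_g c N hc hN 2 ⟨c, by omega⟩ = some ⟨2, by omega⟩ := by
    unfold hp3_g; rw [if_neg (by decide), if_neg (by decide), if_pos rfl]
  rw [Fin.sum_univ_three, g0, g1, g2]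
  simp only [Option.some.injEq, reduceCtorEq, if_false, zero_add]
  congr 1
  · congr 1
    rw [eq_iff_iff, Fin.ext_iff]; exact eq_comm
  · congr 1
    rw [eq_iff_iff, Fin.ext_iff]; exact eq_comm

theorem p_hp3 (h_spp : S_spp.{u}) (h_rh : S_rh.{u}) : S_hp3.{u} := by
  intro N I J1 _ _ _ _ β hI hJ hN
  obtain ⟨c, hcJ⟩ : ∃ c, Fintype.card J1 = c + 1 := ⟨Fintype.card J1 - 1, by omega⟩
  have hc : 3 ≤ c := by omega
  have hcN : c ≤ N := by omega
  have u : Fin 3 ≃ I := (Fintype.equivFinOfCardEq hI).symm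
  have v : Fin (c + 1) ≃ J1 := (Fintype.equivFinOfCardEq hcJ).symm
  refine h_rh N I J1 Unit (Fin 3) (Fin (c + 1)) Unit _ _ _ u v (Equiv.refl Unit) ?_
  intro k K _ _ _ C W hG
  refine h_spp k k K (Fin 3) (Fin (c + 1)) Unit N _ _ _ (hp3_C k c N hc hcN) (hp3_W k N) C W
    ?_ ?_ ?_ hG
  · -- homogeneous
    intro i q
    rcases q with j | j
    · intro m hm
      simp only [Matrix.fromCols_apply_inl, hp3_C] at hm
      simp only [Sum.elim_inl, Function.comp]
      cases hg : hp3_g c N hc hcN i j with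
      | none => rw [hg] at hm; simp at hm
      | some p =>
        rw [hg] at hm
        simp only [Option.elim_some] at hm
        rw [support_X, Finset.mem_singleton] at hm
        rw [hm, Finsupp.degree_single]
        push_cast; ring
    · intro m hm
      simp only [Matrix.fromCols_apply_inr, hp3_W] at hm
      simp only [Sum.elim_inr, Function.comp]
      split_ifs at hm with h
      · rw [mem_support_iff, coeff_one] at hm
        by_cases h0 : (0 : Fin N →₀ ℕ) = m
        · rw [← h0]; simp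
        · rw [if_neg h0] at hm; exact absurd rfl hm
      · simp at hm
  · -- the kernel
    intro j x hx h0
    have hr : ∀ i : Fin 3, ∑ q, Matrix.fromCols (hp3_C k c N hc hcN) (hp3_W k N) i q * x q = 0 :=
      fun i => congrFun h0 i
    have hcl : ∀ l : Fin (c + 1), x (Sum.inl l) = MvPolynomial.C (coeff 0 (x (Sum.inl l))) :=
      fun l => hp3_const (by simp [Function.comp]) (hx (Sum.inl l))
    have y0 : ∀ m : ℕ, ∀ hm : m < c, coeff 0 (x (Sum.inl ⟨m, by omega⟩)) = 0 := by
      intro m hm
      have h1 := hp3_row hc hcN 0 (by decide) x ⟨m, by omega⟩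
      rw [hr 0, hp3_s0 hc hcN (fun l => coeff 0 (x (Sum.inl l))) m hm] at h1
      rw [← h1]; simp
    have yc : coeff 0 (x (Sum.inl ⟨c, by omega⟩)) = 0 := by
      have h1 := hp3_row hc hcN 1 (by decide) x ⟨0, by omega⟩
      rw [hr 1, hp3_s10 hc hcN (fun l => coeff 0 (x (Sum.inl l)))] at h1
      have h2 := y0 1 (by omega)
      rw [h2, zero_add] at h1
      rw [← h1]; simp
    have xl : ∀ l : Fin (c + 1), x (Sum.inl l) = 0 := by
      intro l
      rw [hcl l]
      have : coeff 0 (x (Sum.inl l)) = 0 := by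
        rcases Nat.lt_or_ge l.val c with h | h
        · exact y0 l.val h
        · have e : l = ⟨c, by omega⟩ := Fin.ext (by have := l.isLt; simp; omega)
          rw [e]; exact yc
      rw [this, map_zero]
    have xr : ∀ q : Unit, x (Sum.inr q) = 0 := by
      intro q
      have h1 := hr 2
      rw [Fintype.sum_sum_type] at h1
      simp only [Matrix.fromCols_apply_inl, Matrix.fromCols_apply_inr, Finset.univ_unique,
        Finset.sum_singleton, xl, mul_zero, Finset.sum_const_zero, zero_add] at h1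
      have e : hp3_W k N 2 default = 1 := by unfold hp3_W; rw [if_pos rfl]
      rw [e, one_mul] at h1
      exact h1
    have : x = 0 := by
      funext q
      rcases q with l | l
      · exact xl l
      · exact xr l
    rw [this]
    exact Submodule.zero_mem _
  · -- HP
    intro Y hY V hV
    have hcY : ∀ i l, Y i l = MvPolynomial.C (coeff 0 (Y i l)) :=
      fun i l => hp3_const (by simp [Function.comp]) (hY i l)
    have key : ∀ (i : Fin 3), i ≠ 2 → ∀ (j : Fin (c + 1)) (m : Fin N),
        (∑ l, if hp3_g c N hc hcN l j = some m then coeff 0 (Y i l) else 0) =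
        ∑ l, if hp3_g c N hc hcN i l = some m then coeff 0 (V (Sum.inl l) j) else 0 := by
      intro i hi j m
      rw [← hp3_lhs hc hcN Y i j m, hV, Matrix.mul_apply]
      exact hp3_row hc hcN i hi (fun q => V q j) m
    -- the column 1
    have A1 := key 0 (by decide) ⟨1, by omega⟩ ⟨0, by omega⟩
    rw [hp3_c1, hp3_s0 hc hcN _ 0 (by omega)] at A1
    have A2 := key 0 (by decide) ⟨1, by omega⟩ ⟨2, by omega⟩
    rw [hp3_c1, hp3_s0 hc hcN _ 2 (by omega)] at A2
    have A3 := key 1 (by decide) ⟨1, by omega⟩ ⟨1, by omega⟩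
    rw [hp3_c1, hp3_s11] at A3
    have A4 := key 1 (by decide) ⟨1, by omega⟩ ⟨2, by omega⟩
    rw [hp3_c1, hp3_s12] at A4
    -- the column 0
    have B1 := key 0 (by decide) ⟨0, by omega⟩ ⟨0, by omega⟩
    rw [hp3_c0, hp3_s0 hc hcN _ 0 (by omega)] at B1
    have B2 := key 1 (by decide) ⟨0, by omega⟩ ⟨2, by omega⟩
    rw [hp3_c0, hp3_s12] at B2
    -- the column c
    have D1 := key 0 (by decide) ⟨c, by omega⟩ ⟨0, by omega⟩
    rw [hp3_cc, hp3_s0 hc hcN _ 0 (by omega)] at D1
    have D2 := key 0 (by decide) ⟨c, by omega⟩ ⟨2, by omega⟩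
    rw [hp3_cc, hp3_s0 hc hcN _ 2 (by omega)] at D2
    have D3 := key 1 (by decide) ⟨c, by omega⟩ ⟨1, by omega⟩
    rw [hp3_cc, hp3_s11] at D3
    have D4 := key 1 (by decide) ⟨c, by omega⟩ ⟨2, by omega⟩
    rw [hp3_cc, hp3_s12] at D4
    simp at A1 A2 A3 A4 B1 B2 D1 D2 D3 D4
    have e01 : coeff 0 (Y 0 1) = 0 := by rw [A1, ← A4]
    have e10 : coeff 0 (Y 1 0) = 0 := by rw [A3, ← A2]
    have e11 : coeff 0 (Y 1 1) = coeff 0 (Y 0 0) := by rw [B2, B1]
    have e02 : coeff 0 (Y 0 2) = 0 := by rw [D2, ← D3]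
    have e12 : coeff 0 (Y 1 2) = 0 := by rw [D4, ← D1, e01]
    have f01 : Y 0 1 = 0 := by rw [hcY 0 1, e01, map_zero]
    have f10 : Y 1 0 = 0 := by rw [hcY 1 0, e10, map_zero]
    have f11 : Y 1 1 = Y 0 0 := by rw [hcY 1 1, e11, ← hcY 0 0]
    have f02 : Y 0 2 = 0 := by rw [hcY 0 2, e02, map_zero]
    have f12 : Y 1 2 = 0 := by rw [hcY 1 2, e12, map_zero]
    let Z : Matrix (Fin (c + 1) ⊕ Unit) (Fin 3) (MvPolynomial (Fin N) k) :=
      Matrix.of (fun q i => Sum.elim (fun _ => 0)
        (fun _ => Y 2 i - if i = 2 then Y 0 0 else 0) q)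
    refine ⟨Y 0 0, Z, ?_⟩
    refine Matrix.ext fun i i' => ?_
    have hm : (Matrix.fromCols (hp3_C k c N hc hcN) (hp3_W k N) * Z) i i' =
        (if i = 2 then 1 else 0) * (Y 2 i' - if i' = 2 then Y 0 0 else 0) := by
      rw [Matrix.mul_apply, Fintype.sum_sum_type]
      simp only [Matrix.fromCols_apply_inl, Matrix.fromCols_apply_inr, Finset.univ_unique,
        Finset.sum_singleton, Z, Matrix.of_apply, Sum.elim_inl, Sum.elim_inr, mul_zero,
        Finset.sum_const_zero, zero_add, hp3_W]
    rw [Matrix.add_apply, Matrix.smul_apply, hm, smul_eq_mul]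
    fin_cases i
    · fin_cases i'
      · simp
      · simp [f01]
      · simp [f02]
    · fin_cases i'
      · simp [f10]
      · simp [f11]
      · simp [f12]
    · fin_cases i'
      · simp
      · simp
      · simp

end Pool.Agent.Lib.MP_09338f_ag
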