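import Pool.Agent.Lib.MP_09338f_ag.KM.Stm3

/-!
# MP_09338f_ag, project KM, piece hpb: `HP` for constant row degrees (helper71)
-/

set_option autoImplicit false

open MvPolynomial Matrix

universe u

namespace Pool.Agent.Lib.MP_09338f_ag

private theorem hpb_opt (J : Type) [Fintype J] [DecidableEq J] (j0 : J) :
    ∃ (J' : Type) (_ : Fintype J') (_ : DecidableEq J') (v : Option J' ≃ J), v none = j0 :=
  ⟨{j : J // j ≠ j0}, inferInstance, inferInstance, Equiv.optionSubtypeNe j0, rfl⟩

private theorem hpb_aux (h_hst : S_hst.{u}) (h_hlu : S_hlu.{u}) (h_hp2 : S_hp2.{u})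
    (h_hpo : S_hpo.{u}) (h_rh : S_rh.{u}) (m : ℕ) :
    ∀ (N : ℕ) (I J1 : Type) [Fintype I] [DecidableEq I] [Fintype J1] [DecidableEq J1]
    (a1 : J1 → ℤ) (β : ℤ), Fintype.card I + 1 ≤ Fintype.card J1 →
    Fintype.card J1 + 3 ≤ Fintype.card I + N → (∀ j, β < a1 j) →
    Fintype.card J1 + ∑ j, (a1 j - β).toNat = m →
    GHP.{u} N a1 (fun _ : Unit => β) (fun _ : I => β) := by
  induction m using Nat.strong_induction_on with
  | _ m ih =>
  intro N I J1 _ _ _ _ a1 β h1 h2 h3 hm
  rcases Nat.lt_or_ge (Fintype.card I) 2 with hI | hI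
  · intro k K _ _ _ C W _
    exact h_hpo K N I J1 Unit _ C W (by omega)
  rcases Nat.lt_or_ge (Fintype.card I) 3 with hI3 | hI3
  · have hI2 : Fintype.card (Option Unit) = Fintype.card I := by
      have h : Fintype.card (Option Unit) = 2 := rfl
      omega
    have u : Option Unit ≃ I := Fintype.equivOfCardEq hI2
    exact h_rh N I J1 Unit (Option Unit) J1 Unit a1 _ _ u (Equiv.refl _) (Equiv.refl _)
      (h_hp2 N J1 a1 β (by omega) h3 (Or.inl (by omega)))
  have hJne : Nonempty J1 := Fintype.card_pos_iff.1 (by omega)
  have hIne : Nonempty I := Fintype.card_pos_iff.1 (by omega)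
  obtain ⟨j0, hj0⟩ := Finite.exists_max a1
  obtain ⟨J', _, _, v, hv⟩ := hpb_opt J1 j0
  obtain ⟨I', _, _, w, -⟩ := hpb_opt I hIne.some
  have hcJ : Fintype.card J1 = Fintype.card J' + 1 := by
    rw [← Fintype.card_congr v, Fintype.card_option]
  have hcI : Fintype.card I = Fintype.card I' + 1 := by
    rw [← Fintype.card_congr w, Fintype.card_option]
  obtain ⟨N', rfl⟩ : ∃ N', N = N' + 1 := ⟨N - 1, by omega⟩
  refine h_rh (N' + 1) I J1 Unit (Option I') (Option J') Unit a1 _ _ w v (Equiv.refl _) ?_
  have ea : a1 ∘ v = oext (fun j => a1 (v (some j))) (a1 j0) := by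
    funext j
    cases j with
    | none => exact congrArg a1 hv
    | some j => rfl
  have eb2 : ((fun _ : I => β) ∘ w) = oext (fun _ : I' => β) β := by
    funext i
    cases i <;> rfl
  have hsum : ∑ j, (a1 j - β).toNat = (a1 j0 - β).toNat + ∑ j : J', (a1 (v (some j)) - β).toNat := by
    rw [← Equiv.sum_comp v, Fintype.sum_option, hv]
  have hα : β < a1 j0 := h3 j0
  rcases lt_or_ge β (a1 j0 - 1) with hc | hc
  · have key := h_hst N' (Option I') J' Unit (fun j => a1 (v (some j))) (fun _ => β)
      (fun _ => β) (a1 j0 - 1)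
      (by rw [Fintype.card_option, Fintype.card_unit]; omega)
      (by rw [Fintype.card_option, Fintype.card_unit]; omega)
      (by
        intro i
        have h : (Finset.univ.filter fun j : J' ⊕ Unit =>
            Sum.elim (fun j => a1 (v (some j))) (fun _ => β) j < β) = ∅ := by
          rw [Finset.filter_eq_empty_iff]
          intro j _
          cases j with
          | inl j => exact not_lt.2 (h3 _).le
          | inr j => exact lt_irrefl β
        rw [h, Finset.card_empty]
        exact Nat.zero_le _)
      (fun _ => hc)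
      (ih (Fintype.card (Option J') +
          ∑ j, (oext (fun j => a1 (v (some j))) (a1 j0 - 1) j - β).toNat)
        (by
          rw [Fintype.card_option, Fintype.sum_option]
          show Fintype.card J' + 1 + ((a1 j0 - 1 - β).toNat +
            ∑ j : J', (a1 (v (some j)) - β).toNat) < m
          omega)
        (N' + 1) (Option I') (Option J') _ β
        (by rw [Fintype.card_option, Fintype.card_option]; omega)
        (by rw [Fintype.card_option, Fintype.card_option]; omega)
        (by
          intro j
          cases j with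
          | none => exact hc
          | some j => exact h3 _) rfl)
    rw [sub_add_cancel, ← ea] at key
    exact key
  · have hαe : a1 j0 = β + 1 := by omega
    have key := h_hlu N' I' J' Unit (fun j => a1 (v (some j))) (fun _ => β)
      (fun _ => β) β (by omega) (by simp) (by omega) (by omega)
      (by rw [Fintype.card_unit]; omega) (fun _ => le_rfl)
      (fun j => by rw [← hαe]; exact hj0 _)
      (by
        intro i
        have h : (Finset.univ.filter fun j : Option J' =>
            oext (fun j => a1 (v (some j))) (β + 1) j ≤ oext (fun _ : I' => β) β i) = ∅ := by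
          rw [Finset.filter_eq_empty_iff, ← eb2]
          intro j _
          cases j with
          | none => exact not_le.2 (lt_add_one β)
          | some j => exact not_le.2 (h3 _)
        rw [h, Finset.card_empty]
        exact Nat.zero_le _)
      (fun _ => le_rfl) (Or.inl (by omega))
      (ih (Fintype.card J' + ∑ j, (a1 (v (some j)) - β).toNat)
        (by omega)
        (N' + 1) I' J' _ β (by omega) (by omega) (fun _ => h3 _) rfl)
    rw [← hαe, ← ea, ← eb2] at key
    exact key

theorem p_hpb (h_hst : S_hst.{u}) (h_hlu : S_hlu.{u}) (h_hp2 : S_hp2.{u})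
    (h_hpo : S_hpo.{u}) (h_cd : S_cd) (h_rh : S_rh.{u}) : S_hpb.{u} :=
  fun N I J1 _ _ _ _ a1 β h1 h2 h3 =>
    hpb_aux h_hst h_hlu h_hp2 h_hpo h_rh _ N I J1 a1 β h1 h2 h3 rfl

end Pool.Agent.Lib.MP_09338f_ag
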