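import Pool.Agent.Lib.MP_09338f_ag.KM.Stm3

set_option autoImplicit false

universe u

namespace Pool.Agent.Lib.MP_09338f_ag

/-- The piece hpc. -/
theorem p_hpc (h_hp3 : S_hp3.{u}) (h_hlu : S_hlu.{u}) (h_rh : S_rh.{u}) : S_hpc.{u} := by
  intro N I J1 _ _ _ _ β h3 h1 h2
  obtain ⟨m, hm⟩ : ∃ m, m = Fintype.card I := ⟨_, rfl⟩
  rw [← hm] at h3 h1 h2
  induction m, h3 using Nat.le_induction generalizing I J1 with
  | base => exact h_hp3 N I J1 β hm.symm (by omega) (by omega)
  | succ m h3 ih =>
    obtain ⟨N', rfl⟩ : ∃ N', N = N' + 1 := ⟨N - 1, by omega⟩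
    obtain ⟨q, hq⟩ : ∃ q, Fintype.card J1 = q + 1 := ⟨Fintype.card J1 - 1, by omega⟩
    have hI : Fintype.card (Option (Fin m)) = Fintype.card I := by simp [← hm]
    have hJ : Fintype.card (Option (Fin q)) = Fintype.card J1 := by simp [hq]
    have e1 : (fun _ : J1 => β + 1) ∘ (Fintype.equivOfCardEq hJ) =
        oext (fun _ : Fin q => β + 1) (β + 1) := by
      funext j
      cases j <;> rfl
    have e2 : (fun _ : I => β) ∘ (Fintype.equivOfCardEq hI) = oext (fun _ : Fin m => β) β := by
      funext j
      cases j <;> rfl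
    have key := h_hlu N' (Fin m) (Fin q) Unit (fun _ => β + 1) (fun _ => β) (fun _ => β) β
      (by omega) (by simp) (by rw [Fintype.card_fin]; omega) (by simp only [Fintype.card_fin]; omega)
      (by simp only [Fintype.card_fin, Fintype.card_unit]; omega) (fun _ => le_rfl)
      (fun _ => le_rfl) ?_ (fun _ => le_rfl) (Or.inl (by rw [Fintype.card_fin]; omega))
      (ih (Fin m) (Fin q) (by rw [Fintype.card_fin]; omega) (by rw [Fintype.card_fin]; omega)
        (by rw [Fintype.card_fin]))
    · refine h_rh (N' + 1) I J1 Unit (Option (Fin m)) (Option (Fin q)) Unit (fun _ => β + 1)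
        (fun _ => β) (fun _ => β) (Fintype.equivOfCardEq hI) (Fintype.equivOfCardEq hJ)
        (Equiv.refl Unit) ?_
      rw [e1, e2]
      exact key
    · intro i
      have hb : oext (fun _ : Fin m => β) β i = β := by cases i <;> rfl
      have hc : (Finset.univ.filter fun j : Option (Fin q) =>
          oext (fun _ : Fin q => β + 1) (β + 1) j ≤ oext (fun _ : Fin m => β) β i) = ∅ := by
        rw [Finset.filter_eq_empty_iff]
        intro j _
        have ha : oext (fun _ : Fin q => β + 1) (β + 1) j = β + 1 := by cases j <;> rfl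
        rw [ha, hb]
        omega
      rw [hc]
      simp

end Pool.Agent.Lib.MP_09338f_ag
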