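import Pool.Agent.Lib.MP_09338f_ag.KM.Stm1

set_option autoImplicit false

open MvPolynomial Matrix

universe u

namespace Pool.Agent.Lib.MP_09338f_ag

private theorem hpd_const {K : Type u} [Field K] {N : ℕ} (p : MvPolynomial (Fin N) K)
    (hp : HomD 0 p) : p = MvPolynomial.C (p.coeff 0) := by
  ext m
  rw [MvPolynomial.coeff_C]
  split_ifs with h
  · rw [← h]
  · by_contra hne
    have h1 := hp m (MvPolynomial.mem_support_iff.2 hne)
    apply h
    have h2 : m.degree = 0 := by exact_mod_cast h1
    exact ((Finsupp.degree_eq_zero_iff m).1 h2).symm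

theorem p_hpd : S_hpd.{u} := by
  intro K _ N J _ _ β C j₁ hC X hX V hV
  have hX0 : X (some ()) none = 0 := by
    have h0 : HomD 0 (X (some ()) none) := by
      have := hX (some ()) none
      simpa using this
    have hc := hpd_const _ h0
    have h1 := congrFun (congrFun hV (some ())) j₁
    simp only [Matrix.mul_apply, Fintype.sum_option, Fintype.sum_sum_type, Matrix.fromCols_apply_inl,
      Matrix.fromCols_apply_inr, Matrix.of_apply, Finset.univ_unique, Finset.sum_singleton] at h1
    have h2 : (Pi.single none 1 : Option Unit → MvPolynomial (Fin N) K) (some ()) = 0 := by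
      simp
    rw [h2, zero_mul, add_zero] at h1
    have h3 : X (some ()) none * C none j₁ =
        ∑ x, C (some ()) x * V (Sum.inl x) j₁ - X (some ()) (some ()) * C (some ()) j₁ := by
      rw [← h1]
      have : (default : Unit) = () := rfl
      rw [this]
      ring
    have h4 : (∑ x, C (some ()) x * V (Sum.inl x) j₁ - X (some ()) (some ()) * C (some ()) j₁) ∈
        Ideal.span (Set.range fun j => C (some ()) j) := by
      apply Ideal.sub_mem
      · apply Ideal.sum_mem
        intro x _
        exact Ideal.mul_mem_right _ _ (Ideal.subset_span ⟨x, rfl⟩)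
      · exact Ideal.mul_mem_left _ _ (Ideal.subset_span ⟨j₁, rfl⟩)
    rw [← h3, hc] at h4
    rw [hc, hC _ h4, map_zero]
  refine ⟨X (some ()) (some ()), Matrix.of fun (r : J ⊕ Unit) (i : Option Unit) =>
    r.elim (fun _ => 0) (fun _ => i.elim (X none none - X (some ()) (some ()))
      (fun _ => X none (some ()))), ?_⟩
  ext1 r s
  simp only [Matrix.add_apply, Matrix.smul_apply, Matrix.mul_apply, Fintype.sum_sum_type,
    Matrix.fromCols_apply_inl, Matrix.fromCols_apply_inr, Matrix.of_apply, Finset.univ_unique,
    Finset.sum_singleton, Sum.elim_inl, Sum.elim_inr, mul_zero, Finset.sum_const_zero, zero_add,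
    smul_eq_mul]
  rcases r with _ | ⟨⟩ <;> rcases s with _ | ⟨⟩
  · simp
  · simp
  · simp [hX0]
  · simp

end Pool.Agent.Lib.MP_09338f_ag
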