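import Pool.Agent.Lib.MP_09338f_ag.KM.Stm1

/-!
# MP_09338f_ag, project KM, piece hpo (helper36)
-/

set_option autoImplicit false

open MvPolynomial Matrix

universe u

namespace Pool.Agent.Lib.MP_09338f_ag

theorem p_hpo : S_hpo.{u} := by
  intro K _ N I J1 J2 _ _ _ _ _ _ b C W hI X _ V _
  have hsub : Subsingleton I := Fintype.card_le_one_iff_subsingleton.1 hI
  rcases isEmpty_or_nonempty I with h | ⟨⟨i0⟩⟩
  · exact ⟨0, 0, Matrix.ext fun i _ => (h.false i).elim⟩
  · refine ⟨X i0 i0, 0, Matrix.ext fun i j => ?_⟩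
    have hi : i = i0 := Subsingleton.elim _ _
    have hj : j = i0 := Subsingleton.elim _ _
    rw [hi, hj, Matrix.mul_zero, add_zero, Matrix.smul_apply, Matrix.one_apply_eq, smul_eq_mul,
      mul_one]

end Pool.Agent.Lib.MP_09338f_ag
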