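import Pool.Agent.Lib.MP_09338f_ag.KM.Stm1

/-! Piece [KM hps]: splitting step for `HP`, first form. -/

set_option autoImplicit false

open MvPolynomial Matrix

universe u

namespace Pool.Agent.Lib.MP_09338f_ag

private theorem hps_mul {R : Type u} [CommRing R] {I J1 J2 Q : Type} [Fintype J1] [Fintype J2]
    (C : Matrix I J1 R) (w : I → R) (W : Matrix I J2 R) (Z : Matrix (Option J1 ⊕ J2) Q R)
    (i : I) (q : Q) :
    (Matrix.fromCols (addCol C w) W * Z) i q = w i * Z (Sum.inl none) q +
      (∑ j, C i j * Z (Sum.inl (some j)) q + ∑ j, W i j * Z (Sum.inr j) q) := by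
  rw [Matrix.mul_apply, Fintype.sum_sum_type, Fintype.sum_option, add_assoc]
  rfl

private theorem hps_mul' {R : Type u} [CommRing R] {I J1 : Type} [Fintype I]
    (M : Matrix I I R) (C : Matrix I J1 R) (w : I → R) (i : I) :
    (∀ j, (M * addCol C w) i (some j) = ∑ i', M i i' * C i' j) ∧
      (M * addCol C w) i none = ∑ i', M i i' * w i' :=
  ⟨fun _ => rfl, rfl⟩

theorem p_hps (h_hc : S_hc.{u}) : S_hps.{u} := by
  intro K _ N I J1 J2 _ _ _ _ _ _ a1 a2 b α C w W hC hw hW hα hNZ hHP M hM V hV
  set x0 : MvPolynomial (Fin (N + 1)) K := X 0 with hx0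
  -- the equations
  have e1 : ∀ i j, ∑ i', M i i' * C i' j = (x0 • w) i * V (Sum.inl none) (some j) +
      (∑ j', C i j' * V (Sum.inl (some j')) (some j) +
        ∑ j', W i j' * V (Sum.inr j') (some j)) := by
    intro i j
    rw [← hps_mul C (x0 • w) W V i (some j), ← hV]
    rfl
  have e2 : ∀ i, ∑ i', M i i' * (x0 • w) i' = (x0 • w) i * V (Sum.inl none) none +
      (∑ j', C i j' * V (Sum.inl (some j')) none + ∑ j', W i j' * V (Sum.inr j') none) := by
    intro i
    rw [← hps_mul C (x0 • w) W V i none, ← hV]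
    rfl
  set s := V (Sum.inl none) none with hs
  -- division by `x0`
  have h1 : (fun i => ∑ i', M i i' * w i' - s * w i) ∈ Im (Matrix.fromCols C W) := by
    apply hNZ
    refine ⟨fun p => V (p.elim (fun j => Sum.inl (some j)) Sum.inr) none, ?_⟩
    funext i
    show ∑ p, Matrix.fromCols C W i p * _ = x0 • (∑ i', M i i' * w i' - s * w i)
    rw [Fintype.sum_sum_type]
    have h2 := e2 i
    have h3 : ∑ i', M i i' * (x0 • w) i' = x0 * ∑ i', M i i' * w i' := by
      rw [Finset.mul_sum]
      refine Finset.sum_congr rfl fun i' _ => ?_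
      rw [Pi.smul_apply, smul_eq_mul]
      ring
    rw [h3, Pi.smul_apply, smul_eq_mul] at h2
    rw [smul_eq_mul]
    have h4 : x0 * (∑ i', M i i' * w i' - s * w i) =
        ∑ j', C i j' * V (Sum.inl (some j')) none + ∑ j', W i j' * V (Sum.inr j') none := by
      linear_combination h2
    rw [h4]
    rfl
  obtain ⟨v, hv⟩ := h1
  have hv' : ∀ i, ∑ j, C i j * v (Sum.inl j) + ∑ j, W i j * v (Sum.inr j) =
      ∑ i', M i i' * w i' - s * w i := by
    intro i
    have h2 := congrFun hv i
    rw [← h2]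
    show _ = ∑ p, Matrix.fromCols C W i p * v p
    rw [Fintype.sum_sum_type]
    rfl
  -- the new matrix `V'`
  obtain ⟨s1, Z1, h1⟩ := hHP M hM (Matrix.of fun p q => q.elim
    (p.elim (fun o => o.elim s fun j => v (Sum.inl j)) fun j => v (Sum.inr j))
    (fun j => p.elim (fun o => o.elim (x0 * V (Sum.inl none) (some j))
      fun j' => V (Sum.inl (some j')) (some j)) fun j' => V (Sum.inr j') (some j))) (by
      ext1 i q
      rw [hps_mul]
      rcases q with _ | j
      · show ∑ i', M i i' * w i' = w i * s + (∑ j, C i j * v (Sum.inl j) +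
          ∑ j, W i j * v (Sum.inr j))
        rw [hv' i]
        ring
      · show ∑ i', M i i' * C i' j = w i * (x0 * V (Sum.inl none) (some j)) +
          (∑ j', C i j' * V (Sum.inl (some j')) (some j) +
            ∑ j', W i j' * V (Sum.inr j') (some j))
        rw [e1 i j, Pi.smul_apply, smul_eq_mul]
        ring)
  obtain ⟨s', Z, hZ, hMZ⟩ := (h_hc K (N + 1) I (Option J1 ⊕ J2) (Sum.elim (oext a1 α) a2) b
    (Matrix.fromCols (addCol C w) W) (by
      intro i p
      rcases p with (_ | j) | j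
      · exact hw i
      · exact hC i j
      · exact hW i j)).2.2 M s1 Z1 hM h1
  -- the row of `Z` that belongs to `w` is `0`
  have hZ0 : ∀ i, Z (Sum.inl none) i = 0 := by
    intro i
    have h2 := hZ (Sum.inl none) i
    by_contra h3
    obtain ⟨m, hm⟩ := MvPolynomial.support_nonempty.2 h3
    have h4 : ((m.degree : ℕ) : ℤ) = b i - α := h2 m hm
    have h5 := hα i
    have h6 : (0 : ℤ) ≤ ((m.degree : ℕ) : ℤ) := by positivity
    omega
  refine ⟨MvPolynomial.C s', Z, ?_⟩
  rw [hMZ]
  congr 1
  ext1 i i'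
  rw [hps_mul, hps_mul, hZ0 i', mul_zero, mul_zero]

end Pool.Agent.Lib.MP_09338f_ag

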