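import Pool.Agent.Lib.MP_09338f_ag.KM.Stm1

/-!
# Project KM, piece [hpu]: the unit step for `HP`
-/

set_option autoImplicit false
set_option linter.unusedSectionVars false

open MvPolynomial Matrix

universe u

namespace Pool.Agent.Lib.MP_09338f_ag

section hpu

variable {R : Type u} [CommRing R] {I J J1 J2 L : Type} [Fintype I] [DecidableEq I] [Fintype J]
  [DecidableEq J] [Fintype J1] [DecidableEq J1] [Fintype J2] [DecidableEq J2]

/-- A matrix whose columns are in the image of `T` is of the form `T * Z`. -/
private lemma hpu_col {T : Matrix I J R} {M : Matrix I L R}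
    (h : ∀ l, (fun i => M i l) ∈ Im T) : ∃ Z : Matrix J L R, M = T * Z := by
  choose z hz using h
  refine ⟨fun j l => z l j, ?_⟩
  ext i l
  have h1 := congrFun (hz l) i
  rw [Matrix.mulVecLin_apply] at h1
  rw [← h1, Matrix.mul_apply]
  rfl

/-- The columns of `T * Z` are in the image of `T`. -/
private lemma hpu_coln (T : Matrix I J R) (Z : Matrix J L R) (l : L) :
    (fun i => (T * Z) i l) ∈ Im T := by
  refine ⟨fun j => Z j l, ?_⟩
  ext i
  rw [Matrix.mulVecLin_apply, Matrix.mul_apply]
  rfl

private lemma hpu_mul (C : Matrix (Option I) J1 R) (W : Matrix (Option I) J2 R) (y : R)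
    (u : Option J1 ⊕ J2 → R) :
    (Matrix.fromCols (addCol C (Pi.single none y)) W).mulVec u =
      (Matrix.fromCols C W).mulVec
        (Sum.elim (fun j => u (Sum.inl (some j))) (fun j => u (Sum.inr j))) +
      Pi.single none (y * u (Sum.inl none)) := by
  ext i
  cases i with
  | none =>
    simp [Matrix.mulVec, dotProduct, Fintype.sum_sum_type, Fintype.sum_option, addCol]
    ring
  | some i =>
    simp [Matrix.mulVec, dotProduct, Fintype.sum_sum_type, Fintype.sum_option, addCol]

/-- The restriction of `D *ᵥ u` to the rows `some i`. -/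
private lemma hpu_res (C : Matrix (Option I) J1 R) (W : Matrix (Option I) J2 R)
    (u : J1 ⊕ J2 → R) (i : I) :
    (Matrix.fromCols C W).mulVec u (some i) =
      (Matrix.fromCols (C.submatrix some id) (W.submatrix some id)).mulVec u i := by
  simp [Matrix.mulVec, dotProduct, Fintype.sum_sum_type]

/-- The image of `((C, e_none), W)`. -/
private lemma hpu_im (C : Matrix (Option I) J1 R) (W : Matrix (Option I) J2 R)
    (v : Option I → R) :
    v ∈ Im (Matrix.fromCols (addCol C (Pi.single none 1)) W) ↔
      (fun i => v (some i)) ∈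
        Im (Matrix.fromCols (C.submatrix some id) (W.submatrix some id)) := by
  constructor
  · rintro ⟨u, rfl⟩
    refine ⟨Sum.elim (fun j => u (Sum.inl (some j))) (fun j => u (Sum.inr j)), ?_⟩
    ext i
    rw [Matrix.mulVecLin_apply, Matrix.mulVecLin_apply, hpu_mul, Pi.add_apply, hpu_res]
    simp
  · rintro ⟨u, hu⟩
    refine ⟨Sum.elim (fun j => j.elim (v none - (Matrix.fromCols C W).mulVec u none)
      (fun j => u (Sum.inl j))) (fun j => u (Sum.inr j)), ?_⟩
    rw [Matrix.mulVecLin_apply, hpu_mul]
    have h1 : (Sum.elim (fun j => (Sum.elim (fun j => Option.elim j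
        (v none - (Matrix.fromCols C W).mulVec u none) (fun j => u (Sum.inl j)))
        (fun j => u (Sum.inr j)) : Option J1 ⊕ J2 → R) (Sum.inl (some j)))
        (fun j => (Sum.elim (fun j => Option.elim j
        (v none - (Matrix.fromCols C W).mulVec u none) (fun j => u (Sum.inl j)))
        (fun j => u (Sum.inr j)) : Option J1 ⊕ J2 → R) (Sum.inr j))) = u := by
      ext l
      cases l <;> rfl
    rw [h1]
    ext i
    cases i with
    | none => simp
    | some i =>
      have h2 := congrFun hu i
      rw [Matrix.mulVecLin_apply] at h2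
      rw [Pi.add_apply, hpu_res, h2]
      simp

/-- `Im D` is contained in the image of `((C, y e_none), W)`. -/
private lemma hpu_sub (C : Matrix (Option I) J1 R) (W : Matrix (Option I) J2 R) (y : R)
    (v : Option I → R) (hv : v ∈ Im (Matrix.fromCols C W)) :
    v ∈ Im (Matrix.fromCols (addCol C (Pi.single none y)) W) := by
  obtain ⟨u, rfl⟩ := hv
  refine ⟨Sum.elim (fun j => j.elim 0 (fun j => u (Sum.inl j))) (fun j => u (Sum.inr j)), ?_⟩
  rw [Matrix.mulVecLin_apply, Matrix.mulVecLin_apply, hpu_mul]
  have h1 : (Sum.elim (fun j => (Sum.elim (fun j => Option.elim j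
      0 (fun j => u (Sum.inl j)))
      (fun j => u (Sum.inr j)) : Option J1 ⊕ J2 → R) (Sum.inl (some j)))
      (fun j => (Sum.elim (fun j => Option.elim j
      0 (fun j => u (Sum.inl j)))
      (fun j => u (Sum.inr j)) : Option J1 ⊕ J2 → R) (Sum.inr j))) = u := by
    ext l
    cases l <;> rfl
  rw [h1]
  simp

/-- The image of `((C, y e_none), W)` is contained in the image of `((C, e_none), W)`. -/
private lemma hpu_sub1 (C : Matrix (Option I) J1 R) (W : Matrix (Option I) J2 R) (y : R)
    (v : Option I → R) (hv : v ∈ Im (Matrix.fromCols (addCol C (Pi.single none y)) W)) :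
    v ∈ Im (Matrix.fromCols (addCol C (Pi.single none 1)) W) := by
  rw [hpu_im]
  obtain ⟨u, rfl⟩ := hv
  refine ⟨Sum.elim (fun j => u (Sum.inl (some j))) (fun j => u (Sum.inr j)), ?_⟩
  ext i
  rw [Matrix.mulVecLin_apply, Matrix.mulVecLin_apply, hpu_mul, Pi.add_apply, hpu_res]
  simp

end hpu

section hpu2

variable {K : Type u} [Field K] {N : ℕ} {I J1 J2 : Type} [Fintype I] [DecidableEq I]
  [Fintype J1] [DecidableEq J1] [Fintype J2] [DecidableEq J2]

/-- First part. -/
private lemma hpu_one (b : I → ℤ) (β : ℤ)
    (C : Matrix (Option I) J1 (MvPolynomial (Fin N) K))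
    (W : Matrix (Option I) J2 (MvPolynomial (Fin N) K))
    (h : HP b (C.submatrix some id) (W.submatrix some id)) :
    HP (oext b β) (addCol C (Pi.single none 1)) W := by
  intro X hX V hV
  have hcol : ∀ l, (fun i => (X * addCol C (Pi.single none 1)) i l) ∈
      Im (Matrix.fromCols (addCol C (Pi.single none 1)) W) := by
    intro l
    rw [hV]
    exact hpu_coln _ _ _
  -- the column `none`
  have hn : (fun i => X (some i) none) ∈
      Im (Matrix.fromCols (C.submatrix some id) (W.submatrix some id)) := by
    have h1 := (hpu_im C W _).1 (hcol none)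
    have h2 : (fun i => (X * addCol C (Pi.single none 1)) (some i) none) =
        fun i => X (some i) none := by
      ext1 i
      rw [Matrix.mul_apply, Fintype.sum_option]
      simp [addCol]
    rw [← h2]
    exact h1
  have hs : ∀ j, (fun i => ((X.submatrix some some) * (C.submatrix some id)) i j) ∈
      Im (Matrix.fromCols (C.submatrix some id) (W.submatrix some id)) := by
    intro j
    have h1 := (hpu_im C W _).1 (hcol (some j))
    have h2 : (fun i => ((X.submatrix some some) * (C.submatrix some id)) i j) =
        (fun i => (X * addCol C (Pi.single none 1)) (some i) (some j)) -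
          C none j • (fun i => X (some i) none) := by
      ext1 i
      rw [Pi.sub_apply, Matrix.mul_apply, Matrix.mul_apply, Fintype.sum_option]
      simp [addCol]
      ring
    rw [h2]
    exact Submodule.sub_mem _ h1 (Submodule.smul_mem _ _ hn)
  obtain ⟨V', hV'⟩ := hpu_col hs
  have hX' : HomM b b (X.submatrix some some) := fun i j => hX (some i) (some j)
  obtain ⟨s, Z', hZ'⟩ := h _ hX' V' hV'
  have hfin : ∀ l, (fun i => (X - s • (1 : Matrix (Option I) (Option I)
      (MvPolynomial (Fin N) K))) i l) ∈
      Im (Matrix.fromCols (addCol C (Pi.single none 1)) W) := by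
    intro l
    rw [hpu_im]
    cases l with
    | none =>
      have h2 : (fun i : I => (X - s • (1 : Matrix (Option I) (Option I)
          (MvPolynomial (Fin N) K))) (some i) none) = fun i => X (some i) none := by
        ext1 i
        simp
      rw [h2]
      exact hn
    | some l =>
      have h2 : (fun i : I => (X - s • (1 : Matrix (Option I) (Option I)
          (MvPolynomial (Fin N) K))) (some i) (some l)) =
          fun i => (Matrix.fromCols (C.submatrix some id) (W.submatrix some id) * Z') i l := by
        ext1 i
        have h3 := congrFun (congrFun hZ' i) l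
        rw [Matrix.submatrix_apply, Matrix.add_apply] at h3
        rw [Matrix.sub_apply, h3]
        simp [Matrix.one_apply]
      rw [h2]
      exact hpu_coln _ _ _
  obtain ⟨Z, hZ⟩ := hpu_col hfin
  refine ⟨s, Z, ?_⟩
  rw [← hZ]
  abel

private lemma hpu_homD_zero {N : ℕ} {K : Type u} [CommSemiring K] (d : ℤ) :
    HomD d (0 : MvPolynomial (Fin N) K) := by
  intro m hm
  simp at hm

private lemma hpu_homD_add {N : ℕ} {K : Type u} [CommSemiring K] {d : ℤ}
    {p q : MvPolynomial (Fin N) K} (hp : HomD d p) (hq : HomD d q) : HomD d (p + q) := by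
  classical
  intro m hm
  rcases Finset.mem_union.1 (MvPolynomial.support_add hm) with h | h
  · exact hp m h
  · exact hq m h

private lemma hpu_homD_sum {N : ℕ} {K : Type u} [CommSemiring K] {d : ℤ} {ι : Type}
    (s : Finset ι) (f : ι → MvPolynomial (Fin N) K) (h : ∀ i ∈ s, HomD d (f i)) :
    HomD d (∑ i ∈ s, f i) := by
  classical
  induction s using Finset.induction_on with
  | empty => simpa using hpu_homD_zero d
  | insert a s ha ih =>
    rw [Finset.sum_insert ha]
    exact hpu_homD_add (h a (Finset.mem_insert_self _ _))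
      (ih fun i hi => h i (Finset.mem_insert_of_mem hi))

private lemma hpu_homD_mul {N : ℕ} {K : Type u} [CommSemiring K] {d e : ℤ}
    {p q : MvPolynomial (Fin N) K} (hp : HomD d p) (hq : HomD e q) : HomD (d + e) (p * q) := by
  classical
  intro m hm
  obtain ⟨m1, h1, m2, h2, rfl⟩ := Finset.mem_add.1 (MvPolynomial.support_mul p q hm)
  rw [← hp m1 h1, ← hq m2 h2, map_add]
  push_cast
  ring

private lemma hpu_homD_C {N : ℕ} {K : Type u} [CommSemiring K] (r : K) :
    HomD 0 (C r : MvPolynomial (Fin N) K) := by
  classical
  intro m hm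
  rw [MvPolynomial.mem_support_iff, MvPolynomial.coeff_C] at hm
  by_cases h : 0 = m
  · subst h
    simp
  · simp [h] at hm

private lemma hpu_homD_X {N : ℕ} {K : Type u} [CommSemiring K] (i : Fin N) :
    HomD 1 (X i : MvPolynomial (Fin N) K) := by
  classical
  intro m hm
  rw [MvPolynomial.mem_support_iff, MvPolynomial.coeff_X] at hm
  by_cases h : Finsupp.single i 1 = m
  · subst h
    simp
  · simp [h] at hm

/-- Homogeneous of degree `≤ 0`: a constant. -/
private lemma hpu_const {N : ℕ} {K : Type u} [CommSemiring K] {d : ℤ} (hd : d ≤ 0)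
    {p : MvPolynomial (Fin N) K} (hp : HomD d p) :
    p = C (p.coeff 0) ∧ (d ≠ 0 → p.coeff 0 = 0) := by
  classical
  constructor
  · ext m
    rw [MvPolynomial.coeff_C]
    by_cases h : 0 = m
    · subst h
      simp
    · rw [if_neg h]
      by_contra h1
      have h2 := hp m (MvPolynomial.mem_support_iff.2 h1)
      have h3 : m.degree = 0 := by
        have : (0 : ℤ) ≤ ((m.degree : ℕ) : ℤ) := Int.natCast_nonneg _
        omega
      exact h (by rw [Finsupp.degree_eq_zero_iff] at h3; exact h3.symm)
  · intro hne
    by_contra h1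
    have h2 := hp 0 (MvPolynomial.mem_support_iff.2 h1)
    simp at h2
    exact hne h2.symm

end hpu2

/-- Piece [hpu]. -/
theorem p_hpu (h_hc : S_hc.{u}) (h_reld : S_reld.{u}) : S_hpu.{u} := by
  intro K _ N I J1 J2 _ _ _ _ _ _ a1 a2 b β C W hC hW hHP
  refine ⟨hpu_one b β C W hHP, ?_⟩
  intro hb ha hNZ hann hdeg hind X hX V hV
  set x0 : MvPolynomial (Fin (N + 1)) K := MvPolynomial.X 0 with hx0
  set D := Matrix.fromCols C W with hD
  have hcol : ∀ l, (fun i => (X * addCol C (Pi.single none x0)) i l) ∈
      Im (Matrix.fromCols (addCol C (Pi.single none x0)) W) := by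
    intro l
    rw [hV]
    exact hpu_coln _ _ _
  -- the columns of `X * C`
  have hsome : ∀ j, (fun i => (X * C) i j) ∈
      Im (Matrix.fromCols (addCol C (Pi.single none x0)) W) := by
    intro j
    have h1 := hcol (some j)
    have h2 : (fun i => (X * addCol C (Pi.single none x0)) i (some j)) =
        fun i => (X * C) i j := by
      ext1 i
      rw [Matrix.mul_apply, Matrix.mul_apply]
      rfl
    rw [← h2]
    exact h1
  have hnone : (fun i => X i none) ∈ Im (Matrix.fromCols (addCol C (Pi.single none 1)) W) := by
    obtain ⟨u, hu⟩ := hcol none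
    rw [Matrix.mulVecLin_apply, hpu_mul] at hu
    have h1 : (fun i => (X * addCol C (Pi.single none x0)) i none) =
        x0 • fun i => X i none := by
      ext1 i
      rw [Matrix.mul_apply, Fintype.sum_option]
      simp [addCol, mul_comm]
    rw [h1] at hu
    have h2 : x0 • ((fun i => X i none) - Pi.single none (u (Sum.inl none))) ∈ Im D := by
      refine ⟨Sum.elim (fun j => u (Sum.inl (some j))) (fun j => u (Sum.inr j)), ?_⟩
      rw [Matrix.mulVecLin_apply, smul_sub, ← hu]
      have h3 : x0 • (Pi.single none (u (Sum.inl none)) : Option I → MvPolynomial (Fin (N + 1)) K)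
          = Pi.single none (x0 * u (Sum.inl none)) := by
        rw [← Pi.single_smul]
        rfl
      rw [h3]
      abel
    have h4 := hNZ _ h2
    have h5 := hpu_sub C W 1 _ h4
    have h6 : (Pi.single none (u (Sum.inl none)) : Option I → MvPolynomial (Fin (N + 1)) K) ∈
        Im (Matrix.fromCols (addCol C (Pi.single none 1)) W) := by
      rw [hpu_im]
      have h7 : (fun i : I => (Pi.single none (u (Sum.inl none)) :
          Option I → MvPolynomial (Fin (N + 1)) K) (some i)) = 0 := by
        ext1 i
        simp
      rw [h7]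
      exact Submodule.zero_mem _
    have h8 := Submodule.add_mem _ h5 h6
    simpa using h8
  have hall : ∀ l, (fun i => (X * addCol C (Pi.single none 1)) i l) ∈
      Im (Matrix.fromCols (addCol C (Pi.single none 1)) W) := by
    intro l
    cases l with
    | none =>
      have h1 : (fun i => (X * addCol C (Pi.single none 1)) i none) = fun i => X i none := by
        ext1 i
        rw [Matrix.mul_apply, Fintype.sum_option]
        simp [addCol]
      rw [h1]
      exact hnone
    | some j =>
      have h2 : (fun i => (X * addCol C (Pi.single none 1)) i (some j)) =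
          fun i => (X * C) i j := by
        ext1 i
        rw [Matrix.mul_apply, Matrix.mul_apply]
        rfl
      rw [h2]
      exact hpu_sub1 C W x0 _ (hsome j)
  obtain ⟨V1, hV1⟩ := hpu_col hall
  obtain ⟨s, Z, hZ⟩ := hpu_one b β C W hHP X hX V1 hV1
  have hT : HomM (Sum.elim (oext a1 β) a2) (oext b β)
      (Matrix.fromCols (addCol C (Pi.single none 1)) W) := by
    intro i l
    rcases l with l | l
    · cases l with
      | none =>
        cases i with
        | none =>
          simp only [Matrix.fromCols_apply_inl, addCol, oext, Sum.elim_inl, Option.elim_none,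
            Pi.single_eq_same, sub_self]
          have := hpu_homD_C (N := N + 1) (1 : K)
          simpa using this
        | some i =>
          have h1 : (Matrix.fromCols (addCol C (Pi.single none 1)) W) (some i) (Sum.inl none) =
              0 := by
            simp [addCol]
          rw [h1]
          exact hpu_homD_zero _
      | some j => exact hC i j
    · exact hW i l
  obtain ⟨s', Z', hZ'h, hZ'⟩ := (h_hc K (N + 1) (Option I) (Option J1 ⊕ J2)
    (Sum.elim (oext a1 β) a2) (oext b β) _ hT).2.2 X s Z hX hZ
  -- the row of `e_none`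
  have hrow : ∀ i, HomD (oext b β i - β) (Z' (Sum.inl none) i) := fun i => hZ'h (Sum.inl none) i
  have hb' : ∀ i, oext b β i - β ≤ 0 := by
    intro i
    cases i with
    | none => simp [oext]
    | some i => have := hb i; simp only [oext, Option.elim_some]; omega
  set r : Option I → K := fun i => (Z' (Sum.inl none) i).coeff 0 with hr
  have hr1 : ∀ i, Z' (Sum.inl none) i = MvPolynomial.C (r i) := fun i =>
    (hpu_const (hb' i) (hrow i)).1
  have hr2 : ∀ i, oext b β i ≠ β → r i = 0 := fun i hi =>
    (hpu_const (hb' i) (hrow i)).2 (sub_ne_zero.2 hi)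
  set Z2 : Matrix (J1 ⊕ J2) (Option I) (MvPolynomial (Fin (N + 1)) K) := fun l i =>
    Sum.elim (fun j => Z' (Sum.inl (some j)) i) (fun j => Z' (Sum.inr j) i) l with hZ2
  have hXe : ∀ i, (fun i' => X i' i) = (MvPolynomial.C s' : MvPolynomial (Fin (N + 1)) K) •
      (Pi.single i 1) + D.mulVec (fun l => Z2 l i) + Pi.single none (MvPolynomial.C (r i)) := by
    intro i
    have h1 : (fun i' => X i' i) = (MvPolynomial.C s' : MvPolynomial (Fin (N + 1)) K) •
        (Pi.single i 1) + (Matrix.fromCols (addCol C (Pi.single none 1)) W).mulVec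
          (fun l => Z' l i) := by
      ext1 i'
      conv_lhs => rw [hZ']
      rw [Matrix.add_apply, Matrix.mul_apply, Pi.add_apply]
      congr 1
      simp [Matrix.one_apply, Pi.single_apply]
    have h2 : (Sum.elim (fun j => (fun l => Z' l i) (Sum.inl (some j)))
        (fun j => (fun l => Z' l i) (Sum.inr j))) = fun l => Z2 l i := by
      ext1 l
      cases l <;> rfl
    rw [h1, hpu_mul, one_mul, hr1 i, ← add_assoc, h2]
  -- the linear forms
  set Lj : J1 → MvPolynomial (Fin (N + 1)) K := fun j => ∑ i, MvPolynomial.C (r i) * C i j with hLj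
  have hLim : ∀ j, (Pi.single none (Lj j) : Option I → MvPolynomial (Fin (N + 1)) K) ∈
      Im (Matrix.fromCols (addCol C (Pi.single none x0)) W) := by
    intro j
    have h1 : (Pi.single none (Lj j) : Option I → MvPolynomial (Fin (N + 1)) K) =
        (fun i => (X * C) i j) - ((MvPolynomial.C s' : MvPolynomial (Fin (N + 1)) K) •
          (fun i => C i j) + D.mulVec (fun l => ∑ i, Z2 l i * C i j)) := by
      have h2 : (fun i => (X * C) i j) = ∑ i, C i j • (fun i' => X i' i) := by
        ext1 i'
        rw [Matrix.mul_apply, Finset.sum_apply]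
        refine Finset.sum_congr rfl fun i _ => ?_
        simp [mul_comm]
      rw [h2]
      have h3 : ∀ i, C i j • (fun i' => X i' i) =
          (MvPolynomial.C s' : MvPolynomial (Fin (N + 1)) K) • (Pi.single i (C i j)) +
          C i j • D.mulVec (fun l => Z2 l i) +
          Pi.single none (MvPolynomial.C (r i) * C i j) := by
        intro i
        rw [hXe i, smul_add, smul_add]
        congr 1
        · congr 1
          ext1 i'
          by_cases h : i' = i
          · subst h
            simp [mul_comm]
          · simp [h]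
        · ext1 i'
          by_cases h : i' = none
          · subst h
            simp [mul_comm]
          · simp [h]
      simp_rw [h3]
      rw [Finset.sum_add_distrib, Finset.sum_add_distrib]
      have h4 : ∑ i, (MvPolynomial.C s' : MvPolynomial (Fin (N + 1)) K) •
          (Pi.single i (C i j) : Option I → MvPolynomial (Fin (N + 1)) K) =
          (MvPolynomial.C s' : MvPolynomial (Fin (N + 1)) K) • (fun i => C i j) := by
        rw [← Finset.smul_sum]
        congr 1
        exact Finset.univ_sum_single (fun i => C i j)
      have h5 : ∑ i, C i j • D.mulVec (fun l => Z2 l i) =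
          D.mulVec (fun l => ∑ i, Z2 l i * C i j) := by
        ext1 i'
        simp only [Finset.sum_apply, Pi.smul_apply, smul_eq_mul, Matrix.mulVec, dotProduct,
          Finset.mul_sum]
        rw [Finset.sum_comm]
        refine Finset.sum_congr rfl fun l _ => Finset.sum_congr rfl fun i _ => ?_
        ring
      have h6 : ∑ i, (Pi.single none (MvPolynomial.C (r i) * C i j) :
          Option I → MvPolynomial (Fin (N + 1)) K) = Pi.single none (Lj j) := by
        ext1 i'
        rw [Finset.sum_apply]
        by_cases h : i' = none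
        · subst h
          simp [hLj]
        · simp [h]
      rw [h4, h5, h6]
      abel
    rw [h1]
    refine Submodule.sub_mem _ (hsome j) (hpu_sub C W x0 _ ?_)
    refine Submodule.add_mem _ (Submodule.smul_mem _ _ ⟨Pi.single (Sum.inl j) 1, ?_⟩)
      ⟨_, rfl⟩
    rw [Matrix.mulVecLin_apply, Matrix.mulVec_single_one]
    ext1 i
    rfl
  have hLhom : ∀ j, HomD (a1 j - β) (Lj j) := by
    intro j
    refine hpu_homD_sum _ _ fun i _ => ?_
    by_cases h : oext b β i = β
    · have h1 := hpu_homD_mul (hpu_homD_C (N := N + 1) (r i)) (hC i j)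
      rw [h, zero_add] at h1
      exact h1
    · rw [hr2 i h, MvPolynomial.C_0, zero_mul]
      exact hpu_homD_zero _
  have hdvd : ∀ j, x0 ∣ Lj j := by
    intro j
    obtain ⟨u, hu⟩ := hLim j
    rw [Matrix.mulVecLin_apply, hpu_mul] at hu
    have h1 : (Pi.single none (Lj j - x0 * u (Sum.inl none)) :
        Option I → MvPolynomial (Fin (N + 1)) K) ∈ Im D := by
      refine ⟨Sum.elim (fun j => u (Sum.inl (some j))) (fun j => u (Sum.inr j)), ?_⟩
      rw [Matrix.mulVecLin_apply, Pi.single_sub, ← hu]
      abel
    have h2 := hann _ h1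
    rw [mins] at h2
    obtain ⟨c, hc⟩ := (Submodule.mem_span_range_iff_exists_fun _).1 h2
    have hDh : HomM (Sum.elim a1 a2) (oext b β) D := by
      intro i l
      rcases l with l | l
      · exact hC i l
      · exact hW i l
    have hA : HomM (fun e : Option (Option I → J1 ⊕ J2) => e.elim (1 : ℤ)
        (fun e => ∑ i, (Sum.elim a1 a2) (e i) - ∑ i, oext b β i)) (fun _ : Unit => (0 : ℤ))
        (fun (_ : Unit) (e : Option (Option I → J1 ⊕ J2)) => e.elim x0
          (fun e => (D.submatrix id e).det)) := by
      intro i e
      cases e with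
      | none => simpa using hpu_homD_X (N := N + 1) (K := K) 0
      | some e =>
        have := (h_reld K (N + 1) (Option I) (J1 ⊕ J2) (Sum.elim a1 a2) (oext b β) D hDh).2.1 e
        simpa using this
    obtain ⟨u', hu'h, hu'⟩ := (h_hc K (N + 1) Unit (Option (Option I → J1 ⊕ J2)) _ _ _ hA).1
      (a1 j - β) (fun _ => Lj j) (fun e => e.elim (u (Sum.inl none)) c)
      (fun _ => by simpa using hLhom j)
      (by
        ext1 i
        simp only [Matrix.mulVec, dotProduct, Fintype.sum_option, Option.elim_none,
          Option.elim_some]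
        have h3 : ∑ e, (D.submatrix id e).det * c e = Lj j - x0 * u (Sum.inl none) := by
          rw [← hc]
          refine Finset.sum_congr rfl fun e _ => ?_
          rw [smul_eq_mul, mul_comm]
        rw [h3]
        ring)
    have h4 := congrFun hu' ()
    simp only [Matrix.mulVec, dotProduct, Fintype.sum_option, Option.elim_none,
      Option.elim_some] at h4
    have h5 : Lj j - x0 * u' none ∈ mins D := by
      have : Lj j - x0 * u' none = ∑ e, (D.submatrix id e).det * u' (some e) := by
        rw [← h4]
        ring
      rw [this, mins]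
      exact Ideal.sum_mem _ fun e _ => Ideal.mul_mem_right _ _ (Ideal.subset_span ⟨e, rfl⟩)
    have h6 : HomD (a1 j - β) (Lj j - x0 * u' none) := by
      have h7 : HomD (a1 j - β) (x0 * u' none) := by
        have h8 := hpu_homD_mul (hpu_homD_X (N := N + 1) (K := K) 0) (hu'h none)
        simpa using h8
      have h9 := hpu_homD_mul (hpu_homD_C (N := N + 1) (-1 : K)) h7
      rw [zero_add] at h9
      have h10 := hpu_homD_add (hLhom j) h9
      convert h10 using 1
      simp
      ring
    have h7 := hdeg _ h5 (a1 j - β) (by have := ha j; omega) h6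
    exact ⟨u' none, sub_eq_zero.1 h7⟩
  have hr0 : r = 0 := hind r hr2 hdvd
  set Z3 : Matrix (Option J1 ⊕ J2) (Option I) (MvPolynomial (Fin (N + 1)) K) := fun l i =>
    Sum.elim (fun j => Option.elim j 0 (fun j => Z2 (Sum.inl j) i)) (fun j => Z2 (Sum.inr j) i) l
    with hZ3
  refine ⟨MvPolynomial.C s', Z3, ?_⟩
  ext1 i' i
  have h1 : X i' i = _ := congrFun (hXe i) i'
  rw [h1, Matrix.add_apply, hr0]
  have h2 : (Matrix.fromCols (addCol C (Pi.single none x0)) W * Z3) i' i =
      D.mulVec (fun l => Z2 l i) i' := by
    have h3 := congrFun (hpu_mul C W x0 (fun l => Z3 l i)) i'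
    rw [Matrix.mul_apply]
    refine Eq.trans ?_ (h3.trans ?_)
    · rfl
    · rw [Pi.add_apply]
      have h4 : (Sum.elim (fun j => (fun l => Z3 l i) (Sum.inl (some j)))
          (fun j => (fun l => Z3 l i) (Sum.inr j))) = fun l => Z2 l i := by
        ext1 l
        cases l <;> rfl
      have h5 : Z3 (Sum.inl none) i = 0 := rfl
      rw [h4, h5, mul_zero, Pi.single_zero, Pi.zero_apply, add_zero]
  rw [h2]
  simp [Matrix.one_apply, Pi.single_apply]

end Pool.Agent.Lib.MP_09338f_ag
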