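import Pool.Agent.Lib.MP_09338f_ag.KM.Stm3

/-!
# Project KM, piece [hst]: splitting step for `HP`, generic matrices.
-/

set_option autoImplicit false

open MvPolynomial Matrix

universe u

namespace Pool.Agent.Lib.MP_09338f_ag

private theorem hst_homD_X_mul {N : ℕ} {K : Type u} [CommSemiring K] (i : Fin N) (d : ℤ)
    (p : MvPolynomial (Fin N) K) (hp : HomD d p) : HomD (d + 1) (X i * p) := by
  intro m hm
  classical
  rw [mul_comm, MvPolynomial.mem_support_iff, MvPolynomial.coeff_mul_X'] at hm
  by_cases h : i ∈ m.support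
  · rw [if_pos h] at hm
    have h1 := hp (m - Finsupp.single i 1) (MvPolynomial.mem_support_iff.2 hm)
    have h2 : m - Finsupp.single i 1 + Finsupp.single i 1 = m := by
      ext j
      by_cases hj : j = i
      · subst hj
        have h3 : m j ≠ 0 := Finsupp.mem_support_iff.1 h
        simp only [Finsupp.coe_add, Finsupp.coe_tsub, Pi.add_apply, Pi.sub_apply,
          Finsupp.single_eq_same]
        omega
      · have h3 : (Finsupp.single i 1 : Fin N →₀ ℕ) j = 0 := Finsupp.single_eq_of_ne hj
        simp only [Finsupp.coe_add, Finsupp.coe_tsub, Pi.add_apply, Pi.sub_apply, h3]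
        omega
    have h4 : m.degree = (m - Finsupp.single i 1).degree + 1 := by
      conv_lhs => rw [← h2]
      rw [map_add, Finsupp.degree_single]
    rw [h4]
    push_cast
    rw [h1]
  · rw [if_neg h] at hm
    exact absurd rfl hm

private def hst_v (J1 J2 : Type) : Option J1 ⊕ J2 ≃ Option (J1 ⊕ J2) where
  toFun := Sum.elim (fun o => o.elim none fun j => some (Sum.inl j)) fun j => some (Sum.inr j)
  invFun := fun o => o.elim (Sum.inl none) (Sum.elim (fun j => Sum.inl (some j)) Sum.inr)
  left_inv := by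
    rintro ((_ | j) | j) <;> rfl
  right_inv := by
    rintro (_ | (j | j)) <;> rfl

private theorem hst_cd1 {I J : Type} [Fintype I] [Fintype J] (a : J → ℤ) (b : I → ℤ) (α : ℤ)
    (h : CD1 a b) (hb : ∀ i, b i < α) : CD1 (oext a α) b := by
  intro i
  refine le_trans ?_ (h i)
  have h1 : (Finset.univ.filter fun j : Option J => oext a α j < b i) ⊆
      (Finset.univ.filter fun j : J => a j < b i).map Function.Embedding.some := by
    intro j hj
    rw [Finset.mem_filter] at hj
    cases j with
    | none =>
      exfalso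
      have h2 : α < b i := hj.2
      have h3 := hb i
      omega
    | some j =>
      rw [Finset.mem_map]
      exact ⟨j, Finset.mem_filter.2 ⟨Finset.mem_univ _, hj.2⟩, rfl⟩
  have h2 := Finset.card_le_card h1
  rwa [Finset.card_map] at h2

theorem p_hst (h_hps : S_hps.{u}) (h_spp : S_spp.{u}) (h_nz : S_nz.{u}) (h_e1a : S_e1a.{u})
    (h_e1s : S_e1s.{u}) (h_rx : S_rx.{u}) (h_gm : S_gm.{u}) (h_gs : S_gs.{u}) : S_hst.{u} := by
  intro N I J1 J2 _ _ _ _ _ _ a1 a2 b α hc hN hCD hb hP k K _ _ _ C W hGen
  set G := genMatrix k (N + 1) (oext (Sum.elim a1 a2) α) b with hGdef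
  have hG : Gen k (oext (Sum.elim a1 a2) α) b G :=
    h_gm k I (Option (J1 ⊕ J2)) (N + 1) (oext (Sum.elim a1 a2) α) b
  have hD : Gen k (Sum.elim a1 a2) b (G.submatrix id some) :=
    (h_gs k (GenField k (N + 1) (oext (Sum.elim a1 a2) α) b) I (Option (J1 ⊕ J2))
      (oext (Sum.elim a1 a2) α) b).1 (N + 1) G hG I (J1 ⊕ J2) id some Function.injective_id
      (Option.some_injective _)
  have hDr : Gen k (Sum.elim a1 a2) b ((G.submatrix id some).map red :
      Matrix I (J1 ⊕ J2) (MvPolynomial (Fin N)
        (GenField k (N + 1) (oext (Sum.elim a1 a2) α) b))) :=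
    (h_gs k (GenField k (N + 1) (oext (Sum.elim a1 a2) α) b) I (J1 ⊕ J2) (Sum.elim a1 a2) b).2
      N _ hD
  have hDeq : Matrix.fromCols (G.submatrix id fun j : J1 => some (Sum.inl j))
      (G.submatrix id fun j : J2 => some (Sum.inr j)) = G.submatrix id some := by
    funext i j
    cases j <;> rfl
  have hadd : addCol (G.submatrix id some) (fun i => G i none) = G := by
    funext i j
    cases j <;> rfl
  have hcs : Fintype.card (J1 ⊕ J2) = Fintype.card J1 + Fintype.card J2 := Fintype.card_sum
  have hEr : Ex1 ((G.submatrix id some).map red :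
      Matrix I (J1 ⊕ J2) (MvPolynomial (Fin N)
        (GenField k (N + 1) (oext (Sum.elim a1 a2) α) b))) :=
    h_e1a N I (J1 ⊕ J2) (Sum.elim a1 a2) b (by omega) (by omega) hCD k
      (GenField k (N + 1) (oext (Sum.elim a1 a2) α) b) _ hDr
  have hEG : Ex1 G :=
    h_e1a (N + 1) I (Option (J1 ⊕ J2)) (oext (Sum.elim a1 a2) α) b
      (by rw [Fintype.card_option]; omega) (by rw [Fintype.card_option]; omega)
      (hst_cd1 _ _ _ hCD hb) k (GenField k (N + 1) (oext (Sum.elim a1 a2) α) b) _ hG
  have hNZ : NZ0 (Matrix.fromCols (G.submatrix id fun j : J1 => some (Sum.inl j))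
      (G.submatrix id fun j : J2 => some (Sum.inr j))) := by
    rw [hDeq]
    exact h_nz _ N I (J1 ⊕ J2) _ hEr
  have hHP : HP b (addCol (G.submatrix id fun j : J1 => some (Sum.inl j)) fun i => G i none)
      (G.submatrix id fun j : J2 => some (Sum.inr j)) := by
    refine hP k (GenField k (N + 1) (oext (Sum.elim a1 a2) α) b) _ _ ?_
    have h1 := (h_gs k (GenField k (N + 1) (oext (Sum.elim a1 a2) α) b) I (Option (J1 ⊕ J2))
      (oext (Sum.elim a1 a2) α) b).1 (N + 1) G hG I (Option J1 ⊕ J2) id (hst_v J1 J2)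
      Function.injective_id (hst_v J1 J2).injective
    have h2 : oext (Sum.elim a1 a2) α ∘ hst_v J1 J2 = Sum.elim (oext a1 α) a2 := by
      funext j
      rcases j with (_ | j) | j <;> rfl
    have h3 : G.submatrix id (hst_v J1 J2) =
        Matrix.fromCols (addCol (G.submatrix id fun j : J1 => some (Sum.inl j))
          fun i => G i none) (G.submatrix id fun j : J2 => some (Sum.inr j)) := by
      funext i j
      rcases j with (_ | j) | j <;> rfl
    rw [h2, h3] at h1
    exact h1
  have hHP0 := h_hps (GenField k (N + 1) (oext (Sum.elim a1 a2) α) b) N I J1 J2 a1 a2 b α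
    (G.submatrix id fun j : J1 => some (Sum.inl j)) (fun i => G i none)
    (G.submatrix id fun j : J2 => some (Sum.inr j))
    (fun i j => hG.1 i (some (Sum.inl j))) (fun i => hG.1 i none)
    (fun i j => hG.1 i (some (Sum.inr j))) hb hNZ hHP
  have hE0 : Ex1 (Matrix.fromCols (addCol (G.submatrix id fun j : J1 => some (Sum.inl j))
      ((X 0 : MvPolynomial (Fin (N + 1)) (GenField k (N + 1) (oext (Sum.elim a1 a2) α) b)) •
        fun i => G i none)) (G.submatrix id fun j : J2 => some (Sum.inr j))) := by
    have h1 : Ex1 (addCol (G.submatrix id some)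
        ((X 0 : MvPolynomial (Fin (N + 1)) (GenField k (N + 1) (oext (Sum.elim a1 a2) α) b)) •
          fun i => G i none)) := by
      refine h_e1s _ N I (J1 ⊕ J2) _ _ ?_ hEr
      rw [hadd]
      exact hEG
    have h2 := (h_rx _ I (Option (J1 ⊕ J2)) I (Option J1 ⊕ J2) (Equiv.refl I) (hst_v J1 J2)
      (addCol (G.submatrix id some)
        ((X 0 : MvPolynomial (Fin (N + 1)) (GenField k (N + 1) (oext (Sum.elim a1 a2) α) b)) •
          fun i => G i none))).2.2.1.2 h1
    have h3 : (addCol (G.submatrix id some)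
        ((X 0 : MvPolynomial (Fin (N + 1)) (GenField k (N + 1) (oext (Sum.elim a1 a2) α) b)) •
          fun i => G i none)).submatrix (Equiv.refl I) (hst_v J1 J2) =
        Matrix.fromCols (addCol (G.submatrix id fun j : J1 => some (Sum.inl j))
          ((X 0 : MvPolynomial (Fin (N + 1))
            (GenField k (N + 1) (oext (Sum.elim a1 a2) α) b)) •
          fun i => G i none)) (G.submatrix id fun j : J2 => some (Sum.inr j)) := by
      funext i j
      rcases j with (_ | j) | j <;> rfl
    rw [h3] at h2
    exact h2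
  refine h_spp k (GenField k (N + 1) (oext (Sum.elim a1 a2) α) b) K I (Option J1) J2 (N + 1)
    (oext a1 (α + 1)) a2 b _ _ C W ?_ (fun j x _ hx => hE0 x hx) hHP0 hGen
  intro i j
  rcases j with (_ | j) | j
  · have h1 := hst_homD_X_mul (0 : Fin (N + 1)) _ _ (hG.1 i none)
    have h2 : oext (Sum.elim a1 a2) α none - b i + 1 =
        Sum.elim (oext a1 (α + 1)) a2 (Sum.inl none) - b i := by
      simp only [oext, Option.elim, Sum.elim_inl]
      ring
    rw [h2] at h1
    exact h1
  · exact hG.1 i (some (Sum.inl j))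
  · exact hG.1 i (some (Sum.inr j))

end Pool.Agent.Lib.MP_09338f_ag
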