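import Pool.Agent.Lib.MP_09338f_ag.KM.Stm3

/-!
# MP_09338f_ag, project KM, piece hun: unit step for `HP`, generic matrices
-/

set_option autoImplicit false

open MvPolynomial Matrix

universe u

namespace Pool.Agent.Lib.MP_09338f_ag

/-- move the index `none` -/
private def hun_v (J1 J2 : Type) : Option J1 ⊕ J2 ≃ Option (J1 ⊕ J2) where
  toFun := Sum.elim (fun o => o.elim none fun j => some (Sum.inl j)) fun j => some (Sum.inr j)
  invFun := fun o => o.elim (Sum.inl none) (Sum.elim (fun j => Sum.inl (some j)) fun j => Sum.inr j)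
  left_inv := by
    rintro ((_ | j) | j) <;> rfl
  right_inv := by
    rintro (_ | (j | j)) <;> rfl

theorem p_hun (h_hpu : S_hpu.{u}) (h_spp : S_spp.{u}) (h_e1a : S_e1a.{u}) (h_e1u : S_e1u.{u})
    (h_rx : S_rx.{u}) (h_gm : S_gm.{u}) (h_gs : S_gs.{u}) : S_hun.{u} := by
  intro N I J1 J2 _ _ _ _ _ _ a1 a2 b β h1 h2 hCD hHP
  obtain ⟨N', rfl⟩ : ∃ N', N = N' + 1 := ⟨N - 1, by omega⟩
  intro k K _ _ _ C W hG
  have hA := h_gm k (Option I) (J1 ⊕ J2) (N' + 1) (Sum.elim a1 a2) (oext b β)
  set K₀ := GenField k (N' + 1) (Sum.elim a1 a2) (oext b β) with hK₀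
  set A₀ : Matrix (Option I) (J1 ⊕ J2) (MvPolynomial (Fin (N' + 1)) K₀) :=
    genMatrix k (N' + 1) (Sum.elim a1 a2) (oext b β) with hA₀
  let C₁ : Matrix (Option I) J1 (MvPolynomial (Fin (N' + 1)) K₀) := A₀.submatrix id Sum.inl
  let W₁ : Matrix (Option I) J2 (MvPolynomial (Fin (N' + 1)) K₀) := A₀.submatrix id Sum.inr
  -- the rows `some i`
  have hA' : Gen k (Sum.elim a1 a2) b (A₀.submatrix some id) :=
    (h_gs k K₀ (Option I) (J1 ⊕ J2) (Sum.elim a1 a2) (oext b β)).1 (N' + 1) A₀ hA I (J1 ⊕ J2)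
      some id (Option.some_injective I) Function.injective_id
  have hE' : Ex1 (A₀.submatrix some id) :=
    h_e1a (N' + 1) I (J1 ⊕ J2) (Sum.elim a1 a2) b (by rw [Fintype.card_sum]; exact h1)
      (by rw [Fintype.card_sum]; exact h2) hCD k K₀ _ hA'
  have hHP' : HP b (C₁.submatrix some id) (W₁.submatrix some id) := by
    apply hHP k K₀
    have e : Matrix.fromCols (C₁.submatrix some id) (W₁.submatrix some id) =
        A₀.submatrix some id := by
      ext1 i j
      rcases j with j | j <;> rfl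
    rw [e]
    exact hA'
  have hE : Ex1 (addCol A₀ (Pi.single none 1)) := by
    have := h_e1u _ I (J1 ⊕ J2) (A₀.submatrix some id) (A₀ none) hE'
    have e : addRow (A₀.submatrix some id) (A₀ none) = A₀ := by
      funext i j
      rcases i with _ | i <;> rfl
    rw [e] at this
    exact this
  have hE1 : Ex1 (Matrix.fromCols (addCol C₁ (Pi.single none 1)) W₁) := by
    have e : Matrix.fromCols (addCol C₁ (Pi.single none 1)) W₁ =
        (addCol A₀ (Pi.single none 1)).submatrix (Equiv.refl (Option I)) (hun_v J1 J2) := by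
      ext1 i j
      rcases j with (_ | j) | j <;> rfl
    rw [e]
    exact ((h_rx _ (Option I) (Option (J1 ⊕ J2)) (Option I) (Option J1 ⊕ J2)
      (Equiv.refl _) (hun_v J1 J2) (addCol A₀ (Pi.single none 1))).2.2.1).2 hE
  refine h_spp k K₀ K (Option I) (Option J1) J2 (N' + 1) (oext a1 β) a2 (oext b β)
    (addCol C₁ (Pi.single none 1)) W₁ C W ?_ ?_ ?_ hG
  · intro i q
    rcases q with (_ | j) | j
    · intro m hm
      rcases i with _ | i
      · have hm' : m ∈ (1 : MvPolynomial (Fin (N' + 1)) K₀).support := by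
          simpa [addCol] using hm
        rw [mem_support_iff, coeff_one] at hm'
        by_cases h0 : (0 : Fin (N' + 1) →₀ ℕ) = m
        · rw [← h0]; simp [oext]
        · rw [if_neg h0] at hm'; exact absurd rfl hm'
      · exfalso
        simp [addCol] at hm
    · exact hA.1 i (Sum.inl j)
    · exact hA.1 i (Sum.inr j)
  · intro j x _ h0
    exact hE1 x h0
  · exact (h_hpu K₀ N' I J1 J2 a1 a2 b β C₁ W₁ (fun i j => hA.1 i (Sum.inl j))
      (fun i j => hA.1 i (Sum.inr j)) hHP').1

end Pool.Agent.Lib.MP_09338f_ag
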