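import Mathlib
import Pool.Agent.Lib.MP_09338f_ag.KM.Stm3

/-!
# Project KM, piece [ind]: independence of generic linear forms
-/

set_option autoImplicit false

open MvPolynomial Matrix

universe u

namespace Pool.Agent.Lib.MP_09338f_ag

theorem p_ind : S_ind.{u} := by
  intro k K _ _ _ N I J _ _ _ _ a b β D hD hσ r hr hL
  obtain ⟨σ, hσi, hσa⟩ := hσ
  -- the index of the coefficient of `x_1` in the entry `(i, σ i')`
  have hdeg : ∀ p : {i // b i = β} × {i // b i = β},
      (((Finsupp.single (1 : Fin (N + 2)) 1 : Fin (N + 2) →₀ ℕ).degree : ℕ) : ℤ) =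
        a (σ p.2) - b p.1 := by
    intro p
    rw [hσa, p.1.2, Finsupp.degree_single]
    push_cast
    ring
  let φ : {i // b i = β} × {i // b i = β} → Coef (N + 2) a b := fun p =>
    ⟨(p.1.1, σ p.2, Finsupp.single 1 1), hdeg p⟩
  have hφ : Function.Injective φ := by
    intro p q h
    have h1 := congrArg Subtype.val h
    have h2 : p.1.1 = q.1.1 := congrArg Prod.fst h1
    have h3 : σ p.2 = σ q.2 := congrArg (fun t => t.2.1) h1
    exact Prod.ext (Subtype.ext h2) (hσi h3)
  let M : Matrix {i // b i = β} {i // b i = β} K := fun i i' =>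
    coeff (Finsupp.single 1 1) (D i (σ i'))
  have hAI : AlgebraicIndependent k fun p : {i // b i = β} × {i // b i = β} => M p.1 p.2 :=
    hD.2.comp φ hφ
  have hdet : M.det ≠ 0 := by
    have h1 := Matrix.det_mvPolynomialX_ne_zero {i // b i = β} k
    intro h2
    apply h1
    apply hAI
    rw [map_zero, AlgHom.map_det, Matrix.mvPolynomialX_mapMatrix_aeval]
    exact h2
  have hvm : Matrix.vecMul (fun i : {i // b i = β} => r i) M = 0 := by
    funext i'
    obtain ⟨q, hq⟩ := hL (σ i')
    have h1 := congrArg (coeff (Finsupp.single (1 : Fin (N + 2)) 1)) hq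
    rw [coeff_X_mul', if_neg (by
      rw [Finsupp.mem_support_iff, not_not, Finsupp.single_apply, if_neg]
      intro h
      exact absurd (congrArg Fin.val h) (by simp)), coeff_sum] at h1
    have h2 : ∀ i : I, coeff (Finsupp.single (1 : Fin (N + 2)) 1)
        (MvPolynomial.C (r i) * D i (σ i')) =
        r i * coeff (Finsupp.single 1 1) (D i (σ i')) := fun i => coeff_C_mul _ _ _
    rw [Finset.sum_congr rfl fun i _ => h2 i] at h1
    change ∑ i : {i // b i = β}, r i * coeff (Finsupp.single 1 1) (D i (σ i')) = 0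
    rw [← h1, ← Finset.sum_subtype (Finset.univ.filter fun i => b i = β)
      (fun x => by simp) (fun i => r i * coeff (Finsupp.single 1 1) (D i (σ i')))]
    refine Finset.sum_subset (Finset.filter_subset _ _) fun i _ hi => ?_
    rw [hr i (fun h => hi (Finset.mem_filter.2 ⟨Finset.mem_univ _, h⟩)), zero_mul]
  have h0 := Matrix.eq_zero_of_vecMul_eq_zero hdet hvm
  funext i
  by_cases hi : b i = β
  · exact congrFun h0 ⟨i, hi⟩
  · exact hr i hi

end Pool.Agent.Lib.MP_09338f_ag
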