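import Pool.Agent.Lib.MP_09338f_ag.KM.Stm5

/-!
# Project KM, piece jac: the Jacobian criterion over a perfect field
-/

set_option autoImplicit false

open MvPolynomial

universe u

namespace Pool.Agent.Lib.MP_09338f_ag

private theorem jac_chain {k K : Type u} [Field k] [Field K] [Algebra k K] {ι : Type} [Fintype ι]
    (y : ι → K) (D : Derivation k K K) (P : MvPolynomial ι k) :
    D (aeval y P) = ∑ i, aeval y (pderiv i P) * D (y i) := by
  classical
  induction P using MvPolynomial.induction_on with
  | C a => simp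
  | add p q hp hq => simp only [map_add, add_mul, Finset.sum_add_distrib, hp, hq]
  | mul_X p j hp =>
    have h1 : ∀ i, aeval y (pderiv i (p * X j)) * D (y i) =
        y j * (aeval y (pderiv i p) * D (y i)) +
          (if i = j then aeval y p * D (y j) else 0) := by
      intro i
      rw [pderiv_mul, map_add, map_mul, map_mul, aeval_X]
      by_cases hij : i = j
      · subst hij
        rw [pderiv_X_self, map_one, if_pos rfl]
        ring
      · rw [pderiv_X_of_ne (fun h => hij h.symm), map_zero, if_neg hij]
        ring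
    rw [Finset.sum_congr rfl (fun i _ => h1 i), Finset.sum_add_distrib, ← Finset.mul_sum, ← hp,
      Finset.sum_ite_eq', if_pos (Finset.mem_univ j), map_mul, Derivation.leibniz, aeval_X,
      smul_eq_mul, smul_eq_mul]
    ring

private theorem jac_deg {k : Type u} [Field k] {ι : Type} (P : MvPolynomial ι k) (i : ι)
    (σ : ι →₀ ℕ) (hσ : σ ∈ P.support) (hi : ((σ i : ℕ) : k) ≠ 0) :
    pderiv i P ≠ 0 ∧ (pderiv i P).totalDegree < P.totalDegree := by
  classical
  have hσi : σ i ≠ 0 := by
    intro h
    rw [h] at hi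
    simp at hi
  constructor
  · intro h0
    have h1 : coeff (σ - Finsupp.single i 1) (pderiv i P) = 0 := by rw [h0, coeff_zero]
    rw [coeff_pderiv] at h1
    have h2 : σ - Finsupp.single i 1 + Finsupp.single i 1 = σ := by
      apply tsub_add_cancel_of_le
      rw [Finsupp.single_le_iff]
      omega
    have h3 : (((σ - Finsupp.single i 1 : ι →₀ ℕ) i : ℕ) : k) + 1 = ((σ i : ℕ) : k) := by
      have h4 : (σ - Finsupp.single i 1 : ι →₀ ℕ) i + 1 = σ i := by
        rw [Finsupp.tsub_apply, Finsupp.single_eq_same]
        omega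
      rw [← h4]
      push_cast
      ring
    rw [h2, h3] at h1
    rcases mul_eq_zero.1 h1 with h5 | h5
    · exact (mem_support_iff.1 hσ) h5
    · exact hi h5
  · have hpos : 0 < P.totalDegree := by
      have h1 := le_totalDegree hσ
      have h2 : σ i ≤ σ.sum fun _ e => e := by
        rw [Finsupp.sum]
        exact Finset.single_le_sum (f := fun j => σ j) (fun _ _ => Nat.zero_le _)
          (Finsupp.mem_support_iff.2 hσi)
      omega
    rw [totalDegree, Finset.sup_lt_iff hpos]
    intro m hm
    rw [mem_support_iff, coeff_pderiv] at hm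
    have h1 : coeff (m + Finsupp.single i 1) P ≠ 0 := left_ne_zero_of_mul hm
    have h2 := le_totalDegree (mem_support_iff.2 h1)
    rw [Finsupp.sum_add_index' (fun _ => rfl) (fun _ _ _ => rfl), Finsupp.sum_single_index rfl] at h2
    exact h2

private theorem jac_good {k K : Type u} [Field k] [PerfectField k] [Field K] [Algebra k K]
    {ι : Type} (y : ι → K) (F : MvPolynomial ι k) (hF0 : F ≠ 0) (hFa : aeval y F = 0)
    (HF : ∀ F' : MvPolynomial ι k, F' ≠ 0 → aeval y F' = 0 → F.totalDegree ≤ F'.totalDegree) :
    ∃ i, ∃ σ ∈ F.support, ((σ i : ℕ) : k) ≠ 0 := by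
  obtain _ | ⟨p, hp, hpk⟩ := CharP.exists' k
  · have h1 : F.totalDegree ≠ 0 := by
      intro h
      rw [totalDegree_eq_zero_iff_eq_C] at h
      rw [h, aeval_C] at hFa
      apply hF0
      rw [h]
      have h2 : coeff 0 F = 0 := (FaithfulSMul.algebraMap_eq_zero_iff k K).1 hFa
      rw [h2, C_0]
    by_contra! hall
    apply h1
    have h3 : ∀ σ ∈ F.support, σ = 0 := by
      intro σ hσ
      ext i
      exact_mod_cast hall i σ hσ
    apply Nat.le_zero.1
    rw [totalDegree]
    apply Finset.sup_le
    intro σ hσ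
    rw [h3 σ hσ]
    simp
  · have hpE : ExpChar k p := .prime hp.out
    have hpK : CharP K p := .of_ringHom_of_ne_zero (algebraMap k K) p hp.out.ne_zero
    obtain ⟨i, σ, hσ, hi⟩ := MvPolynomial.exists_mem_support_not_dvd_of_forall_totalDegree_le
      (a := y) p hp.out (fun s hs => by
        refine hs.map_of_injective_injective (frobeniusEquiv k p).symm
          (frobenius K p).toAddMonoidHom ?_ ?_ ?_
        · simp
        · simp [frobenius]
        · intro r m
          change frobenius K p ((frobeniusEquiv k p).symm r • m) = r • frobenius K p m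
          have h1 : ((frobeniusEquiv k p).symm r) ^ p = r := by
            have h2 := frobenius_apply_frobeniusEquiv_symm k p r
            rwa [frobenius_def] at h2
          rw [frobenius_def, frobenius_def, Algebra.smul_def, mul_pow, ← map_pow, h1,
            Algebra.smul_def])
      HF hF0 hFa
    refine ⟨i, σ, hσ, ?_⟩
    intro h
    exact hi ((CharP.cast_eq_zero_iff k p _).1 h)

theorem p_jac : S_jac.{u} := by
  intro k K _ _ _ _ ι κ _ y D hlin
  by_contra hnot
  set S := {F : MvPolynomial ι k | F ≠ 0 ∧ aeval y F = 0} with hS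
  have hne : S.Nonempty := by
    rw [algebraicIndependent_iff] at hnot
    push Not at hnot
    obtain ⟨F, h1, h2⟩ := hnot
    exact ⟨F, h2, h1⟩
  obtain ⟨F, ⟨hF0, hFa⟩, hFmin⟩ :
      ∃ F ∈ S, ∀ G : MvPolynomial ι k, G ≠ 0 → aeval y G = 0 → totalDegree F ≤ totalDegree G :=
    ⟨totalDegree.argminOn S hne, totalDegree.argminOn_mem S hne,
        fun _ h₁ h₂ ↦ totalDegree.argminOn_le S ⟨h₁, h₂⟩⟩
  have hder : ∀ i, aeval y (pderiv i F) = 0 := by
    have h1 := Fintype.linearIndependent_iff.1 hlin (fun i => aeval y (pderiv i F)) ?_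
    · exact h1
    · funext c
      rw [Finset.sum_apply]
      simp only [Pi.smul_apply, smul_eq_mul, Pi.zero_apply]
      rw [← jac_chain y (D c) F, hFa, map_zero]
  obtain ⟨i, σ, hσ, hi⟩ := jac_good y F hF0 hFa hFmin
  obtain ⟨h1, h2⟩ := jac_deg F i σ hσ hi
  exact absurd (hFmin _ h1 (hder i)) (not_le.2 h2)

end Pool.Agent.Lib.MP_09338f_ag
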