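import Mathlib
import Pool.Agent.Lib.MP_09338f_ag.KM.Stm4

/-! # Project KM, piece kn: the numbers `K_(i+3)` are values of `Hnum` -/

set_option autoImplicit false

open MvPolynomial Matrix

universe u

namespace Pool.Agent.Lib.MP_09338f_ag

/-- the embedding `x ↦ x + 1` of `Fin t` -/
private def kn_emb (t : ℕ) : Fin t ↪ ℕ := ⟨fun x => (x : ℕ) + 1, fun x y h => by
  apply Fin.ext
  have : (x : ℕ) + 1 = (y : ℕ) + 1 := h
  omega⟩

private theorem kn_Icc (t : ℕ) : Finset.Icc 1 t = (Finset.univ : Finset (Fin t)).map (kn_emb t) := by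
  ext x
  rw [Finset.mem_map, Finset.mem_Icc]
  constructor
  · rintro ⟨h1, h2⟩
    refine ⟨⟨x - 1, by omega⟩, Finset.mem_univ _, ?_⟩
    change x - 1 + 1 = x
    omega
  · rintro ⟨y, -, rfl⟩
    have := y.2
    change 1 ≤ (y : ℕ) + 1 ∧ (y : ℕ) + 1 ≤ t
    omega

private theorem kn_sym (t s : ℕ) (b : ℕ → ℤ) (G : ℤ → ℤ) :
    ∑ T ∈ (Finset.univ : Finset (Fin t)).sym s,
      G (((T : Multiset (Fin t)).map (fun x : Fin t => b ((x : ℕ) + 1))).sum) =
    ∑ T ∈ (Finset.Icc 1 t).sym s, G (((T : Multiset ℕ).map b).sum) := by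
  rw [kn_Icc, Finset.sym_map, Finset.sum_map]
  refine Finset.sum_congr rfl fun T _ => ?_
  change _ = G ((((Sym.map (kn_emb t) T : Sym ℕ s) : Multiset ℕ).map b).sum)
  rw [Sym.coe_map, Multiset.map_map]
  rfl

private theorem kn_set (N k : ℕ) (hk : k ≤ N) (a : ℕ → ℤ) (H : ℤ → ℤ) :
    ∑ S ∈ (Finset.univ : Finset (Fin N)).powersetCard k, H (∑ j ∈ S, a j) =
    ∑ S ∈ (Finset.range N).powersetCard (N - k),
      H (∑ j ∈ Finset.range N, a j - ∑ j ∈ S, a j) := by
  have e : Finset.range N = (Finset.univ : Finset (Fin N)).map Fin.valEmbedding := by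
    ext x
    rw [Finset.mem_map, Finset.mem_range]
    constructor
    · intro h
      exact ⟨⟨x, h⟩, Finset.mem_univ _, rfl⟩
    · rintro ⟨y, -, rfl⟩
      exact y.2
  have h1 : ∑ S ∈ (Finset.univ : Finset (Fin N)).powersetCard k, H (∑ j ∈ S, a j) =
      ∑ S ∈ (Finset.range N).powersetCard k, H (∑ j ∈ S, a j) := by
    rw [e, Finset.powersetCard_map, Finset.sum_map]
    refine Finset.sum_congr rfl fun S _ => ?_
    change _ = H (∑ j ∈ S.map Fin.valEmbedding, a j)
    rw [Finset.sum_map]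
    rfl
  rw [h1]
  refine Finset.sum_nbij' (fun S => Finset.range N \ S) (fun S => Finset.range N \ S) ?_ ?_ ?_ ?_ ?_
  · intro S hS
    rw [Finset.mem_powersetCard] at hS ⊢
    refine ⟨Finset.sdiff_subset, ?_⟩
    rw [Finset.card_sdiff_of_subset hS.1, Finset.card_range, hS.2]
  · intro S hS
    rw [Finset.mem_powersetCard] at hS ⊢
    refine ⟨Finset.sdiff_subset, ?_⟩
    rw [Finset.card_sdiff_of_subset hS.1, Finset.card_range, hS.2]
    omega
  · intro S hS
    rw [Finset.mem_powersetCard] at hS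
    exact Finset.sdiff_sdiff_eq_self hS.1
  · intro S hS
    rw [Finset.mem_powersetCard] at hS
    exact Finset.sdiff_sdiff_eq_self hS.1
  · intro S hS
    rw [Finset.mem_powersetCard] at hS
    congr 1
    have := Finset.sum_sdiff (f := a) hS.1
    linarith

theorem p_kn (h_mon : S_mon.{u}) : S_kn := by
  obtain ⟨-, -, -, -, -, hbin⟩ := h_mon
  intro n t i a b hn
  unfold Hnum KNum
  rw [Fintype.card_fin, Fintype.card_fin]
  -- only `s ≤ i` contributes
  have hcut : ∀ s ∈ Finset.range (t + 1 + i), s ∉ Finset.range (i + 1) →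
      ∑ S ∈ (Finset.univ : Finset (Fin (t + 1 + i))).powersetCard (t + 1 + s),
        ∑ T ∈ (Finset.univ : Finset (Fin t)).sym s,
          (-1) ^ s * (mon (n + 1) (a (t + 1 + i) - ∑ j ∈ S, a j +
            ((T : Multiset (Fin t)).map (fun x : Fin t => b ((x : ℕ) + 1))).sum +
            ∑ x : Fin t, b ((x : ℕ) + 1)) : ℤ) = 0 := by
    intro s _ hs
    rw [Finset.mem_range, not_lt] at hs
    rw [Finset.powersetCard_eq_empty.2, Finset.sum_empty]
    rw [Finset.card_univ, Fintype.card_fin]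
    omega
  rw [← Finset.sum_subset (Finset.range_subset_range.2 (by omega : i + 1 ≤ t + 1 + i)) hcut]
  rw [← Finset.Nat.sum_antidiagonal_swap]
  refine Eq.trans ?_ (Finset.Nat.sum_antidiagonal_eq_sum_range_succ (fun x y =>
      ∑ S ∈ (Finset.range (t + i + 1)).powersetCard y, ∑ T ∈ (Finset.Icc 1 t).sym x,
        (-1) ^ (i - y) * bin (hNum n t a b i + ∑ j ∈ S, a j + ((T : Multiset ℕ).map b).sum) n) i).symm
  refine Finset.sum_congr rfl fun s hs => ?_
  have hs' : s ≤ i := by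
    have := Finset.mem_range.1 hs
    omega
  have hbs : ∑ x : Fin t, b ((x : ℕ) + 1) = ∑ x ∈ Finset.Icc 1 t, b x := by
    rw [kn_Icc, Finset.sum_map]
    rfl
  have hexp : i - (i - s) = s := by omega
  rw [hexp]
  have h2 := kn_set (t + 1 + i) (t + 1 + s) (by omega) a (fun z =>
    ∑ T ∈ (Finset.univ : Finset (Fin t)).sym s,
      (-1) ^ s * (mon (n + 1) (a (t + 1 + i) - z +
        ((T : Multiset (Fin t)).map (fun x : Fin t => b ((x : ℕ) + 1))).sum +
        ∑ x : Fin t, b ((x : ℕ) + 1)) : ℤ))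
  rw [h2]
  rw [show t + 1 + i - (t + 1 + s) = i - s by omega, show t + i + 1 = t + 1 + i by ring]
  refine Finset.sum_congr rfl fun S hS => ?_
  have h3 := kn_sym t s b (fun z => (-1) ^ s * (mon (n + 1) (a (t + 1 + i) -
    (∑ j ∈ Finset.range (t + 1 + i), a j - ∑ j ∈ S, a j) + z +
        ∑ x : Fin t, b ((x : ℕ) + 1)) : ℤ))
  rw [h3]
  refine Finset.sum_congr rfl fun T _ => ?_
  rw [hbin n _ hn, hbs]
  congr 2
  unfold hNum ell
  rw [show t + (i + 3) - 1 = (t + 1 + i) + 1 by omega, Finset.sum_range_succ,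
    show t + i + 1 = t + 1 + i by ring]
  ring

end Pool.Agent.Lib.MP_09338f_ag
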