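import Pool.Agent.Lib.MP_09338f_ag.KM.Stm4

set_option autoImplicit false

open MvPolynomial Matrix

universe u

namespace Pool.Agent.Lib.MP_09338f_ag

/-- all monomials have degree greater than `D` -/
def kz_gt {N : ℕ} {K : Type u} [Field K] (D : ℤ) (p : MvPolynomial (Fin N) K) : Prop :=
  ∀ m ∈ p.support, D < ((m.degree : ℕ) : ℤ)

theorem kz_zero {N : ℕ} {K : Type u} [Field K] (D : ℤ) : kz_gt D (0 : MvPolynomial (Fin N) K) := by
  intro m hm
  simp at hm

theorem kz_add {N : ℕ} {K : Type u} [Field K] {D : ℤ} {p q : MvPolynomial (Fin N) K}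
    (hp : kz_gt D p) (hq : kz_gt D q) : kz_gt D (p + q) := by
  intro m hm
  have h := MvPolynomial.support_add hm
  rw [Finset.mem_union] at h
  rcases h with h | h
  · exact hp m h
  · exact hq m h

theorem kz_mul {N : ℕ} {K : Type u} [Field K] {D : ℤ} (c : MvPolynomial (Fin N) K)
    {p : MvPolynomial (Fin N) K} (hp : kz_gt D p) : kz_gt D (c * p) := by
  intro m hm
  have h := MvPolynomial.support_mul c p hm
  rw [Finset.mem_add] at h
  obtain ⟨m1, h1, m2, h2, rfl⟩ := h
  have a2 := hp m2 h2
  rw [map_add]
  push_cast
  have : (0 : ℤ) ≤ ((m1.degree : ℕ) : ℤ) := Int.natCast_nonneg _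
  linarith

theorem kz_hom {N : ℕ} {K : Type u} [Field K] {D e : ℤ} {p : MvPolynomial (Fin N) K}
    (hp : HomD e p) (h : D < e) : kz_gt D p := by
  intro m hm
  rw [hp m hm]
  exact h

theorem kz_eq {N : ℕ} {K : Type u} [Field K] {D : ℤ} {p : MvPolynomial (Fin N) K}
    (hp : kz_gt D p) (h : HomD D p) : p = 0 := by
  rw [← MvPolynomial.support_eq_empty]
  rw [Finset.eq_empty_iff_forall_notMem]
  intro m hm
  have h1 := hp m hm
  rw [h m hm] at h1
  exact lt_irrefl _ h1

/-- adding a zero component -/
noncomputable def kz_inc (J : Type) (N : ℕ) (K : Type u) [Field K] :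
    (J → MvPolynomial (Fin N) K) →ₗ[K] (Option J → MvPolynomial (Fin N) K) where
  toFun u := fun j => j.elim 0 u
  map_add' u v := by
    funext j
    cases j with
    | none => simp
    | some j => rfl
  map_smul' c u := by
    funext j
    cases j with
    | none => simp
    | some j => rfl

theorem kz_inj (J : Type) (N : ℕ) (K : Type u) [Field K] : Function.Injective (kz_inc J N K) := by
  intro u v h
  funext j
  exact congrFun h (some j)

theorem kz_mem {I J : Type} [Fintype I] [DecidableEq I] [Fintype J] [DecidableEq J] {N : ℕ}
    {K : Type u} [Field K] (a : J → ℤ) (A : Matrix I J (MvPolynomial (Fin N) K)) (d : ℤ)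
    (x : J → MvPolynomial (Fin N) K) :
    x ∈ kerD a A d ↔ (∀ j, HomD (d - a j) (x j)) ∧ A.mulVec x = 0 := by
  unfold kerD tupS
  rw [Submodule.mem_inf, Submodule.mem_pi]
  constructor
  · rintro ⟨h1, h2⟩
    exact ⟨fun j => h1 j (Set.mem_univ j), h2⟩
  · rintro ⟨h1, h2⟩
    exact ⟨fun j _ => h1 j, h2⟩

theorem kz_addCol {I J : Type} [Fintype I] [DecidableEq I] [Fintype J] [DecidableEq J] {N : ℕ}
    {K : Type u} [Field K] (A : Matrix I J (MvPolynomial (Fin N) K))
    (w : I → MvPolynomial (Fin N) K) (x : Option J → MvPolynomial (Fin N) K) :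
    (addCol A w).mulVec x = x none • w + A.mulVec (fun j => x (some j)) := by
  funext i
  rw [Pi.add_apply, Matrix.mulVec, dotProduct, Fintype.sum_option, Matrix.mulVec, dotProduct,
    Pi.smul_apply, smul_eq_mul]
  change w i * x none + _ = _
  rw [mul_comm]
  rfl

theorem p_kz (h_rel : S_rel.{u}) (h_reld : S_reld.{u}) (h_ann : S_ann.{u}) (_h_hc : S_hc.{u}) :
    S_kz.{u} := by
  intro K _ N I J _ _ _ _ a b A hA
  refine ⟨?_, ?_⟩
  · intro d hE hd
    rw [Submodule.eq_bot_iff]
    intro x hx
    rw [kz_mem] at hx
    obtain ⟨hx1, hx2⟩ := hx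
    have hs := hE x hx2
    have key : ∀ z ∈ Submodule.span (MvPolynomial (Fin N) K) (Set.range (rel A)),
        ∀ j, kz_gt (d - a j) (z j) := by
      intro z hz
      induction hz using Submodule.span_induction with
      | mem z hz =>
        obtain ⟨y, rfl⟩ := hz
        intro j
        by_cases hy : Function.Injective y
        · exact kz_hom ((h_reld K N I J a b A hA).1 y j) (by linarith [hd y hy])
        · rw [(h_rel (MvPolynomial (Fin N) K) I J).2.1 A y hy]
          exact kz_zero _
      | zero => intro j; exact kz_zero _
      | add z z' _ _ h1 h2 => intro j; exact kz_add (h1 j) (h2 j)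
      | smul c z _ h1 => intro j; exact kz_mul c (h1 j)
    funext j
    exact kz_eq (key x hs j) (hx1 j)
  · intro α d w hw hE he hd
    have hz : ∀ x ∈ kerD (oext a α) (addCol A w) d, x none = 0 := by
      intro x hx
      rw [kz_mem] at hx
      obtain ⟨hx1, hx2⟩ := hx
      rw [kz_addCol] at hx2
      have h1 : x none • w ∈ Im A := by
        refine ⟨- fun j => x (some j), ?_⟩
        rw [Matrix.mulVecLin_apply, Matrix.mulVec_neg]
        exact (eq_neg_of_add_eq_zero_left hx2).symm
      have h2 := h_ann _ I J A w hE _ h1
      have h3 : HomD (d - α) (x none) := hx1 none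
      have key : ∀ z ∈ mins A, kz_gt (d - α) z := by
        intro z hz
        unfold mins at hz
        induction hz using Submodule.span_induction with
        | mem z hz =>
          obtain ⟨e, rfl⟩ := hz
          by_cases hi : Function.Injective e
          · exact kz_hom ((h_reld K N I J a b A hA).2.1 e) (by linarith [he e hi])
          · have h5 : (A.submatrix id e).det = 0 := by
              unfold Function.Injective at hi
              push Not at hi
              obtain ⟨s, s', h6, h7⟩ := hi
              exact Matrix.det_zero_of_column_eq h7 (fun r => by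
                rw [Matrix.submatrix_apply, Matrix.submatrix_apply, h6])
            simp only
            rw [h5]
            exact kz_zero _
        | zero => exact kz_zero _
        | add z z' _ _ h1 h2 => exact kz_add h1 h2
        | smul c z _ h1 => exact kz_mul c h1
      exact kz_eq (key _ h2) h3
    have hmap : (kerD a A d).map (kz_inc J N K) = kerD (oext a α) (addCol A w) d := by
      ext x
      rw [Submodule.mem_map]
      constructor
      · rintro ⟨u, hu, rfl⟩
        rw [kz_mem] at hu ⊢
        obtain ⟨h1, h2⟩ := hu
        refine ⟨?_, ?_⟩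
        · intro j
          cases j with
          | none => exact (fun m hm => by simp [kz_inc] at hm)
          | some j => exact h1 j
        · rw [kz_addCol]
          have e1 : kz_inc J N K u none = 0 := rfl
          rw [e1, zero_smul, zero_add]
          exact h2
      · intro hx
        have h0 := hz x hx
        rw [kz_mem] at hx
        obtain ⟨h1, h2⟩ := hx
        refine ⟨fun j => x (some j), ?_, ?_⟩
        · rw [kz_mem]
          refine ⟨fun j => h1 (some j), ?_⟩
          rw [kz_addCol, h0, zero_smul, zero_add] at h2
          exact h2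
        · funext j
          cases j with
          | none => exact h0.symm
          | some j => rfl
    rw [← hmap]
    exact (Submodule.equivMapOfInjective (kz_inc J N K) (kz_inj J N K) (kerD a A d)).finrank_eq.symm

end Pool.Agent.Lib.MP_09338f_ag
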