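import Pool.Agent.Lib.MP_09338f_ag.KM.Stm5

/-!
# Project KM, piece lfb: the linear fibre.
-/

set_option autoImplicit false

universe u

namespace Pool.Agent.Lib.MP_09338f_ag

private theorem lfb_trdeg {L K' : Type u} [Field L] [Field K'] [Algebra L K'] (s : Set K')
    (h : IntermediateField.adjoin L s = ⊤) : Algebra.trdeg L K' ≤ Cardinal.mk s := by
  have h1 : Algebra.IsAlgebraic (IntermediateField.adjoin L s) K' := by
    constructor
    intro x
    have hx : x ∈ IntermediateField.adjoin L s := by
      rw [h]
      exact IntermediateField.mem_top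
    exact isAlgebraic_algebraMap (A := K') (⟨x, hx⟩ : IntermediateField.adjoin L s)
  have h2 : Algebra.IsAlgebraic (Algebra.adjoin L s) K' :=
    IntermediateField.isAlgebraic_adjoin_iff_top.mp h1
  exact Algebra.IsAlgebraic.trdeg_le_cardinalMk L s

/-- [lfb] The linear fibre. -/
theorem p_lfb : S_lfb.{u} := by
  intro L K' _ _ _ X _ V p hp htop
  set δ := Module.finrank L V with hδ
  set b := Module.finBasis L V with hb
  -- `p` is a combination of the images of the basis
  have hp2 : p ∈ Submodule.span K'
      (Set.range fun (l : Fin (Module.finrank L V)) (x : X) => algebraMap L K' ((b l : X → L) x)) := by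
    refine Submodule.span_le.mpr ?_ hp
    rintro _ ⟨v, hv, rfl⟩
    have hrep := b.sum_repr ⟨v, hv⟩
    have hv2 : (fun x : X => algebraMap L K' (v x)) =
        ∑ l, algebraMap L K' (b.repr ⟨v, hv⟩ l) •
          (fun x : X => algebraMap L K' ((b l : X → L) x)) := by
      funext x
      have h1 : v x = ∑ l, b.repr ⟨v, hv⟩ l * (b l : X → L) x := by
        have h2 := congrArg (fun w : V => (w : X → L) x) hrep
        simp only [AddSubmonoidClass.coe_finsetSum, Finset.sum_apply, SetLike.val_smul,
          Pi.smul_apply, smul_eq_mul] at h2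
        exact h2.symm
      rw [h1, map_sum, Finset.sum_apply]
      refine Finset.sum_congr rfl fun l _ => ?_
      rw [map_mul, Pi.smul_apply, smul_eq_mul]
    show (fun x : X => algebraMap L K' (v x)) ∈ _
    rw [hv2]
    refine Submodule.sum_mem _ fun l _ => Submodule.smul_mem _ _ (Submodule.subset_span ⟨l, rfl⟩)
  obtain ⟨c, hc⟩ := (Submodule.mem_span_range_iff_exists_fun K').mp hp2
  -- all coordinates of `p` are in the field generated by the coefficients
  have htop2 : IntermediateField.adjoin L (Set.range c) = ⊤ := by
    rw [← htop]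
    apply le_antisymm
    · rw [htop]
      exact le_top
    · rw [IntermediateField.adjoin_le_iff]
      rintro _ ⟨x, rfl⟩
      have hx : p x = ∑ l, c l * algebraMap L K' ((b l : X → L) x) := by
        rw [← hc, Finset.sum_apply]
        rfl
      rw [SetLike.mem_coe, hx]
      refine sum_mem fun l _ => mul_mem ?_ ?_
      · exact IntermediateField.subset_adjoin L _ ⟨l, rfl⟩
      · exact IntermediateField.algebraMap_mem _ _
  refine (lfb_trdeg (Set.range c) htop2).trans ?_
  have h3 := Cardinal.mk_range_le_lift (f := c)
  rw [Cardinal.mk_fin, Cardinal.lift_natCast, Cardinal.lift_uzero] at h3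
  exact h3

end Pool.Agent.Lib.MP_09338f_ag
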