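import Pool.Agent.Lib.MP_09338f_ag.KM.Stm5

/-!
# Project KM, piece [lid]: linear independence modulo a subspace is preserved by extension of the
field (by applying the `K`-linear functionals of `K'` to the coordinates)
-/

set_option autoImplicit false

universe u

namespace Pool.Agent.Lib.MP_09338f_ag

theorem p_lid : S_lid.{u} := by
  intro K K' _ _ σ X ι P v hv c hc
  letI : Algebra K K' := σ.toAlgebra
  have hsm : ∀ (l : K' →ₗ[K] K) (d : K') (x : K), l (d * σ x) = l d * x := by
    intro l d x
    have h1 : d * σ x = x • d := by
      rw [Algebra.smul_def, mul_comm]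
      rfl
    rw [h1, map_smul, smul_eq_mul, mul_comm]
  have key : ∀ w ∈ Submodule.span K' ((fun p : X →₀ K => p.mapRange σ (map_zero σ)) ''
      (P : Set (X →₀ K))), ∀ l : K' →ₗ[K] K, w.mapRange l (map_zero l) ∈ P := by
    intro w hw
    induction hw using Submodule.span_induction with
    | mem x hx =>
      obtain ⟨p, hp, rfl⟩ := hx
      intro l
      have h1 : (p.mapRange σ (map_zero σ)).mapRange l (map_zero l) = l 1 • p := by
        ext x
        rw [Finsupp.mapRange_apply, Finsupp.mapRange_apply, Finsupp.smul_apply, smul_eq_mul]
        have h2 := hsm l 1 (p x)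
        rwa [one_mul] at h2
      show (p.mapRange σ (map_zero σ)).mapRange l (map_zero l) ∈ P
      rw [h1]
      exact P.smul_mem _ hp
    | zero =>
      intro l
      rw [Finsupp.mapRange_zero]
      exact P.zero_mem
    | add x y _ _ hx hy =>
      intro l
      rw [Finsupp.mapRange_add (map_add l)]
      exact P.add_mem (hx l) (hy l)
    | smul d x _ hx =>
      intro l
      have h1 := hx (l ∘ₗ LinearMap.mulLeft K d)
      have h2 : (d • x).mapRange l (map_zero l) =
          x.mapRange (l ∘ₗ LinearMap.mulLeft K d) (map_zero _) := by
        ext t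
        simp
      rw [h2]
      exact h1
  ext i
  have h1 : ∀ l : Module.Dual K K', l (c i) = 0 := by
    intro l
    have h2 := key _ hc l
    have h3 : (c.sum fun i x => x • (v i).mapRange σ (map_zero σ)).mapRange l (map_zero l) =
        (c.mapRange l (map_zero l)).sum fun i x => x • v i := by
      have h4 : (c.sum fun i x => x • (v i).mapRange σ (map_zero σ)).mapRange l (map_zero l) =
          Finsupp.mapRange.linearMap l (c.sum fun i x => x • (v i).mapRange σ (map_zero σ)) := rfl
      rw [h4, map_finsuppSum, Finsupp.sum_mapRange_index (fun i => zero_smul K (v i))]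
      apply Finsupp.sum_congr
      intro i _
      ext t
      rw [Finsupp.mapRange.linearMap_apply, Finsupp.mapRange_apply, Finsupp.smul_apply,
        Finsupp.smul_apply, Finsupp.mapRange_apply, smul_eq_mul, smul_eq_mul]
      exact hsm l (c i) (v i t)
    rw [h3] at h2
    have h5 := DFunLike.congr_fun (hv _ h2) i
    simpa using h5
  rw [Finsupp.zero_apply]
  exact (Module.forall_dual_apply_eq_zero_iff K (c i)).1 h1

end Pool.Agent.Lib.MP_09338f_ag
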