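import Pool.Agent.Lib.MP_09338f_ag.KM.Stm5

/-!
# MP_09338f_ag, piece low (helper9): the lower bound for the transcendence degree
-/

set_option autoImplicit false

open MvPolynomial Matrix

universe u

namespace Pool.Agent.Lib.MP_09338f_ag

section low

variable {I J : Type} {N : ℕ} {K : Type u} [Field K] {a : J → ℤ} {b : I → ℤ}

open Classical in
/-- the matrix with given coefficients -/
private noncomputable def low_mat (N : ℕ) (a : J → ℤ) (b : I → ℤ) (v : Coef N a b → K) :
    Matrix I J (MvPolynomial (Fin N) K) := fun i j =>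
  ∑ m ∈ Finset.univ.finsuppAntidiag (a j - b i).toNat,
    if h : ((m.degree : ℕ) : ℤ) = a j - b i then
      monomial m (v ⟨(i, j, m), h⟩)
    else 0

private theorem low_coeff (v : Coef N a b → K) (i : I) (j : J) (m : Fin N →₀ ℕ)
    (h : ((m.degree : ℕ) : ℤ) = a j - b i) : (low_mat N a b v i j).coeff m = v ⟨(i, j, m), h⟩ := by
  classical
  unfold low_mat
  rw [coeff_sum, Finset.sum_eq_single m]
  · rw [dif_pos h, coeff_monomial, if_pos rfl]
  · intro m' _ hm
    split_ifs
    · rw [coeff_monomial, if_neg hm]
    · simp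
  · intro hm
    exfalso
    apply hm
    rw [Finset.mem_finsuppAntidiag]
    refine ⟨?_, by simp⟩
    rw [← h, Int.toNat_natCast, Finsupp.degree_eq_sum]

private theorem low_coeff' (v : Coef N a b → K) (i : I) (j : J) (m : Fin N →₀ ℕ)
    (h : ¬ ((m.degree : ℕ) : ℤ) = a j - b i) : (low_mat N a b v i j).coeff m = 0 := by
  classical
  unfold low_mat
  rw [coeff_sum]
  refine Finset.sum_eq_zero fun m' _ => ?_
  split_ifs with h'
  · rw [coeff_monomial, if_neg]
    rintro rfl
    exact h h'
  · simp

private theorem low_hom (v : Coef N a b → K) : HomM a b (low_mat N a b v) := by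
  intro i j m hm
  by_contra h
  rw [mem_support_iff] at hm
  exact hm (low_coeff' v i j m h)

/-- the linear map -/
private noncomputable def low_lin (N : ℕ) (K : Type u) [Field K] (a : J → ℤ) (b : I → ℤ) :
    (Coef N a b → K) →ₗ[K] Matrix I J (MvPolynomial (Fin N) K) where
  toFun v := low_mat N a b v
  map_add' v w := by
    ext i j m
    rw [Matrix.add_apply, coeff_add]
    by_cases h : ((m.degree : ℕ) : ℤ) = a j - b i
    · rw [low_coeff _ _ _ _ h, low_coeff _ _ _ _ h, low_coeff _ _ _ _ h]; rfl
    · rw [low_coeff' _ _ _ _ h, low_coeff' _ _ _ _ h, low_coeff' _ _ _ _ h, add_zero]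
  map_smul' c v := by
    ext i j m
    rw [Matrix.smul_apply, coeff_smul]
    by_cases h : ((m.degree : ℕ) : ℤ) = a j - b i
    · rw [low_coeff _ _ _ _ h, low_coeff _ _ _ _ h]; rfl
    · rw [low_coeff' _ _ _ _ h, low_coeff' _ _ _ _ h, smul_zero]

private theorem low_inj : Function.Injective (low_lin N K a b) := by
  intro v w h
  funext c
  obtain ⟨⟨i, j, m⟩, hc⟩ := c
  have h1 : (low_mat N a b v i j).coeff m = (low_mat N a b w i j).coeff m := by
    have h2 : low_mat N a b v = low_mat N a b w := h
    rw [h2]
  rw [low_coeff _ _ _ _ hc, low_coeff _ _ _ _ hc] at h1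
  exact h1

private theorem low_cwD (D : K → K) (h0 : D 0 = 0) (p : MvPolynomial (Fin N) K)
    (m : Fin N →₀ ℕ) : (cwD D p).coeff m = D (p.coeff m) := by
  classical
  unfold cwD
  rw [coeff_sum]
  by_cases hm : m ∈ p.support
  · rw [Finset.sum_eq_single m]
    · rw [coeff_monomial, if_pos rfl]
    · intro m' _ h
      rw [coeff_monomial, if_neg h]
    · intro h
      exact absurd hm h
  · rw [notMem_support_iff.1 hm, h0]
    refine Finset.sum_eq_zero fun m' hm' => ?_
    rw [coeff_monomial, if_neg]
    rintro rfl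
    exact hm hm'

end low

theorem p_low (h_der : S_der.{u}) (h_cmp : S_cmp.{u}) (h_mim : S_mim.{u}) (h_mon : S_mon.{u}) :
    S_low.{u} := by
  intro k _ _ N I J _ _ _ _ a b F w hTP hdef hw
  have hfin : Finite (Coef N a b) := (h_mon.2.2.2.1 N I J a b).1
  obtain ⟨L, hL1, hL2⟩ := h_der k (Coef N a b) F w hw
  have hgen : genMatrix k N a b = low_mat N a b (fun c =>
      algebraMap (MvPolynomial (Coef N a b) k) (GenField k N a b) (X c)) := rfl
  set A := genMatrix k N a b with hA
  -- the image is in the tangent space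
  have hmem : ∀ v ∈ L, low_lin N (GenField k N a b) a b v ∈ orbS a b A := by
    intro v hv
    obtain ⟨D, hD1, hD2⟩ := hL2 v hv
    have hB : A.map (cwD D) = low_mat N a b v := by
      ext i j m
      rw [Matrix.map_apply, low_cwD D (map_zero D), hgen]
      by_cases h : ((m.degree : ℕ) : ℤ) = a j - b i
      · rw [low_coeff _ _ _ _ h, low_coeff _ _ _ _ h]
        exact hD1 _
      · rw [low_coeff' _ _ _ _ h, low_coeff' _ _ _ _ h, map_zero]
    have hTp : Tp A (low_mat N a b v) := by
      intro e i
      have h1 := h_cmp k (GenField k N a b) N I J A F D hdef hD2 e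
      rw [hB] at h1
      have h2 := (h_mim _ I J A).1 _ h1 (Pi.single i 1)
      rw [← Pi.single_smul, smul_eq_mul, mul_one] at h2
      exact h2
    obtain ⟨X, Y, hX, hY, hXY⟩ := hTP _ (low_hom v) hTp
    have hXm : X ∈ matS N (GenField k N a b) b b := fun i _ j _ => hX i j
    have hYm : Y ∈ matS N (GenField k N a b) a a := fun i _ j _ => hY i j
    unfold orbS
    rw [Submodule.mem_map]
    refine ⟨(X, -Y), ⟨hXm, neg_mem hYm⟩, ?_⟩
    show X * A - A * (-Y) = low_mat N a b v
    rw [hXY, Matrix.mul_neg, sub_neg_eq_add]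
  -- the tangent space is finite dimensional
  have hfo : Module.Finite (GenField k N a b) (orbS a b A) := by
    rw [Module.Finite.iff_fg]
    unfold orbS
    apply Submodule.FG.map
    apply Submodule.FG.prod
    · rw [← Module.Finite.iff_fg]
      exact (h_mon.2.2.1 N (GenField k N a b) I I b b).1
    · rw [← Module.Finite.iff_fg]
      exact (h_mon.2.2.1 N (GenField k N a b) J J a a).1
  let Ψ : L →ₗ[GenField k N a b] orbS a b A :=
    ((low_lin N (GenField k N a b) a b).domRestrict L).codRestrict (orbS a b A)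
      (fun v => hmem v.1 v.2)
  have hΨ : Function.Injective Ψ := by
    intro v w h
    apply Subtype.ext
    apply low_inj
    exact congrArg Subtype.val h
  have hle := LinearMap.finrank_le_finrank_of_injective hΨ
  exact hL1.trans (Nat.add_le_add_right hle w)

end Pool.Agent.Lib.MP_09338f_ag
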