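import Pool.Agent.Lib.MP_09338f_ag.KM.Stm1

/-!
# Project KM, piece mim: the maximal minors and the derivatives in the direction of the orbit
-/

set_option autoImplicit false

open MvPolynomial Matrix

universe u

namespace Pool.Agent.Lib.MP_09338f_ag

section

variable {R : Type u} [CommRing R] {I J : Type} [Fintype I] [DecidableEq I] [Fintype J]
  [DecidableEq J]

/-- Replace the column `k` of `A_e` by the column `j` of `A`. -/
private theorem mim_col (A : Matrix I J R) (e : I → J) (k : I) (j : J) :
    (A.submatrix id e).updateCol k (fun i => A i j) = A.submatrix id (Function.update e k j) := by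
  ext i l
  by_cases h : l = k
  · subst h
    rw [updateCol_self, submatrix_apply, Function.update_self]
    rfl
  · rw [updateCol_ne h, submatrix_apply, submatrix_apply, Function.update_of_ne h]

/-- A matrix times a vector is the combination of the columns. -/
private theorem mim_mulVec {L : Type} [Fintype L] (A : Matrix I L R) (u : L → R) :
    A.mulVec u = ∑ j, u j • fun i => A i j := by
  funext i
  rw [Finset.sum_apply]
  show ∑ j, A i j * u j = _
  refine Finset.sum_congr rfl fun j _ => ?_
  rw [Pi.smul_apply, smul_eq_mul, mul_comm]

/-- The columns are in the image. -/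
private theorem mim_col_mem (A : Matrix I J R) (j : J) : (fun i => A i j) ∈ Im A := by
  refine ⟨Pi.single j 1, ?_⟩
  rw [mulVecLin_apply, mulVec_single_one]
  rfl

private theorem mim_cramer (A : Matrix I J R) (u : J → R) (e : I → J) (k : I) :
    ((A.submatrix id e).updateCol k (A.mulVec u)).det ∈ mins A := by
  rw [← cramer_apply, mim_mulVec, map_sum, Finset.sum_apply]
  refine Ideal.sum_mem _ fun j _ => ?_
  rw [map_smul, Pi.smul_apply, smul_eq_mul, cramer_apply, mim_col]
  exact Ideal.mul_mem_left _ _ (Ideal.subset_span ⟨_, rfl⟩)

private theorem mim_dd (A B B' : Matrix I J R) (e : I → J) :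
    dd A (B + B') e = dd A B e + dd A B' e := by
  unfold dd
  rw [← Finset.sum_add_distrib]
  refine Finset.sum_congr rfl fun k _ => ?_
  exact det_updateCol_add (A.submatrix id e) k (fun i => B i (e k)) (fun i => B' i (e k))

private theorem mim_kill (A : Matrix I J R) (e : I → J) (v : I → R) :
    (A.submatrix id e).det • v ∈ Im A := by
  rw [← mulVec_cramer, mim_mulVec]
  refine Submodule.sum_mem _ fun k _ => Submodule.smul_mem _ _ ?_
  exact mim_col_mem A (e k)

private theorem mim_left (A : Matrix I J R) (X : Matrix I I R) (e : I → J) :
    dd A (X * A) e = X.trace * (A.submatrix id e).det := by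
  have h1 : dd A (X * A) e = ((A.submatrix id e).adjugate * (X * A.submatrix id e)).trace := by
    unfold dd
    unfold Matrix.trace
    refine Finset.sum_congr rfl fun k _ => ?_
    rw [← cramer_apply, cramer_eq_adjugate_mulVec]
    rfl
  rw [h1, trace_mul_comm, Matrix.mul_assoc, mul_adjugate, Matrix.mul_smul, Matrix.mul_one,
    trace_smul, smul_eq_mul, mul_comm]

end

theorem p_mim : S_mim.{u} := by
  intro R _ I J _ _ _ _ A
  refine ⟨?_, ?_, ?_, ?_⟩
  · intro y hy v
    unfold mins at hy
    induction hy using Submodule.span_induction with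
    | mem y hy =>
      obtain ⟨e, rfl⟩ := hy
      exact mim_kill A e v
    | zero =>
      rw [zero_smul]
      exact Submodule.zero_mem _
    | add x y _ _ hx hy =>
      rw [add_smul]
      exact Submodule.add_mem _ hx hy
    | smul a x _ hx =>
      rw [smul_eq_mul, mul_smul]
      exact Submodule.smul_mem _ _ hx
  · intro X Y e
    rw [mim_dd]
    refine Ideal.add_mem _ ?_ ?_
    · rw [mim_left]
      exact Ideal.mul_mem_left _ _ (Ideal.subset_span ⟨_, rfl⟩)
    · unfold dd
      refine Ideal.sum_mem _ fun k _ => ?_
      exact mim_cramer A (fun j => Y j (e k)) e k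
  · intro u e k
    exact mim_cramer A u e k
  · intro B B' e
    exact mim_dd A B B' e

end Pool.Agent.Lib.MP_09338f_ag
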