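import Pool.Agent.Lib.MP_09338f_ag.KM.Stm4

/-!
# MP_09338f_ag, project KM, piece mon: dimensions of the spaces of homogeneous tuples (helper71)
-/

set_option autoImplicit false

open MvPolynomial Matrix

universe u

namespace Pool.Agent.Lib.MP_09338f_ag

/-- the exponents of degree `d` -/
private def mon_set (N : ℕ) (d : ℤ) : Set (Fin N →₀ ℕ) := {m | ((m.degree : ℕ) : ℤ) = d}

private theorem mon_set_card (N : ℕ) (d : ℤ) :
    (mon_set N d).Finite ∧ Nat.card (mon_set N d) = mon N d := by
  unfold mon
  split_ifs with hd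
  · have h : mon_set N d = ∅ := by
      rw [Set.eq_empty_iff_forall_notMem]
      intro m hm
      have h1 : ((m.degree : ℕ) : ℤ) = d := hm
      omega
    rw [h]
    exact ⟨Set.finite_empty, by simp⟩
  · have h : mon_set N d = ((Finset.univ.finsuppAntidiag d.toNat : Finset (Fin N →₀ ℕ)) :
        Set (Fin N →₀ ℕ)) := by
      ext m
      rw [Finset.mem_coe, Finset.mem_finsuppAntidiag]
      have h1 : m ∈ mon_set N d ↔ ((m.degree : ℕ) : ℤ) = d := Iff.rfl
      have h3 : m.degree = Finset.univ.sum m := Finsupp.degree_eq_sum m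
      rw [h1, ← h3]
      constructor
      · intro h2
        exact ⟨by omega, Finset.subset_univ _⟩
      · rintro ⟨h2, -⟩
        omega
    rw [h]
    refine ⟨Finset.finite_toSet _, ?_⟩
    rw [Nat.card_coe_set_eq, Set.ncard_coe_finset, Finset.card_finsuppAntidiag_nat_eq_multichoose,
      Finset.card_univ, Fintype.card_fin]

private theorem mon_homS (N : ℕ) (K : Type u) [Field K] (d : ℤ) :
    Module.Finite K (homS N K d) ∧ Module.finrank K (homS N K d) = mon N d := by
  have h : homS N K d = restrictSupport K (mon_set N d) := by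
    ext p
    exact Iff.rfl
  have hf := (mon_set_card N d).1
  have : Finite (mon_set N d) := hf
  rw [h]
  refine ⟨Module.Finite.of_basis (basisRestrictSupport K (mon_set N d)), ?_⟩
  rw [Module.finrank_eq_nat_card_basis (basisRestrictSupport K (mon_set N d))]
  exact (mon_set_card N d).2

private theorem mon_pi {K : Type u} [Field K] {Q : Type} [Fintype Q] {M : Q → Type u}
    [∀ q, AddCommGroup (M q)] [∀ q, Module K (M q)] (p : ∀ q, Submodule K (M q))
    (hp : ∀ q, Module.Finite K (p q)) :
    Module.Finite K (Submodule.pi Set.univ p) ∧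
      Module.finrank K (Submodule.pi Set.univ p) = ∑ q, Module.finrank K (p q) := by
  let e : (Submodule.pi Set.univ p) ≃ₗ[K] (∀ q, p q) :=
    { toFun := fun x q => ⟨x.1 q, x.2 q (Set.mem_univ _)⟩
      map_add' := fun _ _ => rfl
      map_smul' := fun _ _ => rfl
      invFun := fun y => ⟨fun q => (y q).1, fun q _ => (y q).2⟩
      left_inv := fun _ => rfl
      right_inv := fun _ => rfl }
  refine ⟨Module.Finite.equiv e.symm, ?_⟩
  rw [e.finrank_eq, Module.finrank_pi_fintype]

private theorem mon_rec (N : ℕ) (u : ℤ) : mon (N + 1) u = mon (N + 1) (u - 1) + mon N u := by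
  unfold mon
  rcases lt_trichotomy u 0 with h | h | h
  · rw [if_pos h, if_pos (by omega), if_pos h]
  · subst h
    simp
  · rw [if_neg (by omega), if_neg (by omega), if_neg (by omega)]
    obtain ⟨k, hk⟩ : ∃ k : ℕ, u.toNat = k + 1 := ⟨u.toNat - 1, by omega⟩
    have hk2 : (u - 1).toNat = k := by omega
    rw [hk, hk2, Nat.multichoose_succ_succ]
    omega

private theorem mon_bin (n : ℕ) (u : ℤ) : (mon (n + 1) u : ℤ) = bin (u + n) n := by
  unfold mon bin
  by_cases h : u < 0
  · rw [if_pos h, if_pos (by omega)]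
    rfl
  · rw [if_neg h, if_neg (by omega), Nat.multichoose_eq]
    have h1 : n + 1 + u.toNat - 1 = n + u.toNat := by omega
    have h2 : (u + n).toNat = n + u.toNat := by omega
    rw [h1, h2]
    congr 1
    have h3 : n + u.toNat - u.toNat = n := by omega
    rw [← Nat.choose_symm (Nat.le_add_left u.toNat n), h3]

theorem p_mon : S_mon.{u} := by
  refine ⟨fun N K _ d => mon_homS N K d, ?_, ?_, ?_, mon_rec, fun n u _ => mon_bin n u⟩
  · intro N K _ Q _ D d
    obtain ⟨h1, h2⟩ := mon_pi (fun q => homS N K (d - D q)) (fun q => (mon_homS N K _).1)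
    refine ⟨h1, h2.trans ?_⟩
    exact Finset.sum_congr rfl fun q _ => (mon_homS N K _).2
  · intro N K _ P Q _ _ α β
    have h0 : ∀ i : P, Module.Finite K
        (Submodule.pi Set.univ fun j => homS N K (α j - β i)) ∧ Module.finrank K
        (Submodule.pi Set.univ fun j => homS N K (α j - β i)) = ∑ j, mon N (α j - β i) := by
      intro i
      obtain ⟨h1, h2⟩ := mon_pi (fun j => homS N K (α j - β i)) (fun q => (mon_homS N K _).1)
      refine ⟨h1, h2.trans ?_⟩
      exact Finset.sum_congr rfl fun q _ => (mon_homS N K _).2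
    obtain ⟨h1, h2⟩ := mon_pi (fun i => Submodule.pi Set.univ fun j => homS N K (α j - β i))
      (fun i => (h0 i).1)
    refine ⟨h1, h2.trans ?_⟩
    exact Finset.sum_congr rfl fun i _ => (h0 i).2
  · intro N I J _ _ a b
    have hf : ∀ p : I × J, Finite (mon_set N (a p.2 - b p.1)) := fun p =>
      (mon_set_card N _).1
    let e : Coef N a b ≃ (Σ p : I × J, mon_set N (a p.2 - b p.1)) :=
      { toFun := fun x => ⟨(x.1.1, x.1.2.1), ⟨x.1.2.2, x.2⟩⟩
        invFun := fun y => ⟨(y.1.1, y.1.2, y.2.1), y.2.2⟩
        left_inv := fun _ => rfl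
        right_inv := fun _ => rfl }
    refine ⟨Finite.of_equiv _ e.symm, ?_⟩
    rw [Nat.card_congr e, Nat.card_sigma, Fintype.sum_prod_type]
    refine Finset.sum_congr rfl fun i _ => Finset.sum_congr rfl fun j _ => ?_
    exact (mon_set_card N _).2

end Pool.Agent.Lib.MP_09338f_ag
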