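import Pool.Agent.Lib.MP_09338f_ag.KM.Stm1

/-!
# Project KM, piece [nz]: `x_0` is not a zero divisor on `M(A)`
-/

set_option autoImplicit false

open MvPolynomial Matrix

universe u

namespace Pool.Agent.Lib.MP_09338f_ag

/-- `A * rel A y = 0`. -/
private lemma nz_mul_rel {R : Type u} [CommRing R] {I J : Type} [Fintype I] [DecidableEq I]
    [Fintype J] [DecidableEq J] (A : Matrix I J R) (y : Option I → J) :
    A.mulVec (rel A y) = 0 := by
  ext1 i
  set M0 : Option I → Option I → R := fun r s => r.elim 0 fun i => A i (y s) with hM0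
  have h1 : ∀ j, rel A y j = Matrix.detRowAlternating
      (Function.update M0 none fun s => if y s = j then (1 : R) else 0) := by
    intro j
    rw [rel]
    congr 1
    ext r s
    cases r <;> simp [hM0]
  have h2 : ∑ j, A i j * rel A y j = Matrix.detRowAlternating
      (Function.update M0 none (∑ j, A i j • fun s => if y s = j then (1 : R) else 0)) := by
    have h3 := (Matrix.detRowAlternating (n := Option I) (R := R)).toMultilinearMap.map_update_sum
      (t := Finset.univ) (i := none)
      (g := fun j => A i j • fun s => if y s = j then (1 : R) else 0) (m := M0)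
    refine Eq.trans ?_ h3.symm
    refine Finset.sum_congr rfl fun j _ => ?_
    rw [MultilinearMap.map_update_smul, h1 j]
    rfl
  have h4 : (Matrix.mulVec A (rel A y)) i = ∑ j, A i j * rel A y j := rfl
  rw [h4, h2]
  refine (Matrix.detRowAlternating (n := Option I) (R := R)).map_eq_zero_of_eq _
    (i := none) (j := some i) ?_ (by simp)
  ext s
  simp [hM0, Finset.sum_apply]

private lemma nz_rel_map {R S : Type u} [CommRing R] [CommRing S] {I J : Type} [Fintype I]
    [DecidableEq I] [Fintype J] [DecidableEq J] (f : R →+* S) (A : Matrix I J R)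
    (y : Option I → J) (j : J) : rel (A.map f) y j = f (rel A y j) := by
  rw [rel, rel, RingHom.map_det]
  congr 1
  ext r s
  cases r with
  | none =>
    by_cases h : y s = j <;> simp [h]
  | some r => simp

/-- Piece [nz]. -/
theorem p_nz (h_redk : S_redk.{u}) : S_nz.{u} := by
  intro K _ N I J _ _ _ _ A hEx m hm
  obtain ⟨u, hu⟩ := hm
  obtain ⟨hk1, hk2, hk3, -⟩ := h_redk K N
  rw [Matrix.mulVecLin_apply] at hu
  have h1 : (A.map red : Matrix I J (MvPolynomial (Fin N) K)).mulVec (fun j => red (u j)) = 0 := by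
    ext1 i
    have h2 := congrArg (red : MvPolynomial (Fin (N + 1)) K →ₐ[K] MvPolynomial (Fin N) K)
      (congrFun hu i)
    rw [Pi.smul_apply, smul_eq_mul, map_mul, hk3, zero_mul] at h2
    simp only [Matrix.mulVec, dotProduct, map_sum, map_mul] at h2
    simpa only [Matrix.mulVec, dotProduct, Matrix.map_apply, Pi.zero_apply] using h2
  obtain ⟨c, hc⟩ := (Submodule.mem_span_range_iff_exists_fun _).1 (hEx _ h1)
  have h2 : ∀ j, ∃ q : MvPolynomial (Fin (N + 1)) K,
      u j - ∑ y, rename Fin.succ (c y) * rel A y j = X 0 * q := by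
    intro j
    refine hk2 _ ?_
    rw [map_sub, map_sum]
    have h3 := congrFun hc j
    rw [Finset.sum_apply] at h3
    rw [← h3, sub_eq_zero]
    refine Finset.sum_congr rfl fun y _ => ?_
    rw [map_mul, hk1, Pi.smul_apply, smul_eq_mul]
    congr 1
    exact nz_rel_map
      (red : MvPolynomial (Fin (N + 1)) K →ₐ[K] MvPolynomial (Fin N) K).toRingHom A y j
  choose q hq using h2
  refine ⟨q, ?_⟩
  rw [Matrix.mulVecLin_apply]
  have h4 : (X 0 : MvPolynomial (Fin (N + 1)) K) • A.mulVec q =
      (X 0 : MvPolynomial (Fin (N + 1)) K) • m := by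
    rw [← hu, ← Matrix.mulVec_smul]
    have h5 : (X 0 : MvPolynomial (Fin (N + 1)) K) • q =
        u - ∑ y, rename Fin.succ (c y) • rel A y := by
      ext1 j
      rw [Pi.smul_apply, smul_eq_mul, ← hq j, Pi.sub_apply, Finset.sum_apply]
      rfl
    rw [h5, Matrix.mulVec_sub]
    have h6 : A.mulVec (∑ y, rename Fin.succ (c y) • rel A y) = 0 := by
      rw [← Matrix.mulVecLin_apply, map_sum]
      refine Finset.sum_eq_zero fun y _ => ?_
      rw [map_smul, Matrix.mulVecLin_apply, nz_mul_rel, smul_zero]
    rw [h6, sub_zero]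
  ext1 i
  have h5 := congrFun h4 i
  rw [Pi.smul_apply, Pi.smul_apply, smul_eq_mul, smul_eq_mul] at h5
  exact mul_left_cancel₀ (MvPolynomial.X_ne_zero 0) h5

end Pool.Agent.Lib.MP_09338f_ag
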