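import Pool.Agent.Lib.MP_09338f_ag.KM.Stm3

/-!
# Project KM, piece [r1a]: `RR1` for generic matrices, `1 ≤ c`, `c + 1 ≤ N`.
-/

set_option autoImplicit false

open MvPolynomial Matrix

universe u

namespace Pool.Agent.Lib.MP_09338f_ag

private theorem r1a_homD_zero {N : ℕ} {K : Type u} [CommSemiring K] (d : ℤ) :
    HomD d (0 : MvPolynomial (Fin N) K) := by
  intro m hm
  simp at hm

private theorem r1a_homD_one {N : ℕ} {K : Type u} [CommSemiring K] :
    HomD 0 (1 : MvPolynomial (Fin N) K) := by
  intro m hm
  classical
  rw [MvPolynomial.mem_support_iff, MvPolynomial.coeff_one] at hm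
  by_cases h : (0 : Fin N →₀ ℕ) = m
  · subst h
    simp
  · simp [h] at hm

private theorem r1a_homD_pow {N : ℕ} {K : Type u} [CommSemiring K] (i : Fin N) (d : ℕ) :
    HomD (d : ℤ) (X i ^ d : MvPolynomial (Fin N) K) := by
  intro m hm
  classical
  rw [MvPolynomial.mem_support_iff, MvPolynomial.coeff_X_pow] at hm
  by_cases h : Finsupp.single i d = m
  · subst h
    simp
  · simp [h] at hm

private theorem r1a_homD_X_mul {N : ℕ} {K : Type u} [CommSemiring K] (i : Fin N) (d : ℤ)
    (p : MvPolynomial (Fin N) K) (hp : HomD d p) : HomD (d + 1) (X i * p) := by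
  intro m hm
  classical
  rw [mul_comm, MvPolynomial.mem_support_iff, MvPolynomial.coeff_mul_X'] at hm
  by_cases h : i ∈ m.support
  · rw [if_pos h] at hm
    have h1 := hp (m - Finsupp.single i 1) (MvPolynomial.mem_support_iff.2 hm)
    have h2 : m - Finsupp.single i 1 + Finsupp.single i 1 = m := by
      ext j
      by_cases hj : j = i
      · subst hj
        have h3 : m j ≠ 0 := Finsupp.mem_support_iff.1 h
        simp only [Finsupp.coe_add, Finsupp.coe_tsub, Pi.add_apply, Pi.sub_apply,
          Finsupp.single_eq_same]
        omega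
      · have h3 : (Finsupp.single i 1 : Fin N →₀ ℕ) j = 0 := Finsupp.single_eq_of_ne hj
        simp only [Finsupp.coe_add, Finsupp.coe_tsub, Pi.add_apply, Pi.sub_apply, h3]
        omega
    have h4 : m.degree = (m - Finsupp.single i 1).degree + 1 := by
      conv_lhs => rw [← h2]
      rw [map_add, Finsupp.degree_single]
    rw [h4]
    push_cast
    rw [h1]
  · rw [if_neg h] at hm
    exact absurd rfl hm

private theorem r1a_inj {I J : Type} {R : Type u} [Fintype I] [DecidableEq I] [Fintype J]
    [DecidableEq J] [CommRing R] (h_rel : S_rel.{u}) (A : Matrix I J R) (hA : Ex1 A)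
    (hc : Fintype.card I = Fintype.card J) (x : J → R) (hx : A.mulVec x = 0) : x = 0 := by
  have h1 := hA x hx
  have h2 : Submodule.span R (Set.range (rel A)) = ⊥ := by
    rw [Submodule.span_eq_bot]
    rintro _ ⟨y, rfl⟩
    refine (h_rel R I J).2.1 A y ?_
    intro hy
    have h3 := Fintype.card_le_of_injective y hy
    rw [Fintype.card_option] at h3
    omega
  rw [h2] at h1
  exact (Submodule.mem_bot R).1 h1

theorem p_r1a (h_isc : S_isc) (h_r1s : S_r1s.{u}) (h_r1u : S_r1u.{u}) (h_r1q : S_r1q.{u})
    (h_spr : S_spr.{u}) (h_e1a : S_e1a.{u}) (h_e1s : S_e1s.{u}) (h_e1u : S_e1u.{u})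
    (h_nz : S_nz.{u}) (h_re : S_re.{u}) (h_gm : S_gm.{u}) (h_gs : S_gs.{u})
    (h_rel : S_rel.{u}) : S_r1a.{u} := by
  intro N I J _ _ _ _ a b hIJ hN hCD
  refine h_isc 1 (fun N I J _ _ _ _ a b => GR1.{u} N a b) ?_ ?_ ?_ ?_ ?_ N I J a b hIJ ?_ hCD
  · -- renaming
    intro N I J I' J' _ _ _ _ _ _ _ _ a b u v h
    exact (h_re N I J I' J' a b u v).2.1 h
  · -- no rows
    intro N I J _ _ _ _ a b hI k K _ _ _ A hA m hm
    have h0 : m = 0 := funext fun i => hI.elim i
    rw [h0]
    exact Submodule.zero_mem _
  · -- square case
    intro N I J _ _ _ _ a b α β hc hN hb ha hβα hCD1 hCD2 hP k K _ _ _ A hA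
    obtain ⟨N', rfl⟩ : ∃ N', N = N' + 1 := ⟨N - 1, by omega⟩
    have hG : Gen k a b (genMatrix k (N' + 1) a b) := h_gm k I J (N' + 1) a b
    have hGr : Gen k a b ((genMatrix k (N' + 1) a b).map red :
        Matrix I J (MvPolynomial (Fin N') (GenField k (N' + 1) a b))) :=
      (h_gs k (GenField k (N' + 1) a b) I J a b).2 N' _ hG
    have hE : Ex1 (genMatrix k (N' + 1) a b) :=
      h_e1a (N' + 1) I J a b (by omega) (by omega) hCD1 k (GenField k (N' + 1) a b) _ hG
    have hEr : Ex1 ((genMatrix k (N' + 1) a b).map red :
        Matrix I J (MvPolynomial (Fin N') (GenField k (N' + 1) a b))) :=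
      h_e1a N' I J a b (by omega) (by omega) hCD1 k (GenField k (N' + 1) a b) _ hGr
    refine h_spr k (GenField k (N' + 1) a b) K (Option I) (Option J) (N' + 1) (oext a α)
      (oext b β) (addCol (addRow (genMatrix k (N' + 1) a b) 0)
        (Pi.single none (X 0 ^ (α - β).toNat))) A ?_ ?_ ?_ hA
    · intro i j
      cases j with
      | none =>
        cases i with
        | none =>
          have h1 : HomD (((α - β).toNat : ℕ) : ℤ)
              (X 0 ^ (α - β).toNat : MvPolynomial (Fin (N' + 1)) (GenField k (N' + 1) a b)) :=
            r1a_homD_pow 0 _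
          rw [Int.toNat_of_nonneg (by omega)] at h1
          simpa [addCol, oext] using h1
        | some i =>
          simpa [addCol] using r1a_homD_zero _
      | some j =>
        cases i with
        | none => simpa [addCol, addRow] using r1a_homD_zero _
        | some i => exact hG.1 i j
    · intro x hx
      have hx0 : x = 0 := by
        have h1 : (fun j => x (some j)) = 0 := by
          refine r1a_inj h_rel _ hE hc _ ?_
          funext i
          have h2 := congrFun hx (some i)
          simp only [Matrix.mulVec, dotProduct, Fintype.sum_option, addCol, addRow,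
            Option.elim] at h2
          simpa [Matrix.mulVec, dotProduct] using h2
        funext j
        cases j with
        | some j => exact congrFun h1 j
        | none =>
          have h2 := congrFun hx none
          simp only [Matrix.mulVec, dotProduct, Fintype.sum_option, addCol, addRow,
            Option.elim] at h2
          simpa using h2
      rw [hx0]
      exact Submodule.zero_mem _
    · refine h_r1q (GenField k (N' + 1) a b) N' I J (genMatrix k (N' + 1) a b) _
        (hP k (GenField k (N' + 1) a b) _ hG)
        (h_nz (GenField k (N' + 1) a b) N' I J _ hEr) ?_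
      let e₀ : I ≃ J := Fintype.equivOfCardEq hc
      refine ⟨e₀, ?_⟩
      intro h0
      rw [AlgHom.map_det] at h0
      obtain ⟨v, hv0, hv⟩ := Matrix.exists_mulVec_eq_zero_iff.2 h0
      apply hv0
      have h1 : (fun j => v (e₀.symm j)) = 0 := by
        refine r1a_inj h_rel _ hEr hc _ ?_
        funext i
        have h2 := congrFun hv i
        simp only [Matrix.mulVec, dotProduct] at h2 ⊢
        rw [← h2]
        refine (Fintype.sum_equiv e₀ _ _ ?_).symm
        intro i'
        simp
      funext i
      have h2 := congrFun h1 (e₀ i)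
      simpa using h2
  · -- unit case
    intro N I J _ _ _ _ a b β hc hN hCD1 hCD2 hCD3 hP k K _ _ _ A hA
    have hG : Gen k a b (genMatrix k N a b) := h_gm k I J N a b
    refine h_spr k (GenField k N a b) K (Option I) (Option J) N (oext a β)
      (oext b β) (addCol (addRow (genMatrix k N a b) 0) (Pi.single none 1)) A ?_ ?_ ?_ hA
    · intro i j
      cases j with
      | none =>
        cases i with
        | none => simpa [addCol, oext] using r1a_homD_one
        | some i => simpa [addCol] using r1a_homD_zero _
      | some j =>
        cases i with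
        | none => simpa [addCol, addRow] using r1a_homD_zero _
        | some i => exact hG.1 i j
    · exact h_e1u _ I J _ 0
        (h_e1a N I J a b (by omega) (by omega) hCD1 k (GenField k N a b) _ hG)
    · exact h_r1u _ I J _ 0 (hP k (GenField k N a b) _ hG)
  · -- splitting case
    intro N I J _ _ _ _ a b α hI hc hN hb hCD1 hCD2 hCD3 hP hP2 k K _ _ _ A hA
    set G := genMatrix k (N + 1) (oext a α) b with hGdef
    have hG : Gen k (oext a α) b G := h_gm k I (Option J) (N + 1) (oext a α) b
    have hC : Gen k a b (G.submatrix id some) :=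
      (h_gs k (GenField k (N + 1) (oext a α) b) I (Option J) (oext a α) b).1 (N + 1) G hG I J id
        some Function.injective_id (Option.some_injective J)
    have hCr : Gen k a b ((G.submatrix id some).map red :
        Matrix I J (MvPolynomial (Fin N) (GenField k (N + 1) (oext a α) b))) :=
      (h_gs k (GenField k (N + 1) (oext a α) b) I J a b).2 N _ hC
    have hGr : Gen k (oext a α) b (G.map red :
        Matrix I (Option J) (MvPolynomial (Fin N) (GenField k (N + 1) (oext a α) b))) :=
      (h_gs k (GenField k (N + 1) (oext a α) b) I (Option J) (oext a α) b).2 N _ hG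
    have hadd : addCol (G.submatrix id some) (fun i => G i none) = G := by
      funext i j
      cases j <;> rfl
    have hEr : Ex1 ((G.submatrix id some).map red :
        Matrix I J (MvPolynomial (Fin N) (GenField k (N + 1) (oext a α) b))) :=
      h_e1a N I J a b hc (by omega) hCD1 k (GenField k (N + 1) (oext a α) b) _ hCr
    have hEG : Ex1 G :=
      h_e1a (N + 1) I (Option J) (oext a α) b (by rw [Fintype.card_option]; omega)
        (by rw [Fintype.card_option]; omega) hCD2 k (GenField k (N + 1) (oext a α) b) _ hG
    have hEGr : Ex1 (G.map red :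
        Matrix I (Option J) (MvPolynomial (Fin N) (GenField k (N + 1) (oext a α) b))) :=
      h_e1a N I (Option J) (oext a α) b (by rw [Fintype.card_option]; omega)
        (by rw [Fintype.card_option]; omega) hCD2 k (GenField k (N + 1) (oext a α) b) _ hGr
    refine h_spr k (GenField k (N + 1) (oext a α) b) K I (Option J) (N + 1) (oext a (α + 1)) b
      (addCol (G.submatrix id some)
        ((X 0 : MvPolynomial (Fin (N + 1)) (GenField k (N + 1) (oext a α) b)) •
          fun i => G i none)) A ?_ ?_ ?_ hA
    · intro i j
      cases j with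
      | none =>
        have h1 := r1a_homD_X_mul (0 : Fin (N + 1)) _ _ (hG.1 i none)
        have h2 : oext a α none - b i + 1 = oext a (α + 1) none - b i := by
          simp only [oext, Option.elim]
          ring
        rw [h2] at h1
        exact h1
      | some j => exact hC.1 i j
    · refine h_e1s _ N I J _ _ ?_ hEr
      rw [hadd]
      exact hEG
    · refine h_r1s _ N I J _ _ (hP k (GenField k (N + 1) (oext a α) b) _ hCr) ?_ ?_
        (h_nz _ N I J _ hEr)
      · rw [hadd]
        exact hP2 k (GenField k (N + 1) (oext a α) b) _ hG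
      · rw [hadd]
        exact h_nz _ N I (Option J) _ hEGr
  · omega

end Pool.Agent.Lib.MP_09338f_ag
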