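import Pool.Agent.Lib.MP_09338f_ag.KM.Stm1

/-!
# Project KM, piece [r1q]: `RR1` for a square matrix of the form `A' ⊕ (x_0^d)`
-/

set_option autoImplicit false

open MvPolynomial Matrix

universe u

namespace Pool.Agent.Lib.MP_09338f_ag

section

variable {I J : Type} {R : Type u} [Fintype I] [DecidableEq I] [Fintype J] [DecidableEq J]
  [CommRing R]

/-- expansion along the column `none` -/
private theorem r1q_detA (M : Matrix (Option I) (Option I) R) (h : ∀ i, M (some i) none = 0) :
    M.det = (M.submatrix some some).det * M none none := by
  have h1 : M.submatrix (Equiv.optionEquivSumPUnit.{0} I).symm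
      (Equiv.optionEquivSumPUnit.{0} I).symm =
      Matrix.fromBlocks (M.submatrix some some) 0
        (Matrix.of fun (_ : PUnit.{1}) j => M none (some j))
        (Matrix.of fun (_ _ : PUnit.{1}) => M none none) := by
    ext i j
    rcases i with i | i <;> rcases j with j | j
    · rfl
    · exact h i
    · rfl
    · rfl
  rw [← Matrix.det_submatrix_equiv_self (Equiv.optionEquivSumPUnit.{0} I).symm M, h1,
    Matrix.det_fromBlocks_zero₁₂]
  congr 1
  exact Matrix.det_unique _

/-- expansion along the row `none` -/
private theorem r1q_detB (M : Matrix (Option I) (Option I) R) (h : ∀ i, M none (some i) = 0) :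
    M.det = (M.submatrix some some).det * M none none := by
  rw [← Matrix.det_transpose, r1q_detA Mᵀ h, ← Matrix.det_transpose (M.submatrix some some)]
  rfl

omit [Fintype I] [DecidableEq J] in
/-- the image of `A' ⊕ (c)` -/
private theorem r1q_im (A' : Matrix I J R) (c : R) (v : Option I → R) :
    v ∈ Im (addCol (addRow A' 0) (Pi.single none c)) ↔
      (fun i => v (some i)) ∈ Im A' ∧ c ∣ v none := by
  constructor
  · rintro ⟨x, rfl⟩
    constructor
    · refine ⟨fun j => x (some j), ?_⟩
      funext i
      show ∑ j, A' i j * x (some j) = ∑ j : Option J, _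
      rw [Fintype.sum_option]
      show _ = (Pi.single none c : Option I → R) (some i) * x none + ∑ j, A' i j * x (some j)
      rw [Pi.single_eq_of_ne (Option.some_ne_none i), zero_mul, zero_add]
    · refine ⟨x none, ?_⟩
      show ∑ j : Option J, _ = c * x none
      rw [Fintype.sum_option]
      show (Pi.single none c : Option I → R) none * x none + ∑ j : J, (0 : R) * x (some j) = _
      rw [Pi.single_eq_same]
      simp
  · rintro ⟨⟨x, hx⟩, s, hs⟩
    refine ⟨fun j => j.elim s x, ?_⟩
    funext i
    cases i with
    | none =>
      show ∑ j : Option J, _ = _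
      rw [Fintype.sum_option, hs]
      show (Pi.single none c : Option I → R) none * s + ∑ j : J, (0 : R) * x j = _
      rw [Pi.single_eq_same]
      simp
    | some i =>
      show ∑ j : Option J, _ = _
      rw [Fintype.sum_option]
      show (Pi.single none c : Option I → R) (some i) * s + ∑ j, A' i j * x j = _
      rw [Pi.single_eq_of_ne (Option.some_ne_none i), zero_mul, zero_add]
      exact congrFun hx i

omit [Fintype I] in
private theorem r1q_single (i : I) (a : R) :
    (fun i' => (Pi.single (some i) a : Option I → R) (some i')) = Pi.single i a := by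
  funext i'
  by_cases h : i' = i
  · subst h
    rw [Pi.single_eq_same, Pi.single_eq_same]
  · rw [Pi.single_eq_of_ne h, Pi.single_eq_of_ne fun h' => h (Option.some_injective _ h')]

end

/-- [r1q] -/
theorem p_r1q (h_redk : S_redk.{u}) : S_r1q.{u} := by
  intro K _ N I J _ _ _ _ A' d hR hN hdet m hm
  obtain ⟨e₀, he₀⟩ := hdet
  obtain ⟨-, -, hX0, -⟩ := h_redk K N
  rw [r1q_im]
  constructor
  · -- the rows `some i`
    apply hR
    intro e k i
    have h1 := hm (Option.map e) (some k) (some i)
    rw [r1q_im] at h1
    have h2 := h1.1
    rw [r1q_single] at h2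
    set M := ((addCol (addRow A' 0) (Pi.single none (X 0 ^ d))).submatrix id
      (Option.map e)).updateCol (some k) m with hM
    have e1 : ∀ r, M r none = (Pi.single none (X 0 ^ d) :
        Option I → MvPolynomial (Fin (N + 1)) K) r := by
      intro r
      rw [hM, Matrix.updateCol_ne (Option.some_ne_none k).symm]
      rfl
    have e2 : M.det = (M.submatrix some some).det * X 0 ^ d := by
      rw [r1q_detA M fun i => by rw [e1, Pi.single_eq_of_ne (Option.some_ne_none i)], e1,
        Pi.single_eq_same]
    have e3 : M.submatrix some some =
        (A'.submatrix id e).updateCol k fun i => m (some i) := by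
      ext r s
      rw [Matrix.submatrix_apply, hM]
      by_cases hs : s = k
      · subst hs
        rw [Matrix.updateCol_self, Matrix.updateCol_self]
      · rw [Matrix.updateCol_ne hs, Matrix.updateCol_ne fun h' => hs (Option.some_injective _ h')]
        rfl
    rw [e2, e3] at h2
    have h3 : ∀ n : ℕ, ∀ δ : MvPolynomial (Fin (N + 1)) K,
        (Pi.single i (δ * X 0 ^ n) : I → MvPolynomial (Fin (N + 1)) K) ∈ Im A' →
        (Pi.single i δ : I → MvPolynomial (Fin (N + 1)) K) ∈ Im A' := by
      intro n
      induction n with
      | zero =>
        intro δ hδ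
        rwa [pow_zero, mul_one] at hδ
      | succ n ih =>
        intro δ hδ
        refine ih δ (hN _ ?_)
        rw [← Pi.single_smul', smul_eq_mul, mul_left_comm, ← pow_succ']
        exact hδ
    exact h3 d _ h2
  · -- the row `none`
    have h1 := hm (Option.map e₀) none none
    rw [r1q_im] at h1
    have h2 := h1.2
    rw [Pi.single_eq_same] at h2
    set M := ((addCol (addRow A' 0) (Pi.single none (X 0 ^ d))).submatrix id
      (Option.map e₀)).updateCol none m with hM
    have e1 : ∀ i, M none (some i) = 0 := by
      intro i
      rw [hM, Matrix.updateCol_ne (Option.some_ne_none i)]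
      rfl
    have e2 : M none none = m none := by
      rw [hM, Matrix.updateCol_self]
    have e3 : M.submatrix some some = A'.submatrix id e₀ := by
      ext r s
      rw [Matrix.submatrix_apply, hM, Matrix.updateCol_ne (Option.some_ne_none s)]
      rfl
    rw [r1q_detB M e1, e2, e3] at h2
    refine (MvPolynomial.X_prime).pow_dvd_of_dvd_mul_left d ?_ h2
    rintro ⟨c, hc⟩
    rw [hc, map_mul, hX0, zero_mul] at he₀
    exact he₀ rfl

end Pool.Agent.Lib.MP_09338f_ag
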