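import Mathlib
import Pool.Agent.Lib.MP_09338f_ag.KM.Stm1

/-!
# MP_09338f_ag, project KM, piece r1s: splitting step for `RR1`
-/

set_option autoImplicit false

open MvPolynomial Matrix

universe u

namespace Pool.Agent.Lib.MP_09338f_ag

section gen

variable {I J : Type} {R : Type u} [Fintype I] [DecidableEq I] [Fintype J] [DecidableEq J]
  [CommRing R]

private theorem r1s_mulVec (C : Matrix I J R) (w : I → R) (x : Option J → R) :
    (addCol C w).mulVec x = x none • w + C.mulVec (fun j => x (some j)) := by
  funext i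
  show ∑ j, addCol C w i j * x j = x none * w i + ∑ j, C i j * x (some j)
  rw [Fintype.sum_option]
  show w i * x none + ∑ j, C i j * x (some j) = _
  rw [mul_comm]

private theorem r1s_mem (A : Matrix I J R) (v : I → R) : v ∈ Im A ↔ ∃ u, A.mulVec u = v := by
  constructor
  · rintro ⟨u, hu⟩; exact ⟨u, hu⟩
  · rintro ⟨u, hu⟩; exact ⟨u, hu⟩

private theorem r1s_memAdd (C : Matrix I J R) (w v : I → R) :
    v ∈ Im (addCol C w) ↔ ∃ (s : R) (u : J → R), v = s • w + C.mulVec u := by
  rw [r1s_mem]
  constructor
  · rintro ⟨x, hx⟩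
    exact ⟨x none, fun j => x (some j), by rw [← hx, r1s_mulVec]⟩
  · rintro ⟨s, u, h⟩
    refine ⟨fun j => j.elim s u, ?_⟩
    rw [r1s_mulVec, h]
    rfl

private theorem r1s_single (A : Matrix I J R) (x y : R) (i : I) :
    Pi.single i (x * y) = x • (Pi.single i y : I → R) := by
  rw [← Pi.single_smul, smul_eq_mul]

end gen

section red

variable {K : Type u} [Field K] {N : ℕ} {I J : Type} [Fintype I] [DecidableEq I] [Fintype J]
  [DecidableEq J]

private theorem r1s_redMul (C : Matrix I J (MvPolynomial (Fin (N + 1)) K))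
    (u : J → MvPolynomial (Fin (N + 1)) K) (i : I) :
    (red (C.mulVec u i) : MvPolynomial (Fin N) K) =
      (C.map red : Matrix I J (MvPolynomial (Fin N) K)).mulVec (fun j => red (u j)) i := by
  show red (∑ j, C i j * u j) = ∑ j, red (C i j) * red (u j)
  rw [map_sum]
  exact Finset.sum_congr rfl (fun j _ => map_mul _ _ _)

private theorem r1s_redIm (hX : (red (X 0 : MvPolynomial (Fin (N + 1)) K) : MvPolynomial (Fin N) K) = 0)
    (C : Matrix I J (MvPolynomial (Fin (N + 1)) K)) (w v : I → MvPolynomial (Fin (N + 1)) K)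
    (h : v ∈ Im (addCol C ((X 0 : MvPolynomial (Fin (N + 1)) K) • w))) :
    (fun i => (red (v i) : MvPolynomial (Fin N) K)) ∈
      Im (C.map red : Matrix I J (MvPolynomial (Fin N) K)) := by
  obtain ⟨s, u, hv⟩ := (r1s_memAdd C _ v).1 h
  have h1 : ∀ i, (red (v i) : MvPolynomial (Fin N) K) =
      (C.map red : Matrix I J (MvPolynomial (Fin N) K)).mulVec (fun j => red (u j)) i := by
    intro i
    rw [← r1s_redMul, hv, Pi.add_apply, Pi.smul_apply, Pi.smul_apply, smul_eq_mul, smul_eq_mul,
      map_add, map_mul, map_mul, hX, zero_mul, mul_zero, zero_add]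
  exact (r1s_mem (C.map red : Matrix I J (MvPolynomial (Fin N) K)) _).2
    ⟨fun j => (red (u j) : MvPolynomial (Fin N) K), funext fun i => (h1 i).symm⟩

private theorem r1s_redDet (M : Matrix I I (MvPolynomial (Fin (N + 1)) K)) (k : I)
    (v : I → MvPolynomial (Fin (N + 1)) K) :
    (red ((M.updateCol k v).det) : MvPolynomial (Fin N) K) =
      ((M.map red).updateCol k (fun i => red (v i))).det := by
  rw [AlgHom.map_det]
  congr 1
  funext i j
  show red (M.updateCol k v i j) = (M.map red).updateCol k (fun i => red (v i)) i j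
  by_cases hj : j = k
  · rw [hj, Matrix.updateCol_self, Matrix.updateCol_self]
  · rw [Matrix.updateCol_ne hj, Matrix.updateCol_ne hj]
    rfl

end red

/-- [KM r1s] splitting step for `RR1`. -/
theorem p_r1s (h_mim : S_mim.{u}) (h_redk : S_redk.{u}) : S_r1s.{u} := by
  intro K _ N I J _ _ _ _ C w hRred hR2 hN2 hNC m hm
  obtain ⟨hsec, hdiv, hX, -, -, -⟩ := h_redk K N
  obtain ⟨x0, hx0⟩ : ∃ x0 : MvPolynomial (Fin (N + 1)) K, x0 = X 0 := ⟨_, rfl⟩
  rw [← hx0] at hm ⊢
  obtain ⟨A, hA⟩ : ∃ A, A = addCol C (x0 • w) := ⟨_, rfl⟩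
  obtain ⟨A2, hA2⟩ : ∃ A2, A2 = addCol C w := ⟨_, rfl⟩
  rw [← hA] at hm ⊢
  rw [← hA2] at hR2 hN2
  obtain ⟨hmin1, -, hmin3, -⟩ := h_mim (MvPolynomial (Fin (N + 1)) K) I (Option J) A
  -- (*)
  have hstar : ∀ v, x0 • v ∈ Im A → v ∈ Im A2 := by
    intro v hv
    rw [hA] at hv
    obtain ⟨s, u, h⟩ := (r1s_memAdd _ _ _).1 hv
    have h1 : (X 0 : MvPolynomial (Fin (N + 1)) K) • (v - s • w) ∈ Im C := by
      refine (r1s_mem _ _).2 ⟨u, ?_⟩
      rw [← hx0, smul_sub, h, smul_comm s x0 w]
      abel
    obtain ⟨u', hu'⟩ := (r1s_mem _ _).1 (hNC _ h1)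
    rw [hA2]
    exact (r1s_memAdd _ _ _).2 ⟨s, u', by rw [hu']; abel⟩
  -- step 1
  have h1 : (fun i => (red (m i) : MvPolynomial (Fin N) K)) ∈
      Im (C.map red : Matrix I J (MvPolynomial (Fin N) K)) := by
    refine hRred _ ?_
    intro e k i
    have h2 := hm (fun i => some (e i)) k i
    have h3 : (A.submatrix id (fun i => some (e i))).updateCol k m =
        (C.submatrix id e).updateCol k m := by
      rw [hA]
      funext i' j'
      by_cases hj : j' = k
      · rw [hj, Matrix.updateCol_self, Matrix.updateCol_self]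
      · rw [Matrix.updateCol_ne hj, Matrix.updateCol_ne hj]
        rfl
    rw [h3, hA, hx0] at h2
    have h4 := r1s_redIm hX C w _ h2
    have h5 : (fun i' => (red ((Pi.single i (((C.submatrix id e).updateCol k m).det) :
        I → MvPolynomial (Fin (N + 1)) K) i') : MvPolynomial (Fin N) K)) =
        Pi.single i ((((C.map red).submatrix id e).updateCol k (fun i => red (m i))).det) := by
      have h6 := r1s_redDet (C.submatrix id e) k m
      have h7 : (C.submatrix id e).map (red : MvPolynomial (Fin (N + 1)) K → MvPolynomial (Fin N) K) =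
        (C.map red).submatrix id e := rfl
      rw [h7] at h6
      rw [← h6]
      funext i'
      by_cases hi : i' = i
      · subst hi; rw [Pi.single_eq_same, Pi.single_eq_same]
      · rw [Pi.single_eq_of_ne hi, Pi.single_eq_of_ne hi, map_zero]
    rw [h5] at h4
    exact h4
  -- step 2
  obtain ⟨u0, hu0⟩ := (r1s_mem _ _).1 h1
  obtain ⟨u, hu⟩ : ∃ u : J → MvPolynomial (Fin (N + 1)) K, u = fun j => rename Fin.succ (u0 j) :=
    ⟨_, rfl⟩
  have h8 : ∀ i, (red (m i - C.mulVec u i) : MvPolynomial (Fin N) K) = 0 := by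
    intro i
    have h9 : (fun j => (red (u j) : MvPolynomial (Fin N) K)) = u0 := by
      funext j
      rw [hu]
      exact hsec (u0 j)
    rw [map_sub, r1s_redMul, h9, hu0, sub_self]
  have h10 : ∀ i, ∃ q, m i - C.mulVec u i = x0 * q := by
    intro i
    rw [hx0]
    exact hdiv _ (h8 i)
  choose m2 hm2 using h10
  have hmm : m = C.mulVec u + x0 • m2 := by
    funext i
    have := hm2 i
    show m i = C.mulVec u i + x0 * m2 i
    rw [← this]
    ring
  -- step 3
  have hCu : C.mulVec u = A.mulVec (fun j => j.elim 0 u) := by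
    rw [hA, r1s_mulVec]
    show _ = (0 : MvPolynomial (Fin (N + 1)) K) • (x0 • w) + C.mulVec u
    rw [zero_smul, zero_add]
  have h11 : ∀ (e : I → Option J) (k i : I),
      Pi.single i (((A.submatrix id e).updateCol k m2).det) ∈ Im A2 := by
    intro e k i
    refine hstar _ ?_
    have h12 := hm e k i
    rw [hmm, Matrix.det_updateCol_add, Matrix.det_updateCol_smul] at h12
    have h13 : (Pi.single i (((A.submatrix id e).updateCol k (C.mulVec u)).det) :
        I → MvPolynomial (Fin (N + 1)) K) ∈ Im A := by
      rw [hCu]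
      have := hmin1 _ (hmin3 (fun j => j.elim 0 u) e k) (Pi.single i 1)
      rw [← r1s_single A, mul_one] at this
      exact this
    have h14 := Submodule.sub_mem _ h12 h13
    rw [Pi.single_add, add_sub_cancel_left, r1s_single A] at h14
    exact h14
  -- step 4
  have h15 : ∀ (e : I → Option J) (k i : I),
      Pi.single i (((A2.submatrix id e).updateCol k m2).det) ∈ Im A2 := by
    intro e k i
    by_cases ha : ∀ k', k' ≠ k → e k' ≠ none
    · have h16 : (A2.submatrix id e).updateCol k m2 = (A.submatrix id e).updateCol k m2 := by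
        funext i' j'
        by_cases hj : j' = k
        · rw [hj, Matrix.updateCol_self, Matrix.updateCol_self]
        · rw [Matrix.updateCol_ne hj, Matrix.updateCol_ne hj]
          show A2 i' (e j') = A i' (e j')
          obtain ⟨j0, hj0⟩ := Option.ne_none_iff_exists'.1 (ha j' hj)
          rw [hj0, hA, hA2]
          rfl
      rw [h16]
      exact h11 e k i
    · push Not at ha
      obtain ⟨k1, hk1, hek1⟩ := ha
      by_cases hb : ∀ k2, k2 ≠ k → k2 ≠ k1 → e k2 ≠ none
      · have h17 : (A.submatrix id e).updateCol k m2 =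
            ((A2.submatrix id e).updateCol k m2).updateCol k1
              (x0 • fun i' => (A2.submatrix id e).updateCol k m2 i' k1) := by
          funext i' j'
          by_cases hj1 : j' = k1
          · rw [hj1, Matrix.updateCol_self, Matrix.updateCol_ne hk1]
            show A i' (e k1) = x0 * ((A2.submatrix id e).updateCol k m2 i' k1)
            rw [Matrix.updateCol_ne hk1]
            show A i' (e k1) = x0 * A2 i' (e k1)
            rw [hek1, hA, hA2]
            rfl
          · rw [Matrix.updateCol_ne hj1]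
            by_cases hj : j' = k
            · rw [hj, Matrix.updateCol_self, Matrix.updateCol_self]
            · rw [Matrix.updateCol_ne hj, Matrix.updateCol_ne hj]
              show A i' (e j') = A2 i' (e j')
              obtain ⟨j0, hj0⟩ := Option.ne_none_iff_exists'.1 (hb j' hj hj1)
              rw [hj0, hA, hA2]
              rfl
        have h18 : ((A.submatrix id e).updateCol k m2).det =
            x0 * ((A2.submatrix id e).updateCol k m2).det := by
          rw [h17, Matrix.det_updateCol_smul]
          congr 2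
          funext i' j'
          by_cases hj1 : j' = k1
          · rw [hj1, Matrix.updateCol_self]
          · rw [Matrix.updateCol_ne hj1]
        have h19 := h11 e k i
        rw [h18, r1s_single A, hx0] at h19
        exact hN2 _ h19
      · push Not at hb
        obtain ⟨k2, hk2, hk21, hek2⟩ := hb
        have h20 : ((A2.submatrix id e).updateCol k m2).det = 0 := by
          refine Matrix.det_zero_of_column_eq hk21 ?_
          intro i'
          rw [Matrix.updateCol_ne hk2, Matrix.updateCol_ne hk1]
          show A2 i' (e k2) = A2 i' (e k1)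
          rw [hek1, hek2]
        rw [h20, Pi.single_zero]
        exact Submodule.zero_mem _
  -- step 5
  have h21 := hR2 m2 h15
  rw [hA2] at h21
  obtain ⟨s, u', hu'⟩ := (r1s_memAdd _ _ _).1 h21
  rw [hA]
  refine (r1s_memAdd _ _ _).2 ⟨s, u + x0 • u', ?_⟩
  rw [hmm, hu', Matrix.mulVec_add, Matrix.mulVec_smul, smul_add, smul_comm s x0 w]
  abel

end Pool.Agent.Lib.MP_09338f_ag
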