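import Pool.Agent.Lib.MP_09338f_ag.KM.Stm1

/-!
# Project KM, piece [r1u]: the unit step for `RR1`
-/

set_option autoImplicit false

open MvPolynomial Matrix

universe u

namespace Pool.Agent.Lib.MP_09338f_ag

section

variable {I J : Type} {R : Type u} [Fintype I] [DecidableEq I] [Fintype J] [DecidableEq J]
  [CommRing R]

/-- A matrix whose column `none` is the unit vector. -/
private theorem r1u_det (B : Matrix (Option I) (Option I) R) (h0 : ∀ i, B (some i) none = 0)
    (h1 : B none none = 1) : B.det = (B.submatrix some some).det := by
  rw [← Matrix.det_submatrix_equiv_self (Equiv.optionEquivSumPUnit.{0, 0} I).symm B]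
  have h2 : B.submatrix (Equiv.optionEquivSumPUnit.{0, 0} I).symm (Equiv.optionEquivSumPUnit.{0, 0} I).symm =
      Matrix.fromBlocks (B.submatrix some some) 0
        (Matrix.of fun (_ : PUnit.{1}) (i : I) => B none (some i)) (1 : Matrix PUnit.{1} PUnit.{1} R) := by
    ext a b
    rcases a with a | a <;> rcases b with b | b
    · rfl
    · exact h0 a
    · rfl
    · rw [Matrix.fromBlocks_apply₂₂, Matrix.submatrix_apply]
      exact h1.trans (Matrix.one_apply_eq a).symm
  rw [h2, Matrix.det_fromBlocks_zero₁₂, Matrix.det_one, mul_one]

/-- The image of the extended matrix. -/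
private theorem r1u_im (A' : Matrix I J R) (r : J → R) (v : Option I → R) :
    v ∈ Im (addCol (addRow A' r) (Pi.single none 1)) ↔ (fun i => v (some i)) ∈ Im A' := by
  constructor
  · rintro ⟨w, rfl⟩
    refine ⟨fun j => w (some j), ?_⟩
    funext i
    rw [Matrix.mulVecLin_apply, Matrix.mulVecLin_apply, Matrix.mulVec, Matrix.mulVec, dotProduct,
      dotProduct, Fintype.sum_option]
    have h1 : addCol (addRow A' r) (Pi.single none 1) (some i) none = 0 := by
      unfold addCol
      rw [Option.elim_none, Pi.single_eq_of_ne (Option.some_ne_none i)]
    rw [h1, zero_mul, zero_add]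
    rfl
  · rintro ⟨w, hw⟩
    refine ⟨fun o => o.elim (v none - ∑ j, r j * w j) w, ?_⟩
    funext o
    rw [Matrix.mulVecLin_apply, Matrix.mulVec, dotProduct, Fintype.sum_option]
    cases o with
    | none =>
      have h1 : addCol (addRow A' r) (Pi.single none 1) none none = 1 := by
        unfold addCol
        rw [Option.elim_none, Pi.single_eq_same]
      rw [h1, one_mul, Option.elim_none]
      have h2 : ∑ j, addCol (addRow A' r) (Pi.single none 1) none (some j) *
          (some j).elim (v none - ∑ j, r j * w j) w = ∑ j, r j * w j := rfl
      rw [h2, sub_add_cancel]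
    | some i =>
      have h1 : addCol (addRow A' r) (Pi.single none 1) (some i) none = 0 := by
        unfold addCol
        rw [Option.elim_none, Pi.single_eq_of_ne (Option.some_ne_none i)]
      rw [h1, zero_mul, zero_add]
      have h2 := congrFun hw i
      rw [Matrix.mulVecLin_apply, Matrix.mulVec, dotProduct] at h2
      exact h2

end

theorem p_r1u : S_r1u.{u} := by
  intro R _ I J _ _ _ _ A' r hA' m hm
  rw [r1u_im]
  apply hA'
  intro e k i
  have h1 := hm (fun o => o.elim none (fun i' => some (e i'))) (some k) (some i)
  rw [r1u_im, r1u_det] at h1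
  · have h2 : (((addCol (addRow A' r) (Pi.single none 1)).submatrix id
        (fun o : Option I => o.elim none (fun i' => some (e i')))).updateCol (some k) m).submatrix
          some some = (A'.submatrix id e).updateCol k (fun i => m (some i)) := by
      ext a b
      rw [Matrix.submatrix_apply, Matrix.updateCol_apply, Matrix.updateCol_apply]
      by_cases hb : b = k
      · rw [if_pos hb, if_pos (congrArg some hb)]
      · rw [if_neg hb, if_neg (fun h => hb (Option.some_injective _ h))]
        rfl
    rw [h2] at h1
    have h3 : (fun i_1 => (Pi.single (some i)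
        ((A'.submatrix id e).updateCol k (fun i => m (some i))).det : Option I → R) (some i_1)) =
        Pi.single i ((A'.submatrix id e).updateCol k (fun i => m (some i))).det := by
      funext a
      by_cases ha : a = i
      · rw [ha, Pi.single_eq_same, Pi.single_eq_same]
      · rw [Pi.single_eq_of_ne ha, Pi.single_eq_of_ne (fun h => ha (Option.some_injective _ h))]
    rw [h3] at h1
    exact h1
  · intro a
    rw [Matrix.updateCol_ne (Option.some_ne_none k).symm, Matrix.submatrix_apply]
    unfold addCol
    rw [Option.elim_none, Option.elim_none, id, Pi.single_eq_of_ne (Option.some_ne_none a)]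
  · rw [Matrix.updateCol_ne (Option.some_ne_none k).symm, Matrix.submatrix_apply]
    unfold addCol
    rw [Option.elim_none, Option.elim_none, id, Pi.single_eq_same]

end Pool.Agent.Lib.MP_09338f_ag
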