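import Pool.Agent.Lib.MP_09338f_ag.KM.Stm2

/-!
# Project KM, piece [re]: change of the index types
-/

set_option autoImplicit false

open MvPolynomial Matrix

universe u

namespace Pool.Agent.Lib.MP_09338f_ag

theorem p_re (h_gs : S_gs.{u}) (h_rx : S_rx.{u}) : S_re.{u} := by
  intro N I J I' J' _ _ _ _ _ _ _ _ a b u v
  refine ⟨fun h k K _ _ _ A hA => ?_, fun h k K _ _ _ A hA => ?_, fun h k K _ _ _ A hA => ?_⟩
  · have hg := (h_gs k K I J a b).1 N A hA I' J' u v u.injective v.injective
    exact (h_rx (MvPolynomial (Fin N) K) I J I' J' u v A).2.2.1.1 (h k K (A.submatrix u v) hg)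
  · have hg := (h_gs k K I J a b).1 N A hA I' J' u v u.injective v.injective
    exact (h_rx (MvPolynomial (Fin N) K) I J I' J' u v A).2.2.2.1.1 (h k K (A.submatrix u v) hg)
  · have hg := (h_gs k K I J a b).1 N A hA I' J' u v u.injective v.injective
    exact (h_rx (MvPolynomial (Fin N) K) I J I' J' u v A).2.2.2.2.1.1 (h k K (A.submatrix u v) hg)

end Pool.Agent.Lib.MP_09338f_ag
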