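import Pool.Agent.Lib.MP_09338f_ag.KM.Stm1

/-!
# [KM redk] the kernel of `red` and its section (helper78)
-/

set_option autoImplicit false

open MvPolynomial Matrix

universe u

namespace Pool.Agent.Lib.MP_09338f_ag

private theorem redk_X0 {K : Type u} [Field K] {N : ℕ} :
    red (X 0 : MvPolynomial (Fin (N + 1)) K) = (0 : MvPolynomial (Fin N) K) := by
  unfold red
  rw [aeval_X, Fin.cons_zero]

private theorem redk_Xs {K : Type u} [Field K] {N : ℕ} (j : Fin N) :
    red (X j.succ : MvPolynomial (Fin (N + 1)) K) = (X j : MvPolynomial (Fin N) K) := by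
  unfold red
  rw [aeval_X, Fin.cons_succ]

private theorem redk_fin {K : Type u} [Field K] {N : ℕ} (p : MvPolynomial (Fin (N + 1)) K) :
    (red p : MvPolynomial (Fin N) K) = Polynomial.coeff (finSuccEquiv K N p) 0 := by
  induction p using MvPolynomial.induction_on with
  | C a =>
    have h1 : (red (C a : MvPolynomial (Fin (N + 1)) K) : MvPolynomial (Fin N) K) = C a := by
      unfold red
      rw [aeval_C]
      rfl
    rw [h1, finSuccEquiv_apply]
    simp
  | add p q hp hq => rw [map_add, map_add, Polynomial.coeff_add, hp, hq]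
  | mul_X p i hp =>
    rw [map_mul, map_mul]
    refine Fin.cases ?_ (fun j => ?_) i
    · rw [redk_X0, finSuccEquiv_X_zero, mul_zero, Polynomial.coeff_mul_X_zero]
    · rw [redk_Xs, finSuccEquiv_X_succ, Polynomial.coeff_mul_C, hp]

private theorem redk_coeff {K : Type u} [Field K] {N : ℕ} (p : MvPolynomial (Fin (N + 1)) K)
    (m : Fin N →₀ ℕ) : coeff m (red p : MvPolynomial (Fin N) K) = coeff (m.cons 0) p := by
  rw [redk_fin, finSuccEquiv_coeff_coeff]

private theorem redk_sec {K : Type u} [Field K] {N : ℕ} (p : MvPolynomial (Fin N) K) :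
    red (rename Fin.succ p) = p := by
  unfold red
  rw [aeval_rename]
  have h : ((Fin.cons (0 : MvPolynomial (Fin N) K) fun i => X i :
      Fin (N + 1) → MvPolynomial (Fin N) K) ∘ Fin.succ) = X := by
    funext i
    simp
  rw [h, aeval_X_left, AlgHom.id_apply]

private theorem redk_dvd {K : Type u} [Field K] {N : ℕ} (p : MvPolynomial (Fin (N + 1)) K) :
    ∃ q : MvPolynomial (Fin (N + 1)) K,
      p - rename Fin.succ (red p : MvPolynomial (Fin N) K) = X 0 * q := by
  induction p using MvPolynomial.induction_on with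
  | C a =>
    refine ⟨0, ?_⟩
    have h1 : (red (C a : MvPolynomial (Fin (N + 1)) K) : MvPolynomial (Fin N) K) = C a := by
      unfold red
      rw [aeval_C]
      rfl
    rw [h1, rename_C, sub_self, mul_zero]
  | add p q hp hq =>
    obtain ⟨a, ha⟩ := hp
    obtain ⟨b, hb⟩ := hq
    refine ⟨a + b, ?_⟩
    rw [map_add, map_add, mul_add, ← ha, ← hb]
    ring
  | mul_X p i hp =>
    obtain ⟨a, ha⟩ := hp
    revert ha
    refine Fin.cases ?_ (fun j => ?_) i
    · intro _
      refine ⟨p, ?_⟩
      rw [map_mul, redk_X0, mul_zero, map_zero, sub_zero, mul_comm]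
    · intro ha
      refine ⟨a * X j.succ, ?_⟩
      rw [map_mul, redk_Xs, map_mul, rename_X, ← mul_assoc, ← ha]
      ring

theorem p_redk : S_redk.{u} := by
  intro K _ N
  refine ⟨redk_sec, ?_, redk_X0, ?_, ?_, ?_⟩
  · intro p hp
    obtain ⟨q, hq⟩ := redk_dvd p
    rw [hp, map_zero, sub_zero] at hq
    exact ⟨q, hq⟩
  · intro d p hp m hm
    rw [mem_support_iff, redk_coeff] at hm
    have h1 := hp _ (mem_support_iff.2 hm)
    rw [← h1]
    congr 1
    rw [Finsupp.degree_eq_sum, Finsupp.degree_eq_sum, Fin.sum_univ_succ]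
    simp
  · intro d p hp m hm
    classical
    rw [support_rename_of_injective (Fin.succ_injective N), Finset.mem_image] at hm
    obtain ⟨m', hm', rfl⟩ := hm
    rw [Finsupp.degree_mapDomain]
    exact hp m' hm'
  · intro d p hp m hm
    have h1 : Finsupp.single 0 1 + m ∈ (X 0 * p).support := by
      rw [mem_support_iff, coeff_X_mul]
      exact mem_support_iff.1 hm
    have h2 := hp _ h1
    rw [map_add, Finsupp.degree_single] at h2
    push_cast at h2
    linarith

end Pool.Agent.Lib.MP_09338f_ag
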