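import Pool.Agent.Lib.MP_09338f_ag.KM.Stm1

/-!
# Project KM, piece [rel]: first properties of the Cramer relations
-/

set_option autoImplicit false

open MvPolynomial Matrix

universe u

namespace Pool.Agent.Lib.MP_09338f_ag

section

variable {I J : Type} {R : Type u} [Fintype I] [DecidableEq I] [Fintype J] [DecidableEq J]
  [CommRing R]

/-- The matrix with the row `none` equal to `0`. -/
private def rel_B (A : Matrix I J R) (y : Option I → J) : Matrix (Option I) (Option I) R :=
  Matrix.of fun (r s : Option I) => r.elim (0 : R) fun i => A i (y s)

omit [Fintype I] [Fintype J] [DecidableEq J] in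
private theorem rel_upd (A : Matrix I J R) (y : Option I → J) (v : Option I → R) :
    (Matrix.of fun (r s : Option I) => r.elim (v s) fun i => A i (y s)) =
      (rel_B A y).updateRow none v := by
  ext r s
  cases r with
  | none => rw [Matrix.updateRow_self]; rfl
  | some i => rw [Matrix.updateRow_ne (Option.some_ne_none i)]; rfl

private theorem rel_eq (A : Matrix I J R) (y : Option I → J) (j : J) :
    rel A y j = Matrix.cramer (rel_B A y)ᵀ (fun s => if y s = j then (1 : R) else 0) none := by
  rw [Matrix.cramer_transpose_apply, ← rel_upd A y (fun s => if y s = j then (1 : R) else 0)]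
  rfl

end

theorem p_rel : S_rel.{u} := by
  intro R _ I J _ _ _ _
  refine ⟨?_, ?_, ?_⟩
  · intro A y
    funext i
    rw [Matrix.mulVec, dotProduct, Pi.zero_apply]
    have h1 : ∑ j, A i j * rel A y j =
        Matrix.cramer (rel_B A y)ᵀ
          (∑ j, A i j • (fun s => if y s = j then (1 : R) else 0)) none := by
      rw [map_sum, Finset.sum_apply]
      refine Finset.sum_congr rfl fun j _ => ?_
      rw [map_smul, Pi.smul_apply, smul_eq_mul, ← rel_eq]
    have h2 : (∑ j, A i j • (fun s => if y s = j then (1 : R) else 0)) =
        fun s => A i (y s) := by
      funext s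
      rw [Finset.sum_apply]
      simp only [Pi.smul_apply, smul_eq_mul, mul_ite, mul_one, mul_zero]
      rw [Finset.sum_ite_eq]
      simp
    rw [h1, h2, Matrix.cramer_transpose_apply]
    refine Matrix.det_zero_of_row_eq (Option.some_ne_none i).symm ?_
    funext s
    rw [Matrix.updateRow_self, Matrix.updateRow_ne (Option.some_ne_none i)]
    rfl
  · intro A y hy
    rw [Function.Injective] at hy
    push Not at hy
    obtain ⟨s, s', h1, h2⟩ := hy
    funext j
    unfold rel
    rw [Pi.zero_apply]
    refine Matrix.det_zero_of_column_eq h2 ?_
    intro r
    cases r with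
    | none =>
      rw [Matrix.of_apply, Matrix.of_apply]
      simp only [Option.elim_none, h1]
    | some i =>
      rw [Matrix.of_apply, Matrix.of_apply]
      simp only [Option.elim_some, h1]
  · intro C w y
    funext j
    cases j with
    | none =>
      unfold rel
      rw [Option.elim_none]
      refine Matrix.det_eq_zero_of_row_eq_zero none ?_
      intro s
      rw [Matrix.of_apply, Option.elim_none, if_neg (Option.some_ne_none _)]
    | some j =>
      unfold rel
      rw [Option.elim_some]
      congr 1
      ext r s
      cases r with
      | none =>
        rw [Matrix.of_apply, Matrix.of_apply]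
        simp only [Option.elim_none, Option.some_inj]
      | some i =>
        rw [Matrix.of_apply, Matrix.of_apply]
        rfl

end Pool.Agent.Lib.MP_09338f_ag
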