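import Pool.Agent.Lib.MP_09338f_ag.KM.Stm1

set_option autoImplicit false

open MvPolynomial Matrix

universe u

namespace Pool.Agent.Lib.MP_09338f_ag

theorem reld_zero {N : ℕ} {K : Type u} [CommSemiring K] (d : ℤ) :
    HomD d (0 : MvPolynomial (Fin N) K) := by
  intro m hm
  simp at hm

theorem reld_one {N : ℕ} {K : Type u} [CommSemiring K] :
    HomD 0 (1 : MvPolynomial (Fin N) K) := by
  intro m hm
  rw [mem_support_iff, coeff_one] at hm
  by_cases h : (0 : Fin N →₀ ℕ) = m
  · subst h
    simp
  · rw [if_neg h] at hm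
    exact absurd rfl hm

theorem reld_add {N : ℕ} {K : Type u} [CommSemiring K] {d : ℤ} {p q : MvPolynomial (Fin N) K}
    (hp : HomD d p) (hq : HomD d q) : HomD d (p + q) := by
  intro m hm
  have h := MvPolynomial.support_add hm
  rw [Finset.mem_union] at h
  rcases h with h | h
  · exact hp m h
  · exact hq m h

theorem reld_mul {N : ℕ} {K : Type u} [CommSemiring K] {d e : ℤ} {p q : MvPolynomial (Fin N) K}
    (hp : HomD d p) (hq : HomD e q) : HomD (d + e) (p * q) := by
  intro m hm
  have h := MvPolynomial.support_mul p q hm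
  rw [Finset.mem_add] at h
  obtain ⟨m1, h1, m2, h2, rfl⟩ := h
  have a1 := hp m1 h1
  have a2 := hq m2 h2
  rw [map_add]
  push_cast
  rw [a1, a2]

theorem reld_neg {N : ℕ} {K : Type u} [CommRing K] {d : ℤ} {p : MvPolynomial (Fin N) K}
    (hp : HomD d p) : HomD d (-p) := by
  intro m hm
  apply hp
  rw [mem_support_iff, coeff_neg] at hm
  rw [mem_support_iff]
  intro h
  apply hm
  rw [h, neg_zero]

theorem reld_sum {N : ℕ} {K : Type u} [CommSemiring K] {ι : Type} (s : Finset ι) {d : ℤ}
    (f : ι → MvPolynomial (Fin N) K) (h : ∀ i ∈ s, HomD d (f i)) : HomD d (∑ i ∈ s, f i) := by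
  classical
  induction s using Finset.induction_on with
  | empty => rw [Finset.sum_empty]; exact reld_zero d
  | insert a s ha ih =>
    rw [Finset.sum_insert ha]
    exact reld_add (h a (Finset.mem_insert_self a s))
      (ih fun i hi => h i (Finset.mem_insert_of_mem hi))

theorem reld_prod {N : ℕ} {K : Type u} [CommSemiring K] {ι : Type} (s : Finset ι) (d : ι → ℤ)
    (f : ι → MvPolynomial (Fin N) K) (h : ∀ i ∈ s, HomD (d i) (f i)) :
    HomD (∑ i ∈ s, d i) (∏ i ∈ s, f i) := by
  classical
  induction s using Finset.induction_on with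
  | empty => rw [Finset.sum_empty, Finset.prod_empty]; exact reld_one
  | insert a s ha ih =>
    rw [Finset.sum_insert ha, Finset.prod_insert ha]
    exact reld_mul (h a (Finset.mem_insert_self a s))
      (ih fun i hi => h i (Finset.mem_insert_of_mem hi))

theorem reld_det {N : ℕ} {K : Type u} [CommRing K] {I : Type} [Fintype I] [DecidableEq I]
    (α β : I → ℤ) (M : Matrix I I (MvPolynomial (Fin N) K))
    (h : ∀ r s, HomD (α s - β r) (M r s)) : HomD (∑ s, α s - ∑ r, β r) M.det := by
  rw [Matrix.det_apply]
  apply reld_sum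
  intro σ _
  have h1 : HomD (∑ s, (α s - β (σ s))) (∏ s, M (σ s) s) :=
    reld_prod Finset.univ (fun s => α s - β (σ s)) (fun s => M (σ s) s) (fun s _ => h (σ s) s)
  have h2 : ∑ s, (α s - β (σ s)) = ∑ s, α s - ∑ r, β r := by
    rw [Finset.sum_sub_distrib, Equiv.sum_comp σ β]
  rw [h2] at h1
  rcases Int.units_eq_one_or (Equiv.Perm.sign σ) with h3 | h3
  · rw [h3, one_smul]; exact h1
  · rw [h3, Units.neg_smul, one_smul]; exact reld_neg h1

theorem reld_upd {N : ℕ} {K : Type u} [CommRing K] {I J : Type} [Fintype I] [DecidableEq I]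
    [Fintype J] [DecidableEq J] (a : J → ℤ) (b : I → ℤ) (A : Matrix I J (MvPolynomial (Fin N) K))
    (hA : HomM a b A) (m : I → MvPolynomial (Fin N) K) (δ : ℤ) (hm : ∀ i, HomD (δ - b i) (m i))
    (e : I → J) (k : I) : HomD (∑ i, a (e i) - a (e k) + δ - ∑ i, b i)
      (((A.submatrix id e).updateCol k m).det) := by
  have h := reld_det (fun s => if s = k then δ else a (e s)) b ((A.submatrix id e).updateCol k m) (by
    intro r s
    by_cases hs : s = k
    · subst hs
      rw [Matrix.updateCol_self, if_pos rfl]
      exact hm r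
    · rw [Matrix.updateCol_ne hs, if_neg hs]
      exact hA r (e s))
  have h2 : ∑ s, (if s = k then δ else a (e s)) = ∑ i, a (e i) - a (e k) + δ := by
    have h3 : ∀ s, (if s = k then δ else a (e s)) = a (e s) + (if s = k then δ - a (e k) else 0) := by
      intro s
      by_cases hs : s = k
      · subst hs
        rw [if_pos rfl, if_pos rfl]; ring
      · rw [if_neg hs, if_neg hs]; ring
    rw [Finset.sum_congr rfl (fun s _ => h3 s), Finset.sum_add_distrib, Finset.sum_ite_eq' Finset.univ k,
      if_pos (Finset.mem_univ k)]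
    ring
  rw [h2] at h
  exact h

theorem p_reld : S_reld.{u} := by
  intro K _ N I J _ _ _ _ a b A hA
  refine ⟨?_, ?_, ?_, ?_⟩
  · intro y j
    have h := reld_det (fun s => a (y s)) (fun r => r.elim (a j) b) (Matrix.of fun (r s : Option I) =>
      r.elim (if y s = j then (1 : MvPolynomial (Fin N) K) else 0) fun i => A i (y s)) (by
      intro r s
      cases r with
      | none =>
        simp only [Matrix.of_apply, Option.elim]
        by_cases hs : y s = j
        · rw [if_pos hs, hs, sub_self]; exact reld_one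
        · rw [if_neg hs]; exact reld_zero _
      | some i =>
        simp only [Matrix.of_apply, Option.elim]
        exact hA i (y s))
    have h2 : ∑ r : Option I, r.elim (a j) b = a j + ∑ i, b i := by
      rw [Fintype.sum_option]
      simp
    rw [h2] at h
    have h3 : ∑ s, a (y s) - (a j + ∑ i, b i) = ∑ s, a (y s) - ∑ i, b i - a j := by ring
    rw [h3] at h
    exact h
  · intro e
    exact reld_det (fun s => a (e s)) b (A.submatrix id e) (fun r s => hA r (e s))
  · intro B hB e
    unfold dd
    apply reld_sum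
    intro k _
    have h := reld_upd a b A hA (fun i => B i (e k)) (a (e k)) (fun i => hB i (e k)) e k
    have h2 : ∑ i, a (e i) - a (e k) + a (e k) - ∑ i, b i = ∑ i, a (e i) - ∑ i, b i := by ring
    rw [h2] at h
    exact h
  · intro m δ hm e k
    exact reld_upd a b A hA m δ hm e k

end Pool.Agent.Lib.MP_09338f_ag
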