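import Mathlib
import Pool.Agent.Lib.MP_09338f_ag.KM.Stm2
set_option autoImplicit false
open Matrix MvPolynomial
universe u
namespace Pool.Agent.Lib.MP_09338f_ag

theorem p_rh (h_gs : S_gs.{u}) : S_rh.{u} := by
  intro N I J1 J2 I' J1' J2' _ _ _ _ _ _ _ _ _ _ _ _ a1 a2 b u v v' h
  intro k K _ _ _ C W hg
  have hcols : Matrix.fromCols (C.submatrix u v) (W.submatrix u v') =
      (Matrix.fromCols C W).submatrix u (Equiv.sumCongr v v') := by
    ext i j
    rcases j with j | j <;> rfl
  have hg' := (h_gs k K I (J1 ⊕ J2) (Sum.elim a1 a2) b).1 N (Matrix.fromCols C W) hg I' (J1' ⊕ J2')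
    u (Equiv.sumCongr v v') u.injective (Equiv.injective _)
  have hdeg : Sum.elim a1 a2 ∘ (Equiv.sumCongr v v') = Sum.elim (a1 ∘ v) (a2 ∘ v') := by
    funext j
    rcases j with j | j <;> rfl
  rw [hdeg, ← hcols] at hg'
  have hHP := h k K _ _ hg'
  intro X hX V hXV
  have e1 : X.submatrix u u * C.submatrix u v =
      Matrix.fromCols (C.submatrix u v) (W.submatrix u v') *
        V.submatrix (Equiv.sumCongr v v') v := by
    rw [hcols, Matrix.submatrix_mul_equiv, Matrix.submatrix_mul_equiv, hXV]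
  obtain ⟨s, Z, hZ⟩ := hHP (X.submatrix u u) (fun i j => hX (u i) (u j)) _ e1
  refine ⟨s, Z.submatrix (Equiv.sumCongr v v').symm u.symm, ?_⟩
  have e3 : X.submatrix u u = (s • (1 : Matrix I I (MvPolynomial (Fin N) K)) +
      Matrix.fromCols C W * Z.submatrix (Equiv.sumCongr v v').symm u.symm).submatrix u u := by
    rw [hZ, hcols]
    ext1 i j
    simp only [Matrix.add_apply, Matrix.smul_apply, Matrix.submatrix_apply, Matrix.mul_apply]
    congr 1
    · congr 1
      simp only [Matrix.one_apply, u.injective.eq_iff]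
    · refine Fintype.sum_equiv (Equiv.sumCongr v v') _ _ fun q => ?_
      simp
  ext1 i j
  have := congrFun (congrFun e3 (u.symm i)) (u.symm j)
  simpa using this

end Pool.Agent.Lib.MP_09338f_ag
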