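import Pool.Agent.Lib.MP_09338f_ag.KM.Stm4

/-!
# Project KM, piece rkn: rank–nullity in degree `d`
-/

set_option autoImplicit false

open MvPolynomial Matrix

universe u

namespace Pool.Agent.Lib.MP_09338f_ag

private theorem rkn_gen {K V W : Type u} [Field K] [AddCommGroup V] [Module K V] [AddCommGroup W]
    [Module K W] (f : V →ₗ[K] W) (S : Submodule K V) [Module.Finite K S] :
    Module.finrank K (S.map f) + Module.finrank K (S ⊓ LinearMap.ker f : Submodule K V) =
      Module.finrank K S := by
  have h := LinearMap.finrank_range_add_finrank_ker (f.domRestrict S)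
  rw [LinearMap.range_domRestrict, LinearMap.ker_domRestrict] at h
  rw [← h, ← Submodule.map_comap_subtype, Submodule.finrank_map_subtype_eq]

private noncomputable def rkn_eq {K V W : Type u} [Field K] [AddCommGroup V] [Module K V]
    [AddCommGroup W] [Module K W] (S : Submodule K V) (T : Submodule K W) :
    (S.prod T : Submodule K (V × W)) ≃ₗ[K] (S × T) where
  toFun x := (⟨x.1.1, x.2.1⟩, ⟨x.1.2, x.2.2⟩)
  map_add' _ _ := rfl
  map_smul' _ _ := rfl
  invFun x := ⟨(x.1.1, x.2.1), x.1.2, x.2.2⟩
  left_inv _ := rfl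
  right_inv _ := rfl

theorem p_rkn (h_mon : S_mon.{u}) : S_rkn.{u} := by
  intro N K _ I J _ _ _ _ a b A
  obtain ⟨_, h2, h3, _⟩ := h_mon
  refine ⟨fun d => ?_, ?_⟩
  · haveI := (h2 N K J a d).1
    rw [← (h2 N K J a d).2]
    exact rkn_gen _ _
  · haveI := (h3 N K I I b b).1
    haveI := (h3 N K J J a a).1
    haveI : Module.Finite K ((matS N K b b).prod (matS N K a a) :
        Submodule K (Matrix I I (MvPolynomial (Fin N) K) × Matrix J J (MvPolynomial (Fin N) K))) :=
      Module.Finite.equiv (rkn_eq _ _).symm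
    have h := rkn_gen (comm A A) ((matS N K b b).prod (matS N K a a))
    rw [(rkn_eq (matS N K b b) (matS N K a a)).finrank_eq, Module.finrank_prod,
      (h3 N K I I b b).2, (h3 N K J J a a).2] at h
    exact h

end Pool.Agent.Lib.MP_09338f_ag
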