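import Pool.Agent.Lib.MP_09338f_ag.KM.Stm2

/-!
# Project KM, piece rt: change of the index types for `TP`
-/

set_option autoImplicit false

open MvPolynomial Matrix

universe u

namespace Pool.Agent.Lib.MP_09338f_ag

/-- [rt] change of the index types for `TP`. -/
theorem p_rt (h_gs : S_gs.{u}) (h_rx : S_rx.{u}) : S_rt.{u} := by
  intro N I J I' J' _ _ _ _ _ _ _ _ a b u v hTP k K _ _ _ A hA B hB hT
  have hA' : Gen k (a ∘ v) (b ∘ u) (A.submatrix u v) :=
    (h_gs k K I J a b).1 N A hA I' J' u v u.injective v.injective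
  have hB' : HomM (a ∘ v) (b ∘ u) (B.submatrix u v) := fun i j => hB (u i) (v j)
  have hT' : Tp (A.submatrix u v) (B.submatrix u v) :=
    ((h_rx _ I J I' J' u v A).2.2.2.2.2 B).2 hT
  obtain ⟨X', Y', hX', hY', hE⟩ := hTP k K _ hA' _ hB' hT'
  have hAs : A = (A.submatrix u v).submatrix u.symm v.symm := by
    ext1 i j
    simp
  have hBs : B = (B.submatrix u v).submatrix u.symm v.symm := by
    ext1 i j
    simp
  refine ⟨X'.submatrix u.symm u.symm, Y'.submatrix v.symm v.symm, ?_, ?_, ?_⟩
  · intro i i'
    have h := hX' (u.symm i) (u.symm i')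
    simpa using h
  · intro j j'
    have h := hY' (v.symm j) (v.symm j')
    simpa using h
  · calc B = (B.submatrix u v).submatrix u.symm v.symm := hBs
      _ = (X' * A.submatrix u v).submatrix u.symm v.symm +
          (A.submatrix u v * Y').submatrix u.symm v.symm := by
        rw [hE]; rfl
      _ = X'.submatrix u.symm u.symm * (A.submatrix u v).submatrix u.symm v.symm +
          (A.submatrix u v).submatrix u.symm v.symm * Y'.submatrix v.symm v.symm := by
        rw [Matrix.submatrix_mul_equiv, Matrix.submatrix_mul_equiv]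
      _ = _ := by rw [← hAs]

end Pool.Agent.Lib.MP_09338f_ag
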