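import Pool.Agent.Lib.MP_09338f_ag.KM.Stm1

/-!
# Project KM, piece [rx]: change of the index types of a matrix
-/

set_option autoImplicit false

open MvPolynomial Matrix

universe u

namespace Pool.Agent.Lib.MP_09338f_ag

section

variable {R : Type u} [CommRing R] {I J I' J' : Type} [Fintype I] [DecidableEq I] [Fintype J]
  [DecidableEq J] [Fintype I'] [DecidableEq I'] [Fintype J'] [DecidableEq J']

omit [CommRing R] [Fintype I] [DecidableEq I] [Fintype J] [DecidableEq J] [Fintype I']
  [DecidableEq I'] [Fintype J'] [DecidableEq J'] in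
private theorem rx_back (u : I' ≃ I) (v : J' ≃ J) (A : Matrix I J R) :
    (A.submatrix u v).submatrix u.symm v.symm = A := by
  ext i j
  simp

omit [DecidableEq I] [DecidableEq J] [DecidableEq I'] [DecidableEq J'] [Fintype I] [Fintype I'] in
private theorem rx_im (u : I' ≃ I) (v : J' ≃ J) (A : Matrix I J R) (m : I → R) :
    (fun i => m (u i)) ∈ Im (A.submatrix u v) ↔ m ∈ Im A := by
  constructor
  · rintro ⟨x, hx⟩
    rw [Matrix.mulVecLin_apply, Matrix.submatrix_mulVec_equiv] at hx
    refine ⟨x ∘ v.symm, ?_⟩
    rw [Matrix.mulVecLin_apply]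
    funext i
    have h := congrFun hx (u.symm i)
    simpa using h
  · rintro ⟨x, hx⟩
    rw [Matrix.mulVecLin_apply] at hx
    refine ⟨x ∘ v, ?_⟩
    rw [Matrix.mulVecLin_apply, Matrix.submatrix_mulVec_equiv]
    funext i
    have h := congrFun hx (u i)
    have h2 : (x ∘ v) ∘ v.symm = x := by
      funext j
      simp
    rw [h2]
    exact h

omit [Fintype J] [DecidableEq J] [Fintype J'] [DecidableEq J'] in
private theorem rx_min (u : I' ≃ I) (v : J' ≃ J) (A : Matrix I J R) (e : I' → J') :
    ((A.submatrix u v).submatrix id e).det =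
      (A.submatrix id (fun i => v (e (u.symm i)))).det := by
  rw [← Matrix.det_submatrix_equiv_self u (A.submatrix id (fun i => v (e (u.symm i))))]
  refine congrArg Matrix.det ?_
  ext i k
  simp

omit [Fintype J] [DecidableEq J] [Fintype J'] [DecidableEq J'] in
private theorem rx_minu (u : I' ≃ I) (v : J' ≃ J) (A : Matrix I J R) (e : I' → J') (k : I')
    (m : I → R) :
    (((A.submatrix u v).submatrix id e).updateCol k (fun i => m (u i))).det =
      ((A.submatrix id (fun i => v (e (u.symm i)))).updateCol (u k) m).det := by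
  rw [← Matrix.det_submatrix_equiv_self u
    ((A.submatrix id (fun i => v (e (u.symm i)))).updateCol (u k) m)]
  refine congrArg Matrix.det ?_
  ext i l
  rw [Matrix.submatrix_apply, Matrix.updateCol_apply, Matrix.updateCol_apply]
  simp only [u.injective.eq_iff]
  split_ifs with h
  · rfl
  · simp

omit [Fintype J] [DecidableEq J] [Fintype J'] [DecidableEq J'] in
private theorem rx_mins (u : I' ≃ I) (v : J' ≃ J) (A : Matrix I J R) :
    mins (A.submatrix u v) ≤ mins A := by
  refine Ideal.span_le.2 ?_
  rintro _ ⟨e, rfl⟩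
  refine Ideal.subset_span ⟨fun i => v (e (u.symm i)), ?_⟩
  exact (rx_min u v A e).symm

omit [Fintype J] [DecidableEq J] [Fintype J'] [DecidableEq J'] in
private theorem rx_opt (u : I' ≃ I) (v : J' ≃ J) (A : Matrix I J R) (e : Option I' → J')
    (w : Option I → R) :
    (Matrix.of fun (r s : Option I') => r.elim (w ((Equiv.optionCongr u) s))
      fun i => (A.submatrix u v) i (e s)).det =
      (Matrix.of fun (r s : Option I) => r.elim (w s)
        fun i => A i (v (e ((Equiv.optionCongr u).symm s)))).det := by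
  rw [← Matrix.det_submatrix_equiv_self (Equiv.optionCongr u)
    (Matrix.of fun (r s : Option I) => r.elim (w s)
        fun i => A i (v (e ((Equiv.optionCongr u).symm s))))]
  refine congrArg Matrix.det ?_
  ext r s
  rw [Matrix.submatrix_apply, Matrix.of_apply, Matrix.of_apply, Equiv.symm_apply_apply]
  cases r with
  | none => rfl
  | some i => rfl

omit [Fintype J] [Fintype J'] in
private theorem rx_rel (u : I' ≃ I) (v : J' ≃ J) (A : Matrix I J R) (y : Option I' → J')
    (j : J) :
    rel (A.submatrix u v) y (v.symm j) =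
      rel A (fun s => v (y ((Equiv.optionCongr u).symm s))) j := by
  have h := rx_opt u v A y
    (fun s => if v (y ((Equiv.optionCongr u).symm s)) = j then (1 : R) else 0)
  unfold rel
  rw [← h]
  refine congrArg Matrix.det ?_
  ext r s
  rw [Matrix.of_apply, Matrix.of_apply, Equiv.symm_apply_apply]
  cases r with
  | none =>
    rw [Option.elim_none, Option.elim_none]
    simp only [Equiv.eq_symm_apply]
  | some i => rfl

private theorem rx_ex (u : I' ≃ I) (v : J' ≃ J) (A : Matrix I J R)
    (h : Ex1 (A.submatrix u v)) : Ex1 A := by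
  intro x hx
  have h1 : (A.submatrix u v).mulVec (x ∘ v) = 0 := by
    rw [Matrix.submatrix_mulVec_equiv]
    have h2 : (x ∘ v) ∘ v.symm = x := by
      funext j
      simp
    rw [h2, hx]
    rfl
  have h3 := h _ h1
  let φ : (J' → R) →ₗ[R] (J → R) := LinearMap.funLeft R R v.symm
  have hle : Submodule.span R (Set.range (rel (A.submatrix u v))) ≤
      Submodule.comap φ (Submodule.span R (Set.range (rel A))) := by
    rw [Submodule.span_le]
    rintro _ ⟨y, rfl⟩
    rw [SetLike.mem_coe, Submodule.mem_comap]
    refine Submodule.subset_span ⟨fun s => v (y ((Equiv.optionCongr u).symm s)), ?_⟩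
    funext j
    rw [← rx_rel]
    rfl
  have h4 := hle h3
  rw [Submodule.mem_comap] at h4
  have h5 : φ (x ∘ v) = x := by
    funext j
    simp [φ, LinearMap.funLeft_apply]
  rwa [h5] at h4

omit [Fintype I] [Fintype I'] [Fintype J] [DecidableEq J] [Fintype J'] [DecidableEq J'] in
private theorem rx_single (u : I' ≃ I) (i : I') (d : R) :
    (Pi.single i d : I' → R) = fun k => (Pi.single (u i) d : I → R) (u k) := by
  funext k
  by_cases h : k = i
  · subst h
    rw [Pi.single_eq_same, Pi.single_eq_same]
  · rw [Pi.single_eq_of_ne h, Pi.single_eq_of_ne (fun h' => h (u.injective h'))]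

omit [DecidableEq J] [DecidableEq J'] in
private theorem rx_rr (u : I' ≃ I) (v : J' ≃ J) (A : Matrix I J R)
    (h : RR1 (A.submatrix u v)) : RR1 A := by
  intro m hm
  rw [← rx_im u v A m]
  refine h _ ?_
  intro e k i
  rw [rx_minu, rx_single u i, rx_im]
  exact hm _ _ _

omit [Fintype J] [DecidableEq J] [Fintype J'] [DecidableEq J'] in
private theorem rx_hb (u : I' ≃ I) (v : J' ≃ J) (A : Matrix I J R)
    (h : HB (A.submatrix u v)) : HB A := by
  intro w hw
  obtain ⟨x, hx⟩ := h (fun j => w (v j)) (by
    intro e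
    have h1 := rx_opt u v A e (fun s => w (v (e ((Equiv.optionCongr u).symm s))))
    rw [hw (fun s => v (e ((Equiv.optionCongr u).symm s)))] at h1
    rw [← h1]
    refine congrArg Matrix.det ?_
    ext r s
    rw [Matrix.of_apply, Matrix.of_apply, Equiv.symm_apply_apply])
  refine ⟨x ∘ u.symm, ?_⟩
  rw [Matrix.submatrix_vecMul_equiv] at hx
  funext j
  have h2 := congrFun hx (v.symm j)
  simpa using h2

omit [Fintype J] [DecidableEq J] [Fintype J'] [DecidableEq J'] in
private theorem rx_dd (u : I' ≃ I) (v : J' ≃ J) (A B : Matrix I J R) (e : I → J) :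
    dd (A.submatrix u v) (B.submatrix u v) (fun i => v.symm (e (u i))) = dd A B e := by
  unfold dd
  refine Fintype.sum_equiv u _ _ ?_
  intro k
  have h := rx_minu u v A (fun i => v.symm (e (u i))) k (fun i => B i (e (u k)))
  have h2 : (fun i => v (v.symm (e (u (u.symm i))))) = e := by
    funext i
    simp
  rw [h2] at h
  rw [← h]
  refine congrArg Matrix.det ?_
  refine congrArg (Matrix.updateCol _ k) ?_
  funext i
  simp

private theorem rx_tp (u : I' ≃ I) (v : J' ≃ J) (A B : Matrix I J R)
    (h : Tp (A.submatrix u v) (B.submatrix u v)) : Tp A B := by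
  intro e i
  have h1 := h (fun i => v.symm (e (u i))) (u.symm i)
  rw [rx_dd, rx_single u (u.symm i), rx_im, Equiv.apply_symm_apply] at h1
  exact h1

end

theorem p_rx : S_rx.{u} := by
  intro R _ I J I' J' _ _ _ _ _ _ _ _ u v A
  refine ⟨rx_im u v A, le_antisymm (rx_mins u v A) ?_, ⟨rx_ex u v A, fun h => ?_⟩,
    ⟨rx_rr u v A, fun h => ?_⟩, ⟨rx_hb u v A, fun h => ?_⟩, fun B => ⟨rx_tp u v A B, fun h => ?_⟩⟩
  · have h := rx_mins u.symm v.symm (A.submatrix u v)
    rwa [rx_back] at h
  · refine rx_ex u.symm v.symm (A.submatrix u v) ?_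
    rwa [rx_back]
  · refine rx_rr u.symm v.symm (A.submatrix u v) ?_
    rwa [rx_back]
  · refine rx_hb u.symm v.symm (A.submatrix u v) ?_
    rwa [rx_back]
  · refine rx_tp u.symm v.symm (A.submatrix u v) (B.submatrix u v) ?_
    rwa [rx_back, rx_back]

end Pool.Agent.Lib.MP_09338f_ag
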