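import Pool.Agent.Lib.MP_09338f_ag.KM.Stm2

/-!
# Project KM: piece `spa`, specialisation for `AM`
-/

set_option autoImplicit false

open MvPolynomial Matrix

universe u

namespace Pool.Agent.Lib.MP_09338f_ag

section comp

variable {N : ℕ} {K : Type u} [CommRing K]

/-- the homogeneous component of integer degree `d` -/
private noncomputable def spa_comp (d : ℤ) : MvPolynomial (Fin N) K →ₗ[K] MvPolynomial (Fin N) K :=
  if 0 ≤ d then homogeneousComponent d.toNat else 0

private theorem spa_coeff (d : ℤ) (p : MvPolynomial (Fin N) K) (m : Fin N →₀ ℕ) :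
    coeff m (spa_comp d p) = if ((m.degree : ℕ) : ℤ) = d then coeff m p else 0 := by
  unfold spa_comp
  by_cases h : 0 ≤ d
  · rw [if_pos h, coeff_homogeneousComponent]
    have h2 : m.degree = d.toNat ↔ ((m.degree : ℕ) : ℤ) = d := by omega
    simp only [h2]
  · rw [if_neg h, LinearMap.zero_apply, coeff_zero, if_neg]
    intro h'
    apply h
    rw [← h']
    positivity

private theorem spa_nat (n : ℕ) (p : MvPolynomial (Fin N) K) :
    spa_comp (n : ℤ) p = homogeneousComponent n p := by
  unfold spa_comp
  rw [if_pos (by positivity), Int.toNat_natCast]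

private theorem spa_hom (d : ℤ) (p : MvPolynomial (Fin N) K) : HomD d (spa_comp d p) := by
  intro m hm
  rw [mem_support_iff, spa_coeff] at hm
  by_contra h
  rw [if_neg h] at hm
  exact hm rfl

private theorem spa_mul {δ : ℤ} {q : MvPolynomial (Fin N) K} (hq : HomD δ q) (d : ℤ)
    (p : MvPolynomial (Fin N) K) : q * spa_comp d p = spa_comp (d + δ) (q * p) := by
  ext m
  rw [spa_coeff, coeff_mul, coeff_mul]
  split_ifs with h
  · apply Finset.sum_congr rfl
    rintro ⟨m₁, m₂⟩ hm
    rw [Finset.HasAntidiagonal.mem_antidiagonal] at hm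
    dsimp only
    rw [spa_coeff]
    by_cases h0 : coeff m₁ q = 0
    · rw [h0, zero_mul, zero_mul]
    · have h1 := hq m₁ (mem_support_iff.2 h0)
      rw [← hm, map_add] at h
      push_cast at h
      rw [if_pos (by linarith)]
  · apply Finset.sum_eq_zero
    rintro ⟨m₁, m₂⟩ hm
    rw [Finset.HasAntidiagonal.mem_antidiagonal] at hm
    dsimp only
    rw [spa_coeff]
    by_cases h0 : coeff m₁ q = 0
    · rw [h0, zero_mul]
    · have h1 := hq m₁ (mem_support_iff.2 h0)
      rw [← hm, map_add] at h
      push_cast at h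
      rw [if_neg (fun h2 => h (by linarith)), mul_zero]

end comp

section blk

variable {I P Q : Type} {R S : Type u} [Fintype I] [DecidableEq I] [Fintype Q]
  [CommRing R] [CommRing S]

/-- the block diagonal matrix with equal blocks `A` -/
private def spa_blk (I : Type) {P Q : Type} {R : Type u} [DecidableEq I] [Zero R]
    (A : Matrix P Q R) : Matrix (I × P) (I × Q) R :=
  fun p q => if p.1 = q.1 then A p.2 q.2 else 0

private theorem spa_blk_mulVec (A : Matrix P Q R) (y : I × Q → R) (i : I) (p : P) :
    (spa_blk I A).mulVec y (i, p) = A.mulVec (fun q => y (i, q)) p := by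
  simp only [Matrix.mulVec, dotProduct, spa_blk]
  rw [Fintype.sum_prod_type, Finset.sum_eq_single i]
  · simp
  · intro l _ hl
    apply Finset.sum_eq_zero
    intro j _
    rw [if_neg (fun h => hl h.symm), zero_mul]
  · intro h
    exact absurd (Finset.mem_univ i) h

private theorem spa_blk_map (h : R →+* S) (A : Matrix P Q R) :
    (spa_blk I A).map h = spa_blk I (A.map h) := by
  ext1 p q
  simp only [Matrix.map_apply, spa_blk]
  split_ifs
  · rfl
  · exact map_zero h

private theorem spa_blk_mul {T : Type} [Fintype T] (A : Matrix P Q R) (B : Matrix Q T R) :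
    spa_blk I A * spa_blk I B = spa_blk I (A * B) := by
  ext1 p t
  obtain ⟨i, p⟩ := p
  obtain ⟨l, t⟩ := t
  rw [Matrix.mul_apply]
  simp only [spa_blk]
  rw [Fintype.sum_prod_type, Finset.sum_eq_single i]
  · split_ifs with h
    · rw [Matrix.mul_apply]
      simp
    · simp
  · intro l _ hl
    apply Finset.sum_eq_zero
    intro j _
    rw [if_neg (fun h => hl h.symm), zero_mul]
  · intro h
    exact absurd (Finset.mem_univ i) h

end blk

private theorem spa_rel {I J : Type} [Fintype I] [DecidableEq I] [Fintype J] [DecidableEq J]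
    {R S : Type u} [CommRing R] [CommRing S] (h : R →+* S) (A : Matrix I J R) (y : Option I → J)
    (j : J) : h (rel A y j) = rel (A.map h) y j := by
  unfold rel
  rw [RingHom.map_det]
  congr 1
  ext1 r s
  rcases r with _ | r
  · simp only [RingHom.mapMatrix_apply, Matrix.map_apply, Matrix.of_apply, Option.elim_none]
    split_ifs
    · exact map_one h
    · exact map_zero h
  · simp only [RingHom.mapMatrix_apply, Matrix.map_apply, Matrix.of_apply, Option.elim_some]

private theorem spa_det {I J : Type} [Fintype I] [DecidableEq I]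
    {R S : Type u} [CommRing R] [CommRing S] (h : R →+* S) (A : Matrix I J R) (e : I → J) :
    h (A.submatrix id e).det = ((A.map h).submatrix id e).det := by
  rw [RingHom.map_det]
  rfl

theorem p_spa (h_exg : S_exg.{u}) (h_unv : S_unv.{u}) (h_mim : S_mim.{u}) (h_rel : S_rel.{u})
    (h_reld : S_reld.{u}) : S_spa.{u} := by
  intro k K₀ K _ _ _ _ _ I J _ _ _ _ N a b A₀ A hA₀ hE hAM hG
  obtain ⟨U, hU, hUs⟩ := h_unv k I J N a b
  obtain ⟨f, hf, -⟩ := hUs K₀ A₀ hA₀
  obtain ⟨g, hg, hginj⟩ := hUs K A hG.1
  have hA := hG.1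
  set O := MvPolynomial (Coef N a b) k with hO
  let φ : Matrix (I × I) Unit (MvPolynomial (Fin N) O) := fun p _ => if p.1 = p.2 then 1 else 0
  let ω₀ : Matrix J (Option I → J) (MvPolynomial (Fin N) O) := fun j y => rel U y j
  let ξ : Matrix Unit (I → J) (MvPolynomial (Fin N) O) := fun _ e => (U.submatrix id e).det
  -- homogeneity
  have hφ : HomM (fun _ : Unit => (0 : ℤ)) (fun p : I × I => b p.2 - b p.1) φ := by
    intro p _
    by_cases h : p.1 = p.2
    · intro m hm
      simp only [φ, if_pos h] at hm
      have h1 : m = 0 := by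
        by_contra h0
        rw [mem_support_iff, coeff_one, if_neg (fun h' => h0 h'.symm)] at hm
        exact hm rfl
      change (((Finsupp.degree m : ℕ) : ℤ)) = 0 - (b p.2 - b p.1)
      rw [h1, h]
      simp
    · intro m hm
      simp only [φ, if_neg h] at hm
      simp at hm
  have hψ : HomM (fun q : I × J => a q.2 - b q.1) (fun p : I × I => b p.2 - b p.1)
      (spa_blk I U) := by
    intro p q
    unfold spa_blk
    split_ifs with h
    · have h1 := hU p.2 q.2
      have h2 : a q.2 - b q.1 - (b p.2 - b p.1) = a q.2 - b p.2 := by rw [h]; ring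
      rw [h2]
      exact h1
    · intro m hm
      simp at hm
  have hξ : HomM (fun e : I → J => ∑ i, a (e i) - ∑ i, b i) (fun _ : Unit => (0 : ℤ)) ξ := by
    intro _ e
    have h1 := (h_reld O N I J a b U hU).2.1 e
    rw [sub_zero]
    exact h1
  have hω : HomM (fun q : I × (Option I → J) => ∑ s, a (q.2 s) - ∑ i, b i - b q.1)
      (fun p : I × J => a p.2 - b p.1) (spa_blk I ω₀) := by
    intro p q
    unfold spa_blk
    split_ifs with h
    · have h1 := (h_reld O N I J a b U hU).1 q.2 p.2
      have h2 : ∑ s, a (q.2 s) - ∑ i, b i - b q.1 - (a p.2 - b p.1) =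
          ∑ s, a (q.2 s) - ∑ i, b i - a p.2 := by rw [h]; ring
      rw [h2]
      exact h1
    · intro m hm
      simp at hm
  -- the values at the special and the generic point
  have hω₀ : ∀ (L : Type u) [Field L] (h : O →+* L),
      ω₀.map (MvPolynomial.map h) = fun j y => rel (U.map (MvPolynomial.map h)) y j := by
    intro L _ h
    ext1 j y
    exact spa_rel (MvPolynomial.map h) U y j
  have hφv : ∀ (L : Type u) [Field L] (h : O →+* L) (x : Unit → MvPolynomial (Fin N) L) (i : I),
      (fun i' => (φ.map (MvPolynomial.map h)).mulVec x (i, i')) = Pi.single i (x ()) := by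
    intro L _ h x i
    ext1 i'
    simp only [Matrix.mulVec, dotProduct, Matrix.map_apply, φ, Finset.univ_unique,
      Finset.sum_singleton]
    by_cases hii : i = i'
    · subst hii
      rw [if_pos rfl, map_one, one_mul, Pi.single_eq_same]
    · rw [if_neg hii, map_zero, zero_mul, Pi.single_eq_of_ne (fun h => hii h.symm)]
  have hstep := fun d : ℤ => h_exg O K₀ K (f : O →+* K₀) (g : O →+* K) (hginj hG) N (I → J) Unit
    (I × I) (I × J) (I × (Option I → J)) (fun e : I → J => ∑ i, a (e i) - ∑ i, b i)
    (fun _ : Unit => (0 : ℤ)) (fun p : I × I => b p.2 - b p.1) (fun q : I × J => a q.2 - b q.1)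
    (fun q : I × (Option I → J) => ∑ s, a (q.2 s) - ∑ i, b i - b q.1) d φ (spa_blk I U) ξ
    (spa_blk I ω₀) hφ hψ hξ hω
  have h1 : ∀ d : ℤ, ∀ x : Unit → MvPolynomial (Fin N) K₀, (∀ q, HomD (d - 0) (x q)) →
        ∀ y : I × J → MvPolynomial (Fin N) K₀,
          (φ.map (MvPolynomial.map (f : O →+* K₀))).mulVec x =
            ((spa_blk I U).map (MvPolynomial.map (f : O →+* K₀))).mulVec y →
          ∃ z : (I → J) → MvPolynomial (Fin N) K₀,
            x = (ξ.map (MvPolynomial.map (f : O →+* K₀))).mulVec z := by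
    intro d x _ y hxy
    rw [spa_blk_map, hf] at hxy
    have h2 : ∀ i, Pi.single i (x ()) ∈ Im A₀ := by
      intro i
      refine ⟨fun j => y (i, j), ?_⟩
      rw [← hφv K₀ (f : O →+* K₀) x i]
      ext1 i'
      rw [hxy, spa_blk_mulVec]
      rfl
    have h3 := hAM _ h2
    unfold mins at h3
    rw [Ideal.mem_span_range_iff_exists_fun] at h3
    obtain ⟨c, hc⟩ := h3
    refine ⟨c, ?_⟩
    ext1 q
    simp only [Matrix.mulVec, dotProduct, Matrix.map_apply, ξ]
    rw [← hc]
    apply Finset.sum_congr rfl
    intro e _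
    rw [spa_det (MvPolynomial.map (f : O →+* K₀)) U e, hf, mul_comm]
  have h2 : ∀ d : ℤ, ∀ y : I × J → MvPolynomial (Fin N) K₀,
      (∀ q : I × J, HomD (d - (a q.2 - b q.1)) (y q)) →
        ((spa_blk I U).map (MvPolynomial.map (f : O →+* K₀))).mulVec y = 0 →
          ∃ z : I × (Option I → J) → MvPolynomial (Fin N) K₀,
            y = ((spa_blk I ω₀).map (MvPolynomial.map (f : O →+* K₀))).mulVec z := by
    intro d y _ hy
    rw [spa_blk_map, hf] at hy
    have h3 : ∀ i, ∃ c : (Option I → J) → MvPolynomial (Fin N) K₀,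
        ∑ t, c t • rel A₀ t = fun j => y (i, j) := by
      intro i
      have h4 := hE (fun j => y (i, j)) (by
        ext1 i'
        rw [← spa_blk_mulVec, hy]
        rfl)
      exact (Submodule.mem_span_range_iff_exists_fun _).1 h4
    choose c hc using h3
    refine ⟨fun q => c q.1 q.2, ?_⟩
    rw [spa_blk_map, hω₀, hf]
    ext1 q
    obtain ⟨i, j⟩ := q
    rw [spa_blk_mulVec]
    have h5 := congrFun (hc i) j
    rw [Finset.sum_apply] at h5
    simp only [Matrix.mulVec, dotProduct]
    rw [← h5]
    apply Finset.sum_congr rfl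
    intro t _
    rw [Pi.smul_apply, smul_eq_mul, mul_comm]
  have h3 : ((spa_blk I U).map (MvPolynomial.map (g : O →+* K))) *
      ((spa_blk I ω₀).map (MvPolynomial.map (g : O →+* K))) = 0 := by
    rw [spa_blk_map, spa_blk_map, hω₀, hg, spa_blk_mul]
    have h4 : (A * (show Matrix J (Option I → J) (MvPolynomial (Fin N) K) from
        fun j y => rel A y j)) = 0 := by
      ext1 i y
      exact congrFun ((h_rel _ I J).1 A y) i
    change spa_blk I (A * (show Matrix J (Option I → J) (MvPolynomial (Fin N) K) from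
        fun j y => rel A y j)) = 0
    rw [h4]
    ext1 p q
    simp [spa_blk]
  have h4 : ∃ Y : Matrix (I × J) (I → J) (MvPolynomial (Fin N) K),
        (φ.map (MvPolynomial.map (g : O →+* K))) * (ξ.map (MvPolynomial.map (g : O →+* K))) =
          ((spa_blk I U).map (MvPolynomial.map (g : O →+* K))) * Y := by
    have h5 : ∀ (i : I) (e : I → J), ∃ v : J → MvPolynomial (Fin N) K,
        A.mulVec v = Pi.single i (A.submatrix id e).det := by
      intro i e
      have h6 := (h_mim _ I J A).1 (A.submatrix id e).det (Ideal.subset_span ⟨e, rfl⟩)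
        (Pi.single i 1)
      obtain ⟨v, hv⟩ := h6
      refine ⟨v, ?_⟩
      change A.mulVec v = _ at hv
      rw [hv, ← Pi.single_smul, smul_eq_mul, mul_one]
    choose v hv using h5
    refine ⟨fun q e => v q.1 e q.2, ?_⟩
    rw [spa_blk_map, hg]
    ext1 p e
    obtain ⟨i, i'⟩ := p
    have h7 := congrFun (hv i e) i'
    have h8 : (spa_blk I A * (show Matrix (I × J) (I → J) (MvPolynomial (Fin N) K) from
        fun q e => v q.1 e q.2)) (i, i') e =
        (spa_blk I A).mulVec (fun q : I × J => v q.1 e q.2) (i, i') := rfl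
    refine Eq.trans ?_ h8.symm
    rw [spa_blk_mulVec, h7]
    have h9 := congrFun (hφv K (g : O →+* K) (fun _ => (A.submatrix id e).det) i) i'
    rw [← h9]
    rw [Matrix.mul_apply]
    simp only [Matrix.mulVec, dotProduct, Matrix.map_apply, Finset.univ_unique,
      Finset.sum_singleton, ξ]
    rw [spa_det (MvPolynomial.map (g : O →+* K)) U e, hg]
  intro y hy
  -- homogeneous components
  have hcomp : ∀ δ : ℤ, ∀ i, Pi.single i (spa_comp δ y) ∈ Im A := by
    intro δ i
    obtain ⟨v, hv⟩ := hy i
    change A.mulVec v = _ at hv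
    refine ⟨fun j => spa_comp (δ + b i - a j) (v j), ?_⟩
    ext1 i'
    change A.mulVec _ i' = _
    have h5 : A.mulVec (fun j => spa_comp (δ + b i - a j) (v j)) i' =
        spa_comp (δ + b i - b i') (A.mulVec v i') := by
      simp only [Matrix.mulVec, dotProduct]
      rw [map_sum]
      apply Finset.sum_congr rfl
      intro j _
      rw [spa_mul (hA i' j)]
      congr 2
      ring
    rw [h5, hv]
    by_cases h : i' = i
    · subst h
      rw [Pi.single_eq_same, Pi.single_eq_same]
      congr 2
      ring
    · rw [Pi.single_eq_of_ne h, Pi.single_eq_of_ne h, map_zero]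
  have hmem : ∀ δ : ℤ, spa_comp δ y ∈ mins A := by
    intro δ
    choose v hv using hcomp δ
    have h5 := hstep δ (h1 δ) (h2 δ) h3 h4 (fun _ => spa_comp δ y) (by
      intro _
      rw [sub_zero]
      exact spa_hom δ y) (fun q => v q.1 q.2) (by
      rw [spa_blk_map, hg]
      ext1 p
      obtain ⟨i, i'⟩ := p
      rw [spa_blk_mulVec]
      have h6 := congrFun (hφv K (g : O →+* K) (fun _ => spa_comp δ y) i) i'
      have h7 := congrFun (hv i) i'
      change A.mulVec _ i' = _ at h7
      rw [h7]
      exact h6)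
    obtain ⟨z, hz⟩ := h5
    have h6 := congrFun hz ()
    simp only [Matrix.mulVec, dotProduct, Matrix.map_apply, ξ] at h6
    rw [h6]
    apply Ideal.sum_mem
    intro e _
    apply Ideal.mul_mem_right
    rw [spa_det (MvPolynomial.map (g : O →+* K)) U e, hg]
    exact Ideal.subset_span ⟨e, rfl⟩
  rw [← sum_homogeneousComponent y]
  apply Ideal.sum_mem
  intro n _
  rw [← spa_nat]
  exact hmem _

end Pool.Agent.Lib.MP_09338f_ag
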