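import Pool.Agent.Lib.MP_09338f_ag.KM.Stm2

/-!
# [KM spe] specialisation for `Ex1` (helper78)
-/

set_option autoImplicit false

open MvPolynomial Matrix

universe u

namespace Pool.Agent.Lib.MP_09338f_ag

/-- the homogeneous component of an integer degree -/
private noncomputable def spe_comp {K : Type u} [Field K] {N : ℕ} (e : ℤ)
    (p : MvPolynomial (Fin N) K) : MvPolynomial (Fin N) K :=
  if 0 ≤ e then homogeneousComponent e.toNat p else 0

private theorem spe_coeff {K : Type u} [Field K] {N : ℕ} (e : ℤ) (p : MvPolynomial (Fin N) K)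
    (m : Fin N →₀ ℕ) :
    coeff m (spe_comp e p) = if ((m.degree : ℕ) : ℤ) = e then coeff m p else 0 := by
  unfold spe_comp
  split_ifs with h1 h2 h2
  · rw [coeff_homogeneousComponent, if_pos (by omega)]
  · rw [coeff_homogeneousComponent, if_neg (by omega)]
  · omega
  · rw [coeff_zero]

private theorem spe_hom {K : Type u} [Field K] {N : ℕ} (e : ℤ) (p : MvPolynomial (Fin N) K) :
    HomD e (spe_comp e p) := by
  intro m hm
  rw [mem_support_iff, spe_coeff] at hm
  by_contra h
  rw [if_neg h] at hm
  exact hm rfl

private theorem spe_sum {K : Type u} [Field K] {N : ℕ} {ι : Type} (s : Finset ι) (e : ℤ)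
    (p : ι → MvPolynomial (Fin N) K) :
    spe_comp e (∑ i ∈ s, p i) = ∑ i ∈ s, spe_comp e (p i) := by
  ext m
  rw [spe_coeff, coeff_sum, coeff_sum]
  simp only [spe_coeff]
  split_ifs with h
  · rfl
  · simp

private theorem spe_zero {K : Type u} [Field K] {N : ℕ} (e : ℤ) :
    spe_comp e (0 : MvPolynomial (Fin N) K) = 0 := by
  ext m
  rw [spe_coeff, coeff_zero, ite_self]

private theorem spe_mul {K : Type u} [Field K] {N : ℕ} (δ d : ℤ) (q p : MvPolynomial (Fin N) K)
    (hq : HomD δ q) : spe_comp (d + δ) (q * p) = q * spe_comp d p := by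
  classical
  ext m
  rw [spe_coeff, coeff_mul, coeff_mul]
  simp only [spe_coeff]
  have key : ∀ x ∈ Finset.HasAntidiagonal.antidiagonal m,
      coeff x.1 q * (if ((x.2.degree : ℕ) : ℤ) = d then coeff x.2 p else 0) =
      if ((m.degree : ℕ) : ℤ) = d + δ then coeff x.1 q * coeff x.2 p else 0 := by
    intro x hx
    rw [Finset.HasAntidiagonal.mem_antidiagonal] at hx
    by_cases h0 : coeff x.1 q = 0
    · rw [h0]
      simp
    · have h1 := hq x.1 (mem_support_iff.2 h0)
      have h2 : m.degree = x.1.degree + x.2.degree := by rw [← hx, map_add]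
      have h3 : (((x.2.degree : ℕ) : ℤ) = d) ↔ (((m.degree : ℕ) : ℤ) = d + δ) := by
        rw [h2]
        push_cast
        constructor <;> intro h <;> linarith
      by_cases h4 : ((x.2.degree : ℕ) : ℤ) = d
      · rw [if_pos h4, if_pos (h3.1 h4)]
      · rw [if_neg h4, if_neg (fun h => h4 (h3.2 h)), mul_zero]
  rw [Finset.sum_congr rfl key]
  split_ifs with h
  · rfl
  · simp

private theorem spe_dec {K : Type u} [Field K] {N : ℕ} (α : ℤ) (p : MvPolynomial (Fin N) K)
    (M : ℕ) (hM : α.natAbs + p.totalDegree ≤ M) :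
    ∑ d ∈ Finset.Icc (-(M : ℤ)) M, spe_comp (d - α) p = p := by
  ext m
  rw [coeff_sum]
  simp only [spe_coeff]
  by_cases hm : coeff m p = 0
  · simp [hm]
  · have h1 : m.degree ≤ p.totalDegree := le_totalDegree (mem_support_iff.2 hm)
    rw [Finset.sum_eq_single (((m.degree : ℕ) : ℤ) + α)]
    · rw [if_pos (by ring)]
    · intro d _ hd
      rw [if_neg]
      intro h
      exact hd (by linarith)
    · intro h
      exfalso
      apply h
      rw [Finset.mem_Icc]
      constructor <;> omega

private theorem spe_rel {R S : Type u} [CommRing R] [CommRing S] (φ : R →+* S) {I J : Type}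
    [Fintype I] [DecidableEq I] [Fintype J] [DecidableEq J] (A : Matrix I J R)
    (y : Option I → J) (j : J) : rel (A.map φ) y j = φ (rel A y j) := by
  unfold rel
  rw [RingHom.map_det]
  congr 1
  ext r s
  rcases r with _ | i
  · simp only [Matrix.of_apply, Option.elim, RingHom.mapMatrix_apply, Matrix.map_apply]
    split_ifs <;> simp
  · simp [Matrix.of_apply]

theorem p_spe (h_exg : S_exg.{u}) (h_unv : S_unv.{u}) (h_rel : S_rel.{u}) (h_reld : S_reld.{u})
    (_h_hc : S_hc.{u}) : S_spe.{u} := by
  classical
  intro k K₀ K _ _ _ _ _ I J _ _ _ _ N a b A₀ A hA₀ hEx hGen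
  obtain ⟨U, hU, hspec⟩ := h_unv k I J N a b
  obtain ⟨f, hf, _⟩ := hspec K₀ A₀ hA₀
  obtain ⟨g, hg, hginj⟩ := hspec K A hGen.1
  have hgi := hginj hGen
  have hAg : ∀ (y : Option I → J) (j : J),
      (MvPolynomial.map (g : MvPolynomial (Coef N a b) k →+* K)) (rel U y j) = rel A y j := by
    intro y j
    rw [← spe_rel, hg]
  have hAf : ∀ (y : Option I → J) (j : J),
      (MvPolynomial.map (f : MvPolynomial (Coef N a b) k →+* K₀)) (rel U y j) = rel A₀ y j := by
    intro y j
    rw [← spe_rel, hf]
  -- homogeneous elements of the kernel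
  have hhom : ∀ (d : ℤ) (x : J → MvPolynomial (Fin N) K), (∀ q, HomD (d - a q) (x q)) →
      A.mulVec x = 0 → x ∈ Submodule.span (MvPolynomial (Fin N) K) (Set.range (rel A)) := by
    intro d x hx hAx
    obtain ⟨z, hz⟩ := h_exg (MvPolynomial (Coef N a b) k) K₀ K
      (f : MvPolynomial (Coef N a b) k →+* K₀) (g : MvPolynomial (Coef N a b) k →+* K) hgi N
      (Option I → J) J I Empty Empty (fun y => ∑ s, a (y s) - ∑ i, b i) a b Empty.elim Empty.elim d
      U (fun _ e => e.elim) (fun j y => rel U y j) (fun e _ => e.elim) hU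
      (fun _ e => e.elim)
      (fun j y => ((h_reld (MvPolynomial (Coef N a b) k) N I J a b U hU).1 y j))
      (fun e _ => e.elim)
      (by
        intro x' _ y' hxy
        have h0 : A₀.mulVec x' = 0 := by
          rw [← hf]
          rw [hxy]
          funext i
          simp [Matrix.mulVec, dotProduct]
        have h1 := hEx x' h0
        rw [Submodule.mem_span_range_iff_exists_fun] at h1
        obtain ⟨c, hc⟩ := h1
        refine ⟨c, ?_⟩
        rw [← hc]
        funext j
        rw [Finset.sum_apply]
        unfold Matrix.mulVec dotProduct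
        apply Finset.sum_congr rfl
        intro y _
        change c y * rel A₀ y j = (MvPolynomial.map (f : MvPolynomial (Coef N a b) k →+* K₀))
          (rel U y j) * c y
        rw [hAf, mul_comm])
      (by
        intro y' _ _
        exact ⟨fun e => e.elim, funext fun e => e.elim⟩)
      (by
        ext i e
        exact e.elim)
      (by
        refine ⟨fun e _ => e.elim, ?_⟩
        ext1 i y
        have h1 : ∑ j, A i j * rel A y j = 0 :=
          congrFun ((h_rel (MvPolynomial (Fin N) K) I J).1 A y) i
        have h5 : ∀ (P : Matrix I Empty (MvPolynomial (Fin N) K))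
            (Q : Matrix Empty (Option I → J) (MvPolynomial (Fin N) K)), (P * Q) i y = 0 := by
          intro P Q
          rw [Matrix.mul_apply]
          exact Fintype.sum_empty _
        refine Eq.trans ?_ (Eq.trans h1 (h5 _ _).symm)
        change ∑ j, (MvPolynomial.map (g : MvPolynomial (Coef N a b) k →+* K)) (U i j) *
          (MvPolynomial.map (g : MvPolynomial (Coef N a b) k →+* K)) (rel U y j) =
          ∑ j, A i j * rel A y j
        apply Finset.sum_congr rfl
        intro j _
        rw [hAg]
        congr 1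
        rw [← hg, Matrix.map_apply]) x hx
      (fun e => e.elim)
      (by
        rw [hg, hAx]
        funext i
        simp [Matrix.mulVec, dotProduct])
    rw [Submodule.mem_span_range_iff_exists_fun]
    refine ⟨z, ?_⟩
    rw [hz]
    funext j
    rw [Finset.sum_apply]
    unfold Matrix.mulVec dotProduct
    apply Finset.sum_congr rfl
    intro y _
    change z y * rel A y j = (MvPolynomial.map (g : MvPolynomial (Coef N a b) k →+* K))
      (rel U y j) * z y
    rw [hAg, mul_comm]
  intro x hx
  set M : ℕ := ∑ j, ((a j).natAbs + (x j).totalDegree) with hM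
  have hx2 : x = ∑ d ∈ Finset.Icc (-(M : ℤ)) M, fun j => spe_comp (d - a j) (x j) := by
    funext j
    rw [Finset.sum_apply]
    refine (spe_dec (a j) (x j) M ?_).symm
    exact Finset.single_le_sum (f := fun j => (a j).natAbs + (x j).totalDegree)
      (fun _ _ => Nat.zero_le _) (Finset.mem_univ j)
  rw [hx2]
  refine Submodule.sum_mem _ fun d _ => ?_
  refine hhom d _ (fun q => spe_hom _ _) ?_
  funext i
  have h1 : ∀ j, A i j * spe_comp (d - a j) (x j) = spe_comp (d - b i) (A i j * x j) := by
    intro j
    rw [← spe_mul (a j - b i) (d - a j) (A i j) (x j) (hGen.1 i j)]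
    congr 1
    ring
  unfold Matrix.mulVec dotProduct
  simp only [h1]
  rw [← spe_sum]
  have h2 := congrFun hx i
  unfold Matrix.mulVec dotProduct at h2
  rw [h2]
  exact spe_zero _

end Pool.Agent.Lib.MP_09338f_ag
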