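import Pool.Agent.Lib.MP_09338f_ag.KM.P_exg

set_option autoImplicit false
set_option linter.unusedSectionVars false
set_option linter.unusedVariables false

open MvPolynomial Matrix

universe u

namespace Pool.Agent.Lib.MP_09338f_ag

/-- decomposition of a tuple into homogeneous tuples -/
lemma sph_dec {N : ℕ} {Q : Type} [Fintype Q] [DecidableEq Q] (D : Q → ℤ) {S : Type u} [CommRing S]
    (u : Q → MvPolynomial (Fin N) S) :
    ∃ F : Finset ℤ, u = ∑ d ∈ F, exg_p (exg_c D d u) := by
  classical
  refine ⟨Finset.univ.biUnion fun q => (u q).support.image fun m => ((m.degree : ℕ) : ℤ) + D q, ?_⟩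
  funext q
  ext m
  rw [Finset.sum_apply, coeff_sum]
  by_cases hm : m ∈ (u q).support
  · rw [Finset.sum_eq_single (((m.degree : ℕ) : ℤ) + D q)]
    · rw [exg_pc u q m (by ring)]
    · intro d _ hd
      exact exg_hom_iff.1 (exg_hp _ q) m (by intro h; apply hd; rw [h]; ring)
    · intro h
      exfalso
      apply h
      rw [Finset.mem_biUnion]
      exact ⟨q, Finset.mem_univ _, Finset.mem_image_of_mem _ hm⟩
  · rw [notMem_support_iff.1 hm]
    symm
    refine Finset.sum_eq_zero fun d _ => ?_
    by_cases h : ((m.degree : ℕ) : ℤ) = d - D q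
    · rw [exg_pc u q m h, notMem_support_iff.1 hm]
    · exact exg_hom_iff.1 (exg_hp _ q) m h

/-- the determinants with the first row `u` -/
lemma sph_lin {I J : Type} {R : Type u} [Fintype I] [DecidableEq I] [Fintype J] [DecidableEq J]
    [CommRing R] (A : Matrix I J R) (u : J → R) (e : Option I → J) :
    ∑ j, rel A e j * u j =
      (Matrix.of fun (r s : Option I) => r.elim (u (e s)) fun i => A i (e s)).det := by
  have hB : ∀ v : Option I → R,
      (Matrix.of fun (r s : Option I) => r.elim (v s) fun i => A i (e s)) =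
      (Matrix.of fun (r s : Option I) => r.elim (0 : R) fun i => A i (e s)).updateRow none v := by
    intro v
    ext r s
    cases r with
    | none => rw [Matrix.updateRow_self]; rfl
    | some i => rw [Matrix.updateRow_ne (Option.some_ne_none i)]; rfl
  rw [hB (fun s => u (e s)), ← Matrix.cramer_transpose_apply]
  have h1 : (fun s => u (e s)) = ∑ j, u j • (fun s => if e s = j then (1 : R) else 0) := by
    funext s
    rw [Finset.sum_apply]
    simp only [Pi.smul_apply, smul_eq_mul, mul_ite, mul_one, mul_zero]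
    rw [Finset.sum_ite_eq]
    simp
  rw [h1, map_sum, Finset.sum_apply]
  refine Finset.sum_congr rfl fun j _ => ?_
  rw [map_smul, Pi.smul_apply, smul_eq_mul, Matrix.cramer_transpose_apply,
    ← hB (fun s => if e s = j then (1 : R) else 0), mul_comm]
  rfl

lemma sph_map {I J : Type} {R R' : Type u} [Fintype I] [DecidableEq I] [Fintype J] [DecidableEq J]
    [CommRing R] [CommRing R'] (h : R →+* R') (A : Matrix I J R) (e : Option I → J) (j : J) :
    h (rel A e j) = rel (A.map h) e j := by
  unfold rel
  rw [RingHom.map_det]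
  congr 1
  ext r s
  cases r with
  | none =>
    simp only [RingHom.mapMatrix_apply, Matrix.map_apply, Matrix.of_apply, Option.elim_none]
    split_ifs
    · exact map_one h
    · exact map_zero h
  | some i => simp [RingHom.mapMatrix_apply, Matrix.map_apply, Matrix.of_apply]

theorem p_sph (h_exg : S_exg.{u}) (h_unv : S_unv.{u}) (h_rel : S_rel.{u}) (h_reld : S_reld.{u}) :
    S_sph.{u} := by
  intro k K₀ K _ _ _ _ _ I J _ _ _ _ N a b A₀ A hA₀ hHB hA
  obtain ⟨U, hU, hsp⟩ := h_unv k I J N a b
  obtain ⟨f, hf, -⟩ := hsp K₀ A₀ hA₀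
  obtain ⟨g, hg, hgi⟩ := hsp K A hA.1
  have hgi' := hgi hA
  -- the matrices
  let φ : Matrix (Option I → J) J (MvPolynomial (Fin N) (MvPolynomial (Coef N a b) k)) :=
    fun e j => rel U e j
  let ξ : Matrix J I (MvPolynomial (Fin N) (MvPolynomial (Coef N a b) k)) := fun j i => U i j
  let D₁ : J → ℤ := fun j => - a j
  let D₂ : (Option I → J) → ℤ := fun e => ∑ i, b i - ∑ s, a (e s)
  let D₀ : I → ℤ := fun i => - b i
  have hφ : HomM D₁ D₂ φ := by
    intro e j
    have h1 := (h_reld _ N I J a b U hU).1 e j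
    have h2 : D₁ j - D₂ e = ∑ s, a (e s) - ∑ i, b i - a j := by
      simp only [D₁, D₂]; ring
    rw [h2]
    exact h1
  have hξ : HomM D₀ D₁ ξ := by
    intro j i
    have h2 : D₀ i - D₁ j = a j - b i := by
      simp only [D₀, D₁]; ring
    rw [h2]
    exact hU i j
  have hφe : ∀ (L : Type u) [Field L] (h : MvPolynomial (Coef N a b) k →+* L) (e : Option I → J)
      (j : J), (φ.map (MvPolynomial.map h)) e j = rel (U.map (MvPolynomial.map h)) e j := by
    intro L _ h e j
    exact sph_map (MvPolynomial.map h) U e j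
  have hξe : ∀ (L : Type u) [Field L] (h : MvPolynomial (Coef N a b) k →+* L) (j : J)
      (i : I), (ξ.map (MvPolynomial.map h)) j i = (U.map (MvPolynomial.map h)) i j := by
    intro L _ h j i
    rfl
  have hmap : ∀ (L : Type u) [Field L] (h : MvPolynomial (Coef N a b) k →+* L)
      (B : Matrix I J (MvPolynomial (Fin N) L)), U.map (MvPolynomial.map h) = B →
      ∀ (x : J → MvPolynomial (Fin N) L) (e : Option I → J),
      (φ.map (MvPolynomial.map h)).mulVec x e =
        (Matrix.of fun (r s : Option I) => r.elim (x (e s)) fun i => B i (e s)).det := by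
    intro L _ h B hB x e
    rw [← sph_lin, ← hB, Matrix.mulVec, dotProduct]
    refine Finset.sum_congr rfl fun j _ => ?_
    rw [hφe]
  have hvec : ∀ (L : Type u) [Field L] (h : MvPolynomial (Coef N a b) k →+* L)
      (B : Matrix I J (MvPolynomial (Fin N) L)), U.map (MvPolynomial.map h) = B →
      ∀ (z : I → MvPolynomial (Fin N) L),
      (ξ.map (MvPolynomial.map h)).mulVec z = Matrix.vecMul z B := by
    intro L _ h B hB z
    funext j
    rw [Matrix.mulVec, Matrix.vecMul, dotProduct, dotProduct, ← hB]
    refine Finset.sum_congr rfl fun i _ => ?_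
    rw [hξe, mul_comm]
  intro u hu
  have hu0 : (φ.map (MvPolynomial.map (g : MvPolynomial (Coef N a b) k →+* K))).mulVec u = 0 := by
    funext e
    rw [hmap K _ A hg u e, hu e]
    rfl
  have key : ∀ d : ℤ, ∃ z : I → MvPolynomial (Fin N) K,
      exg_p (exg_c D₁ d u) = Matrix.vecMul z A := by
    intro d
    have := h_exg (MvPolynomial (Coef N a b) k) K₀ K (f : MvPolynomial (Coef N a b) k →+* K₀)
      (g : MvPolynomial (Coef N a b) k →+* K) hgi' N I J (Option I → J) Empty Empty
      D₀ D₁ D₂ (fun _ => 0) (fun _ => 0) d φ 0 ξ 0 hφ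
      (fun _ q => q.elim) hξ (fun _ q => q.elim) ?_ ?_ ?_ ?_ (exg_p (exg_c D₁ d u)) (exg_hp _)
      (fun q => q.elim) ?_
    · obtain ⟨z, hz⟩ := this
      exact ⟨z, by rw [hz, hvec K _ A hg]⟩
    · intro x hx y hxy
      obtain ⟨z, hz⟩ := hHB x (by
        intro e
        rw [← hmap K₀ _ A₀ hf x e, hxy]
        simp [Matrix.mulVec, dotProduct])
      exact ⟨z, by rw [hz, hvec K₀ _ A₀ hf]⟩
    · intro y _ _
      exact ⟨fun q => q.elim, funext fun q => q.elim⟩
    · ext i q
      exact q.elim
    · refine ⟨0, ?_⟩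
      rw [Matrix.mul_zero]
      apply Matrix.ext
      intro e i
      have h1 := congrFun ((h_rel _ I J).1 A e) i
      rw [Matrix.mulVec, dotProduct, Pi.zero_apply] at h1
      rw [Matrix.mul_apply, Matrix.zero_apply, ← h1]
      refine Finset.sum_congr rfl fun j _ => ?_
      rw [hφe, hξe, hg, mul_comm]
    · have h1 := exg_eq (d := d) (A := φ.map (MvPolynomial.map (g : MvPolynomial (Coef N a b) k →+* K)))
        (B := (0 : Matrix (Option I → J) J (MvPolynomial (Fin N) K)))
        (exg_map (g : MvPolynomial (Coef N a b) k →+* K) hφ)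
        (D' := D₁) (by
          intro i j
          rw [exg_hom_iff]
          intro m _
          simp) (u := u) (v := 0) (by rw [hu0, Matrix.mulVec_zero])
      rw [h1, Matrix.zero_mulVec]
      funext e
      simp [Matrix.mulVec, dotProduct]
  obtain ⟨F, hF⟩ := sph_dec D₁ u
  choose z hz using key
  refine ⟨∑ d ∈ F, z d, ?_⟩
  rw [Matrix.sum_vecMul]
  exact hF.trans (Finset.sum_congr rfl fun d _ => hz d)

end Pool.Agent.Lib.MP_09338f_ag
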