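import Pool.Agent.Lib.MP_09338f_ag.KM.Stm2

/-!
# Project KM, piece [spp] (helper19)
-/

set_option autoImplicit false
set_option linter.unusedSectionVars false

open MvPolynomial Matrix

universe u

namespace Pool.Agent.Lib.MP_09338f_ag

section defs

variable {I J1 J2 : Type} {R : Type u} [Fintype I] [DecidableEq I] [Fintype J1] [DecidableEq J1]
  [Fintype J2] [DecidableEq J2] [CommRing R]

/-- `X ↦ X C`. -/
def spp_phi (D : Matrix I (J1 ⊕ J2) R) : Matrix (I × J1) (I × I) R :=
  fun p q => if q.1 = p.1 then D q.2 (Sum.inl p.2) else 0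

/-- `V ↦ D V`. -/
def spp_psi (D : Matrix I (J1 ⊕ J2) R) : Matrix (I × J1) ((J1 ⊕ J2) × J1) R :=
  fun p q => if q.2 = p.2 then D p.1 q.1 else 0

/-- `(s, Z) ↦ s 1 + D Z`. -/
def spp_xi (D : Matrix I (J1 ⊕ J2) R) : Matrix (I × I) (Unit ⊕ ((J1 ⊕ J2) × I)) R :=
  fun p q => q.elim (fun _ => if p.1 = p.2 then 1 else 0)
    (fun r => if r.2 = p.2 then D p.1 r.1 else 0)

/-- The Cramer relations. -/
def spp_om (D : Matrix I (J1 ⊕ J2) R) :
    Matrix ((J1 ⊕ J2) × J1) ((Option I → J1 ⊕ J2) × J1) R :=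
  fun p q => if q.2 = p.2 then rel D q.1 p.1 else 0

private theorem spp_phi_mulVec (D : Matrix I (J1 ⊕ J2) R) (x : I × I → R) (i : I) (j : J1) :
    (spp_phi D).mulVec x (i, j) = ∑ i', D i' (Sum.inl j) * x (i, i') := by
  simp only [Matrix.mulVec, dotProduct, spp_phi, Fintype.sum_prod_type]
  rw [Finset.sum_eq_single i]
  · simp
  · intro b _ hb
    simp [hb]
  · simp

private theorem spp_psi_mulVec (D : Matrix I (J1 ⊕ J2) R) (y : (J1 ⊕ J2) × J1 → R) (i : I)
    (j : J1) : (spp_psi D).mulVec y (i, j) = ∑ q, D i q * y (q, j) := by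
  simp only [Matrix.mulVec, dotProduct, spp_psi, Fintype.sum_prod_type]
  refine Finset.sum_congr rfl fun q _ => ?_
  rw [Finset.sum_eq_single j]
  · simp
  · intro b _ hb
    simp [hb]
  · simp

private theorem spp_xi_mulVec (D : Matrix I (J1 ⊕ J2) R) (z : Unit ⊕ ((J1 ⊕ J2) × I) → R)
    (i i' : I) : (spp_xi D).mulVec z (i, i') =
      (if i = i' then z (Sum.inl ()) else 0) + ∑ q, D i q * z (Sum.inr (q, i')) := by
  simp only [Matrix.mulVec, dotProduct, spp_xi, Fintype.sum_sum_type (α₁ := Unit),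
    Sum.elim_inl, Sum.elim_inr]
  congr 1
  · simp
  · rw [Fintype.sum_prod_type]
    refine Finset.sum_congr rfl fun q _ => ?_
    rw [Finset.sum_eq_single i']
    · simp
    · intro b _ hb
      simp [hb]
    · simp

private theorem spp_om_mulVec (D : Matrix I (J1 ⊕ J2) R)
    (z : (Option I → J1 ⊕ J2) × J1 → R) (q : J1 ⊕ J2) (j : J1) :
    (spp_om D).mulVec z (q, j) = ∑ y, rel D y q * z (y, j) := by
  simp only [Matrix.mulVec, dotProduct, spp_om, Fintype.sum_prod_type]
  refine Finset.sum_congr rfl fun y _ => ?_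
  rw [Finset.sum_eq_single j]
  · simp
  · intro b _ hb
    simp [hb]
  · simp

private theorem spp_rel_map {S : Type u} [CommRing S] {J : Type} [Fintype J] [DecidableEq J]
    (h : R →+* S) (D : Matrix I J R) (y : Option I → J) (j : J) :
    rel (D.map h) y j = h (rel D y j) := by
  unfold rel
  rw [RingHom.map_det]
  congr 1
  ext r s
  cases r with
  | none =>
    simp only [Matrix.of_apply, Option.elim, RingHom.mapMatrix_apply, Matrix.map_apply]
    split_ifs
    · rw [map_one]
    · rw [map_zero]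
  | some i => rfl

private theorem spp_phi_map {S : Type u} [CommRing S] (h : R →+* S) (D : Matrix I (J1 ⊕ J2) R) :
    (spp_phi D).map h = spp_phi (D.map h) := by
  ext p q
  simp only [spp_phi, Matrix.map_apply]
  split_ifs
  · rfl
  · exact map_zero h

private theorem spp_psi_map {S : Type u} [CommRing S] (h : R →+* S) (D : Matrix I (J1 ⊕ J2) R) :
    (spp_psi D).map h = spp_psi (D.map h) := by
  ext p q
  simp only [spp_psi, Matrix.map_apply]
  split_ifs
  · rfl
  · exact map_zero h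

private theorem spp_xi_map {S : Type u} [CommRing S] (h : R →+* S) (D : Matrix I (J1 ⊕ J2) R) :
    (spp_xi D).map h = spp_xi (D.map h) := by
  ext p q
  cases q with
  | inl q =>
    simp only [spp_xi, Matrix.map_apply, Sum.elim_inl]
    split_ifs
    · exact map_one h
    · exact map_zero h
  | inr q =>
    simp only [spp_xi, Matrix.map_apply, Sum.elim_inr]
    split_ifs
    · rfl
    · exact map_zero h

private theorem spp_om_map {S : Type u} [CommRing S] (h : R →+* S) (D : Matrix I (J1 ⊕ J2) R) :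
    (spp_om D).map h = spp_om (D.map h) := by
  ext p q
  simp only [spp_om, Matrix.map_apply]
  split_ifs
  · exact (spp_rel_map h D _ _).symm
  · exact map_zero h

end defs

private theorem spp_homD_zero {N : ℕ} {K : Type u} [CommSemiring K] (d : ℤ) :
    HomD d (0 : MvPolynomial (Fin N) K) := by
  intro m hm
  simp at hm

private theorem spp_homD_one {N : ℕ} {K : Type u} [CommSemiring K] :
    HomD 0 (1 : MvPolynomial (Fin N) K) := by
  intro m hm
  rw [MvPolynomial.mem_support_iff, MvPolynomial.coeff_one] at hm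
  by_cases h : (0 : Fin N →₀ ℕ) = m
  · rw [← h]; simp
  · simp [h] at hm

theorem p_spp (h_exg : S_exg.{u}) (h_unv : S_unv.{u}) (h_rel : S_rel.{u}) (h_reld : S_reld.{u})
    (h_hc : S_hc.{u}) : S_spp.{u} := by
  intro k K₀ K _ _ _ _ _ I J1 J2 _ _ _ _ _ _ N a1 a2 b C₀ W₀ C W hhom hker hHP hGen X hX V hXV
  obtain ⟨U, hU, hun⟩ := h_unv k I (J1 ⊕ J2) N (Sum.elim a1 a2) b
  obtain ⟨f, hf, -⟩ := hun K₀ (Matrix.fromCols C₀ W₀) hhom
  obtain ⟨g, hg, hginj⟩ := hun K (Matrix.fromCols C W) hGen.1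
  have hrel := (h_rel (MvPolynomial (Fin N) K) I (J1 ⊕ J2)).1
  have hreld := (h_reld (MvPolynomial (Coef N (Sum.elim a1 a2) b) k) N I (J1 ⊕ J2)
    (Sum.elim a1 a2) b U hU).1
  have key := h_exg (MvPolynomial (Coef N (Sum.elim a1 a2) b) k) K₀ K
    (f : MvPolynomial (Coef N (Sum.elim a1 a2) b) k →+* K₀)
    (g : MvPolynomial (Coef N (Sum.elim a1 a2) b) k →+* K) (hginj hGen) N
    (Unit ⊕ ((J1 ⊕ J2) × I)) (I × I) (I × J1) ((J1 ⊕ J2) × J1) ((Option I → J1 ⊕ J2) × J1)
    (fun q => q.elim (fun _ => 0) fun r => Sum.elim a1 a2 r.1 - b r.2)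
    (fun p => b p.1 - b p.2) (fun p => b p.1 - a1 p.2)
    (fun p => Sum.elim a1 a2 p.1 - a1 p.2)
    (fun p => ∑ s, Sum.elim a1 a2 (p.1 s) - ∑ i, b i - a1 p.2) 0
    (spp_phi U) (spp_psi U) (spp_xi U) (spp_om U)
  rw [spp_phi_map, spp_psi_map, spp_xi_map, spp_om_map, spp_phi_map, spp_psi_map, spp_xi_map,
    spp_om_map, hf, hg] at key
  have key1 : HomM (fun p : I × I => b p.1 - b p.2) (fun p : I × J1 => b p.1 - a1 p.2)
      (spp_phi U) := by
    rintro ⟨i, j⟩ ⟨i1, i'⟩
    simp only [spp_phi]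
    split_ifs with h
    · have h1 := hU i' (Sum.inl j)
      have h2 : b i1 - b i' - (b i - a1 j) = Sum.elim a1 a2 (Sum.inl j) - b i' := by
        rw [h, Sum.elim_inl]; ring
      rw [h2]; exact h1
    · exact spp_homD_zero _
  have key2 : HomM (fun p : (J1 ⊕ J2) × J1 => Sum.elim a1 a2 p.1 - a1 p.2)
      (fun p : I × J1 => b p.1 - a1 p.2) (spp_psi U) := by
    rintro ⟨i, j⟩ ⟨q, j'⟩
    simp only [spp_psi]
    split_ifs with h
    · have h1 := hU i q
      have h2 : Sum.elim a1 a2 q - a1 j' - (b i - a1 j) = Sum.elim a1 a2 q - b i := by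
        rw [h]; ring
      rw [h2]; exact h1
    · exact spp_homD_zero _
  have key3 : HomM (fun q : Unit ⊕ ((J1 ⊕ J2) × I) =>
      q.elim (fun _ => (0 : ℤ)) fun r => Sum.elim a1 a2 r.1 - b r.2)
      (fun p : I × I => b p.1 - b p.2) (spp_xi U) := by
    rintro ⟨i, i'⟩ (q | ⟨q, i1⟩)
    · simp only [spp_xi, Sum.elim_inl]
      split_ifs with h
      · have h2 : (0 : ℤ) - (b i - b i') = 0 := by rw [h]; ring
        rw [h2]; exact spp_homD_one
      · exact spp_homD_zero _
    · simp only [spp_xi, Sum.elim_inr]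
      split_ifs with h
      · have h1 := hU i q
        have h2 : Sum.elim a1 a2 q - b i1 - (b i - b i') = Sum.elim a1 a2 q - b i := by
          rw [h]; ring
        rw [h2]; exact h1
      · exact spp_homD_zero _
  have key4 : HomM (fun p : (Option I → J1 ⊕ J2) × J1 =>
      ∑ s, Sum.elim a1 a2 (p.1 s) - ∑ i, b i - a1 p.2)
      (fun p : (J1 ⊕ J2) × J1 => Sum.elim a1 a2 p.1 - a1 p.2) (spp_om U) := by
    rintro ⟨q, j⟩ ⟨y, j'⟩
    simp only [spp_om]
    split_ifs with h
    · have h1 := hreld y q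
      have h2 : ∑ s, Sum.elim a1 a2 (y s) - ∑ i, b i - a1 j' - (Sum.elim a1 a2 q - a1 j) =
          ∑ s, Sum.elim a1 a2 (y s) - ∑ i, b i - Sum.elim a1 a2 q := by
        rw [h]; ring
      rw [h2]; exact h1
    · exact spp_homD_zero _
  have hyp1 : ∀ x : I × I → MvPolynomial (Fin N) K₀, (∀ q, HomD (0 - (b q.1 - b q.2)) (x q)) →
      ∀ y : (J1 ⊕ J2) × J1 → MvPolynomial (Fin N) K₀,
        (spp_phi (Matrix.fromCols C₀ W₀)).mulVec x = (spp_psi (Matrix.fromCols C₀ W₀)).mulVec y →
        ∃ z : Unit ⊕ ((J1 ⊕ J2) × I) → MvPolynomial (Fin N) K₀,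
          x = (spp_xi (Matrix.fromCols C₀ W₀)).mulVec z := by
    intro x hx y hxy
    obtain ⟨s, Z, hsZ⟩ := hHP (Matrix.of fun i i' => x (i, i'))
      (by
        intro i i'
        have h1 := hx (i, i')
        have h2 : (0 : ℤ) - (b i - b i') = b i' - b i := by ring
        rw [h2] at h1
        exact h1)
      (Matrix.of fun q j => y (q, j))
      (by
        ext1 i j
        have h1 := congrFun hxy (i, j)
        rw [spp_phi_mulVec, spp_psi_mulVec] at h1
        rw [Matrix.mul_apply, Matrix.mul_apply]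
        simp only [Matrix.of_apply]
        rw [← h1]
        refine Finset.sum_congr rfl fun i' _ => ?_
        rw [mul_comm, Matrix.fromCols_apply_inl])
    refine ⟨fun r => r.elim (fun _ => s) fun r => Z r.1 r.2, ?_⟩
    funext ⟨i, i'⟩
    rw [spp_xi_mulVec]
    have h1 := congrFun (congrFun hsZ i) i'
    rw [Matrix.of_apply, Matrix.add_apply, Matrix.smul_apply, Matrix.one_apply,
      Matrix.mul_apply] at h1
    rw [h1]
    simp only [Sum.elim_inl, Sum.elim_inr, smul_eq_mul, mul_ite, mul_one, mul_zero]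
  have hyp2 : ∀ y : (J1 ⊕ J2) × J1 → MvPolynomial (Fin N) K₀,
      (∀ q, HomD (0 - (Sum.elim a1 a2 q.1 - a1 q.2)) (y q)) →
        (spp_psi (Matrix.fromCols C₀ W₀)).mulVec y = 0 →
          ∃ z : (Option I → J1 ⊕ J2) × J1 → MvPolynomial (Fin N) K₀,
            y = (spp_om (Matrix.fromCols C₀ W₀)).mulVec z := by
    intro y hy hy0
    have h1 : ∀ j : J1, ∃ c : (Option I → J1 ⊕ J2) → MvPolynomial (Fin N) K₀,
        ∑ w, c w • rel (Matrix.fromCols C₀ W₀) w = fun q => y (q, j) := by
      intro j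
      rw [← Submodule.mem_span_range_iff_exists_fun]
      refine hker j (fun q => y (q, j)) ?_ ?_
      · intro q
        have h2 := hy (q, j)
        have h3 : (0 : ℤ) - (Sum.elim a1 a2 q - a1 j) = a1 j - Sum.elim a1 a2 q := by ring
        rw [h3] at h2
        exact h2
      · funext i
        have h2 := congrFun hy0 (i, j)
        rw [spp_psi_mulVec] at h2
        exact h2
    choose c hc using h1
    refine ⟨fun r => c r.2 r.1, ?_⟩
    funext ⟨q, j⟩
    rw [spp_om_mulVec]
    have h2 := congrFun (hc j) q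
    rw [Finset.sum_apply] at h2
    rw [← h2]
    refine Finset.sum_congr rfl fun w _ => ?_
    rw [Pi.smul_apply, smul_eq_mul, mul_comm]
  have hyp3 : spp_psi (Matrix.fromCols C W) * spp_om (Matrix.fromCols C W) = 0 := by
    ext1 ⟨i, j⟩ ⟨y, j'⟩
    have h1 : (spp_psi (Matrix.fromCols C W) * spp_om (Matrix.fromCols C W)) (i, j) (y, j') =
        (spp_psi (Matrix.fromCols C W)).mulVec
          (fun p => spp_om (Matrix.fromCols C W) p (y, j')) (i, j) := rfl
    rw [h1, spp_psi_mulVec]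
    simp only [spp_om, Matrix.zero_apply]
    by_cases h : j' = j
    · simp only [h, if_true]
      exact congrFun (hrel (Matrix.fromCols C W) y) i
    · simp [h]
  have hyp4 : ∃ Y : Matrix ((J1 ⊕ J2) × J1) (Unit ⊕ ((J1 ⊕ J2) × I)) (MvPolynomial (Fin N) K),
      spp_phi (Matrix.fromCols C W) * spp_xi (Matrix.fromCols C W) =
        spp_psi (Matrix.fromCols C W) * Y := by
    refine ⟨fun p r => r.elim (fun _ => if p.1 = Sum.inl p.2 then 1 else 0)
      (fun r => if p.1 = r.1 then Matrix.fromCols C W r.2 (Sum.inl p.2) else 0), ?_⟩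
    ext1 ⟨i, j⟩ r
    have h1 : (spp_phi (Matrix.fromCols C W) * spp_xi (Matrix.fromCols C W)) (i, j) r =
        (spp_phi (Matrix.fromCols C W)).mulVec
          (fun p => spp_xi (Matrix.fromCols C W) p r) (i, j) := rfl
    rw [h1, spp_phi_mulVec]
    set Y : Matrix ((J1 ⊕ J2) × J1) (Unit ⊕ ((J1 ⊕ J2) × I)) (MvPolynomial (Fin N) K) :=
      fun p r => r.elim (fun _ => if p.1 = Sum.inl p.2 then 1 else 0)
      (fun r => if p.1 = r.1 then Matrix.fromCols C W r.2 (Sum.inl p.2) else 0) with hY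
    have h2 : (spp_psi (Matrix.fromCols C W) * Y) (i, j) r =
        (spp_psi (Matrix.fromCols C W)).mulVec (fun p => Y p r) (i, j) := rfl
    rw [h2, spp_psi_mulVec]
    rcases r with r | ⟨q0, i0⟩
    · simp only [spp_xi, hY, Sum.elim_inl, mul_ite, mul_one, mul_zero]
      rw [Finset.sum_ite_eq, Finset.sum_ite_eq']
      simp
    · simp only [spp_xi, hY, Sum.elim_inr, mul_ite, mul_zero]
      rw [Finset.sum_ite_eq, Finset.sum_ite_eq']
      simp only [Finset.mem_univ, if_true]
      ring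
  obtain ⟨z, hz⟩ := key key1 key2 key3 key4 hyp1 hyp2 hyp3 hyp4 (fun p => X p.1 p.2)
    (by
      rintro ⟨i, i'⟩
      have h2 : (0 : ℤ) - (b i - b i') = b i' - b i := by ring
      simp only [h2]
      exact hX i i')
    (fun p => V p.1 p.2)
    (by
      funext ⟨i, j⟩
      rw [spp_phi_mulVec, spp_psi_mulVec]
      have h1 := congrFun (congrFun hXV i) j
      rw [Matrix.mul_apply, Matrix.mul_apply] at h1
      rw [← h1]
      refine Finset.sum_congr rfl fun i' _ => ?_
      rw [mul_comm, Matrix.fromCols_apply_inl])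
  refine ⟨z (Sum.inl ()), Matrix.of fun q i => z (Sum.inr (q, i)), ?_⟩
  ext1 i i'
  have h1 := congrFun hz (i, i')
  rw [spp_xi_mulVec] at h1
  simp only at h1
  rw [h1, Matrix.add_apply, Matrix.smul_apply, Matrix.one_apply, Matrix.mul_apply]
  simp only [Matrix.of_apply, smul_eq_mul, mul_ite, mul_one, mul_zero]

end Pool.Agent.Lib.MP_09338f_ag
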