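import Pool.Agent.Lib.MP_09338f_ag.KM.Stm2

/-!
# Project KM, piece [spr]: specialisation for `RR1`
-/

set_option autoImplicit false

open MvPolynomial Matrix

universe u

namespace Pool.Agent.Lib.MP_09338f_ag

section comp

variable {K : Type u} [CommRing K] {N : ℕ}

/-- the homogeneous component of the (integer) degree `d` -/
noncomputable def spr_comp (d : ℤ) (p : MvPolynomial (Fin N) K) : MvPolynomial (Fin N) K :=
  if 0 ≤ d then homogeneousComponent d.toNat p else 0

theorem spr_coeff (d : ℤ) (p : MvPolynomial (Fin N) K) (m : Fin N →₀ ℕ) :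
    (spr_comp d p).coeff m = if ((m.degree : ℕ) : ℤ) = d then p.coeff m else 0 := by
  unfold spr_comp
  by_cases hd : 0 ≤ d
  · rw [if_pos hd, coeff_homogeneousComponent]
    by_cases h : ((m.degree : ℕ) : ℤ) = d
    · rw [if_pos h, if_pos (by omega)]
    · rw [if_neg h, if_neg (by omega)]
  · rw [if_neg hd, if_neg (by omega), coeff_zero]

theorem spr_comp_hom (d : ℤ) (p : MvPolynomial (Fin N) K) : HomD d (spr_comp d p) := by
  intro m hm
  rw [mem_support_iff, spr_coeff] at hm
  by_contra h
  exact hm (if_neg h)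

theorem spr_comp_mul {δ : ℤ} {q : MvPolynomial (Fin N) K} (hq : HomD δ q)
    (p : MvPolynomial (Fin N) K) (d : ℤ) : spr_comp (d + δ) (q * p) = q * spr_comp d p := by
  ext m
  rw [spr_coeff, coeff_mul, coeff_mul]
  by_cases h : ((m.degree : ℕ) : ℤ) = d + δ
  · rw [if_pos h]
    apply Finset.sum_congr rfl
    intro x hx
    rw [Finset.HasAntidiagonal.mem_antidiagonal] at hx
    by_cases hx1 : coeff x.1 q = 0
    · rw [hx1, zero_mul, zero_mul]
    · have h1 := hq x.1 (mem_support_iff.2 hx1)
      have h2 : m.degree = x.1.degree + x.2.degree := by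
        rw [← hx, map_add]
      rw [spr_coeff, if_pos (by omega)]
  · rw [if_neg h]
    symm
    apply Finset.sum_eq_zero
    intro x hx
    rw [Finset.HasAntidiagonal.mem_antidiagonal] at hx
    by_cases hx1 : coeff x.1 q = 0
    · rw [hx1, zero_mul]
    · have h1 := hq x.1 (mem_support_iff.2 hx1)
      have h2 : m.degree = x.1.degree + x.2.degree := by
        rw [← hx, map_add]
      rw [spr_coeff, if_neg (by omega), mul_zero]

theorem spr_comp_sum {ι : Type} (s : Finset ι) (p : ι → MvPolynomial (Fin N) K) (d : ℤ) :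
    spr_comp d (∑ i ∈ s, p i) = ∑ i ∈ s, spr_comp d (p i) := by
  ext m
  rw [spr_coeff, coeff_sum, coeff_sum]
  by_cases h : ((m.degree : ℕ) : ℤ) = d
  · rw [if_pos h]
    apply Finset.sum_congr rfl
    intro i _
    rw [spr_coeff, if_pos h]
  · rw [if_neg h]
    symm
    apply Finset.sum_eq_zero
    intro i _
    rw [spr_coeff, if_neg h]

theorem spr_decomp (S : Finset ℤ) (p : MvPolynomial (Fin N) K) (c : ℤ)
    (hS : ∀ m ∈ p.support, ((m.degree : ℕ) : ℤ) + c ∈ S) :
    ∑ d ∈ S, spr_comp (d - c) p = p := by
  ext m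
  rw [coeff_sum]
  by_cases hm : m ∈ p.support
  · rw [Finset.sum_eq_single (((m.degree : ℕ) : ℤ) + c)]
    · rw [spr_coeff, if_pos (by ring)]
    · intro d _ hd
      rw [spr_coeff, if_neg (by omega)]
    · intro h
      exact absurd (hS m hm) h
  · have h0 : coeff m p = 0 := by
      rwa [mem_support_iff, not_not] at hm
    rw [h0]
    apply Finset.sum_eq_zero
    intro d _
    rw [spr_coeff, h0, ite_self]

theorem spr_comp_mulVec {I J : Type} [Fintype J] {α : J → ℤ} {β : I → ℤ}
    {Φ : Matrix I J (MvPolynomial (Fin N) K)} (hΦ : HomM α β Φ)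
    (x : J → MvPolynomial (Fin N) K) (d : ℤ) (r : I) :
    Φ.mulVec (fun q => spr_comp (d - α q) (x q)) r = spr_comp (d - β r) (Φ.mulVec x r) := by
  simp only [Matrix.mulVec, dotProduct]
  rw [spr_comp_sum]
  apply Finset.sum_congr rfl
  intro j _
  have h := spr_comp_mul (hΦ r j) (x j) (d - α j)
  rw [← h]
  congr 1
  ring

theorem spr_HomD_map {L : Type u} [CommRing L] (g : K →+* L) {d : ℤ}
    {p : MvPolynomial (Fin N) K} (h : HomD d p) : HomD d (MvPolynomial.map g p) := by
  intro m hm
  exact h m (support_map_subset g p hm)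

theorem spr_HomD_zero (d : ℤ) : HomD d (0 : MvPolynomial (Fin N) K) := by
  intro m hm
  simp at hm

end comp

section blk

variable {P I J Y : Type} [DecidableEq P] [Fintype P] [Fintype J] [Fintype Y] {R : Type u}
  [CommRing R]

/-- the block diagonal matrix with the blocks `A` -/
def spr_blk (P : Type) [DecidableEq P] {I J : Type} (A : Matrix I J R) :
    Matrix (P × I) (P × J) R :=
  fun q r => if q.1 = r.1 then A q.2 r.2 else 0

omit [Fintype Y] in
theorem spr_blk_mulVec (A : Matrix I J R) (y : P × J → R) (p : P) (i : I) :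
    (spr_blk P A).mulVec y (p, i) = A.mulVec (fun j => y (p, j)) i := by
  simp only [Matrix.mulVec, dotProduct, spr_blk, Fintype.sum_prod_type]
  rw [Finset.sum_eq_single p]
  · simp
  · intro p' _ hp'
    apply Finset.sum_eq_zero
    intro j _
    rw [if_neg (Ne.symm hp'), zero_mul]
  · intro h
    exact absurd (Finset.mem_univ p) h

omit [Fintype P] [Fintype J] [Fintype Y] in
theorem spr_blk_map {L : Type u} [CommRing L] (F : R →+* L) (A : Matrix I J R) :
    (spr_blk P A).map F = spr_blk P (A.map F) := by
  ext q r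
  simp only [Matrix.map_apply, spr_blk]
  split_ifs
  · rfl
  · exact map_zero F

omit [Fintype Y] in
theorem spr_blk_mul (A : Matrix I J R) (B : Matrix J Y R) (h : A * B = 0) :
    spr_blk P A * spr_blk P B = 0 := by
  ext q r
  obtain ⟨p, i⟩ := q
  obtain ⟨p', y⟩ := r
  have h1 := spr_blk_mulVec A (fun s => spr_blk P B s (p', y)) p i
  have h2 : (spr_blk P A * spr_blk P B) (p, i) (p', y) =
      (spr_blk P A).mulVec (fun s => spr_blk P B s (p', y)) (p, i) := rfl
  rw [h2, h1, Matrix.zero_apply]
  by_cases hp : p = p'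
  · have h3 : (fun j => spr_blk P B (p, j) (p', y)) = fun j => B j y := by
      funext j
      simp [spr_blk, hp]
    rw [h3]
    have h4 : A.mulVec (fun j => B j y) i = (A * B) i y := rfl
    rw [h4, h, Matrix.zero_apply]
  · have h3 : (fun j => spr_blk P B (p, j) (p', y)) = 0 := by
      funext j
      simp [spr_blk, hp]
    rw [h3, Matrix.mulVec_zero]
    rfl

end blk

section maps

variable {I J : Type} [Fintype I] [DecidableEq I] [DecidableEq J] {R L : Type u}
  [CommRing R] [CommRing L]

theorem spr_rel_map (F : R →+* L) (A : Matrix I J R) (y : Option I → J) (j : J) :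
    rel (A.map F) y j = F (rel A y j) := by
  unfold rel
  rw [RingHom.map_det]
  congr 1
  ext r s
  rcases r with _ | i
  · simp only [Matrix.of_apply, RingHom.mapMatrix_apply, Matrix.map_apply, Option.elim]
    split_ifs <;> simp
  · simp [Matrix.of_apply]

/-- the minor with the column `k` replaced by `m` -/
noncomputable def spr_mn (A : Matrix I J R) (e : I → J) (k : I) (m : I → R) : R :=
  ((A.submatrix id e).updateCol k m).det

omit [DecidableEq J] in
theorem spr_mn_map (F : R →+* L) (A : Matrix I J R) (e : I → J) (k : I) (m : I → R) :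
    spr_mn (A.map F) e k (fun i => F (m i)) = F (spr_mn A e k m) := by
  unfold spr_mn
  rw [RingHom.map_det]
  congr 1
  ext r s
  simp only [RingHom.mapMatrix_apply, Matrix.map_apply, Matrix.updateCol_apply,
    Matrix.submatrix_apply, id]
  split_ifs <;> rfl

omit [DecidableEq J] in
theorem spr_mn_sum (A : Matrix I J R) (e : I → J) (k : I) (m : I → R) :
    spr_mn A e k m = ∑ l, spr_mn A e k (Pi.single l 1) * m l := by
  have h1 : ∀ v, spr_mn A e k v = (A.submatrix id e).cramer v k := by
    intro v
    rw [Matrix.cramer_apply]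
    rfl
  simp only [h1]
  have h2 : m = ∑ l, m l • (Pi.single l 1 : I → R) := by
    funext i
    rw [Finset.sum_apply]
    simp [Pi.single_apply]
  conv_lhs => rw [h2, map_sum]
  rw [Finset.sum_apply]
  apply Finset.sum_congr rfl
  intro l _
  rw [map_smul, Pi.smul_apply, smul_eq_mul, mul_comm]

end maps

/-- the matrix `φ` -/
noncomputable def spr_phi {I J : Type} [Fintype I] [DecidableEq I] {R : Type u} [CommRing R]
    (A : Matrix I J R) : Matrix (((I → J) × I × I) × I) I R :=
  fun q l => if q.1.2.2 = q.2 then spr_mn A q.1.1 q.1.2.1 (Pi.single l 1) else 0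

theorem spr_phi_mulVec {I J : Type} [Fintype I] [DecidableEq I] {R : Type u} [CommRing R]
    (A : Matrix I J R) (m : I → R) (e : I → J) (k i i' : I) :
    (spr_phi A).mulVec m ((e, k, i), i') =
      (Pi.single i (spr_mn A e k m) : I → R) i' := by
  simp only [Matrix.mulVec, dotProduct, spr_phi]
  by_cases h : i = i'
  · subst h
    simp only [if_true, Pi.single_eq_same]
    rw [← spr_mn_sum]
  · simp only [if_neg h, zero_mul, Finset.sum_const_zero]
    rw [Pi.single_eq_of_ne (Ne.symm h)]

theorem spr_phi_map {I J : Type} [Fintype I] [DecidableEq I] {R L : Type u} [CommRing R]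
    [CommRing L] (F : R →+* L) (A : Matrix I J R) : (spr_phi A).map F = spr_phi (A.map F) := by
  ext q l
  simp only [Matrix.map_apply, spr_phi]
  split_ifs
  · rw [← spr_mn_map]
    congr 1
    funext i
    by_cases h : i = l
    · subst h; simp
    · simp [h]
  · exact map_zero F

theorem p_spr (h_exg : S_exg.{u}) (h_unv : S_unv.{u}) (h_mim : S_mim.{u}) (h_rel : S_rel.{u})
    (h_reld : S_reld.{u}) (_ : S_hc.{u}) : S_spr.{u} := by
  intro k K₀ K _ _ _ _ _ I J _ _ _ _ N a b A₀ A hA₀ hex hrr hgen
  obtain ⟨U, hU, huni⟩ := h_unv k I J N a b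
  obtain ⟨f, hf, -⟩ := huni K₀ A₀ hA₀
  obtain ⟨g, hg, hginj⟩ := huni K A hgen.1
  have hginj' : Function.Injective (g : MvPolynomial (Coef N a b) k →+* K) := hginj hgen
  -- degrees
  set P : Type := (I → J) × I × I with hP
  let c : P → ℤ := fun p => b p.2.2 - ∑ i, b i + ∑ i, a (p.1 i) - a (p.1 p.2.1)
  let D₂ : P × I → ℤ := fun q => b q.2 - c q.1
  let D₃ : P × J → ℤ := fun q => a q.2 - c q.1
  let D₄ : P × (Option I → J) → ℤ := fun q => (∑ s, a (q.2 s) - ∑ i, b i) - c q.1
  let Rl : Matrix J (Option I → J) (MvPolynomial (Fin N) (MvPolynomial (Coef N a b) k)) :=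
    fun j y => rel U y j
  have hφ : HomM b D₂ (spr_phi U) := by
    rintro ⟨⟨e, k', i⟩, i'⟩ l
    show HomD _ (if i = i' then spr_mn U e k' (Pi.single l 1) else 0)
    by_cases h : i = i'
    · subst h
      rw [if_pos rfl]
      have h1 := (h_reld (MvPolynomial (Coef N a b) k) N I J a b U hU).2.2.2 (Pi.single l 1)
        (b l) (by
          intro i₁
          by_cases h2 : i₁ = l
          · subst h2
            rw [Pi.single_eq_same]
            intro m hm
            have h3 : m = 0 := by
              by_contra h4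
              rw [mem_support_iff, coeff_one, if_neg (Ne.symm h4)] at hm
              exact hm rfl
            rw [h3]
            simp
          · rw [Pi.single_eq_of_ne h2]
            exact spr_HomD_zero _) e k'
      have h2 : b l - D₂ ((e, k', i), i) = ∑ i, a (e i) - a (e k') + b l - ∑ i, b i := by
        simp only [D₂, c]
        ring
      rw [h2]
      exact h1
    · rw [if_neg h]
      exact spr_HomD_zero _
  have hψ : HomM D₃ D₂ (spr_blk P U) := by
    rintro ⟨p, i⟩ ⟨p', j⟩
    show HomD _ (if p = p' then U i j else 0)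
    by_cases h : p = p'
    · subst h
      rw [if_pos rfl]
      have h2 : D₃ (p, j) - D₂ (p, i) = a j - b i := by
        simp only [D₂, D₃]
        ring
      rw [h2]
      exact hU i j
    · rw [if_neg h]
      exact spr_HomD_zero _
  have hω : HomM D₄ D₃ (spr_blk P Rl) := by
    rintro ⟨p, j⟩ ⟨p', y⟩
    show HomD _ (if p = p' then Rl j y else 0)
    by_cases h : p = p'
    · subst h
      rw [if_pos rfl]
      have h2 : D₄ (p, y) - D₃ (p, j) = ∑ s, a (y s) - ∑ i, b i - a j := by
        simp only [D₄, D₃]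
        ring
      rw [h2]
      exact (h_reld (MvPolynomial (Coef N a b) k) N I J a b U hU).1 y j
    · rw [if_neg h]
      exact spr_HomD_zero _
  -- images
  have hRl : ∀ (L : Type u) [CommRing L] (h : MvPolynomial (Coef N a b) k →+* L),
      Rl.map (MvPolynomial.map h) = fun j y => rel (U.map (MvPolynomial.map h)) y j := by
    intro L _ h
    ext j y
    rw [Matrix.map_apply, spr_rel_map]
  have hφf : (spr_phi U).map (MvPolynomial.map (f : MvPolynomial (Coef N a b) k →+* K₀)) =
      spr_phi A₀ := by
    rw [spr_phi_map, hf]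
  have hφg : (spr_phi U).map (MvPolynomial.map (g : MvPolynomial (Coef N a b) k →+* K)) =
      spr_phi A := by
    rw [spr_phi_map, hg]
  have hψf : (spr_blk P U).map (MvPolynomial.map (f : MvPolynomial (Coef N a b) k →+* K₀)) =
      spr_blk P A₀ := by
    rw [spr_blk_map, hf]
  have hψg : (spr_blk P U).map (MvPolynomial.map (g : MvPolynomial (Coef N a b) k →+* K)) =
      spr_blk P A := by
    rw [spr_blk_map, hg]
  have hωf : (spr_blk P Rl).map (MvPolynomial.map (f : MvPolynomial (Coef N a b) k →+* K₀)) =
      spr_blk P (fun j y => rel A₀ y j) := by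
    rw [spr_blk_map, hRl, hf]
  have hωg : (spr_blk P Rl).map (MvPolynomial.map (g : MvPolynomial (Coef N a b) k →+* K)) =
      spr_blk P (fun j y => rel A y j) := by
    rw [spr_blk_map, hRl, hg]
  have key : ∀ (d : ℤ) (x : I → MvPolynomial (Fin N) K), (∀ q, HomD (d - b q) (x q)) →
      ∀ y : P × J → MvPolynomial (Fin N) K,
        (spr_phi A).mulVec x = (spr_blk P A).mulVec y →
        ∃ z : J → MvPolynomial (Fin N) K, x = A.mulVec z := by
    intro d
    have h := h_exg (MvPolynomial (Coef N a b) k) K₀ K (f : MvPolynomial (Coef N a b) k →+* K₀)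
      (g : MvPolynomial (Coef N a b) k →+* K) hginj' N J I (P × I) (P × J)
      (P × (Option I → J)) a b D₂ D₃ D₄ d (spr_phi U) (spr_blk P U) U (spr_blk P Rl) hφ hψ hU hω
    rw [hφf, hφg, hψf, hψg, hωf, hωg, hf, hg] at h
    apply h
    · -- `RR1 A₀`
      intro x _ y hxy
      have h1 : x ∈ Im A₀ := by
        apply hrr
        intro e k' i
        refine ⟨fun j => y ((e, k', i), j), ?_⟩
        funext i'
        have h2 := congrFun hxy ((e, k', i), i')
        rw [spr_phi_mulVec, spr_blk_mulVec] at h2
        rw [Matrix.mulVecLin_apply]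
        exact h2.symm
      obtain ⟨z, hz⟩ := h1
      exact ⟨z, hz.symm⟩
    · -- `Ex1 A₀`
      intro y _ hy
      have h1 : ∀ p : P, ∃ cc : (Option I → J) → MvPolynomial (Fin N) K₀,
          ∑ y', cc y' • rel A₀ y' = fun j => y (p, j) := by
        intro p
        have h2 : A₀.mulVec (fun j => y (p, j)) = 0 := by
          funext i
          have h3 := congrFun hy (p, i)
          rw [spr_blk_mulVec] at h3
          exact h3
        exact (Submodule.mem_span_range_iff_exists_fun _).1 (hex _ h2)
      choose cc hcc using h1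
      refine ⟨fun q => cc q.1 q.2, ?_⟩
      funext q
      obtain ⟨p, j⟩ := q
      rw [spr_blk_mulVec]
      have h2 := congrFun (hcc p) j
      rw [← h2, Finset.sum_apply]
      simp only [Matrix.mulVec, dotProduct, Pi.smul_apply, smul_eq_mul]
      apply Finset.sum_congr rfl
      intro y' _
      rw [mul_comm]
    · -- relations
      apply spr_blk_mul
      refine Matrix.ext fun i y => ?_
      have h1 := congrFun ((h_rel (MvPolynomial (Fin N) K) I J).1 A y) i
      exact h1
    · -- minors with one column in the image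
      have h1 : ∀ (p : P) (j : J), ∃ v : J → MvPolynomial (Fin N) K,
          A.mulVec v = Pi.single p.2.2 (spr_mn A p.1 p.2.1 (fun i => A i j)) := by
        intro p j
        have h2 := (h_mim (MvPolynomial (Fin N) K) I J A).2.2.1 (Pi.single j 1) p.1 p.2.1
        have h3 := (h_mim (MvPolynomial (Fin N) K) I J A).1 _ h2 (Pi.single p.2.2 1)
        obtain ⟨v, hv⟩ := h3
        refine ⟨v, ?_⟩
        rw [Matrix.mulVecLin_apply] at hv
        rw [hv]
        have h4 : A.mulVec (Pi.single j 1) = fun i => A i j := by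
          funext i
          rw [Matrix.mulVec_single_one]
          rfl
        rw [h4]
        funext i
        rw [Pi.smul_apply, smul_eq_mul]
        by_cases h5 : i = p.2.2
        · rw [h5, Pi.single_eq_same, Pi.single_eq_same, mul_one]
          rfl
        · rw [Pi.single_eq_of_ne h5, Pi.single_eq_of_ne h5, mul_zero]
      choose v hv using h1
      let Yv : Matrix (P × J) J (MvPolynomial (Fin N) K) := fun q j => v q.1 j q.2
      refine ⟨Yv, ?_⟩
      refine Matrix.ext fun q j => ?_
      obtain ⟨⟨e, k', i⟩, i'⟩ := q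
      have h2 : (spr_phi A * A) ((e, k', i), i') j =
          (spr_phi A).mulVec (fun l => A l j) ((e, k', i), i') := rfl
      have h3 : (spr_blk P A * Yv) ((e, k', i), i') j =
          (spr_blk P A).mulVec (fun q => v q.1 j q.2) ((e, k', i), i') := rfl
      rw [h2, h3, spr_phi_mulVec, spr_blk_mulVec]
      have h4 := congrFun (hv (e, k', i) j) i'
      exact h4.symm
  -- the end
  intro m hm
  choose y hy using hm
  have hy1 : (spr_phi A).mulVec m =
      (spr_blk P A).mulVec (fun q => y q.1.1 q.1.2.1 q.1.2.2 q.2) := by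
    funext q
    obtain ⟨⟨e, k', i⟩, i'⟩ := q
    rw [spr_phi_mulVec, spr_blk_mulVec]
    have h1 := congrFun (hy e k' i) i'
    rw [Matrix.mulVecLin_apply] at h1
    exact h1.symm
  have hφA : HomM b D₂ (spr_phi A) := by
    rw [← hφg]
    intro q l
    exact spr_HomD_map _ (hφ q l)
  have hψA : HomM D₃ D₂ (spr_blk P A) := by
    rw [← hψg]
    intro q l
    exact spr_HomD_map _ (hψ q l)
  have hcomp : ∀ d : ℤ, ∃ z : J → MvPolynomial (Fin N) K,
      (fun q => spr_comp (d - b q) (m q)) = A.mulVec z := by
    intro d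
    refine key d _ (fun q => spr_comp_hom _ _)
      (fun q => spr_comp (d - D₃ q) (y q.1.1 q.1.2.1 q.1.2.2 q.2)) ?_
    funext r
    rw [spr_comp_mulVec hφA, hy1]
    exact (spr_comp_mulVec hψA _ d r).symm
  choose z hz using hcomp
  let S : Finset ℤ := Finset.univ.biUnion fun q =>
    (m q).support.image fun μ => ((μ.degree : ℕ) : ℤ) + b q
  refine ⟨∑ d ∈ S, z d, ?_⟩
  rw [map_sum]
  funext q
  rw [Finset.sum_apply]
  have h1 : ∀ d ∈ S, A.mulVecLin (z d) q = spr_comp (d - b q) (m q) := by
    intro d _
    rw [Matrix.mulVecLin_apply, ← hz d]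
  rw [Finset.sum_congr rfl h1]
  apply spr_decomp
  intro μ hμ
  exact Finset.mem_biUnion.2 ⟨q, Finset.mem_univ q, Finset.mem_image_of_mem _ hμ⟩

end Pool.Agent.Lib.MP_09338f_ag
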