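import Pool.Agent.Lib.MP_09338f_ag.KM.Stm4

/-!
# Project KM, piece [stb]: the dimension of the stabilizer
-/

set_option autoImplicit false

open MvPolynomial Matrix

universe u

namespace Pool.Agent.Lib.MP_09338f_ag

private theorem stb_homD_mul {N : ℕ} {K : Type u} [Field K] {d e : ℤ}
    {p q : MvPolynomial (Fin N) K} (hp : HomD d p) (hq : HomD e q) : HomD (d + e) (p * q) := by
  classical
  intro m hm
  obtain ⟨m1, h1, m2, h2, rfl⟩ := Finset.mem_add.1 (MvPolynomial.support_mul p q hm)
  rw [map_add]
  push_cast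
  rw [hp m1 h1, hq m2 h2]

private theorem stb_homD_C {N : ℕ} {K : Type u} [Field K] (s : K) :
    HomD 0 (C s : MvPolynomial (Fin N) K) := by
  classical
  intro m hm
  rw [mem_support_iff, coeff_C] at hm
  have h : 0 = m := by
    by_contra h
    rw [if_neg h] at hm
    exact hm rfl
  rw [← h]
  simp

section

variable {I J : Type} [Fintype I] [DecidableEq I] [Fintype J] [DecidableEq J] {N : ℕ} {K : Type u}
  [Field K]

omit [DecidableEq I] [DecidableEq J] [Fintype I] in
private theorem stb_mem_imgD {a : J → ℤ} {A : Matrix I J (MvPolynomial (Fin N) K)} {d : ℤ}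
    {v : I → MvPolynomial (Fin N) K} :
    v ∈ imgD a A d ↔ ∃ u : J → MvPolynomial (Fin N) K,
      (∀ j, HomD (d - a j) (u j)) ∧ A.mulVec u = v := by
  unfold imgD
  rw [Submodule.mem_map]
  constructor
  · rintro ⟨u, hu, h⟩
    exact ⟨u, fun j => (Submodule.mem_pi.1 hu) j (Set.mem_univ j), h⟩
  · rintro ⟨u, hu, h⟩
    exact ⟨u, Submodule.mem_pi.2 fun j _ => hu j, h⟩

omit [DecidableEq I] [DecidableEq J] [Fintype I] in
private theorem stb_mem_kerD {a : J → ℤ} {A : Matrix I J (MvPolynomial (Fin N) K)} {d : ℤ}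
    {u : J → MvPolynomial (Fin N) K} :
    u ∈ kerD a A d ↔ (∀ j, HomD (d - a j) (u j)) ∧ A.mulVec u = 0 := by
  unfold kerD
  rw [Submodule.mem_inf]
  constructor
  · rintro ⟨h1, h2⟩
    exact ⟨fun j => (Submodule.mem_pi.1 h1) j (Set.mem_univ j), h2⟩
  · rintro ⟨h1, h2⟩
    exact ⟨Submodule.mem_pi.2 fun j _ => h1 j, h2⟩

omit [Fintype I] [DecidableEq I] [Fintype J] [DecidableEq J] in
private theorem stb_mem_matS {P Q : Type} {α : Q → ℤ} {β : P → ℤ}
    {X : Matrix P Q (MvPolynomial (Fin N) K)} :
    X ∈ matS N K α β ↔ ∀ i j, HomD (α j - β i) (X i j) := by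
  constructor
  · intro h i j
    exact (Submodule.mem_pi.1 ((Submodule.mem_pi.1 h) i (Set.mem_univ i))) j (Set.mem_univ j)
  · intro h
    exact Submodule.mem_pi.2 fun i _ => Submodule.mem_pi.2 fun j _ => h i j

omit [DecidableEq I] [DecidableEq J] in
private theorem stb_mem_stabS {a : J → ℤ} {b : I → ℤ}
    {A : Matrix I J (MvPolynomial (Fin N) K)}
    {p : Matrix I I (MvPolynomial (Fin N) K) × Matrix J J (MvPolynomial (Fin N) K)} :
    p ∈ stabS a b A A ↔ (HomM b b p.1 ∧ HomM a a p.2) ∧ p.1 * A = A * p.2 := by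
  unfold stabS
  rw [Submodule.mem_inf, Submodule.mem_prod, stb_mem_matS, stb_mem_matS, LinearMap.mem_ker]
  refine and_congr Iff.rfl ?_
  exact sub_eq_zero

/-- The map `(s, z) ↦ s 1 + z`. -/
private noncomputable def stb_psi (a : J → ℤ) (b : I → ℤ)
    (A : Matrix I J (MvPolynomial (Fin N) K)) :
    (K × (∀ i, imgD a A (b i))) →ₗ[K] Matrix I I (MvPolynomial (Fin N) K) where
  toFun p := (C p.1 : MvPolynomial (Fin N) K) • (1 : Matrix I I (MvPolynomial (Fin N) K)) +
    Matrix.of fun i i' => (p.2 i').1 i
  map_add' p q := by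
    ext1 i i'
    simp only [Prod.fst_add, Prod.snd_add, map_add, add_smul, Matrix.add_apply, Matrix.of_apply,
      Pi.add_apply, Submodule.coe_add]
    ring
  map_smul' c p := by
    ext1 i i'
    simp only [Prod.smul_fst, Prod.smul_snd, smul_eq_mul, map_mul, Matrix.add_apply,
      Matrix.smul_apply, Matrix.of_apply, Pi.smul_apply, Submodule.coe_smul, RingHom.id_apply,
      smul_add, MvPolynomial.smul_eq_C_mul]
    ring

omit [Fintype I] [DecidableEq J] in
private theorem stb_psi_apply (a : J → ℤ) (b : I → ℤ)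
    (A : Matrix I J (MvPolynomial (Fin N) K)) (p : K × (∀ i, imgD a A (b i))) :
    stb_psi a b A p = (C p.1 : MvPolynomial (Fin N) K) •
      (1 : Matrix I I (MvPolynomial (Fin N) K)) + Matrix.of fun i i' => (p.2 i').1 i := rfl

omit [DecidableEq J] [Fintype I] in
private theorem stb_psi_inj (a : J → ℤ) (b : I → ℤ)
    (A : Matrix I J (MvPolynomial (Fin N) K))
    (hu : ∃ i, (Pi.single i 1 : I → MvPolynomial (Fin N) K) ∉ Im A) :
    Function.Injective (stb_psi a b A) := by
  rw [← LinearMap.ker_eq_bot, LinearMap.ker_eq_bot']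
  intro p hp
  rw [stb_psi_apply] at hp
  have h0 : ∀ i', (p.2 i').1 = -((C p.1 : MvPolynomial (Fin N) K) • Pi.single i' 1) := by
    intro i'
    funext i
    have h := congrFun (congrFun hp i) i'
    rw [Matrix.add_apply, Matrix.smul_apply, Matrix.of_apply, Matrix.zero_apply,
      Matrix.one_apply] at h
    rw [Pi.neg_apply, Pi.smul_apply, Pi.single_apply]
    rw [eq_neg_iff_add_eq_zero, add_comm]
    exact h
  have h1 : p.1 = 0 := by
    by_contra hne
    obtain ⟨i, hi⟩ := hu
    refine hi ?_
    have h2 : (p.2 i).1 ∈ Im A := by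
      obtain ⟨u, _, h⟩ := stb_mem_imgD.1 (p.2 i).2
      exact ⟨u, h⟩
    have h3 : (Pi.single i 1 : I → MvPolynomial (Fin N) K) =
        (-(C (p.1)⁻¹ : MvPolynomial (Fin N) K)) • (p.2 i).1 := by
      rw [h0 i, neg_smul_neg, smul_smul, ← C_mul, inv_mul_cancel₀ hne, C_1, one_smul]
    rw [h3]
    exact Submodule.smul_mem _ _ h2
  refine Prod.ext h1 ?_
  funext i
  refine Subtype.ext ?_
  rw [h0 i, h1, C_0, zero_smul, neg_zero]
  rfl

end

theorem p_stb (h_hc : S_hc.{u}) (h_mon : S_mon.{u}) : S_stb.{u} := by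
  intro N K _ I J _ _ _ _ a b A hA hHP hu
  obtain ⟨_, hm2, hm3, _⟩ := h_mon
  -- finiteness
  have fin_ker : ∀ d, Module.Finite K (kerD a A d) := by
    intro d
    have := (hm2 N K J a d).1
    exact Submodule.finiteDimensional_of_le (S₂ := tupS N K a d) inf_le_left
  have fin_img : ∀ d, Module.Finite K (imgD a A d) := by
    intro d
    have := (hm2 N K J a d).1
    unfold imgD
    infer_instance
  have fin_S : Module.Finite K (stabS a b A A) := by
    have h1 := (hm3 N K I I b b).1
    have h2 := (hm3 N K J J a a).1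
    rw [Module.Finite.iff_fg] at h1 h2
    have h3 := h1.prod h2
    rw [← Module.Finite.iff_fg] at h3
    exact Submodule.finiteDimensional_of_le (S₂ := (matS N K b b).prod (matS N K a a)) inf_le_left
  let p : stabS a b A A →ₗ[K] Matrix I I (MvPolynomial (Fin N) K) :=
    (LinearMap.fst K _ _).comp (stabS a b A A).subtype
  have hrn := LinearMap.finrank_range_add_finrank_ker p
  -- the range
  have hrange : LinearMap.range p = LinearMap.range (stb_psi a b A) := by
    apply le_antisymm
    · rintro _ ⟨⟨⟨X, Y⟩, hXY⟩, rfl⟩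
      obtain ⟨⟨hX, hY⟩, hc⟩ := stb_mem_stabS.1 hXY
      change HomM b b X at hX
      change X * A = A * Y at hc
      obtain ⟨W0, hW0⟩ : ∃ W0 : Matrix I Empty (MvPolynomial (Fin N) K),
        W0 = fun _ e => e.elim := ⟨_, rfl⟩
      rw [← hW0] at hHP
      let W1 : Matrix Empty J (MvPolynomial (Fin N) K) := fun e _ => e.elim
      have hV : X * A = Matrix.fromCols A W0 * Matrix.fromRows Y W1 := by
        rw [Matrix.fromCols_mul_fromRows, hc]
        have : W0 * W1 = 0 := by
          ext1 i j
          rw [Matrix.mul_apply]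
          simp
        rw [this, add_zero]
      obtain ⟨s, Z, hZ⟩ := hHP X hX _ hV
      let Z1 : Matrix J I (MvPolynomial (Fin N) K) := fun j i => Z (Sum.inl j) i
      have hZ2 : X = s • (1 : Matrix I I (MvPolynomial (Fin N) K)) + A * Z1 := by
        have h1 : Matrix.fromCols A W0 * Z = A * Z1 := by
          ext1 i i'
          rw [Matrix.mul_apply, Matrix.mul_apply, Fintype.sum_sum_type]
          simp [Z1]
        rw [← h1]
        exact hZ
      obtain ⟨s', Z', hZ', hX'⟩ := (h_hc K N I J a b A hA).2.2 X s _ hX hZ2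
      refine ⟨(s', fun i' => ⟨A.mulVec fun j => Z' j i', stb_mem_imgD.2
        ⟨fun j => Z' j i', fun j => hZ' j i', rfl⟩⟩), ?_⟩
      rw [stb_psi_apply]
      change _ = X
      rw [hX']
      rfl
    · rintro _ ⟨⟨s, z⟩, rfl⟩
      have hz : ∀ i, ∃ u : J → MvPolynomial (Fin N) K,
          (∀ j, HomD (b i - a j) (u j)) ∧ A.mulVec u = (z i).1 :=
        fun i => stb_mem_imgD.1 (z i).2
      choose Z hZ1 hZ2 using hz
      let Zm : Matrix J I (MvPolynomial (Fin N) K) := fun j i => Z i j
      have hψ : stb_psi a b A (s, z) = (C s : MvPolynomial (Fin N) K) •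
          (1 : Matrix I I (MvPolynomial (Fin N) K)) + A * Zm := by
        rw [stb_psi_apply]
        congr 1
        ext1 i i'
        rw [Matrix.of_apply, ← hZ2 i']
        rfl
      have hone : ∀ (Q : Type) [DecidableEq Q] (α : Q → ℤ) (q q' : Q), HomD (α q' - α q)
          (((C s : MvPolynomial (Fin N) K) •
            (1 : Matrix Q Q (MvPolynomial (Fin N) K))) q q') := by
        intro Q _ α q q'
        rw [Matrix.smul_apply, Matrix.one_apply]
        by_cases h : q = q'
        · subst h
          rw [if_pos rfl, sub_self, smul_eq_mul, mul_one]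
          exact stb_homD_C s
        · rw [if_neg h, smul_zero]
          exact (homS N K (α q' - α q)).zero_mem
      have hmem : ((C s : MvPolynomial (Fin N) K) •
          (1 : Matrix I I (MvPolynomial (Fin N) K)) + A * Zm,
          (C s : MvPolynomial (Fin N) K) • (1 : Matrix J J (MvPolynomial (Fin N) K)) + Zm * A) ∈
          stabS a b A A := by
        refine stb_mem_stabS.2 ⟨⟨?_, ?_⟩, ?_⟩
        · intro i i'
          change HomD (b i' - b i) (((C s : MvPolynomial (Fin N) K) •
            (1 : Matrix I I (MvPolynomial (Fin N) K))) i i' + (A * Zm) i i')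
          refine (homS N K (b i' - b i)).add_mem (hone I b i i') ?_
          rw [Matrix.mul_apply]
          refine (homS N K (b i' - b i)).sum_mem fun j _ => ?_
          have h := stb_homD_mul (hA i j) (hZ1 i' j)
          have h2 : a j - b i + (b i' - a j) = b i' - b i := by ring
          rw [h2] at h
          exact h
        · intro j j'
          change HomD (a j' - a j) (((C s : MvPolynomial (Fin N) K) •
            (1 : Matrix J J (MvPolynomial (Fin N) K))) j j' + (Zm * A) j j')
          refine (homS N K (a j' - a j)).add_mem (hone J a j j') ?_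
          rw [Matrix.mul_apply]
          refine (homS N K (a j' - a j)).sum_mem fun i _ => ?_
          have h := stb_homD_mul (hZ1 i j) (hA i j')
          have h2 : b i - a j + (a j' - b i) = a j' - a j := by ring
          rw [h2] at h
          exact h
        · rw [Matrix.add_mul, Matrix.mul_add, Matrix.smul_mul, Matrix.mul_smul, Matrix.one_mul,
            Matrix.mul_one, Matrix.mul_assoc]
      refine ⟨⟨_, hmem⟩, ?_⟩
      rw [hψ]
      rfl
  -- the kernel
  have hker : Module.finrank K (LinearMap.ker p) = ∑ j, Module.finrank K (kerD a A (a j)) := by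
    rw [← Module.finrank_pi_fintype K]
    refine LinearEquiv.finrank_eq ?_
    refine LinearEquiv.ofBijective
      (LinearMap.pi fun j' => LinearMap.codRestrict (kerD a A (a j'))
        ((LinearMap.pi fun j => (LinearMap.proj j').comp ((LinearMap.proj j).comp
          (LinearMap.snd K (Matrix I I (MvPolynomial (Fin N) K))
            (Matrix J J (MvPolynomial (Fin N) K))))).comp
          ((stabS a b A A).subtype.comp (LinearMap.ker p).subtype)) ?_) ⟨?_, ?_⟩
    · rintro ⟨⟨⟨X, Y⟩, hXY⟩, hp⟩
      have hX : X = 0 := hp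
      obtain ⟨⟨_, hY⟩, hc⟩ := stb_mem_stabS.1 hXY
      change HomM a a Y at hY
      change X * A = A * Y at hc
      refine stb_mem_kerD.2 ⟨fun j => hY j j', ?_⟩
      funext i
      have h := congrFun (congrFun hc i) j'
      rw [hX, Matrix.zero_mul] at h
      exact h.symm
    · intro x y hxy
      obtain ⟨⟨⟨X, Y⟩, hXY⟩, hp⟩ := x
      obtain ⟨⟨⟨X', Y'⟩, hXY'⟩, hp'⟩ := y
      have hX : X = 0 := hp
      have hX' : X' = 0 := hp'
      have hY : Y = Y' := by
        ext1 j j'
        have h := congrArg (fun f => (f j').1 j) hxy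
        exact h
      subst hX hX' hY
      rfl
    · intro y
      have hmem : ((0 : Matrix I I (MvPolynomial (Fin N) K)),
          (fun j j' => (y j').1 j : Matrix J J (MvPolynomial (Fin N) K))) ∈ stabS a b A A := by
        refine stb_mem_stabS.2 ⟨⟨?_, ?_⟩, ?_⟩
        · intro i i'
          exact (homS N K (b i' - b i)).zero_mem
        · intro j j'
          exact (stb_mem_kerD.1 (y j').2).1 j
        · rw [Matrix.zero_mul]
          ext1 i j'
          have h := congrFun (stb_mem_kerD.1 (y j').2).2 i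
          exact h.symm
      refine ⟨⟨⟨_, hmem⟩, rfl⟩, ?_⟩
      rfl
  rw [← hrn, hrange, LinearMap.finrank_range_of_inj (stb_psi_inj a b A hu), hker,
    Module.finrank_prod, Module.finrank_self, Module.finrank_pi_fintype]

end Pool.Agent.Lib.MP_09338f_ag
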