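import Pool.Agent.Lib.MP_09338f_ag.KM.Stm3

/-!
# Project KM, piece t3g: the step `x_0 e_none` for `TP`, three rows, linear entries
-/

set_option autoImplicit false

open MvPolynomial Matrix

universe u

namespace Pool.Agent.Lib.MP_09338f_ag

private theorem t3g_cd1 {I J : Type} [Fintype I] [DecidableEq I] [Fintype J] [DecidableEq J]
    (β : ℤ) : CD1 (fun _ : J => β + 1) (fun _ : I => β) := by
  intro i
  have h1 : (Finset.univ.filter fun _ : J => β + 1 < β) = ∅ := by
    rw [Finset.filter_eq_empty_iff]
    intro j _ h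
    omega
  show (Finset.univ.filter fun _ : J => β + 1 < β).card ≤ _
  rw [h1, Finset.card_empty]
  exact Nat.zero_le _

private theorem t3g_hom {I J : Type} [DecidableEq I] {N : ℕ} {K : Type u}
    [Field K] (β : ℤ) (C : Matrix (Option I) J (MvPolynomial (Fin (N + 1)) K))
    (hC : HomM (fun _ : J => β + 1) (fun _ : Option I => β) C) :
    HomM (fun _ : Option J => β + 1) (fun _ : Option I => β)
      (addCol C (Pi.single none (X 0))) := by
  intro i j
  rcases j with _ | j
  · show HomD (β + 1 - β) ((Pi.single none (X 0) : Option I → MvPolynomial (Fin (N + 1)) K) i)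
    rcases i with _ | i
    · rw [Pi.single_eq_same]
      intro m hm
      rw [support_X, Finset.mem_singleton] at hm
      subst hm
      rw [Finsupp.degree_single]
      push_cast
      ring
    · rw [Pi.single_eq_of_ne (by simp)]
      intro m hm
      rw [support_zero] at hm
      exact absurd hm (Finset.notMem_empty m)
  · exact hC i j

theorem p_t3g (h_t3s : S_t3s.{u}) (h_g3 : S_g3.{u}) (h_spt : S_spt.{u}) (h_nz : S_nz.{u})
    (h_e1a : S_e1a.{u}) (h_e1s : S_e1s.{u}) (h_e1u : S_e1u.{u}) (h_r1a : S_r1a.{u})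
    (h_ama : S_ama.{u}) (h_gm : S_gm.{u}) (h_gs : S_gs.{u}) : S_t3g.{u} := by
  intro N I J _ _ _ _ β hI hJ hN hTP k K _ _ _ A hA
  have hI3 : Fintype.card (Option I) = 3 := by
    rw [Fintype.card_option, hI]
  let K₀ : Type u := GenField k (N + 1) (fun _ : J => β + 1) (fun _ : Option I => β)
  let C : Matrix (Option I) J (MvPolynomial (Fin (N + 1)) K₀) :=
    genMatrix k (N + 1) (fun _ : J => β + 1) (fun _ : Option I => β)
  have hC : Gen k (fun _ : J => β + 1) (fun _ : Option I => β) C :=
    h_gm k (Option I) J (N + 1) (fun _ : J => β + 1) (fun _ : Option I => β)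
  have hC' : Gen k (fun _ : J => β + 1) (fun _ : I => β) (C.submatrix some id) :=
    (h_gs k K₀ (Option I) J (fun _ : J => β + 1) (fun _ : Option I => β)).1 (N + 1) C hC I J
      some id (Option.some_injective I) Function.injective_id
  have hCr : Gen k (fun _ : J => β + 1) (fun _ : Option I => β)
      (C.map red : Matrix (Option I) J (MvPolynomial (Fin N) K₀)) :=
    (h_gs k K₀ (Option I) J (fun _ : J => β + 1) (fun _ : Option I => β)).2 N C hC
  have hE1' : Ex1 (C.submatrix some id) :=
    h_e1a (N + 1) I J _ _ (by omega) (by omega) (t3g_cd1 β) k K₀ _ hC'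
  have hE1r : Ex1 (C.map red : Matrix (Option I) J (MvPolynomial (Fin N) K₀)) :=
    h_e1a N (Option I) J _ _ (by omega) (by omega) (t3g_cd1 β) k K₀ _ hCr
  have hR1r : RR1 (C.map red : Matrix (Option I) J (MvPolynomial (Fin N) K₀)) :=
    h_r1a N (Option I) J _ _ (by omega) (by omega) (t3g_cd1 β) k K₀ _ hCr
  have hAM : AM (C.submatrix some id) :=
    h_ama (N + 1) I J _ _ (by omega) (by omega) (t3g_cd1 β) k K₀ _ hC'
  have hNZ : NZ0 C := h_nz K₀ N (Option I) J C hE1r
  have hTPr : TP (fun _ : J => β + 1) (fun _ : Option I => β)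
      (C.map red : Matrix (Option I) J (MvPolynomial (Fin N) K₀)) := hTP k K₀ _ hCr
  have hTP0 : TP (fun _ : Option J => β + 1) (fun _ : Option I => β)
      (addCol C (Pi.single none (X 0))) :=
    h_t3s K₀ N I J β C hC.1 hTPr hR1r hNZ (h_g3 k K₀ N I J β C hI hJ hN hC hAM)
  have hE1u : Ex1 (addCol C (Pi.single none 1)) := by
    have h1 := h_e1u _ I J (C.submatrix some id) (C none) hE1'
    have h2 : addRow (C.submatrix some id) (C none) = C := by
      funext i j
      rcases i with _ | i
      · rfl
      · rfl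
    rwa [h2] at h1
  have hE10 : Ex1 (addCol C (Pi.single none (X 0))) := by
    have h1 := h_e1s K₀ N (Option I) J C (Pi.single none 1) hE1u hE1r
    have h2 : (X 0 : MvPolynomial (Fin (N + 1)) K₀) •
        (Pi.single none 1 : Option I → MvPolynomial (Fin (N + 1)) K₀) = Pi.single none (X 0) := by
      funext i
      rcases i with _ | i
      · rw [Pi.smul_apply, Pi.single_eq_same, Pi.single_eq_same, smul_eq_mul, mul_one]
      · rw [Pi.smul_apply, Pi.single_eq_of_ne (by simp), Pi.single_eq_of_ne (by simp), smul_zero]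
    rwa [h2] at h1
  exact h_spt k K₀ K (Option I) (Option J) (N + 1) _ _ _ A (t3g_hom β C hC.1) hE10 hTP0 hA

end Pool.Agent.Lib.MP_09338f_ag
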