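import Pool.Agent.Lib.MP_09338f_ag.KM.Stm1

/-!
# Project KM, piece [t3s]: the last step for three rows, all entries linear
-/

set_option autoImplicit false

open MvPolynomial Matrix

universe u

namespace Pool.Agent.Lib.MP_09338f_ag

section homd

variable {N : ℕ} {K : Type u} [Field K]

theorem t3s_zero (d : ℤ) : HomD d (0 : MvPolynomial (Fin N) K) := by
  intro m hm
  simp at hm

theorem t3s_add {d : ℤ} {p q : MvPolynomial (Fin N) K} (hp : HomD d p) (hq : HomD d q) :
    HomD d (p + q) := by
  classical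
  intro m hm
  rcases Finset.mem_union.1 (MvPolynomial.support_add hm) with h | h
  · exact hp m h
  · exact hq m h

theorem t3s_neg {d : ℤ} {p : MvPolynomial (Fin N) K} (hp : HomD d p) : HomD d (-p) := by
  intro m hm
  rw [MvPolynomial.support_neg] at hm
  exact hp m hm

theorem t3s_sub {d : ℤ} {p q : MvPolynomial (Fin N) K} (hp : HomD d p) (hq : HomD d q) :
    HomD d (p - q) := by
  rw [sub_eq_add_neg]
  exact t3s_add hp (t3s_neg hq)

theorem t3s_mul {d e : ℤ} {p q : MvPolynomial (Fin N) K} (hp : HomD d p) (hq : HomD e q) :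
    HomD (d + e) (p * q) := by
  classical
  intro m hm
  have h := MvPolynomial.support_mul p q hm
  rw [Finset.mem_add] at h
  obtain ⟨a, ha, b, hb, rfl⟩ := h
  rw [map_add, Nat.cast_add, hp a ha, hq b hb]

theorem t3s_sum {ι : Type} (s : Finset ι) {d : ℤ} {f : ι → MvPolynomial (Fin N) K}
    (h : ∀ i ∈ s, HomD d (f i)) : HomD d (∑ i ∈ s, f i) := by
  classical
  induction s using Finset.induction_on with
  | empty => rw [Finset.sum_empty]; exact t3s_zero d
  | insert a s ha ih =>
    rw [Finset.sum_insert ha]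
    exact t3s_add (h a (Finset.mem_insert_self _ _))
      (ih fun i hi => h i (Finset.mem_insert_of_mem hi))

theorem t3s_X (i : Fin N) : HomD 1 (X i : MvPolynomial (Fin N) K) := by
  intro m hm
  rw [MvPolynomial.support_X, Finset.mem_singleton] at hm
  rw [hm, Finsupp.degree_single]
  rfl

theorem t3s_const {p : MvPolynomial (Fin N) K} (hp : HomD 0 p) :
    p = MvPolynomial.C (p.coeff 0) := by
  classical
  ext m
  rw [MvPolynomial.coeff_C]
  split_ifs with h
  · rw [← h]
  · by_contra hne
    have hm : m ∈ p.support := by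
      rw [MvPolynomial.mem_support_iff]; exact hne
    have h1 := hp m hm
    have h2 : m.degree = 0 := by exact_mod_cast h1
    rw [Finsupp.degree_eq_zero_iff] at h2
    exact h h2.symm

theorem t3s_mulM {I J L : Type} [Fintype J] {d e : ℤ} {P : Matrix I J (MvPolynomial (Fin N) K)}
    {Q : Matrix J L (MvPolynomial (Fin N) K)} (hP : ∀ i j, HomD d (P i j))
    (hQ : ∀ i j, HomD e (Q i j)) (i : I) (l : L) : HomD (d + e) ((P * Q) i l) := by
  rw [Matrix.mul_apply]
  exact t3s_sum _ fun j _ => t3s_mul (hP i j) (hQ j l)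

end homd

theorem t3s_tp (h_mim : S_mim.{u}) {R : Type u} [CommRing R] {I J : Type} [Fintype I]
    [DecidableEq I] [Fintype J] [DecidableEq J] {A B : Matrix I J R} (h : Tp A B)
    (X : Matrix I I R) (Y : Matrix J J R) : Tp A (B - (X * A + A * Y)) := by
  obtain ⟨m1, m2, _, m4⟩ := h_mim R I J A
  intro e i
  have h1 := m4 (B - (X * A + A * Y)) (X * A + A * Y) e
  rw [sub_add_cancel] at h1
  have h2 : dd A (B - (X * A + A * Y)) e = dd A B e - dd A (X * A + A * Y) e := by
    rw [h1]; ring
  have h3 : Pi.single i (dd A (X * A + A * Y) e) =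
      dd A (X * A + A * Y) e • (Pi.single i (1 : R) : I → R) := by
    ext j
    rw [Pi.smul_apply, smul_eq_mul]
    by_cases hj : j = i
    · subst hj; simp
    · simp [hj]
  rw [h2, Pi.single_sub]
  refine (Im A).sub_mem (h e i) ?_
  rw [h3]
  exact m1 _ (m2 X Y e) _

theorem t3s_tp' (h_mim : S_mim.{u}) {R : Type u} [CommRing R] {I J : Type} [Fintype I]
    [DecidableEq I] [Fintype J] [DecidableEq J] {A B : Matrix I J R} (h : Tp A B)
    (Y : Matrix J J R) : Tp A (B - A * Y) := by
  have h1 := t3s_tp h_mim h (0 : Matrix I I R) Y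
  rwa [Matrix.zero_mul, zero_add] at h1

theorem p_t3s (h_tsa : S_tsa.{u}) (h_tsc : S_tsc.{u}) (h_tua : S_tua.{u}) (h_mim : S_mim.{u})
    (h_redk : S_redk.{u}) (h_hc : S_hc.{u}) : S_t3s.{u} := by
  intro K _ N I J _ _ _ _ β C hC hTP hRR hNZ hG B hB hT
  obtain ⟨r1, r2, r3, r4, r5, r6⟩ := h_redk K N
  have ed : (β + 1) - β = 1 := by ring
  have ed0 : β - β = 0 := by ring
  have ed1 : (β + 1) - (β + 1) = 0 := by ring
  obtain ⟨w, hw⟩ : ∃ w : Option I → MvPolynomial (Fin (N + 1)) K, w = Pi.single none 1 := ⟨_, rfl⟩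
  have hwn : w none = 1 := by rw [hw]; simp
  have hws : ∀ i, w (some i) = 0 := by intro i; rw [hw]; simp
  have hsing : (Pi.single none (X 0) : Option I → MvPolynomial (Fin (N + 1)) K) =
      (X 0 : MvPolynomial (Fin (N + 1)) K) • w := by
    ext1 i
    rw [Pi.smul_apply, smul_eq_mul]
    cases i with
    | none => rw [hwn]; simp
    | some i => rw [hws]; simp
  rw [hsing] at hT ⊢
  obtain ⟨A, hA⟩ : ∃ A, A = addCol C ((X 0 : MvPolynomial (Fin (N + 1)) K) • w) := ⟨_, rfl⟩
  have hAs : ∀ i j, A i (some j) = C i j := by intro i j; rw [hA]; rfl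
  have hAn : ∀ i, A i none = X 0 * w i := by intro i; rw [hA]; rfl
  rw [← hA] at hT ⊢
  have hA1 : ∀ i j, HomD 1 (A i j) := by
    intro i j
    cases j with
    | none =>
      rw [hAn]
      cases i with
      | none => rw [hwn, mul_one]; exact t3s_X 0
      | some i => rw [hws, mul_zero]; exact t3s_zero 1
    | some j =>
      rw [hAs]
      have := hC i j
      rwa [ed] at this
  have hAhom : HomM (fun _ => β + 1) (fun _ => β) A := by
    intro i j
    rw [ed]
    exact hA1 i j
  suffices h : ∃ (X : Matrix (Option I) (Option I) (MvPolynomial (Fin (N + 1)) K))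
      (Y : Matrix (Option J) (Option J) (MvPolynomial (Fin (N + 1)) K)), B = X * A + A * Y by
    obtain ⟨X, Y, h⟩ := h
    exact (h_hc K (N + 1) (Option I) (Option J) _ _ A hAhom).2.1 B X Y hB h
  have hB1 : ∀ i j, HomD 1 (B i j) := by
    intro i j
    have := hB i j
    rwa [ed] at this
  -- step 1
  obtain ⟨hT1, _⟩ := h_tsa K N (Option I) J C w B (by rw [← hA]; exact hT)
  obtain ⟨X₁, Y₁, hX₁, hY₁, e₁⟩ := hTP ((B.submatrix id some).map red)
    (fun i j => r4 _ _ (hB i (some j))) hT1
  obtain ⟨X₁', hX₁'⟩ : ∃ X₁' : Matrix (Option I) (Option I) (MvPolynomial (Fin (N + 1)) K),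
    X₁' = fun i j => rename Fin.succ (X₁ i j) := ⟨_, rfl⟩
  obtain ⟨Y₁', hY₁'⟩ : ∃ Y₁' : Matrix (Option J) (Option J) (MvPolynomial (Fin (N + 1)) K),
    Y₁' = fun a b => a.elim 0 fun j => b.elim 0 fun j' => rename Fin.succ (Y₁ j j') := ⟨_, rfl⟩
  obtain ⟨B₁, hB₁⟩ : ∃ B₁, B₁ = B - (X₁' * A + A * Y₁') := ⟨_, rfl⟩
  have hTB₁ : Tp A B₁ := by rw [hB₁]; exact t3s_tp h_mim hT _ _
  have hX0 : ∀ i j, HomD 0 (X₁' i j) := by
    intro i j
    rw [hX₁']
    have := r5 _ _ (hX₁ i j)
    rwa [ed0] at this
  have hY0 : ∀ i j, HomD 0 (Y₁' i j) := by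
    intro i j
    rw [hY₁']
    cases i with
    | none => exact t3s_zero 0
    | some i =>
      cases j with
      | none => exact t3s_zero 0
      | some j =>
        have := r5 _ _ (hY₁ i j)
        rwa [ed1] at this
  have hB₁1 : ∀ i j, HomD 1 (B₁ i j) := by
    intro i j
    rw [hB₁, Matrix.sub_apply, Matrix.add_apply]
    refine t3s_sub (hB1 i j) (t3s_add ?_ ?_)
    · have := t3s_mulM hX0 hA1 i j
      rwa [zero_add] at this
    · have := t3s_mulM hA1 hY0 i j
      rwa [add_zero] at this
  have hred1 : ∀ i j, red (B₁ i (some j)) = (0 : MvPolynomial (Fin N) K) := by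
    intro i j
    have h1 := congr_fun (congr_fun e₁ i) j
    have h2 : red (B i (some j)) = (X₁ * C.map red + C.map red * Y₁) i j := h1
    have h3 : red ((X₁' * A) i (some j)) = (X₁ * C.map red) i j := by
      rw [Matrix.mul_apply, Matrix.mul_apply, map_sum]
      apply Finset.sum_congr rfl
      intro l _
      rw [map_mul, hAs, hX₁', r1]
      rfl
    have h4 : red ((A * Y₁') i (some j)) = (C.map red * Y₁) i j := by
      rw [Matrix.mul_apply, Matrix.mul_apply, Fintype.sum_option, map_add, map_sum]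
      have h5 : A i none * Y₁' none (some j) = 0 := by
        rw [hY₁']
        exact mul_zero _
      rw [h5, map_zero, zero_add]
      apply Finset.sum_congr rfl
      intro l _
      rw [map_mul, hAs, hY₁']
      show red (C i l) * red (rename Fin.succ (Y₁ l j)) = _
      rw [r1]
      rfl
    rw [hB₁, Matrix.sub_apply, Matrix.add_apply, map_sub, map_add, h2, h3, h4, Matrix.add_apply]
    ring
  have hdiv : ∀ p : MvPolynomial (Fin (N + 1)) K, HomD 1 p → red p = (0 : MvPolynomial (Fin N) K) →
      ∃ c : K, p = X 0 * MvPolynomial.C c := by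
    intro p hp hp0
    obtain ⟨q, hq⟩ := r2 p hp0
    have h1 : HomD 0 q := by
      apply r6 0 q
      rw [← hq, zero_add]
      exact hp
    exact ⟨q.coeff 0, by rw [hq, ← t3s_const h1]⟩
  choose γ hγ using fun i j => hdiv _ (hB₁1 i (some j)) (hred1 i j)
  -- step 2
  obtain ⟨_, hT3⟩ := h_tsa K N (Option I) J C w B₁ (by rw [← hA]; exact hTB₁)
  obtain ⟨v, hv⟩ := hRR _ hT3
  have hCr : HomM (fun _ => β + 1) (fun _ => β)
      (C.map red : Matrix (Option I) J (MvPolynomial (Fin N) K)) := fun i j => r4 _ _ (hC i j)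
  obtain ⟨v', hv', hv''⟩ := (h_hc K N (Option I) J _ _ (C.map red) hCr).1 (β + 1)
    (fun i => red (B₁ i none)) v (fun i => by
      rw [ed]; exact r4 _ _ (hB₁1 i none)) hv
  obtain ⟨Y₂, hY₂⟩ : ∃ Y₂ : Matrix (Option J) (Option J) (MvPolynomial (Fin (N + 1)) K),
    Y₂ = fun a b => a.elim 0 fun j => b.elim (rename Fin.succ (v' j)) fun _ => 0 := ⟨_, rfl⟩
  obtain ⟨B₂, hB₂⟩ : ∃ B₂, B₂ = B₁ - A * Y₂ := ⟨_, rfl⟩
  have hTB₂ : Tp A B₂ := by rw [hB₂]; exact t3s_tp' h_mim hTB₁ _
  have hY20 : ∀ i j, HomD 0 (Y₂ i j) := by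
    intro i j
    rw [hY₂]
    cases i with
    | none => exact t3s_zero 0
    | some i =>
      cases j with
      | none =>
        have := r5 _ _ (hv' i)
        rwa [ed1] at this
      | some j => exact t3s_zero 0
  have hB₂1 : ∀ i j, HomD 1 (B₂ i j) := by
    intro i j
    rw [hB₂, Matrix.sub_apply]
    refine t3s_sub (hB₁1 i j) ?_
    have := t3s_mulM hA1 hY20 i j
    rwa [add_zero] at this
  have hB₂s : ∀ i j, B₂ i (some j) = X 0 * MvPolynomial.C (γ i j) := by
    intro i j
    rw [hB₂, Matrix.sub_apply, ← hγ i j, Matrix.mul_apply,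
      Fintype.sum_option]
    have h5 : A i none * Y₂ none (some j) = 0 := by
      rw [hY₂]
      exact mul_zero _
    have h6 : ∑ l, A i (some l) * Y₂ (some l) (some j) = 0 := by
      apply Finset.sum_eq_zero
      intro l _
      rw [hY₂]
      exact mul_zero _
    rw [h5, h6, add_zero, sub_zero]
  have hred2 : ∀ i, red (B₂ i none) = (0 : MvPolynomial (Fin N) K) := by
    intro i
    have h1 : (C.map red : Matrix (Option I) J (MvPolynomial (Fin N) K)).mulVec v' i =
      red (B₁ i none) := congr_fun hv'' i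
    have h4 : red ((A * Y₂) i none) = (C.map red).mulVec v' i := by
      rw [Matrix.mul_apply, Fintype.sum_option, map_add, map_sum]
      have h5 : A i none * Y₂ none none = 0 := by
        rw [hY₂]
        exact mul_zero _
      rw [h5, map_zero, zero_add]
      apply Finset.sum_congr rfl
      intro l _
      rw [map_mul, hAs, hY₂]
      show red (C i l) * red (rename Fin.succ (v' l)) = _
      rw [r1]
      rfl
    rw [hB₂, Matrix.sub_apply, map_sub, h4, h1, sub_self]
  choose δ hδ using fun i => hdiv _ (hB₂1 i none) (hred2 i)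
  -- step 3
  have hB₂c : B₂ = addCol (Matrix.of fun i j => X 0 * MvPolynomial.C (γ i j))
      ((X 0 : MvPolynomial (Fin (N + 1)) K) • fun i => MvPolynomial.C (δ i)) := by
    ext1 i j
    cases j with
    | none => exact hδ i
    | some j => exact hB₂s i j
  have h3 := h_tsc K N (Option I) J C w (Matrix.of fun i j => X 0 * MvPolynomial.C (γ i j))
    (fun i => MvPolynomial.C (δ i)) hNZ (by rw [← hA, ← hB₂c]; exact hTB₂)
  -- step 4
  rw [hw] at h3
  have h4 := h_tua _ I J C _ h3
  obtain ⟨g1, g2⟩ := hG (fun i j => γ (some i) j) (fun i => δ (some i)) h4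
  -- step 5
  obtain ⟨Y₃, hY₃⟩ : ∃ Y₃ : Matrix (Option J) (Option J) (MvPolynomial (Fin (N + 1)) K),
    Y₃ = fun a b => a.elim (b.elim (MvPolynomial.C (δ none)) fun j => MvPolynomial.C (γ none j))
      fun _ => 0 := ⟨_, rfl⟩
  have hfin : B₂ = A * Y₃ := by
    ext1 i j
    rw [Matrix.mul_apply, Fintype.sum_option]
    have h6 : ∑ l, A i (some l) * Y₃ (some l) j = 0 := by
      apply Finset.sum_eq_zero
      intro l _
      rw [hY₃]
      exact mul_zero _
    rw [h6, add_zero, hAn]
    cases i with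
    | none =>
      rw [hwn, mul_one, hY₃]
      cases j with
      | none => exact hδ none
      | some j => exact hB₂s none j
    | some i =>
      rw [hws, mul_zero, zero_mul]
      cases j with
      | none =>
        rw [hδ (some i)]
        have := congr_fun g2 i
        simp only [Pi.zero_apply] at this
        rw [this, map_zero, mul_zero]
      | some j =>
        rw [hB₂s (some i) j]
        have := congr_fun (congr_fun g1 i) j
        simp only [Matrix.zero_apply] at this
        rw [this, map_zero, mul_zero]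
  refine ⟨X₁', Y₁' + Y₂ + Y₃, ?_⟩
  rw [Matrix.mul_add, Matrix.mul_add, ← hfin, hB₂, hB₁]
  abel

end Pool.Agent.Lib.MP_09338f_ag
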