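import Pool.Agent.Lib.MP_09338f_ag.KM.Stm3

/-!
# Project KM, piece [tp2]: `TP` for generic matrices, `c = 2`
-/

set_option autoImplicit false

open MvPolynomial Matrix

universe u

namespace Pool.Agent.Lib.MP_09338f_ag

theorem p_tp2 (h_tpb : S_tpb.{u}) (h_hba : S_hba.{u}) (h_ama : S_ama.{u}) : S_tp2.{u} := by
  intro N I J _ _ _ _ a b hc hN hcd k K _ _ _ A hA
  refine h_tpb K N I J a b A hA.1 hc (h_hba N I J a b hc (by omega) hcd k K A hA) ?_
  exact h_ama N I J a b (by omega) (by omega) hcd k K A hA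

end Pool.Agent.Lib.MP_09338f_ag
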