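import Pool.Agent.Lib.MP_09338f_ag.KM.Stm3

/-!
# Project KM, piece tp3: `TP` for three rows, linear entries, `N = c + 1`
-/

set_option autoImplicit false

open MvPolynomial Matrix

universe u

namespace Pool.Agent.Lib.MP_09338f_ag

/-- [tp3] `TP` for three rows, linear entries, `N = c + 1`. -/
theorem p_tp3 (h_t3g : S_t3g.{u}) (h_tp2 : S_tp2.{u}) (h_rt : S_rt.{u}) : S_tp3.{u} := by
  have key : ∀ (n : ℕ) (I J : Type) [Fintype I] [DecidableEq I] [Fintype J] [DecidableEq J] (β : ℤ),
      Fintype.card I = 3 → Fintype.card J = n + 4 →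
      GTP.{u} (n + 3) (fun _ : J => β + 1) (fun _ : I => β) := by
    intro n
    induction n with
    | zero =>
      intro I J _ _ _ _ β hI hJ
      refine h_tp2 3 I J _ _ (by omega) le_rfl ?_
      intro i
      have h0 : (Finset.univ.filter fun _ : J => β + 1 < β) = ∅ := by
        apply Finset.filter_false_of_mem
        intro j _
        omega
      rw [h0, Finset.card_empty]
      exact Nat.zero_le _
    | succ n ih =>
      intro I J _ _ _ _ β hI hJ
      have hI0 : Nonempty I := by
        rw [← Fintype.card_pos_iff]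
        omega
      have hJ0 : Nonempty J := by
        rw [← Fintype.card_pos_iff]
        omega
      obtain ⟨i₀⟩ := hI0
      obtain ⟨j₀⟩ := hJ0
      have hcI : Fintype.card {i : I // i ≠ i₀} = 2 := by
        have h := Fintype.card_congr (Equiv.optionSubtypeNe i₀)
        rw [Fintype.card_option] at h
        omega
      have hcJ : Fintype.card {j : J // j ≠ j₀} = n + 4 := by
        have h := Fintype.card_congr (Equiv.optionSubtypeNe j₀)
        rw [Fintype.card_option] at h
        omega
      refine h_rt (n + 1 + 3) I J (Option {i : I // i ≠ i₀}) (Option {j : J // j ≠ j₀}) _ _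
        (Equiv.optionSubtypeNe i₀) (Equiv.optionSubtypeNe j₀) ?_
      exact h_t3g (n + 3) {i : I // i ≠ i₀} {j : J // j ≠ j₀} β hcI (by omega) (by omega)
        (ih (Option {i : I // i ≠ i₀}) {j : J // j ≠ j₀} β
          (by rw [Fintype.card_option, hcI]) hcJ)
  intro N I J _ _ _ _ β hI hJ hN
  obtain ⟨n, rfl⟩ : ∃ n, N = n + 3 := ⟨N - 3, by omega⟩
  exact key n I J β hI (by omega)

end Pool.Agent.Lib.MP_09338f_ag
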