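import Pool.Agent.Lib.MP_09338f_ag.KM.Stm3

/-!
# Project KM, piece tpa: `TP` for generic matrices, `N ≥ c + 2`
-/

set_option autoImplicit false

open MvPolynomial Matrix

universe u

namespace Pool.Agent.Lib.MP_09338f_ag

section aux

variable {I J I' J' : Type} [Fintype I] [DecidableEq I] [Fintype J] [DecidableEq J]
  [Fintype I'] [DecidableEq I'] [Fintype J'] [DecidableEq J']

private theorem tpa_card {X Y : Type} [Fintype X] [Fintype Y] (v : Y ≃ X) (p : X → Prop)
    [DecidablePred p] :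
    (Finset.univ.filter fun j => p (v j)).card = (Finset.univ.filter p).card :=
  Finset.card_equiv v (by simp)

private theorem tpa_CD2 (s : I' ≃ I) (v : J' ≃ J) {a : J → ℤ} {b : I → ℤ} (h : CD2 a b) :
    CD2 (a ∘ v) (b ∘ s) := by
  intro i
  have h1 := tpa_card v (fun j => a j < b (s i))
  have h2 := tpa_card s (fun i' => b i' < b (s i))
  have h3 := h (s i)
  rw [← h1, ← h2] at h3
  exact h3

private theorem tpa_CD3 (s : I' ≃ I) (v : J' ≃ J) {a : J → ℤ} {b : I → ℤ} (h : CD3 a b) :
    CD3 (a ∘ v) (b ∘ s) := by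
  intro i
  have h1 := tpa_card v (fun j => a j ≤ b (s i))
  have h2 := tpa_card s (fun i' => b i' < b (s i))
  have h3 := h (s i)
  rw [← h1, ← h2] at h3
  exact h3

omit [Fintype J] in
private theorem tpa_oext (j₀ : J) (a : J → ℤ) :
    a ∘ (Equiv.optionSubtypeNe j₀) = oext (fun j : {j // j ≠ j₀} => a j) (a j₀) := by
  funext j
  cases j <;> rfl

/-- the measure of the induction -/
private def tpa_mes (L : ℤ) (a : J → ℤ) : ℕ := Fintype.card J + ∑ j, (a j - L).toNat

omit [DecidableEq J] [DecidableEq J'] in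
private theorem tpa_mes_equiv (L : ℤ) (v : J' ≃ J) (a : J → ℤ) :
    tpa_mes L (a ∘ v) = tpa_mes L a := by
  rw [tpa_mes, tpa_mes, Fintype.card_congr v, ← Equiv.sum_comp v]
  rfl

omit [DecidableEq J] in
private theorem tpa_mes_oext (L : ℤ) (a : J → ℤ) (α : ℤ) :
    tpa_mes L (oext a α) = tpa_mes L a + 1 + (α - L).toNat := by
  rw [tpa_mes, tpa_mes, Fintype.card_option, Fintype.sum_option]
  show Fintype.card J + 1 + ((α - L).toNat + ∑ j, (a j - L).toNat) = _
  omega

private theorem tpa_CD1 {a : J → ℤ} {b : I → ℤ} {γ : ℤ} (h : CD1 a b) (hγ : ∀ i, b i ≤ γ) :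
    CD1 (oext a γ) b := by
  intro i
  refine le_trans (le_of_eq ?_) (h i)
  rw [Finset.card_filter, Finset.card_filter, Fintype.sum_option]
  have h1 : ¬ oext a γ none < b i := not_lt.mpr (hγ i)
  rw [if_neg h1, zero_add]
  rfl

private theorem tpa_cardNe (i₀ : I) : Fintype.card {i // i ≠ i₀} + 1 = Fintype.card I := by
  rw [← Fintype.card_option]
  exact Fintype.card_congr (Equiv.optionSubtypeNe i₀)

end aux

private theorem tpa_main (h_tst : S_tst.{u}) (h_tun : S_tun.{u}) (h_tpo : S_tpo.{u})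
    (h_tp2 : S_tp2.{u}) (h_hpa : S_hpa.{u}) (h_hpb : S_hpb.{u}) (h_cd : S_cd) (h_rt : S_rt.{u})
    (L : ℤ) : ∀ (n N : ℕ) (I J : Type) [Fintype I] [DecidableEq I] [Fintype J] [DecidableEq J]
      (a : J → ℤ) (b : I → ℤ), (∀ i, L ≤ b i) → tpa_mes L a ≤ n →
      Fintype.card I + 1 ≤ Fintype.card J → Fintype.card J + 3 ≤ Fintype.card I + N →
      CD2 a b → GTP.{u} N a b := by
  intro n
  induction n with
  | zero =>
    intro N I J _ _ _ _ a b _ hn hc _ _
    rw [tpa_mes] at hn
    omega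
  | succ n ih =>
    intro N I J _ _ _ _ a b hL hn hc hN hCD
    by_cases hI : Fintype.card I ≤ 1
    · intro k K _ _ _ A hA
      exact h_tpo K N I J a b A hA.1 hI
    by_cases hc2 : Fintype.card J = Fintype.card I + 1
    · exact h_tp2 N I J a b hc2 (by omega) ((h_cd I J a b).2.1 hCD)
    by_cases hU : ∃ i₀ j₀, a j₀ = b i₀
    · -- a unit entry
      obtain ⟨i₀, j₀, h⟩ := hU
      refine h_rt N I J (Option {i // i ≠ i₀}) (Option {j // j ≠ j₀}) a b
        (Equiv.optionSubtypeNe i₀) (Equiv.optionSubtypeNe j₀) ?_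
      have hCD' := tpa_CD2 (Equiv.optionSubtypeNe i₀) (Equiv.optionSubtypeNe j₀) hCD
      have hm := tpa_mes_equiv L (Equiv.optionSubtypeNe j₀) a
      rw [tpa_oext j₀ a, tpa_mes_oext] at hm
      rw [tpa_oext i₀ b, tpa_oext j₀ a, h] at hCD' ⊢
      have hcI := tpa_cardNe i₀
      have hcJ := tpa_cardNe j₀
      have h5 := (h_cd {i // i ≠ i₀} {j // j ≠ j₀} (fun j : {j // j ≠ j₀} => a j) (fun i : {i // i ≠ i₀} => b i)).2.2.2.2.2 _ hCD'
      refine h_tun N {i // i ≠ i₀} {j // j ≠ j₀} (fun j : {j // j ≠ j₀} => a j) (fun i : {i // i ≠ i₀} => b i) (b i₀)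
        (by omega) (by omega) ((h_cd _ _ _ _).2.1 h5) ?_
      exact ih N _ _ _ _ (fun i => hL i) (by omega) (by omega) (by omega) h5
    · push Not at hU
      have hCD3 : CD3 a b := (h_cd I J a b).2.2.1 hU hCD
      haveI : Nonempty I := Fintype.card_pos_iff.mp (by omega)
      haveI : Nonempty J := Fintype.card_pos_iff.mp (by omega)
      obtain ⟨i₀, hi₀⟩ := Finite.exists_max b
      obtain ⟨j₀, hj₀⟩ := Finite.exists_max a
      refine h_rt N I J (Option {i // i ≠ i₀}) (Option {j // j ≠ j₀}) a b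
        (Equiv.optionSubtypeNe i₀) (Equiv.optionSubtypeNe j₀) ?_
      have hCD' := tpa_CD3 (Equiv.optionSubtypeNe i₀) (Equiv.optionSubtypeNe j₀) hCD3
      have hm := tpa_mes_equiv L (Equiv.optionSubtypeNe j₀) a
      rw [tpa_oext j₀ a, tpa_mes_oext] at hm
      rw [tpa_oext i₀ b, tpa_oext j₀ a] at hCD' ⊢
      have hcI := tpa_cardNe i₀
      have hcJ := tpa_cardNe j₀
      obtain ⟨a', ha'⟩ : ∃ a' : {j // j ≠ j₀} → ℤ, a' = fun j : {j // j ≠ j₀} => a j := ⟨_, rfl⟩
      obtain ⟨b', hb'⟩ : ∃ b' : {i // i ≠ i₀} → ℤ, b' = fun i : {i // i ≠ i₀} => b i := ⟨_, rfl⟩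
      obtain ⟨α, hα⟩ : ∃ α, α = a j₀ := ⟨_, rfl⟩
      obtain ⟨β, hβ⟩ : ∃ β, β = b i₀ := ⟨_, rfl⟩
      rw [← ha', ← hb', ← hα, ← hβ] at hCD'
      rw [← ha', ← hb', ← hα, ← hβ]
      rw [← ha', ← hα] at hm
      have hb'L : ∀ i, L ≤ b' i := fun i => by rw [hb']; exact hL i
      have hβL : L ≤ β := by rw [hβ]; exact hL i₀
      have hb'β : ∀ i, b' i ≤ β := fun i => by rw [hb', hβ]; exact hi₀ i
      have ha'α : ∀ j, a' j ≤ α := fun j => by rw [ha', hα]; exact hj₀ j
      have hbL : ∀ i, L ≤ oext b' β i := fun i => by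
        cases i with
        | none => exact hβL
        | some i => exact hb'L i
      have hbβ : ∀ i, oext b' β i ≤ β := fun i => by
        cases i with
        | none => exact le_rfl
        | some i => exact hb'β i
      obtain ⟨hlt, hd1, hd2, hd3⟩ := (h_cd {i // i ≠ i₀} {j // j ≠ j₀} a' b').2.2.2.2.1 α β hb'β
        ha'α (by omega) hCD'
      have hCard : Fintype.card (Option {i // i ≠ i₀}) = Fintype.card I := by
        rw [Fintype.card_option]
        exact hcI
      obtain ⟨N', rfl⟩ : ∃ N', N = N' + 1 := ⟨N - 1, by omega⟩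
      have hCD2b : CD2 a' (oext b' β) := (h_cd _ _ _ _).1 hd2
      have hCD1b : CD1 a' (oext b' β) := (h_cd _ _ _ _).2.1 hCD2b
      have hαe : α - 1 + 1 = α := by ring
      have hkey := h_tst N' (Option {i // i ≠ i₀}) {j // j ≠ j₀} a' (oext b' β) (α - 1)
        (by omega) (by omega) hCD1b (tpa_CD1 hCD1b fun i => (hbβ i).trans (by omega)) ?_ ?_ ?_
      · rwa [hαe] at hkey
      · exact ih N' _ _ _ _ hbL (by omega) (by omega) (by omega) hCD2b
      · rcases lt_or_eq_of_le (show β ≤ α - 1 by omega) with h1 | h1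
        · refine ih (N' + 1) _ _ _ _ hbL ?_ ?_ ?_ ((h_cd _ _ _ _).1 (hd3 h1))
          · rw [tpa_mes_oext]
            omega
          · rw [hCard, Fintype.card_option]
            omega
          · rw [hCard, Fintype.card_option]
            omega
        · rw [← h1]
          have hCD2c : CD2 a' b' := (h_cd _ _ _ _).1 hd1
          refine h_tun (N' + 1) _ _ a' b' β (by omega) (by omega) ((h_cd _ _ _ _).2.1 hCD2c) ?_
          exact ih (N' + 1) _ _ _ _ hb'L (by omega) (by omega) (by omega) hCD2c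
      · by_cases h1 : ∃ i, oext b' β i < α - 1
        · refine h_hpa N' (Option {i // i ≠ i₀}) {j // j ≠ j₀} Unit a' (fun _ => α - 1)
            (oext b' β) (by simp) (by omega) ?_ hd2 (fun _ i => (hbβ i).trans (by omega))
            (fun _ _ => h1)
          rw [Fintype.card_unit]
          omega
        · push Not at h1
          have h2 : α - 1 = β := le_antisymm (h1 none) (by omega)
          have h3 : oext b' β = fun _ => β := by
            funext i
            exact le_antisymm (hbβ i) (h2.ge.trans (h1 i))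
          have h4 : ∀ j, β < a' j := by
            intro j
            by_contra hj
            have h5 := hd2 none
            have h6 : (Finset.univ.filter fun i' => oext b' β i' < oext b' β none).card = 0 := by
              rw [Finset.card_eq_zero, Finset.filter_eq_empty_iff]
              intro i' _
              exact not_lt.mpr (h2.ge.trans (h1 i'))
            rw [h6] at h5
            have h7 : (Finset.univ.filter fun j => a' j ≤ oext b' β none).card = 0 := by omega
            rw [Finset.card_eq_zero, Finset.filter_eq_empty_iff] at h7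
            exact h7 (Finset.mem_univ j) (not_lt.mp hj)
          rw [h2, h3]
          exact h_hpb N' (Option {i // i ≠ i₀}) {j // j ≠ j₀} a' β (by omega) (by omega) h4

theorem p_tpa (h_tst : S_tst.{u}) (h_tun : S_tun.{u}) (h_tpo : S_tpo.{u}) (h_tp2 : S_tp2.{u})
    (h_hpa : S_hpa.{u}) (h_hpb : S_hpb.{u}) (h_cd : S_cd) (h_rt : S_rt.{u}) (h_rh : S_rh.{u}) :
    S_tpa.{u} := by
  intro N I J _ _ _ _ a b hc hN hCD
  obtain ⟨L, hL⟩ : ∃ L : ℤ, ∀ i, L ≤ b i := by
    rcases isEmpty_or_nonempty I with h | h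
    · exact ⟨0, fun i => h.elim i⟩
    · obtain ⟨i₀, hi₀⟩ := Finite.exists_min b
      exact ⟨b i₀, hi₀⟩
  exact tpa_main h_tst h_tun h_tpo h_tp2 h_hpa h_hpb h_cd h_rt L (tpa_mes L a) N I J a b hL le_rfl
    hc hN hCD

end Pool.Agent.Lib.MP_09338f_ag
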