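import Pool.Agent.Lib.MP_09338f_ag.KM.Stm1

set_option autoImplicit false

/-!
# [tpb] The tangent space for codimension `2` (one column more than rows; Hilbert–Burch)
-/

open MvPolynomial Matrix

universe u

namespace Pool.Agent.Lib.MP_09338f_ag

section tpb

set_option linter.unusedSectionVars false

variable {I J : Type} [Fintype I] [DecidableEq I] [Fintype J] [DecidableEq J]

private def tpb_D {R : Type u} [CommRing R] (A : Matrix I J R) (u : J → R) (e : Option I → J) :
    Matrix (Option I) (Option I) R :=
  Matrix.of fun (r s : Option I) => r.elim (u (e s)) fun i => A i (e s)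

private theorem tpb_block {R : Type u} [CommRing R] (M : Matrix (Option I) (Option I) R)
    (h : ∀ s, M none s = if s = none then 1 else 0) : M.det = (M.submatrix some some).det := by
  have h1 : M.submatrix (Equiv.optionEquivSumPUnit.{0, 0} I).symm
      (Equiv.optionEquivSumPUnit.{0, 0} I).symm =
      Matrix.fromBlocks (M.submatrix some some) (M.submatrix some (fun _ : PUnit => none)) 0 1 := by
    ext r s
    rcases r with i | ⟨⟩ <;> rcases s with j | ⟨⟩ <;> simp [h]
  rw [← Matrix.det_submatrix_equiv_self (Equiv.optionEquivSumPUnit.{0, 0} I).symm M, h1,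
    Matrix.det_fromBlocks_zero₂₁, Matrix.det_one, mul_one]

private theorem tpb_perm (τ : Option I → Option I) : ∃ c : ℤ, ∀ (R : Type u) [CommRing R]
    (M : Matrix (Option I) (Option I) R), (M.submatrix id τ).det = (c : R) * M.det := by
  by_cases h : Function.Injective τ
  · have hb : Function.Bijective τ := Finite.injective_iff_bijective.1 h
    refine ⟨((Equiv.Perm.sign (Equiv.ofBijective τ hb) : ℤˣ) : ℤ), fun R _ M => ?_⟩
    exact Matrix.det_permute' (Equiv.ofBijective τ hb) M
  · refine ⟨0, fun R _ M => ?_⟩
    rw [Int.cast_zero, zero_mul]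
    unfold Function.Injective at h
    push Not at h
    obtain ⟨i, j, h1, h2⟩ := h
    refine Matrix.det_zero_of_column_eq h2 fun k => ?_
    rw [Matrix.submatrix_apply, Matrix.submatrix_apply, h1]

private theorem tpb_lin {R : Type u} [CommRing R] (A : Matrix I J R) (u : J → R)
    (y : Option I ≃ J) : (tpb_D A u y).det = ∑ j, u j * rel A y j := by
  rw [Matrix.det_eq_sum_mul_adjugate_row (tpb_D A u y) none, ← Equiv.sum_comp y]
  refine Finset.sum_congr rfl fun s _ => ?_
  have h1 : tpb_D A u y none s = u (y s) := rfl
  rw [h1, Matrix.adjugate_apply]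
  congr 1
  unfold rel
  congr 1
  ext r s'
  rcases r with _ | i
  · rw [Matrix.updateRow_self, Pi.single_apply]
    simp only [Matrix.of_apply, Option.elim_none, EmbeddingLike.apply_eq_iff_eq]
  · rw [Matrix.updateRow_ne (by simp)]
    rfl

private theorem tpb_ker {R : Type u} [CommRing R] (A : Matrix I J R) (y : Option I ≃ J) (i : I) :
    ∑ j, A i j * rel A y j = 0 := by
  rw [← tpb_lin A (A i) y]
  exact Matrix.det_zero_of_row_eq (i := none) (j := some i) (by simp) rfl

/-- every `rel A y j` is up to the sign a maximal minor, with the same formula over all rings -/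
private theorem tpb_min (y : Option I ≃ J) (j : J) : ∃ (c : ℤ) (e : I → J),
    ∀ (R : Type u) [CommRing R] (A : Matrix I J R), rel A y j = c * (A.submatrix id e).det := by
  set σ : Equiv.Perm (Option I) := Equiv.swap none (y.symm j) with hσ
  refine ⟨((Equiv.Perm.sign σ : ℤˣ) : ℤ), fun i => y (σ (some i)), fun R _ A => ?_⟩
  set M : Matrix (Option I) (Option I) R := Matrix.of fun (r s : Option I) =>
    r.elim (if y s = j then (1 : R) else 0) fun i => A i (y s) with hM
  have h1 : (M.submatrix id σ).det = (Equiv.Perm.sign σ : ℤˣ) * M.det := Matrix.det_permute' σ M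
  have h2 : (M.submatrix id σ).det = ((M.submatrix id σ).submatrix some some).det := by
    refine tpb_block _ fun s => ?_
    have h3 : (y (σ s) = j) ↔ s = none := by
      rw [← Equiv.eq_symm_apply, ← Equiv.eq_symm_apply, hσ, Equiv.symm_swap,
        Equiv.swap_apply_right]
    show (if y (σ s) = j then (1 : R) else 0) = _
    simp only [h3]
  have h4 : ((M.submatrix id σ).submatrix some some) =
      A.submatrix id (fun i => y (σ (some i))) := by
    ext i i'
    rfl
  have h5 : ((Equiv.Perm.sign σ : ℤˣ) : ℤ) * ((Equiv.Perm.sign σ : ℤˣ) : ℤ) = 1 := by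
    rw [← Units.val_mul, Int.units_mul_self, Units.val_one]
  have h6 : rel A y j = M.det := rfl
  rw [h6, ← h4, ← h2, h1, ← mul_assoc]
  have h7 : ((((Equiv.Perm.sign σ : ℤˣ) : ℤ) : R)) * (((Equiv.Perm.sign σ : ℤˣ) : ℤ) : R) = 1 := by
    rw [← Int.cast_mul, h5, Int.cast_one]
  rw [h7, one_mul]

/-- every maximal minor is in the span of the `rel A y j` -/
private theorem tpb_span {R : Type u} [CommRing R] (A : Matrix I J R) (y : Option I ≃ J)
    (e : I → J) : (A.submatrix id e).det ∈ Ideal.span (Set.range (rel A y)) := by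
  obtain ⟨j₀, hj₀⟩ : ∃ j₀ : J, ∀ i, e i ≠ j₀ := by
    by_contra hc
    push Not at hc
    have h1 : Function.Surjective e := fun j => hc j
    have h2 := Fintype.card_le_of_surjective e h1
    have h3 := Fintype.card_congr y
    rw [Fintype.card_option] at h3
    omega
  set τ : Option I → Option I := fun s => y.symm (s.elim j₀ e) with hτ
  obtain ⟨c, hc⟩ := tpb_perm.{u} τ
  set M : Matrix (Option I) (Option I) R := Matrix.of fun (r s : Option I) =>
    r.elim (if y s = j₀ then (1 : R) else 0) fun i => A i (y s) with hM
  have h1 := hc R M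
  have h2 : (M.submatrix id τ).det = ((M.submatrix id τ).submatrix some some).det := by
    refine tpb_block _ fun s => ?_
    show (if y (τ s) = j₀ then (1 : R) else 0) = _
    have h3 : (y (τ s) = j₀) ↔ s = none := by
      rw [hτ]
      simp only [Equiv.apply_symm_apply]
      rcases s with _ | i
      · simp
      · simp [hj₀ i]
    simp only [h3]
  have h4 : ((M.submatrix id τ).submatrix some some) = A.submatrix id e := by
    ext i i'
    show A i (y (τ (some i'))) = A i (e i')
    rw [hτ]
    simp
  have h6 : rel A y j₀ = M.det := rfl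
  rw [← h4, ← h2, h1, ← h6]
  exact Ideal.mul_mem_left _ _ (Ideal.subset_span ⟨j₀, rfl⟩)

/-- all determinants of `(u ; A)` vanish if one (bijective) does -/
private theorem tpb_all {R : Type u} [CommRing R] (A : Matrix I J R) (u : J → R)
    (y : Option I ≃ J) (h : (tpb_D A u y).det = 0) (e : Option I → J) :
    (tpb_D A u e).det = 0 := by
  obtain ⟨c, hc⟩ := tpb_perm.{u} (fun s => y.symm (e s))
  have h1 := hc R (tpb_D A u y)
  have h2 : (tpb_D A u y).submatrix id (fun s => y.symm (e s)) = tpb_D A u e := by
    ext r s
    rcases r with _ | i <;> simp [tpb_D]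
  rw [← h2, h1, h, mul_zero]

private theorem tpb_deriv {R : Type u} [CommRing R] (M : Matrix I I (Polynomial R)) :
    Polynomial.derivative M.det =
      ∑ k, (M.updateCol k fun i => Polynomial.derivative (M i k)).det := by
  rw [Matrix.det_apply, map_sum]
  have h1 : ∀ k, (M.updateCol k fun i => Polynomial.derivative (M i k)).det =
      ∑ σ : Equiv.Perm I, Equiv.Perm.sign σ •
        ((∏ i ∈ Finset.univ.erase k, M (σ i) i) * Polynomial.derivative (M (σ k) k)) := by
    intro k
    rw [Matrix.det_apply]
    refine Finset.sum_congr rfl fun σ _ => ?_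
    congr 1
    rw [← Finset.prod_erase_mul _ _ (Finset.mem_univ k), Matrix.updateCol_self]
    congr 1
    refine Finset.prod_congr rfl fun i hi => ?_
    rw [Matrix.updateCol_ne (Finset.ne_of_mem_erase hi)]
  simp only [h1]
  rw [Finset.sum_comm]
  refine Finset.sum_congr rfl fun σ _ => ?_
  rw [← Finset.smul_sum]
  have h2 : Polynomial.derivative (Equiv.Perm.sign σ • ∏ i, M (σ i) i) =
      Equiv.Perm.sign σ • Polynomial.derivative (∏ i, M (σ i) i) := by
    rw [Units.smul_def, Units.smul_def, map_zsmul]
  rw [h2, Polynomial.derivative_prod_finset]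

/-- the matrix `A + ε B` -/
private noncomputable def tpb_E {R : Type u} [CommRing R] (A B : Matrix I J R) :
    Matrix I J (Polynomial R) :=
  Matrix.of fun i j => Polynomial.C (A i j) + Polynomial.X * Polynomial.C (B i j)

private theorem tpb_dd {R : Type u} [CommRing R] (A B : Matrix I J R) (e : I → J) :
    Polynomial.eval 0 (Polynomial.derivative ((tpb_E A B).submatrix id e).det) = dd A B e := by
  rw [tpb_deriv, Polynomial.eval_finsetSum]
  unfold dd
  refine Finset.sum_congr rfl fun k _ => ?_
  rw [← Polynomial.coe_evalRingHom, RingHom.map_det]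
  congr 1
  ext i l
  rw [RingHom.mapMatrix_apply, Matrix.map_apply]
  by_cases h : l = k
  · subst h
    rw [Matrix.updateCol_self, Matrix.updateCol_self]
    simp [tpb_E]
  · rw [Matrix.updateCol_ne h, Matrix.updateCol_ne h]
    simp [tpb_E]

private theorem tpb_rel0 {R : Type u} [CommRing R] (A B : Matrix I J R) (y : Option I → J)
    (j : J) : Polynomial.eval 0 (rel (tpb_E A B) y j) = rel A y j := by
  unfold rel
  rw [← Polynomial.coe_evalRingHom, RingHom.map_det]
  congr 1
  ext r s
  rw [RingHom.mapMatrix_apply, Matrix.map_apply]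
  rcases r with _ | i
  · simp only [Matrix.of_apply, Option.elim_none]
    split_ifs <;> simp
  · simp [tpb_E]

end tpb

theorem p_tpb (h_hc : S_hc.{u}) : S_tpb.{u} := by
  intro K _ N I J _ _ _ _ a b A hA hcard hHB hann B hB hT
  have hy : Nonempty (Option I ≃ J) := by
    rw [← Fintype.card_eq, Fintype.card_option, hcard]
  obtain ⟨y⟩ := hy
  -- the derivatives
  set Δ' : J → MvPolynomial (Fin N) K := fun j =>
    Polynomial.eval 0 (Polynomial.derivative (rel (tpb_E A B) y j)) with hΔ'
  have h1 : ∀ i, ∑ j, (B i j * rel A y j + A i j * Δ' j) = 0 := by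
    intro i
    have h2 := tpb_ker (tpb_E A B) y i
    have h3 := congrArg (fun p => Polynomial.eval 0 (Polynomial.derivative p)) h2
    simp only [Polynomial.derivative_zero, Polynomial.eval_zero] at h3
    rw [Polynomial.derivative_sum, Polynomial.eval_finsetSum] at h3
    rw [← h3]
    refine Finset.sum_congr rfl fun j _ => ?_
    rw [Polynomial.derivative_mul, Polynomial.eval_add, Polynomial.eval_mul, Polynomial.eval_mul,
      tpb_rel0]
    congr 2
    · simp [tpb_E]
    · simp [tpb_E]
  -- they are in the ideal of minors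
  have hmin : ∀ j, Δ' j ∈ Ideal.span (Set.range (rel A y)) := by
    intro j
    obtain ⟨c, e, hc⟩ := tpb_min.{u} y j
    have h2 : Δ' j = c * dd A B e := by
      rw [hΔ']
      simp only
      rw [hc (Polynomial (MvPolynomial (Fin N) K)) (tpb_E A B), Polynomial.derivative_intCast_mul,
        Polynomial.eval_mul, Polynomial.eval_intCast, tpb_dd]
    rw [h2]
    refine Ideal.mul_mem_left _ _ ?_
    have h3 : dd A B e ∈ mins A := hann _ fun i => hT e i
    have h4 : mins A ≤ Ideal.span (Set.range (rel A y)) := by
      unfold mins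
      rw [Ideal.span_le]
      rintro _ ⟨e', rfl⟩
      exact tpb_span A y e'
    exact h4 h3
  have hY : ∀ j, ∃ c : J → MvPolynomial (Fin N) K, ∑ l, c l * rel A y l = Δ' j := by
    intro j
    exact (Ideal.mem_span_range_iff_exists_fun).1 (hmin j)
  choose Y hYY using hY
  have hrow : ∀ i, ∃ x : I → MvPolynomial (Fin N) K,
      (fun j => B i j + (A * Matrix.of Y) i j) = Matrix.vecMul x A := by
    intro i
    refine hHB _ fun e => ?_
    refine tpb_all A (fun j => B i j + (A * Matrix.of Y) i j) y ?_ e
    rw [tpb_lin]
    have h5 : ∑ j, (B i j + (A * Matrix.of Y) i j) * rel A y j =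
        ∑ j, (B i j * rel A y j + A i j * Δ' j) := by
      simp only [add_mul, Finset.sum_add_distrib]
      congr 1
      simp only [Matrix.mul_apply, Finset.sum_mul, Matrix.of_apply]
      rw [Finset.sum_comm]
      refine Finset.sum_congr rfl fun j _ => ?_
      rw [← hYY j, Finset.mul_sum]
      refine Finset.sum_congr rfl fun l _ => ?_
      ring
    rw [h5, h1 i]
  choose X hX using hrow
  refine ((h_hc K N I J a b A hA).2.1 B (Matrix.of X) (-Matrix.of Y) hB ?_)
  ext i j
  have h6 := congrFun (hX i) j
  have h7 : (Matrix.of X * A) i j = Matrix.vecMul (X i) A j := rfl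
  have h8 : (A * -Matrix.of Y) i j = -(A * Matrix.of Y) i j := by
    rw [Matrix.mul_neg, Matrix.neg_apply]
  rw [Matrix.add_apply, h7, h8]
  rw [← h6]
  exact (add_neg_cancel_right _ _).symm

end Pool.Agent.Lib.MP_09338f_ag
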