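import Pool.Agent.Lib.MP_09338f_ag.KM.Stm1

/-!
# MP_09338f_ag, project KM, piece tpo: `TP` for at most one row
-/

set_option autoImplicit false

open MvPolynomial Matrix

universe u

namespace Pool.Agent.Lib.MP_09338f_ag

theorem p_tpo (h_hc : S_hc.{u}) : S_tpo.{u} := by
  intro K _ N I J _ _ _ _ a b A hA hI B hB hT
  have hsub : Subsingleton I := Fintype.card_le_one_iff_subsingleton.1 hI
  have key : ∀ j, ∃ y : J → MvPolynomial (Fin N) K, ∀ i, A.mulVec y i = B i j := by
    intro j
    by_cases hne : Nonempty I
    · obtain ⟨i₀⟩ := hne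
      have h1 := hT (fun _ => j) i₀
      have h2 : dd A B (fun _ => j) = B i₀ j := by
        unfold dd
        rw [Finset.sum_eq_single i₀]
        · rw [Matrix.det_eq_elem_of_subsingleton _ i₀, Matrix.updateCol_self]
        · intro k _ hk
          exact absurd (Subsingleton.elim k i₀) hk
        · intro h
          exact absurd (Finset.mem_univ _) h
      rw [h2] at h1
      obtain ⟨y, hy⟩ := LinearMap.mem_range.1 h1
      refine ⟨y, fun i => ?_⟩
      have h3 := congrFun hy i
      rw [Matrix.mulVecLin_apply] at h3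
      rw [h3, Subsingleton.elim i i₀, Pi.single_eq_same]
    · exact ⟨0, fun i => absurd ⟨i⟩ hne⟩
  choose y hy using key
  have h1 : B = (0 : Matrix I I (MvPolynomial (Fin N) K)) * A +
      A * Matrix.of fun (j' j : J) => y j j' := by
    rw [Matrix.zero_mul, zero_add]
    ext1 i j
    rw [← hy j i]
    rfl
  exact (h_hc K N I J a b A hA).2.1 B 0 _ hB h1

end Pool.Agent.Lib.MP_09338f_ag
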