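import Pool.Agent.Lib.MP_09338f_ag.KM.Stm2

/-!
# MP_09338f_ag, project KM: the piece tps (splitting step for `TP`)
-/

set_option autoImplicit false

open MvPolynomial Matrix

universe u

namespace Pool.Agent.Lib.MP_09338f_ag

section homd

variable {N : ℕ} {K : Type u} [CommRing K]

private theorem tps_add {d : ℤ} {p q : MvPolynomial (Fin N) K} (hp : HomD d p) (hq : HomD d q) :
    HomD d (p + q) := by
  classical
  intro m hm
  rcases Finset.mem_union.1 (MvPolynomial.support_add hm) with h | h
  · exact hp m h
  · exact hq m h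

private theorem tps_zero (d : ℤ) : HomD d (0 : MvPolynomial (Fin N) K) := by
  intro m hm
  simp at hm

private theorem tps_neg {d : ℤ} {p : MvPolynomial (Fin N) K} (hp : HomD d p) : HomD d (-p) := by
  intro m hm
  rw [MvPolynomial.support_neg] at hm
  exact hp m hm

private theorem tps_sub {d : ℤ} {p q : MvPolynomial (Fin N) K} (hp : HomD d p) (hq : HomD d q) :
    HomD d (p - q) := by
  rw [sub_eq_add_neg]
  exact tps_add hp (tps_neg hq)

private theorem tps_sum {d : ℤ} {ι : Type} (s : Finset ι) (f : ι → MvPolynomial (Fin N) K)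
    (h : ∀ i ∈ s, HomD d (f i)) : HomD d (∑ i ∈ s, f i) := by
  classical
  induction s using Finset.induction_on with
  | empty => rw [Finset.sum_empty]; exact tps_zero d
  | insert a s ha ih =>
    rw [Finset.sum_insert ha]
    exact tps_add (h a (Finset.mem_insert_self a s))
      (ih fun i hi => h i (Finset.mem_insert_of_mem hi))

private theorem tps_mul {d e : ℤ} {p q : MvPolynomial (Fin N) K} (hp : HomD d p) (hq : HomD e q) :
    HomD (d + e) (p * q) := by
  classical
  intro m hm
  obtain ⟨m1, h1, m2, h2, rfl⟩ := Finset.mem_add.1 (MvPolynomial.support_mul p q hm)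
  rw [map_add, Nat.cast_add, hp m1 h1, hq m2 h2]

private theorem tps_X (i : Fin N) : HomD 1 (X i : MvPolynomial (Fin N) K) := by
  intro m hm
  by_cases h : Nontrivial K
  · rw [MvPolynomial.support_X, Finset.mem_singleton] at hm
    rw [hm]
    simp
  · rw [not_nontrivial_iff_subsingleton] at h
    rw [Subsingleton.elim (X i : MvPolynomial (Fin N) K) 0] at hm
    simp at hm

end homd

section tp

variable {I J : Type} {R : Type u} [Fintype I] [DecidableEq I] [Fintype J] [DecidableEq J]
  [CommRing R]

private theorem tps_single (h_mim : S_mim.{u}) (A : Matrix I J R) {y : R} (hy : y ∈ mins A) (i : I) :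
    (Pi.single i y : I → R) ∈ Im A := by
  have h := (h_mim R I J A).1 y hy (Pi.single i 1)
  rwa [← Pi.single_smul, smul_eq_mul, mul_one] at h

private theorem tps_Tp (h_mim : S_mim.{u}) (A B : Matrix I J R) (hB : Tp A B) (X : Matrix I I R)
    (Y : Matrix J J R) : Tp A (B + (X * A + A * Y)) := by
  intro e i
  rw [(h_mim R I J A).2.2.2, Pi.single_add]
  exact Submodule.add_mem _ (hB e i) (tps_single h_mim A ((h_mim R I J A).2.1 X Y e) i)

end tp

theorem p_tps (h_tsa : S_tsa.{u}) (h_tsc : S_tsc.{u}) (h_tsd : S_tsd.{u}) (h_mim : S_mim.{u})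
    (h_redk : S_redk.{u}) (h_hc : S_hc.{u}) : S_tps.{u} := by
  intro K _ N I J _ _ _ _ a b α C w hC hw hTP hRR hNZ hTP2 hHP hMi B hB hT
  obtain ⟨k1, k2, k3, k4, k5, k6⟩ := h_redk K N
  obtain ⟨t1, t2⟩ := h_tsa K N I J C w B hT
  -- the columns `some j`
  have hB1 : HomM a b ((B.submatrix id some).map red : Matrix I J (MvPolynomial (Fin N) K)) := by
    intro i j
    exact k4 _ _ (hB i (some j))
  obtain ⟨X1, Y1, hX1, hY1, hXY1⟩ := hTP _ hB1 t1
  -- the column `none`
  have hm : (fun i' => (red (B i' none) : MvPolynomial (Fin N) K)) ∈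
      Im (C.map red : Matrix I J (MvPolynomial (Fin N) K)) := hRR _ t2
  obtain ⟨u0, hu0⟩ := hm
  have hCr : HomM a b (C.map red : Matrix I J (MvPolynomial (Fin N) K)) := fun i j => k4 _ _ (hC i j)
  obtain ⟨u, hu, huC⟩ := (h_hc K N I J a b _ hCr).1 (α + 1)
    (fun i' => (red (B i' none) : MvPolynomial (Fin N) K)) u0 (fun i => k4 _ _ (hB i none)) hu0
  have hq : ∀ i, ∃ q : MvPolynomial (Fin (N + 1)) K,
      B i none - ∑ j, C i j * rename Fin.succ (u j) = X 0 * q := by
    intro i
    apply k2
    rw [map_sub, map_sum, sub_eq_zero]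
    have h := congrFun huC i
    simp only [Matrix.mulVec, dotProduct, Matrix.map_apply] at h
    rw [← h]
    refine Finset.sum_congr rfl fun j _ => ?_
    rw [map_mul, k1]
  choose B' hB' using hq
  have hB'h : ∀ i, HomD (α - b i) (B' i) := by
    intro i
    apply k6
    rw [← hB' i]
    have e1 : α - b i + 1 = α + 1 - b i := by ring
    rw [e1]
    refine tps_sub (hB i none) (tps_sum _ _ fun j _ => ?_)
    have e2 : α + 1 - b i = (a j - b i) + (α + 1 - a j) := by ring
    rw [e2]
    exact tps_mul (hC i j) (k5 _ _ (hu j))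
  set A := addCol C ((X 0 : MvPolynomial (Fin (N + 1)) K) • w) with hA
  let Y0 : Matrix (Option J) (Option J) (MvPolynomial (Fin (N + 1)) K) := fun j' j =>
    j.elim (j'.elim 0 fun j'' => rename Fin.succ (u j'')) fun _ => 0
  have hB1' : B + ((0 : Matrix I I (MvPolynomial (Fin (N + 1)) K)) * A + A * (-Y0)) =
      addCol (B.submatrix id some) ((X 0 : MvPolynomial (Fin (N + 1)) K) • B') := by
    ext1 i j
    rw [Matrix.zero_mul, zero_add, Matrix.mul_neg, Matrix.add_apply, Matrix.neg_apply,
      Matrix.mul_apply, Fintype.sum_option]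
    rcases j with _ | j
    · change B i none + -(((X 0 : MvPolynomial (Fin (N + 1)) K) • w) i * 0 +
        ∑ j, C i j * rename Fin.succ (u j)) = X 0 * B' i
      rw [← hB' i]
      ring
    · change B i (some j) + -(((X 0 : MvPolynomial (Fin (N + 1)) K) • w) i * 0 +
        ∑ j, C i j * 0) = B i (some j)
      simp
  have hT1 : Tp A (addCol (B.submatrix id some) ((X 0 : MvPolynomial (Fin (N + 1)) K) • B')) := by
    rw [← hB1']
    exact tps_Tp h_mim A B hT _ _
  have hT2 := h_tsc K N I J C w (B.submatrix id some) B' hNZ hT1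
  have hB2 : HomM (oext a α) b (addCol (B.submatrix id some) B') := by
    intro i j
    rcases j with _ | j
    · exact hB'h i
    · exact hB i (some j)
  obtain ⟨X2, Y2, hX2, hY2, hXY2⟩ := hTP2 _ hB2 hT2
  -- blocks
  have hsome : ∀ i j, B i (some j) = ∑ i', X2 i i' * C i' j +
      (∑ j', C i j' * Y2 (some j') (some j) + w i * Y2 none (some j)) := by
    intro i j
    have h := congrFun (congrFun hXY2 i) (some j)
    rw [Matrix.add_apply, Matrix.mul_apply, Matrix.mul_apply, Fintype.sum_option] at h
    change B i (some j) = ∑ i', X2 i i' * C i' j +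
      (w i * Y2 none (some j) + ∑ j', C i j' * Y2 (some j') (some j)) at h
    rw [h]
    ring
  have hnone : ∀ i, B' i = ∑ i', X2 i i' * w i' +
      (∑ j', C i j' * Y2 (some j') none + w i * Y2 none none) := by
    intro i
    have h := congrFun (congrFun hXY2 i) none
    rw [Matrix.add_apply, Matrix.mul_apply, Matrix.mul_apply, Fintype.sum_option] at h
    change B' i = ∑ i', X2 i i' * w i' +
      (w i * Y2 none none + ∑ j', C i j' * Y2 (some j') none) at h
    rw [h]
    ring
  let Y11 : Matrix J J (MvPolynomial (Fin (N + 1)) K) := fun j' j => Y2 (some j') (some j)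
  have hX3 : HomM b b (X1 - X2.map red : Matrix I I (MvPolynomial (Fin N) K)) := by
    intro i i'
    exact tps_sub (hX1 i i') (k4 _ _ (hX2 i i'))
  have hred : (Matrix.of fun i j => (red (w i * Y2 none (some j)) : MvPolynomial (Fin N) K)) =
      (X1 - X2.map red) * C.map red + C.map red * (Y1 - Y11.map red) := by
    have h : ((B.submatrix id some).map red : Matrix I J (MvPolynomial (Fin N) K)) =
        X2.map red * C.map red + (C.map red * Y11.map red +
          Matrix.of fun i j => (red (w i * Y2 none (some j)) : MvPolynomial (Fin N) K)) := by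
      ext1 i j
      rw [Matrix.map_apply, Matrix.add_apply, Matrix.add_apply, Matrix.mul_apply, Matrix.mul_apply]
      change red (B i (some j)) = _
      rw [hsome i j, map_add, map_add, map_sum, map_sum]
      simp only [map_mul, Matrix.map_apply, Matrix.of_apply]
      rfl
    rw [hXY1] at h
    rw [Matrix.sub_mul, Matrix.mul_sub]
    have h' : X1 * C.map red + C.map red * Y1 - X2.map red * C.map red -
        C.map red * Y11.map red =
          (Matrix.of fun i j => (red (w i * Y2 none (some j)) : MvPolynomial (Fin N) K)) := by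
      rw [h]
      abel
    rw [← h']
    abel
  obtain ⟨X3, Y3, hXY3⟩ := h_tsd K N I J b C w (fun j => Y2 none (some j)) hHP hMi
    (X1 - X2.map red) (Y1 - Y11.map red) hX3 hred
  let Y4 : Matrix (Option J) (Option J) (MvPolynomial (Fin (N + 1)) K) := fun j' j =>
    j'.elim (j.elim (Y2 none none) fun _ => 0)
      fun j'' => j.elim (X 0 * Y2 (some j'') none) fun j => Y2 (some j'') (some j)
  have hfin : addCol (B.submatrix id some) ((X 0 : MvPolynomial (Fin (N + 1)) K) • B') =
      X2 * A + A * Y4 + addCol (Matrix.of fun i j => w i * Y2 none (some j)) 0 := by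
    ext1 i j
    rw [Matrix.add_apply, Matrix.add_apply, Matrix.mul_apply, Matrix.mul_apply, Fintype.sum_option]
    rcases j with _ | j
    · change X 0 * B' i = ∑ i', X2 i i' * (X 0 * w i') +
        (X 0 * w i * Y2 none none + ∑ j', C i j' * (X 0 * Y2 (some j') none)) + 0
      rw [hnone i, add_zero, mul_add, mul_add, Finset.mul_sum, Finset.mul_sum]
      have e1 : ∑ i', X 0 * (X2 i i' * w i') = ∑ i', X2 i i' * (X 0 * w i') :=
        Finset.sum_congr rfl fun i' _ => by ring
      have e2 : ∑ j', X 0 * (C i j' * Y2 (some j') none) =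
          ∑ j', C i j' * (X 0 * Y2 (some j') none) :=
        Finset.sum_congr rfl fun i' _ => by ring
      rw [e1, e2]
      ring
    · change B i (some j) = ∑ i', X2 i i' * C i' j +
        (X 0 * w i * 0 + ∑ j', C i j' * Y2 (some j') (some j)) + w i * Y2 none (some j)
      rw [hsome i j]
      ring
  have hall : B = (X2 + X3) * A + A * (Y4 + Y3 + Y0) := by
    rw [Matrix.add_mul, Matrix.mul_add, Matrix.mul_add]
    have h : B = addCol (B.submatrix id some) ((X 0 : MvPolynomial (Fin (N + 1)) K) • B') +
        A * Y0 := by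
      rw [← hB1', Matrix.zero_mul, zero_add, Matrix.mul_neg]
      abel
    rw [hfin] at h
    rw [h, hXY3]
    abel
  have hAh : HomM (oext a (α + 1)) b A := by
    intro i j
    rcases j with _ | j
    · have h := tps_mul (tps_X (K := K) (0 : Fin (N + 1))) (hw i)
      have e : 1 + (α - b i) = α + 1 - b i := by ring
      rw [e] at h
      exact h
    · exact hC i j
  exact (h_hc K (N + 1) I (Option J) (oext a (α + 1)) b A hAh).2.1 B _ _ hB hall

end Pool.Agent.Lib.MP_09338f_ag
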