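import Pool.Agent.Lib.MP_09338f_ag.KM.Stm5

/-!
# Project KM, piece tr4: transcendence degrees.
-/

set_option autoImplicit false

universe u

namespace Pool.Agent.Lib.MP_09338f_ag

theorem tr4_aux (k K K' : Type u) [Field k] [Field K] [Field K'] [Algebra k K] [Algebra K K']
    [Algebra k K'] [IsScalarTower k K K'] (F : IntermediateField k K) (σ : K →ₐ[k] K')
    (hF : ∀ x ∈ F, σ x = algebraMap K K' x) :
    Algebra.trdeg K (IntermediateField.adjoin K (Set.range σ)) ≤ Algebra.trdeg F K := by
  obtain ⟨S, hS⟩ := exists_isTranscendenceBasis F K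
  rw [← hS.cardinalMk_eq_trdeg]
  set L := IntermediateField.adjoin K (Set.range σ) with hL
  have hmem : ∀ x : K, σ x ∈ L := fun x => IntermediateField.subset_adjoin K _ ⟨x, rfl⟩
  let τ : K →+* L := RingHom.codRestrict (σ : K →+* K') L hmem
  have hτ : ∀ x ∈ F, τ x = algebraMap K L x := fun x hx => Subtype.ext (hF x hx)
  set s : Set L := τ '' S with hs
  let A0 : Subalgebra K L := Algebra.adjoin K s
  -- the elements of `F[S]` are mapped to `A0`
  have hmap : ∀ z ∈ Algebra.adjoin F S, τ z ∈ A0 := by
    intro z hz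
    induction hz using Algebra.adjoin_induction with
    | mem x hx => exact Algebra.subset_adjoin ⟨x, hx, rfl⟩
    | algebraMap r =>
      have h1 : τ (algebraMap F K r) = algebraMap K L (r : K) := hτ r r.2
      rw [h1]
      exact A0.algebraMap_mem _
    | add x y _ _ hx hy => rw [map_add]; exact A0.add_mem hx hy
    | mul x y _ _ hx hy => rw [map_mul]; exact A0.mul_mem hx hy
  let φ : Algebra.adjoin F S →+* A0 :=
    RingHom.codRestrict (τ.comp (algebraMap (Algebra.adjoin F S) K)) A0 (fun z => hmap z z.2)
  have hφ : Function.Injective φ := by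
    intro x y hxy
    have h1 : τ (x : K) = τ (y : K) := congrArg Subtype.val hxy
    exact Subtype.ext (τ.injective h1)
  have hcomp : RingHom.comp (algebraMap A0 L) φ =
      RingHom.comp τ (algebraMap (Algebra.adjoin F S) K) := by
    ext z
    rfl
  have halgK : Algebra.IsAlgebraic (Algebra.adjoin F S) K := by
    have := hS.isAlgebraic
    rwa [Subtype.range_coe] at this
  have hel : ∀ x : K, IsAlgebraic A0 (τ x) := fun x =>
    (halgK.isAlgebraic x).ringHom_of_comp_eq φ τ hφ hcomp
  have hall : ∀ (y : K') (hy : y ∈ L), IsAlgebraic A0 (⟨y, hy⟩ : L) := by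
    intro y hy
    induction hy using IntermediateField.adjoin_induction with
    | mem x hx =>
      obtain ⟨z, rfl⟩ := hx
      exact hel z
    | algebraMap x =>
      have h1 : (⟨algebraMap K K' x, algebraMap_mem L x⟩ : L) =
          algebraMap A0 L (algebraMap K A0 x) := rfl
      rw [h1]
      exact isAlgebraic_algebraMap _
    | add x y hx hy h1 h2 => exact h1.add h2
    | inv x hx h1 => exact h1.inv
    | mul x y hx hy h1 h2 => exact h1.mul h2
  have halg : Algebra.IsAlgebraic (Algebra.adjoin K s) L := ⟨fun y => hall y y.2⟩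
  exact (Algebra.IsAlgebraic.trdeg_le_cardinalMk K s).trans Cardinal.mk_image_le

/-- [tr4] Transcendence degrees. -/
theorem p_tr4 : S_tr4.{u} := by
  intro k K K' _ _ _ _ _ _ _ F σ n w hn hw hF
  have h1 := tr4_aux k K K' F σ hF
  have h2 : Algebra.trdeg k F + Algebra.trdeg F K = Algebra.trdeg k K :=
    _root_.trdeg_add_eq k F
  rw [hn, hw] at h2
  rw [← h2, add_comm]
  gcongr

end Pool.Agent.Lib.MP_09338f_ag
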