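import Pool.Agent.Lib.MP_09338f_ag.KM.Stm1

set_option autoImplicit false

open MvPolynomial Matrix

universe u

namespace Pool.Agent.Lib.MP_09338f_ag

private theorem tsa_X0 {K : Type u} [Field K] {N : ℕ} :
    (red (X 0 : MvPolynomial (Fin (N + 1)) K) : MvPolynomial (Fin N) K) = 0 := by
  simp [red]

private theorem tsa_none {K : Type u} [Field K] {N : ℕ} {I J : Type}
    (C : Matrix I J (MvPolynomial (Fin (N + 1)) K)) (w : I → MvPolynomial (Fin (N + 1)) K) (i : I) :
    (red (addCol C ((X 0 : MvPolynomial (Fin (N + 1)) K) • w) i none) : MvPolynomial (Fin N) K)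
      = 0 := by
  have h : addCol C ((X 0 : MvPolynomial (Fin (N + 1)) K) • w) i none = X 0 * w i := rfl
  rw [h, map_mul, tsa_X0, zero_mul]

private theorem tsa_im {K : Type u} [Field K] {N : ℕ} {I J : Type} [Fintype I] [DecidableEq I]
    [Fintype J] [DecidableEq J] (C : Matrix I J (MvPolynomial (Fin (N + 1)) K))
    (w v : I → MvPolynomial (Fin (N + 1)) K)
    (hv : v ∈ Im (addCol C ((X 0 : MvPolynomial (Fin (N + 1)) K) • w))) :
    (fun i => red (v i)) ∈ Im (C.map red : Matrix I J (MvPolynomial (Fin N) K)) := by
  obtain ⟨u, rfl⟩ := hv
  refine ⟨fun j => red (u (some j)), ?_⟩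
  funext i
  simp only [Matrix.mulVecLin_apply, Matrix.mulVec, dotProduct, Fintype.sum_option, map_add,
    map_mul, map_sum, tsa_none, zero_mul, zero_add]
  rfl

private theorem tsa_single {K : Type u} [Field K] {N : ℕ} {I : Type} [DecidableEq I] (i : I)
    (y : MvPolynomial (Fin (N + 1)) K) :
    (fun i' => (red ((Pi.single i y : I → MvPolynomial (Fin (N + 1)) K) i') :
      MvPolynomial (Fin N) K)) = Pi.single i (red y) := by
  funext i'
  by_cases h : i' = i
  · subst h; simp
  · simp [Pi.single_eq_of_ne h]

theorem p_tsa : S_tsa.{u} := by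
  intro K _ N I J _ _ _ _ C w B hT
  constructor
  · intro e i
    have h1 := tsa_im C w _ (hT (some ∘ e) i)
    rw [tsa_single] at h1
    have h2 : (red (dd (addCol C ((X 0 : MvPolynomial (Fin (N + 1)) K) • w)) B (some ∘ e)) :
        MvPolynomial (Fin N) K) = dd (C.map red) ((B.submatrix id some).map red) e := by
      unfold dd
      rw [map_sum]
      apply Finset.sum_congr rfl
      intro k _
      rw [AlgHom.map_det]
      congr 1
      ext1 r s
      by_cases hs : s = k
      · subst hs
        simp [Matrix.updateCol_self]
      · simp only [AlgHom.mapMatrix_apply, Matrix.map_apply, Matrix.updateCol_ne hs,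
          Matrix.submatrix_apply, id, Function.comp]
        rfl
    rw [h2] at h1
    exact h1
  · intro e k i
    have h1 := tsa_im C w _ (hT (Function.update (some ∘ e) k none) i)
    rw [tsa_single] at h1
    have h2 : (red (dd (addCol C ((X 0 : MvPolynomial (Fin (N + 1)) K) • w)) B
        (Function.update (some ∘ e) k none)) :
        MvPolynomial (Fin N) K) = (((C.map red : Matrix I J (MvPolynomial (Fin N) K)).submatrix id
          e).updateCol k fun i' => red (B i' none)).det := by
      unfold dd
      rw [map_sum, Finset.sum_eq_single k]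
      · rw [AlgHom.map_det]
        congr 1
        ext1 r s
        by_cases hs : s = k
        · subst hs
          simp [Matrix.updateCol_self]
        · simp only [AlgHom.mapMatrix_apply, Matrix.map_apply, Matrix.updateCol_ne hs,
            Matrix.submatrix_apply, id, Function.update_of_ne hs, Function.comp]
          rfl
      · intro k' _ hk'
        rw [AlgHom.map_det]
        apply Matrix.det_eq_zero_of_column_eq_zero k
        intro r
        simp only [AlgHom.mapMatrix_apply, Matrix.map_apply, Matrix.updateCol_ne (Ne.symm hk'),
            Matrix.submatrix_apply, id, Function.update_self]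
        exact tsa_none C w r
      · intro h
        exact absurd (Finset.mem_univ k) h
    rw [h2] at h1
    exact h1

end Pool.Agent.Lib.MP_09338f_ag
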