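import Mathlib
import Pool.Agent.Lib.MP_09338f_ag.KM.Stm1

/-!
# Project KM, piece tsc: division of the last column of a tangent vector by `x_0`
-/

set_option autoImplicit false

open MvPolynomial Matrix

universe u

namespace Pool.Agent.Lib.MP_09338f_ag

section

variable {R : Type u} [CommRing R] {I J : Type} [Fintype I] [DecidableEq I] [Fintype J]
  [DecidableEq J]

/-- The entries of the matrices in the definition of `dd`. -/
private theorem tsc_entry (A B : Matrix I J R) (e : I → J) (k i l : I) :
    ((A.submatrix id e).updateCol k fun i => B i (e k)) i l =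
      if l = k then B i (e l) else A i (e l) := by
  rw [Matrix.updateCol_apply]
  split_ifs with h
  · rw [h]
  · rfl

/-- `dd` vanishes if two indices are equal. -/
private theorem tsc_dd_eq_zero (A B : Matrix I J R) (e : I → J) {k₀ k₁ : I} (hk : k₀ ≠ k₁)
    (he : e k₀ = e k₁) : dd A B e = 0 := by
  unfold dd
  have h0 : ∀ k, k ≠ k₀ → k ≠ k₁ →
      ((A.submatrix id e).updateCol k fun i => B i (e k)).det = 0 := by
    intro k h1 h2
    refine Matrix.det_zero_of_column_eq hk fun i => ?_
    rw [tsc_entry, tsc_entry, if_neg h1.symm, if_neg h2.symm, he]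
  have h1 : ((A.submatrix id e).updateCol k₁ fun i => B i (e k₁)) =
      ((A.submatrix id e).updateCol k₀ fun i => B i (e k₀)).submatrix id (Equiv.swap k₀ k₁) := by
    ext1 i l
    rw [tsc_entry, Matrix.submatrix_apply, id_eq, tsc_entry]
    by_cases hl0 : l = k₀
    · rw [hl0, Equiv.swap_apply_left, if_neg hk, if_neg hk.symm, he]
    · by_cases hl1 : l = k₁
      · rw [hl1, Equiv.swap_apply_right, if_pos rfl, if_pos rfl, he]
      · rw [Equiv.swap_apply_of_ne_of_ne hl0 hl1, if_neg hl1, if_neg hl0]
  rw [← Finset.add_sum_erase Finset.univ _ (Finset.mem_univ k₀),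
    ← Finset.add_sum_erase (Finset.univ.erase k₀) _
      (Finset.mem_erase.2 ⟨hk.symm, Finset.mem_univ k₁⟩), Finset.sum_eq_zero, add_zero]
  · rw [h1, Matrix.det_permute', Equiv.Perm.sign_swap hk]
    simp
  · intro k hk'
    rw [Finset.mem_erase, Finset.mem_erase] at hk'
    exact h0 k hk'.2.1 hk'.1

/-- The factor `x` of the last column. -/
private theorem tsc_factor (C B : Matrix I J R) (w B' : I → R) (x : R) (e : I → Option J) :
    dd (addCol C (x • w)) (addCol B (x • B')) e =
      (∏ l, if e l = none then x else 1) * dd (addCol C w) (addCol B B') e := by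
  unfold dd
  rw [Finset.mul_sum]
  refine Finset.sum_congr rfl fun k _ => ?_
  rw [← Matrix.det_mul_row]
  congr 1
  ext1 i l
  rw [tsc_entry, Matrix.of_apply, tsc_entry]
  cases hl : e l with
  | none => split_ifs <;> simp_all [addCol]
  | some j => split_ifs <;> simp_all [addCol]

private theorem tsc_Im_le (C : Matrix I J R) (w : I → R) (x : R) {v : I → R}
    (hv : v ∈ Im (addCol C (x • w))) : v ∈ Im (addCol C w) := by
  obtain ⟨u, rfl⟩ := hv
  refine ⟨fun j => j.elim (x * u none) fun j => u (some j), ?_⟩
  rw [Matrix.mulVecLin_apply, Matrix.mulVecLin_apply]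
  funext i
  rw [Matrix.mulVec, Matrix.mulVec, dotProduct, dotProduct, Fintype.sum_option,
    Fintype.sum_option]
  simp only [addCol, Option.elim, Pi.smul_apply, smul_eq_mul]
  ring

end

private theorem tsc_star {K : Type u} [Field K] {N : ℕ} {I J : Type} [Fintype I] [DecidableEq I]
    [Fintype J] [DecidableEq J] (C : Matrix I J (MvPolynomial (Fin (N + 1)) K))
    (w : I → MvPolynomial (Fin (N + 1)) K) (hC : NZ0 C) {v : I → MvPolynomial (Fin (N + 1)) K}
    (hv : (X 0 : MvPolynomial (Fin (N + 1)) K) • v ∈
      Im (addCol C ((X 0 : MvPolynomial (Fin (N + 1)) K) • w))) : v ∈ Im (addCol C w) := by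
  obtain ⟨u, hu⟩ := hv
  rw [Matrix.mulVecLin_apply] at hu
  have h1 : (X 0 : MvPolynomial (Fin (N + 1)) K) • (v - u none • w) ∈ Im C := by
    refine ⟨fun j => u (some j), ?_⟩
    rw [Matrix.mulVecLin_apply]
    funext i
    have h := congrFun hu i
    rw [Matrix.mulVec, dotProduct, Fintype.sum_option] at h
    simp only [addCol, Option.elim, Pi.smul_apply, smul_eq_mul] at h
    rw [Matrix.mulVec, dotProduct]
    simp only [Pi.smul_apply, smul_eq_mul, Pi.sub_apply]
    linear_combination h
  obtain ⟨u', hu'⟩ := hC _ h1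
  rw [Matrix.mulVecLin_apply] at hu'
  refine ⟨fun j => j.elim (u none) u', ?_⟩
  rw [Matrix.mulVecLin_apply]
  funext i
  have h := congrFun hu' i
  rw [Matrix.mulVec, dotProduct] at h
  simp only [Pi.smul_apply, smul_eq_mul, Pi.sub_apply] at h
  rw [Matrix.mulVec, dotProduct, Fintype.sum_option]
  simp only [addCol, Option.elim]
  linear_combination h

theorem p_tsc : S_tsc.{u} := by
  intro K _ N I J _ _ _ _ C w B B' hC hT e i
  by_cases he : Function.Injective e
  · have h1 := hT e i
    rw [tsc_factor] at h1
    by_cases hn : ∃ k₀, e k₀ = none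
    · obtain ⟨k₀, hk₀⟩ := hn
      have h2 : (∏ l, if e l = none then (X 0 : MvPolynomial (Fin (N + 1)) K) else 1) = X 0 := by
        rw [Finset.prod_eq_single k₀]
        · rw [if_pos hk₀]
        · intro l _ hl
          rw [if_neg fun h => hl (he (h.trans hk₀.symm))]
        · intro h
          exact absurd (Finset.mem_univ _) h
      rw [h2] at h1
      apply tsc_star C w hC
      convert h1 using 1
      rw [← smul_eq_mul, ← Pi.single_smul']
    · push Not at hn
      have h2 : (∏ l, if e l = none then (X 0 : MvPolynomial (Fin (N + 1)) K) else 1) = 1 :=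
        Finset.prod_eq_one fun l _ => if_neg (hn l)
      rw [h2, one_mul] at h1
      exact tsc_Im_le C w _ h1
  · rw [Function.Injective] at he
    push Not at he
    obtain ⟨k₀, k₁, h1, h2⟩ := he
    rw [tsc_dd_eq_zero _ _ e h2 h1, Pi.single_zero]
    exact Submodule.zero_mem _

end Pool.Agent.Lib.MP_09338f_ag
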