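import Mathlib
import Pool.Agent.Lib.MP_09338f_ag.KM.Stm1

/-!
# Project KM, piece tsd: the last step, the tangent vector `(w ⊗ y, 0)`
-/

set_option autoImplicit false

open MvPolynomial Matrix

universe u

namespace Pool.Agent.Lib.MP_09338f_ag

/-- Elements of the ideal of minors modulo `x_0` can be lifted. -/
private theorem tsd_lift (h_redk : S_redk.{u}) {K : Type u} [Field K] {N : ℕ} {I J : Type}
    [Fintype I] [DecidableEq I] [Fintype J] [DecidableEq J]
    (C : Matrix I J (MvPolynomial (Fin (N + 1)) K)) :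
    ∀ g ∈ mins (C.map red : Matrix I J (MvPolynomial (Fin N) K)),
      ∃ μ ∈ mins C, (red μ : MvPolynomial (Fin N) K) = g := by
  intro g hg
  unfold mins at hg
  induction hg using Submodule.span_induction with
  | mem g hg =>
    obtain ⟨e, rfl⟩ := hg
    refine ⟨(C.submatrix id e).det, Ideal.subset_span ⟨e, rfl⟩, ?_⟩
    change red (C.submatrix id e).det = ((C.map red).submatrix id e).det
    rw [AlgHom.map_det]
    rfl
  | zero => exact ⟨0, Ideal.zero_mem _, map_zero _⟩
  | add g g' _ _ ih ih' =>
    obtain ⟨μ, hμ, h1⟩ := ih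
    obtain ⟨μ', hμ', h2⟩ := ih'
    exact ⟨μ + μ', Ideal.add_mem _ hμ hμ', by rw [map_add, h1, h2]⟩
  | smul a g _ ih =>
    obtain ⟨μ, hμ, h1⟩ := ih
    exact ⟨rename Fin.succ a * μ, Ideal.mul_mem_left _ _ hμ, by
      rw [map_mul, h1, (h_redk K N).1, smul_eq_mul]⟩

theorem p_tsd (h_mim : S_mim.{u}) (h_redk : S_redk.{u}) : S_tsd.{u} := by
  intro K _ N I J _ _ _ _ b C w y hHP hann X₁ Y₁ hX₁ heq
  obtain ⟨r1, r2, -, -, -, -⟩ := h_redk K N
  obtain ⟨m1, -, -, -⟩ := h_mim (MvPolynomial (Fin (N + 1)) K) I J C
  -- entries of the equation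
  have heq' : ∀ i j, (red (w i) * red (y j) : MvPolynomial (Fin N) K) =
      ∑ l, X₁ i l * red (C l j) + ∑ l, red (C i l) * Y₁ l j := by
    intro i j
    have h := congrFun (congrFun heq i) j
    rw [Matrix.of_apply, map_mul, Matrix.add_apply, Matrix.mul_apply, Matrix.mul_apply] at h
    exact h
  -- the homomorphism
  obtain ⟨s, Z, hZ⟩ := hHP X₁ hX₁ (Matrix.fromRows (-Y₁) (Matrix.of fun (_ : Unit) j => red (y j)))
    (by
      rw [Matrix.fromCols_mul_fromRows]
      ext1 i j
      rw [Matrix.add_apply, Matrix.mul_neg, Matrix.neg_apply, Matrix.mul_apply, Matrix.mul_apply,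
        Matrix.mul_apply]
      simp only [Matrix.of_apply, Finset.univ_unique, Finset.sum_singleton, Matrix.map_apply]
      rw [heq' i j]
      ring)
  have hZ' : ∀ i i', X₁ i i' = s * (1 : Matrix I I (MvPolynomial (Fin N) K)) i i' +
      (∑ l, red (C i l) * Z (Sum.inl l) i' + red (w i) * Z (Sum.inr ()) i') := by
    intro i i'
    have h := congrFun (congrFun hZ i) i'
    rw [Matrix.add_apply, Matrix.smul_apply, smul_eq_mul, Matrix.mul_apply,
      Fintype.sum_sum_type] at h
    simp only [Matrix.fromCols_apply_inl, Matrix.fromCols_apply_inr, Matrix.map_apply,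
      Matrix.of_apply, Finset.univ_unique, Finset.sum_singleton] at h
    exact h
  obtain ⟨z, hz⟩ : ∃ z : I → MvPolynomial (Fin N) K, z = fun i' => Z (Sum.inr ()) i' := ⟨_, rfl⟩
  -- the elements `g j`
  have hg : ∀ j, (((red (y j) - ∑ l, z l * red (C l j)) : MvPolynomial (Fin N) K) •
      fun i => (red (w i) : MvPolynomial (Fin N) K)) ∈
      Im (C.map red : Matrix I J (MvPolynomial (Fin N) K)) := by
    intro j
    refine ⟨fun l => s * (1 : Matrix J J (MvPolynomial (Fin N) K)) l j +
      ∑ l', Z (Sum.inl l) l' * red (C l' j) + Y₁ l j, ?_⟩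
    rw [Matrix.mulVecLin_apply]
    funext i
    rw [Matrix.mulVec, dotProduct, Pi.smul_apply, smul_eq_mul]
    simp only [Matrix.map_apply]
    have e1 : ∑ l, X₁ i l * red (C l j) = s * red (C i j) +
        (∑ l, ∑ l', red (C i l) * (Z (Sum.inl l) l' * red (C l' j)) +
          red (w i) * ∑ l, z l * red (C l j)) := by
      have e2 : ∀ l', X₁ i l' * red (C l' j) =
          s * ((1 : Matrix I I (MvPolynomial (Fin N) K)) i l' * red (C l' j)) +
          (∑ l, red (C i l) * (Z (Sum.inl l) l' * red (C l' j)) +
            red (w i) * (z l' * red (C l' j))) := by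
        intro l'
        rw [hZ' i l', hz, add_mul, add_mul, Finset.sum_mul]
        congr 1
        · ring
        · congr 1
          · exact Finset.sum_congr rfl fun l _ => by ring
          · ring
      rw [Finset.sum_congr rfl fun l' _ => e2 l', Finset.sum_add_distrib,
        Finset.sum_add_distrib, ← Finset.mul_sum, ← Finset.mul_sum, Finset.sum_comm]
      congr 2
      rw [Finset.sum_eq_single i]
      · rw [Matrix.one_apply_eq, one_mul]
      · intro l' _ hl'
        rw [Matrix.one_apply_ne hl'.symm, zero_mul]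
      · intro h
        exact absurd (Finset.mem_univ _) h
    have e3 : ∑ l, red (C i l) * (s * (1 : Matrix J J (MvPolynomial (Fin N) K)) l j +
        ∑ l', Z (Sum.inl l) l' * red (C l' j) + Y₁ l j) =
        s * red (C i j) + ∑ l, ∑ l', red (C i l) * (Z (Sum.inl l) l' * red (C l' j)) +
          ∑ l, red (C i l) * Y₁ l j := by
      have e4 : ∀ l, red (C i l) * (s * (1 : Matrix J J (MvPolynomial (Fin N) K)) l j +
          ∑ l', Z (Sum.inl l) l' * red (C l' j) + Y₁ l j) =
          s * (red (C i l) * (1 : Matrix J J (MvPolynomial (Fin N) K)) l j) +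
          ∑ l', red (C i l) * (Z (Sum.inl l) l' * red (C l' j)) + red (C i l) * Y₁ l j := by
        intro l
        rw [mul_add, mul_add, Finset.mul_sum]
        congr 2
        ring
      rw [Finset.sum_congr rfl fun l _ => e4 l, Finset.sum_add_distrib,
        Finset.sum_add_distrib, ← Finset.mul_sum]
      congr 3
      rw [Finset.sum_eq_single j]
      · rw [Matrix.one_apply_eq, mul_one]
      · intro l _ hl
        rw [Matrix.one_apply_ne hl, mul_zero]
      · intro h
        exact absurd (Finset.mem_univ _) h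
    rw [e3]
    have e5 := heq' i j
    rw [e1] at e5
    linear_combination -e5
  -- the lifts
  choose μ hμ hμ' using fun j => tsd_lift h_redk C _ (hann _ (hg j))
  choose t ht using fun j => m1 (μ j) (hμ j) w
  have hker : ∀ j, ∃ q : MvPolynomial (Fin (N + 1)) K,
      y j - ∑ l, rename Fin.succ (z l) * C l j - μ j = MvPolynomial.X 0 * q := by
    intro j
    apply r2
    rw [map_sub, map_sub, map_sum, hμ' j]
    simp only [map_mul, r1]
    ring
  choose y' hy' using hker
  have ht' : ∀ i j, ∑ l, C i l * t j l = μ j * w i := by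
    intro i j
    have h := congrFun (ht j) i
    rw [Matrix.mulVecLin_apply, Matrix.mulVec, dotProduct, Pi.smul_apply, smul_eq_mul] at h
    exact h
  refine ⟨Matrix.of fun i i' => w i * rename Fin.succ (z i'),
    Matrix.of fun p q => q.elim (p.elim (-∑ l, rename Fin.succ (z l) * w l) fun _ => 0)
      (fun j => p.elim (y' j) (t j)), ?_⟩
  ext1 i q
  rw [Matrix.add_apply, Matrix.mul_apply, Matrix.mul_apply, Fintype.sum_option]
  cases q with
  | none =>
    simp only [addCol, Option.elim, Matrix.of_apply, Pi.smul_apply, smul_eq_mul, Pi.zero_apply,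
      mul_zero, Finset.sum_const_zero, add_zero]
    have e1 : ∑ l, w i * rename Fin.succ (z l) * (MvPolynomial.X 0 * w l) =
        MvPolynomial.X 0 * w i * ∑ l, rename Fin.succ (z l) * w l := by
      rw [Finset.mul_sum]
      exact Finset.sum_congr rfl fun l _ => by ring
    rw [e1]
    ring
  | some j =>
    simp only [addCol, Option.elim, Matrix.of_apply, Pi.smul_apply, smul_eq_mul]
    have e1 : ∑ l, w i * rename Fin.succ (z l) * C l j =
        w i * ∑ l, rename Fin.succ (z l) * C l j := by
      rw [Finset.mul_sum]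
      exact Finset.sum_congr rfl fun l _ => by ring
    rw [e1, ht' i j]
    linear_combination w i * hy' j

end Pool.Agent.Lib.MP_09338f_ag
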