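import Pool.Agent.Lib.MP_09338f_ag.KM.Stm3

/-!
# Project KM, piece tst: the splitting step for `TP`, generic matrices
-/

set_option autoImplicit false

open MvPolynomial Matrix

universe u

namespace Pool.Agent.Lib.MP_09338f_ag

private lemma tst_hom_X {N : ℕ} {K : Type u} [Field K] (d : ℤ) (p : MvPolynomial (Fin (N + 1)) K)
    (hp : HomD d p) : HomD (d + 1) ((X 0 : MvPolynomial (Fin (N + 1)) K) * p) := by
  intro m hm
  rw [mul_comm, MvPolynomial.mem_support_iff, MvPolynomial.coeff_mul_X'] at hm
  split_ifs at hm with h
  · have h1 := hp _ (MvPolynomial.mem_support_iff.2 hm)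
    have h2 : (m - Finsupp.single 0 1) + Finsupp.single 0 1 = m := by
      ext i
      rw [Finsupp.add_apply, Finsupp.tsub_apply]
      rcases eq_or_ne i 0 with rfl | hi
      · have h3 : m 0 ≠ 0 := Finsupp.mem_support_iff.1 h
        rw [Finsupp.single_eq_same]
        omega
      · rw [Finsupp.single_eq_of_ne hi]
        omega
    have h4 : m.degree = (m - Finsupp.single 0 1).degree + 1 := by
      conv_lhs => rw [← h2]
      rw [map_add, Finsupp.degree_single]
    rw [h4]
    push_cast
    rw [h1]
  · exact absurd rfl hm

private lemma tst_addCol {I J : Type} {R : Type u} (G : Matrix I (Option J) R) :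
    addCol (G.submatrix id some) (fun i => G i none) = G := by
  ext i j
  cases j <;> rfl

private lemma tst_inj {J : Type} :
    Function.Injective (Sum.elim some (fun _ : Unit => none) : J ⊕ Unit → Option J) := by
  intro x y h
  cases x <;> cases y <;> simp_all

/-- [tst] the splitting step for `TP`, generic matrices. -/
theorem p_tst (h_tps : S_tps.{u}) (h_spt : S_spt.{u}) (h_nz : S_nz.{u}) (h_ann : S_ann.{u})
    (h_e1a : S_e1a.{u}) (h_e1s : S_e1s.{u}) (h_r1a : S_r1a.{u}) (h_gm : S_gm.{u})
    (h_gs : S_gs.{u}) : S_tst.{u} := by
  intro N I J _ _ _ _ a b α hIJ hN hab habα hTP hTP1 hHP k K _ _ _ A hA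
  -- the generic matrix for `(oext a α, b)` in `N + 1` variables
  have hG : Gen k (oext a α) b (genMatrix k (N + 1) (oext a α) b) := h_gm k I (Option J) (N + 1) _ _
  generalize genMatrix k (N + 1) (oext a α) b = G at hG
  have hcO : Fintype.card (Option J) = Fintype.card J + 1 := Fintype.card_option
  -- the matrix `C` and the column `w`
  have hC : Gen k a b (G.submatrix id some) :=
    (h_gs k _ I (Option J) (oext a α) b).1 (N + 1) G hG I J id some Function.injective_id
      (Option.some_injective J)
  have hCr : Gen k a b ((G.submatrix id some).map red : Matrix I J (MvPolynomial (Fin N) _)) :=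
    (h_gs k _ I J a b).2 N _ hC
  have hGr : Gen k (oext a α) b (G.map red : Matrix I (Option J) (MvPolynomial (Fin N) _)) :=
    (h_gs k _ I (Option J) (oext a α) b).2 N _ hG
  have hExC : Ex1 ((G.submatrix id some).map red : Matrix I J (MvPolynomial (Fin N) _)) :=
    h_e1a N I J a b hIJ (by omega) hab k _ _ hCr
  have hExG : Ex1 (addCol (G.submatrix id some) (fun i => G i none)) := by
    rw [tst_addCol]
    exact h_e1a (N + 1) I (Option J) (oext a α) b (by omega) (by omega) habα k _ _ hG
  have hExGr : Ex1 (addCol ((G.submatrix id some).map red : Matrix I J (MvPolynomial (Fin N) _))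
      (fun i => red (G i none))) := by
    have h1 : addCol ((G.submatrix id some).map red : Matrix I J (MvPolynomial (Fin N) _))
        (fun i => red (G i none)) = G.map red := by
      ext1 i j
      cases j <;> rfl
    rw [h1]
    exact h_e1a N I (Option J) (oext a α) b (by omega) (by omega) habα k _ _ hGr
  have hHPr : HP b ((G.submatrix id some).map red : Matrix I J (MvPolynomial (Fin N) _))
      (Matrix.of fun (i : I) (_ : Unit) => red (G i none)) := by
    refine hHP k _ _ _ ?_
    have h1 := (h_gs k _ I (Option J) (oext a α) b).1 N _ hGr I (J ⊕ Unit) id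
      (Sum.elim some (fun _ : Unit => none)) Function.injective_id tst_inj
    have h2 : (G.map red : Matrix I (Option J) (MvPolynomial (Fin N) _)).submatrix id
        (Sum.elim some (fun _ : Unit => none)) =
        Matrix.fromCols ((G.submatrix id some).map red : Matrix I J (MvPolynomial (Fin N) _))
          (Matrix.of fun (i : I) (_ : Unit) => red (G i none)) := by
      ext1 i j
      cases j <;> rfl
    have h3 : oext a α ∘ (Sum.elim some (fun _ : Unit => none)) = Sum.elim a (fun _ : Unit => α) := by
      funext j
      cases j <;> rfl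
    rw [h2, h3] at h1
    exact h1
  have hTPA : TP (oext a (α + 1)) b
      (addCol (G.submatrix id some) ((X 0 : MvPolynomial (Fin (N + 1))
        (GenField k (N + 1) (oext a α) b)) • fun i => G i none)) := by
    refine h_tps _ N I J a b α (G.submatrix id some) (fun i => G i none) hC.1 (fun i => hG.1 i none)
      (hTP k _ _ hCr) (h_r1a N I J a b hIJ hN hab k _ _ hCr) (h_nz _ N I J _ hExC) ?_ hHPr ?_
    · rw [tst_addCol]
      exact hTP1 k _ _ hG
    · intro z hz
      exact h_ann _ I J _ _ hExGr z hz
  refine h_spt k _ K I (Option J) (N + 1) (oext a (α + 1)) b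
    (addCol (G.submatrix id some) ((X 0 : MvPolynomial (Fin (N + 1))
        (GenField k (N + 1) (oext a α) b)) • fun i => G i none)) A
    ?_ (h_e1s _ N I J _ _ hExG hExC) hTPA hA
  intro i j
  cases j with
  | some j => exact hG.1 i (some j)
  | none =>
    have h1 := tst_hom_X _ _ (hG.1 i none)
    have h2 : oext a α none - b i + 1 = oext a (α + 1) none - b i := by
      show α - b i + 1 = α + 1 - b i
      ring
    rw [h2] at h1
    exact h1

end Pool.Agent.Lib.MP_09338f_ag
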