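import Pool.Agent.Lib.MP_09338f_ag.KM.Stm1

/-!
# Project KM: piece `tub`, the unit step for `TP`
-/

set_option autoImplicit false

open MvPolynomial Matrix

universe u

namespace Pool.Agent.Lib.MP_09338f_ag

private theorem tub_zero {N : ℕ} {K : Type u} [CommRing K] (d : ℤ) :
    HomD d (0 : MvPolynomial (Fin N) K) := by
  intro m hm
  simp at hm

private theorem tub_sub {N : ℕ} {K : Type u} [CommRing K] {d : ℤ} {p q : MvPolynomial (Fin N) K}
    (hp : HomD d p) (hq : HomD d q) : HomD d (p - q) := by
  intro m hm
  rw [mem_support_iff, coeff_sub] at hm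
  by_cases h : coeff m p = 0
  · apply hq m
    rw [mem_support_iff]
    intro h'
    rw [h, h', sub_zero] at hm
    exact hm rfl
  · exact hp m (mem_support_iff.2 h)

private theorem tub_mul {N : ℕ} {K : Type u} [CommRing K] {d d' : ℤ} {p q : MvPolynomial (Fin N) K}
    (hp : HomD d p) (hq : HomD d' q) : HomD (d + d') (p * q) := by
  classical
  intro m hm
  have hm' := support_mul p q hm
  rw [Finset.mem_add] at hm'
  obtain ⟨m₁, h₁, m₂, h₂, rfl⟩ := hm'
  have e₁ := hp m₁ h₁
  have e₂ := hq m₂ h₂
  rw [map_add]
  push_cast
  linarith

private theorem tub_one {N : ℕ} {K : Type u} [CommRing K] :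
    HomD 0 (1 : MvPolynomial (Fin N) K) := by
  intro m hm
  by_cases h : m = 0
  · rw [h]; simp
  · exfalso
    rw [mem_support_iff] at hm
    apply hm
    rw [coeff_one, if_neg (fun h' => h h'.symm)]

theorem p_tub (h_tua : S_tua.{u}) (h_hc : S_hc.{u}) : S_tub.{u} := by
  intro K _ N I J _ _ _ _ a b β C hC hTP B hB hBT
  -- the matrix `E'`
  set E : Matrix I J (MvPolynomial (Fin N) K) :=
    Matrix.of fun i j => B (some i) (some j) - B (some i) none * C none j with hE
  have hET : Tp (C.submatrix some id) E := h_tua _ I J C B hBT
  have hEh : HomM a b E := by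
    intro i j
    have h1 : HomD (a j - b i) (B (some i) (some j)) := hB (some i) (some j)
    have h2 : HomD (β - b i) (B (some i) none) := hB (some i) none
    have h3 : HomD (a j - β) (C none j) := hC none j
    have h4 := tub_mul h2 h3
    have h5 : β - b i + (a j - β) = a j - b i := by ring
    rw [h5] at h4
    exact tub_sub h1 h4
  obtain ⟨X', Y', -, -, hXY⟩ := hTP E hEh hET
  have hA : HomM (oext a β) (oext b β) (addCol C (Pi.single none 1)) := by
    intro i j
    rcases j with _ | j
    · rcases i with _ | i
      · have h := tub_one (N := N) (K := K)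
        have h5 : oext a β none - oext b β none = 0 := by simp [oext]
        rw [h5]
        simpa [addCol] using h
      · have h : addCol C (Pi.single none 1) (some i) none = 0 := by simp [addCol]
        rw [h]
        exact tub_zero _
    · exact hC i j
  -- the two matrices
  set X : Matrix (Option I) (Option I) (MvPolynomial (Fin N) K) := fun i i' =>
    i.elim (i'.elim (B none none) fun _ => 0) fun i =>
      i'.elim (B (some i) none) fun i' => X' i i' with hX
  set Y : Matrix (Option J) (Option J) (MvPolynomial (Fin N) K) := fun j j' =>
    j.elim (j'.elim 0 fun j' => B none (some j') - B none none * C none j' -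
      ∑ l, C none l * Y' l j') fun j => j'.elim 0 fun j' => Y' j j' with hY
  have hBXY : B = X * addCol C (Pi.single none 1) + addCol C (Pi.single none 1) * Y := by
    ext1 i j
    rw [Matrix.add_apply, Matrix.mul_apply, Matrix.mul_apply, Fintype.sum_option,
      Fintype.sum_option]
    rcases i with _ | i
    · rcases j with _ | j
      · simp [hX, hY, addCol]
      · simp [hX, hY, addCol]
    · rcases j with _ | j
      · simp [hX, hY, addCol]
      · have h1 := congrFun (congrFun hXY i) j
        rw [Matrix.add_apply, Matrix.mul_apply, Matrix.mul_apply] at h1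
        simp only [hE, Matrix.of_apply, Matrix.submatrix_apply, id] at h1
        simp only [hX, hY, addCol, Option.elim_none, Option.elim_some]
        rw [Pi.single_eq_of_ne (by simp)]
        rw [zero_mul, zero_add]
        have h2 : B (some i) (some j) = B (some i) none * C none j +
          (B (some i) (some j) - B (some i) none * C none j) := by ring
        rw [h2, h1]
        ring
  exact ((h_hc K N (Option I) (Option J) (oext a β) (oext b β) _ hA).2.1) B X Y hB hBXY

end Pool.Agent.Lib.MP_09338f_ag
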