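import Pool.Agent.Lib.MP_09338f_ag.KM.Stm3

/-! Piece [KM tun]: unit step for `TP`, generic matrices. -/

set_option autoImplicit false

open MvPolynomial Matrix

universe u

namespace Pool.Agent.Lib.MP_09338f_ag

private theorem tun_one {N : ℕ} {K : Type u} [Field K] {d : ℤ} (hd : d = 0) :
    HomD d (1 : MvPolynomial (Fin N) K) := by
  classical
  intro m hm
  rw [mem_support_iff, coeff_one] at hm
  have h0 : m = 0 := by
    by_contra h
    rw [if_neg (fun h' => h h'.symm)] at hm
    exact hm rfl
  rw [h0, hd, map_zero]
  rfl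

private theorem tun_zero {N : ℕ} {K : Type u} [Field K] (d : ℤ) :
    HomD d (0 : MvPolynomial (Fin N) K) := by
  intro m hm
  simp at hm

private theorem tun_homM {I J : Type} [DecidableEq I] {N : ℕ} {K : Type u} [Field K]
    {a : J → ℤ} {b : I → ℤ} {β : ℤ} {C : Matrix (Option I) J (MvPolynomial (Fin N) K)}
    (hC : HomM a (oext b β) C) :
    HomM (oext a β) (oext b β) (addCol C (Pi.single none 1)) := by
  intro i j
  rcases j with _ | j
  · show HomD (β - oext b β i) ((Pi.single none 1 : Option I → MvPolynomial (Fin N) K) i)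
    rcases i with _ | i
    · rw [Pi.single_eq_same]
      exact tun_one (sub_self β)
    · rw [Pi.single_eq_of_ne (by simp)]
      exact tun_zero _
  · exact hC i j

private theorem tun_row {R : Type u} {I J : Type} (C : Matrix (Option I) J R) :
    addRow (C.submatrix some id) (C none) = C := by
  ext1 i j
  rcases i with _ | i <;> rfl

theorem p_tun (h_tub : S_tub.{u}) (h_spt : S_spt.{u}) (h_e1a : S_e1a.{u}) (h_e1u : S_e1u.{u})
    (h_gm : S_gm.{u}) (h_gs : S_gs.{u}) : S_tun.{u} := by
  intro N I J _ _ _ _ a b β hIJ hN hCD hT k K _ _ _ A hA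
  have hg : Gen k a (oext b β) (genMatrix k N a (oext b β)) := h_gm k (Option I) J N a (oext b β)
  set C := genMatrix k N a (oext b β) with hC
  have hg' : Gen k a b (C.submatrix some id) :=
    (h_gs k (GenField k N a (oext b β)) (Option I) J a (oext b β)).1 N C hg I J some id
      (Option.some_injective I) Function.injective_id
  have h1 : TP a b (C.submatrix some id) := hT k _ _ hg'
  have h2 : TP (oext a β) (oext b β) (addCol C (Pi.single none 1)) :=
    h_tub _ N I J a b β C hg.1 h1
  have h3 : Ex1 (C.submatrix some id) := h_e1a N I J a b hIJ hN hCD k _ _ hg'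
  have h4 : Ex1 (addCol C (Pi.single none 1)) := by
    have h5 := h_e1u _ I J (C.submatrix some id) (C none) h3
    rw [tun_row] at h5
    exact h5
  exact h_spt k _ K (Option I) (Option J) N (oext a β) (oext b β) _ A (tun_homM hg.1) h4 h2 hA

end Pool.Agent.Lib.MP_09338f_ag

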