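import Pool.Agent.Lib.MP_09338f_ag.KM.Stm2

/-!
# Project KM, piece unv: the universal matrix
-/

set_option autoImplicit false

open MvPolynomial Matrix

universe u

namespace Pool.Agent.Lib.MP_09338f_ag

open Classical in
/-- the universal matrix -/
private noncomputable def unv_U (k : Type u) [Field k] {I J : Type} (N : ℕ) (a : J → ℤ) (b : I → ℤ) :
    Matrix I J (MvPolynomial (Fin N) (MvPolynomial (Coef N a b) k)) := fun i j =>
  ∑ m ∈ Finset.univ.finsuppAntidiag (a j - b i).toNat,
    if h : ((m.degree : ℕ) : ℤ) = a j - b i then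
      monomial m (X ⟨(i, j, m), h⟩)
    else 0

private lemma unv_mem {N : ℕ} (d : ℤ) (m : Fin N →₀ ℕ) (h : ((m.degree : ℕ) : ℤ) = d) :
    m ∈ (Finset.univ : Finset (Fin N)).finsuppAntidiag d.toNat := by
  rw [Finset.mem_finsuppAntidiag]
  refine ⟨?_, Finset.subset_univ _⟩
  rw [← h, Int.toNat_natCast, Finsupp.degree_eq_sum]

open Classical in
private lemma unv_coeff (k : Type u) [Field k] {I J : Type} (N : ℕ) (a : J → ℤ) (b : I → ℤ) (i : I)
    (j : J) (m : Fin N →₀ ℕ) : (unv_U k N a b i j).coeff m =
      if h : ((m.degree : ℕ) : ℤ) = a j - b i then X ⟨(i, j, m), h⟩ else 0 := by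
  unfold unv_U
  rw [MvPolynomial.coeff_sum]
  rw [Finset.sum_eq_single m]
  · split_ifs with h
    · rw [MvPolynomial.coeff_monomial, if_pos rfl]
    · exact MvPolynomial.coeff_zero _
  · intro m' _ hne
    split_ifs with h
    · rw [MvPolynomial.coeff_monomial, if_neg hne]
    · exact MvPolynomial.coeff_zero _
  · intro hm
    split_ifs with h
    · exact absurd (unv_mem _ m h) hm
    · exact MvPolynomial.coeff_zero _

/-- [unv] the universal matrix over `k[u]`. -/
theorem p_unv : S_unv.{u} := by
  intro k _ I J _ _ _ _ N a b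
  classical
  refine ⟨unv_U k N a b, ?_, ?_⟩
  · intro i j m hm
    rw [MvPolynomial.mem_support_iff, unv_coeff] at hm
    by_contra h
    rw [dif_neg h] at hm
    exact hm rfl
  · intro K _ _ A hA
    refine ⟨aeval (fun p : Coef N a b => (A p.1.1 p.1.2.1).coeff p.1.2.2), ?_, ?_⟩
    · ext i j m
      rw [Matrix.map_apply, MvPolynomial.coeff_map, unv_coeff]
      split_ifs with h
      · exact aeval_X (fun p : Coef N a b => (A p.1.1 p.1.2.1).coeff p.1.2.2) (⟨(i, j, m), h⟩ : Coef N a b)
      · rw [map_zero]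
        by_contra hne
        exact h (hA i j m (MvPolynomial.mem_support_iff.2 (Ne.symm hne)))
    · intro hG
      exact hG.2

end Pool.Agent.Lib.MP_09338f_ag
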