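import Pool.Agent.Lib.MP_09338f_ag.KM.Stm5

/-!
# Project KM, piece [upp]: the upper bound for the transcendence degree
-/

set_option autoImplicit false

open MvPolynomial Matrix

universe u

namespace Pool.Agent.Lib.MP_09338f_ag

/-- maximal minors commute with ring homomorphisms -/
private theorem upp_mins {R S : Type u} [CommRing R] [CommRing S] (φ : R →+* S) {I J : Type}
    [Fintype I] [DecidableEq I] (A : Matrix I J R) : mins (A.map φ) = Ideal.map φ (mins A) := by
  unfold mins
  rw [Ideal.map_span]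
  congr 1
  ext x
  constructor
  · rintro ⟨e, rfl⟩
    exact ⟨(A.submatrix id e).det, ⟨e, rfl⟩, by rw [RingHom.map_det]; rfl⟩
  · rintro ⟨_, ⟨e, rfl⟩, rfl⟩
    exact ⟨e, by rw [RingHom.map_det]; rfl⟩

section rho

variable {I J : Type} {N : ℕ} {a : J → ℤ} {b : I → ℤ}

/-- the vector of the coefficients of a pair of square matrices -/
private noncomputable def upp_rho (L : Type u) [Field L] (a : J → ℤ) (b : I → ℤ) :
    (Matrix I I (MvPolynomial (Fin N) L) × Matrix J J (MvPolynomial (Fin N) L)) →ₗ[L]
      (HIdx N a b → L) where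
  toFun p := Sum.elim (fun q => (p.1 q.1.1 q.1.2.1).coeff q.1.2.2)
    (fun q => (p.2 q.1.1 q.1.2.1).coeff q.1.2.2)
  map_add' p q := by
    funext x
    rcases x with x | x
    · exact coeff_add _ _ _
    · exact coeff_add _ _ _
  map_smul' c p := by
    funext x
    rcases x with x | x
    · exact coeff_smul _ _ _
    · exact coeff_smul _ _ _

private theorem upp_rho_ext {L K' : Type u} [Field L] [Field K'] [Algebra L K']
    (p : Matrix I I (MvPolynomial (Fin N) L) × Matrix J J (MvPolynomial (Fin N) L)) :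
    upp_rho K' a b (extM (algebraMap L K') p.1, extM (algebraMap L K') p.2) =
      fun x => algebraMap L K' (upp_rho L a b p x) := by
  funext x
  rcases x with x | x
  · exact coeff_map _ _ _
  · exact coeff_map _ _ _

private theorem upp_mat {P Q : Type} {K : Type u} [Field K] (α : Q → ℤ) (β : P → ℤ)
    (M : Matrix P Q (MvPolynomial (Fin N) K)) (h : HomM α β M) : M ∈ matS N K α β := by
  intro i _ j _
  exact h i j

end rho

/-- extension of matrices is functorial -/
private theorem upp_ext_ext {P Q : Type} {N : ℕ} {K L K' : Type u} [Field K] [Field L] [Field K']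
    (σ : K →+* L) (τ : L →+* K') (A : Matrix P Q (MvPolynomial (Fin N) K)) :
    extM τ (extM σ A) = extM (τ.comp σ) A := by
  refine Matrix.ext fun i j => ?_
  exact MvPolynomial.map_map σ τ (A i j)

section core

variable {k K K' : Type u} [Field k] [Field K] [Field K'] [Algebra k K] [Algebra K K']
  [Algebra k K'] [IsScalarTower k K K'] {N : ℕ} {I J : Type} [Fintype I] [DecidableEq I]
  [Fintype J] [DecidableEq J]

omit [Field k] [Algebra k K] [Algebra k K'] [IsScalarTower k K K'] [Fintype I] [DecidableEq I]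
  [Fintype J] [DecidableEq J] in
private theorem upp_adj (L : IntermediateField K K') (a : J → ℤ) (b : I → ℤ)
    (g : Matrix I I (MvPolynomial (Fin N) K')) (g' : Matrix J J (MvPolynomial (Fin N) K'))
    (hg : HomM b b g) (hg' : HomM a a g')
    (hgen : IntermediateField.adjoin K ({x | ∃ i i' m, x = (g i i').coeff m} ∪
      {x | ∃ j j' m, x = (g' j j').coeff m}) = ⊤) :
    IntermediateField.adjoin L (Set.range (upp_rho K' a b (g, g'))) = ⊤ := by
  have key : ∀ x : K', x ∈ IntermediateField.adjoin L (Set.range (upp_rho K' a b (g, g'))) := by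
    have h1 : IntermediateField.adjoin K ({x | ∃ i i' m, x = (g i i').coeff m} ∪
        {x | ∃ j j' m, x = (g' j j').coeff m}) ≤
        (IntermediateField.adjoin L (Set.range (upp_rho K' a b (g, g')))).restrictScalars K := by
      rw [IntermediateField.adjoin_le_iff]
      rintro x (⟨i, i', m, rfl⟩ | ⟨j, j', m, rfl⟩)
      · show (g i i').coeff m ∈
          IntermediateField.adjoin L (Set.range (upp_rho K' a b (g, g')))
        by_cases hm : m ∈ (g i i').support
        · have hd := hg i i' m hm
          exact IntermediateField.subset_adjoin _ _ ⟨Sum.inl ⟨(i, i', m), hd⟩, rfl⟩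
        · rw [notMem_support_iff] at hm
          rw [hm]
          exact zero_mem _
      · show (g' j j').coeff m ∈
          IntermediateField.adjoin L (Set.range (upp_rho K' a b (g, g')))
        by_cases hm : m ∈ (g' j j').support
        · have hd := hg' j j' m hm
          exact IntermediateField.subset_adjoin _ _ ⟨Sum.inr ⟨(j, j', m), hd⟩, rfl⟩
        · rw [notMem_support_iff] at hm
          rw [hm]
          exact zero_mem _
    intro x
    rw [hgen] at h1
    exact h1 (IntermediateField.mem_top : x ∈ (⊤ : IntermediateField K K'))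
  exact eq_top_iff.2 fun x _ => key x

private theorem upp_core (h_fod : S_fod.{u}) (h_mnm : S_mnm.{u}) (h_bcs : S_bcs.{u})
    (h_cnj : S_cnj.{u}) (h_lfb : S_lfb.{u}) (h_tr4 : S_tr4.{u}) (h_mon : S_mon.{u})
    (a : J → ℤ) (b : I → ℤ) (A : Matrix I J (MvPolynomial (Fin N) K))
    (g₁ g₁' : Matrix I I (MvPolynomial (Fin N) K')) (g₂ g₂' : Matrix J J (MvPolynomial (Fin N) K'))
    (h1 : HomM b b g₁) (h1' : HomM b b g₁') (h2 : HomM a a g₂) (h2' : HomM a a g₂')
    (e1 : g₁ * g₁' = 1) (e1' : g₁' * g₁ = 1) (e2 : g₂ * g₂' = 1) (e2' : g₂' * g₂ = 1)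
    (σ : K →ₐ[k] K')
    (hσ : extM (σ : K →+* K') A = g₁ * extM (algebraMap K K') A * g₂) (n w nh : ℕ)
    (hn : Algebra.trdeg k K = n) (hw : Algebra.trdeg k (fieldOfDef k (mins A)) = w)
    (hgen : IntermediateField.adjoin K ({x | ∃ i i' m, x = (g₁ i i').coeff m} ∪
      {x | ∃ j j' m, x = (g₂' j j').coeff m}) = ⊤)
    (hnh : Algebra.trdeg K K' = nh) :
    nh + w ≤ n + Module.finrank K (stabS a b A A) := by
  -- `σ` is the identity on the field of definition
  have hσF : ∀ x ∈ fieldOfDef k (mins A), σ x = algebraMap K K' x := by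
    refine (h_fod k K N (mins A)).2 K' σ (IsScalarTower.toAlgHom k K K') ?_
    have m1 : mins (extM (σ : K →+* K') A) =
        Ideal.map (MvPolynomial.map (σ : K →+* K')) (mins A) := upp_mins _ A
    have m2 : mins (extM (algebraMap K K') A) =
        Ideal.map (MvPolynomial.map (algebraMap K K')) (mins A) := upp_mins _ A
    have m3 : mins (g₁ * extM (algebraMap K K') A * g₂) = mins (extM (algebraMap K K') A) :=
      h_mnm _ I J _ g₁ g₁' g₂ g₂' e1' e2
    rw [← m1, hσ, m3, m2]
    rfl
  have htr := h_tr4 k K K' (fieldOfDef k (mins A)) σ n w hn hw hσF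
  -- the field `L`
  obtain ⟨L, hL⟩ : ∃ L : IntermediateField K K', L = IntermediateField.adjoin K (Set.range σ) :=
    ⟨_, rfl⟩
  rw [← hL] at htr
  have hσL : ∀ x, (σ : K →+* K') x ∈ L := by
    intro x
    rw [hL]
    exact IntermediateField.subset_adjoin _ _ ⟨x, rfl⟩
  let σL : K →+* L := (σ : K →+* K').codRestrict L hσL
  have c1 : extM (algebraMap L K') (extM (algebraMap K L) A) = extM (algebraMap K K') A := by
    rw [upp_ext_ext, ← IsScalarTower.algebraMap_eq]
  have c2 : extM (algebraMap L K') (extM σL A) = g₁ * extM (algebraMap K K') A * g₂ := by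
    rw [upp_ext_ext, ← hσ]
    rfl
  obtain ⟨b1, b2⟩ := h_bcs L K' N I J a b (extM (algebraMap K L) A) (extM σL A)
  rw [c1, c2] at b1 b2
  have hmem : (g₁, g₂') ∈ stabS a b (extM (algebraMap K K') A)
      (g₁ * extM (algebraMap K K') A * g₂) := by
    refine ⟨⟨upp_mat _ _ _ h1, upp_mat _ _ _ h2'⟩, ?_⟩
    show g₁ * extM (algebraMap K K') A - g₁ * extM (algebraMap K K') A * g₂ * g₂' = 0
    rw [Matrix.mul_assoc _ g₂ g₂', e2, Matrix.mul_one, sub_self]
  rw [b2] at hmem
  -- finiteness
  have : Finite (Coef N b b) := (h_mon.2.2.2.1 N I I b b).1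
  have : Finite (Coef N a a) := (h_mon.2.2.2.1 N J J a a).1
  have hfin : Module.Finite L (stabS a b (extM (algebraMap K L) A) (extM σL A)) := by
    have f1 : Module.Finite L (matS N L b b) := (h_mon.2.2.1 N L I I b b).1
    have f2 : Module.Finite L (matS N L a a) := (h_mon.2.2.1 N L J J a a).1
    have f3 : ((matS N L b b).prod (matS N L a a)).FG :=
      (Module.Finite.iff_fg.1 f1).prod (Module.Finite.iff_fg.1 f2)
    have f4 : Module.Finite L ((matS N L b b).prod (matS N L a a) : Submodule L _) :=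
      Module.Finite.iff_fg.2 f3
    exact Submodule.finiteDimensional_of_le inf_le_left
  -- the linear fibre
  have hp : upp_rho K' a b (g₁, g₂') ∈ Submodule.span K'
      ((fun (v : HIdx N a b → L) (x : HIdx N a b) => algebraMap L K' (v x)) ''
        ((stabS a b (extM (algebraMap K L) A) (extM σL A)).map (upp_rho L a b) :
          Set (HIdx N a b → L))) := by
    have h3 := Submodule.mem_map_of_mem (f := upp_rho K' a b) hmem
    rw [Submodule.map_span] at h3
    refine Submodule.span_mono ?_ h3
    rintro _ ⟨_, ⟨p, hp, rfl⟩, rfl⟩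
    exact ⟨upp_rho L a b p, ⟨p, hp, rfl⟩, (upp_rho_ext p).symm⟩
  have hadj := upp_adj L a b g₁ g₂' h1 h2' hgen
  have hlf := h_lfb L K' (HIdx N a b) _ _ hp hadj
  have hle : Module.finrank L ((stabS a b (extM (algebraMap K L) A) (extM σL A)).map
      (upp_rho L a b)) ≤ Module.finrank K (stabS a b A A) := by
    refine (Submodule.finrank_map_le _ _).trans ?_
    rw [← b1, h_cnj K' N I J a b (extM (algebraMap K K') A) g₁ g₁' g₂ g₂' h1 h1' h2 h2' e1 e1' e2
      e2', (h_bcs K K' N I J a b A A).1]
  have hadd := _root_.trdeg_add_eq (R := K) (S := L) (A := K')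
  rw [hnh] at hadd
  have hfinal : (nh : Cardinal.{u}) + w ≤ n + (Module.finrank K (stabS a b A A) : ℕ) := by
    rw [← hadd, add_right_comm]
    refine add_le_add htr (hlf.trans ?_)
    exact_mod_cast hle
  exact_mod_cast hfinal

end core

/-- the transcendence degree of a field of rational functions -/
private theorem upp_trdeg (k : Type u) [Field k] (σ : Type) [Finite σ] :
    Algebra.trdeg k (FractionRing (MvPolynomial σ k)) = (Nat.card σ : ℕ) := by
  have : Algebra.IsAlgebraic (MvPolynomial σ k) (FractionRing (MvPolynomial σ k)) :=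
    (IsFractionRing.comap_isAlgebraic_iff (A := MvPolynomial σ k)
      (K := FractionRing (MvPolynomial σ k))).2 inferInstance
  have h1 := IsTranscendenceBasis.algebraMap_comp (A := FractionRing (MvPolynomial σ k))
    (IsTranscendenceBasis.mvPolynomial σ k)
  have h2 := h1.lift_cardinalMk_eq_trdeg
  rw [Cardinal.lift_id'.{0, u}] at h2
  have := Fintype.ofFinite σ
  rw [← h2, Nat.card_eq_fintype_card, Cardinal.mk_fintype, Cardinal.lift_natCast]

section gen

variable {I J : Type} {N : ℕ} {a : J → ℤ} {b : I → ℤ}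

/-- the coefficients of the generic matrix -/
private theorem upp_coeff (k : Type u) [Field k] (i : I) (j : J) (m : Fin N →₀ ℕ)
    (h : ((m.degree : ℕ) : ℤ) = a j - b i) :
    (genMatrix k N a b i j).coeff m =
      algebraMap (MvPolynomial (Coef N a b) k) (GenField k N a b) (X ⟨(i, j, m), h⟩) := by
  classical
  unfold genMatrix
  rw [coeff_sum, Finset.sum_eq_single m]
  · rw [dif_pos h, coeff_monomial, if_pos rfl]
  · intro m' _ hne
    by_cases h' : ((m'.degree : ℕ) : ℤ) = a j - b i
    · rw [dif_pos h', coeff_monomial, if_neg hne]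
    · rw [dif_neg h', coeff_zero]
  · intro hm
    exfalso
    apply hm
    rw [Finset.mem_finsuppAntidiag]
    refine ⟨?_, Finset.subset_univ _⟩
    rw [← Finsupp.degree_eq_sum, ← h, Int.toNat_natCast]

/-- specialisation of the generic matrix to another generic matrix -/
private theorem upp_sigma {k K' : Type u} [Field k] [Field K'] [Algebra k K']
    (hA : HomM a b (genMatrix k N a b)) (A'' : Matrix I J (MvPolynomial (Fin N) K'))
    (hG : Gen k a b A'') : ∃ σ : GenField k N a b →ₐ[k] K',
      extM (σ : GenField k N a b →+* K') (genMatrix k N a b) = A'' := by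
  have hinj : Function.Injective (aeval (R := k) fun p : Coef N a b =>
      (A'' p.1.1 p.1.2.1).coeff p.1.2.2) := hG.2
  refine ⟨IsFractionRing.liftAlgHom (K := GenField k N a b) hinj, ?_⟩
  ext i j m
  show coeff m (MvPolynomial.map _ (genMatrix k N a b i j)) = coeff m (A'' i j)
  rw [coeff_map]
  by_cases h : ((m.degree : ℕ) : ℤ) = a j - b i
  · rw [upp_coeff k i j m h]
    show IsFractionRing.liftAlgHom (K := GenField k N a b) hinj (algebraMap _ _ _) = _
    rw [IsFractionRing.liftAlgHom_apply, IsFractionRing.lift_algebraMap]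
    show aeval (R := k) (fun p : Coef N a b => (A'' p.1.1 p.1.2.1).coeff p.1.2.2)
      (X ⟨(i, j, m), h⟩) = _
    rw [aeval_X]
  · have z1 : coeff m (genMatrix k N a b i j) = 0 := by
      by_contra hc
      exact h (hA i j m (mem_support_iff.2 hc))
    have z2 : coeff m (A'' i j) = 0 := by
      by_contra hc
      exact h (hG.1 i j m (mem_support_iff.2 hc))
    rw [z1, z2, map_zero]

end gen

theorem p_upp (h_fod : S_fod.{u}) (h_hga : S_hga.{u}) (h_hgb : S_hgb.{u}) (h_hgc : S_hgc.{u})
    (h_mnm : S_mnm.{u}) (h_bcs : S_bcs.{u}) (h_cnj : S_cnj.{u}) (h_lfb : S_lfb.{u})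
    (h_tr4 : S_tr4.{u}) (h_gm : S_gm.{u}) (h_mon : S_mon.{u}) (_h_unv : S_unv.{u}) :
    S_upp.{u} := by
  intro k _ N I J _ _ _ _ a b w hw
  have hG := h_gm k I J N a b
  obtain ⟨h1, h2, ⟨g₁', h1', e1, e1'⟩, g₂', h2', e2, e2'⟩ := h_hga (GenField k N a b) N I J a b
  have hG'' := h_hgb k (GenField k N a b) N I J a b (genMatrix k N a b) hG
  obtain ⟨σ, hσ⟩ := upp_sigma hG.1 _ hG''
  have hfc : Finite (Coef N a b) := (h_mon.2.2.2.1 N I J a b).1
  obtain ⟨hgen, hnh⟩ := h_hgc (GenField k N a b) N I J a b
  have hf1 : Finite (Coef N b b) := (h_mon.2.2.2.1 N I I b b).1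
  have hf2 : Finite (Coef N a a) := (h_mon.2.2.2.1 N J J a a).1
  have key := upp_core h_fod h_mnm h_bcs h_cnj h_lfb h_tr4 h_mon a b (genMatrix k N a b)
    (hM1 (GenField k N a b) N a b) g₁' (hM2 (GenField k N a b) N a b) g₂' h1 h1' h2 h2' e1 e1' e2
    e2' σ hσ (Nat.card (Coef N a b)) w (Nat.card (HIdx N a b)) (upp_trdeg k (Coef N a b)) hw
    (hgen g₂' e2) hnh
  have hcard : Nat.card (HIdx N a b) =
      (∑ i, ∑ i', mon N (b i' - b i)) + (∑ j, ∑ j', mon N (a j' - a j)) := by
    rw [Nat.card_sum, (h_mon.2.2.2.1 N I I b b).2, (h_mon.2.2.2.1 N J J a a).2]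
  rw [hcard] at key
  exact key

end Pool.Agent.Lib.MP_09338f_ag
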