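import Mathlib
import Pool.Agent.Lib.MP_09338f_ag.KM.P_rel
import Pool.Agent.Lib.MP_09338f_ag.KM.P_reld
import Pool.Agent.Lib.MP_09338f_ag.KM.P_mim
import Pool.Agent.Lib.MP_09338f_ag.KM.P_nz
import Pool.Agent.Lib.MP_09338f_ag.KM.P_redk
import Pool.Agent.Lib.MP_09338f_ag.KM.P_hc
import Pool.Agent.Lib.MP_09338f_ag.KM.P_ann
import Pool.Agent.Lib.MP_09338f_ag.KM.P_annu
import Pool.Agent.Lib.MP_09338f_ag.KM.P_e1s
import Pool.Agent.Lib.MP_09338f_ag.KM.P_e1u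
import Pool.Agent.Lib.MP_09338f_ag.KM.P_r1s
import Pool.Agent.Lib.MP_09338f_ag.KM.P_r1u
import Pool.Agent.Lib.MP_09338f_ag.KM.P_r1q
import Pool.Agent.Lib.MP_09338f_ag.KM.P_hbs
import Pool.Agent.Lib.MP_09338f_ag.KM.P_hbu
import Pool.Agent.Lib.MP_09338f_ag.KM.P_tpb
import Pool.Agent.Lib.MP_09338f_ag.KM.P_tsa
import Pool.Agent.Lib.MP_09338f_ag.KM.P_tsc
import Pool.Agent.Lib.MP_09338f_ag.KM.P_tsd
import Pool.Agent.Lib.MP_09338f_ag.KM.P_tua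
import Pool.Agent.Lib.MP_09338f_ag.KM.P_tub
import Pool.Agent.Lib.MP_09338f_ag.KM.P_tpo
import Pool.Agent.Lib.MP_09338f_ag.KM.P_hps
import Pool.Agent.Lib.MP_09338f_ag.KM.P_hpu
import Pool.Agent.Lib.MP_09338f_ag.KM.P_hpo
import Pool.Agent.Lib.MP_09338f_ag.KM.P_hpd
import Pool.Agent.Lib.MP_09338f_ag.KM.P_t3s
import Pool.Agent.Lib.MP_09338f_ag.KM.P_rx
import Pool.Agent.Lib.MP_09338f_ag.KM.P_tps
import Pool.Agent.Lib.MP_09338f_ag.KM.P_sc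
import Pool.Agent.Lib.MP_09338f_ag.KM.P_ex
import Pool.Agent.Lib.MP_09338f_ag.KM.P_exg
import Pool.Agent.Lib.MP_09338f_ag.KM.P_unv
import Pool.Agent.Lib.MP_09338f_ag.KM.P_gm
import Pool.Agent.Lib.MP_09338f_ag.KM.P_gs
import Pool.Agent.Lib.MP_09338f_ag.KM.P_spe
import Pool.Agent.Lib.MP_09338f_ag.KM.P_sph
import Pool.Agent.Lib.MP_09338f_ag.KM.P_spr
import Pool.Agent.Lib.MP_09338f_ag.KM.P_spa
import Pool.Agent.Lib.MP_09338f_ag.KM.P_spt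
import Pool.Agent.Lib.MP_09338f_ag.KM.P_spp
import Pool.Agent.Lib.MP_09338f_ag.KM.P_re
import Pool.Agent.Lib.MP_09338f_ag.KM.P_rt
import Pool.Agent.Lib.MP_09338f_ag.KM.P_rh
import Pool.Agent.Lib.MP_09338f_ag.KM.P_cd
import Pool.Agent.Lib.MP_09338f_ag.KM.P_deg
import Pool.Agent.Lib.MP_09338f_ag.KM.P_hdg
import Pool.Agent.Lib.MP_09338f_ag.KM.P_ind
import Pool.Agent.Lib.MP_09338f_ag.KM.P_cnt
import Pool.Agent.Lib.MP_09338f_ag.KM.P_isc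
import Pool.Agent.Lib.MP_09338f_ag.KM.P_e1a
import Pool.Agent.Lib.MP_09338f_ag.KM.P_r1a
import Pool.Agent.Lib.MP_09338f_ag.KM.P_hba
import Pool.Agent.Lib.MP_09338f_ag.KM.P_ama
import Pool.Agent.Lib.MP_09338f_ag.KM.P_hst
import Pool.Agent.Lib.MP_09338f_ag.KM.P_hun
import Pool.Agent.Lib.MP_09338f_ag.KM.P_hlu
import Pool.Agent.Lib.MP_09338f_ag.KM.P_tst
import Pool.Agent.Lib.MP_09338f_ag.KM.P_tun
import Pool.Agent.Lib.MP_09338f_ag.KM.P_hpa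
import Pool.Agent.Lib.MP_09338f_ag.KM.P_hp2
import Pool.Agent.Lib.MP_09338f_ag.KM.P_hpb
import Pool.Agent.Lib.MP_09338f_ag.KM.P_hp3
import Pool.Agent.Lib.MP_09338f_ag.KM.P_hpc
import Pool.Agent.Lib.MP_09338f_ag.KM.P_tp2
import Pool.Agent.Lib.MP_09338f_ag.KM.P_g3
import Pool.Agent.Lib.MP_09338f_ag.KM.P_t3g
import Pool.Agent.Lib.MP_09338f_ag.KM.P_tp3
import Pool.Agent.Lib.MP_09338f_ag.KM.P_tpa
import Pool.Agent.Lib.MP_09338f_ag.KM.P_tpz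
import Pool.Agent.Lib.MP_09338f_ag.KM.P_ena
import Pool.Agent.Lib.MP_09338f_ag.KM.P_mon
import Pool.Agent.Lib.MP_09338f_ag.KM.P_rkn
import Pool.Agent.Lib.MP_09338f_ag.KM.P_stb
import Pool.Agent.Lib.MP_09338f_ag.KM.P_hfp
import Pool.Agent.Lib.MP_09338f_ag.KM.P_hfs
import Pool.Agent.Lib.MP_09338f_ag.KM.P_hfu
import Pool.Agent.Lib.MP_09338f_ag.KM.P_hns
import Pool.Agent.Lib.MP_09338f_ag.KM.P_hnu
import Pool.Agent.Lib.MP_09338f_ag.KM.P_hnr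
import Pool.Agent.Lib.MP_09338f_ag.KM.P_hfa
import Pool.Agent.Lib.MP_09338f_ag.KM.P_kz
import Pool.Agent.Lib.MP_09338f_ag.KM.P_kn
import Pool.Agent.Lib.MP_09338f_ag.KM.P_lid
import Pool.Agent.Lib.MP_09338f_ag.KM.P_fod
import Pool.Agent.Lib.MP_09338f_ag.KM.P_jac
import Pool.Agent.Lib.MP_09338f_ag.KM.P_der
import Pool.Agent.Lib.MP_09338f_ag.KM.P_cmp
import Pool.Agent.Lib.MP_09338f_ag.KM.P_low
import Pool.Agent.Lib.MP_09338f_ag.KM.P_mnm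
import Pool.Agent.Lib.MP_09338f_ag.KM.P_hga
import Pool.Agent.Lib.MP_09338f_ag.KM.P_hgb
import Pool.Agent.Lib.MP_09338f_ag.KM.P_hgc
import Pool.Agent.Lib.MP_09338f_ag.KM.P_bcs
import Pool.Agent.Lib.MP_09338f_ag.KM.P_cnj
import Pool.Agent.Lib.MP_09338f_ag.KM.P_lfb
import Pool.Agent.Lib.MP_09338f_ag.KM.P_tr4
import Pool.Agent.Lib.MP_09338f_ag.KM.P_upp
import Pool.Agent.Lib.MP_09338f_ag.KM.Fin3

/-!
# Project KM, final assembly, part 4: the pieces put together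
-/

set_option autoImplicit false

universe u

namespace Pool.Agent.Lib.MP_09338f_ag

theorem q_rel : S_rel.{u} := p_rel

theorem q_reld : S_reld.{u} := p_reld

theorem q_mim : S_mim.{u} := p_mim

theorem q_redk : S_redk.{u} := p_redk

theorem q_nz : S_nz.{u} := p_nz q_redk

theorem q_hc : S_hc.{u} := p_hc

theorem q_ann : S_ann.{u} := p_ann q_rel

theorem q_annu : S_annu.{u} := p_annu

theorem q_e1s : S_e1s.{u} := p_e1s q_rel q_redk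

theorem q_e1u : S_e1u.{u} := p_e1u q_rel

theorem q_r1s : S_r1s.{u} := p_r1s q_mim q_redk

theorem q_r1u : S_r1u.{u} := p_r1u

theorem q_r1q : S_r1q.{u} := p_r1q q_redk

theorem q_hbs : S_hbs.{u} := p_hbs q_redk

theorem q_hbu : S_hbu.{u} := p_hbu

theorem q_tpb : S_tpb.{u} := p_tpb q_hc

theorem q_tsa : S_tsa.{u} := p_tsa

theorem q_tsc : S_tsc.{u} := p_tsc

theorem q_tsd : S_tsd.{u} := p_tsd q_mim q_redk

theorem q_tua : S_tua.{u} := p_tua q_mim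

theorem q_tub : S_tub.{u} := p_tub q_tua q_hc

theorem q_tpo : S_tpo.{u} := p_tpo q_hc

theorem q_hps : S_hps.{u} := p_hps q_hc

theorem q_hpu : S_hpu.{u} := p_hpu q_hc q_reld

theorem q_hpo : S_hpo.{u} := p_hpo

theorem q_hpd : S_hpd.{u} := p_hpd

theorem q_t3s : S_t3s.{u} := p_t3s q_tsa q_tsc q_tua q_mim q_redk q_hc

theorem q_rx : S_rx.{u} := p_rx

theorem q_tps : S_tps.{u} := p_tps q_tsa q_tsc q_tsd q_mim q_redk q_hc

theorem q_sc : S_sc.{u} := p_sc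

theorem q_ex : S_ex.{u} := p_ex q_sc

theorem q_exg : S_exg.{u} := p_exg q_ex q_hc

theorem q_unv : S_unv.{u} := p_unv

theorem q_gm : S_gm.{u} := p_gm

theorem q_gs : S_gs.{u} := p_gs

theorem q_spe : S_spe.{u} := p_spe q_exg q_unv q_rel q_reld q_hc

theorem q_sph : S_sph.{u} := p_sph q_exg q_unv q_rel q_reld

theorem q_spr : S_spr.{u} := p_spr q_exg q_unv q_mim q_rel q_reld q_hc

theorem q_spa : S_spa.{u} := p_spa q_exg q_unv q_mim q_rel q_reld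

theorem q_spt : S_spt.{u} := p_spt q_exg q_unv q_mim q_rel q_reld q_hc

theorem q_spp : S_spp.{u} := p_spp q_exg q_unv q_rel q_reld q_hc

theorem q_re : S_re.{u} := p_re q_gs q_rx

theorem q_rt : S_rt.{u} := p_rt q_gs q_rx

theorem q_rh : S_rh.{u} := p_rh q_gs

theorem q_cd : S_cd := p_cd

theorem q_deg : S_deg := p_deg

theorem q_hdg : S_hdg.{u} := p_hdg q_reld

theorem q_ind : S_ind.{u} := p_ind

theorem q_cnt : S_cnt := p_cnt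

theorem q_isc : S_isc := p_isc q_cd

theorem q_e1a : S_e1a.{u} := p_e1a q_isc q_e1s q_e1u q_spe q_gm q_gs q_re q_rel

theorem q_r1a : S_r1a.{u} := p_r1a q_isc q_r1s q_r1u q_r1q q_spr q_e1a q_e1s q_e1u q_nz q_re q_gm q_gs q_rel

theorem q_hba : S_hba.{u} := p_hba q_isc q_hbs q_hbu q_sph q_e1a q_re q_gm q_gs q_rel

theorem q_ama : S_ama.{u} := p_ama q_spa q_ann q_e1a q_gm q_gs

theorem q_hst : S_hst.{u} := p_hst q_hps q_spp q_nz q_e1a q_e1s q_rx q_gm q_gs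

theorem q_hun : S_hun.{u} := p_hun q_hpu q_spp q_e1a q_e1u q_rx q_gm q_gs

theorem q_hlu : S_hlu.{u} := p_hlu q_hpu q_spp q_deg q_hdg q_ind q_cnt q_nz q_annu q_e1a q_e1s q_e1u q_cd q_rx q_gm q_gs

theorem q_tst : S_tst.{u} := p_tst q_tps q_spt q_nz q_ann q_e1a q_e1s q_r1a q_gm q_gs

theorem q_tun : S_tun.{u} := p_tun q_tub q_spt q_e1a q_e1u q_gm q_gs

theorem q_hpa : S_hpa.{u} := p_hpa q_hst q_hlu q_hpo q_cd q_rh

theorem q_hp2 : S_hp2.{u} := p_hp2 q_hpd q_spp q_ann q_e1a q_e1u q_rx q_gm q_gs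

theorem q_hpb : S_hpb.{u} := p_hpb q_hst q_hlu q_hp2 q_hpo q_cd q_rh

theorem q_hp3 : S_hp3.{u} := p_hp3 q_spp q_rh

theorem q_hpc : S_hpc.{u} := p_hpc q_hp3 q_hlu q_rh

theorem q_tp2 : S_tp2.{u} := p_tp2 q_tpb q_hba q_ama

theorem q_g3 : S_g3.{u} := p_g3 q_ex q_exg q_unv q_reld

theorem q_t3g : S_t3g.{u} := p_t3g q_t3s q_g3 q_spt q_nz q_e1a q_e1s q_e1u q_r1a q_ama q_gm q_gs

theorem q_tp3 : S_tp3.{u} := p_tp3 q_t3g q_tp2 q_rt

theorem q_tpa : S_tpa.{u} := p_tpa q_tst q_tun q_tpo q_tp2 q_hpa q_hpb q_cd q_rt q_rh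

theorem q_tpz : S_tpz.{u} := p_tpz q_tst q_tun q_tpo q_tp2 q_tp3 q_hpa q_hp2 q_hpc q_cd q_rt q_rh

theorem q_ena : S_ena.{u} := p_ena q_hpa q_hpo q_hun q_cd q_rh

theorem q_mon : S_mon.{u} := p_mon

theorem q_rkn : S_rkn.{u} := p_rkn q_mon

theorem q_stb : S_stb.{u} := p_stb q_hc q_mon

theorem q_hfp : S_hfp.{u} := p_hfp q_sc q_unv q_rel q_reld q_hc q_rkn q_mon

theorem q_hfs : S_hfs.{u} := p_hfs q_rel q_reld q_redk q_hc q_mon

theorem q_hfu : S_hfu.{u} := p_hfu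

theorem q_hns : S_hns := p_hns q_mon.{0}

theorem q_hnu : S_hnu := p_hnu

theorem q_hnr : S_hnr.{u} := p_hnr

theorem q_hfa : S_hfa.{u} := p_hfa q_isc q_hfp q_hfs q_hfu q_hns q_hnu q_hnr q_e1a q_e1s q_e1u q_gm q_gs q_mon q_rel

theorem q_kz : S_kz.{u} := p_kz q_rel q_reld q_ann q_hc

theorem q_kn : S_kn := p_kn q_mon.{0}

theorem q_lid : S_lid.{u} := p_lid

theorem q_fod : S_fod.{u} := p_fod q_lid

theorem q_jac : S_jac.{u} := p_jac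

theorem q_der : S_der.{u} := p_der q_jac

theorem q_cmp : S_cmp.{u} := p_cmp

theorem q_low : S_low.{u} := p_low q_der q_cmp q_mim q_mon

theorem q_mnm : S_mnm.{u} := p_mnm q_mim

theorem q_hga : S_hga.{u} := p_hga q_reld

theorem q_hgb : S_hgb.{u} := p_hgb

theorem q_hgc : S_hgc.{u} := p_hgc

theorem q_bcs : S_bcs.{u} := p_bcs

theorem q_cnj : S_cnj.{u} := p_cnj

theorem q_lfb : S_lfb.{u} := p_lfb

theorem q_tr4 : S_tr4.{u} := p_tr4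

theorem q_upp : S_upp.{u} := p_upp q_fod q_hga q_hgb q_hgc q_mnm q_bcs q_cnj q_lfb q_tr4 q_gm q_mon q_unv

end Pool.Agent.Lib.MP_09338f_ag
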