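import Mathlib
import Pool.Agent.Lib.MP_09338f_ag.KM.Defs

/-!
# MP_09338f_ag, project KM: the ideal of the generic determinantal scheme
-/

set_option autoImplicit false

universe u

namespace Pool.Agent.Lib.MP_09338f_ag

/-- The ideal of maximal minors of the generic homogeneous `t × (t + c - 1)` matrix whose `(i, j)`
entry is a form of degree `a_j - b_i` in `x_0, …, x_n` (`1 ≤ i ≤ t`, `0 ≤ j ≤ t + c - 2`), all the
coefficients being different indeterminates over `k`. -/
noncomputable def genIdeal (k : Type u) [Field k] (n t c : ℕ) (a b : ℕ → ℤ) :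
    Ideal (MvPolynomial (Fin (n + 1)) (GenField k (n + 1) (fun j : Fin (t + c - 1) => a j)
      (fun i : Fin t => b (i + 1)))) :=
  mins (genMatrix k (n + 1) (fun j : Fin (t + c - 1) => a j) (fun i : Fin t => b (i + 1)))

end Pool.Agent.Lib.MP_09338f_ag
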