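import Mathlib
import Pool.Agent.Lib.MP_09338f_ag.KM.Goal
import Pool.Agent.Lib.MP_09338f_ag.KM.Fin4

/-!
# Project KM, final assembly, part 5: the theorem
-/

set_option autoImplicit false

open MvPolynomial

universe u

namespace Pool.Agent.Lib.MP_09338f_ag

/-- `x_0` is not a zero divisor modulo the ideal of the generic determinantal scheme. -/
theorem fin_sat (k : Type u) [Field k] (n t c : ℕ) (a b : ℕ → ℤ)
    (ht : 1 ≤ t) (hc : 2 ≤ c) (hn : c ≤ n)
    (ha : ∀ i j, i ≤ j → j ≤ t + c - 2 → a i ≤ a j)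
    (h1 : ∀ i, 1 ≤ i → i ≤ t → b i ≤ a (i - 1)) :
    ∀ f, X 0 * f ∈ genIdeal k n t c a b → f ∈ genIdeal k n t c a b := by
  classical
  have hcd1 : CD1 (fun j : Fin (t + c - 1) => a j) (fun i : Fin t => b (i + 1)) :=
    fin_cd1 (fun i j hij hj => ha i j hij (by omega)) h1
  have hg : Gen k (fun j : Fin (t + c - 1) => a j) (fun i : Fin t => b (i + 1))
      (genMatrix k (n + 1) (fun j : Fin (t + c - 1) => a j) (fun i : Fin t => b (i + 1))) :=
    q_gm k (Fin t) (Fin (t + c - 1)) (n + 1) _ _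
  have hAM := q_ama (n + 1) (Fin t) (Fin (t + c - 1)) _ _ (by simp; omega)
    (by simp; omega) hcd1 k _ _ hg
  have hEx := q_e1a n (Fin t) (Fin (t + c - 1)) _ _ (by simp; omega)
    (by simp; omega) hcd1 k _ _ ((q_gs k _ (Fin t) (Fin (t + c - 1)) _ _).2 n _ hg)
  have hnz := q_nz _ n (Fin t) (Fin (t + c - 1)) _ hEx
  intro f hf
  refine hAM f fun i => hnz _ ?_
  have h3 := (q_mim _ (Fin t) (Fin (t + c - 1)) (genMatrix k (n + 1)
    (fun j : Fin (t + c - 1) => a j) (fun i : Fin t => b (i + 1)))).1 _ hf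
    (Pi.single i 1)
  have h4 : (X 0 * f) • (Pi.single i 1 : Fin t → MvPolynomial (Fin (n + 1))
      (GenField k (n + 1) (fun j : Fin (t + c - 1) => a j) (fun i : Fin t => b (i + 1)))) =
      (X 0 : MvPolynomial (Fin (n + 1)) (GenField k (n + 1) (fun j : Fin (t + c - 1) => a j)
        (fun i : Fin t => b (i + 1)))) • Pi.single i f := by
    funext j
    by_cases h : j = i
    · subst h; simp
    · simp [h]
  rw [← h4]
  exact h3

/-- The theorem. -/
theorem fin_all (k : Type u) [Field k] [IsAlgClosed k] (n t c : ℕ) (a b : ℕ → ℤ)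
    (ht : 1 ≤ t) (hc : 2 ≤ c) (hn : c ≤ n)
    (ha : ∀ i j, i ≤ j → j ≤ t + c - 2 → a i ≤ a j)
    (hb : ∀ i j, 1 ≤ i → i ≤ j → j ≤ t → b i ≤ b j)
    (hne : (∀ i, 1 ≤ i → i ≤ t → b i ≤ a (i - 1)) ∧ ∃ i, 1 ≤ i ∧ i ≤ t ∧ b i < a (i - 1))
    (hyp : (∀ i, min (c / 2 + 1) t ≤ i → i ≤ t →
        (c < n → b i ≤ a (i - min (c / 2 + 1) t)) ∧
        (n = c → b i < a (i - min (c / 2 + 1) t))) ∨
      ((∀ i, 2 ≤ i → i ≤ t → (c < n → b i ≤ a (i - 2)) ∧ (n = c → b i < a (i - 2))) ∧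
        (n = c → b 1 < a 0)))
    (hex : ¬ (t = 2 ∧ n = c ∧ 3 ≤ c ∧ b 1 = b 2 ∧ ∀ j ≤ t + c - 2, a j = b 1 + 1)) :
    (∀ f, X 0 * f ∈ genIdeal k n t c a b → f ∈ genIdeal k n t c a b) ∧
    DefinedOver (genIdeal k n t c a b) (fieldOfDef k (genIdeal k n t c a b)) ∧
    ∃ d : ℕ, Algebra.trdeg k (fieldOfDef k (genIdeal k n t c a b)) = d ∧
      (d : ℤ) = lam n t c a b + ∑ i ∈ Finset.range (c - 2), KNum n t a b i := by
  refine ⟨fin_sat k n t c a b ht hc hn ha hne.1, ?_⟩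
  have hw : (∀ i, 2 ≤ i → i ≤ t → (c < n → b i ≤ a (i - 2)) ∧ (n = c → b i < a (i - 2))) ∧
      (n = c → b 1 < a 0) := by
    rcases hyp with hmu | hw
    · refine ⟨fun i hi hit => ?_, fun hnc => ?_⟩
      · by_cases hmi : min (c / 2 + 1) t ≤ i
        · have h3 := hmu i hmi hit
          have h4 := ha (i - min (c / 2 + 1) t) (i - 2) (by omega) (by omega)
          exact ⟨fun h => (h3.1 h).trans h4, fun h => (h3.2 h).trans_le h4⟩
        · have h3 := hmu (min (c / 2 + 1) t) le_rfl (min_le_right _ _)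
          have h4 := hb i (min (c / 2 + 1) t) (by omega) (by omega) (min_le_right _ _)
          have h5 := ha (min (c / 2 + 1) t - min (c / 2 + 1) t) (i - 2) (by omega) (by omega)
          exact ⟨fun h => h4.trans ((h3.1 h).trans h5),
            fun h => lt_of_le_of_lt h4 ((h3.2 h).trans_le h5)⟩
      · have h3 := (hmu (min (c / 2 + 1) t) le_rfl (min_le_right _ _)).2 hnc
        have h4 := hb 1 (min (c / 2 + 1) t) le_rfl (by omega) (min_le_right _ _)
        rw [Nat.sub_self] at h3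
        exact lt_of_le_of_lt h4 h3
    · exact hw
  exact fin_main q_gm q_gs q_e1a q_rx q_reld q_ama q_ena q_tpa q_tpz q_mon q_rkn q_stb q_hnr q_hfa
    q_kz q_kn q_fod q_low q_upp k n t c a b ht hc hn ha hne hw.1 hw.2 hex

end Pool.Agent.Lib.MP_09338f_ag
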