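import Mathlib
import Pool.Agent.Lib.MP_09338f_ag.KM.Defs2

/-!
# MP_09338f_ag, project KM: the dimension of the family `W(b; a)`

Everything is over a field `k` (algebraically closed in the theorem).  The rows of the matrices have
the degrees `b_1, …, b_t`, the columns the degrees `a_0, …, a_(t+c-2)`, and the `(i, j)` entry is a
form of degree `a_j - b_i` in `x_0, …, x_n`.
-/

set_option autoImplicit false

open MvPolynomial

universe u

namespace Pool.Agent.Lib.MP_09338f_ag

/-- The degrees are sorted: `a_0 ≤ … ≤ a_(t+c-2)` and `b_1 ≤ … ≤ b_t`. -/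
def SortedDeg (t c : ℕ) (a b : ℕ → ℤ) : Prop :=
  (∀ i j, i ≤ j → j ≤ t + c - 2 → a i ≤ a j) ∧ ∀ i j, 1 ≤ i → i ≤ j → j ≤ t → b i ≤ b j

/-- `W(b; a)` is not empty: `a_(i-1) ≥ b_i` for `1 ≤ i ≤ t`, and `a_(i-1) > b_i` for some `i`. -/
def NonemptyW (t : ℕ) (a b : ℕ → ℤ) : Prop :=
  (∀ i, 1 ≤ i → i ≤ t → b i ≤ a (i - 1)) ∧ ∃ i, 1 ≤ i ∧ i ≤ t ∧ b i < a (i - 1)

/-- `a_(i-μ) ≥ b_i` for `μ ≤ i ≤ t` if `n > c`, and `a_(i-μ) > b_i` for `μ ≤ i ≤ t` if `n = c`. -/
def Gap (n t c μ : ℕ) (a b : ℕ → ℤ) : Prop :=
  ∀ i, μ ≤ i → i ≤ t → (c < n → b i ≤ a (i - μ)) ∧ (n = c → b i < a (i - μ))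

/-- For an ideal `P` of `K[x_0, …, x_N]`, where `K` is an extension of `k`: `x_0` is a nonzerodivisor
modulo `P` (so the homogeneous ideal `P` is saturated), and among the fields `k ⊆ F ⊆ K` over which
`P` is defined there is a smallest one; it has the transcendence degree `d` over `k`. -/
def ModDim (k : Type u) {K : Type u} [Field k] [Field K] [Algebra k K] {N : ℕ}
    (P : Ideal (MvPolynomial (Fin (N + 1)) K)) (d : ℤ) : Prop :=
  (∀ f, X 0 * f ∈ P → f ∈ P) ∧
    ∃ F : IntermediateField k K, IsLeast {F | DefinedOver P F} F ∧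
      ∃ e : ℕ, Algebra.trdeg k F = e ∧ (e : ℤ) = d

/-- The dimension of `W(b; a)` is `d`: generic matrices `A` (homogeneous of the degrees
`a_j - b_i`, all coefficients algebraically independent over `k`) exist over suitable extensions
`K ⊇ k`, and for all of them the ideal `mins A` of the maximal minors is saturated and its field of
definition has the transcendence degree `d` over `k`.

Reason for this definition: `W(b; a)` is the image in the Hilbert scheme of an open subset of the
affine space of all these matrices.  So the closure of `W(b; a)` is irreducible, its generic point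
is the image of a generic matrix, that is, the point given by the subscheme of `ℙⁿ` over `K` with
the saturated ideal `mins A`; its residue field is the smallest field over which this subscheme
(equivalently, its saturated ideal) is defined; the dimension is the transcendence degree. -/
def DimW (k : Type u) [Field k] (n t c : ℕ) (a b : ℕ → ℤ) (d : ℤ) : Prop :=
  (∃ (K : Type u) (_ : Field K) (_ : Algebra k K)
    (A : Matrix (Fin t) (Fin (t + c - 1)) (MvPolynomial (Fin (n + 1)) K)),
    Gen k (fun j : Fin (t + c - 1) => a j) (fun i : Fin t => b (i + 1)) A) ∧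
  ∀ (K : Type u) [Field K] [Algebra k K]
    (A : Matrix (Fin t) (Fin (t + c - 1)) (MvPolynomial (Fin (n + 1)) K)),
    Gen k (fun j : Fin (t + c - 1) => a j) (fun i : Fin t => b (i + 1)) A → ModDim k (mins A) d

end Pool.Agent.Lib.MP_09338f_ag
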