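import Mathlib
import Pool.Agent.Lib.MP_09338f_ag.KM.Goal2
import Pool.Agent.Lib.MP_09338f_ag.KM.Fin5

/-!
# Project KM, final assembly, part 6: all generic matrices
-/

set_option autoImplicit false

open MvPolynomial

universe u

namespace Pool.Agent.Lib.MP_09338f_ag

/-- coordinates with respect to the monomials -/
private noncomputable def fx_e (N : ℕ) (K : Type u) [Field K] :
    MvPolynomial (Fin N) K ≃ₗ[K] ((Fin N →₀ ℕ) →₀ K) := (basisMonomials (Fin N) K).repr

private theorem fx_e_apply {N : ℕ} {K : Type u} [Field K] (p : MvPolynomial (Fin N) K)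
    (m : Fin N →₀ ℕ) : fx_e N K p m = p.coeff m := rfl

private theorem fx_e_map {N : ℕ} {K K' : Type u} [Field K] [Field K'] (σ : K →+* K')
    (p : MvPolynomial (Fin N) K) :
    fx_e N K' (MvPolynomial.map σ p) = (fx_e N K p).mapRange σ (map_zero σ) := by
  ext m
  rw [Finsupp.mapRange_apply, fx_e_apply, fx_e_apply, coeff_map]

/-- a set of polynomials closed under multiplication by monomials: the ideal is the span -/
private theorem fx_span {N : ℕ} {K : Type u} [Field K] (T : Set (MvPolynomial (Fin N) K))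
    (hT : ∀ (m : Fin N →₀ ℕ), ∀ f ∈ T, monomial m 1 * f ∈ T) (g : MvPolynomial (Fin N) K)
    (hg : g ∈ Ideal.span T) : g ∈ Submodule.span K T := by
  have hmon : ∀ (m : Fin N →₀ ℕ), ∀ x ∈ Submodule.span K T, monomial m 1 * x ∈ Submodule.span K T := by
    intro m x hx
    induction hx using Submodule.span_induction with
    | mem x hx => exact Submodule.subset_span (hT m x hx)
    | zero => rw [mul_zero]; exact Submodule.zero_mem _
    | add x y _ _ hx hy => rw [mul_add]; exact Submodule.add_mem _ hx hy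
    | smul a x _ hx => rw [mul_smul_comm]; exact Submodule.smul_mem _ a hx
  have hmul : ∀ a : MvPolynomial (Fin N) K, ∀ x ∈ Submodule.span K T, a * x ∈ Submodule.span K T := by
    intro a x hx
    induction a using MvPolynomial.induction_on' with
    | monomial m c =>
      have : monomial m c * x = c • (monomial m 1 * x) := by
        rw [← smul_mul_assoc, MvPolynomial.smul_monomial, smul_eq_mul, mul_one]
      rw [this]
      exact Submodule.smul_mem _ c (hmon m x hx)
    | add p q hp hq => rw [add_mul]; exact Submodule.add_mem _ hp hq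
  induction hg using Submodule.span_induction with
  | mem x hx => exact Submodule.subset_span hx
  | zero => exact Submodule.zero_mem _
  | add x y _ _ hx hy => exact Submodule.add_mem _ hx hy
  | smul a x _ hx => exact hmul a x hx

/-- the contraction of an extended ideal -/
private theorem fx_contr {K K' : Type u} [Field K] [Field K'] (σ : K →+* K')
    {N : ℕ} (J : Ideal (MvPolynomial (Fin N) K)) (f : MvPolynomial (Fin N) K)
    (hf : MvPolynomial.map σ f ∈ Ideal.map (MvPolynomial.map σ) J) : f ∈ J := by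
  by_contra hfJ
  set P : Submodule K ((Fin N →₀ ℕ) →₀ K) :=
    (J.restrictScalars K).map (fx_e N K).toLinearMap with hP
  have key := q_lid K K' σ (Fin N →₀ ℕ) Unit P (fun _ => fx_e N K f) (fun d hd => ?_)
    (Finsupp.single () 1) ?_
  · have h1 := DFunLike.congr_fun key ()
    rw [Finsupp.single_eq_same] at h1
    exact one_ne_zero h1
  · by_contra hd0
    apply hfJ
    have hd1 : d () ≠ 0 := by
      intro h
      exact hd0 (Finsupp.ext fun _ => h)
    have hd2 : (d.sum fun _ x => x • fx_e N K f) = d () • fx_e N K f := by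
      rw [Finsupp.sum_fintype d _ (fun i => by simp)]
      simp
    rw [hd2, ← map_smul, hP, Submodule.mem_map] at hd
    obtain ⟨y, hy, hye⟩ := hd
    have h3 : y = d () • f := (fx_e N K).injective hye
    have h4 : d () • f ∈ J := by rw [← h3]; exact hy
    have h5 : f = C (d ())⁻¹ * (d () • f) := by
      rw [← MvPolynomial.smul_eq_C_mul, smul_smul, inv_mul_cancel₀ hd1, one_smul]
    rw [h5]
    exact J.mul_mem_left _ h4
  · rw [Finsupp.sum_single_index (by simp), one_smul, ← fx_e_map]
    have h1 := fx_span ((MvPolynomial.map σ) '' (J : Set (MvPolynomial (Fin N) K)))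
      (by
        rintro m _ ⟨f, hf, rfl⟩
        refine ⟨monomial m 1 * f, J.mul_mem_left _ hf, ?_⟩
        rw [map_mul, map_monomial, map_one]) _ hf
    have h2 : fx_e N K' (MvPolynomial.map σ f) ∈
        (Submodule.span K' ((MvPolynomial.map σ) '' (J : Set (MvPolynomial (Fin N) K)))).map
          (fx_e N K').toLinearMap := Submodule.mem_map_of_mem h1
    rw [Submodule.map_span] at h2
    refine Submodule.span_mono ?_ h2
    rintro _ ⟨_, ⟨f, hf, rfl⟩, rfl⟩
    refine ⟨fx_e N K f, Submodule.mem_map_of_mem hf, ?_⟩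
    exact (fx_e_map σ f).symm

/-- maximal minors commute with ring homomorphisms -/
private theorem fx_mins {R S : Type u} [CommRing R] [CommRing S] (φ : R →+* S) {I J : Type}
    [Fintype I] [DecidableEq I] (A : Matrix I J R) : mins (A.map φ) = Ideal.map φ (mins A) := by
  unfold mins
  rw [Ideal.map_span]
  congr 1
  ext x
  constructor
  · rintro ⟨e, rfl⟩
    exact ⟨(A.submatrix id e).det, ⟨e, rfl⟩, by rw [RingHom.map_det]; rfl⟩
  · rintro ⟨_, ⟨e, rfl⟩, rfl⟩
    exact ⟨e, by rw [RingHom.map_det]; rfl⟩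

/-- the field of definition is the smallest field over which the ideal is defined -/
theorem fx_least (k K : Type u) [Field k] [Field K] [Algebra k K] (N : ℕ)
    (P : Ideal (MvPolynomial (Fin N) K)) :
    IsLeast {F : IntermediateField k K | DefinedOver P F} (fieldOfDef k P) :=
  ⟨(q_fod k K N P).1, fun _ hF => sInf_le hF⟩

/-- transport of the field of definition -/
theorem fx_map (k K K' : Type u) [Field k] [Field K] [Field K'] [Algebra k K] [Algebra k K'] (N : ℕ)
    (σ : K →ₐ[k] K') (P : Ideal (MvPolynomial (Fin N) K)) :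
    fieldOfDef k (Ideal.map (MvPolynomial.map (σ : K →+* K')) P) = (fieldOfDef k P).map σ := by
  set P' := Ideal.map (MvPolynomial.map (σ : K →+* K')) P with hP'
  obtain ⟨h0, h0'⟩ := fx_least k K N P
  obtain ⟨h1, h1'⟩ := fx_least k K' N P'
  have hle : fieldOfDef k P' ≤ (fieldOfDef k P).map σ := by
    apply h1'
    show DefinedOver P' _
    apply le_antisymm
    · rw [hP', Ideal.map_le_iff_le_comap]
      intro f hf
      have h0s : P = Ideal.span {f | f ∈ P ∧ ∀ m, f.coeff m ∈ fieldOfDef k P} := h0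
      rw [h0s] at hf
      refine Ideal.span_le.mpr ?_ hf
      rintro g ⟨hg, hgF⟩
      refine Ideal.subset_span ⟨Ideal.mem_map_of_mem _ hg, fun m => ?_⟩
      rw [coeff_map]
      exact ⟨g.coeff m, hgF m, rfl⟩
    · rw [Ideal.span_le]
      exact fun f hf => hf.1
  apply le_antisymm hle
  have hge : fieldOfDef k P ≤ (fieldOfDef k P').comap σ := by
    apply h0'
    show DefinedOver P _
    apply le_antisymm
    · intro f hf
      apply fx_contr (σ : K →+* K')
      have h2 : MvPolynomial.map (σ : K →+* K') f ∈ P' := Ideal.mem_map_of_mem _ hf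
      have h1s : P' = Ideal.span {f | f ∈ P' ∧ ∀ m, f.coeff m ∈ fieldOfDef k P'} := h1
      rw [h1s] at h2
      refine Ideal.span_le.mpr ?_ h2
      rintro g ⟨hg, hgF⟩
      obtain ⟨g', rfl⟩ : g ∈ Set.range (MvPolynomial.map (σ : K →+* K')) := by
        rw [mem_range_map_iff_coeffs_subset]
        intro x hx
        rw [Finset.mem_coe, mem_coeffs_iff] at hx
        obtain ⟨n, -, rfl⟩ := hx
        obtain ⟨y, -, hy⟩ := hle (hgF n)
        exact ⟨y, hy⟩
      refine Ideal.mem_map_of_mem _ (Ideal.subset_span ⟨fx_contr _ _ _ hg, fun m => ?_⟩)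
      have h3 := hgF m
      rw [coeff_map] at h3
      exact h3
    · rw [Ideal.span_le]
      exact fun f hf => hf.1
  rintro _ ⟨x, hx, rfl⟩
  exact hge hx

section gen

variable {I J : Type} {N : ℕ} {a : J → ℤ} {b : I → ℤ}

/-- the coefficients of the generic matrix -/
private theorem fx_coeff (k : Type u) [Field k] (i : I) (j : J) (m : Fin N →₀ ℕ)
    (h : ((m.degree : ℕ) : ℤ) = a j - b i) :
    (genMatrix k N a b i j).coeff m =
      algebraMap (MvPolynomial (Coef N a b) k) (GenField k N a b) (X ⟨(i, j, m), h⟩) := by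
  classical
  unfold genMatrix
  rw [coeff_sum, Finset.sum_eq_single m]
  · rw [dif_pos h, coeff_monomial, if_pos rfl]
  · intro m' _ hne
    by_cases h' : ((m'.degree : ℕ) : ℤ) = a j - b i
    · rw [dif_pos h', coeff_monomial, if_neg hne]
    · rw [dif_neg h', coeff_zero]
  · intro hm
    exfalso
    apply hm
    rw [Finset.mem_finsuppAntidiag]
    refine ⟨?_, Finset.subset_univ _⟩
    rw [← Finsupp.degree_eq_sum, ← h, Int.toNat_natCast]

/-- every generic matrix is the image of the matrix `genMatrix` -/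
theorem fx_sigma {k K' : Type u} [Field k] [Field K'] [Algebra k K']
    (A : Matrix I J (MvPolynomial (Fin N) K')) (hG : Gen k a b A) :
    ∃ σ : GenField k N a b →ₐ[k] K',
      (genMatrix k N a b).map (MvPolynomial.map (σ : GenField k N a b →+* K')) = A := by
  have hA : HomM a b (genMatrix k N a b) := (q_gm k I J N a b).1
  have hinj : Function.Injective (aeval (R := k) fun p : Coef N a b =>
      (A p.1.1 p.1.2.1).coeff p.1.2.2) := hG.2
  refine ⟨IsFractionRing.liftAlgHom (K := GenField k N a b) hinj, ?_⟩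
  ext i j m
  show coeff m (MvPolynomial.map _ (genMatrix k N a b i j)) = coeff m (A i j)
  rw [coeff_map]
  by_cases h : ((m.degree : ℕ) : ℤ) = a j - b i
  · rw [fx_coeff k i j m h]
    show IsFractionRing.liftAlgHom (K := GenField k N a b) hinj (algebraMap _ _ _) = _
    rw [IsFractionRing.liftAlgHom_apply, IsFractionRing.lift_algebraMap]
    show aeval (R := k) (fun p : Coef N a b => (A p.1.1 p.1.2.1).coeff p.1.2.2)
      (X ⟨(i, j, m), h⟩) = _
    rw [aeval_X]
  · have z1 : coeff m (genMatrix k N a b i j) = 0 := by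
      by_contra hc
      exact h (hA i j m (mem_support_iff.2 hc))
    have z2 : coeff m (A i j) = 0 := by
      by_contra hc
      exact h (hG.1 i j m (mem_support_iff.2 hc))
    rw [z1, z2, map_zero]

end gen

/-- `x_0` is not a zero divisor modulo the ideal of a generic determinantal scheme. -/
theorem fx_sat (k K : Type u) [Field k] [Field K] [Algebra k K] (n t c : ℕ) (a b : ℕ → ℤ)
    (ht : 1 ≤ t) (hc : 2 ≤ c) (hn : c ≤ n)
    (ha : ∀ i j, i ≤ j → j ≤ t + c - 2 → a i ≤ a j)
    (h1 : ∀ i, 1 ≤ i → i ≤ t → b i ≤ a (i - 1))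
    (A : Matrix (Fin t) (Fin (t + c - 1)) (MvPolynomial (Fin (n + 1)) K))
    (hg : Gen k (fun j : Fin (t + c - 1) => a j) (fun i : Fin t => b (i + 1)) A) :
    ∀ f, X 0 * f ∈ mins A → f ∈ mins A := by
  classical
  have hcd1 : CD1 (fun j : Fin (t + c - 1) => a j) (fun i : Fin t => b (i + 1)) :=
    fin_cd1 (fun i j hij hj => ha i j hij (by omega)) h1
  have hAM := q_ama (n + 1) (Fin t) (Fin (t + c - 1)) _ _ (by simp; omega)
    (by simp; omega) hcd1 k _ _ hg
  have hEx := q_e1a n (Fin t) (Fin (t + c - 1)) _ _ (by simp; omega)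
    (by simp; omega) hcd1 k _ _ ((q_gs k _ (Fin t) (Fin (t + c - 1)) _ _).2 n _ hg)
  have hnz := q_nz _ n (Fin t) (Fin (t + c - 1)) _ hEx
  intro f hf
  refine hAM f fun i => hnz _ ?_
  have h3 := (q_mim _ (Fin t) (Fin (t + c - 1)) A).1 _ hf (Pi.single i 1)
  have h4 : (X 0 * f) • (Pi.single i 1 : Fin t → MvPolynomial (Fin (n + 1)) K) =
      (X 0 : MvPolynomial (Fin (n + 1)) K) • Pi.single i f := by
    funext j
    by_cases h : j = i
    · subst h; simp
    · simp [h]
  rw [← h4]
  exact h3

/-- The theorem. -/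
theorem fx_all (k : Type u) [Field k] [IsAlgClosed k] (n t c : ℕ) (a b : ℕ → ℤ)
    (ht : 1 ≤ t) (hc : 2 ≤ c) (hn : c ≤ n) (hs : SortedDeg t c a b) (hne : NonemptyW t a b)
    (hyp : Gap n t c (min (c / 2 + 1) t) a b ∨ (Gap n t c 2 a b ∧ (n = c → b 1 < a 0)))
    (hex : ¬ (t = 2 ∧ n = c ∧ 3 ≤ c ∧ b 1 = b 2 ∧ ∀ j ≤ t + c - 2, a j = b 1 + 1)) :
    DimW k n t c a b (lam n t c a b + ∑ i ∈ Finset.range (c - 2), KNum n t a b i) := by
  refine ⟨⟨GenField k (n + 1) (fun j : Fin (t + c - 1) => a j) (fun i : Fin t => b (i + 1)),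
    inferInstance, inferInstance, genMatrix k (n + 1) _ _,
    q_gm k (Fin t) (Fin (t + c - 1)) (n + 1) _ _⟩, ?_⟩
  intro K _ _ A hA
  refine ⟨fx_sat k K n t c a b ht hc hn hs.1 hne.1 A hA, fieldOfDef k (mins A),
    fx_least k K (n + 1) (mins A), ?_⟩
  obtain ⟨σ, hσ⟩ := fx_sigma A hA
  obtain ⟨-, -, d, hd, hd'⟩ := fin_all k n t c a b ht hc hn hs.1 hs.2 hne hyp hex
  refine ⟨d, ?_, hd'⟩
  rw [← hd, ← hσ, fx_mins, fx_map]
  exact (((fieldOfDef k (genIdeal k n t c a b)).equivMap σ).trdeg_eq).symm

end Pool.Agent.Lib.MP_09338f_ag
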