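import Mathlib

/-!
# MP_09338f_ag: the definitions for the theorem on the dimension of `W(b; a)`

Everything is over a field `k` (algebraically closed in the theorem).  The matrices have `t` rows
with the degrees `b_1, …, b_t` (the row `i : Fin t` has the degree `b (i + 1)`) and `t + c - 1`
columns with the degrees `a_0, …, a_(t+c-2)`; the entry in row `b_i` and column `a_j` is a form of
degree `a_j - b_i` in `x_0, …, x_n`.
-/

set_option autoImplicit false

open MvPolynomial

universe u

namespace Pool.Agent.Lib.MP_09338f_ag.Dim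

/-! ## Conditions on the degrees -/

/-- The degrees are sorted: `a_0 ≤ … ≤ a_(t+c-2)` and `b_1 ≤ … ≤ b_t`. -/
def SortedDeg (t c : ℕ) (a b : ℕ → ℤ) : Prop :=
  (∀ i j, i ≤ j → j ≤ t + c - 2 → a i ≤ a j) ∧ ∀ i j, 1 ≤ i → i ≤ j → j ≤ t → b i ≤ b j

/-- `W(b; a)` is not empty: `a_(i-1) ≥ b_i` for `1 ≤ i ≤ t`, and `a_(i-1) > b_i` for some `i`. -/
def NonemptyW (t : ℕ) (a b : ℕ → ℤ) : Prop :=
  (∀ i, 1 ≤ i → i ≤ t → b i ≤ a (i - 1)) ∧ ∃ i, 1 ≤ i ∧ i ≤ t ∧ b i < a (i - 1)

/-- `a_(i-μ) ≥ b_i` for `μ ≤ i ≤ t` if `n > c`, and `a_(i-μ) > b_i` for `μ ≤ i ≤ t` if `n = c`. -/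
def Gap (n t c μ : ℕ) (a b : ℕ → ℤ) : Prop :=
  ∀ i, μ ≤ i → i ≤ t → (c < n → b i ≤ a (i - μ)) ∧ (n = c → b i < a (i - μ))

/-! ## The dimension of `W(b; a)` -/

/-- The coefficients of a matrix with entries of the degrees `a j - b i` in `N` variables:
`(i, j, m)`, where `m` is a monomial of degree `a j - b i`. -/
def Coef {I J : Type} (N : ℕ) (a : J → ℤ) (b : I → ℤ) : Type :=
  {p : I × J × (Fin N →₀ ℕ) // ((p.2.2.degree : ℕ) : ℤ) = a p.2.1 - b p.1}

/-- `A` is a generic matrix over the extension `K` of `k`: the entry `A i j` is homogeneous of degree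
`a j - b i` (all its monomials have this degree), and all the coefficients of all the entries are
algebraically independent over `k`. -/
def Generic (k : Type u) {K : Type u} [Field k] [Field K] [Algebra k K] {I J : Type} {N : ℕ}
    (a : J → ℤ) (b : I → ℤ) (A : Matrix I J (MvPolynomial (Fin N) K)) : Prop :=
  (∀ i j, ∀ m ∈ (A i j).support, ((m.degree : ℕ) : ℤ) = a j - b i) ∧
    AlgebraicIndependent k fun p : Coef N a b => (A p.1.1 p.1.2.1).coeff p.1.2.2

/-- The ideal of the maximal minors of a `t × s` matrix. -/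
def minors {R : Type u} [CommRing R] {t s : ℕ} (A : Matrix (Fin t) (Fin s) R) : Ideal R :=
  Ideal.span (Set.range fun e : Fin t → Fin s => (A.submatrix id e).det)

/-- The ideal `P` of `K[x_0, …, x_(N-1)]` is defined over the field `F`: it is generated by
polynomials with coefficients in `F`. -/
def DefinedOver {k K : Type u} [Field k] [Field K] [Algebra k K] {N : ℕ}
    (P : Ideal (MvPolynomial (Fin N) K)) (F : IntermediateField k K) : Prop :=
  P = Ideal.span {f | f ∈ P ∧ ∀ m, f.coeff m ∈ F}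

/-- For an ideal `P` of `K[x_0, …, x_n]`, where `K` is an extension of `k`: `x_0` is a nonzerodivisor
modulo `P` (so the homogeneous ideal `P` is saturated), and among the fields `k ⊆ F ⊆ K` over which
`P` is defined there is a smallest one; it has the transcendence degree `d` over `k`. -/
def ModDim (k : Type u) {K : Type u} [Field k] [Field K] [Algebra k K] {n : ℕ}
    (P : Ideal (MvPolynomial (Fin (n + 1)) K)) (d : ℤ) : Prop :=
  (∀ f, X 0 * f ∈ P → f ∈ P) ∧
    ∃ F : IntermediateField k K, IsLeast {F | DefinedOver P F} F ∧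
      ∃ e : ℕ, Algebra.trdeg k F = e ∧ (e : ℤ) = d

/-- The dimension of `W(b; a)` is `d`: generic matrices `A` exist over suitable extensions `K ⊇ k`,
and for all of them the ideal of the maximal minors is saturated and its field of definition has the
transcendence degree `d` over `k`.

Reason for this definition: `W(b; a)` is the image in the Hilbert scheme of a dense open subset of
the affine space of all these matrices.  So the closure of `W(b; a)` is irreducible, its generic
point is the image of a generic matrix `A`, that is, the point given by the subscheme of `ℙⁿ` over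
`K` with the saturated ideal `minors A`; its residue field is the smallest field over which this
subscheme (equivalently, its saturated ideal) is defined; the dimension is the transcendence degree
of this field. -/
def DimW (k : Type u) [Field k] (n t c : ℕ) (a b : ℕ → ℤ) (d : ℤ) : Prop :=
  (∃ (K : Type u) (_ : Field K) (_ : Algebra k K)
    (A : Matrix (Fin t) (Fin (t + c - 1)) (MvPolynomial (Fin (n + 1)) K)),
    Generic k (fun j : Fin (t + c - 1) => a j) (fun i : Fin t => b (i + 1)) A) ∧
  ∀ (K : Type u) [Field K] [Algebra k K]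
    (A : Matrix (Fin t) (Fin (t + c - 1)) (MvPolynomial (Fin (n + 1)) K)),
    Generic k (fun j : Fin (t + c - 1) => a j) (fun i : Fin t => b (i + 1)) A →
      ModDim k (minors A) d

/-! ## The numbers of the formula -/

/-- The binomial coefficient with the convention `(u choose n) = 0` for `u < n`. -/
def bin (u : ℤ) (n : ℕ) : ℤ := if u < n then 0 else (u.toNat.choose n : ℤ)

/-- `λ_c`. -/
def lam (n t c : ℕ) (a b : ℕ → ℤ) : ℤ :=
  ∑ i ∈ Finset.range (t + c - 1), ∑ j ∈ Finset.Icc 1 t, bin (a i - b j + n) n +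
  ∑ i ∈ Finset.range (t + c - 1), ∑ j ∈ Finset.Icc 1 t, bin (b j - a i + n) n -
  ∑ i ∈ Finset.range (t + c - 1), ∑ j ∈ Finset.range (t + c - 1), bin (a i - a j + n) n -
  ∑ i ∈ Finset.Icc 1 t, ∑ j ∈ Finset.Icc 1 t, bin (b i - b j + n) n + 1

/-- `ℓ_m = ∑_{j=0}^{t+m-2} a_j - ∑_{k=1}^t b_k`. -/
def ell (t : ℕ) (a b : ℕ → ℤ) (m : ℕ) : ℤ :=
  ∑ j ∈ Finset.range (t + m - 1), a j - ∑ i ∈ Finset.Icc 1 t, b i

/-- `h_i = 2 a_{t+i+1} - ℓ_{i+3} + n`. -/
def hNum (n t : ℕ) (a b : ℕ → ℤ) (i : ℕ) : ℤ := 2 * a (t + i + 1) - ell t a b (i + 3) + n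

/-- `K_{i+3}`: the sum over `p = (r, s)` with `r + s = i`, over the sets `S`:
`0 ≤ i_1 < … < i_r ≤ t + i` and over the multisets `T`: `1 ≤ j_1 ≤ … ≤ j_s ≤ t`. -/
def KNum (n t : ℕ) (a b : ℕ → ℤ) (i : ℕ) : ℤ :=
  ∑ p ∈ Finset.HasAntidiagonal.antidiagonal i, ∑ S ∈ (Finset.range (t + i + 1)).powersetCard p.1,
    ∑ T ∈ (Finset.Icc 1 t).sym p.2,
      (-1) ^ (i - p.1) * bin (hNum n t a b i + ∑ j ∈ S, a j + ((T : Multiset ℕ).map b).sum) n

end Pool.Agent.Lib.MP_09338f_ag.Dim
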