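import Mathlib
import Pool.Agent.Lib.MP_09338f_ag.KM.Goal3
import Pool.Agent.Lib.MP_09338f_ag.KM.Fin6

/-!
# Project KM, final assembly, part 7: the theorem with the definitions of `KM/Goal3.lean`
-/

set_option autoImplicit false

open MvPolynomial

universe u

namespace Pool.Agent.Lib.MP_09338f_ag

theorem fy_lam : Dim.lam = lam := rfl

theorem fy_KNum : Dim.KNum = KNum := rfl

/-- The theorem. -/
theorem fy_all (k : Type u) [Field k] [IsAlgClosed k] (n t c : ℕ) (a b : ℕ → ℤ)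
    (ht : 1 ≤ t) (hc : 2 ≤ c) (hn : c ≤ n) (hs : Dim.SortedDeg t c a b) (hne : Dim.NonemptyW t a b)
    (hyp : Dim.Gap n t c (min (c / 2 + 1) t) a b ∨
      (Dim.Gap n t c 2 a b ∧ (n = c → b 1 < a 0)))
    (hex : ¬ (t = 2 ∧ n = c ∧ 3 ≤ c ∧ b 1 = b 2 ∧ ∀ j ≤ t + c - 2, a j = b 1 + 1)) :
    Dim.DimW k n t c a b
      (Dim.lam n t c a b + ∑ i ∈ Finset.range (c - 2), Dim.KNum n t a b i) := by
  rw [fy_lam, fy_KNum]
  obtain ⟨⟨K, iK, iA, A, hA⟩, h2⟩ := fx_all k n t c a b ht hc hn hs hne hyp hex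
  exact ⟨⟨K, iK, iA, A, hA⟩, fun K' _ _ A' hA' => h2 K' A' hA'⟩

end Pool.Agent.Lib.MP_09338f_ag
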