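import Pool.Agent.Lib.MP_09338f_ag.KM.Stm1

/-!
# Project KM, piece [e1u]: the unit step for `Ex1`
-/

set_option autoImplicit false

open MvPolynomial Matrix

universe u

namespace Pool.Agent.Lib.MP_09338f_ag

section

variable {I J : Type} {R : Type u} [Fintype I] [DecidableEq I] [Fintype J] [DecidableEq J]
  [CommRing R]

/-- Move the index `some none` to the end. -/
private def e1u_e (I : Type) : Option (Option I) ≃ Option I ⊕ Unit where
  toFun s := match s with
    | none => Sum.inl none
    | some none => Sum.inr ()
    | some (some i) => Sum.inl (some i)
  invFun s := match s with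
    | Sum.inl none => none
    | Sum.inl (some i) => some (some i)
    | Sum.inr _ => some none
  left_inv s := by
    rcases s with _ | _ | i <;> rfl
  right_inv s := by
    rcases s with (_ | i) | _ <;> rfl

/-- The choice of columns of `A` which belongs to a choice of columns of `A'`. -/
private def e1u_y (z : Option I → J) : Option (Option I) → Option J := fun s =>
  match s with
  | none => some (z none)
  | some none => none
  | some (some i) => some (z (some i))

/-- The linear map `u ↦ (u, - r u)`. -/
private def e1u_Phi (r : J → R) : (J → R) →ₗ[R] (Option J → R) where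
  toFun u := fun j => j.elim (-(r ⬝ᵥ u)) u
  map_add' u v := by
    funext j
    cases j with
    | none =>
      simp only [Option.elim_none, Pi.add_apply, dotProduct_add, neg_add]
    | some j => simp only [Option.elim_some, Pi.add_apply]
  map_smul' c u := by
    funext j
    cases j with
    | none =>
      simp only [Option.elim_none, Pi.smul_apply, dotProduct_smul, smul_neg, RingHom.id_apply]
    | some j => simp only [Option.elim_some, Pi.smul_apply, RingHom.id_apply]

omit [Fintype I] [DecidableEq J] in
private theorem e1u_none (A' : Matrix I J R) (r : J → R) (x : Option J → R) :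
    (addCol (addRow A' r) (Pi.single none 1)).mulVec x none = x none + r ⬝ᵥ fun j => x (some j) := by
  rw [Matrix.mulVec, dotProduct, Fintype.sum_option]
  congr 1
  show (Pi.single none (1 : R) : Option I → R) none * x none = x none
  rw [Pi.single_eq_same, one_mul]

omit [Fintype I] [DecidableEq J] in
private theorem e1u_some (A' : Matrix I J R) (r : J → R) (x : Option J → R) (i : I) :
    (addCol (addRow A' r) (Pi.single none 1)).mulVec x (some i) =
      A'.mulVec (fun j => x (some j)) i := by
  rw [Matrix.mulVec, dotProduct, Fintype.sum_option]
  have h : (addCol (addRow A' r) (Pi.single none 1)) (some i) none = 0 := by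
    show (Pi.single none (1 : R) : Option I → R) (some i) = 0
    rw [Pi.single_eq_of_ne (Option.some_ne_none i)]
  rw [h, zero_mul, zero_add]
  rfl

omit [Fintype J] in
private theorem e1u_relsome (A' : Matrix I J R) (r : J → R) (z : Option I → J) (j : J) :
    rel (addCol (addRow A' r) (Pi.single none 1)) (e1u_y z) (some j) = rel A' z j := by
  unfold rel
  rw [← Matrix.det_submatrix_equiv_self (e1u_e I).symm]
  have h : (Matrix.of fun (r_1 s : Option (Option I)) =>
      r_1.elim (if e1u_y z s = some j then (1 : R) else 0) fun i =>
        addCol (addRow A' r) (Pi.single none 1) i (e1u_y z s)).submatrix (e1u_e I).symm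
          (e1u_e I).symm =
      Matrix.fromBlocks (Matrix.of fun (r s : Option I) =>
        r.elim (if z s = j then (1 : R) else 0) fun i => A' i (z s)) 0
        (Matrix.of fun (_ : Unit) (s : Option I) => r (z s)) (1 : Matrix Unit Unit R) := by
    ext p q
    rcases p with (_ | i) | _ <;> rcases q with (_ | i') | _
    · show (if some (z none) = some j then (1 : R) else 0) = if z none = j then (1 : R) else 0
      simp only [Option.some_inj]
    · show (if some (z (some i')) = some j then (1 : R) else 0) =
        if z (some i') = j then (1 : R) else 0
      simp only [Option.some_inj]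
    · show (if (none : Option J) = some j then (1 : R) else 0) = 0
      rw [if_neg (Option.some_ne_none j).symm]
    · rfl
    · rfl
    · show (Pi.single none (1 : R) : Option I → R) (some i) = 0
      rw [Pi.single_eq_of_ne (Option.some_ne_none i)]
    · rfl
    · rfl
    · show (Pi.single none (1 : R) : Option I → R) none = (1 : Matrix Unit Unit R) () ()
      rw [Pi.single_eq_same, Matrix.one_apply_eq]
  rw [h, Matrix.det_fromBlocks_zero₁₂, Matrix.det_one, mul_one]

end

theorem p_e1u (h_rel : S_rel.{u}) : S_e1u.{u} := by
  intro R _ I J _ _ _ _ A' r hA x hx
  have h0 : x = e1u_Phi r (fun j => x (some j)) := by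
    funext j
    cases j with
    | none =>
      show x none = -(r ⬝ᵥ fun j => x (some j))
      have h := congrFun hx none
      rw [e1u_none, Pi.zero_apply] at h
      exact eq_neg_of_add_eq_zero_left h
    | some j => rfl
  have h1 : A'.mulVec (fun j => x (some j)) = 0 := by
    funext i
    rw [← e1u_some A' r x i, hx]
    rfl
  have h2 := hA _ h1
  have h3 : e1u_Phi r (fun j => x (some j)) ∈
      (Submodule.span R (Set.range (rel A'))).map (e1u_Phi r) := Submodule.mem_map_of_mem h2
  rw [h0]
  rw [Submodule.map_span] at h3
  refine Submodule.span_mono ?_ h3
  rintro _ ⟨_, ⟨z, rfl⟩, rfl⟩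
  refine ⟨e1u_y z, ?_⟩
  have h4 := (h_rel R (Option I) (Option J)).1 (addCol (addRow A' r) (Pi.single none 1)) (e1u_y z)
  funext j
  cases j with
  | none =>
    have h := congrFun h4 none
    rw [e1u_none, Pi.zero_apply] at h
    have h5 : (fun j => rel (addCol (addRow A' r) (Pi.single none 1)) (e1u_y z) (some j)) =
        rel A' z := by
      funext j
      exact e1u_relsome A' r z j
    rw [h5] at h
    exact eq_neg_of_add_eq_zero_left h
  | some j => exact e1u_relsome A' r z j

end Pool.Agent.Lib.MP_09338f_ag
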