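import Pool.Agent.Lib.MP_09338f_ag.KM.Stm4

/-!
# MP_09338f_ag, project KM, piece hnr: renaming (helper71)
-/

set_option autoImplicit false

open MvPolynomial Matrix

universe u

namespace Pool.Agent.Lib.MP_09338f_ag

private theorem hnr_T {I I' : Type} [Fintype I] [DecidableEq I] [Fintype I'] [DecidableEq I']
    (b : I → ℤ) (u : I' ≃ I) (s : ℕ) (F : ℤ → ℤ) :
    ∑ T ∈ (Finset.univ : Finset I').sym s, F (((T : Multiset I').map (b ∘ u)).sum) =
      ∑ T ∈ (Finset.univ : Finset I).sym s, F (((T : Multiset I).map b).sum) := by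
  rw [Finset.sym_univ, Finset.sym_univ]
  refine Fintype.sum_equiv (Sym.equivCongr u) _ _ fun T => ?_
  congr 1
  have h : ((Sym.equivCongr u T : Sym I s) : Multiset I) = (T : Multiset I').map u := by
    rw [Sym.equivCongr_apply]
    exact Sym.coe_map T u
  rw [h, Multiset.map_map]

private theorem hnr_S {J J' : Type} [Fintype J] [DecidableEq J] [Fintype J'] [DecidableEq J']
    (a : J → ℤ) (v : J' ≃ J) (m : ℕ) (F : ℤ → ℤ) :
    ∑ S ∈ (Finset.univ : Finset J').powersetCard m, F (∑ j ∈ S, (a ∘ v) j) =
      ∑ S ∈ (Finset.univ : Finset J).powersetCard m, F (∑ j ∈ S, a j) := by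
  rw [← Finset.map_univ_equiv v, Finset.powersetCard_map, Finset.sum_map]
  refine Finset.sum_congr rfl fun S _ => ?_
  congr 1
  exact (Finset.sum_map S v.toEmbedding a).symm

theorem p_hnr : S_hnr.{u} := by
  classical
  intro N I J I' J' _ _ _ _ _ _ _ _ a b u v d
  refine ⟨?_, ?_, ?_, ?_⟩
  · unfold Hnum
    rw [Fintype.card_congr u, Fintype.card_congr v]
    refine Finset.sum_congr rfl fun s _ => ?_
    have hb : ∑ i, (b ∘ u) i = ∑ i, b i := Equiv.sum_comp u b
    rw [hb]
    have h1 := hnr_S a v (Fintype.card I + 1 + s) (fun x =>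
      ∑ T ∈ (Finset.univ : Finset I').sym s, (-1) ^ s *
        (mon N (d - x + ((T : Multiset I').map (b ∘ u)).sum + ∑ i, b i) : ℤ))
    rw [h1]
    refine Finset.sum_congr rfl fun S _ => ?_
    exact hnr_T b u s (fun x => (-1) ^ s * (mon N (d - ∑ j ∈ S, a j + x + ∑ i, b i) : ℤ))
  · intro K _ A
    have h : kerD (a ∘ v) (A.submatrix u v) d =
        (kerD a A d).map ((LinearEquiv.funCongrLeft K (MvPolynomial (Fin N) K) v) :
          (J → MvPolynomial (Fin N) K) →ₗ[K] (J' → MvPolynomial (Fin N) K)) := by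
      ext y
      rw [Submodule.mem_map]
      have m1 : y ∈ kerD (a ∘ v) (A.submatrix u v) d ↔
          (∀ q ∈ Set.univ, y q ∈ homS N K (d - (a ∘ v) q)) ∧ (A.submatrix u v).mulVec y = 0 :=
        Iff.rfl
      have m2 : ∀ x : J → MvPolynomial (Fin N) K, x ∈ kerD a A d ↔
          (∀ q ∈ Set.univ, x q ∈ homS N K (d - a q)) ∧ A.mulVec x = 0 := fun _ => Iff.rfl
      rw [m1]
      constructor
      · rintro ⟨h1, h2⟩
        refine ⟨fun j => y (v.symm j), ?_, ?_⟩
        · rw [m2]
          refine ⟨fun q _ => ?_, ?_⟩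
          · have := h1 (v.symm q) (Set.mem_univ _)
            simpa using this
          · rw [Matrix.submatrix_mulVec_equiv] at h2
            funext i
            have h3 : (A.mulVec (y ∘ v.symm)) (u (u.symm i)) = 0 := congrFun h2 (u.symm i)
            rw [u.apply_symm_apply] at h3
            exact h3
        · funext j
          show y (v.symm (v j)) = y j
          rw [v.symm_apply_apply]
      · rintro ⟨x, hx, rfl⟩
        rw [m2] at hx
        refine ⟨fun q _ => hx.1 (v q) (Set.mem_univ _), ?_⟩
        rw [Matrix.submatrix_mulVec_equiv]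
        have e : ((LinearEquiv.funCongrLeft K (MvPolynomial (Fin N) K) v :
            (J → MvPolynomial (Fin N) K) →ₗ[K] (J' → MvPolynomial (Fin N) K)) x) ∘ v.symm = x := by
          funext j
          show x (v (v.symm j)) = x j
          rw [v.apply_symm_apply]
        rw [e, hx.2]
        rfl
    rw [h, LinearEquiv.finrank_map_eq]
  · intro hc
    unfold Hnum
    refine Finset.sum_eq_zero fun s _ => ?_
    have h : (Finset.univ : Finset J).powersetCard (Fintype.card I + 1 + s) = ∅ := by
      rw [Finset.powersetCard_eq_empty, Finset.card_univ]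
      omega
    rw [h, Finset.sum_empty]
  · intro hI
    unfold Hnum
    have hI0 : Fintype.card I = 0 := Fintype.card_eq_zero
    have hb : ∑ i, b i = 0 := by
      rw [Finset.univ_eq_empty, Finset.sum_empty]
    rw [hI0, hb]
    have h1 : ∀ s, s ≠ 0 → (Finset.univ : Finset I).sym s = ∅ := by
      intro s hs
      rw [Finset.sym_eq_empty]
      exact ⟨hs, Finset.univ_eq_empty⟩
    rcases Nat.eq_zero_or_pos (Fintype.card J) with hJ | hJ
    · rw [hJ, Finset.range_zero, Finset.sum_empty]
      have : IsEmpty J := Fintype.card_eq_zero_iff.1 hJ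
      rw [Finset.univ_eq_empty, Finset.sum_empty]
    · rw [Finset.sum_eq_single_of_mem 0 (Finset.mem_range.2 hJ)]
      · rw [Finset.sym_zero]
        have h2 : (0 : ℕ) + 1 + 0 = 1 := rfl
        rw [h2, Finset.powersetCard_one, Finset.sum_map]
        refine Finset.sum_congr rfl fun j _ => ?_
        have h0 : ((∅ : Sym I 0) : Multiset I) = 0 := rfl
        simp [h0]
      · intro s _ hs
        rw [h1 s hs]
        simp

end Pool.Agent.Lib.MP_09338f_ag
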