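import Pool.Agent.Lib.MP_09338f_ag.KM.Stm3

/-!
# MP_09338f_ag, project KM, piece hpa (helper36)
-/

set_option autoImplicit false

open MvPolynomial Matrix

universe u

namespace Pool.Agent.Lib.MP_09338f_ag

private theorem hpa_card {J J' : Type} [Fintype J] [Fintype J'] (v : J' ≃ J) (p : J → Prop)
    [DecidablePred p] :
    (Finset.univ.filter fun j => p (v j)).card = (Finset.univ.filter p).card := by
  rw [Finset.card_filter, Finset.card_filter]
  exact Equiv.sum_comp v (fun j => if p j then 1 else 0)

private theorem hpa_cd3 {I J I' J' : Type} [Fintype I] [Fintype J] [Fintype I'] [Fintype J']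
    [DecidableEq I] [DecidableEq J] [DecidableEq I'] [DecidableEq J']
    (u : I' ≃ I) (v : J' ≃ J) (a : J → ℤ) (b : I → ℤ) (h : CD3 a b) : CD3 (a ∘ v) (b ∘ u) := by
  intro i
  have h1 := h (u i)
  have e1 : (Finset.univ.filter fun j => (a ∘ v) j ≤ (b ∘ u) i).card =
      (Finset.univ.filter fun j => a j ≤ b (u i)).card := hpa_card v (fun j => a j ≤ b (u i))
  have e2 : (Finset.univ.filter fun i' => (b ∘ u) i' < (b ∘ u) i).card =
      (Finset.univ.filter fun i' => b i' < b (u i)).card := hpa_card u (fun i' => b i' < b (u i))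
  rw [e1, e2]
  exact h1

private theorem hpa_cd1 {I J1 J2 : Type} [Fintype I] [Fintype J1] [Fintype J2]
    [DecidableEq I] [DecidableEq J1] [DecidableEq J2]
    (a1 : J1 → ℤ) (a2 : J2 → ℤ) (b : I → ℤ) (h : CD1 a1 b) (h2 : ∀ j i, b i ≤ a2 j) :
    CD1 (Sum.elim a1 a2) b := by
  intro i
  refine le_trans (le_of_eq ?_) (h i)
  rw [Finset.card_filter, Finset.card_filter, Fintype.sum_sum_type]
  have : ∑ j : J2, (if Sum.elim a1 a2 (Sum.inr j) < b i then 1 else 0) = 0 := by
    apply Finset.sum_eq_zero
    intro j _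
    rw [if_neg]
    exact not_lt.2 (h2 j i)
  rw [this, add_zero]
  rfl

private theorem hpa_aux (h_hst : S_hst.{u}) (h_hlu : S_hlu.{u}) (h_hpo : S_hpo.{u}) (h_cd : S_cd)
    (h_rh : S_rh.{u}) (L : ℤ) : ∀ (n : ℕ) (N : ℕ) (I J1 J2 : Type) [Fintype I] [DecidableEq I]
    [Fintype J1] [DecidableEq J1] [Fintype J2] [DecidableEq J2] (a1 : J1 → ℤ) (a2 : J2 → ℤ)
    (b : I → ℤ), (∀ i, L ≤ b i) → Fintype.card J1 + ∑ j, (a1 j - L).toNat = n →
    Fintype.card J2 ≤ 1 → Fintype.card I + 1 ≤ Fintype.card J1 →
    Fintype.card J1 + Fintype.card J2 + 1 ≤ Fintype.card I + N → CD3 a1 b →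
    (∀ j i, b i ≤ a2 j) → (∀ j, Nonempty I → ∃ i, b i < a2 j) → GHP.{u} N a1 a2 b := by
  intro n
  induction n using Nat.strong_induction_on with
  | _ n ih =>
    intro N I J1 J2 _ _ _ _ _ _ a1 a2 b hL hn hJ2 hIJ hcard hCD hb hex
    by_cases hI : Fintype.card I ≤ 1
    · intro k K _ _ _ C W _
      exact h_hpo K N I J1 J2 b C W hI
    · push Not at hI
      haveI : Nonempty I := Fintype.card_pos_iff.1 (by omega)
      haveI : Nonempty J1 := Fintype.card_pos_iff.1 (by omega)
      obtain ⟨i0, hi0⟩ := Finite.exists_max b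
      obtain ⟨j0, hj0⟩ := Finite.exists_max a1
      set u := Equiv.optionSubtypeNe i0 with hu
      set v := Equiv.optionSubtypeNe j0 with hv
      apply h_rh N I J1 J2 _ _ J2 a1 a2 b u v (Equiv.refl J2)
      set b' : {i // i ≠ i0} → ℤ := fun i => b i.1 with hb'
      set a1' : {j // j ≠ j0} → ℤ := fun j => a1 j.1 with ha1'
      have e1 : a1 ∘ v = oext a1' (a1 j0) := by
        funext j
        cases j with
        | none => rfl
        | some j => rfl
      have e2 : b ∘ u = oext b' (b i0) := by
        funext i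
        cases i with
        | none => rfl
        | some i => rfl
      have e3 : a2 ∘ (Equiv.refl J2) = a2 := rfl
      have hCD' := hpa_cd3 u v a1 b hCD
      have cI : Fintype.card {i // i ≠ i0} + 1 = Fintype.card I := by
        rw [← Fintype.card_option]
        exact Fintype.card_congr u
      have cJ : Fintype.card {j // j ≠ j0} + 1 = Fintype.card J1 := by
        rw [← Fintype.card_option]
        exact Fintype.card_congr v
      have hsum : ∑ j, (a1 j - L).toNat =
          (a1 j0 - L).toNat + ∑ j, (a1' j - L).toNat := by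
        rw [← Equiv.sum_comp v (fun j => (a1 j - L).toNat), Fintype.sum_option]
        rfl
      rw [e1, e2, e3]
      rw [e1, e2] at hCD'
      set α := a1 j0 with hα
      set β := b i0 with hβ
      have hbβ : ∀ i, b' i ≤ β := fun i => hi0 i.1
      have haα : ∀ j, a1' j ≤ α := fun j => hj0 j.1
      obtain ⟨hβα, q1, q2, q3⟩ := (h_cd {i // i ≠ i0} {j // j ≠ j0} a1' b').2.2.2.2.1 α β hbβ haα
        (by omega) hCD'
      have hLβ : L ≤ β := hL i0
      obtain ⟨N', rfl⟩ : ∃ N', N = N' + 1 := ⟨N - 1, by omega⟩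
      have hbo : ∀ j i, oext b' β i ≤ a2 j := by
        intro j i
        rw [← e2]
        exact hb j (u i)
      have hexo : ∀ j, ∃ i, oext b' β i < a2 j := by
        intro j
        obtain ⟨i, hi⟩ := hex j ‹_›
        refine ⟨u.symm i, ?_⟩
        rw [← e2]
        show b (u (u.symm i)) < a2 j
        rw [Equiv.apply_symm_apply]
        exact hi
      have hLo : ∀ i, L ≤ oext b' β i := by
        intro i
        rw [← e2]
        exact hL (u i)
      by_cases hc : β < α - 1
      · have h1 := q3 hc
        have h2 : CD1 a1' (oext b' β) := by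
          have := h_cd (Option {i // i ≠ i0}) {j // j ≠ j0} a1' (oext b' β)
          exact this.2.1 (this.1 q2)
        have h3 : ∀ i, oext b' β i < α - 1 := by
          intro i
          cases i with
          | none => exact hc
          | some i => exact lt_of_le_of_lt (hbβ i) hc
        have h4 := h_hst N' (Option {i // i ≠ i0}) {j // j ≠ j0} J2 a1' a2 (oext b' β) (α - 1)
          (by rw [Fintype.card_option]; omega) (by rw [Fintype.card_option]; omega)
          (hpa_cd1 a1' a2 _ h2 hbo) h3
          (ih _ (by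
              rw [← hn, Fintype.card_option, Fintype.sum_option, hsum, cJ]
              have e4 : oext a1' (α - 1) none = α - 1 := rfl
              have e5 : ∀ j, oext a1' (α - 1) (some j) = a1' j := fun j => rfl
              simp only [e4, e5]
              have e6 : (α - 1 - L).toNat + 1 = (α - L).toNat := by omega
              omega) (N' + 1) (Option {i // i ≠ i0}) (Option {j // j ≠ j0}) J2
            (oext a1' (α - 1)) a2 (oext b' β) hLo rfl hJ2
            (by rw [Fintype.card_option, Fintype.card_option]; omega)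
            (by rw [Fintype.card_option, Fintype.card_option]; omega) h1 hbo
            (fun j _ => hexo j))
        have e7 : α - 1 + 1 = α := by ring
        rw [e7] at h4
        exact h4
      · have hαβ : α = β + 1 := by omega
        have h4 := h_hlu N' {i // i ≠ i0} {j // j ≠ j0} J2 a1' a2 b' β (by omega) hJ2 (by omega)
          (by omega) (by omega) hbβ (fun j => by rw [← hαβ]; exact haα j)
          (by rw [← hαβ]; exact hCD') (fun j => hb j i0) (Or.inr hexo)
          (ih _ (by
              rw [← hn, hsum]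
              omega) (N' + 1) {i // i ≠ i0} {j // j ≠ j0} J2 a1' a2 b' (fun i => hL i.1) rfl hJ2
            (by omega) (by omega) q1 (fun j i => hb j i.1) (by
              intro j ⟨i'⟩
              obtain ⟨i, hi⟩ := hex j ‹_›
              by_cases hii : i = i0
              · refine ⟨i', lt_of_le_of_lt (hbβ i') ?_⟩
                rw [hβ, ← hii]
                exact hi
              · exact ⟨⟨i, hii⟩, hi⟩))
        rw [hαβ]
        exact h4

theorem p_hpa (h_hst : S_hst.{u}) (h_hlu : S_hlu.{u}) (h_hpo : S_hpo.{u}) (h_cd : S_cd)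
    (h_rh : S_rh.{u}) : S_hpa.{u} := by
  intro N I J1 J2 _ _ _ _ _ _ a1 a2 b hJ2 hIJ hcard hCD hb hex
  obtain ⟨L, hL⟩ : ∃ L : ℤ, ∀ i, L ≤ b i := by
    obtain ⟨L, hL⟩ := (Set.finite_range b).bddBelow
    exact ⟨L, fun i => hL ⟨i, rfl⟩⟩
  exact hpa_aux h_hst h_hlu h_hpo h_cd h_rh L _ N I J1 J2 a1 a2 b hL rfl hJ2 hIJ hcard hCD hb hex

end Pool.Agent.Lib.MP_09338f_ag
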