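import Pool.Agent.Lib.MP_09338f_ag.KM.Stm3

/-!
# MP_09338f_ag, piece isc (helper9): the induction scheme
-/

set_option autoImplicit false

universe u

namespace Pool.Agent.Lib.MP_09338f_ag

private theorem isc_CD1 {I J I' J' : Type} [Fintype I] [Fintype J] [Fintype I'] [Fintype J']
    {a : J → ℤ} {b : I → ℤ} (u : I' ≃ I) (v : J' ≃ J) (h : CD1 a b) : CD1 (a ∘ v) (b ∘ u) := by
  intro i
  have h1 : (Finset.univ.filter fun j => (a ∘ v) j < (b ∘ u) i).card =
      (Finset.univ.filter fun j => a j < b (u i)).card :=
    Finset.card_equiv v (by intro j; simp)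
  have h2 : (Finset.univ.filter fun i' => (b ∘ u) i' < (b ∘ u) i).card =
      (Finset.univ.filter fun i' => b i' < b (u i)).card :=
    Finset.card_equiv u (by intro j; simp)
  rw [h1, h2]
  exact h (u i)

theorem p_isc (h_cd : S_cd) : S_isc := by
  intro δ P hR hE hQ hU hS
  have main : ∀ (L : ℤ) (n : ℕ) (N : ℕ) (I J : Type) [Fintype I] [DecidableEq I] [Fintype J]
      [DecidableEq J] (a : J → ℤ) (b : I → ℤ), (∀ i, L ≤ b i) →
      Fintype.card J + ∑ j, (a j - L).toNat ≤ n → Fintype.card I ≤ Fintype.card J →
      Fintype.card J + δ + 1 ≤ Fintype.card I + N → CD1 a b → P N I J a b := by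
    intro L n
    induction n with
    | zero =>
      intro N I J _ _ _ _ a b _ h1 h2 _ _
      exact hE N I J a b (Fintype.card_eq_zero_iff.1 (by omega))
    | succ n ih =>
      intro N I J _ _ _ _ a b hL h1 h2 h3 hCD
      rcases isEmpty_or_nonempty I with hI | hI
      · exact hE N I J a b hI
      have hJ : Nonempty J := by
        rw [← Fintype.card_pos_iff]
        exact lt_of_lt_of_le (Fintype.card_pos_iff.2 hI) h2
      obtain ⟨i₀, hi₀⟩ := Finite.exists_max b
      obtain ⟨j₀, hj₀⟩ := Finite.exists_max a
      set u : Option {i // i ≠ i₀} ≃ I := Equiv.optionSubtypeNe i₀ with hu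
      set v : Option {j // j ≠ j₀} ≃ J := Equiv.optionSubtypeNe j₀ with hv
      set a' : {j // j ≠ j₀} → ℤ := fun j => a j with ha'
      set b' : {i // i ≠ i₀} → ℤ := fun i => b i with hb'
      have hav : a ∘ v = oext a' (a j₀) := by
        funext j
        cases j with
        | none => simp [hv, oext]
        | some j => simp [hv, oext, ha']
      have hbu : b ∘ u = oext b' (b i₀) := by
        funext j
        cases j with
        | none => simp [hu, oext]
        | some j => simp [hu, oext, hb']
      have hCD' : CD1 (oext a' (a j₀)) (oext b' (b i₀)) := by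
        rw [← hav, ← hbu]
        exact isc_CD1 u v hCD
      have hcI : Fintype.card {i // i ≠ i₀} + 1 = Fintype.card I := by
        rw [← Fintype.card_option]; exact Fintype.card_congr u
      have hcJ : Fintype.card {j // j ≠ j₀} + 1 = Fintype.card J := by
        rw [← Fintype.card_option]; exact Fintype.card_congr v
      have hsum : ∑ j, (a j - L).toNat = (a j₀ - L).toNat + ∑ j, (a' j - L).toNat := by
        rw [← Equiv.sum_comp v, Fintype.sum_option]
        simp [hv, ha']
      have hb'le : ∀ i, b' i ≤ b i₀ := fun i => hi₀ i
      have ha'le : ∀ j, a' j ≤ a j₀ := fun j => hj₀ j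
      obtain ⟨hβα, hC1, hC2, hC3⟩ := (h_cd {i // i ≠ i₀} {j // j ≠ j₀} a' b').2.2.2.1 (a j₀) (b i₀)
        hb'le ha'le (by omega) hCD'
      have hLb' : ∀ i, L ≤ b' i := fun i => hL i
      have hLo : ∀ i, L ≤ oext b' (b i₀) i := by
        intro i
        cases i with
        | none => exact hL i₀
        | some i => exact hL i
      refine hR N I J (Option {i // i ≠ i₀}) (Option {j // j ≠ j₀}) a b u v ?_
      rw [hav, hbu]
      rcases Nat.lt_or_ge (Fintype.card {i // i ≠ i₀}) (Fintype.card {j // j ≠ j₀}) with hlt | hge
      · rcases hβα.eq_or_lt with heq | hlt'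
        · -- unit case
          rw [← heq] at hCD' ⊢
          exact hU N _ _ a' b' (b i₀) hlt (by omega) hC1 hC2 hCD'
            (ih N _ _ a' b' hLb' (by omega) (by omega) (by omega) hC1)
        · -- splitting case
          obtain ⟨N', rfl⟩ : ∃ N', N = N' + 1 := ⟨N - 1, by omega⟩
          have hs1 : a j₀ - 1 + 1 = a j₀ := by ring
          have hC4 := hC3 hlt'
          have h4 := hS N' (Option {i // i ≠ i₀}) {j // j ≠ j₀} a' (oext b' (b i₀)) (a j₀ - 1)
            (by rw [Fintype.card_option]; omega) (by rw [Fintype.card_option]; omega)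
            (by rw [Fintype.card_option]; omega)
            (by
              intro i
              cases i with
              | none =>
                show b i₀ ≤ a j₀ - 1
                omega
              | some i =>
                show b i ≤ a j₀ - 1
                have := hi₀ i
                omega) hC2 hC4 (by rw [hs1]; exact hCD')
            (ih N' _ _ a' _ hLo (by omega) (by rw [Fintype.card_option]; omega)
              (by rw [Fintype.card_option]; omega) hC2)
            (ih (N' + 1) _ _ _ _ hLo (by
              rw [Fintype.card_option, Fintype.sum_option]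
              show _ + ((a j₀ - 1 - L).toNat + ∑ j, (a' j - L).toNat) ≤ n
              have h5 := hL i₀
              omega) (by rw [Fintype.card_option, Fintype.card_option]; omega)
              (by rw [Fintype.card_option, Fintype.card_option]; omega) hC4)
          rw [hs1] at h4
          exact h4
      · -- square case
        exact hQ N _ _ a' b' (a j₀) (b i₀) (by omega) (by omega) hb'le ha'le hβα hC1 hCD'
          (ih N _ _ a' b' hLb' (by omega) (by omega) (by omega) hC1)
  intro N I J _ _ _ _ a b h1 h2 h3
  obtain ⟨L, hL⟩ := (Set.finite_range b).bddBelow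
  exact main L _ N I J a b (fun i => hL (Set.mem_range_self i)) le_rfl h1 h2 h3

end Pool.Agent.Lib.MP_09338f_ag
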