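import Pool.Agent.Lib.MP_09338f_ag.KM.Stm5

/-!
# Project KM, piece mnm: invariance of the ideal of maximal minors
-/

set_option autoImplicit false

open MvPolynomial Matrix

universe u

namespace Pool.Agent.Lib.MP_09338f_ag

/-- multilinear expansion of `det (A H)` -/
private lemma mnm_exp {R : Type u} [CommRing R] {I J : Type} [Fintype I] [DecidableEq I] [Fintype J]
    [DecidableEq J] (A : Matrix I J R) (H : Matrix J I R) :
    (A * H).det = ∑ f : I → J, (∏ i, H (f i) i) * (A.submatrix id f).det := by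
  rw [← Matrix.det_transpose]
  have h1 : (A * H)ᵀ = fun i => ∑ j, H j i • (fun l => A l j) := by
    funext i l
    rw [Matrix.transpose_apply, Matrix.mul_apply, Finset.sum_apply]
    refine Finset.sum_congr rfl fun j _ => ?_
    rw [Pi.smul_apply, smul_eq_mul, mul_comm]
  have h2 : ((A * H)ᵀ).det = (Matrix.detRowAlternating (R := R) (n := I)).toMultilinearMap
      (fun i => ∑ j, H j i • (fun l => A l j)) := by
    rw [← h1]; rfl
  rw [h2, MultilinearMap.map_sum]
  refine Finset.sum_congr rfl fun f _ => ?_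
  rw [MultilinearMap.map_smul_univ, smul_eq_mul]
  congr 1
  rw [← Matrix.det_transpose (A.submatrix id f)]
  rfl

private lemma mnm_le {R : Type u} [CommRing R] {I J : Type} [Fintype I] [DecidableEq I] [Fintype J]
    [DecidableEq J] (A : Matrix I J R) (g : Matrix I I R) (h : Matrix J J R) :
    mins (g * A * h) ≤ mins A := by
  unfold mins
  rw [Ideal.span_le]
  rintro _ ⟨e, rfl⟩
  have h1 : (g * A * h).submatrix id e = g * (A * h.submatrix id e) := by
    rw [Matrix.mul_assoc]
    ext i j
    simp only [Matrix.submatrix_apply, Matrix.mul_apply, id]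
  simp only [SetLike.mem_coe]
  rw [h1, Matrix.det_mul, mnm_exp]
  refine Ideal.mul_mem_left _ _ (Ideal.sum_mem _ fun f _ => Ideal.mul_mem_left _ _ ?_)
  exact Ideal.subset_span ⟨f, rfl⟩

/-- [mnm] invariance of the ideal of maximal minors. -/
theorem p_mnm (h_mim : S_mim.{u}) : S_mnm.{u} := by
  intro R _ I J _ _ _ _ A g₁ g₁' g₂ g₂' h1 h2
  refine le_antisymm (mnm_le A g₁ g₂) ?_
  have h3 : A = g₁' * (g₁ * A * g₂) * g₂' := by
    calc A = (g₁' * g₁) * A * (g₂ * g₂') := by rw [h1, h2, Matrix.one_mul, Matrix.mul_one]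
      _ = _ := by simp only [Matrix.mul_assoc]
  calc mins A = mins (g₁' * (g₁ * A * g₂) * g₂') := by rw [← h3]
    _ ≤ mins (g₁ * A * g₂) := mnm_le _ _ _

end Pool.Agent.Lib.MP_09338f_ag
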