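import Pool.Agent.Lib.MP_09338f_ag.KM.Stm2

/-!
# Project KM, piece [sc]: semicontinuity of the rank
-/

set_option autoImplicit false

open MvPolynomial Matrix

universe u

namespace Pool.Agent.Lib.MP_09338f_ag

/-- A nonzero minor of a linearly independent family. -/
private theorem sc_minor {F : Type u} [Field F] {S X : Type} [Fintype S] [DecidableEq S]
    (w : S → X → F) (hw : LinearIndependent F w) :
    ∃ c : S → X, (Matrix.of fun i j => w i (c j)).det ≠ 0 := by
  classical
  set s : Set (S → F) := Set.range (fun (x : X) (i : S) => w i x) with hs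
  have hspan : Submodule.span F s = ⊤ := by
    by_contra hcon
    obtain ⟨f, hf0, hf⟩ := Submodule.exists_le_ker_of_lt_top _ (lt_top_iff_ne_top.mpr hcon)
    apply hf0
    have h1 : ∑ i, f (Pi.single i 1) • w i = 0 := by
      funext x
      have h2 : (fun i => w i x) ∈ LinearMap.ker f :=
        hf (Submodule.subset_span ⟨x, rfl⟩)
      rw [LinearMap.mem_ker, LinearMap.pi_apply_eq_sum_univ f] at h2
      rw [Finset.sum_apply, Pi.zero_apply, ← h2]
      refine Finset.sum_congr rfl fun i _ => ?_
      rw [Pi.smul_apply, smul_eq_mul, smul_eq_mul, mul_comm]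
      congr 2
      funext j
      rw [Pi.single_apply]
      by_cases hij : i = j
      · rw [if_pos hij, if_pos hij.symm]
      · rw [if_neg hij, if_neg (Ne.symm hij)]
    have h3 := Fintype.linearIndependent_iff.mp hw _ h1
    apply LinearMap.pi_ext'
    intro i
    ext
    simp only [LinearMap.comp_apply, LinearMap.single_apply, LinearMap.zero_apply]
    exact h3 i
  obtain ⟨b, hbs, hbspan, hbli⟩ := exists_linearIndependent F s
  rw [hspan] at hbspan
  have hbfin : Finite b := hbli.finite_of_isNoetherian
  haveI : Fintype b := Fintype.ofFinite b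
  have hcard : Fintype.card b = Fintype.card S := by
    have h1 := finrank_span_eq_card hbli
    rw [Subtype.range_coe_subtype, Set.setOf_mem_eq, hbspan, finrank_top,
      Module.finrank_fintype_fun_eq_card] at h1
    exact h1.symm
  let e : S ≃ b := Fintype.equivOfCardEq hcard.symm
  have hc : ∀ j : S, ∃ x : X, (fun i => w i x) = (e j : S → F) := fun j => hbs (e j).2
  choose c hc using hc
  refine ⟨c, ?_⟩
  have h2 : LinearIndependent F (fun j : S => (e j : S → F)) := hbli.comp e e.injective
  have h3 : LinearIndependent F (Matrix.of fun i j => w i (c j)).col := by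
    have h4 : (Matrix.of fun i j => w i (c j)).col = fun j : S => (e j : S → F) := by
      funext j i
      exact congrFun (hc j) i
    rw [h4]
    exact h2
  rw [Matrix.linearIndependent_cols_iff_isUnit, Matrix.isUnit_iff_isUnit_det] at h3
  exact h3.ne_zero

/-- A family with a nonzero minor is linearly independent. -/
private theorem sc_li {F : Type u} [Field F] {S X : Type} [Fintype S] [DecidableEq S]
    (w : S → X → F) (c : S → X) (hc : (Matrix.of fun i j => w i (c j)).det ≠ 0) :
    LinearIndependent F w := by
  apply LinearIndependent.of_comp (LinearMap.funLeft F F c)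
  have h1 : (LinearMap.funLeft F F c) ∘ w = (Matrix.of fun i j => w i (c j)).row := by
    funext i j
    rfl
  rw [h1, Matrix.linearIndependent_rows_iff_isUnit, Matrix.isUnit_iff_isUnit_det]
  exact isUnit_iff_ne_zero.mpr hc

theorem p_sc : S_sc.{u} := by
  classical
  intro O K₀ K _ _ _ _ f g hg ι X _ v
  obtain ⟨κ, a, ha, hspan, hli⟩ := exists_linearIndependent' K₀ (fun (i : ι) (x : X) => f (v i x))
  haveI : Finite κ := Finite.of_injective a ha
  haveI : Fintype κ := Fintype.ofFinite κ
  rw [← hspan, finrank_span_eq_card hli]
  obtain ⟨c, hc⟩ := sc_minor _ hli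
  have h1 : (Matrix.of fun i j => ((fun (i : ι) (x : X) => f (v i x)) ∘ a) i (c j)).det =
      f (Matrix.of fun i j => v (a i) (c j)).det := by
    rw [RingHom.map_det]
    rfl
  have h2 : (Matrix.of fun i j => v (a i) (c j)).det ≠ 0 := by
    intro h
    rw [h1, h, map_zero] at hc
    exact hc rfl
  have h3 : (Matrix.of fun i j => ((fun (i : ι) (x : X) => g (v i x)) ∘ a) i (c j)).det ≠ 0 := by
    have h4 : (Matrix.of fun i j => ((fun (i : ι) (x : X) => g (v i x)) ∘ a) i (c j)).det =
        g (Matrix.of fun i j => v (a i) (c j)).det := by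
      rw [RingHom.map_det]
      rfl
    rw [h4]
    exact (map_ne_zero_iff g hg).mpr h2
  have h5 := sc_li _ c h3
  rw [← finrank_span_eq_card h5]
  haveI : FiniteDimensional K (Submodule.span K (Set.range fun (i : ι) (x : X) => g (v i x))) :=
    FiniteDimensional.span_of_finite K (Set.finite_range _)
  exact Submodule.finrank_mono (Submodule.span_mono (Set.range_comp_subset_range _ _))

end Pool.Agent.Lib.MP_09338f_ag
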