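import Pool.Agent.Lib.MP_09338f_ag.KM.Stm2

/-!
# Project KM, piece spt: specialisation for `TP`
-/

set_option autoImplicit false

open MvPolynomial Matrix

universe u

namespace Pool.Agent.Lib.MP_09338f_ag

section alg

variable {I J : Type} {R R' : Type u} [Fintype I] [DecidableEq I] [Fintype J] [DecidableEq J]
  [CommRing R] [CommRing R']

/-- the derivatives of the minors, as a matrix -/
def spt_phi (A : Matrix I J R) : Matrix ((I → J) × I × I) (I × J) R := fun q p =>
  if q.2.1 = q.2.2 then dd A (Matrix.single p.1 p.2 1) q.1 else 0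

/-- copies of `A` -/
def spt_psi (A : Matrix I J R) : Matrix ((I → J) × I × I) ((I → J) × I × J) R := fun q p =>
  if q.1 = p.1 ∧ q.2.1 = p.2.1 then A q.2.2 p.2.2 else 0

/-- copies of the Cramer relations -/
def spt_om (A : Matrix I J R) : Matrix ((I → J) × I × J) ((I → J) × I × (Option I → J)) R :=
  fun q p => if q.1 = p.1 ∧ q.2.1 = p.2.1 then rel A p.2.2 q.2.2 else 0

/-- the orbit -/
def spt_xi (A : Matrix I J R) : Matrix (I × J) ((I × I) ⊕ (J × J)) R := fun q p =>
  p.elim (fun p => if q.1 = p.1 then A p.2 q.2 else 0) (fun p => if q.2 = p.2 then A q.1 p.1 else 0)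

theorem spt_dd_cramer (A B : Matrix I J R) (e : I → J) :
    dd A B e = ∑ k, Matrix.cramer (A.submatrix id e) (fun i => B i (e k)) k := by
  unfold dd
  refine Finset.sum_congr rfl fun k _ => ?_
  rw [Matrix.cramer_apply]

theorem spt_cramer_sum (M : Matrix I I R) (v : I → R) (k : I) :
    Matrix.cramer M v k = ∑ i₀, v i₀ * Matrix.cramer M (Pi.single i₀ 1) k := by
  have h := LinearMap.pi_apply_eq_sum_univ (Matrix.cramer M) v
  rw [h, Finset.sum_apply]
  refine Finset.sum_congr rfl fun i₀ _ => ?_
  rw [Pi.smul_apply, smul_eq_mul]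
  have h1 : (fun j => if i₀ = j then (1 : R) else 0) = Pi.single i₀ 1 := by
    ext j
    rw [Pi.single_apply]
    simp only [eq_comm]
  rw [h1]

theorem spt_dd_single (A : Matrix I J R) (i₀ : I) (j₀ : J) (e : I → J) :
    dd A (Matrix.single i₀ j₀ 1) e =
      ∑ k, if e k = j₀ then Matrix.cramer (A.submatrix id e) (Pi.single i₀ 1) k else 0 := by
  rw [spt_dd_cramer]
  refine Finset.sum_congr rfl fun k _ => ?_
  by_cases hk : e k = j₀
  · rw [if_pos hk]
    have h1 : (fun i => Matrix.single i₀ j₀ (1 : R) i (e k)) = Pi.single i₀ 1 := by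
      ext i
      by_cases hi : i = i₀
      · subst hi
        rw [hk, Matrix.single_apply_same, Pi.single_eq_same]
      · rw [Pi.single_eq_of_ne hi, Matrix.single_apply_of_ne]
        rintro ⟨h, -⟩
        exact hi h.symm
    rw [h1]
  · rw [if_neg hk]
    have : (fun i => Matrix.single i₀ j₀ (1 : R) i (e k)) = 0 := by
      ext i
      rw [Matrix.single_apply_of_ne]
      · rfl
      · rintro ⟨-, h⟩
        exact hk h.symm
    rw [this, map_zero]
    rfl

theorem spt_phi_mulVec (A B : Matrix I J R) (e : I → J) (i i' : I) :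
    (spt_phi A).mulVec (fun p => B p.1 p.2) (e, i, i') = if i = i' then dd A B e else 0 := by
  unfold Matrix.mulVec dotProduct spt_phi
  by_cases h : i = i'
  · simp only [if_pos h]
    rw [Fintype.sum_prod_type]
    simp_rw [spt_dd_single]
    rw [spt_dd_cramer]
    simp_rw [Finset.sum_mul, ite_mul, zero_mul]
    have h1 : ∀ k, Matrix.cramer (A.submatrix id e) (fun i => B i (e k)) k =
        ∑ i₀, B i₀ (e k) * Matrix.cramer (A.submatrix id e) (Pi.single i₀ 1) k := fun k =>
      spt_cramer_sum _ _ k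
    simp_rw [h1]
    rw [Finset.sum_comm (s := Finset.univ (α := I)) (t := Finset.univ (α := I))
      (f := fun k i₀ => B i₀ (e k) * Matrix.cramer (A.submatrix id e) (Pi.single i₀ 1) k)]
    refine Finset.sum_congr rfl fun i₀ _ => ?_
    rw [Finset.sum_comm]
    refine Finset.sum_congr rfl fun k _ => ?_
    rw [Finset.sum_ite_eq Finset.univ (e k), if_pos (Finset.mem_univ _), mul_comm]
  · simp only [if_neg h, zero_mul, Finset.sum_const_zero]

theorem spt_sum {X Y Z : Type} [Fintype X] [DecidableEq X] [Fintype Y] [DecidableEq Y] [Fintype Z]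
    (x : X) (y : Y) (G : X × Y × Z → R) :
    (∑ p : X × Y × Z, if x = p.1 ∧ y = p.2.1 then G p else 0) = ∑ z, G (x, y, z) := by
  rw [Fintype.sum_prod_type, Finset.sum_eq_single x]
  · rw [Fintype.sum_prod_type, Finset.sum_eq_single y]
    · refine Finset.sum_congr rfl fun z _ => ?_
      exact if_pos ⟨rfl, rfl⟩
    · intro y' _ hy'
      refine Finset.sum_eq_zero fun z _ => if_neg ?_
      rintro ⟨-, h⟩
      exact hy' h.symm
    · exact fun h => absurd (Finset.mem_univ _) h
  · intro x' _ hx'
    refine Finset.sum_eq_zero fun z _ => if_neg ?_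
    rintro ⟨h, -⟩
    exact hx' h.symm
  · exact fun h => absurd (Finset.mem_univ _) h

theorem spt_psi_mulVec (A : Matrix I J R) (y : (I → J) × I × J → R) (e : I → J) (i i' : I) :
    (spt_psi A).mulVec y (e, i, i') = A.mulVec (fun j => y (e, i, j)) i' := by
  unfold Matrix.mulVec dotProduct spt_psi
  simp_rw [ite_mul, zero_mul]
  exact spt_sum e i fun p : (I → J) × I × J => A i' p.2.2 * y p

theorem spt_om_mulVec (A : Matrix I J R) (z : (I → J) × I × (Option I → J) → R) (e : I → J) (i : I)
    (j : J) : (spt_om A).mulVec z (e, i, j) = ∑ y, rel A y j * z (e, i, y) := by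
  unfold Matrix.mulVec dotProduct spt_om
  simp_rw [ite_mul, zero_mul]
  exact spt_sum e i fun p : (I → J) × I × (Option I → J) => rel A p.2.2 j * z p

theorem spt_xi_mulVec (A : Matrix I J R) (z : (I × I) ⊕ (J × J) → R) (i : I) (j : J) :
    (spt_xi A).mulVec z (i, j) =
      ((Matrix.of fun i i' => z (Sum.inl (i, i'))) * A +
        A * (Matrix.of fun j j' => z (Sum.inr (j, j')))) i j := by
  rw [Matrix.add_apply, Matrix.mul_apply, Matrix.mul_apply]
  unfold Matrix.mulVec dotProduct spt_xi
  rw [Fintype.sum_sum_type]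
  simp only [Sum.elim_inl, Sum.elim_inr, Matrix.of_apply]
  congr 1
  · rw [Fintype.sum_prod_type, Finset.sum_eq_single i]
    · refine Finset.sum_congr rfl fun i' _ => ?_
      rw [if_pos rfl, mul_comm]
    · intro i' _ hi'
      refine Finset.sum_eq_zero fun z' _ => ?_
      rw [if_neg (Ne.symm hi'), zero_mul]
    · exact fun h => absurd (Finset.mem_univ _) h
  · rw [Fintype.sum_prod_type, Finset.sum_comm, Finset.sum_eq_single j]
    · refine Finset.sum_congr rfl fun j' _ => ?_
      rw [if_pos rfl]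
    · intro j' _ hj'
      refine Finset.sum_eq_zero fun z' _ => ?_
      rw [if_neg (Ne.symm hj'), zero_mul]
    · exact fun h => absurd (Finset.mem_univ _) h

theorem spt_dd_map (h : R →+* R') (A B : Matrix I J R) (e : I → J) :
    dd (A.map h) (B.map h) e = h (dd A B e) := by
  unfold dd
  rw [map_sum]
  refine Finset.sum_congr rfl fun k _ => ?_
  rw [RingHom.map_det]
  congr 1
  ext i j
  by_cases hj : j = k
  · subst hj
    simp [Matrix.updateCol_apply]
  · simp [Matrix.updateCol_apply, hj]

theorem spt_rel_map (h : R →+* R') (A : Matrix I J R) (y : Option I → J) (j : J) :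
    rel (A.map h) y j = h (rel A y j) := by
  unfold rel
  rw [RingHom.map_det]
  congr 1
  ext r s
  cases r with
  | none =>
    by_cases hs : y s = j
    · simp [hs]
    · simp [hs]
  | some i => simp

theorem spt_phi_map (h : R →+* R') (A : Matrix I J R) :
    (spt_phi A).map h = spt_phi (A.map h) := by
  ext q p
  rw [Matrix.map_apply]
  unfold spt_phi
  have : (Matrix.single p.1 p.2 (1 : R')) = (Matrix.single p.1 p.2 (1 : R)).map h := by
    ext i j
    by_cases hij : p.1 = i ∧ p.2 = j
    · simp [Matrix.single, hij]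
    · simp [Matrix.single, hij]
  rw [this, spt_dd_map]
  split_ifs
  · rfl
  · exact map_zero h

theorem spt_psi_map (h : R →+* R') (A : Matrix I J R) :
    (spt_psi A).map h = spt_psi (A.map h) := by
  ext q p
  rw [Matrix.map_apply]
  unfold spt_psi
  split_ifs
  · rfl
  · exact map_zero h

theorem spt_om_map (h : R →+* R') (A : Matrix I J R) :
    (spt_om A).map h = spt_om (A.map h) := by
  ext q p
  rw [Matrix.map_apply]
  unfold spt_om
  rw [spt_rel_map]
  split_ifs
  · rfl
  · exact map_zero h

theorem spt_xi_map (h : R →+* R') (A : Matrix I J R) :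
    (spt_xi A).map h = spt_xi (A.map h) := by
  ext q p
  rw [Matrix.map_apply]
  unfold spt_xi
  cases p with
  | inl p =>
    simp only [Sum.elim_inl]
    split_ifs
    · rfl
    · exact map_zero h
  | inr p =>
    simp only [Sum.elim_inr]
    split_ifs
    · rfl
    · exact map_zero h

end alg

section hom

variable {I J : Type} [Fintype I] [DecidableEq I] [Fintype J] [DecidableEq J] {N : ℕ} {O : Type u}
  [CommRing O]

theorem spt_hom_zero {d : ℤ} : HomD d (0 : MvPolynomial (Fin N) O) := by
  intro m hm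
  simp at hm

theorem spt_hom_sum {ι : Type} (s : Finset ι) (F : ι → MvPolynomial (Fin N) O) (d : ℤ)
    (h : ∀ i ∈ s, HomD d (F i)) : HomD d (∑ i ∈ s, F i) := by
  classical
  intro m hm
  rw [mem_support_iff, coeff_sum] at hm
  obtain ⟨i, hi, h1⟩ := Finset.exists_ne_zero_of_sum_ne_zero hm
  exact h i hi m (mem_support_iff.mpr h1)

theorem spt_hom_one {d : ℤ} (hd : d = 0) : HomD d (1 : MvPolynomial (Fin N) O) := by
  intro m hm
  have h1 : m = 0 := by
    by_contra h
    rw [mem_support_iff] at hm
    apply hm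
    rw [coeff_one, if_neg (Ne.symm h)]
  rw [h1, hd]
  simp

theorem spt_hom_phi (h_reld : S_reld.{u}) (a : J → ℤ) (b : I → ℤ)
    (A : Matrix I J (MvPolynomial (Fin N) O)) (hA : HomM a b A) :
    HomM (fun p : I × J => b p.1 - a p.2)
      (fun q : (I → J) × I × I => b q.2.2 - b q.2.1 + ∑ i, b i - ∑ i, a (q.1 i)) (spt_phi A) := by
  rintro ⟨e, i, i'⟩ ⟨i₀, j₀⟩
  unfold spt_phi
  by_cases hi : i = i'
  · subst hi
    simp only [if_true]
    unfold dd
    apply spt_hom_sum
    intro k _
    have h1 := (h_reld O N I J a b A hA).2.2.2 (fun i => Matrix.single i₀ j₀ 1 i (e k))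
      (a (e k) - a j₀ + b i₀) (fun i => by
        by_cases h : i₀ = i ∧ j₀ = e k
        · obtain ⟨h1, h2⟩ := h
          rw [← h1, ← h2, Matrix.single_apply_same]
          exact spt_hom_one (by ring)
        · rw [Matrix.single_apply_of_ne _ _ _ _ _ h]
          exact spt_hom_zero) e k
    have h2 : ∑ i, a (e i) - a (e k) + (a (e k) - a j₀ + b i₀) - ∑ i, b i =
        b i₀ - a j₀ - (b i - b i + ∑ i, b i - ∑ i, a (e i)) := by ring
    rw [h2] at h1
    exact h1
  · simp only [if_neg hi]
    exact spt_hom_zero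

theorem spt_hom_psi (a : J → ℤ) (b : I → ℤ)
    (A : Matrix I J (MvPolynomial (Fin N) O)) (hA : HomM a b A) :
    HomM (fun p : (I → J) × I × J => a p.2.2 - b p.2.1 + ∑ i, b i - ∑ i, a (p.1 i))
      (fun q : (I → J) × I × I => b q.2.2 - b q.2.1 + ∑ i, b i - ∑ i, a (q.1 i)) (spt_psi A) := by
  rintro ⟨e, i, i'⟩ ⟨e', i₁, j⟩
  unfold spt_psi
  by_cases h : e = e' ∧ i = i₁
  · obtain ⟨rfl, rfl⟩ := h
    simp only [and_self, if_true]
    have h1 := hA i' j
    have h2 : a j - b i' = a j - b i + ∑ i, b i - ∑ i, a (e i) -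
        (b i' - b i + ∑ i, b i - ∑ i, a (e i)) := by ring
    rw [h2] at h1
    exact h1
  · simp only [if_neg h]
    exact spt_hom_zero

theorem spt_hom_om (h_reld : S_reld.{u}) (a : J → ℤ) (b : I → ℤ)
    (A : Matrix I J (MvPolynomial (Fin N) O)) (hA : HomM a b A) :
    HomM (fun p : (I → J) × I × (Option I → J) => ∑ s, a (p.2.2 s) - b p.2.1 - ∑ i, a (p.1 i))
      (fun p : (I → J) × I × J => a p.2.2 - b p.2.1 + ∑ i, b i - ∑ i, a (p.1 i)) (spt_om A) := by
  rintro ⟨e, i, j⟩ ⟨e', i₁, y⟩
  unfold spt_om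
  by_cases h : e = e' ∧ i = i₁
  · obtain ⟨rfl, rfl⟩ := h
    simp only [and_self, if_true]
    have h1 := (h_reld O N I J a b A hA).1 y j
    have h2 : ∑ s, a (y s) - ∑ i, b i - a j = ∑ s, a (y s) - b i - ∑ i, a (e i) -
        (a j - b i + ∑ i, b i - ∑ i, a (e i)) := by ring
    rw [h2] at h1
    exact h1
  · simp only [if_neg h]
    exact spt_hom_zero

theorem spt_hom_xi (a : J → ℤ) (b : I → ℤ)
    (A : Matrix I J (MvPolynomial (Fin N) O)) (hA : HomM a b A) :
    HomM (fun p : (I × I) ⊕ (J × J) =>
        p.elim (fun p => b p.1 - b p.2) (fun p => a p.1 - a p.2))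
      (fun p : I × J => b p.1 - a p.2) (spt_xi A) := by
  rintro ⟨i, j⟩ (⟨i₁, i₂⟩ | ⟨j₁, j₂⟩)
  · unfold spt_xi
    simp only [Sum.elim_inl]
    by_cases h : i = i₁
    · subst h
      rw [if_pos rfl]
      have h1 := hA i₂ j
      have h2 : a j - b i₂ = b i - b i₂ - (b i - a j) := by ring
      rw [h2] at h1
      exact h1
    · rw [if_neg h]
      exact spt_hom_zero
  · unfold spt_xi
    simp only [Sum.elim_inr]
    by_cases h : j = j₂
    · subst h
      rw [if_pos rfl]
      have h1 := hA i j₁
      have h2 : a j₁ - b i = a j₁ - a j - (b i - a j) := by ring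
      rw [h2] at h1
      exact h1
    · rw [if_neg h]
      exact spt_hom_zero

end hom

theorem p_spt (h_exg : S_exg.{u}) (h_unv : S_unv.{u}) (h_mim : S_mim.{u}) (h_rel : S_rel.{u})
    (h_reld : S_reld.{u}) (h_hc : S_hc.{u}) : S_spt.{u} := by
  intro k K₀ K _ _ _ _ _ I J _ _ _ _ N a b A₀ A hA₀ hex hTP hgen
  obtain ⟨U, hU, hspec⟩ := h_unv k I J N a b
  obtain ⟨f, hf, -⟩ := hspec K₀ A₀ hA₀
  obtain ⟨g, hg, hinj⟩ := hspec K A hgen.1
  have hginj : Function.Injective (g : MvPolynomial (Coef N a b) k →+* K) := hinj hgen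
  intro B hB hTpB
  have key := h_exg (MvPolynomial (Coef N a b) k) K₀ K
    (f : MvPolynomial (Coef N a b) k →+* K₀) (g : MvPolynomial (Coef N a b) k →+* K) hginj N
    ((I × I) ⊕ (J × J)) (I × J) ((I → J) × I × I) ((I → J) × I × J)
    ((I → J) × I × (Option I → J)) _ _ _ _ _ 0 (spt_phi U) (spt_psi U) (spt_xi U) (spt_om U)
    (spt_hom_phi h_reld a b U hU) (spt_hom_psi a b U hU) (spt_hom_xi a b U hU)
    (spt_hom_om h_reld a b U hU)
  simp only [spt_phi_map, spt_psi_map, spt_xi_map, spt_om_map] at key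
  rw [hf, hg] at key
  have hfin : ∃ z : (I × I) ⊕ (J × J) → MvPolynomial (Fin N) K,
      (fun p : I × J => B p.1 p.2) = (spt_xi A).mulVec z := by
    refine key ?_ ?_ ?_ ?_ (fun p => B p.1 p.2) ?_
      (fun p => Classical.choose (LinearMap.mem_range.mp (hTpB p.1 p.2.1)) p.2.2) ?_
    · -- first hypothesis
      intro x hx y hxy
      have hBx : HomM a b (Matrix.of fun i j => x (i, j) : Matrix I J (MvPolynomial (Fin N) K₀)) := by
        intro i j
        have h1 := hx (i, j)
        have h2 : (0 : ℤ) - (b i - a j) = a j - b i := by ring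
        simp only [h2] at h1
        exact h1
      have hTp0 : Tp A₀ (Matrix.of fun i j => x (i, j) : Matrix I J (MvPolynomial (Fin N) K₀)) := by
        intro e i
        refine LinearMap.mem_range.mpr ⟨fun j => y (e, i, j), ?_⟩
        ext1 i'
        rw [Matrix.mulVecLin_apply, ← spt_psi_mulVec, ← hxy]
        have h1 := spt_phi_mulVec A₀ (Matrix.of fun i j => x (i, j)) e i i'
        simp only [Matrix.of_apply] at h1
        rw [show (fun p : I × J => x (p.1, p.2)) = x from rfl] at h1
        rw [h1, Pi.single_apply]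
        simp only [eq_comm]
      obtain ⟨X', Y', -, -, h4⟩ := hTP _ hBx hTp0
      refine ⟨Sum.elim (fun p => X' p.1 p.2) (fun p => Y' p.1 p.2), ?_⟩
      ext1 p
      obtain ⟨i, j⟩ := p
      rw [spt_xi_mulVec]
      simp only [Sum.elim_inl, Sum.elim_inr]
      exact congrFun (congrFun h4 i) j
    · -- second hypothesis
      intro y _ hy0
      have h1 : ∀ (e : I → J) (i : I), ∃ c : (Option I → J) → MvPolynomial (Fin N) K₀,
          ∑ s, c s • rel A₀ s = fun j => y (e, i, j) := by
        intro e i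
        have h2 : A₀.mulVec (fun j => y (e, i, j)) = 0 := by
          ext1 i'
          rw [← spt_psi_mulVec, hy0]
          rfl
        exact (Submodule.mem_span_range_iff_exists_fun _).mp (hex _ h2)
      choose c hc using h1
      refine ⟨fun p => c p.1 p.2.1 p.2.2, ?_⟩
      ext1 p
      obtain ⟨e, i, j⟩ := p
      rw [spt_om_mulVec]
      have h3 := congrFun (hc e i) j
      rw [Finset.sum_apply] at h3
      rw [← h3]
      refine Finset.sum_congr rfl fun s _ => ?_
      rw [Pi.smul_apply, smul_eq_mul, mul_comm]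
    · -- third hypothesis
      ext1 q p
      rw [Matrix.mul_apply]
      obtain ⟨e, i, i'⟩ := q
      obtain ⟨e', i₁, y⟩ := p
      have h1 := spt_psi_mulVec A (fun q => spt_om A q (e', i₁, y)) e i i'
      unfold Matrix.mulVec dotProduct at h1
      rw [h1]
      by_cases h : e = e' ∧ i = i₁
      · have h2 := congrFun ((h_rel (MvPolynomial (Fin N) K) I J).1 A y) i'
        unfold Matrix.mulVec dotProduct at h2
        simp only [spt_om, if_pos h]
        exact h2
      · simp only [spt_om, if_neg h, mul_zero, Finset.sum_const_zero]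
        rfl
    · -- fourth hypothesis
      have h1 : ∀ (q₀ : (I × I) ⊕ (J × J)) (e : I → J) (i : I), ∃ v : J → MvPolynomial (Fin N) K,
          A.mulVec v = Pi.single i (dd A (Matrix.of fun i j => spt_xi A (i, j) q₀) e) := by
        intro q₀ e i
        have h2 : (Matrix.of fun i j => spt_xi A (i, j) q₀) =
            (Matrix.of fun i i' => (Pi.single q₀ 1 : (I × I) ⊕ (J × J) → MvPolynomial (Fin N) K)
                (Sum.inl (i, i'))) * A +
              A * (Matrix.of fun j j' => (Pi.single q₀ 1 :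
                (I × I) ⊕ (J × J) → MvPolynomial (Fin N) K) (Sum.inr (j, j'))) := by
          ext1 i j
          rw [← spt_xi_mulVec, Matrix.mulVec_single_one]
          rfl
        have h3 := (h_mim (MvPolynomial (Fin N) K) I J A).2.1
          (Matrix.of fun i i' => (Pi.single q₀ 1 : (I × I) ⊕ (J × J) → MvPolynomial (Fin N) K)
                (Sum.inl (i, i'))) (Matrix.of fun j j' => (Pi.single q₀ 1 :
                (I × I) ⊕ (J × J) → MvPolynomial (Fin N) K) (Sum.inr (j, j'))) e
        rw [← h2] at h3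
        have h4 := (h_mim (MvPolynomial (Fin N) K) I J A).1 _ h3 (Pi.single i 1)
        obtain ⟨v, hv⟩ := LinearMap.mem_range.mp h4
        refine ⟨v, ?_⟩
        rw [Matrix.mulVecLin_apply] at hv
        rw [hv]
        ext1 i'
        rw [Pi.smul_apply, Pi.single_apply, Pi.single_apply, smul_eq_mul, mul_ite, mul_one, mul_zero]
      choose v hv using h1
      refine ⟨fun p q₀ => v q₀ p.1 p.2.1 p.2.2, ?_⟩
      ext1 q q₀
      obtain ⟨e, i, i'⟩ := q
      show (spt_phi A).mulVec (fun p => spt_xi A p q₀) (e, i, i') =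
        (spt_psi A).mulVec (fun p => v q₀ p.1 p.2.1 p.2.2) (e, i, i')
      rw [spt_psi_mulVec, hv]
      have h7 := spt_phi_mulVec A (Matrix.of fun i j => spt_xi A (i, j) q₀) e i i'
      simp only [Matrix.of_apply] at h7
      rw [show (fun p : I × J => spt_xi A (p.1, p.2) q₀) = fun p => spt_xi A p q₀ from rfl] at h7
      rw [h7, Pi.single_apply]
      simp only [eq_comm]
    · -- homogeneity of `B`
      rintro ⟨i, j⟩
      have h1 := hB i j
      have h2 : a j - b i = (0 : ℤ) - (b i - a j) := by ring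
      rw [h2] at h1
      exact h1
    · -- `B` solves the equations
      ext1 q
      obtain ⟨e, i, i'⟩ := q
      rw [spt_psi_mulVec, spt_phi_mulVec]
      have h1 := Classical.choose_spec (LinearMap.mem_range.mp (hTpB e i))
      rw [Matrix.mulVecLin_apply] at h1
      have h2 := congrFun h1 i'
      rw [Pi.single_apply] at h2
      have h3 : (if i = i' then dd A B e else 0) = if i' = i then dd A B e else 0 := by
        simp only [eq_comm]
      rw [h3]
      exact h2.symm

  obtain ⟨z, hz⟩ := hfin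
  have h1 : B = (Matrix.of fun i i' => z (Sum.inl (i, i'))) * A +
      A * (Matrix.of fun j j' => z (Sum.inr (j, j'))) := by
    ext1 i j
    rw [← spt_xi_mulVec, ← hz]
  obtain ⟨X', Y', h2, h3, h4⟩ := (h_hc K N I J a b A hgen.1).2.1 B _ _ hB h1
  exact ⟨X', Y', h2, h3, h4⟩

end Pool.Agent.Lib.MP_09338f_ag
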