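import Pool.Agent.Lib.MP_09338f_ag.KM.Stm3

/-!
# Project KM, piece tpz: `TP` for generic matrices when `N = c + 1`
-/

set_option autoImplicit false
set_option linter.unusedSectionVars false

open MvPolynomial Matrix

universe u

namespace Pool.Agent.Lib.MP_09338f_ag

section counting

variable {I J I' J' : Type} [Fintype I] [DecidableEq I] [Fintype J] [DecidableEq J]
  [Fintype I'] [DecidableEq I'] [Fintype J'] [DecidableEq J']

private theorem tpz_card_comp (v : J' ≃ J) (p : J → Prop) [DecidablePred p] :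
    (Finset.univ.filter fun j => p (v j)).card = (Finset.univ.filter fun j => p j).card := by
  rw [Finset.card_filter, Finset.card_filter]
  exact Equiv.sum_comp v (fun j => if p j then 1 else 0)

private theorem tpz_cd3_comp (a : J → ℤ) (b : I → ℤ) (u : I' ≃ I) (v : J' ≃ J)
    (h : CD3 a b) : CD3 (a ∘ v) (b ∘ u) := by
  intro i
  have h1 := h (u i)
  have e1 := tpz_card_comp v (fun j => a j ≤ b (u i))
  have e2 := tpz_card_comp u (fun i' => b i' < b (u i))
  simp only [Function.comp_apply]
  rw [e1, e2]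
  exact h1

private theorem tpz_cd1_oext (a : J → ℤ) (b : I → ℤ) (γ : ℤ) (h : CD1 a b)
    (hγ : ∀ i, b i ≤ γ) : CD1 (oext a γ) b := by
  intro i
  have h1 := h i
  have e : (Finset.univ.filter fun j => oext a γ j < b i).card =
      (Finset.univ.filter fun j => a j < b i).card := by
    rw [Finset.card_filter, Finset.card_filter, Fintype.sum_option]
    have h2 : ¬ (oext a γ none < b i) := not_lt.2 (hγ i)
    rw [if_neg h2, zero_add]
    rfl
  rw [e]
  exact h1

private theorem tpz_cd3_of (a : J → ℤ) (b : I → ℤ) (h : ∀ i j, b i < a j) : CD3 a b := by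
  intro i
  have e : (Finset.univ.filter fun j => a j ≤ b i) = ∅ := by
    apply Finset.filter_eq_empty_iff.2
    intro j _
    exact not_le.2 (h i j)
  rw [e, Finset.card_empty]
  exact Nat.zero_le _

private theorem tpz_cd3_gt (a : J → ℤ) (b : I → ℤ) (β : ℤ) (h : CD3 a b) (hb : ∀ i, b i = β)
    (i : I) (j : J) : β < a j := by
  by_contra hlt
  have h1 := h i
  have e : (Finset.univ.filter fun i' => b i' < b i) = ∅ := by
    apply Finset.filter_eq_empty_iff.2
    intro i' _
    rw [hb i', hb i]
    exact lt_irrefl _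
  rw [e, Finset.card_empty, Nat.zero_sub, Nat.le_zero, Finset.card_eq_zero] at h1
  have h2 : j ∈ (Finset.univ.filter fun j => a j ≤ b i) := by
    rw [Finset.mem_filter, hb i]
    exact ⟨Finset.mem_univ _, not_lt.1 hlt⟩
  rw [h1] at h2
  exact absurd h2 (Finset.notMem_empty _)

private theorem tpz_comp_none (a : J → ℤ) (j₀ : J) :
    a ∘ (Equiv.optionSubtypeNe j₀) = oext (fun j : {j // j ≠ j₀} => a j) (a j₀) := by
  funext j
  cases j with
  | none => simp [oext]
  | some j => simp [oext]

private theorem tpz_cd3_ren (a : J → ℤ) (b : I → ℤ) (i₀ : I) (j₀ : J) (h : CD3 a b) :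
    CD3 (oext (fun j : {j // j ≠ j₀} => a j) (a j₀)) (oext (fun i : {i // i ≠ i₀} => b i) (b i₀)) := by
  rw [← tpz_comp_none a j₀, ← tpz_comp_none b i₀]
  exact tpz_cd3_comp a b _ _ h

private theorem tpz_meas (a : J → ℤ) (j₀ : J) (L : ℤ) :
    Fintype.card J + ∑ j, (a j - L).toNat =
      Fintype.card {j // j ≠ j₀} + 1 + (a j₀ - L).toNat +
        ∑ j : {j // j ≠ j₀}, (a j - L).toNat := by
  rw [← Equiv.sum_comp (Equiv.optionSubtypeNe j₀) (fun j => (a j - L).toNat), Fintype.sum_option,
    ← Fintype.card_congr (Equiv.optionSubtypeNe j₀), Fintype.card_option]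
  simp only [Equiv.optionSubtypeNe_none, Equiv.optionSubtypeNe_some]
  ring

end counting

private theorem tpz_ren (h_rt : S_rt.{u}) (N : ℕ) (I J : Type) [Fintype I] [DecidableEq I]
    [Fintype J] [DecidableEq J] (a : J → ℤ) (b : I → ℤ) (i₀ : I) (j₀ : J)
    (h : GTP.{u} N (oext (fun j : {j // j ≠ j₀} => a j) (a j₀))
      (oext (fun i : {i // i ≠ i₀} => b i) (b i₀))) : GTP.{u} N a b := by
  refine h_rt N I J (Option {i // i ≠ i₀}) (Option {j // j ≠ j₀}) a b
    (Equiv.optionSubtypeNe i₀) (Equiv.optionSubtypeNe j₀) ?_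
  rw [tpz_comp_none a j₀, tpz_comp_none b i₀]
  exact h

/-- Case (2): two rows of the same degree. -/
private theorem tpz_step2 (h_tst : S_tst.{u}) (h_tun : S_tun.{u}) (h_tpo : S_tpo.{u})
    (h_hp2 : S_hp2.{u}) (h_cd : S_cd) (h_rh : S_rh.{u})
    (N : ℕ) (I J : Type) [Fintype I] [DecidableEq I] [Fintype J] [DecidableEq J] (a : J → ℤ)
    (b : I → ℤ) (β : ℤ) (hI : Fintype.card I = 1) (hJ : 3 ≤ Fintype.card J)
    (hN : Fintype.card J = N) (hb : ∀ i, b i = β) (ha : ∀ j, β < a j) (hex : ∃ j, β + 1 < a j)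
    (hT : GTP.{u} N a (oext b β)) : GTP.{u} (N + 1) (oext a (β + 1)) (oext b β) := by
  have hb' : ∀ i, oext b β i = β := by
    intro i
    cases i with
    | none => rfl
    | some i => exact hb i
  have h3 : CD3 a (oext b β) := tpz_cd3_of _ _ (fun i j => by rw [hb' i]; exact ha j)
  have h3' : CD3 a b := tpz_cd3_of _ _ (fun i j => by rw [hb i]; exact ha j)
  have h1 : CD1 a (oext b β) := (h_cd (Option I) J a (oext b β)).2.1
    ((h_cd (Option I) J a (oext b β)).1 h3)
  have h1' : CD1 a b := (h_cd I J a b).2.1 ((h_cd I J a b).1 h3')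
  have hcard : Fintype.card (Option I) = 2 := by rw [Fintype.card_option, hI]
  refine h_tst N (Option I) J a (oext b β) β (by omega) (by omega) h1
    (tpz_cd1_oext a (oext b β) β h1 (fun i => (hb' i).le)) hT ?_ ?_
  · refine h_tun (N + 1) I J a b β (by omega) (by omega) h1' ?_
    intro k K _ _ _ A hA
    exact h_tpo K (N + 1) I J a b A hA.1 (by omega)
  · have hh := h_hp2 N J a β hJ ha (Or.inr ⟨by omega, hex⟩)
    have u : Option Unit ≃ Option I := Fintype.equivOfCardEq (by simp [hI])
    refine h_rh N (Option I) J Unit (Option Unit) J Unit a (fun _ => β) (oext b β) u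
      (Equiv.refl J) (Equiv.refl Unit) ?_
    have e1 : (oext b β) ∘ u = fun _ : Option Unit => β := by
      funext i
      exact hb' (u i)
    rw [e1]
    exact hh

/-- Case (1): the largest column is split. -/
private theorem tpz_step1 (h_tst : S_tst.{u}) (h_tun : S_tun.{u}) (h_hpa : S_hpa.{u})
    (h_hpc : S_hpc.{u}) (h_cd : S_cd)
    (N : ℕ) (I J : Type) [Fintype I] [DecidableEq I] [Fintype J] [DecidableEq J] (a : J → ℤ)
    (b : I → ℤ) (α β : ℤ) (hI : 1 ≤ Fintype.card I) (hIJ : Fintype.card I + 2 ≤ Fintype.card J)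
    (hN : Fintype.card J + 2 = Fintype.card I + 1 + N) (hb : ∀ i, b i ≤ β) (ha : ∀ j, a j ≤ α)
    (h3 : CD3 (oext a α) (oext b β))
    (hn3 : ¬ (Fintype.card I = 2 ∧ (∀ i, b i = β) ∧ (∀ j, a j = β + 1) ∧ α = β + 1))
    (hn2 : ¬ (Fintype.card I = 1 ∧ (∀ i, b i = β) ∧ (α = β + 1 ∨ ∃ j, a j = β + 1)))
    (hT1 : ¬ (Fintype.card (Option I) = 2 ∧ 4 ≤ Fintype.card J ∧
      ∃ γ, (∀ i, oext b β i = γ) ∧ ∀ j, a j = γ + 1) → CD3 a (oext b β) → GTP.{u} N a (oext b β))
    (hT2 : β < α - 1 → ¬ (Fintype.card (Option I) = 2 ∧ 4 ≤ Fintype.card (Option J) ∧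
      ∃ γ, (∀ i, oext b β i = γ) ∧ ∀ j, oext a (α - 1) j = γ + 1) →
      CD3 (oext a (α - 1)) (oext b β) → GTP.{u} (N + 1) (oext a (α - 1)) (oext b β))
    (hT3 : ¬ (Fintype.card I = 2 ∧ 4 ≤ Fintype.card J ∧
      ∃ γ, (∀ i, b i = γ) ∧ ∀ j, a j = γ + 1) → CD3 a b → GTP.{u} (N + 1) a b) :
    GTP.{u} (N + 1) (oext a α) (oext b β) := by
  obtain ⟨hβα, hc1, hc2, hc3⟩ := (h_cd I J a b).2.2.2.2.1 α β hb ha (by omega) h3
  have hbo : ∀ i, oext b β i ≤ β := by
    intro i
    cases i with
    | none => exact le_rfl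
    | some i => exact hb i
  have hCD1 : CD1 a (oext b β) := (h_cd (Option I) J a (oext b β)).2.1
    ((h_cd (Option I) J a (oext b β)).1 hc2)
  have hCD1' : CD1 a b := (h_cd I J a b).2.1 ((h_cd I J a b).1 hc1)
  have hcard : Fintype.card (Option I) = Fintype.card I + 1 := Fintype.card_option
  have hJne : Nonempty J := Fintype.card_pos_iff.1 (by omega)
  obtain ⟨j₁⟩ := hJne
  have hmain := h_tst N (Option I) J a (oext b β) (α - 1) (by omega) (by omega) hCD1
    (tpz_cd1_oext a (oext b β) (α - 1) hCD1 (fun i => (hbo i).trans (by omega)))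
  rw [sub_add_cancel] at hmain
  apply hmain
  · -- TP for (N, a, b)
    apply hT1 _ hc2
    rintro ⟨h1, -, γ, h2, h4⟩
    have hγ : β = γ := h2 none
    subst hγ
    exact hn2 ⟨by omega, fun i => h2 (some i), Or.inr ⟨j₁, h4 j₁⟩⟩
  · -- TP for (N + 1, oext a (α - 1), b)
    by_cases hlt : β < α - 1
    · apply hT2 hlt _ (hc3 hlt)
      rintro ⟨h1, -, γ, h2, h4⟩
      have hγ : β = γ := h2 none
      subst hγ
      exact hn2 ⟨by omega, fun i => h2 (some i), Or.inr ⟨j₁, h4 (some j₁)⟩⟩
    · have hαβ : α - 1 = β := by omega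
      rw [hαβ]
      refine h_tun (N + 1) I J a b β (by omega) (by omega) hCD1' ?_
      apply hT3 _ hc1
      rintro ⟨h1, h5, γ, h2, h4⟩
      have hi : Nonempty I := Fintype.card_pos_iff.1 (by omega)
      obtain ⟨i₁⟩ := hi
      have hγβ : γ ≤ β := by
        rw [← h2 i₁]
        exact hb i₁
      have hγ : γ = β := by
        by_contra hne
        have hγ1 : γ + 1 ≤ β := by omega
        have h6 := hc2 none
        have e1 : (Finset.univ.filter fun j => a j ≤ oext b β none) = Finset.univ := by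
          apply Finset.filter_true_of_mem
          intro j _
          rw [h4 j]
          exact hγ1
        have e2 : (Finset.univ.filter fun i' => oext b β i' < oext b β none).card ≤
            Fintype.card (Option I) := Finset.card_le_univ _
        rw [e1, Finset.card_univ] at h6
        omega
      subst hγ
      exact hn3 ⟨h1, h2, h4, by omega⟩
  · -- HP
    by_cases hex : ∃ i, oext b β i < α - 1
    · exact h_hpa N (Option I) J Unit a (fun _ => α - 1) (oext b β) (by simp) (by omega)
        (by simp; omega) hc2 (fun _ i => (hbo i).trans (by omega)) (fun _ _ => hex)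
    · push Not at hex
      have hαβ : α - 1 = β := by
        have := hex none
        have h7 : oext b β none = β := rfl
        omega
      have hbβ : ∀ i, oext b β i = β := fun i => le_antisymm (hbo i) (by
        have h11 := hex i
        linarith)
      have haβ : ∀ j, a j = β + 1 := by
        intro j
        have h8 := tpz_cd3_gt a (oext b β) β hc2 hbβ none j
        have h9 := ha j
        omega
      have hcI : 3 ≤ Fintype.card (Option I) := by
        rw [hcard]
        by_contra hlt
        have h10 : Fintype.card I = 1 := by omega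
        exact hn2 ⟨h10, fun i => hbβ (some i), Or.inl (by omega)⟩
      have hh := h_hpc N (Option I) J β hcI (by omega) (by omega)
      have e1 : a = fun _ => β + 1 := funext haβ
      have e2 : oext b β = fun _ => β := funext hbβ
      rw [e1, e2, hαβ]
      exact hh

private theorem tpz_main (h_tst : S_tst.{u}) (h_tun : S_tun.{u}) (h_tpo : S_tpo.{u})
    (h_tp2 : S_tp2.{u}) (h_tp3 : S_tp3.{u}) (h_hpa : S_hpa.{u}) (h_hp2 : S_hp2.{u})
    (h_hpc : S_hpc.{u}) (h_cd : S_cd) (h_rt : S_rt.{u}) (h_rh : S_rh.{u}) (L : ℤ) :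
    ∀ n : ℕ, ∀ (N : ℕ) (I J : Type) [Fintype I] [DecidableEq I] [Fintype J] [DecidableEq J]
      (a : J → ℤ) (b : I → ℤ), (∀ i, L ≤ b i) →
      Fintype.card J + ∑ j, (a j - L).toNat ≤ n →
      Fintype.card I + 1 ≤ Fintype.card J → Fintype.card J + 2 = Fintype.card I + N →
      CD3 a b →
      ¬ (Fintype.card I = 2 ∧ 4 ≤ Fintype.card J ∧ ∃ β, (∀ i, b i = β) ∧ ∀ j, a j = β + 1) →
      GTP.{u} N a b := by
  intro n
  induction n with
  | zero =>
    intro N I J _ _ _ _ a b _ hm hIJ _ _ _
    omega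
  | succ n ih =>
    intro N I J _ _ _ _ a b hL hm hIJ hN h3 hne
    by_cases hI : Fintype.card I ≤ 1
    · intro k K _ _ _ A hA
      exact h_tpo K N I J a b A hA.1 hI
    by_cases hc : Fintype.card J = Fintype.card I + 1
    · exact h_tp2 N I J a b hc (by omega) ((h_cd I J a b).2.1 ((h_cd I J a b).1 h3))
    by_cases hcase3 : Fintype.card I = 3 ∧ ∃ β, (∀ i, b i = β) ∧ ∀ j, a j = β + 1
    · obtain ⟨hI3, β, hb, ha⟩ := hcase3
      have e1 : a = fun _ => β + 1 := funext ha
      have e2 : b = fun _ => β := funext hb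
      rw [e1, e2]
      exact h_tp3 N I J β hI3 (by omega) hN
    obtain ⟨N', rfl⟩ : ∃ N', N = N' + 1 := ⟨N - 1, by omega⟩
    have hIne : Nonempty I := Fintype.card_pos_iff.1 (by omega)
    have hJne : Nonempty J := Fintype.card_pos_iff.1 (by omega)
    have hcardI : ∀ i₀ : I, Fintype.card {i // i ≠ i₀} + 1 = Fintype.card I := by
      intro i₀
      rw [← Fintype.card_congr (Equiv.optionSubtypeNe i₀), Fintype.card_option]
    have hcardJ : ∀ j₀ : J, Fintype.card {j // j ≠ j₀} + 1 = Fintype.card J := by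
      intro j₀
      rw [← Fintype.card_congr (Equiv.optionSubtypeNe j₀), Fintype.card_option]
    by_cases hcase2 : Fintype.card I = 2 ∧ ∃ β, (∀ i, b i = β) ∧ ∃ j, a j = β + 1
    · obtain ⟨hI2, β, hb, j₀, hj₀⟩ := hcase2
      obtain ⟨i₀⟩ := hIne
      have hcI := hcardI i₀
      have hcJ := hcardJ j₀
      apply tpz_ren h_rt (N' + 1) I J a b i₀ j₀
      rw [hj₀, hb i₀]
      have hgt : ∀ j, β < a j := fun j => tpz_cd3_gt a b β h3 hb i₀ j
      have hex : ∃ j : {j // j ≠ j₀}, β + 1 < a j := by
        by_contra hno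
        push Not at hno
        apply hne
        refine ⟨hI2, by omega, β, hb, ?_⟩
        intro j
        by_cases hj : j = j₀
        · rw [hj, hj₀]
        · have h1 : a j ≤ β + 1 := hno ⟨j, hj⟩
          have h2 := hgt j
          omega
      apply tpz_step2 h_tst h_tun h_tpo h_hp2 h_cd h_rh N' {i // i ≠ i₀} {j // j ≠ j₀}
        (fun j => a j) (fun i => b i) β (by omega) (by omega) (by omega) (fun i => hb i)
        (fun j => hgt j) hex
      have hbo : ∀ i, oext (fun i : {i // i ≠ i₀} => b i) β i = β := by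
        intro i
        cases i with
        | none => rfl
        | some i => exact hb i
      have hms := tpz_meas a j₀ L
      apply ih N' (Option {i // i ≠ i₀}) {j // j ≠ j₀}
      · intro i
        rw [hbo i, ← hb i₀]
        exact hL i₀
      · omega
      · rw [Fintype.card_option]
        omega
      · rw [Fintype.card_option]
        omega
      · exact tpz_cd3_of _ _ (fun i j => by rw [hbo i]; exact hgt j)
      · rintro ⟨-, h4, γ, h5, h6⟩
        have hγ : β = γ := h5 none
        subst hγ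
        obtain ⟨j₂, hj₂⟩ := hex
        have h7 : a j₂ = β + 1 := h6 j₂
        omega
    · obtain ⟨i₀, hi₀⟩ := Finite.exists_max b
      obtain ⟨j₀, hj₀⟩ := Finite.exists_max a
      have hcI := hcardI i₀
      have hcJ := hcardJ j₀
      have hms := tpz_meas a j₀ L
      have h3r := tpz_cd3_ren a b i₀ j₀ h3
      have hbI : ∀ (β : ℤ), (∀ i : {i // i ≠ i₀}, b i = β) → b i₀ = β → ∀ i, b i = β := by
        intro β h1 h2 i
        by_cases hi : i = i₀
        · rw [hi, h2]
        · exact h1 ⟨i, hi⟩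
      have haJ : ∀ (α : ℤ), (∀ j : {j // j ≠ j₀}, a j = α) → a j₀ = α → ∀ j, a j = α := by
        intro α h1 h2 j
        by_cases hj : j = j₀
        · rw [hj, h2]
        · exact h1 ⟨j, hj⟩
      apply tpz_ren h_rt (N' + 1) I J a b i₀ j₀
      apply tpz_step1 h_tst h_tun h_hpa h_hpc h_cd N' {i // i ≠ i₀} {j // j ≠ j₀}
        (fun j => a j) (fun i => b i) (a j₀) (b i₀) (by omega) (by omega) (by omega)
        (fun i => hi₀ i) (fun j => hj₀ j) h3r
      · rintro ⟨h1, h2, h4, h5⟩
        apply hcase3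
        exact ⟨by omega, b i₀, hbI _ h2 rfl, haJ _ h4 h5⟩
      · rintro ⟨h1, h2, h4⟩
        apply hcase2
        refine ⟨by omega, b i₀, hbI _ h2 rfl, ?_⟩
        rcases h4 with h4 | ⟨j, h4⟩
        · exact ⟨j₀, h4⟩
        · exact ⟨j, h4⟩
      · intro hne1 hc1
        apply ih N' (Option {i // i ≠ i₀}) {j // j ≠ j₀} _ _ _ _ _ _ hc1 hne1
        · intro i
          cases i with
          | none => exact hL i₀
          | some i => exact hL i
        · omega
        · rw [Fintype.card_option]
          omega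
        · rw [Fintype.card_option]
          omega
      · intro hlt hne1 hc1
        apply ih (N' + 1) (Option {i // i ≠ i₀}) (Option {j // j ≠ j₀}) _ _ _ _ _ _ hc1 hne1
        · intro i
          cases i with
          | none => exact hL i₀
          | some i => exact hL i
        · rw [Fintype.card_option, Fintype.sum_option]
          have e1 : oext (fun j : {j // j ≠ j₀} => a j) (a j₀ - 1) none = a j₀ - 1 := rfl
          have e2 : ∀ j : {j // j ≠ j₀},
              oext (fun j : {j // j ≠ j₀} => a j) (a j₀ - 1) (some j) = a j := fun _ => rfl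
          simp only [e1, e2]
          have h9 := hL i₀
          have h10 : (a j₀ - 1 - L).toNat + 1 = (a j₀ - L).toNat := by omega
          omega
        · rw [Fintype.card_option, Fintype.card_option]
          omega
        · rw [Fintype.card_option, Fintype.card_option]
          omega
      · intro hne1 hc1
        apply ih (N' + 1) {i // i ≠ i₀} {j // j ≠ j₀} _ _ _ _ _ _ hc1 hne1
        · intro i
          exact hL i
        · omega
        · omega
        · omega

theorem p_tpz (h_tst : S_tst.{u}) (h_tun : S_tun.{u}) (h_tpo : S_tpo.{u}) (h_tp2 : S_tp2.{u})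
    (h_tp3 : S_tp3.{u}) (h_hpa : S_hpa.{u}) (h_hp2 : S_hp2.{u}) (h_hpc : S_hpc.{u}) (h_cd : S_cd)
    (h_rt : S_rt.{u}) (h_rh : S_rh.{u}) : S_tpz.{u} := by
  intro N I J _ _ _ _ a b hIJ hN h3 hne
  obtain ⟨L, hL⟩ := (Set.finite_range b).bddBelow
  exact tpz_main h_tst h_tun h_tpo h_tp2 h_tp3 h_hpa h_hp2 h_hpc h_cd h_rt h_rh L _ N I J a b
    (fun i => hL (Set.mem_range_self i)) le_rfl hIJ hN h3 hne

end Pool.Agent.Lib.MP_09338f_ag
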