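import Pool.Agent.Lib.MP_09338f_ag.KM.Stm1

set_option autoImplicit false

open MvPolynomial Matrix

universe u

namespace Pool.Agent.Lib.MP_09338f_ag

theorem tua_det {I : Type} {R : Type u} [Fintype I] [DecidableEq I] [CommRing R]
    (M : Matrix (Option I) (Option I) R) (h0 : ∀ i, M (some i) none = 0) (h1 : M none none = 1) :
    M.det = (M.submatrix some some).det := by
  let E : I ⊕ PUnit.{1} ≃ Option I := (Equiv.optionEquivSumPUnit.{0} I).symm
  have h := Matrix.det_submatrix_equiv_self E M
  rw [← h]
  have h2 : M.submatrix E E =
      Matrix.fromBlocks (M.submatrix some some) 0 (Matrix.of fun (_ : PUnit.{1}) j => M none (some j))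
        (1 : Matrix PUnit.{1} PUnit.{1} R) := by
    ext r s
    rcases r with r | r <;> rcases s with s | s
    · simp [Matrix.fromBlocks, E]
    · simp [Matrix.fromBlocks, h0, E]
    · simp [Matrix.fromBlocks, E]
    · simp [Matrix.fromBlocks, h1, E]
  rw [h2, Matrix.det_fromBlocks_zero₁₂, Matrix.det_one, mul_one]

theorem p_tua (h_mim : S_mim.{u}) : S_tua.{u} := by
  intro R _ I J _ _ _ _ C B h
  set A : Matrix (Option I) (Option J) R := addCol C (Pi.single none 1) with hA
  set Xm : Matrix (Option I) (Option I) R := Matrix.of fun r s => s.elim (- B r none) fun _ => 0 with hX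
  set B₁ : Matrix (Option I) (Option J) R := B + (Xm * A + A * (0 : Matrix (Option J) (Option J) R)) with hB₁
  obtain ⟨m1, m2, -, m4⟩ := h_mim R (Option I) (Option J) A
  have hXA : ∀ r j, (Xm * A) r j = - B r none * A none j := by
    intro r j
    rw [Matrix.mul_apply, Fintype.sum_option]
    simp [hX]
  have hAn : ∀ r, A r none = (Pi.single none 1 : Option I → R) r := fun r => rfl
  have hAs : ∀ r j, A r (some j) = C r j := fun r j => rfl
  have hB0 : ∀ r, B₁ r none = 0 := by
    intro r
    rw [hB₁, Matrix.mul_zero, add_zero, Matrix.add_apply, hXA, hAn, Pi.single_eq_same]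
    ring
  have hBs : ∀ r j, B₁ r (some j) = B r (some j) - B r none * C none j := by
    intro r j
    rw [hB₁, Matrix.mul_zero, add_zero, Matrix.add_apply, hXA, hAs]
    ring
  -- `Tp A B₁`
  have h1 : ∀ (e : Option I → Option J) (i : Option I), Pi.single i (dd A B₁ e) ∈ Im A := by
    intro e i
    rw [hB₁, m4]
    have e1 : (Pi.single i (dd A B e + dd A (Xm * A + A * (0 : Matrix (Option J) (Option J) R)) e) : Option I → R) =
        Pi.single i (dd A B e) + dd A (Xm * A + A * (0 : Matrix (Option J) (Option J) R)) e • Pi.single i 1 := by
      rw [Pi.single_add, ← Pi.single_smul, smul_eq_mul, mul_one]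
    rw [e1]
    exact Submodule.add_mem _ (h e i) (m1 _ (m2 Xm 0 e) _)
  intro e' i
  set e : Option I → Option J := fun s => s.elim none fun s => some (e' s) with he
  have hdd : dd A B₁ e = dd (C.submatrix some id)
      (Matrix.of fun i j => B (some i) (some j) - B (some i) none * C none j) e' := by
    unfold dd
    rw [Fintype.sum_option]
    have z : ((A.submatrix id e).updateCol none fun r => B₁ r (e none)).det = 0 := by
      apply Matrix.det_eq_zero_of_column_eq_zero none
      intro r
      rw [Matrix.updateCol_self]
      exact hB0 r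
    rw [z, zero_add]
    apply Finset.sum_congr rfl
    intro k _
    rw [tua_det]
    · congr 1
      ext r s
      rw [Matrix.submatrix_apply]
      by_cases hs : s = k
      · subst hs
        rw [Matrix.updateCol_self, Matrix.updateCol_self]
        exact hBs (some r) (e' s)
      · rw [Matrix.updateCol_ne (by simpa using hs), Matrix.updateCol_ne hs]
        rfl
    · intro r
      rw [Matrix.updateCol_ne (by simp)]
      change A (some r) none = 0
      rw [hAn]
      simp
    · rw [Matrix.updateCol_ne (by simp)]
      change A none none = 1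
      rw [hAn]
      simp
  have h2 := h1 e (some i)
  rw [hdd] at h2
  obtain ⟨w, hw⟩ := h2
  refine ⟨fun j => w (some j), ?_⟩
  rw [Matrix.mulVecLin_apply] at hw ⊢
  ext r
  have h3 := congrFun hw (some r)
  rw [Matrix.mulVec, dotProduct, Fintype.sum_option, hAn] at h3
  have h4 : (Pi.single none (1 : R) : Option I → R) (some r) = 0 := by simp
  rw [h4, zero_mul, zero_add] at h3
  rw [Matrix.mulVec, dotProduct]
  have h5 : (Pi.single (some i) (dd (C.submatrix some id)
      (Matrix.of fun i j => B (some i) (some j) - B (some i) none * C none j) e') : Option I → R) (some r) =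
      (Pi.single i (dd (C.submatrix some id)
      (Matrix.of fun i j => B (some i) (some j) - B (some i) none * C none j) e') : I → R) r := by
    by_cases hr : r = i
    · subst hr; simp
    · rw [Pi.single_eq_of_ne (by simpa using hr), Pi.single_eq_of_ne hr]
  rw [h5] at h3
  exact h3

end Pool.Agent.Lib.MP_09338f_ag
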